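import Mathlib
import Pool.Agent.Lib.MP_741d1b_nt_h87.GcdFinal
import Pool.Agent.Lib.MP_741d1b_nt_h87.T3Exp2
import Pool.Agent.Lib.MP_741d1b_nt_h87.T3Core1

/-!
Row N1: the GCD matrix, truncated at height `n ^ 2`, has small norm on finite sets.
-/

set_option autoImplicit false

namespace Pool.Agent.MP_741d1b.All

open Finset Classical
open Pool.Agent.MP_741d1b.H87

/-- The truncated GCD kernel `gcd (x, y) / √|x y|`. -/
noncomputable def gk (L : ℕ) (x y : ℤ) : ℝ :=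
  if x ≠ 0 ∧ y ≠ 0 ∧ hgt x y ≤ L then (Int.gcd x y : ℝ) / Real.sqrt (|(x : ℝ)| * |(y : ℝ)|) else 0

/-- The weighted quadratic form attached to weighted dilations. -/
private noncomputable def GW (D : Finset ℕ) (f : ℕ → ℝ) {ι : Type} [Fintype ι] (φ : ι → ℕ)
    (w : ι → ℝ) : ℝ :=
  ∑ x ∈ D, ∑ y ∈ D, f x * f y *
    ∑ i : ι, ∑ j : ι, if x * φ i = y * φ j then w i * w j else 0

private theorem GW_nonneg (D : Finset ℕ) (f : ℕ → ℝ) (hf : ∀ x, 0 ≤ f x) {ι : Type} [Fintype ι]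
    (φ : ι → ℕ) (w : ι → ℝ) (hw : ∀ i, 0 ≤ w i) : 0 ≤ GW D f φ w := by
  unfold GW
  refine sum_nonneg fun x _ => sum_nonneg fun y _ => mul_nonneg (mul_nonneg (hf x) (hf y))
    (sum_nonneg fun i _ => sum_nonneg fun j _ => ?_)
  split_ifs
  · exact mul_nonneg (hw i) (hw j)
  · exact le_refl _

/-- One Cauchy-Schwarz step. -/
private theorem GW_step (D : Finset ℕ) (f : ℕ → ℝ) (hf : ∀ x, 0 ≤ f x) {ι : Type} [Fintype ι]
    (φ : ι → ℕ) (hφ : ∀ i, 0 < φ i) (w : ι → ℝ) (hw : ∀ i, 0 ≤ w i) :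
    GW D f φ w ^ 2 ≤ (∑ x ∈ D, f x ^ 2) *
      GW D f (fun p : ι × ι => φ p.1 * φ p.2) (fun p => w p.1 * w p.2) := by
  set P : Finset (ℕ × ι × ι) := D ×ˢ (univ : Finset (ι × ι)) with hP
  set a : ℕ → ℕ × ι × ι → ℝ := fun x p =>
    if x * φ p.2.1 = p.1 * φ p.2.2 then w p.2.1 * w p.2.2 else 0 with ha
  set g : ℕ → ℝ := fun x => ∑ p ∈ P, f p.1 * a x p with hg
  have hGg : GW D f φ w = ∑ x ∈ D, f x * g x := by
    unfold GW
    refine sum_congr rfl fun x _ => ?_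
    rw [hg]
    simp only
    rw [hP, Finset.sum_product, mul_sum]
    refine sum_congr rfl fun y _ => ?_
    rw [mul_assoc, mul_sum, Fintype.sum_prod_type]
    congr 1
    refine sum_congr rfl fun i _ => ?_
    rw [mul_sum]
  have h1 : GW D f φ w ^ 2 ≤ (∑ x ∈ D, f x ^ 2) * ∑ x ∈ D, g x ^ 2 := by
    rw [hGg]; exact sum_mul_sq_le_sq_mul_sq D f g
  have hF0 : 0 ≤ ∑ x ∈ D, f x ^ 2 := sum_nonneg fun x _ => sq_nonneg _
  refine h1.trans (mul_le_mul_of_nonneg_left ?_ hF0)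
  have h2 : ∑ x ∈ D, g x ^ 2 = ∑ p ∈ P, ∑ q ∈ P, f p.1 * f q.1 * ∑ x ∈ D, a x p * a x q := by
    have : ∀ x ∈ D, g x ^ 2 = ∑ p ∈ P, ∑ q ∈ P, f p.1 * f q.1 * (a x p * a x q) := by
      intro x _
      rw [hg, sq, Finset.sum_mul_sum]
      refine sum_congr rfl fun p _ => sum_congr rfl fun q _ => ?_
      ring
    rw [sum_congr rfl this, sum_comm]
    refine sum_congr rfl fun p _ => ?_
    rw [sum_comm]
    refine sum_congr rfl fun q _ => ?_
    rw [mul_sum]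
  have h3 : ∀ p ∈ P, ∀ q ∈ P, ∑ x ∈ D, a x p * a x q ≤
      if p.1 * (φ p.2.2 * φ q.2.1) = q.1 * (φ q.2.2 * φ p.2.1) then
        (w p.2.2 * w q.2.1) * (w q.2.2 * w p.2.1) else 0 := by
    intro p _ q _
    by_cases hx : ∃ x ∈ D, x * φ p.2.1 = p.1 * φ p.2.2 ∧ x * φ q.2.1 = q.1 * φ q.2.2
    · obtain ⟨x0, hx0, h1, h2⟩ := hx
      rw [Finset.sum_eq_single x0]
      · simp only [ha]
        rw [if_pos h1, if_pos h2, if_pos]
        · apply le_of_eq; ring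
        · calc p.1 * (φ p.2.2 * φ q.2.1) = (p.1 * φ p.2.2) * φ q.2.1 := by ring
            _ = (x0 * φ p.2.1) * φ q.2.1 := by rw [h1]
            _ = (x0 * φ q.2.1) * φ p.2.1 := by ring
            _ = (q.1 * φ q.2.2) * φ p.2.1 := by rw [h2]
            _ = q.1 * (φ q.2.2 * φ p.2.1) := by ring
      · intro x _ hne
        have : ¬ x * φ p.2.1 = p.1 * φ p.2.2 := by
          intro h
          apply hne
          rw [← h1] at h
          exact Nat.eq_of_mul_eq_mul_right (hφ _) h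
        simp only [ha]
        rw [if_neg this, zero_mul]
      · intro h; exact absurd hx0 h
    · have : ∀ x ∈ D, a x p * a x q = 0 := by
        intro x hxD
        simp only [ha]
        by_cases h1 : x * φ p.2.1 = p.1 * φ p.2.2
        · by_cases h2 : x * φ q.2.1 = q.1 * φ q.2.2
          · exact absurd ⟨x, hxD, h1, h2⟩ hx
          · rw [if_neg h2, mul_zero]
        · rw [if_neg h1, zero_mul]
      rw [Finset.sum_eq_zero this]
      split_ifs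
      · exact mul_nonneg (mul_nonneg (hw _) (hw _)) (mul_nonneg (hw _) (hw _))
      · exact le_refl _
  rw [h2]
  refine (sum_le_sum fun p hp => sum_le_sum fun q hq => mul_le_mul_of_nonneg_left
    (h3 p hp q hq) (mul_nonneg (hf _) (hf _))).trans (le_of_eq ?_)
  unfold GW
  rw [hP, Finset.sum_product]
  refine sum_congr rfl fun x _ => ?_
  have e1 : ∀ z : ι × ι, (∑ q ∈ D ×ˢ (univ : Finset (ι × ι)), f (x, z).1 * f q.1 *
      if (x, z).1 * (φ (x, z).2.2 * φ q.2.1) = q.1 * (φ q.2.2 * φ (x, z).2.1) then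
        (w (x, z).2.2 * w q.2.1) * (w q.2.2 * w (x, z).2.1) else 0) =
      ∑ y ∈ D, f x * f y * ∑ q : ι × ι, if x * (φ z.2 * φ q.1) = y * (φ q.2 * φ z.1) then
        (w z.2 * w q.1) * (w q.2 * w z.1) else 0 := by
    intro z
    rw [Finset.sum_product]
    refine sum_congr rfl fun y _ => ?_
    rw [mul_sum]
  rw [sum_congr rfl (fun z _ => e1 z), sum_comm]
  refine sum_congr rfl fun y _ => ?_
  rw [← mul_sum]
  congr 1
  rw [← Fintype.sum_prod_type', ← Fintype.sum_prod_type']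
  refine Fintype.sum_equiv
    { toFun := fun z => ((z.1.2, z.2.1), (z.2.2, z.1.1))
      invFun := fun z => ((z.2.2, z.1.1), (z.1.2, z.2.1))
      left_inv := fun z => rfl
      right_inv := fun z => rfl } _ _ ?_
  intro z
  rfl

/-- The basic bound for one pair. -/
private theorem pair_base (x y : ℕ) (hx0 : 0 < x) (hy0 : 0 < y) {ι : Type} [Fintype ι]
    (φ : ι → ℕ) (hφ : ∀ i, 0 < φ i) (w : ι → ℝ) (hw : ∀ i, 0 ≤ w i) (c : ℝ) (hc : 0 ≤ c) (U : ℕ)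
    (hU : ∀ i, φ i ≤ U)
    (hW : ∀ u, 0 < u → ∑ i ∈ univ.filter (fun i => φ i = u), w i ≤ c / Real.sqrt u) :
    (∑ i : ι, ∑ j : ι, if x * φ i = y * φ j then w i * w j else 0) ≤
      c ^ 2 * (1 + Real.log U) := by
  set W : ℕ → ℝ := fun u => ∑ i ∈ univ.filter (fun i => φ i = u), w i with hWdef
  have hW0 : ∀ u, 0 ≤ W u := fun u => sum_nonneg fun i _ => hw i
  have hharm : ∑ u ∈ Icc 1 U, (1 : ℝ) / u ≤ 1 + Real.log U := by
    have := harmonic_le_one_add_log U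
    rw [harmonic_eq_sum_Icc] at this
    push_cast at this
    simpa [one_div] using this
  have e1 : ∀ (F : ℕ → ℝ), ∑ i : ι, F (φ i) * w i = ∑ u ∈ Icc 1 U, F u * W u := by
    intro F
    rw [← Finset.sum_fiberwise_of_maps_to (g := φ) (t := Icc 1 U)
      (fun i _ => mem_Icc.mpr ⟨hφ i, hU i⟩)]
    refine sum_congr rfl fun u _ => ?_
    rw [hWdef]
    simp only
    rw [mul_sum]
    refine sum_congr rfl fun i hi => ?_
    rw [(mem_filter.mp hi).2]
  have e2 : (∑ i : ι, ∑ j : ι, if x * φ i = y * φ j then w i * w j else 0) =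
      ∑ u ∈ Icc 1 U, ∑ v ∈ Icc 1 U, if x * u = y * v then W u * W v else 0 := by
    have h1 : ∀ i : ι, (∑ j : ι, if x * φ i = y * φ j then w i * w j else 0) =
        (∑ v ∈ Icc 1 U, (if x * φ i = y * v then (1 : ℝ) else 0) * W v) * w i := by
      intro i
      rw [← e1 (fun v => if x * φ i = y * v then (1 : ℝ) else 0), sum_mul]
      refine sum_congr rfl fun j _ => ?_
      split_ifs <;> ring
    rw [sum_congr rfl (fun i _ => h1 i),
      e1 (fun u => ∑ v ∈ Icc 1 U, (if x * u = y * v then (1 : ℝ) else 0) * W v)]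
    refine sum_congr rfl fun u _ => ?_
    rw [sum_mul]
    refine sum_congr rfl fun v _ => ?_
    split_ifs <;> ring
  rw [e2]
  have e3 : ∀ u ∈ Icc 1 U, ∀ v ∈ Icc 1 U, (if x * u = y * v then W u * W v else 0) ≤
      (if x * u = y * v then c ^ 2 * (1 / (u : ℝ)) / 2 else 0) +
      (if x * u = y * v then c ^ 2 * (1 / (v : ℝ)) / 2 else 0) := by
    intro u hu v hv
    split_ifs with h
    · have hu0 : (0 : ℝ) < u := by exact_mod_cast (mem_Icc.mp hu).1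
      have hv0 : (0 : ℝ) < v := by exact_mod_cast (mem_Icc.mp hv).1
      have a1 : W u * W v ≤ (c / Real.sqrt u) * (c / Real.sqrt v) :=
        mul_le_mul (hW u (mem_Icc.mp hu).1) (hW v (mem_Icc.mp hv).1) (hW0 v) (by positivity)
      have a2 : (c / Real.sqrt u) * (c / Real.sqrt v) =
          c ^ 2 * ((1 / Real.sqrt u) * (1 / Real.sqrt v)) := by ring
      have a3 : (1 / Real.sqrt u) * (1 / Real.sqrt v) ≤ (1 / (u : ℝ) + 1 / v) / 2 := by
        have b1 : (1 / Real.sqrt u) ^ 2 = 1 / (u : ℝ) := by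
          rw [div_pow, one_pow, Real.sq_sqrt hu0.le]
        have b2 : (1 / Real.sqrt v) ^ 2 = 1 / (v : ℝ) := by
          rw [div_pow, one_pow, Real.sq_sqrt hv0.le]
        rw [← b1, ← b2]
        nlinarith [sq_nonneg (1 / Real.sqrt u - 1 / Real.sqrt v)]
      have a4 := mul_le_mul_of_nonneg_left a3 (sq_nonneg c)
      linarith
    · simp
  refine (sum_le_sum fun u hu => sum_le_sum fun v hv => e3 u hu v hv).trans ?_
  simp only [sum_add_distrib]
  have f1 : ∑ u ∈ Icc 1 U, ∑ v ∈ Icc 1 U,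
      (if x * u = y * v then c ^ 2 * (1 / (u : ℝ)) / 2 else 0) ≤
      c ^ 2 * (1 + Real.log U) / 2 := by
    have : ∀ u ∈ Icc 1 U, ∑ v ∈ Icc 1 U,
        (if x * u = y * v then c ^ 2 * (1 / (u : ℝ)) / 2 else 0) ≤ c ^ 2 * (1 / (u : ℝ)) / 2 := by
      intro u hu
      have hu0 : (0 : ℝ) < u := by exact_mod_cast (mem_Icc.mp hu).1
      by_cases hv : ∃ v ∈ Icc 1 U, x * u = y * v
      · obtain ⟨v, hv, hxv⟩ := hv
        rw [Finset.sum_eq_single v]
        · rw [if_pos hxv]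
        · intro v' _ hne
          rw [if_neg]
          intro h
          exact hne (Nat.eq_of_mul_eq_mul_left hy0 (h.symm.trans hxv))
        · intro h; exact absurd hv h
      · rw [Finset.sum_eq_zero]
        · positivity
        · intro v hv'
          rw [if_neg]
          intro h
          exact hv ⟨v, hv', h⟩
    refine (sum_le_sum this).trans ?_
    rw [← sum_div, ← mul_sum]
    have := mul_le_mul_of_nonneg_left hharm (sq_nonneg c)
    linarith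
  have f2 : ∑ u ∈ Icc 1 U, ∑ v ∈ Icc 1 U,
      (if x * u = y * v then c ^ 2 * (1 / (v : ℝ)) / 2 else 0) ≤
      c ^ 2 * (1 + Real.log U) / 2 := by
    rw [sum_comm]
    have : ∀ v ∈ Icc 1 U, ∑ u ∈ Icc 1 U,
        (if x * u = y * v then c ^ 2 * (1 / (v : ℝ)) / 2 else 0) ≤ c ^ 2 * (1 / (v : ℝ)) / 2 := by
      intro v hv
      have hv0 : (0 : ℝ) < v := by exact_mod_cast (mem_Icc.mp hv).1
      by_cases hu : ∃ u ∈ Icc 1 U, x * u = y * v
      · obtain ⟨u, hu, hxu⟩ := hu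
        rw [Finset.sum_eq_single u]
        · rw [if_pos hxu]
        · intro u' _ hne
          rw [if_neg]
          intro h
          exact hne (Nat.eq_of_mul_eq_mul_left hx0 (h.trans hxu.symm))
        · intro h; exact absurd hu h
      · rw [Finset.sum_eq_zero]
        · positivity
        · intro u hu'
          rw [if_neg]
          intro h
          exact hu ⟨u, hu', h⟩
    refine (sum_le_sum this).trans ?_
    rw [← sum_div, ← mul_sum]
    have := mul_le_mul_of_nonneg_left hharm (sq_nonneg c)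
    linarith
  linarith

/-- The basic bound. -/
private theorem GW_base (D : Finset ℕ) (hD : ∀ x ∈ D, 0 < x) (f : ℕ → ℝ) (hf : ∀ x, 0 ≤ f x)
    {ι : Type} [Fintype ι] (φ : ι → ℕ)
    (hφ : ∀ i, 0 < φ i) (w : ι → ℝ) (hw : ∀ i, 0 ≤ w i) (c : ℝ) (hc : 0 ≤ c) (U : ℕ)
    (_hU1 : 1 ≤ U) (hU : ∀ i, φ i ≤ U)
    (hW : ∀ u, 0 < u → ∑ i ∈ univ.filter (fun i => φ i = u), w i ≤ c / Real.sqrt u) :
    GW D f φ w ≤ (D.card : ℝ) * (∑ x ∈ D, f x ^ 2) * (c ^ 2 * (1 + Real.log U)) := by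
  have hlog : 0 ≤ c ^ 2 * (1 + Real.log U) := by
    have : 0 ≤ Real.log U := Real.log_natCast_nonneg U
    positivity
  calc GW D f φ w ≤ ∑ x ∈ D, ∑ y ∈ D, f x * f y * (c ^ 2 * (1 + Real.log U)) :=
        sum_le_sum fun x hx => sum_le_sum fun y hy => mul_le_mul_of_nonneg_left
          (pair_base x y (hD x hx) (hD y hy) φ hφ w hw c hc U hU hW) (mul_nonneg (hf x) (hf y))
    _ = (∑ x ∈ D, f x) ^ 2 * (c ^ 2 * (1 + Real.log U)) := by
        rw [sq (∑ x ∈ D, f x), Finset.sum_mul_sum, sum_mul]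
        refine sum_congr rfl fun x _ => ?_
        rw [sum_mul]
    _ ≤ (D.card * ∑ x ∈ D, f x ^ 2) * (c ^ 2 * (1 + Real.log U)) :=
        mul_le_mul_of_nonneg_right sq_sum_le_card_mul_sum_sq hlog

/-- The iterated bound. -/
private theorem GW_iter (D : Finset ℕ) (hD : ∀ x ∈ D, 0 < x) (f : ℕ → ℝ) (hf : ∀ x, 0 ≤ f x)
    (Δ : ℝ) (hΔ1 : 1 ≤ Δ) (j : ℕ) :
    ∀ (ι : Type) [Fintype ι] (φ : ι → ℕ) (w : ι → ℝ) (c : ℝ) (U : ℕ),
      (∀ i, 0 < φ i) → (∀ i, 0 ≤ w i) → 0 ≤ c → 1 ≤ U → (∀ i, φ i ≤ U) →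
      (∀ u, 0 < u → ∑ i ∈ univ.filter (fun i => φ i = u), w i ≤ c / Real.sqrt u) →
      (∀ u, 0 < u → u ≤ U ^ 2 ^ j → (u.divisors.card : ℝ) ≤ Δ) →
      GW D f φ w ^ 2 ^ j ≤ (D.card : ℝ) * (∑ x ∈ D, f x ^ 2) ^ 2 ^ j *
        ((c ^ 2 ^ j * Δ ^ (2 ^ j - 1)) ^ 2 * (1 + Real.log ((U : ℝ) ^ 2 ^ j))) := by
  have hF0 : 0 ≤ ∑ x ∈ D, f x ^ 2 := sum_nonneg fun x _ => sq_nonneg _
  induction j with
  | zero =>
    intro ι _ φ w c U hφ hw hc hU1 hU hW _
    have := GW_base D hD f hf φ hφ w hw c hc U hU1 hU hW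
    simpa using this
  | succ j ih =>
    intro ι _ φ w c U hφ hw hc hU1 hU hW hΔ
    have h0 := GW_nonneg D f hf φ w hw
    have h1 := GW_step D f hf φ hφ w hw
    have hc' : 0 ≤ c ^ 2 * Δ := by positivity
    have hpowle : U ^ 2 ≤ U ^ 2 ^ (j + 1) := by
      apply Nat.pow_le_pow_right hU1
      calc 2 = 2 ^ 1 := rfl
        _ ≤ 2 ^ (j + 1) := Nat.pow_le_pow_right (by norm_num) (by omega)
    have h2 := ih (ι × ι) (fun p => φ p.1 * φ p.2) (fun p => w p.1 * w p.2) (c ^ 2 * Δ) (U ^ 2)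
      (fun p => Nat.mul_pos (hφ _) (hφ _)) (fun p => mul_nonneg (hw _) (hw _)) hc'
      (Nat.one_le_pow _ _ hU1)
      (fun p => by rw [sq]; exact Nat.mul_le_mul (hU _) (hU _))
      (fun u hu => by
        by_cases hle : u ≤ U ^ 2
        · refine (fib_prod φ w hw c hc hW u hu).trans ?_
          have hd := hΔ u hu (hle.trans hpowle)
          gcongr
        · have : (univ : Finset (ι × ι)).filter (fun p => φ p.1 * φ p.2 = u) = ∅ := by
            apply filter_false_of_mem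
            intro p _ h
            apply hle
            rw [← h, sq]
            exact Nat.mul_le_mul (hU _) (hU _)
          rw [this, sum_empty]
          positivity)
      (fun u hu hle => by
        apply hΔ u hu
        refine hle.trans (le_of_eq ?_)
        rw [← pow_mul, pow_succ 2 j]
        ring_nf)
    have e0 : (2 : ℕ) ^ (j + 1) = 2 * 2 ^ j := by rw [pow_succ]; ring
    calc GW D f φ w ^ 2 ^ (j + 1) = (GW D f φ w ^ 2) ^ 2 ^ j := by rw [e0, pow_mul]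
      _ ≤ ((∑ x ∈ D, f x ^ 2) *
            GW D f (fun p : ι × ι => φ p.1 * φ p.2) (fun p => w p.1 * w p.2)) ^ 2 ^ j :=
          pow_le_pow_left₀ (sq_nonneg _) h1 _
      _ = (∑ x ∈ D, f x ^ 2) ^ 2 ^ j *
            GW D f (fun p : ι × ι => φ p.1 * φ p.2) (fun p => w p.1 * w p.2) ^ 2 ^ j := by
          rw [mul_pow]
      _ ≤ (∑ x ∈ D, f x ^ 2) ^ 2 ^ j * ((D.card : ℝ) * (∑ x ∈ D, f x ^ 2) ^ 2 ^ j *
            (((c ^ 2 * Δ) ^ 2 ^ j * Δ ^ (2 ^ j - 1)) ^ 2 *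
            (1 + Real.log (((U ^ 2 : ℕ) : ℝ) ^ 2 ^ j)))) :=
          mul_le_mul_of_nonneg_left h2 (pow_nonneg hF0 _)
      _ = (D.card : ℝ) * (∑ x ∈ D, f x ^ 2) ^ 2 ^ (j + 1) *
            ((c ^ 2 ^ (j + 1) * Δ ^ (2 ^ (j + 1) - 1)) ^ 2 *
            (1 + Real.log ((U : ℝ) ^ 2 ^ (j + 1)))) := by
          have hpos : 1 ≤ 2 ^ j := Nat.one_le_two_pow
          have e1 : 2 ^ (j + 1) - 1 = 2 ^ j + (2 ^ j - 1) := by omega
          have e2 : (((U ^ 2 : ℕ) : ℝ) ^ 2 ^ j) = (U : ℝ) ^ 2 ^ (j + 1) := by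
            push_cast
            rw [← pow_mul, e0]
          have e3 : (∑ x ∈ D, f x ^ 2) ^ 2 ^ (j + 1) =
              (∑ x ∈ D, f x ^ 2) ^ 2 ^ j * (∑ x ∈ D, f x ^ 2) ^ 2 ^ j := by
            rw [e0, two_mul, pow_add]
          rw [e2, e1, e3, e0, mul_pow (c ^ 2) Δ, ← pow_mul c 2, pow_add Δ]
          ring

/-- The truncated GCD kernel is bounded by the sum over pairs. -/
private theorem gk_le_sum (x y : ℕ) (hx0 : 0 < x) (hy0 : 0 < y) (n : ℕ) :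
    gk n x y ≤ ∑ i : Fin n, ∑ j : Fin n, if x * ((i : ℕ) + 1) = y * ((j : ℕ) + 1) then
      1 / Real.sqrt ((i : ℕ) + 1 : ℝ) * (1 / Real.sqrt ((j : ℕ) + 1 : ℝ)) else 0 := by
  have hterm : ∀ i j : Fin n, 0 ≤ (if x * ((i : ℕ) + 1) = y * ((j : ℕ) + 1) then
      1 / Real.sqrt ((i : ℕ) + 1 : ℝ) * (1 / Real.sqrt ((j : ℕ) + 1 : ℝ)) else 0) := by
    intro i j
    split_ifs <;> positivity
  unfold gk
  split_ifs with h
  · obtain ⟨-, -, h⟩ := h
    set g := Nat.gcd x y with hg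
    have hg0 : 0 < g := Nat.gcd_pos_of_pos_left _ hx0
    obtain ⟨a, ha⟩ : g ∣ x := Nat.gcd_dvd_left x y
    obtain ⟨b, hb⟩ : g ∣ y := Nat.gcd_dvd_right x y
    have ha0 : 0 < a := Nat.pos_of_ne_zero (fun h => by rw [h, mul_zero] at ha; omega)
    have hb0 : 0 < b := Nat.pos_of_ne_zero (fun h => by rw [h, mul_zero] at hb; omega)
    have hgcd : Int.gcd (x : ℤ) (y : ℤ) = g := by simp [hg, Int.gcd]
    have hH : hgt x y = max a b := by
      unfold hgt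
      rw [hgcd]
      simp only [Int.natAbs_natCast]
      conv_lhs => rw [ha, hb]
      rw [Nat.mul_max_mul_left, Nat.mul_div_cancel_left _ hg0]
    rw [hH] at h
    have han : a ≤ n := (le_max_left _ _).trans h
    have hbn : b ≤ n := (le_max_right _ _).trans h
    have hfin : (Int.gcd (x : ℤ) (y : ℤ) : ℝ) / Real.sqrt (|((x : ℤ) : ℝ)| * |((y : ℤ) : ℝ)|) =
        1 / Real.sqrt (((b - 1 : ℕ) : ℝ) + 1) * (1 / Real.sqrt (((a - 1 : ℕ) : ℝ) + 1)) := by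
      have e1 : (((b - 1 : ℕ) : ℝ) + 1) = b := by
        have : b - 1 + 1 = b := by omega
        exact_mod_cast this
      have e2 : (((a - 1 : ℕ) : ℝ) + 1) = a := by
        have : a - 1 + 1 = a := by omega
        exact_mod_cast this
      have hgR : (0 : ℝ) < g := by exact_mod_cast hg0
      have haR : (0 : ℝ) < a := by exact_mod_cast ha0
      have hbR : (0 : ℝ) < b := by exact_mod_cast hb0
      have hxR : ((x : ℤ) : ℝ) = g * a := by rw [Int.cast_natCast]; exact_mod_cast ha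
      have hyR : ((y : ℤ) : ℝ) = g * b := by rw [Int.cast_natCast]; exact_mod_cast hb
      rw [e1, e2, hgcd, hxR, hyR, abs_of_pos (mul_pos hgR haR), abs_of_pos (mul_pos hgR hbR),
        show (g : ℝ) * a * (g * b) = g ^ 2 * (b * a) by ring, Real.sqrt_mul (sq_nonneg _),
        Real.sqrt_sq hgR.le, Real.sqrt_mul hbR.le, one_div_mul_one_div]
      have s1 := Real.sqrt_pos.mpr hbR
      have s2 := Real.sqrt_pos.mpr haR
      field_simp
    have hb1 : b - 1 < n := by omega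
    have ha1 : a - 1 < n := by omega
    calc (Int.gcd (x : ℤ) (y : ℤ) : ℝ) / Real.sqrt (|((x : ℤ) : ℝ)| * |((y : ℤ) : ℝ)|)
        = 1 / Real.sqrt (((b - 1 : ℕ) : ℝ) + 1) * (1 / Real.sqrt (((a - 1 : ℕ) : ℝ) + 1)) := hfin
      _ = (if x * (((⟨b - 1, hb1⟩ : Fin n) : ℕ) + 1) = y * (((⟨a - 1, ha1⟩ : Fin n) : ℕ) + 1) then
            1 / Real.sqrt (((⟨b - 1, hb1⟩ : Fin n) : ℕ) + 1 : ℝ) *
            (1 / Real.sqrt (((⟨a - 1, ha1⟩ : Fin n) : ℕ) + 1 : ℝ)) else 0) := by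
          rw [if_pos]
          simp only
          have t1 : b - 1 + 1 = b := by omega
          have t2 : a - 1 + 1 = a := by omega
          rw [t1, t2]
          conv_lhs => rw [ha]
          conv_rhs => rw [hb]
          ring
      _ ≤ ∑ j : Fin n, (if x * (((⟨b - 1, hb1⟩ : Fin n) : ℕ) + 1) = y * ((j : ℕ) + 1) then
            1 / Real.sqrt (((⟨b - 1, hb1⟩ : Fin n) : ℕ) + 1 : ℝ) *
            (1 / Real.sqrt ((j : ℕ) + 1 : ℝ)) else 0) :=
          Finset.single_le_sum (f := fun j : Fin n =>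
            (if x * (((⟨b - 1, hb1⟩ : Fin n) : ℕ) + 1) = y * ((j : ℕ) + 1) then
            1 / Real.sqrt (((⟨b - 1, hb1⟩ : Fin n) : ℕ) + 1 : ℝ) *
            (1 / Real.sqrt ((j : ℕ) + 1 : ℝ)) else 0)) (fun j _ => hterm _ j) (mem_univ _)
      _ ≤ _ := Finset.single_le_sum (f := fun i : Fin n =>
            ∑ j : Fin n, (if x * ((i : ℕ) + 1) = y * ((j : ℕ) + 1) then
            1 / Real.sqrt ((i : ℕ) + 1 : ℝ) * (1 / Real.sqrt ((j : ℕ) + 1 : ℝ)) else 0))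
            (fun i _ => sum_nonneg fun j _ => hterm i j) (mem_univ _)
  · exact sum_nonneg fun i _ => sum_nonneg fun j _ => hterm i j

private theorem gk_nonneg (L : ℕ) (x y : ℤ) : 0 ≤ gk L x y := by
  unfold gk
  split_ifs
  · positivity
  · exact le_refl _

private theorem gk_natAbs (L : ℕ) (x y : ℤ) : gk L (x.natAbs : ℤ) (y.natAbs : ℤ) = gk L x y := by
  unfold gk
  rw [hgt_natAbs]
  have h1 : ∀ z : ℤ, ((z.natAbs : ℤ) : ℝ) = |(z : ℝ)| := by
    intro z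
    rw [Int.natCast_natAbs, Int.cast_abs]
  have h2 : Int.gcd (x.natAbs : ℤ) (y.natAbs : ℤ) = Int.gcd x y := by
    unfold Int.gcd
    simp only [Int.natAbs_natCast]
  rw [h2, h1, h1, abs_abs, abs_abs]
  have h3 : ((x.natAbs : ℤ) ≠ 0 ∧ (y.natAbs : ℤ) ≠ 0 ∧ hgt x y ≤ L) ↔
      (x ≠ 0 ∧ y ≠ 0 ∧ hgt x y ≤ L) := by
    simp
  by_cases h : x ≠ 0 ∧ y ≠ 0 ∧ hgt x y ≤ L
  · rw [if_pos h, if_pos (h3.2 h)]
  · rw [if_neg h, if_neg (fun h' => h (h3.1 h'))]

/-- Weighted GCD sum bound for positive integers, explicit form. -/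
private theorem gk_pow (D : Finset ℕ) (hD : ∀ x ∈ D, 0 < x) (f : ℕ → ℝ) (hf : ∀ x, 0 ≤ f x)
    (n : ℕ) (hn : 1 ≤ n) (j : ℕ) (Δ : ℝ)
    (hΔ1 : 1 ≤ Δ) (hΔ : ∀ u, 0 < u → u ≤ n ^ 2 ^ j → (u.divisors.card : ℝ) ≤ Δ) :
    (∑ x ∈ D, ∑ y ∈ D, f x * f y * gk n x y) ^ 2 ^ j ≤
      (D.card : ℝ) * (∑ x ∈ D, f x ^ 2) ^ 2 ^ j *
        ((Δ ^ (2 ^ j - 1)) ^ 2 * (1 + Real.log ((n : ℝ) ^ 2 ^ j))) := by
  have h1 : ∑ x ∈ D, ∑ y ∈ D, f x * f y * gk n x y ≤
      GW D f (fun i : Fin n => (i : ℕ) + 1) (fun i : Fin n => 1 / Real.sqrt ((i : ℕ) + 1 : ℝ)) :=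
    sum_le_sum fun x hx => sum_le_sum fun y hy => mul_le_mul_of_nonneg_left
      (gk_le_sum x y (hD x hx) (hD y hy) n) (mul_nonneg (hf x) (hf y))
  have h0 : 0 ≤ ∑ x ∈ D, ∑ y ∈ D, f x * f y * gk n x y :=
    sum_nonneg fun x _ => sum_nonneg fun y _ => mul_nonneg (mul_nonneg (hf x) (hf y))
      (gk_nonneg _ _ _)
  refine (pow_le_pow_left₀ h0 h1 _).trans ?_
  have := GW_iter D hD f hf Δ hΔ1 j (Fin n) (fun i : Fin n => (i : ℕ) + 1)
    (fun i : Fin n => 1 / Real.sqrt ((i : ℕ) + 1 : ℝ)) 1 n (fun i => Nat.succ_pos _)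
    (fun i => by positivity) zero_le_one hn (fun i => i.2) (by
      intro u hu
      have hsub : ∀ i ∈ (univ : Finset (Fin n)).filter (fun i : Fin n => (i : ℕ) + 1 = u),
          ∀ i' ∈ (univ : Finset (Fin n)).filter (fun i : Fin n => (i : ℕ) + 1 = u), i = i' := by
        intro i hi i' hi'
        have a := (mem_filter.mp hi).2
        have b := (mem_filter.mp hi').2
        apply Fin.ext
        omega
      have hcard : ((univ : Finset (Fin n)).filter (fun i : Fin n => (i : ℕ) + 1 = u)).card ≤ 1 :=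
        Finset.card_le_one.mpr hsub
      calc ∑ i ∈ (univ : Finset (Fin n)).filter (fun i : Fin n => (i : ℕ) + 1 = u),
            1 / Real.sqrt ((i : ℕ) + 1 : ℝ)
          = ∑ i ∈ (univ : Finset (Fin n)).filter (fun i : Fin n => (i : ℕ) + 1 = u),
            1 / Real.sqrt (u : ℝ) := by
            refine sum_congr rfl fun i hi => ?_
            have := (mem_filter.mp hi).2
            rw [← this]; push_cast; rfl
        _ = (((univ : Finset (Fin n)).filter (fun i : Fin n => (i : ℕ) + 1 = u)).card : ℝ) *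
            (1 / Real.sqrt (u : ℝ)) := by rw [sum_const, nsmul_eq_mul]
        _ ≤ 1 * (1 / Real.sqrt (u : ℝ)) := by
            apply mul_le_mul_of_nonneg_right _ (by positivity)
            exact_mod_cast hcard
        _ = 1 / Real.sqrt u := one_mul _) hΔ
  simpa using this

private theorem gk_nat (ε : ℝ) (hε : 0 < ε) : ∃ C : ℝ, 1 ≤ C ∧ ∀ n : ℕ, 1 ≤ n →
    ∀ D : Finset ℕ, (∀ x ∈ D, 0 < x) → D.card ≤ n ^ 2 → ∀ f : ℕ → ℝ, (∀ x, 0 ≤ f x) →
      ∑ x ∈ D, ∑ y ∈ D, f x * f y * gk n x y ≤ C * (n : ℝ) ^ ε * ∑ x ∈ D, f x ^ 2 := by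
  obtain ⟨j, hj⟩ : ∃ j : ℕ, 4 / ε ≤ (2 : ℝ) ^ j := by
    obtain ⟨j, hj⟩ := pow_unbounded_of_one_lt (4 / ε) (by norm_num : (1 : ℝ) < 2)
    exact ⟨j, hj.le⟩
  set E : ℕ := 2 ^ j with hE
  have hE1 : 1 ≤ E := Nat.one_le_two_pow
  have hE0 : (0 : ℝ) < E := by exact_mod_cast hE1
  have hEε : 4 ≤ ε * E := by
    have : 4 / ε ≤ (E : ℝ) := by rw [hE]; push_cast; exact hj
    rw [div_le_iff₀ hε] at this
    linarith
  obtain ⟨C₁, hC₁, hdiv⟩ := Pool.Agent.Lib.MP_456481_pr.divisor_bound (ε / (8 * E)) (by positivity)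
  refine ⟨C₁ ^ 2 * (1 + 4 / ε), ?_, ?_⟩
  · have h1 : 1 ≤ C₁ ^ 2 := one_le_pow₀ hC₁
    have h2 : 0 ≤ 4 / ε := by positivity
    nlinarith
  intro n hn D hD hcard f hf
  have hn1 : (1 : ℝ) ≤ n := by exact_mod_cast hn
  have hn0 : (0 : ℝ) < n := by linarith
  set Δ : ℝ := C₁ * (n : ℝ) ^ (ε / 8) with hΔ
  have hΔ1 : 1 ≤ Δ := by
    have := Real.one_le_rpow hn1 (by positivity : 0 ≤ ε / 8)
    nlinarith
  have hF0 : 0 ≤ ∑ x ∈ D, f x ^ 2 := sum_nonneg fun x _ => sq_nonneg _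
  have hmain := gk_pow D hD f hf n hn j Δ hΔ1 (by
    intro u hu hle
    refine (hdiv u hu.ne').trans ?_
    rw [hΔ]
    apply mul_le_mul_of_nonneg_left _ (by linarith)
    calc (u : ℝ) ^ (ε / (8 * E)) ≤ ((n : ℝ) ^ E) ^ (ε / (8 * E)) := by
          apply Real.rpow_le_rpow (Nat.cast_nonneg _) _ (by positivity)
          exact_mod_cast hle
      _ = (n : ℝ) ^ (ε / 8) := by
          rw [← Real.rpow_natCast (n : ℝ) E, ← Real.rpow_mul hn0.le]
          congr 1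
          field_simp)
  rw [← hE] at hmain
  set F := ∑ x ∈ D, f x ^ 2 with hFdef
  set Γ := ∑ x ∈ D, ∑ y ∈ D, f x * f y * gk n x y with hΓ
  have hB0 : 0 ≤ C₁ ^ 2 * (1 + 4 / ε) * (n : ℝ) ^ ε * F := by positivity
  refine le_of_pow_le_pow_left₀ (n := E) (by omega) hB0 (hmain.trans ?_)
  have k1 : (D.card : ℝ) ≤ ((n : ℝ) ^ (ε / 2)) ^ E := by
    calc (D.card : ℝ) ≤ (n : ℝ) ^ (2 : ℕ) := by exact_mod_cast hcard
      _ = (n : ℝ) ^ (2 : ℝ) := by norm_num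
      _ ≤ (n : ℝ) ^ (ε / 2 * E) := Real.rpow_le_rpow_of_exponent_le hn1 (by linarith)
      _ = ((n : ℝ) ^ (ε / 2)) ^ E := by rw [Real.rpow_mul hn0.le, Real.rpow_natCast]
  have k2 : (Δ ^ (E - 1)) ^ 2 ≤ (C₁ ^ 2 * (n : ℝ) ^ (ε / 4)) ^ E := by
    calc (Δ ^ (E - 1)) ^ 2 ≤ (Δ ^ E) ^ 2 := by
          apply pow_le_pow_left₀ (by positivity)
          exact pow_le_pow_right₀ hΔ1 (by omega)
      _ = (Δ ^ 2) ^ E := by rw [← pow_mul, ← pow_mul, mul_comm]
      _ = (C₁ ^ 2 * (n : ℝ) ^ (ε / 4)) ^ E := by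
          congr 1
          rw [hΔ, mul_pow, ← Real.rpow_natCast ((n : ℝ) ^ (ε / 8)) 2, ← Real.rpow_mul hn0.le]
          congr 2
          push_cast; ring
  have hlog0 : 0 ≤ Real.log n := Real.log_nonneg hn1
  have k3 : 1 + Real.log ((n : ℝ) ^ E) ≤ ((1 + 4 / ε) * (n : ℝ) ^ (ε / 4)) ^ E := by
    have h1 : 1 + Real.log ((n : ℝ) ^ E) ≤ (1 + Real.log n) ^ E := by
      rw [Real.log_pow]
      exact one_add_mul_le_pow (by linarith) E
    refine h1.trans (pow_le_pow_left₀ (by linarith) ?_ _)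
    have h2 : Real.log n ≤ (n : ℝ) ^ (ε / 4) / (ε / 4) := Real.log_le_rpow_div hn0.le (by positivity)
    have h3 : 1 ≤ (n : ℝ) ^ (ε / 4) := Real.one_le_rpow hn1 (by positivity)
    have h4 : (n : ℝ) ^ (ε / 4) / (ε / 4) = 4 / ε * (n : ℝ) ^ (ε / 4) := by field_simp
    rw [h4] at h2
    nlinarith
  have hlogn : 0 ≤ 1 + Real.log ((n : ℝ) ^ E) := by
    rw [Real.log_pow]; positivity
  calc (D.card : ℝ) * F ^ E * ((Δ ^ (E - 1)) ^ 2 * (1 + Real.log ((n : ℝ) ^ E)))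
      ≤ (((n : ℝ) ^ (ε / 2)) ^ E * F ^ E) * ((C₁ ^ 2 * (n : ℝ) ^ (ε / 4)) ^ E *
          ((1 + 4 / ε) * (n : ℝ) ^ (ε / 4)) ^ E) := by
        refine mul_le_mul (mul_le_mul_of_nonneg_right k1 (pow_nonneg hF0 _)) ?_ (by positivity)
          (by positivity)
        exact mul_le_mul k2 k3 hlogn (by positivity)
    _ = (C₁ ^ 2 * (1 + 4 / ε) * (n : ℝ) ^ ε * F) ^ E := by
        rw [← mul_pow, ← mul_pow, ← mul_pow]
        congr 1
        have : (n : ℝ) ^ ε = (n : ℝ) ^ (ε / 2) * (n : ℝ) ^ (ε / 4) * (n : ℝ) ^ (ε / 4) := by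
          rw [← Real.rpow_add hn0, ← Real.rpow_add hn0]
          congr 1; ring
        rw [this]; ring

/-- The quadratic form for integers. -/
private theorem gk_int (ε : ℝ) (hε : 0 < ε) : ∃ C : ℝ, 1 ≤ C ∧ ∀ n : ℕ, 1 ≤ n →
    ∀ D : Finset ℤ, (∀ x ∈ D, x ≠ 0) → D.card ≤ n ^ 2 → ∀ f : ℤ → ℝ, (∀ x, 0 ≤ f x) →
      ∑ x ∈ D, ∑ y ∈ D, f x * f y * gk n x y ≤ C * (n : ℝ) ^ ε * ∑ x ∈ D, f x ^ 2 := by
  obtain ⟨C, hC, h⟩ := gk_nat ε hε
  refine ⟨C * 2, by linarith, ?_⟩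
  intro n hn D hD hcard f hf
  set D' := D.image Int.natAbs with hD'
  set f' : ℕ → ℝ := fun a => ∑ x ∈ D.filter (fun x => x.natAbs = a), f x with hf'
  have hf'0 : ∀ a, 0 ≤ f' a := fun a => sum_nonneg fun x _ => hf x
  have hmap : ∀ x ∈ D, x.natAbs ∈ D' := fun x hx => mem_image_of_mem _ hx
  have e1 : ∀ F : ℕ → ℝ, ∑ x ∈ D, f x * F x.natAbs = ∑ a ∈ D', f' a * F a := by
    intro F
    rw [← Finset.sum_fiberwise_of_maps_to hmap]
    refine sum_congr rfl fun a _ => ?_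
    rw [hf', sum_mul]
    refine sum_congr rfl fun x hx => ?_
    rw [(mem_filter.mp hx).2]
  have e2 : ∑ x ∈ D, ∑ y ∈ D, f x * f y * gk n x y =
      ∑ a ∈ D', ∑ b ∈ D', f' a * f' b * gk n a b := by
    have h1 : ∀ x ∈ D, ∑ y ∈ D, f x * f y * gk n x y =
        f x * ∑ b ∈ D', f' b * gk n (x.natAbs : ℤ) b := by
      intro x _
      rw [← e1 (fun b => gk n (x.natAbs : ℤ) b), mul_sum]
      refine sum_congr rfl fun y _ => ?_
      rw [gk_natAbs, mul_assoc]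
    rw [sum_congr rfl h1, e1 (fun a => ∑ b ∈ D', f' b * gk n (a : ℤ) b)]
    refine sum_congr rfl fun a _ => ?_
    rw [mul_sum]
    refine sum_congr rfl fun b _ => ?_
    rw [mul_assoc]
  have h3 := h n hn D' (by
    intro a ha
    obtain ⟨x, hx, rfl⟩ := mem_image.mp ha
    exact Int.natAbs_pos.mpr (hD x hx)) (card_image_le.trans hcard) f' hf'0
  have h4 : ∑ a ∈ D', f' a ^ 2 ≤ 2 * ∑ x ∈ D, f x ^ 2 := by
    rw [← Finset.sum_fiberwise_of_maps_to hmap (fun x => f x ^ 2), mul_sum]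
    refine sum_le_sum fun a _ => ?_
    have h5 : f' a ^ 2 ≤ ((D.filter (fun x => x.natAbs = a)).card : ℝ) *
        ∑ x ∈ D.filter (fun x => x.natAbs = a), f x ^ 2 := sq_sum_le_card_mul_sum_sq
    refine h5.trans (mul_le_mul_of_nonneg_right ?_ (sum_nonneg fun x _ => sq_nonneg _))
    have : D.filter (fun x => x.natAbs = a) ⊆ {(a : ℤ), -(a : ℤ)} := by
      intro x hx
      have := (mem_filter.mp hx).2
      simp only [mem_insert, mem_singleton]
      omega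
    have h2 := (card_le_card this).trans Finset.card_le_two
    exact_mod_cast h2
  rw [e2]
  have hn0 : (0 : ℝ) ≤ (n : ℝ) ^ ε := by positivity
  calc ∑ a ∈ D', ∑ b ∈ D', f' a * f' b * gk n a b ≤ C * (n : ℝ) ^ ε * ∑ a ∈ D', f' a ^ 2 := h3
    _ ≤ C * (n : ℝ) ^ ε * (2 * ∑ x ∈ D, f x ^ 2) :=
        mul_le_mul_of_nonneg_left h4 (mul_nonneg (by linarith) hn0)
    _ = C * 2 * (n : ℝ) ^ ε * ∑ x ∈ D, f x ^ 2 := by ring

/- Proof: Cauchy-Schwarz iteration for the weighted form, then polarisation. -/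
theorem gcd_norm (ε : ℝ) (hε : 0 < ε) : ∃ C : ℝ, 1 ≤ C ∧ ∀ n : ℕ, 1 ≤ n → ∀ D : Finset ℤ,
    (∀ x ∈ D, x ≠ 0) → D.card ≤ n ^ 2 → ∀ f g : ℤ → ℝ, (∀ x, 0 ≤ f x) → (∀ x, 0 ≤ g x) →
      ∑ x ∈ D, ∑ y ∈ D, f x * g y * gk (n ^ 2) x y ≤
        C * (n : ℝ) ^ ε * (Real.sqrt (∑ x ∈ D, f x ^ 2) * Real.sqrt (∑ x ∈ D, g x ^ 2)) := by
  obtain ⟨C, hC, h⟩ := gk_int (ε / 2) (by linarith)
  refine ⟨2 * C, by linarith, ?_⟩
  intro n hn D hD hcard f g hf hg
  have hn0 : (0 : ℝ) < n := by exact_mod_cast hn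
  set K : ℤ → ℤ → ℝ := fun x y => gk (n ^ 2) x y with hK
  have hK0 : ∀ x y, 0 ≤ K x y := fun x y => gk_nonneg _ _ _
  have hpow : (((n ^ 2 : ℕ) : ℝ)) ^ (ε / 2) = (n : ℝ) ^ ε := by
    push_cast
    rw [← Real.rpow_natCast (n : ℝ) 2, ← Real.rpow_mul hn0.le]
    congr 1
    push_cast
    ring
  have hq : ∀ u : ℤ → ℝ, (∀ x, 0 ≤ u x) → ∑ x ∈ D, ∑ y ∈ D, u x * u y * K x y ≤
      C * (n : ℝ) ^ ε * ∑ x ∈ D, u x ^ 2 := by
    intro u hu
    have h1 := h (n ^ 2) (Nat.one_le_pow _ _ hn) D hD (hcard.trans (by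
      calc n ^ 2 = (n ^ 2) ^ 1 := (pow_one _).symm
        _ ≤ (n ^ 2) ^ 2 := Nat.pow_le_pow_right (Nat.one_le_pow _ _ hn) (by norm_num))) u hu
    rw [hpow] at h1
    exact h1
  have hCn : 0 ≤ C * (n : ℝ) ^ ε := mul_nonneg (by linarith) (by positivity)
  set A := Real.sqrt (∑ x ∈ D, f x ^ 2) with hA
  set B := Real.sqrt (∑ x ∈ D, g x ^ 2) with hB
  have hA2 : A ^ 2 = ∑ x ∈ D, f x ^ 2 := Real.sq_sqrt (sum_nonneg fun x _ => sq_nonneg _)
  have hB2 : B ^ 2 = ∑ x ∈ D, g x ^ 2 := Real.sq_sqrt (sum_nonneg fun x _ => sq_nonneg _)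
  have hA0 : 0 ≤ A := Real.sqrt_nonneg _
  have hB0 : 0 ≤ B := Real.sqrt_nonneg _
  have hzero : ∀ u : ℤ → ℝ, ∑ x ∈ D, u x ^ 2 = 0 → ∀ x ∈ D, u x = 0 := by
    intro u hu x hx
    have h1 := (sum_eq_zero_iff_of_nonneg (fun x _ => sq_nonneg (u x))).1 hu x hx
    exact pow_eq_zero_iff (by norm_num) |>.1 h1
  have hrhs : 0 ≤ 2 * C * (n : ℝ) ^ ε * (A * B) := by
    have := mul_nonneg hCn (mul_nonneg hA0 hB0)
    nlinarith
  by_cases hAz : A = 0
  · have h1 : ∀ x ∈ D, f x = 0 := hzero f (by rw [← hA2, hAz]; ring)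
    have h2 : ∑ x ∈ D, ∑ y ∈ D, f x * g y * gk (n ^ 2) x y = 0 :=
      sum_eq_zero fun x hx => sum_eq_zero fun y _ => by rw [h1 x hx]; ring
    rw [h2]
    exact hrhs
  by_cases hBz : B = 0
  · have h1 : ∀ x ∈ D, g x = 0 := hzero g (by rw [← hB2, hBz]; ring)
    have h2 : ∑ x ∈ D, ∑ y ∈ D, f x * g y * gk (n ^ 2) x y = 0 :=
      sum_eq_zero fun x _ => sum_eq_zero fun y hy => by rw [h1 y hy]; ring
    rw [h2]
    exact hrhs
  have hAp : 0 < A := lt_of_le_of_ne hA0 (Ne.symm hAz)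
  have hBp : 0 < B := lt_of_le_of_ne hB0 (Ne.symm hBz)
  -- symmetry of the kernel
  have hsym : ∀ x y, K x y = K y x := by
    intro x y
    rw [hK]
    simp only
    unfold gk
    have h1 : hgt x y = hgt y x := by
      unfold hgt
      rw [max_comm, Int.gcd_comm]
    rw [h1, Int.gcd_comm, mul_comm |(x : ℝ)|]
    by_cases h2 : x ≠ 0 ∧ y ≠ 0 ∧ hgt y x ≤ n ^ 2
    · rw [if_pos h2, if_pos ⟨h2.2.1, h2.1, h2.2.2⟩]
    · rw [if_neg h2, if_neg (fun h3 => h2 ⟨h3.2.1, h3.1, h3.2.2⟩)]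
  set u : ℤ → ℝ := fun x => f x / A + g x / B with hu
  have hu0 : ∀ x, 0 ≤ u x := fun x => add_nonneg (div_nonneg (hf x) hA0) (div_nonneg (hg x) hB0)
  have h1 := hq u hu0
  have h2 : ∑ x ∈ D, u x ^ 2 ≤ 4 := by
    calc ∑ x ∈ D, u x ^ 2 ≤ ∑ x ∈ D, (2 * (f x ^ 2 / A ^ 2) + 2 * (g x ^ 2 / B ^ 2)) := by
          refine sum_le_sum fun x _ => ?_
          rw [hu]
          simp only
          rw [← div_pow, ← div_pow]
          nlinarith [sq_nonneg (f x / A - g x / B)]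
      _ = 2 * (A ^ 2 / A ^ 2) + 2 * (B ^ 2 / B ^ 2) := by
          rw [sum_add_distrib, ← mul_sum, ← mul_sum, ← sum_div, ← sum_div, ← hA2, ← hB2]
      _ = 4 := by
          rw [div_self (pow_ne_zero _ hAz), div_self (pow_ne_zero _ hBz)]
          norm_num
  set P := ∑ x ∈ D, ∑ y ∈ D, f x * g y * K x y with hP
  have h3 : 2 * P / (A * B) ≤ ∑ x ∈ D, ∑ y ∈ D, u x * u y * K x y := by
    have e1 : ∑ x ∈ D, ∑ y ∈ D, u x * u y * K x y =
        (∑ x ∈ D, ∑ y ∈ D, f x / A * (f y / A) * K x y) +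
        (∑ x ∈ D, ∑ y ∈ D, g x / B * (g y / B) * K x y) +
        ((∑ x ∈ D, ∑ y ∈ D, f x / A * (g y / B) * K x y) +
        (∑ x ∈ D, ∑ y ∈ D, g x / B * (f y / A) * K x y)) := by
      simp only [← sum_add_distrib]
      refine sum_congr rfl fun x _ => sum_congr rfl fun y _ => ?_
      rw [hu]
      simp only
      ring
    have e2 : ∑ x ∈ D, ∑ y ∈ D, f x / A * (g y / B) * K x y = P / (A * B) := by
      rw [hP, sum_div]
      refine sum_congr rfl fun x _ => ?_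
      rw [sum_div]
      refine sum_congr rfl fun y _ => ?_
      field_simp
    have e3 : ∑ x ∈ D, ∑ y ∈ D, g x / B * (f y / A) * K x y = P / (A * B) := by
      rw [← e2, sum_comm]
      refine sum_congr rfl fun y _ => sum_congr rfl fun x _ => ?_
      rw [hsym x y]
      ring
    have p1 : 0 ≤ ∑ x ∈ D, ∑ y ∈ D, f x / A * (f y / A) * K x y :=
      sum_nonneg fun x _ => sum_nonneg fun y _ => mul_nonneg
        (mul_nonneg (div_nonneg (hf x) hA0) (div_nonneg (hf y) hA0)) (hK0 x y)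
    have p2 : 0 ≤ ∑ x ∈ D, ∑ y ∈ D, g x / B * (g y / B) * K x y :=
      sum_nonneg fun x _ => sum_nonneg fun y _ => mul_nonneg
        (mul_nonneg (div_nonneg (hg x) hB0) (div_nonneg (hg y) hB0)) (hK0 x y)
    rw [e1, e2, e3]
    have : 2 * P / (A * B) = P / (A * B) + P / (A * B) := by ring
    linarith
  have h4 : 2 * P / (A * B) ≤ C * (n : ℝ) ^ ε * 4 :=
    h3.trans (h1.trans (mul_le_mul_of_nonneg_left h2 hCn))
  rw [div_le_iff₀ (mul_pos hAp hBp)] at h4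
  change P ≤ 2 * C * (n : ℝ) ^ ε * (A * B)
  nlinarith

end Pool.Agent.MP_741d1b.All
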