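import Mathlib
import Pool.Agent.Lib.MP_741d1b_nt_all.Norm

/-!
The numbers `n`, `q`: `q` bounds logarithms, numbers of divisors and the norm of the GCD matrix.
-/

set_option autoImplicit false

namespace Pool.Agent.MP_741d1b.All

open Finset Classical
open Pool.Agent.MP_741d1b.H87

/-- `q` bounds all losses at `n`. -/
structure Nb (n : ℕ) (q : ℝ) : Prop where
  hn : 24 ≤ n
  hq : 10000 ≤ q
  hlog : 1 + Real.log n ≤ q
  hdiv : ∀ u : ℕ, 0 < u → u ≤ n ^ 8 → (u.divisors.card : ℝ) ≤ q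
  hnorm : ∀ D : Finset ℤ, (∀ x ∈ D, x ≠ 0) → D.card ≤ n ^ 2 → ∀ f g : ℤ → ℝ, (∀ x, 0 ≤ f x) →
    (∀ x, 0 ≤ g x) → ∑ x ∈ D, ∑ y ∈ D, f x * g y * gk (n ^ 2) x y ≤
      q * (Real.sqrt (∑ x ∈ D, f x ^ 2) * Real.sqrt (∑ x ∈ D, g x ^ 2))

theorem gk_nonneg (L : ℕ) (x y : ℤ) : 0 ≤ gk L x y := by
  unfold gk
  split_ifs
  · positivity
  · exact le_refl _

theorem gk_comm (L : ℕ) (x y : ℤ) : gk L x y = gk L y x := by
  unfold gk
  rw [Int.gcd_comm, mul_comm |(x : ℝ)|, hgt_comm x y]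
  have : (x ≠ 0 ∧ y ≠ 0 ∧ hgt y x ≤ L) ↔ (y ≠ 0 ∧ x ≠ 0 ∧ hgt y x ≤ L) := by tauto
  simp only [this]

namespace Nb

variable {n : ℕ} {q : ℝ} (hb : Nb n q)
include hb

theorem n_pos : 0 < n := by have := hb.hn; omega

theorem n_pos' : (0 : ℝ) < n := by exact_mod_cast hb.n_pos

theorem q_pos : 0 < q := by have := hb.hq; linarith

theorem q_one : 1 ≤ q := by have := hb.hq; linarith

theorem log_nonneg : 0 ≤ Real.log n := by
  apply Real.log_nonneg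
  have := hb.hn
  exact_mod_cast (by omega : 1 ≤ n)

end Nb

end Pool.Agent.MP_741d1b.All
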