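import Mathlib
import Pool.Agent.Lib.MP_741d1b_nt_all.Nb

/-!
Triples of integers in a common arithmetic progression: definitions and formal properties.
-/

set_option autoImplicit false

namespace Pool.Agent.MP_741d1b.All

open Finset Classical
open Pool.Agent.MP_741d1b.H87

/-- The greatest common divisor of the differences. -/
def gd (a b y : ℤ) : ℕ := Int.gcd (a - b) (a - y)

/-- The height of a triple: the length of the shortest arithmetic progression containing it
(minus one). -/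
def hs (a b y : ℤ) : ℕ := max (a - b).natAbs (max (a - y).natAbs (b - y).natAbs) / gd a b y

/-- Third points at height at most `h`. -/
def F (A : Finset ℤ) (h : ℕ) (a b : ℤ) : Finset ℤ :=
  A.filter (fun y => y ≠ a ∧ y ≠ b ∧ hs a b y ≤ h)

/-- Number of (ordered) triples of distinct elements of height at most `h`. -/
noncomputable def tc (A : Finset ℤ) (h : ℕ) : ℝ :=
  ∑ a ∈ A, ∑ b ∈ A.erase a, ((F A h a b).card : ℝ)

theorem gd_comm12 (a b y : ℤ) : gd b a y = gd a b y := by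
  unfold gd
  have e1 : (b : ℤ) - a = -(a - b) := by ring
  have e2 : (b : ℤ) - y = (a - y) - (a - b) := by ring
  rw [e1, e2, Int.neg_gcd, Int.gcd_sub_self_right]

theorem gd_comm23 (a b y : ℤ) : gd a y b = gd a b y := by
  unfold gd
  rw [Int.gcd_comm]

theorem gd_pos {a b : ℤ} (hab : a ≠ b) (y : ℤ) : 0 < gd a b y :=
  Int.gcd_pos_of_ne_zero_left _ (sub_ne_zero.mpr hab)

theorem hs_comm12 (a b y : ℤ) : hs b a y = hs a b y := by
  unfold hs
  rw [gd_comm12]
  have e1 : (b - a).natAbs = (a - b).natAbs := by omega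
  rw [e1, max_comm (b - y).natAbs]

theorem hs_comm23 (a b y : ℤ) : hs a y b = hs a b y := by
  unfold hs
  rw [gd_comm23]
  have e1 : (y - b).natAbs = (b - y).natAbs := by omega
  rw [e1, ← max_assoc, max_comm (a - y).natAbs, max_assoc]

/-- Coordinates of a triple: `a - b = m s`, `a - y = j s`. -/
theorem hs_param {a b : ℤ} (hab : a ≠ b) (y : ℤ) :
    ∃ m j : ℤ, a - b = m * gd a b y ∧ a - y = j * gd a b y ∧ IsCoprime m j ∧
      hs a b y = max m.natAbs (max j.natAbs (j - m).natAbs) := by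
  have hg := gd_pos hab y
  obtain ⟨m, j, hmj, hm, hj⟩ := Int.exists_gcd_one (m := a - b) (n := a - y) hg
  refine ⟨m, j, hm, hj, Int.isCoprime_iff_gcd_eq_one.mpr hmj, ?_⟩
  unfold hs
  have e1 : (a - b).natAbs = m.natAbs * gd a b y := by
    conv_lhs => rw [hm]
    rw [Int.natAbs_mul, Int.natAbs_natCast]
    rfl
  have e2 : (a - y).natAbs = j.natAbs * gd a b y := by
    conv_lhs => rw [hj]
    rw [Int.natAbs_mul, Int.natAbs_natCast]
    rfl
  have e3 : (b - y).natAbs = (j - m).natAbs * gd a b y := by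
    have : b - y = (j - m) * ((gd a b y : ℕ) : ℤ) := by
      have h1 : a - b = m * ((gd a b y : ℕ) : ℤ) := hm
      have h2 : a - y = j * ((gd a b y : ℕ) : ℤ) := hj
      linarith
    rw [this, Int.natAbs_mul, Int.natAbs_natCast]
  rw [e1, e2, e3, Nat.mul_max_mul_right, Nat.mul_max_mul_right, Nat.mul_div_cancel _ hg]

theorem hgt_eq {a b : ℤ} {y m j : ℤ} (hab : a ≠ b) (h1 : a - b = m * gd a b y)
    (h2 : a - y = j * gd a b y) : hgt (a - b) (a - y) = max m.natAbs j.natAbs := by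
  have hg := gd_pos hab y
  unfold hgt
  have e1 : (a - b).natAbs = m.natAbs * gd a b y := by
    conv_lhs => rw [h1]
    rw [Int.natAbs_mul, Int.natAbs_natCast]
  have e2 : (a - y).natAbs = j.natAbs * gd a b y := by
    conv_lhs => rw [h2]
    rw [Int.natAbs_mul, Int.natAbs_natCast]
  have e3 : Int.gcd (a - b) (a - y) = gd a b y := rfl
  rw [e1, e2, e3, Nat.mul_max_mul_right, Nat.mul_div_cancel _ hg]

theorem hgt_le_hs {a b : ℤ} (hab : a ≠ b) (y : ℤ) : hgt (a - b) (a - y) ≤ hs a b y := by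
  obtain ⟨m, j, h1, h2, _, h3⟩ := hs_param hab y
  rw [hgt_eq hab h1 h2, h3]
  omega

theorem hs_le_two_hgt {a b : ℤ} (hab : a ≠ b) (y : ℤ) :
    hs a b y ≤ 2 * hgt (a - b) (a - y) := by
  obtain ⟨m, j, h1, h2, _, h3⟩ := hs_param hab y
  rw [hgt_eq hab h1 h2, h3]
  omega

theorem mem_F {A : Finset ℤ} {h : ℕ} {a b y : ℤ} :
    y ∈ F A h a b ↔ y ∈ A ∧ y ≠ a ∧ y ≠ b ∧ hs a b y ≤ h := by
  unfold F
  rw [mem_filter]

theorem F_comm (A : Finset ℤ) (h : ℕ) (a b : ℤ) : F A h b a = F A h a b := by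
  ext y
  rw [mem_F, mem_F, hs_comm12]
  tauto

theorem F_mono (A : Finset ℤ) {h h' : ℕ} (hh : h ≤ h') (a b : ℤ) : F A h a b ⊆ F A h' a b := by
  intro y hy
  rw [mem_F] at hy ⊢
  exact ⟨hy.1, hy.2.1, hy.2.2.1, hy.2.2.2.trans hh⟩

theorem tc_nonneg (A : Finset ℤ) (h : ℕ) : 0 ≤ tc A h :=
  sum_nonneg fun _ _ => sum_nonneg fun _ _ => Nat.cast_nonneg _

theorem tc_mono (A : Finset ℤ) {h h' : ℕ} (hh : h ≤ h') : tc A h ≤ tc A h' :=
  sum_le_sum fun a _ => sum_le_sum fun b _ => by exact_mod_cast card_le_card (F_mono A hh a b)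

end Pool.Agent.MP_741d1b.All
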