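import Mathlib
import Pool.Agent.Lib.MP_741d1b_nt_all.BDefs

/-!
Row B3: few integers `x` have small height with respect to two given integers `y`, `z`.
-/

set_option autoImplicit false

namespace Pool.Agent.MP_741d1b.All

open Finset Classical
open Pool.Agent.MP_741d1b.H87

theorem hgt_mul_gcd (x y : ℤ) : hgt x y * Int.gcd x y = max x.natAbs y.natAbs := by
  unfold hgt
  apply Nat.div_mul_cancel
  rcases max_choice x.natAbs y.natAbs with h | h
  · rw [h]; exact Int.gcd_dvd_natAbs_left x y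
  · rw [h]; exact Int.gcd_dvd_natAbs_right x y

/-- The numerator of `x / g`. -/
def nu (x : ℤ) (g : ℕ) : ℤ := x / (Int.gcd x g : ℤ)

/-- The denominator of `x / g`. -/
def dn (x : ℤ) (g : ℕ) : ℕ := g / Int.gcd x g

theorem nu_mul (x : ℤ) (g : ℕ) : nu x g * (Int.gcd x g : ℤ) = x :=
  Int.ediv_mul_cancel (Int.gcd_dvd_left _ _)

theorem dn_mul (x : ℤ) (g : ℕ) : dn x g * Int.gcd x g = g :=
  Nat.div_mul_cancel (by
    have := Int.gcd_dvd_natAbs_right x (g : ℤ)
    simpa using this)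

theorem gcd_nu_dn {x : ℤ} {g : ℕ} (hg : 0 < g) : Int.gcd (nu x g) (dn x g) = 1 := by
  have hd : 0 < Int.gcd x g := Int.gcd_pos_of_ne_zero_right _ (by exact_mod_cast hg.ne')
  have h1 : Int.gcd (nu x g * (Int.gcd x g : ℤ)) ((dn x g : ℤ) * (Int.gcd x g : ℤ)) =
      Int.gcd (nu x g) (dn x g) * Int.gcd x g := by
    rw [Int.gcd_mul_right, Int.natAbs_natCast]
  have h2 : ((dn x g : ℤ) * (Int.gcd x g : ℤ)) = g := by exact_mod_cast dn_mul x g
  rw [nu_mul, h2] at h1
  exact Nat.eq_of_mul_eq_mul_right hd (by rw [← h1, one_mul])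

theorem nu_ne_zero {x : ℤ} {g : ℕ} (hx : x ≠ 0) : nu x g ≠ 0 := by
  intro h
  apply hx
  rw [← nu_mul x g, h, zero_mul]

theorem dn_pos {x : ℤ} {g : ℕ} (hg : 0 < g) : 0 < dn x g := by
  rw [Nat.pos_iff_ne_zero]
  intro h
  have := dn_mul x g
  rw [h, zero_mul] at this
  omega

theorem hgt_nu {x y r : ℤ} {g : ℕ} (hg : 0 < g) (hy : y = r * g) :
    hgt x y * Int.gcd (nu x g) r = max (nu x g).natAbs (r.natAbs * dn x g) := by
  have hd : 0 < Int.gcd x g := Int.gcd_pos_of_ne_zero_right _ (by exact_mod_cast hg.ne')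
  set d := Int.gcd x g with hdd
  set u := nu x g with hu
  set v := dn x g with hv
  have h1 : u * (d : ℤ) = x := nu_mul x g
  have h2 : v * d = g := dn_mul x g
  have hc : Int.gcd u (v : ℤ) = 1 := gcd_nu_dn hg
  have hy' : y = (r * v) * (d : ℤ) := by
    rw [hy, ← h2]; push_cast; ring
  have h3 : Int.gcd x y = Int.gcd u r * d := by
    rw [← h1, hy', Int.gcd_mul_right, Int.natAbs_natCast]
    congr 1
    exact Int.gcd_mul_left_right_of_gcd_eq_one hc
  have h4 := hgt_mul_gcd x y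
  have hxa : x.natAbs = u.natAbs * d := by rw [← h1, Int.natAbs_mul, Int.natAbs_natCast]
  have hya : y.natAbs = (r.natAbs * v) * d := by
    rw [hy', Int.natAbs_mul, Int.natAbs_mul, Int.natAbs_natCast, Int.natAbs_natCast]
  rw [h3, hxa, hya, Nat.mul_max_mul_right, ← mul_assoc] at h4
  exact Nat.eq_of_mul_eq_mul_right hd h4

theorem hgt_coprime {y z r r' : ℤ} {g : ℕ} (hg : 0 < g) (hy : y = r * g) (hz : z = r' * g)
    (hrr : Int.gcd r r' = 1) : hgt y z = max r.natAbs r'.natAbs := by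
  have h1 := hgt_mul_gcd y z
  have h2 : Int.gcd y z = g := by
    rw [hy, hz, Int.gcd_mul_right, hrr, one_mul, Int.natAbs_natCast]
  have hya : y.natAbs = r.natAbs * g := by rw [hy, Int.natAbs_mul, Int.natAbs_natCast]
  have hza : z.natAbs = r'.natAbs * g := by rw [hz, Int.natAbs_mul, Int.natAbs_natCast]
  rw [h2, hya, hza, Nat.mul_max_mul_right] at h1
  exact Nat.eq_of_mul_eq_mul_right hg h1

theorem gcd_mul_dvd {u r r' : ℤ} (hrr : Int.gcd r r' = 1) :
    Int.gcd u r * Int.gcd u r' ∣ u.natAbs := by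
  apply Nat.Coprime.mul_dvd_of_dvd_of_dvd
  · have h1 : Nat.gcd (Int.gcd u r) (Int.gcd u r') ∣ Int.gcd r r' := by
      rw [Int.gcd_eq_natAbs]
      apply Nat.dvd_gcd
      · exact (Nat.gcd_dvd_left _ _).trans (Int.gcd_dvd_natAbs_right _ _)
      · exact (Nat.gcd_dvd_right _ _).trans (Int.gcd_dvd_natAbs_right _ _)
    rw [hrr] at h1
    exact Nat.dvd_one.mp h1
  · exact Int.gcd_dvd_natAbs_left _ _
  · exact Int.gcd_dvd_natAbs_left _ _

/-- the triangle inequality for heights -/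
theorem hgt_mul_le {x y z : ℤ} (hx : x ≠ 0) (hy : y ≠ 0) (hz : z ≠ 0) :
    hgt y z ≤ hgt x y * hgt x z := by
  have _ := hz
  have hg : 0 < Int.gcd y z := Int.gcd_pos_of_ne_zero_left _ hy
  obtain ⟨r, r', hrr, hr, hr'⟩ := Int.exists_gcd_one hg
  set g := Int.gcd y z with hgd
  have h1 := hgt_coprime hg hr hr' hrr
  have h2 := hgt_nu (x := x) hg hr
  have h3 := hgt_nu (x := x) hg hr'
  have h4 := gcd_mul_dvd (u := nu x g) hrr
  have hu0 : 0 < (nu x g).natAbs := Int.natAbs_pos.mpr (nu_ne_zero hx)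
  have hv0 : 0 < dn x g := dn_pos hg
  have h5 := Nat.le_of_dvd hu0 h4
  set u := (nu x g).natAbs with hu
  set v := dn x g with hv
  set α := Int.gcd (nu x g) r with hα
  set β := Int.gcd (nu x g) r' with hβ
  have hα0 : 0 < α := Int.gcd_pos_of_ne_zero_left _ (nu_ne_zero hx)
  have hβ0 : 0 < β := Int.gcd_pos_of_ne_zero_left _ (nu_ne_zero hx)
  have h6 : max r.natAbs r'.natAbs * (α * β) ≤ (hgt x y * hgt x z) * (α * β) := by
    calc max r.natAbs r'.natAbs * (α * β) ≤ max r.natAbs r'.natAbs * u :=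
          Nat.mul_le_mul_left _ h5
      _ ≤ max u (r.natAbs * v) * max u (r'.natAbs * v) := by
          rcases max_choice r.natAbs r'.natAbs with h | h
          · rw [h]
            calc r.natAbs * u ≤ (r.natAbs * v) * u :=
                  Nat.mul_le_mul_right _ (Nat.le_mul_of_pos_right _ hv0)
              _ ≤ _ := Nat.mul_le_mul (le_max_right _ _) (le_max_left _ _)
          · rw [h]
            calc r'.natAbs * u ≤ (r'.natAbs * v) * u :=
                  Nat.mul_le_mul_right _ (Nat.le_mul_of_pos_right _ hv0)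
              _ = u * (r'.natAbs * v) := mul_comm _ _
              _ ≤ _ := Nat.mul_le_mul (le_max_left _ _) (le_max_right _ _)
      _ = (hgt x y * α) * (hgt x z * β) := by rw [h2, h3]
      _ = _ := by ring
  rw [h1]
  exact Nat.le_of_mul_le_mul_right h6 (Nat.mul_pos hα0 hβ0)

theorem b_count_aux {n : ℕ} {q : ℝ} (hb : Nb n q) (r r' : ℤ) (g : ℕ) (hg : 0 < g)
    (hrr : Int.gcd r r' = 1) (hr0 : r ≠ 0) (hr0' : r' ≠ 0) (hle : r'.natAbs ≤ r.natAbs) (h : ℕ)
    (hrn : r.natAbs ≤ n ^ 8) (X : Finset ℤ)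
    (hX : ∀ x ∈ X, x ≠ 0 ∧ hgt x (r * g) ≤ h ∧ hgt x (r' * g) ≤ h) :
    (X.card : ℝ) * r.natAbs ≤ 2 * q ^ 2 * (h : ℝ) ^ 2 := by
  set D1 := r.natAbs.divisors with hD1
  set D2 := r'.natAbs.divisors with hD2
  have hra : 0 < r.natAbs := Int.natAbs_pos.mpr hr0
  have hra' : 0 < r'.natAbs := Int.natAbs_pos.mpr hr0'
  have hraR : (0 : ℝ) < r.natAbs := by exact_mod_cast hra
  have hq := hb.q_pos
  have c1 : (D1.card : ℝ) ≤ q := hb.hdiv _ hra hrn
  have c2 : (D2.card : ℝ) ≤ q := hb.hdiv _ hra' (hle.trans hrn)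
  set f : ℤ → ℕ × ℕ := fun x => (Int.gcd (nu x g) r, Int.gcd (nu x g) r') with hf
  have hmaps : ∀ x ∈ X, f x ∈ D1 ×ˢ D2 := by
    intro x _
    rw [mem_product, hD1, hD2, Nat.mem_divisors, Nat.mem_divisors]
    exact ⟨⟨Int.gcd_dvd_natAbs_right _ _, hra.ne'⟩, ⟨Int.gcd_dvd_natAbs_right _ _, hra'.ne'⟩⟩
  have hsum : (X.card : ℝ) = ∑ p ∈ D1 ×ˢ D2, ((X.filter (fun x => f x = p)).card : ℝ) := by
    have := card_eq_sum_card_fiberwise (f := f) (s := X) (t := D1 ×ˢ D2) hmaps
    exact_mod_cast this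
  have hfib : ∀ p ∈ D1 ×ˢ D2, ((X.filter (fun x => f x = p)).card : ℝ) ≤
      2 * (h : ℝ) ^ 2 / r.natAbs := by
    rintro ⟨α, β⟩ hp
    rw [mem_product, hD1, hD2, Nat.mem_divisors, Nat.mem_divisors] at hp
    have hα0 : 0 < α := Nat.pos_of_dvd_of_pos hp.1.1 hra
    have hβ0 : 0 < β := Nat.pos_of_dvd_of_pos hp.2.1 hra'
    have hαR : (0 : ℝ) < α := by exact_mod_cast hα0
    have key : ∀ x ∈ X.filter (fun x => f x = (α, β)), x ≠ 0 ∧
        (nu x g).natAbs ≤ h * α ∧ (nu x g).natAbs ≤ h * β ∧ r.natAbs * dn x g ≤ h * α ∧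
        ((α * β : ℕ) : ℤ) ∣ nu x g := by
      intro x hx
      rw [mem_filter] at hx
      obtain ⟨hxX, hfx⟩ := hx
      obtain ⟨hx0, k1, k2⟩ := hX x hxX
      simp only [hf, Prod.mk.injEq] at hfx
      have e1 := hgt_nu (x := x) hg (rfl : r * (g : ℤ) = r * g)
      have e2 := hgt_nu (x := x) hg (rfl : r' * (g : ℤ) = r' * g)
      rw [hfx.1] at e1
      rw [hfx.2] at e2
      have l1 : max (nu x g).natAbs (r.natAbs * dn x g) ≤ h * α := by
        rw [← e1]; exact Nat.mul_le_mul_right _ k1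
      have l2 : max (nu x g).natAbs (r'.natAbs * dn x g) ≤ h * β := by
        rw [← e2]; exact Nat.mul_le_mul_right _ k2
      have e3 := gcd_mul_dvd (u := nu x g) hrr
      rw [hfx.1, hfx.2] at e3
      refine ⟨hx0, (le_max_left _ _).trans l1, (le_max_left _ _).trans l2,
        (le_max_right _ _).trans l1, ?_⟩
      exact Int.natCast_dvd.mpr e3
    have hinj : (X.filter (fun x => f x = (α, β))).card ≤
        ((Iz (h / α)) ×ˢ (Finset.Icc 1 (h * α / r.natAbs))).card := by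
      refine Finset.card_le_card_of_injOn
        (fun x => (nu x g / ((α * β : ℕ) : ℤ), dn x g)) ?_ ?_
      · intro x hx
        have hx' : x ∈ X.filter (fun x => f x = (α, β)) := hx
        obtain ⟨hx0, b1, b2, b3, hdvd⟩ := key x hx'
        have : (nu x g / ((α * β : ℕ) : ℤ), dn x g) ∈
            (Iz (h / α)) ×ˢ (Finset.Icc 1 (h * α / r.natAbs)) := by
          rw [mem_product, mem_Iz, Finset.mem_Icc]
          obtain ⟨w, hw⟩ := hdvd
          have hab0 : ((α * β : ℕ) : ℤ) ≠ 0 := by exact_mod_cast (Nat.mul_pos hα0 hβ0).ne'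
          have hwe : nu x g / ((α * β : ℕ) : ℤ) = w := by
            rw [hw, Int.mul_ediv_cancel_left _ hab0]
          simp only [hwe]
          have hw0 : w ≠ 0 := by
            intro h0
            rw [h0, mul_zero] at hw
            exact nu_ne_zero hx0 hw
          have hwn : (nu x g).natAbs = α * β * w.natAbs := by
            rw [hw, Int.natAbs_mul, Int.natAbs_natCast]
          refine ⟨⟨hw0, ?_⟩, dn_pos hg, ?_⟩
          · -- |w| ≤ h / α
            have h1 : w.natAbs ≤ h / α := by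
              rw [Nat.le_div_iff_mul_le hα0]
              rw [hwn] at b2
              have h2 : (w.natAbs * α) * β ≤ h * β := by
                calc (w.natAbs * α) * β = α * β * w.natAbs := by ring
                  _ ≤ h * β := b2
              exact Nat.le_of_mul_le_mul_right h2 hβ0
            rw [Int.abs_eq_natAbs]
            exact_mod_cast h1
          · rw [Nat.le_div_iff_mul_le hra]
            calc dn x g * r.natAbs = r.natAbs * dn x g := mul_comm _ _
              _ ≤ h * α := b3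
        exact this
      · intro x hx x' hx' he
        have hx1 : x ∈ X.filter (fun x => f x = (α, β)) := hx
        have hx2 : x' ∈ X.filter (fun x => f x = (α, β)) := hx'
        obtain ⟨hx0, _, _, _, hdvd⟩ := key x hx1
        obtain ⟨hx0', _, _, _, hdvd'⟩ := key x' hx2
        simp only [Prod.mk.injEq] at he
        have hn : nu x g = nu x' g := by
          rw [← Int.ediv_mul_cancel hdvd, ← Int.ediv_mul_cancel hdvd', he.1]
        have hd : dn x g = dn x' g := he.2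
        have m1 := dn_mul x g
        have m2 := dn_mul x' g
        have hv0 : 0 < dn x g := dn_pos hg
        have hgg : Int.gcd x g = Int.gcd x' g := by
          rw [← hd] at m2
          exact Nat.eq_of_mul_eq_mul_left hv0 (m1.trans m2.symm)
        rw [← nu_mul x g, ← nu_mul x' g, hn, hgg]
    rw [card_product, card_Iz, Nat.card_Icc, Nat.add_sub_cancel] at hinj
    have e1 : ((h / α : ℕ) : ℝ) ≤ (h : ℝ) / α := Nat.cast_div_le
    have e2 : ((h * α / r.natAbs : ℕ) : ℝ) ≤ ((h * α : ℕ) : ℝ) / r.natAbs := Nat.cast_div_le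
    calc ((X.filter (fun x => f x = (α, β))).card : ℝ) ≤
        ((2 * (h / α) * (h * α / r.natAbs) : ℕ) : ℝ) := by exact_mod_cast hinj
      _ = 2 * ((h / α : ℕ) : ℝ) * ((h * α / r.natAbs : ℕ) : ℝ) := by push_cast; ring
      _ ≤ 2 * ((h : ℝ) / α) * (((h * α : ℕ) : ℝ) / r.natAbs) := by gcongr
      _ = 2 * (h : ℝ) ^ 2 / r.natAbs := by push_cast; field_simp
  have hle2 : (X.card : ℝ) ≤ q ^ 2 * (2 * (h : ℝ) ^ 2 / r.natAbs) := by
    rw [hsum]
    refine (sum_le_sum hfib).trans ?_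
    rw [sum_const, nsmul_eq_mul, card_product]
    push_cast
    apply mul_le_mul_of_nonneg_right _ (by positivity)
    calc (D1.card : ℝ) * D2.card ≤ q * q := by gcongr
      _ = q ^ 2 := by ring
  calc (X.card : ℝ) * r.natAbs ≤ q ^ 2 * (2 * (h : ℝ) ^ 2 / r.natAbs) * r.natAbs := by gcongr
    _ = 2 * q ^ 2 * (h : ℝ) ^ 2 := by field_simp

/-- few integers with small heights with respect to `y` and `z` -/
theorem b_count {n : ℕ} {q : ℝ} (hb : Nb n q) (y z : ℤ) (hy : y ≠ 0) (hz : z ≠ 0) (h : ℕ)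
    (hh : h ≤ n ^ 2) (X : Finset ℤ) (hX : ∀ x ∈ X, x ≠ 0 ∧ hgt x y ≤ h ∧ hgt x z ≤ h) :
    (X.card : ℝ) * hgt y z ≤ 2 * q ^ 2 * (h : ℝ) ^ 2 := by
  rcases X.eq_empty_or_nonempty with h0 | ⟨x0, hx0⟩
  · rw [h0]
    simp only [card_empty, Nat.cast_zero, zero_mul]
    have := hb.q_pos
    positivity
  have hg : 0 < Int.gcd y z := Int.gcd_pos_of_ne_zero_left _ hy
  obtain ⟨r, r', hrr, hr, hr'⟩ := Int.exists_gcd_one hg
  set g := Int.gcd y z with hgd
  have h1 := hgt_coprime hg hr hr' hrr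
  have hr0 : r ≠ 0 := by intro h; apply hy; rw [hr, h, zero_mul]
  have hr0' : r' ≠ 0 := by intro h; apply hz; rw [hr', h, zero_mul]
  obtain ⟨hx00, k1, k2⟩ := hX x0 hx0
  have hH : hgt y z ≤ n ^ 8 := by
    calc hgt y z ≤ hgt x0 y * hgt x0 z := hgt_mul_le hx00 hy hz
      _ ≤ h * h := Nat.mul_le_mul k1 k2
      _ ≤ n ^ 2 * n ^ 2 := Nat.mul_le_mul hh hh
      _ = n ^ 4 := by ring
      _ ≤ n ^ 8 := Nat.pow_le_pow_right hb.n_pos (by norm_num)
  have hX1 : ∀ x ∈ X, x ≠ 0 ∧ hgt x (r * g) ≤ h ∧ hgt x (r' * g) ≤ h := by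
    intro x hx
    have := hX x hx
    rw [hr, hr'] at this
    exact this
  rw [h1] at hH ⊢
  rcases le_total r'.natAbs r.natAbs with hle | hle
  · rw [max_eq_left hle] at hH ⊢
    exact b_count_aux hb r r' g hg hrr hr0 hr0' hle h hH X hX1
  · rw [max_eq_right hle] at hH ⊢
    exact b_count_aux hb r' r g hg (by rw [Int.gcd_comm]; exact hrr) hr0' hr0 hle h hH X
      (fun x hx => ⟨(hX1 x hx).1, (hX1 x hx).2.2, (hX1 x hx).2.1⟩)

end Pool.Agent.MP_741d1b.All
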