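import Mathlib
import Pool.Agent.Lib.MP_741d1b_nt_all.BDefs

/-!
Row B8: a dense subset of an interval contains many triples of small height.
-/

set_option autoImplicit false

namespace Pool.Agent.MP_741d1b.All

open Finset Classical
open Pool.Agent.MP_741d1b.H87

/-- Row B8: position in `[0, 2 h]`. -/
def b8m (h : ℕ) (i : ℤ) : ℕ := (i + h).toNat

/-- Row B8: the block of `i`. -/
def b8b (h k g : ℕ) (i : ℤ) : ℕ × ℕ := (b8m h i % g, b8m h i / (g * k))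

theorem b8m_cast {h : ℕ} {i : ℤ} (hi : |i| ≤ h) : ((b8m h i : ℕ) : ℤ) = i + h := by
  unfold b8m
  rw [Int.toNat_of_nonneg]
  have := neg_abs_le i
  linarith

theorem b8m_le {h : ℕ} {i : ℤ} (hi : |i| ≤ h) : b8m h i ≤ 2 * h := by
  have h1 := b8m_cast hi
  have h2 := le_abs_self i
  zify
  linarith

theorem b8_dvd {h k g : ℕ} {x y : ℤ} (hx : |x| ≤ h) (hy : |y| ≤ h)
    (hb : b8b h k g x = b8b h k g y) : (g : ℤ) ∣ x - y := by
  have h1 : b8m h y % g = b8m h x % g := (congrArg Prod.fst hb).symm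
  have h2 : ((g : ℕ) : ℤ) ∣ ((b8m h x : ℕ) : ℤ) - ((b8m h y : ℕ) : ℤ) := Nat.modEq_iff_dvd.1 h1
  rw [b8m_cast hx, b8m_cast hy] at h2
  have e : x + (h : ℤ) - (y + h) = x - y := by ring
  rwa [e] at h2

theorem b8_lt {h k g : ℕ} (hgk : 0 < g * k) {x y : ℤ} (hx : |x| ≤ h) (hy : |y| ≤ h)
    (hb : b8b h k g x = b8b h k g y) : (x - y).natAbs < g * k := by
  have h1 : b8m h x / (g * k) = b8m h y / (g * k) := congrArg Prod.snd hb
  have a1 := Nat.div_add_mod (b8m h x) (g * k)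
  have a2 := Nat.div_add_mod (b8m h y) (g * k)
  have b1 := Nat.mod_lt (b8m h x) hgk
  have b2 := Nat.mod_lt (b8m h y) hgk
  rw [h1] at a1
  have c1 := b8m_cast hx
  have c2 := b8m_cast hy
  have e : x - y = ((b8m h x : ℕ) : ℤ) - ((b8m h y : ℕ) : ℤ) := by rw [c1, c2]; ring
  rw [e]
  generalize g * k * (b8m h y / (g * k)) = T at a1 a2
  omega

theorem b8_hs {h k g : ℕ} (hg : 0 < g) (hk : 0 < k) {x y z : ℤ} (hxy : x ≠ y) (hx : |x| ≤ h)
    (hy : |y| ≤ h) (hz : |z| ≤ h) (h1 : b8b h k g x = b8b h k g y)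
    (h2 : b8b h k g x = b8b h k g z) : hs x y z ≤ k := by
  have hgk : 0 < g * k := Nat.mul_pos hg hk
  have hmax : max (x - y).natAbs (max (x - z).natAbs (y - z).natAbs) < g * k :=
    max_lt (b8_lt hgk hx hy h1) (max_lt (b8_lt hgk hx hz h2) (b8_lt hgk hy hz (h1.symm.trans h2)))
  have hgd : g ≤ gd x y z := by
    refine Nat.le_of_dvd (gd_pos hxy z) ?_
    have h3 := Int.dvd_coe_gcd (b8_dvd hx hy h1) (b8_dvd hx hz h2)
    exact Int.natCast_dvd_natCast.1 h3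
  unfold hs
  refine (Nat.div_le_div_left hgd hg).trans ?_
  exact (Nat.div_lt_of_lt_mul hmax).le

theorem b8_block_card {h k g : ℕ} (hg : 0 < g) (hk : 0 < k) (I : Finset ℤ)
    (hI : ∀ i ∈ I, |i| ≤ h) (b : ℕ × ℕ) : (I.filter (fun y => b8b h k g y = b)).card ≤ k := by
  have hgk : 0 < g * k := Nat.mul_pos hg hk
  have h1 : (I.filter (fun y => b8b h k g y = b)).card ≤ (range k).card := by
    refine card_le_card_of_injOn (fun y => (b8m h y % (g * k)) / g) ?_ ?_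
    · intro y _
      have h2 := Nat.mod_lt (b8m h y) hgk
      exact mem_coe.2 (mem_range.2 (Nat.div_lt_of_lt_mul h2))
    · intro x hx y hy hxy
      obtain ⟨hxI, hxb⟩ := mem_filter.1 (mem_coe.1 hx)
      obtain ⟨hyI, hyb⟩ := mem_filter.1 (mem_coe.1 hy)
      have hb : b8b h k g x = b8b h k g y := hxb.trans hyb.symm
      have e1 : b8m h x % g = b8m h y % g := congrArg Prod.fst hb
      have e2 : b8m h x / (g * k) = b8m h y / (g * k) := congrArg Prod.snd hb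
      have e3 : (b8m h x % (g * k)) / g = (b8m h y % (g * k)) / g := hxy
      have d : g ∣ g * k := Dvd.intro k rfl
      have m1 := Nat.mod_mod_of_dvd (b8m h x) d
      have m2 := Nat.mod_mod_of_dvd (b8m h y) d
      have n1 := Nat.div_add_mod (b8m h x % (g * k)) g
      have n2 := Nat.div_add_mod (b8m h y % (g * k)) g
      have n3 : b8m h x % (g * k) = b8m h y % (g * k) := by
        rw [← n1, ← n2, m1, m2, e1, e3]
      have n4 : b8m h x = b8m h y := by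
        rw [← Nat.div_add_mod (b8m h x) (g * k), ← Nat.div_add_mod (b8m h y) (g * k), e2, n3]
      have c1 := b8m_cast (hI x hxI)
      have c2 := b8m_cast (hI y hyI)
      rw [n4] at c1
      linarith
  rwa [card_range] at h1

/-- Row B8: the triples in one block. -/
noncomputable def b8S (I : Finset ℤ) (h k g : ℕ) : Finset (ℤ × ℤ × ℤ) :=
  (I ×ˢ I ×ˢ I).filter (fun z => b8b h k g z.1 = b8b h k g z.2.1 ∧ b8b h k g z.1 = b8b h k g z.2.2)

theorem b8_mem_S {I : Finset ℤ} {h k g : ℕ} {z : ℤ × ℤ × ℤ} : z ∈ b8S I h k g ↔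
    (z.1 ∈ I ∧ z.2.1 ∈ I ∧ z.2.2 ∈ I) ∧ b8b h k g z.1 = b8b h k g z.2.1 ∧
      b8b h k g z.1 = b8b h k g z.2.2 := by
  unfold b8S
  rw [mem_filter, mem_product, mem_product]

theorem b8_maps {h k g : ℕ} (hg : 0 < g) {i : ℤ} (hi : |i| ≤ h) :
    b8b h k g i ∈ range g ×ˢ range (2 * h / (g * k) + 1) := by
  refine mem_product.2 ⟨mem_range.2 (Nat.mod_lt _ hg), mem_range.2 ?_⟩
  exact Nat.lt_succ_of_le (Nat.div_le_div_right (b8m_le hi))

theorem b8_S_lower {h k g : ℕ} (hg : 0 < g) (I : Finset ℤ) (hI : ∀ i ∈ I, |i| ≤ h) :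
    (I.card : ℝ) ^ 3 / ((range g ×ˢ range (2 * h / (g * k) + 1)).card : ℝ) ^ 2 ≤
      ((b8S I h k g).card : ℝ) := by
  set B := range g ×ˢ range (2 * h / (g * k) + 1) with hB
  have h1 : I.card = ∑ b ∈ B, (I.filter (fun y => b8b h k g y = b)).card :=
    card_eq_sum_card_fiberwise (fun i hi => b8_maps hg (hI i hi))
  have h2 : (b8S I h k g).card = ∑ b ∈ B, (I.filter (fun y => b8b h k g y = b)).card ^ 3 := by
    rw [card_eq_sum_card_fiberwise (f := fun z : ℤ × ℤ × ℤ => b8b h k g z.1) (t := B)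
      (fun z hz => b8_maps hg (hI _ (b8_mem_S.1 hz).1.1))]
    refine sum_congr rfl fun b _ => ?_
    have e : (b8S I h k g).filter (fun z => b8b h k g z.1 = b) =
        (I.filter (fun y => b8b h k g y = b)) ×ˢ (I.filter (fun y => b8b h k g y = b)) ×ˢ
          (I.filter (fun y => b8b h k g y = b)) := by
      ext z
      simp only [mem_filter, b8_mem_S, mem_product]
      constructor
      · rintro ⟨⟨⟨a1, a2, a3⟩, a4, a5⟩, a6⟩
        exact ⟨⟨a1, a6⟩, ⟨a2, a4.symm.trans a6⟩, ⟨a3, a5.symm.trans a6⟩⟩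
      · rintro ⟨⟨a1, a6⟩, ⟨a2, a7⟩, ⟨a3, a8⟩⟩
        exact ⟨⟨⟨a1, a2, a3⟩, a6.trans a7.symm, a6.trans a8.symm⟩, a6⟩
    rw [e, card_product, card_product]
    ring
  have h3 := pow_sum_div_card_le_sum_pow (s := B)
    (f := fun b => ((I.filter (fun y => b8b h k g y = b)).card : ℝ))
    (fun b _ => Nat.cast_nonneg _) 2
  have e1 : (I.card : ℝ) = ∑ b ∈ B, ((I.filter (fun y => b8b h k g y = b)).card : ℝ) := by
    exact_mod_cast h1
  have e2 : ((b8S I h k g).card : ℝ) =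
      ∑ b ∈ B, ((I.filter (fun y => b8b h k g y = b)).card : ℝ) ^ 3 := by
    exact_mod_cast h2
  rw [e1, e2]
  exact h3

/-- Row B8: pairs in one block. -/
theorem b8_pairs {h k g : ℕ} (hg : 0 < g) (hk : 0 < k) (I : Finset ℤ) (hI : ∀ i ∈ I, |i| ≤ h) :
    ((I ×ˢ I).filter (fun z => b8b h k g z.1 = b8b h k g z.2)).card ≤ I.card * k := by
  rw [card_eq_sum_card_fiberwise (f := fun z : ℤ × ℤ => z.1) (t := I)
    (fun z hz => (mem_product.1 (mem_filter.1 (mem_coe.1 hz)).1).1)]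
  refine (sum_le_card_nsmul _ _ k fun x _ => ?_).trans (by rw [smul_eq_mul])
  refine le_trans ?_ (b8_block_card hg hk I hI (b8b h k g x))
  refine card_le_card_of_injOn (fun z => z.2) ?_ ?_
  · intro z hz
    obtain ⟨h1, h2⟩ := mem_filter.1 (mem_coe.1 hz)
    obtain ⟨h3, h4⟩ := mem_filter.1 h1
    have h5 : z.1 = x := h2
    refine mem_coe.2 (mem_filter.2 ⟨(mem_product.1 h3).2, ?_⟩)
    show b8b h k g z.2 = b8b h k g x
    rw [← h4, h5]
  · intro z hz w hw hzw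
    have h2 : z.1 = x := (mem_filter.1 (mem_coe.1 hz)).2
    have h3 : w.1 = x := (mem_filter.1 (mem_coe.1 hw)).2
    exact Prod.ext (h2.trans h3.symm) hzw

/-- Row B8: degenerate triples in one block. -/
theorem b8_deg {h k g : ℕ} (hg : 0 < g) (hk : 0 < k) (I : Finset ℤ) (hI : ∀ i ∈ I, |i| ≤ h) :
    ((b8S I h k g).filter (fun z => ¬ (z.1 ≠ z.2.1 ∧ z.1 ≠ z.2.2 ∧ z.2.1 ≠ z.2.2))).card ≤
      3 * (I.card * k) := by
  set E := (I ×ˢ I).filter (fun z => b8b h k g z.1 = b8b h k g z.2) with hE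
  have h0 : (b8S I h k g).filter (fun z => ¬ (z.1 ≠ z.2.1 ∧ z.1 ≠ z.2.2 ∧ z.2.1 ≠ z.2.2)) ⊆
      (E.image (fun w => (w.1, w.1, w.2)) ∪ E.image (fun w => (w.1, w.2, w.1))) ∪
        E.image (fun w => (w.1, w.2, w.2)) := by
    intro z hz
    obtain ⟨h1, h2⟩ := mem_filter.1 hz
    obtain ⟨⟨a1, a2, a3⟩, a4, a5⟩ := b8_mem_S.1 h1
    by_cases c1 : z.1 = z.2.1
    · refine mem_union_left _ (mem_union_left _ (mem_image.2 ⟨(z.1, z.2.2), ?_, ?_⟩))
      · exact mem_filter.2 ⟨mem_product.2 ⟨a1, a3⟩, a5⟩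
      · exact Prod.ext rfl (Prod.ext c1 rfl)
    · by_cases c2 : z.1 = z.2.2
      · refine mem_union_left _ (mem_union_right _ (mem_image.2 ⟨(z.1, z.2.1), ?_, ?_⟩))
        · exact mem_filter.2 ⟨mem_product.2 ⟨a1, a2⟩, a4⟩
        · exact Prod.ext rfl (Prod.ext rfl c2)
      · by_cases c3 : z.2.1 = z.2.2
        · refine mem_union_right _ (mem_image.2 ⟨(z.1, z.2.1), ?_, ?_⟩)
          · exact mem_filter.2 ⟨mem_product.2 ⟨a1, a2⟩, a4⟩
          · exact Prod.ext rfl (Prod.ext rfl c3)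
        · exact absurd ⟨c1, c2, c3⟩ h2
  have hp := b8_pairs hg hk I hI
  rw [← hE] at hp
  refine (card_le_card h0).trans ?_
  refine (card_union_le _ _).trans ?_
  have i1 : (E.image (fun w : ℤ × ℤ => (w.1, w.1, w.2))).card ≤ E.card := card_image_le
  have i2 : (E.image (fun w : ℤ × ℤ => (w.1, w.2, w.1))).card ≤ E.card := card_image_le
  have i3 : (E.image (fun w : ℤ × ℤ => (w.1, w.2, w.2))).card ≤ E.card := card_image_le
  have i4 := card_union_le (E.image (fun w : ℤ × ℤ => (w.1, w.1, w.2)))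
    (E.image (fun w : ℤ × ℤ => (w.1, w.2, w.1)))
  omega

/-- Row B8: number of blocks. -/
theorem b8_blocks {h k g : ℕ} (hg : 0 < g) (hk : 0 < k) (hgG : g ≤ h / k) :
    ((range g ×ˢ range (2 * h / (g * k) + 1)).card : ℝ) ≤ 3 * h / k := by
  have hk' : (0 : ℝ) < k := by exact_mod_cast hk
  have hg' : (0 : ℝ) < g := by exact_mod_cast hg
  rw [card_product, card_range, card_range]
  push_cast
  have h1 : ((2 * h / (g * k) : ℕ) : ℝ) ≤ 2 * h / (g * k) := by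
    have := @Nat.cast_div_le ℝ _ _ _ (2 * h) (g * k)
    push_cast at this
    exact this
  have h2 : (g : ℝ) ≤ h / k := by
    have h3 : ((h / k : ℕ) : ℝ) ≤ h / k := Nat.cast_div_le
    exact (by exact_mod_cast hgG : (g : ℝ) ≤ ((h / k : ℕ) : ℝ)).trans h3
  calc (g : ℝ) * (((2 * h / (g * k) : ℕ) : ℝ) + 1)
      ≤ g * (2 * h / (g * k) + 1) := by gcongr
    _ = 2 * h / k + g := by field_simp
    _ ≤ 2 * h / k + h / k := by gcongr
    _ = 3 * h / k := by ring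

/-- Row B8: triples of distinct elements in one block. -/
theorem b8_nondeg {h k g : ℕ} (hg : 0 < g) (hk : 0 < k) (hkh : k ≤ h) (hgG : g ≤ h / k)
    (Λ : ℝ) (hΛ : 1 ≤ Λ) (hkΛ : 2000 * Λ ^ 3 ≤ k) (I : Finset ℤ) (hI : ∀ i ∈ I, |i| ≤ h)
    (hIc : (h : ℝ) / Λ ≤ I.card) :
    (h : ℝ) * k ^ 2 / (10 * Λ ^ 3) ≤
      (((b8S I h k g).filter (fun z => z.1 ≠ z.2.1 ∧ z.1 ≠ z.2.2 ∧ z.2.1 ≠ z.2.2)).card : ℝ) := by
  have hk' : (0 : ℝ) < k := by exact_mod_cast hk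
  have hh : 0 < h := lt_of_lt_of_le hk hkh
  have hh' : (0 : ℝ) < h := by exact_mod_cast hh
  have hΛ0 : 0 < Λ := by linarith
  have hL3 : 0 < Λ ^ 3 := by positivity
  have h1 := b8_S_lower (h := h) (k := k) hg I hI
  have h2 := b8_deg hg hk I hI
  have h3 := b8_blocks hg hk hgG
  have h4 := card_filter_add_card_filter_not (s := b8S I h k g)
    (fun z => z.1 ≠ z.2.1 ∧ z.1 ≠ z.2.2 ∧ z.2.1 ≠ z.2.2)
  have hcardI : I.card ≤ 2 * h + 1 := by
    have h5 : I ⊆ Icc (-(h : ℤ)) h := by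
      intro i hi
      have := abs_le.1 (hI i hi)
      exact mem_Icc.2 this
    have h6 := card_le_card h5
    rw [Int.card_Icc] at h6
    omega
  have hcardI' : (I.card : ℝ) ≤ 3 * h := by
    have : I.card ≤ 3 * h := by omega
    exact_mod_cast this
  have h2' : (((b8S I h k g).filter
      (fun z => ¬ (z.1 ≠ z.2.1 ∧ z.1 ≠ z.2.2 ∧ z.2.1 ≠ z.2.2))).card : ℝ) ≤ 9 * h * k := by
    calc (((b8S I h k g).filter
      (fun z => ¬ (z.1 ≠ z.2.1 ∧ z.1 ≠ z.2.2 ∧ z.2.1 ≠ z.2.2))).card : ℝ)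
        ≤ ((3 * (I.card * k) : ℕ) : ℝ) := by exact_mod_cast h2
      _ = 3 * (I.card * k) := by push_cast; ring
      _ ≤ 3 * (3 * h * k) := by gcongr
      _ = 9 * h * k := by ring
  have h4' : (((b8S I h k g).filter
      (fun z => z.1 ≠ z.2.1 ∧ z.1 ≠ z.2.2 ∧ z.2.1 ≠ z.2.2)).card : ℝ) +
      (((b8S I h k g).filter
      (fun z => ¬ (z.1 ≠ z.2.1 ∧ z.1 ≠ z.2.2 ∧ z.2.1 ≠ z.2.2))).card : ℝ) =
      ((b8S I h k g).card : ℝ) := by exact_mod_cast h4
  have hB0 : (0 : ℝ) < ((range g ×ˢ range (2 * h / (g * k) + 1)).card : ℝ) := by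
    rw [card_product, card_range, card_range]
    have : 0 < g * (2 * h / (g * k) + 1) := Nat.mul_pos hg (Nat.succ_pos _)
    exact_mod_cast this
  have h5 : (h : ℝ) * k ^ 2 / (9 * Λ ^ 3) ≤ ((b8S I h k g).card : ℝ) := by
    refine le_trans ?_ h1
    have h6 : ((h : ℝ) / Λ) ^ 3 ≤ (I.card : ℝ) ^ 3 := by gcongr
    calc (h : ℝ) * k ^ 2 / (9 * Λ ^ 3) = ((h : ℝ) / Λ) ^ 3 / (3 * h / k) ^ 2 := by
          field_simp
          ring
      _ ≤ (I.card : ℝ) ^ 3 / ((range g ×ˢ range (2 * h / (g * k) + 1)).card : ℝ) ^ 2 := by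
          gcongr
  have h7 : (h : ℝ) * k ^ 2 / (10 * Λ ^ 3) + 9 * h * k ≤ (h : ℝ) * k ^ 2 / (9 * Λ ^ 3) := by
    have h8 : (9 : ℝ) * h * k ≤ h * k ^ 2 / (90 * Λ ^ 3) := by
      rw [le_div_iff₀ (by positivity)]
      have h9 : 810 * Λ ^ 3 ≤ k := by linarith
      calc (9 : ℝ) * h * k * (90 * Λ ^ 3) = (h : ℝ) * k * (810 * Λ ^ 3) := by ring
        _ ≤ (h : ℝ) * k * k := by gcongr
        _ = (h : ℝ) * k ^ 2 := by ring
    have h10 : (h : ℝ) * k ^ 2 / (9 * Λ ^ 3) =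
        (h : ℝ) * k ^ 2 / (10 * Λ ^ 3) + h * k ^ 2 / (90 * Λ ^ 3) := by
      field_simp
      ring
    rw [h10]
    linarith
  linarith

/- PROOF. G = h / k (floor, ≥ 1). For every g with 1 ≤ g ≤ G cut [-h, h] into the blocks
{i : i ≡ c mod g, ⌊(i + h) / (g k)⌋ = u}: at most 3 h / k blocks, each with at most k elements, and two
elements of a block differ by a multiple of g smaller than g k, so a triple of distinct elements of a
block has height ≤ k. Power means bound the number of triples in the blocks from below. Every triple is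
counted for at most q values of g (g divides the difference of its first two elements). -/
theorem dense_triples {n : ℕ} {q : ℝ} (hb : Nb n q) (h k : ℕ) (hk : k ≤ h) (hh : h ≤ n ^ 2)
    (Λ : ℝ) (hΛ : 1 ≤ Λ) (hkΛ : 2000 * Λ ^ 3 ≤ k) (I : Finset ℤ) (hI : ∀ i ∈ I, |i| ≤ h)
    (hIc : (h : ℝ) / Λ ≤ I.card) :
    (h : ℝ) ^ 2 * k / (128 * q * Λ ^ 3) ≤
      (((I ×ˢ I ×ˢ I).filter (fun z => z.1 ≠ z.2.1 ∧ z.1 ≠ z.2.2 ∧ z.2.1 ≠ z.2.2 ∧
        hs z.1 z.2.1 z.2.2 ≤ k)).card : ℝ) := by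
  have hL3 : 1 ≤ Λ ^ 3 := one_le_pow₀ hΛ
  have hk' : (0 : ℝ) < k := by linarith
  have hk0 : 0 < k := by exact_mod_cast hk'
  have hh0 : 0 < h := lt_of_lt_of_le hk0 hk
  have hh' : (0 : ℝ) < h := by exact_mod_cast hh0
  have hq := hb.q_pos
  set R := (I ×ˢ I ×ˢ I).filter (fun z => z.1 ≠ z.2.1 ∧ z.1 ≠ z.2.2 ∧ z.2.1 ≠ z.2.2 ∧
        hs z.1 z.2.1 z.2.2 ≤ k) with hR
  set Gs := Icc 1 (h / k) with hGs
  let r : ℕ → ℤ × ℤ × ℤ → Prop := fun g z =>
    b8b h k g z.1 = b8b h k g z.2.1 ∧ b8b h k g z.1 = b8b h k g z.2.2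
  have hdc := sum_card_bipartiteAbove_eq_sum_card_bipartiteBelow (s := Gs) (t := R) r
  have hup : ∀ z ∈ R, ((Gs.bipartiteBelow r z).card : ℝ) ≤ q := by
    intro z hz
    obtain ⟨hz1, hz2, hz3, hz4, hz5⟩ := mem_filter.1 hz
    obtain ⟨a1, a2⟩ := mem_product.1 hz1
    obtain ⟨a2, a3⟩ := mem_product.1 a2
    have h0 : 0 < (z.1 - z.2.1).natAbs := Int.natAbs_pos.2 (sub_ne_zero.2 hz2)
    have h1 : (z.1 - z.2.1).natAbs ≤ n ^ 8 := by
      have b1 := abs_le.1 (hI _ a1)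
      have b2 := abs_le.1 (hI _ a2)
      have b3 : (z.1 - z.2.1).natAbs ≤ 2 * h := by omega
      have b4 : 2 * n ^ 2 ≤ n ^ 8 := by
        have hn := hb.hn
        calc 2 * n ^ 2 ≤ n ^ 6 * n ^ 2 := by
              gcongr
              calc 2 ≤ n ^ 1 := by rw [pow_one]; omega
                _ ≤ n ^ 6 := Nat.pow_le_pow_right (by omega) (by omega)
          _ = n ^ 8 := by ring
      omega
    refine le_trans ?_ (hb.hdiv _ h0 h1)
    have h2 : Gs.bipartiteBelow r z ⊆ (z.1 - z.2.1).natAbs.divisors := by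
      intro g hg
      obtain ⟨hg1, hg2⟩ := (mem_bipartiteBelow r).1 hg
      have h3 := b8_dvd (hI _ a1) (hI _ a2) hg2.1
      exact Nat.mem_divisors.2 ⟨Int.natCast_dvd.1 h3, h0.ne'⟩
    exact_mod_cast card_le_card h2
  have hlow : ∀ g ∈ Gs, (h : ℝ) * k ^ 2 / (10 * Λ ^ 3) ≤ ((R.bipartiteAbove r g).card : ℝ) := by
    intro g hg
    obtain ⟨hg1, hg2⟩ := mem_Icc.1 hg
    refine (b8_nondeg (by omega) hk0 hk hg2 Λ hΛ hkΛ I hI hIc).trans ?_
    have h2 : (b8S I h k g).filter (fun z => z.1 ≠ z.2.1 ∧ z.1 ≠ z.2.2 ∧ z.2.1 ≠ z.2.2) ⊆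
        R.bipartiteAbove r g := by
      intro z hz
      obtain ⟨c1, c2, c3, c4⟩ := mem_filter.1 hz
      obtain ⟨⟨a1, a2, a3⟩, a4, a5⟩ := b8_mem_S.1 c1
      refine (mem_bipartiteAbove r).2 ⟨mem_filter.2 ⟨mem_product.2 ⟨a1, mem_product.2 ⟨a2, a3⟩⟩,
        c2, c3, c4, ?_⟩, a4, a5⟩
      exact b8_hs (by omega) hk0 c2 (hI _ a1) (hI _ a2) (hI _ a3) a4 a5
    exact_mod_cast card_le_card h2
  have h1 : (Gs.card : ℝ) * ((h : ℝ) * k ^ 2 / (10 * Λ ^ 3)) ≤ q * R.card := by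
    calc (Gs.card : ℝ) * ((h : ℝ) * k ^ 2 / (10 * Λ ^ 3))
        = ∑ g ∈ Gs, (h : ℝ) * k ^ 2 / (10 * Λ ^ 3) := by rw [sum_const, nsmul_eq_mul]
      _ ≤ ∑ g ∈ Gs, ((R.bipartiteAbove r g).card : ℝ) := sum_le_sum hlow
      _ = ∑ z ∈ R, ((Gs.bipartiteBelow r z).card : ℝ) := by exact_mod_cast hdc
      _ ≤ ∑ z ∈ R, q := sum_le_sum hup
      _ = q * R.card := by rw [sum_const, nsmul_eq_mul, mul_comm]
  have h2 : (h : ℝ) / (2 * k) ≤ (Gs.card : ℝ) := by
    rw [hGs, Nat.card_Icc, Nat.add_sub_cancel]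
    have h3 : 1 ≤ h / k := (Nat.one_le_div_iff hk0).2 hk
    have h4 : h < k * (h / k + 1) := by
      have := Nat.lt_mul_div_succ h hk0
      exact this
    have h5 : h ≤ (h / k) * (2 * k) := by
      have h6 : k * (h / k + 1) ≤ k * (2 * (h / k)) := Nat.mul_le_mul_left k (by omega)
      calc h ≤ k * (2 * (h / k)) := (h4.trans_le h6).le
        _ = (h / k) * (2 * k) := by ring
    rw [div_le_iff₀ (by positivity)]
    exact_mod_cast h5
  have h3 : (h : ℝ) / (2 * k) * ((h : ℝ) * k ^ 2 / (10 * Λ ^ 3)) ≤ q * R.card :=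
    (mul_le_mul_of_nonneg_right h2 (by positivity)).trans h1
  have h4 : (h : ℝ) / (2 * k) * ((h : ℝ) * k ^ 2 / (10 * Λ ^ 3)) =
      h ^ 2 * k / (20 * Λ ^ 3) := by
    field_simp
    ring
  rw [h4] at h3
  have hΛ3 : 0 < Λ ^ 3 := by linarith
  rw [div_le_iff₀ (by positivity)]
  rw [div_le_iff₀ (by positivity)] at h3
  have h5 : (0 : ℝ) ≤ q * R.card * Λ ^ 3 := by positivity
  nlinarith [h3, h5]

/-- the height is invariant under affine maps -/
theorem hs_affine (c s x y z : ℤ) (hs0 : s ≠ 0) :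
    hs (c - x * s) (c - y * s) (c - z * s) = hs x y z := by
  have hs1 : 0 < s.natAbs := Int.natAbs_pos.2 hs0
  have e : ∀ a b : ℤ, (c - a * s) - (c - b * s) = (b - a) * s := fun a b => by ring
  have e' : ∀ a b : ℤ, ((b - a) * s).natAbs = (a - b).natAbs * s.natAbs := by
    intro a b
    rw [Int.natAbs_mul]
    congr 1
    omega
  have hg : gd (c - x * s) (c - y * s) (c - z * s) = gd x y z * s.natAbs := by
    unfold gd
    rw [e, e, Int.gcd_mul_right]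
    congr 1
    have a1 : y - x = -(x - y) := by ring
    have a2 : z - x = -(x - z) := by ring
    rw [a1, a2, Int.neg_gcd, Int.gcd_neg]
  unfold hs
  rw [hg, e, e, e, e', e', e', Nat.mul_max_mul_right, Nat.mul_max_mul_right,
    Nat.mul_div_mul_right _ _ hs1]

end Pool.Agent.MP_741d1b.All
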