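import Mathlib
import Pool.Agent.Lib.MP_741d1b_nt_all.BDefs

/-!
Row B10a: dilate energies and the norm bound.
-/

set_option autoImplicit false

namespace Pool.Agent.MP_741d1b.All

open Finset Classical
open Pool.Agent.MP_741d1b.H87
open scoped Pointwise

private theorem B10a_log (L : ℕ) : 0 ≤ Real.log (L : ℝ) := by
  rcases Nat.eq_zero_or_pos L with h | h
  · simp [h]
  · exact Real.log_nonneg (by exact_mod_cast h)

/-- The number of pairs of multipliers, weighted, is bounded by the kernel. -/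
private theorem B10a_pair {n L1 L : ℕ} (hL1 : L1 ≤ L) (hL : L ≤ n) {x y : ℤ} (hx : x ≠ 0)
    (hy : y ≠ 0) :
    ∑ p ∈ Iz L1, ∑ s ∈ Iz L, (if p * x = s * y then wt p s else 0) ≤
      2 * (1 + Real.log L) * gk (n ^ 2) x y := by
  have hlog := B10a_log L
  have hg : 0 < Int.gcd x y := Int.gcd_pos_of_ne_zero_left _ hx
  obtain ⟨a, b, hab, ha, hb⟩ := Int.exists_gcd_one hg
  have hgz : ((Int.gcd x y : ℕ) : ℤ) ≠ 0 := by exact_mod_cast hg.ne'
  have ha0 : a ≠ 0 := by intro h; apply hx; rw [ha, h, zero_mul]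
  have hb0 : b ≠ 0 := by intro h; apply hy; rw [hb, h, zero_mul]
  have hH : hgt x y = max a.natAbs b.natAbs := by
    unfold hgt
    have e1 : x.natAbs = a.natAbs * Int.gcd x y := by
      conv_lhs => rw [ha]
      rw [Int.natAbs_mul, Int.natAbs_natCast]
    have e2 : y.natAbs = b.natAbs * Int.gcd x y := by
      conv_lhs => rw [hb]
      rw [Int.natAbs_mul, Int.natAbs_natCast]
    rw [e1, e2, Nat.mul_max_mul_right, Nat.mul_div_cancel _ hg]
  have hHpos : 0 < hgt x y := by
    rw [hH]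
    exact lt_max_of_lt_left (Int.natAbs_pos.mpr ha0)
  have hHpos' : (0 : ℝ) < (hgt x y : ℝ) := by exact_mod_cast hHpos
  have hiff : ∀ p s : ℤ, p * x = s * y → ∃ k : ℤ, p = k * b ∧ s = k * a := by
    intro p s h
    have h1 : p * a = s * b := by
      have h2 : p * a * (Int.gcd x y : ℤ) = s * b * (Int.gcd x y : ℤ) := by
        calc p * a * (Int.gcd x y : ℤ) = p * (a * (Int.gcd x y : ℤ)) := by ring
          _ = p * x := by rw [← ha]
          _ = s * y := h
          _ = s * (b * (Int.gcd x y : ℤ)) := by rw [← hb]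
          _ = s * b * (Int.gcd x y : ℤ) := by ring
      exact mul_right_cancel₀ hgz h2
    have hco : IsCoprime b a := (Int.isCoprime_iff_gcd_eq_one.mpr hab).symm
    have h3 : b ∣ p * a := ⟨s, by rw [h1]; ring⟩
    obtain ⟨k, hk⟩ := hco.dvd_of_dvd_mul_right h3
    refine ⟨k, by rw [hk]; ring, ?_⟩
    have h4 : b * (k * a) = b * s := by
      calc b * (k * a) = (b * k) * a := by ring
        _ = p * a := by rw [← hk]
        _ = b * s := by rw [h1]; ring
    exact (mul_left_cancel₀ hb0 h4).symm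
  have hwt : ∀ k : ℤ, k ≠ 0 → wt (k * b) (k * a) = (1 / (hgt x y : ℝ)) * (1 / |(k : ℝ)|) := by
    intro k hk
    unfold wt
    have h1 : max |((k * b : ℤ) : ℝ)| |((k * a : ℤ) : ℝ)| = |(k : ℝ)| * (hgt x y : ℝ) := by
      push_cast
      rw [abs_mul, abs_mul, ← mul_max_of_nonneg _ _ (abs_nonneg _), hH, max_comm]
      congr 1
      rw [Nat.cast_max, Nat.cast_natAbs, Nat.cast_natAbs]
      push_cast
      rfl
    rw [h1, one_div_mul_one_div, mul_comm]
  by_cases hex : ∃ p ∈ Iz L1, ∃ s ∈ Iz L, p * x = s * y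
  · have hHn : hgt x y ≤ n ^ 2 := by
      obtain ⟨p, hp, s, hs, hps⟩ := hex
      obtain ⟨k, hk1, hk2⟩ := hiff p s hps
      have hp' := mem_Iz.mp hp
      have hs' := mem_Iz.mp hs
      have hk0 : k ≠ 0 := by intro h; apply hp'.1; rw [hk1, h, zero_mul]
      have hk1' : 1 ≤ k.natAbs := Int.natAbs_pos.mpr hk0
      have e1 : b.natAbs ≤ L1 := by
        have h1 : p.natAbs ≤ L1 := by
          have := hp'.2
          rw [Int.abs_eq_natAbs] at this
          exact_mod_cast this
        rw [hk1, Int.natAbs_mul] at h1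
        calc b.natAbs = 1 * b.natAbs := (one_mul _).symm
          _ ≤ k.natAbs * b.natAbs := Nat.mul_le_mul_right _ hk1'
          _ ≤ L1 := h1
      have e2 : a.natAbs ≤ L := by
        have h1 : s.natAbs ≤ L := by
          have := hs'.2
          rw [Int.abs_eq_natAbs] at this
          exact_mod_cast this
        rw [hk2, Int.natAbs_mul] at h1
        calc a.natAbs = 1 * a.natAbs := (one_mul _).symm
          _ ≤ k.natAbs * a.natAbs := Nat.mul_le_mul_right _ hk1'
          _ ≤ L := h1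
      rw [hH]
      have e3 : n ≤ n ^ 2 := Nat.le_self_pow (by norm_num) n
      exact max_le (e2.trans (hL.trans e3)) (e1.trans (hL1.trans (hL.trans e3)))
    have hgk : 1 / (hgt x y : ℝ) ≤ gk (n ^ 2) x y := by
      unfold gk
      rw [if_pos ⟨hx, hy, hHn⟩]
      have hgr : (0 : ℝ) < (Int.gcd x y : ℝ) := by exact_mod_cast hg
      have hxr : |(x : ℝ)| = |(a : ℝ)| * (Int.gcd x y : ℝ) := by
        have h1 : (x : ℝ) = (a : ℝ) * (Int.gcd x y : ℝ) := by
          have h0 : (x : ℝ) = ((a * (Int.gcd x y : ℤ) : ℤ) : ℝ) := by rw [← ha]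
          rw [h0]
          push_cast
          rfl
        rw [h1, abs_mul, abs_of_pos hgr]
      have hyr : |(y : ℝ)| = |(b : ℝ)| * (Int.gcd x y : ℝ) := by
        have h1 : (y : ℝ) = (b : ℝ) * (Int.gcd x y : ℝ) := by
          have h0 : (y : ℝ) = ((b * (Int.gcd x y : ℤ) : ℤ) : ℝ) := by rw [← hb]
          rw [h0]
          push_cast
          rfl
        rw [h1, abs_mul, abs_of_pos hgr]
      have hax : |(a : ℝ)| ≤ hgt x y := by
        rw [hH, Nat.cast_max, Nat.cast_natAbs, Nat.cast_natAbs]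
        push_cast
        exact le_max_left _ _
      have hbx : |(b : ℝ)| ≤ hgt x y := by
        rw [hH, Nat.cast_max, Nat.cast_natAbs, Nat.cast_natAbs]
        push_cast
        exact le_max_right _ _
      have hapos : 0 < |(a : ℝ)| := abs_pos.mpr (by exact_mod_cast ha0)
      have hbpos : 0 < |(b : ℝ)| := abs_pos.mpr (by exact_mod_cast hb0)
      have hs : Real.sqrt (|(x : ℝ)| * |(y : ℝ)|) ≤ (hgt x y : ℝ) * (Int.gcd x y : ℝ) := by
        apply Real.sqrt_le_iff.mpr
        refine ⟨by positivity, ?_⟩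
        rw [hxr, hyr]
        calc |(a : ℝ)| * (Int.gcd x y : ℝ) * (|(b : ℝ)| * (Int.gcd x y : ℝ))
            = (|(a : ℝ)| * |(b : ℝ)|) * (Int.gcd x y : ℝ) ^ 2 := by ring
          _ ≤ ((hgt x y : ℝ) * (hgt x y : ℝ)) * (Int.gcd x y : ℝ) ^ 2 := by
              apply mul_le_mul_of_nonneg_right _ (sq_nonneg _)
              exact mul_le_mul hax hbx (abs_nonneg _) hHpos'.le
          _ = ((hgt x y : ℝ) * (Int.gcd x y : ℝ)) ^ 2 := by ring
      have hspos : 0 < Real.sqrt (|(x : ℝ)| * |(y : ℝ)|) := by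
        apply Real.sqrt_pos.mpr
        rw [hxr, hyr]
        positivity
      rw [div_le_div_iff₀ hHpos' hspos, one_mul]
      linarith [hs, mul_comm (hgt x y : ℝ) (Int.gcd x y : ℝ)]
    have hmain : ∑ p ∈ Iz L1, ∑ s ∈ Iz L, (if p * x = s * y then wt p s else 0) ≤
        (1 / (hgt x y : ℝ)) * ∑ k ∈ Iz L, 1 / |(k : ℝ)| := by
      have h1 : ∀ p ∈ Iz L1, ∑ s ∈ Iz L, (if p * x = s * y then wt p s else 0) ≤
          if b ∣ p then (1 / (hgt x y : ℝ)) * (1 / |((p / b : ℤ) : ℝ)|) else 0 := by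
        intro p hp
        have hp' := mem_Iz.mp hp
        by_cases hs : ∃ s ∈ Iz L, p * x = s * y
        · obtain ⟨s, hs, hps⟩ := hs
          obtain ⟨k, hk1, hk2⟩ := hiff p s hps
          have hk0 : k ≠ 0 := by intro h; apply hp'.1; rw [hk1, h, zero_mul]
          rw [Finset.sum_eq_single s]
          · rw [if_pos hps, if_pos ⟨k, by rw [hk1]; ring⟩, hk1, hk2, hwt k hk0,
              Int.mul_ediv_cancel _ hb0]
          · intro s' _ hne
            rw [if_neg]
            intro h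
            exact hne (mul_right_cancel₀ hy (h.symm.trans hps))
          · intro h
            exact absurd hs h
        · rw [Finset.sum_eq_zero]
          · split_ifs <;> positivity
          · intro s hs'
            rw [if_neg]
            intro h
            exact hs ⟨s, hs', h⟩
      refine (sum_le_sum h1).trans ?_
      rw [← Finset.sum_filter, ← mul_sum]
      apply mul_le_mul_of_nonneg_left _ (by positivity)
      have hinj : Set.InjOn (fun p : ℤ => p / b) ((Iz L1).filter (fun p => b ∣ p) : Finset ℤ) := by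
        intro p hp p' hp' h
        have h1 := (mem_filter.mp (mem_coe.mp hp)).2
        have h2 := (mem_filter.mp (mem_coe.mp hp')).2
        have h3 : p / b = p' / b := h
        rw [← Int.ediv_mul_cancel h1, ← Int.ediv_mul_cancel h2, h3]
      rw [← Finset.sum_image (f := fun k : ℤ => 1 / |(k : ℝ)|) (g := fun p : ℤ => p / b) hinj]
      apply Finset.sum_le_sum_of_subset_of_nonneg
      · intro k hk
        obtain ⟨p, hp, rfl⟩ := mem_image.mp hk
        obtain ⟨hp1, hp2⟩ := mem_filter.mp hp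
        have hp' := mem_Iz.mp hp1
        obtain ⟨c, hc⟩ := hp2
        have e : p / b = c := by rw [hc]; exact Int.mul_ediv_cancel_left _ hb0
        rw [e]
        refine mem_Iz.mpr ⟨?_, ?_⟩
        · intro h; apply hp'.1; rw [hc, h, mul_zero]
        · have h1 : |c| ≤ |p| := by
            rw [hc, abs_mul]
            have : 1 ≤ |b| := Int.one_le_abs hb0
            nlinarith [abs_nonneg c]
          have h2 : (L1 : ℤ) ≤ L := by exact_mod_cast hL1
          linarith [hp'.2]
      · intro k _ _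
        positivity
    calc ∑ p ∈ Iz L1, ∑ s ∈ Iz L, (if p * x = s * y then wt p s else 0)
        ≤ (1 / (hgt x y : ℝ)) * ∑ k ∈ Iz L, 1 / |(k : ℝ)| := hmain
      _ ≤ (1 / (hgt x y : ℝ)) * (2 * (1 + Real.log L)) :=
          mul_le_mul_of_nonneg_left (sum_Iz_inv L) (by positivity)
      _ = 2 * (1 + Real.log L) * (1 / (hgt x y : ℝ)) := by ring
      _ ≤ 2 * (1 + Real.log L) * gk (n ^ 2) x y :=
          mul_le_mul_of_nonneg_left hgk (by positivity)
  · rw [Finset.sum_eq_zero]
    · have := gk_nonneg (n ^ 2) x y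
      positivity
    · intro p hp
      apply Finset.sum_eq_zero
      intro s hs
      rw [if_neg]
      intro h
      exact hex ⟨p, hp, s, hs, h⟩

/- PROOF. As H87.dil_sum (read it): the part x = y = 0 of Dil is at most n²; for L1, L ≤ n the sum over
x, y ≠ 0 in A - A of r x r y ∑ (p, q) ∈ Iz L1 ×ˢ Iz L with p x = q y of wt p q is at most
∑ r x r y [hgt x y ≤ L] 2 (1 + log L) / hgt x y ((p, q) = k (y, x) / gcd (x, y), wt = 1 / (|k| hgt)) ≤
2 (1 + log L) ∑ r x r y gk (n²) x y ≤ 2 (1 + log L) q En A (hb.hnorm with D = (A - A).erase 0,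
card ≤ n²). First term: ∑ p ∈ Iz L1, ∑ q ∈ Iz L, wt p q ≤ ∑ p ∑ q 1 / |q| ≤ 4 L1 (1 + log L). -/
theorem dil_sum' {n : ℕ} {q : ℝ} (hb : Nb n q) (A : Finset ℤ) (hA : A.card ≤ n) (L1 L : ℕ)
    (hL1 : L1 ≤ L) (hL : L ≤ n) :
    ∑ p ∈ Iz L1, ∑ r ∈ Iz L, Dil A p r * wt p r ≤
      4 * L1 * (1 + Real.log L) * (n : ℝ) ^ 2 + 4 * q * (1 + Real.log L) * En A := by
  have hlog := B10a_log L
  have hq0 := hb.q_pos
  set r : ℤ → ℝ := fun v => ((S A v).card : ℝ) with hr
  have hr0 : ∀ v, 0 ≤ r v := fun v => Nat.cast_nonneg _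
  set D := A - A with hD
  have h1 : ∀ p ∈ Iz L1, ∀ s ∈ Iz L, Dil A p s * wt p s ≤ (n : ℝ) ^ 2 * wt p s +
      ∑ x ∈ D.erase 0, ∑ y ∈ D.erase 0, r x * r y * (if p * x = s * y then wt p s else 0) := by
    intro p hp s hs
    have hp0 := (mem_Iz.mp hp).1
    have hs0 := (mem_Iz.mp hs).1
    have hw := wt_nonneg p s
    have h2 : Dil A p s ≤ (n : ℝ) ^ 2 + ∑ x ∈ D.erase 0, ∑ y ∈ D.erase 0,
        if p * x = s * y then r x * r y else 0 := by
      unfold Dil
      have h3 : ∀ x ∈ D.erase 0, (∑ y ∈ D, if p * x = s * y then r x * r y else 0) =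
          ∑ y ∈ D.erase 0, if p * x = s * y then r x * r y else 0 := by
        intro x hx
        have hx0 := (mem_erase.mp hx).1
        symm
        apply Finset.sum_erase
        rw [if_neg]
        rw [mul_zero]
        exact mul_ne_zero hp0 hx0
      have h4 : (∑ y ∈ D, if p * 0 = s * y then r 0 * r y else 0) ≤ (n : ℝ) ^ 2 := by
        have h5 : ∀ y ∈ D, (if p * 0 = s * y then r 0 * r y else 0) =
            if y = 0 then r 0 * r 0 else 0 := by
          intro y _
          by_cases hy : y = 0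
          · simp [hy]
          · rw [if_neg, if_neg hy]
            rw [mul_zero]
            exact fun h => (mul_ne_zero hs0 hy) h.symm
        rw [sum_congr rfl h5, Finset.sum_ite_eq' D (0 : ℤ) (fun _ => r 0 * r 0)]
        have h6 : r 0 ≤ n := by
          rw [hr]; simp only; rw [Sx_zero_card]; exact_mod_cast hA
        have h7 : 0 ≤ r 0 := hr0 0
        split_ifs
        · nlinarith
        · positivity
      by_cases h0 : (0 : ℤ) ∈ D
      · rw [← Finset.add_sum_erase D _ h0, sum_congr rfl h3]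
        linarith
      · have : D.erase 0 = D := erase_eq_of_notMem h0
        rw [this] at h3 ⊢
        have h8 : (0 : ℝ) ≤ (n : ℝ) ^ 2 := by positivity
        linarith
    calc Dil A p s * wt p s ≤ ((n : ℝ) ^ 2 + ∑ x ∈ D.erase 0, ∑ y ∈ D.erase 0,
        if p * x = s * y then r x * r y else 0) * wt p s := mul_le_mul_of_nonneg_right h2 hw
      _ = _ := by
          rw [add_mul, sum_mul]
          congr 1
          refine sum_congr rfl fun x _ => ?_
          rw [sum_mul]
          refine sum_congr rfl fun y _ => ?_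
          split_ifs <;> ring
  have hmain := sum_le_sum fun p hp => sum_le_sum fun s hs => h1 p hp s hs
  simp only [sum_add_distrib, ← mul_sum] at hmain
  have h2 : ∑ p ∈ Iz L1, ∑ s ∈ Iz L, ∑ x ∈ D.erase 0, ∑ y ∈ D.erase 0,
      r x * r y * (if p * x = s * y then wt p s else 0) =
      ∑ x ∈ D.erase 0, ∑ y ∈ D.erase 0, r x * r y *
        ∑ p ∈ Iz L1, ∑ s ∈ Iz L, (if p * x = s * y then wt p s else 0) := by
    calc ∑ p ∈ Iz L1, ∑ s ∈ Iz L, ∑ x ∈ D.erase 0, ∑ y ∈ D.erase 0,
        r x * r y * (if p * x = s * y then wt p s else 0)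
        = ∑ p ∈ Iz L1, ∑ x ∈ D.erase 0, ∑ s ∈ Iz L, ∑ y ∈ D.erase 0,
          r x * r y * (if p * x = s * y then wt p s else 0) :=
          sum_congr rfl fun p _ => sum_comm
      _ = ∑ x ∈ D.erase 0, ∑ p ∈ Iz L1, ∑ s ∈ Iz L, ∑ y ∈ D.erase 0,
          r x * r y * (if p * x = s * y then wt p s else 0) := sum_comm
      _ = ∑ x ∈ D.erase 0, ∑ p ∈ Iz L1, ∑ y ∈ D.erase 0, ∑ s ∈ Iz L,
          r x * r y * (if p * x = s * y then wt p s else 0) :=
          sum_congr rfl fun x _ => sum_congr rfl fun p _ => sum_comm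
      _ = ∑ x ∈ D.erase 0, ∑ y ∈ D.erase 0, ∑ p ∈ Iz L1, ∑ s ∈ Iz L,
          r x * r y * (if p * x = s * y then wt p s else 0) :=
          sum_congr rfl fun x _ => sum_comm
      _ = _ := by
          refine sum_congr rfl fun x _ => sum_congr rfl fun y _ => ?_
          rw [mul_sum]
          refine sum_congr rfl fun p _ => ?_
          rw [mul_sum]
  have h3 : ∑ x ∈ D.erase 0, ∑ y ∈ D.erase 0, r x * r y *
        ∑ p ∈ Iz L1, ∑ s ∈ Iz L, (if p * x = s * y then wt p s else 0) ≤
      2 * (1 + Real.log L) * ∑ x ∈ D.erase 0, ∑ y ∈ D.erase 0, r x * r y * gk (n ^ 2) x y := by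
    rw [mul_sum]
    refine sum_le_sum fun x hx => ?_
    rw [mul_sum]
    refine sum_le_sum fun y hy => ?_
    have hx0 := (mem_erase.mp hx).1
    have hy0 := (mem_erase.mp hy).1
    calc r x * r y * ∑ p ∈ Iz L1, ∑ s ∈ Iz L, (if p * x = s * y then wt p s else 0)
        ≤ r x * r y * (2 * (1 + Real.log L) * gk (n ^ 2) x y) :=
          mul_le_mul_of_nonneg_left (B10a_pair hL1 hL hx0 hy0) (mul_nonneg (hr0 x) (hr0 y))
      _ = _ := by ring
  have hcard : (D.erase 0).card ≤ n ^ 2 := by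
    calc (D.erase 0).card ≤ D.card := card_erase_le
      _ ≤ A.card * A.card := card_sub_le
      _ ≤ n * n := Nat.mul_le_mul hA hA
      _ = n ^ 2 := by ring
  have h4 := hb.hnorm (D.erase 0) (fun x hx => (mem_erase.mp hx).1) hcard r r hr0 hr0
  have h5 : Real.sqrt (∑ x ∈ D.erase 0, r x ^ 2) * Real.sqrt (∑ x ∈ D.erase 0, r x ^ 2) ≤
      En A := by
    rw [Real.mul_self_sqrt (sum_nonneg fun x _ => sq_nonneg _)]
    unfold En
    exact Finset.sum_le_sum_of_subset_of_nonneg (erase_subset _ _) (fun x _ _ => sq_nonneg _)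
  have h6 : ∑ p ∈ Iz L1, ∑ s ∈ Iz L, wt p s ≤ 4 * L1 * (1 + Real.log L) := by
    calc ∑ p ∈ Iz L1, ∑ s ∈ Iz L, wt p s ≤ ∑ p ∈ Iz L1, ∑ s ∈ Iz L, 1 / |(s : ℝ)| :=
          sum_le_sum fun p _ => sum_le_sum fun s hs => by
            rw [wt_comm]
            exact wt_le s p (mem_Iz.mp hs).1
      _ = 2 * L1 * ∑ s ∈ Iz L, 1 / |(s : ℝ)| := by
          rw [sum_const, card_Iz, nsmul_eq_mul]
          push_cast
          rfl
      _ ≤ 2 * L1 * (2 * (1 + Real.log L)) :=
          mul_le_mul_of_nonneg_left (sum_Iz_inv L) (by positivity)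
      _ = 4 * L1 * (1 + Real.log L) := by ring
  have h7 : (n : ℝ) ^ 2 * ∑ p ∈ Iz L1, ∑ s ∈ Iz L, wt p s ≤
      4 * L1 * (1 + Real.log L) * (n : ℝ) ^ 2 := by
    calc (n : ℝ) ^ 2 * ∑ p ∈ Iz L1, ∑ s ∈ Iz L, wt p s
        ≤ (n : ℝ) ^ 2 * (4 * L1 * (1 + Real.log L)) :=
          mul_le_mul_of_nonneg_left h6 (by positivity)
      _ = _ := by ring
  have h8 : 2 * (1 + Real.log L) * ∑ x ∈ D.erase 0, ∑ y ∈ D.erase 0,
      r x * r y * gk (n ^ 2) x y ≤ 4 * q * (1 + Real.log L) * En A := by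
    have hE := En_nonneg A
    have h9 : ∑ x ∈ D.erase 0, ∑ y ∈ D.erase 0, r x * r y * gk (n ^ 2) x y ≤ q * En A :=
      h4.trans (mul_le_mul_of_nonneg_left h5 hq0.le)
    calc 2 * (1 + Real.log L) * ∑ x ∈ D.erase 0, ∑ y ∈ D.erase 0,
        r x * r y * gk (n ^ 2) x y ≤ 2 * (1 + Real.log L) * (q * En A) :=
          mul_le_mul_of_nonneg_left h9 (by positivity)
      _ ≤ 4 * (1 + Real.log L) * (q * En A) := by
          have : 0 ≤ (1 + Real.log L) * (q * En A) := by positivity
          nlinarith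
      _ = _ := by ring
  rw [h2] at hmain
  linarith

end Pool.Agent.MP_741d1b.All
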