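import Mathlib
import Pool.Agent.Lib.MP_741d1b_nt_all.BDefs

/-!
Row B2: consequences of the norm bound for triples.
-/

set_option autoImplicit false

namespace Pool.Agent.MP_741d1b.All

open Finset Classical
open Pool.Agent.MP_741d1b.H87

/-- lower bound for the kernel -/
private theorem b2_gk {L : ℕ} {x y : ℤ} (hx : x ≠ 0) (hy : y ≠ 0) (hL : hgt x y ≤ L) {c : ℝ}
    (hc : 0 ≤ c) (h : |(x : ℝ)| * |(y : ℝ)| ≤ (c * (Int.gcd x y : ℝ)) ^ 2) :
    1 ≤ c * gk L x y := by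
  have h1 : gk L x y = (Int.gcd x y : ℝ) / Real.sqrt (|(x : ℝ)| * |(y : ℝ)|) := by
    unfold gk
    rw [if_pos ⟨hx, hy, hL⟩]
  have hx' : 0 < |(x : ℝ)| := abs_pos.mpr (Int.cast_ne_zero.mpr hx)
  have hy' : 0 < |(y : ℝ)| := abs_pos.mpr (Int.cast_ne_zero.mpr hy)
  have hpos : 0 < Real.sqrt (|(x : ℝ)| * |(y : ℝ)|) := Real.sqrt_pos.mpr (mul_pos hx' hy')
  rw [h1, mul_div_assoc', le_div_iff₀ hpos, one_mul]
  exact Real.sqrt_le_iff.mpr ⟨mul_nonneg hc (Nat.cast_nonneg _), h⟩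

/-- the sizes in terms of the height -/
private theorem b2_abs {x y : ℤ} {k : ℕ} (hk : hgt x y ≤ k) :
    |(x : ℝ)| ≤ k * (Int.gcd x y : ℝ) ∧ |(y : ℝ)| ≤ k * (Int.gcd x y : ℝ) := by
  have hdvd : Int.gcd x y ∣ max x.natAbs y.natAbs := by
    rcases max_choice x.natAbs y.natAbs with h | h <;> rw [h]
    · exact Int.natCast_dvd.mp (Int.gcd_dvd_left x y)
    · exact Int.natCast_dvd.mp (Int.gcd_dvd_right x y)
  have h0 : max x.natAbs y.natAbs = hgt x y * Int.gcd x y := (Nat.div_mul_cancel hdvd).symm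
  have h2 : max x.natAbs y.natAbs ≤ k * Int.gcd x y := by
    rw [h0]
    exact Nat.mul_le_mul_right _ hk
  have ex : ((x.natAbs : ℕ) : ℝ) = |(x : ℝ)| := by rw [Nat.cast_natAbs, Int.cast_abs]
  have ey : ((y.natAbs : ℕ) : ℝ) = |(y : ℝ)| := by rw [Nat.cast_natAbs, Int.cast_abs]
  constructor
  · rw [← ex]
    exact_mod_cast (le_max_left _ _).trans h2
  · rw [← ey]
    exact_mod_cast (le_max_right _ _).trans h2

private theorem b2_one {L k : ℕ} {x y : ℤ} (hx : x ≠ 0) (hy : y ≠ 0) (hk : hgt x y ≤ k)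
    (hkL : k ≤ L) : 1 ≤ (k : ℝ) * gk L x y := by
  refine b2_gk hx hy (hk.trans hkL) (Nat.cast_nonneg k) ?_
  obtain ⟨h1, h2⟩ := b2_abs hk
  rw [sq]
  exact mul_le_mul h1 h2 (abs_nonneg _) (mul_nonneg (Nat.cast_nonneg _) (Nat.cast_nonneg _))

namespace Nb

variable {n : ℕ} {q : ℝ} (hb : Nb n q)
include hb

/-- The norm bound around the element `a`, for kernels bounded by `c * gk`. -/
private theorem b2_gen (A : Finset ℤ) (hA : A.card ≤ n) (a : ℤ) (U : Finset ℤ)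
    (hU : U ⊆ A.erase a) (f g : ℤ → ℝ) (hf : ∀ x, 0 ≤ f x) (hg : ∀ x, 0 ≤ g x) (c : ℝ)
    (hc : 0 ≤ c) (w : ℤ → ℤ → ℝ)
    (hw : ∀ y ∈ U, ∀ z ∈ U, w y z ≤ c * (f y * g z * gk (n ^ 2) (a - y) (a - z))) :
    ∑ y ∈ U, ∑ z ∈ U, w y z ≤
      c * q * (Real.sqrt (∑ y ∈ U, f y ^ 2) * Real.sqrt (∑ y ∈ U, g y ^ 2)) := by
  have hinj : ∀ y ∈ U, ∀ z ∈ U, a - y = a - z → y = z := fun y _ z _ h => by omega
  have hne : ∀ x ∈ U.image (fun y => a - y), x ≠ 0 := by
    intro x hx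
    obtain ⟨y, hy, rfl⟩ := mem_image.mp hx
    have := (mem_erase.mp (hU hy)).1
    omega
  have hcard : (U.image (fun y => a - y)).card ≤ n ^ 2 := by
    have h1 : (U.image (fun y => a - y)).card ≤ U.card := card_image_le
    have h2 : U.card ≤ A.card := (card_le_card hU).trans (card_le_card (erase_subset _ _))
    have h3 : n ≤ n ^ 2 := Nat.le_self_pow (by norm_num) n
    omega
  have key := hb.hnorm (U.image (fun y => a - y)) hne hcard (fun x => f (a - x))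
    (fun x => g (a - x)) (fun x => hf _) (fun x => hg _)
  rw [sum_image hinj, sum_image hinj, sum_image hinj] at key
  simp only [sum_image hinj, sub_sub_cancel] at key
  calc ∑ y ∈ U, ∑ z ∈ U, w y z
      ≤ ∑ y ∈ U, ∑ z ∈ U, c * (f y * g z * gk (n ^ 2) (a - y) (a - z)) :=
        sum_le_sum fun y hy => sum_le_sum fun z hz => hw y hy z hz
    _ = c * ∑ y ∈ U, ∑ z ∈ U, f y * g z * gk (n ^ 2) (a - y) (a - z) := by
        rw [mul_sum]
        refine sum_congr rfl fun y _ => ?_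
        rw [mul_sum]
    _ ≤ c * (q * (Real.sqrt (∑ y ∈ U, f y ^ 2) * Real.sqrt (∑ y ∈ U, g y ^ 2))) :=
        mul_le_mul_of_nonneg_left key hc
    _ = c * q * (Real.sqrt (∑ y ∈ U, f y ^ 2) * Real.sqrt (∑ y ∈ U, g y ^ 2)) := by ring

/- PROOF of all four: hnorm for D = (A.erase a).image (fun y => a - y) (card ≤ n ≤ n ^ 2, nonzero
elements). For x, y ≠ 0 with hgt x y ≤ h ≤ n ^ 2: 1 / hgt x y ≤ gk (n ^ 2) x y (with x = m g,
y = j g: hgt = max (|m|, |j|), gk = 1 / √(|m| |j|)), so 1 ≤ h * gk. -/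

/-- bilinear form -/
theorem bilin (A : Finset ℤ) (hA : A.card ≤ n) (a : ℤ) (U : Finset ℤ) (hU : U ⊆ A.erase a)
    (f g : ℤ → ℝ) (hf : ∀ x, 0 ≤ f x) (hg : ∀ x, 0 ≤ g x) (k : ℕ) (hk : k ≤ n ^ 2) :
    ∑ y ∈ U, ∑ z ∈ U, (if hgt (a - y) (a - z) ≤ k then f y * g z else 0) ≤
      k * q * (Real.sqrt (∑ y ∈ U, f y ^ 2) * Real.sqrt (∑ y ∈ U, g y ^ 2)) := by
  refine hb.b2_gen A hA a U hU f g hf hg k (Nat.cast_nonneg k)
    (fun y z => if hgt (a - y) (a - z) ≤ k then f y * g z else 0) fun y hy z hz => ?_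
  have hya : a - y ≠ 0 := by
    have := (mem_erase.mp (hU hy)).1
    omega
  have hza : a - z ≠ 0 := by
    have := (mem_erase.mp (hU hz)).1
    omega
  have hfg : 0 ≤ f y * g z := mul_nonneg (hf y) (hg z)
  show (if hgt (a - y) (a - z) ≤ k then f y * g z else 0) ≤ _
  split_ifs with h
  · have h1 := b2_one hya hza h hk
    calc f y * g z = f y * g z * 1 := (mul_one _).symm
      _ ≤ f y * g z * (k * gk (n ^ 2) (a - y) (a - z)) := mul_le_mul_of_nonneg_left h1 hfg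
      _ = k * (f y * g z * gk (n ^ 2) (a - y) (a - z)) := by ring
  · exact mul_nonneg (Nat.cast_nonneg k) (mul_nonneg hfg (gk_nonneg _ _ _))

/-- One row against the third points. -/
private theorem b2_row (A : Finset ℤ) (hA : A.card ≤ n) (a : ℤ) (h : ℕ) (hh : h ≤ n ^ 2)
    (f : ℤ → ℝ) (hf : ∀ x, 0 ≤ f x) :
    ∑ b ∈ A.erase a, f b * ((F A h a b).card : ℝ) ≤
      h * q * (Real.sqrt (∑ b ∈ A.erase a, f b ^ 2) * Real.sqrt n) := by
  have h1 := hb.bilin A hA a (A.erase a) (Subset.refl _) f (fun _ => 1) hf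
    (fun _ => zero_le_one) h hh
  have h2 : ∀ b ∈ A.erase a, f b * ((F A h a b).card : ℝ) ≤
      ∑ z ∈ A.erase a, (if hgt (a - b) (a - z) ≤ h then f b * 1 else 0) := by
    intro b hbm
    have hab : a ≠ b := (mem_erase.mp hbm).1.symm
    rw [← sum_filter, sum_const, nsmul_eq_mul, mul_one, mul_comm]
    apply mul_le_mul_of_nonneg_right _ (hf b)
    have h3 : F A h a b ⊆ (A.erase a).filter (fun z => hgt (a - b) (a - z) ≤ h) := by
      intro y hy
      obtain ⟨hyA, hya, _, hyh⟩ := mem_F.mp hy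
      exact mem_filter.mpr ⟨mem_erase.mpr ⟨hya, hyA⟩, (hgt_le_hs hab y).trans hyh⟩
    exact_mod_cast card_le_card h3
  refine (sum_le_sum h2).trans (h1.trans ?_)
  apply mul_le_mul_of_nonneg_left _ (mul_nonneg (Nat.cast_nonneg _) hb.q_pos.le)
  apply mul_le_mul_of_nonneg_left _ (Real.sqrt_nonneg _)
  apply Real.sqrt_le_sqrt
  have h4 : (A.erase a).card ≤ n := (card_le_card (erase_subset _ _)).trans hA
  simp only [one_pow, sum_const, nsmul_eq_mul, mul_one]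
  exact_mod_cast h4

/- PROOF: with u b = ∑ y ∈ A.erase a, gk (a - b) (a - y): card (F A h a b) ≤ h * u b (hgt ≤ hs), and
∑ u b ^ 2 = ∑ b, ∑ y, u b * 1 * gk ≤ q * √(∑ u ^ 2) * √n, so √(∑ u ^ 2) ≤ q √n. -/
theorem row_sq (A : Finset ℤ) (hA : A.card ≤ n) (a : ℤ) (ha : a ∈ A) (h : ℕ) (hh : h ≤ n ^ 2) :
    ∑ b ∈ A.erase a, ((F A h a b).card : ℝ) ^ 2 ≤ (h : ℝ) ^ 2 * q ^ 2 * n := by
  have h1 := hb.b2_row A hA a h hh (fun b => ((F A h a b).card : ℝ)) fun b => Nat.cast_nonneg _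
  set S : ℝ := ∑ b ∈ A.erase a, ((F A h a b).card : ℝ) ^ 2 with hS
  have hS0 : 0 ≤ S := sum_nonneg fun _ _ => sq_nonneg _
  have h2 : S ≤ h * q * (Real.sqrt S * Real.sqrt n) := by
    refine le_trans (le_of_eq ?_) h1
    rw [hS]
    exact sum_congr rfl fun b _ => sq _
  have hn0 : (0 : ℝ) ≤ n := Nat.cast_nonneg n
  have h3 : Real.sqrt S ≤ h * q * Real.sqrt n := by
    by_cases h0 : Real.sqrt S = 0
    · rw [h0]
      exact mul_nonneg (mul_nonneg (Nat.cast_nonneg _) hb.q_pos.le) (Real.sqrt_nonneg _)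
    · have hpos : 0 < Real.sqrt S := lt_of_le_of_ne (Real.sqrt_nonneg _) (Ne.symm h0)
      have h4 : Real.sqrt S * Real.sqrt S ≤ (h * q * Real.sqrt n) * Real.sqrt S := by
        rw [Real.mul_self_sqrt hS0]
        calc S ≤ h * q * (Real.sqrt S * Real.sqrt n) := h2
          _ = (h * q * Real.sqrt n) * Real.sqrt S := by ring
      exact le_of_mul_le_mul_right h4 hpos
  calc S = Real.sqrt S ^ 2 := (Real.sq_sqrt hS0).symm
    _ ≤ (h * q * Real.sqrt n) ^ 2 := pow_le_pow_left₀ (Real.sqrt_nonneg _) h3 2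
    _ = (h : ℝ) ^ 2 * q ^ 2 * (Real.sqrt n) ^ 2 := by ring
    _ = (h : ℝ) ^ 2 * q ^ 2 * n := by rw [Real.sq_sqrt hn0]

theorem tc_le (A : Finset ℤ) (hA : A.card ≤ n) (h : ℕ) (hh : h ≤ n ^ 2) :
    tc A h ≤ q * (n : ℝ) ^ 2 * h := by
  have hn0 : (0 : ℝ) ≤ n := Nat.cast_nonneg n
  have h1 : ∀ a ∈ A, ∑ b ∈ A.erase a, ((F A h a b).card : ℝ) ≤ h * q * n := by
    intro a _
    have h2 := hb.b2_row A hA a h hh (fun _ => 1) fun _ => zero_le_one
    have h3 : Real.sqrt (∑ b ∈ A.erase a, (1 : ℝ) ^ 2) ≤ Real.sqrt n := by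
      apply Real.sqrt_le_sqrt
      have h4 : (A.erase a).card ≤ n := (card_le_card (erase_subset _ _)).trans hA
      simp only [one_pow, sum_const, nsmul_eq_mul, mul_one]
      exact_mod_cast h4
    calc ∑ b ∈ A.erase a, ((F A h a b).card : ℝ)
        = ∑ b ∈ A.erase a, 1 * ((F A h a b).card : ℝ) := by simp only [one_mul]
      _ ≤ h * q * (Real.sqrt (∑ b ∈ A.erase a, (1 : ℝ) ^ 2) * Real.sqrt n) := h2
      _ ≤ h * q * (Real.sqrt n * Real.sqrt n) := by
          apply mul_le_mul_of_nonneg_left _ (mul_nonneg (Nat.cast_nonneg _) hb.q_pos.le)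
          exact mul_le_mul_of_nonneg_right h3 (Real.sqrt_nonneg _)
      _ = h * q * n := by rw [Real.mul_self_sqrt hn0]
  unfold tc
  calc ∑ a ∈ A, ∑ b ∈ A.erase a, ((F A h a b).card : ℝ) ≤ ∑ _a ∈ A, (h : ℝ) * q * n :=
        sum_le_sum h1
    _ = A.card * ((h : ℝ) * q * n) := by rw [sum_const, nsmul_eq_mul]
    _ ≤ n * ((h : ℝ) * q * n) := by
        apply mul_le_mul_of_nonneg_right (by exact_mod_cast hA)
        exact mul_nonneg (mul_nonneg (Nat.cast_nonneg _) hb.q_pos.le) hn0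
    _ = q * (n : ℝ) ^ 2 * h := by ring

/- PROOF: here gk (a - b) (a - y) = 1 / √(|m| |j|) ≥ √τ / h because |m| ≤ h / τ, |j| ≤ h. -/
/-- few triples with a short side -/
theorem unbal (A : Finset ℤ) (hA : A.card ≤ n) (h : ℕ) (hh : h ≤ n ^ 2) (τ : ℝ) (hτ : 0 < τ) :
    ∑ a ∈ A, ∑ b ∈ A.erase a, (((F A h a b).filter
      (fun y => τ * (a - b).natAbs ≤ (h : ℝ) * gd a b y)).card : ℝ) ≤
      q * (n : ℝ) ^ 2 * h / Real.sqrt τ := by
  have hn0 : (0 : ℝ) ≤ n := Nat.cast_nonneg n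
  have hsτ : 0 < Real.sqrt τ := Real.sqrt_pos.mpr hτ
  have hc : 0 ≤ (h : ℝ) / Real.sqrt τ := div_nonneg (Nat.cast_nonneg _) hsτ.le
  have h1 : ∀ a ∈ A, ∑ b ∈ A.erase a, (((F A h a b).filter
      (fun y => τ * (a - b).natAbs ≤ (h : ℝ) * gd a b y)).card : ℝ) ≤
        h / Real.sqrt τ * q * n := by
    intro a _
    have hcount : ∀ b ∈ A.erase a, (((F A h a b).filter
        (fun y => τ * (a - b).natAbs ≤ (h : ℝ) * gd a b y)).card : ℝ) =
          ∑ y ∈ A.erase a, (if y ∈ (F A h a b).filter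
            (fun y => τ * (a - b).natAbs ≤ (h : ℝ) * gd a b y) then (1 : ℝ) else 0) := by
      intro b _
      rw [← sum_filter, sum_const, nsmul_eq_mul, mul_one]
      congr 2
      ext y
      simp only [mem_filter, mem_F, mem_erase]
      tauto
    rw [sum_congr rfl hcount]
    have h2 := hb.b2_gen A hA a (A.erase a) (Subset.refl _) (fun _ => 1) (fun _ => 1)
      (fun _ => zero_le_one) (fun _ => zero_le_one) (h / Real.sqrt τ) hc
      (fun b y => if y ∈ (F A h a b).filter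
            (fun y => τ * (a - b).natAbs ≤ (h : ℝ) * gd a b y) then (1 : ℝ) else 0)
      (fun b hbm y hym => ?_)
    · refine h2.trans ?_
      have h4 : ((A.erase a).card : ℝ) ≤ n := by
        exact_mod_cast (card_le_card (erase_subset _ _)).trans hA
      simp only [one_pow, sum_const, nsmul_eq_mul, mul_one]
      rw [Real.mul_self_sqrt (Nat.cast_nonneg _)]
      exact mul_le_mul_of_nonneg_left h4 (mul_nonneg hc hb.q_pos.le)
    · have hba : a - b ≠ 0 := by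
        have := (mem_erase.mp hbm).1
        omega
      have hya : a - y ≠ 0 := by
        have := (mem_erase.mp hym).1
        omega
      have hab : a ≠ b := fun h => hba (by omega)
      split_ifs with hmem
      · obtain ⟨hF, hτy⟩ := mem_filter.mp hmem
        obtain ⟨_, _, _, hhs⟩ := mem_F.mp hF
        have hgt' : hgt (a - b) (a - y) ≤ h := (hgt_le_hs hab y).trans hhs
        have h5 : 1 ≤ h / Real.sqrt τ * gk (n ^ 2) (a - b) (a - y) := by
          refine b2_gk hba hya (hgt'.trans hh) hc ?_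
          obtain ⟨_, hy2⟩ := b2_abs hgt'
          have e1 : (((a - b).natAbs : ℕ) : ℝ) = |((a - b : ℤ) : ℝ)| := by
            rw [Nat.cast_natAbs, Int.cast_abs]
          have e2 : ((gd a b y : ℕ) : ℝ) = (Int.gcd (a - b) (a - y) : ℝ) := rfl
          rw [e1, e2] at hτy
          have e3 : (h / Real.sqrt τ * (Int.gcd (a - b) (a - y) : ℝ)) ^ 2 =
              ((h : ℝ) * (Int.gcd (a - b) (a - y) : ℝ)) *
                ((h : ℝ) * (Int.gcd (a - b) (a - y) : ℝ)) / τ := by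
            rw [mul_pow, div_pow, Real.sq_sqrt hτ.le]
            ring
          rw [e3, le_div_iff₀ hτ]
          calc |((a - b : ℤ) : ℝ)| * |((a - y : ℤ) : ℝ)| * τ
              = (τ * |((a - b : ℤ) : ℝ)|) * |((a - y : ℤ) : ℝ)| := by ring
            _ ≤ ((h : ℝ) * (Int.gcd (a - b) (a - y) : ℝ)) *
                ((h : ℝ) * (Int.gcd (a - b) (a - y) : ℝ)) :=
              mul_le_mul hτy hy2 (abs_nonneg _)
                (mul_nonneg (Nat.cast_nonneg _) (Nat.cast_nonneg _))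
        show (1 : ℝ) ≤ h / Real.sqrt τ * (1 * 1 * gk (n ^ 2) (a - b) (a - y))
        rw [one_mul, one_mul]
        exact h5
      · exact mul_nonneg hc (mul_nonneg (by norm_num) (gk_nonneg _ _ _))
  calc ∑ a ∈ A, ∑ b ∈ A.erase a, (((F A h a b).filter
      (fun y => τ * (a - b).natAbs ≤ (h : ℝ) * gd a b y)).card : ℝ)
      ≤ ∑ _a ∈ A, (h : ℝ) / Real.sqrt τ * q * n := sum_le_sum h1
    _ = A.card * ((h : ℝ) / Real.sqrt τ * q * n) := by rw [sum_const, nsmul_eq_mul]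
    _ ≤ n * ((h : ℝ) / Real.sqrt τ * q * n) := by
        apply mul_le_mul_of_nonneg_right (by exact_mod_cast hA)
        exact mul_nonneg (mul_nonneg hc hb.q_pos.le) hn0
    _ = q * (n : ℝ) ^ 2 * h / Real.sqrt τ := by ring

end Nb

end Pool.Agent.MP_741d1b.All
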