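import Mathlib
import Pool.Agent.Lib.MP_741d1b_nt_all.BNorm
import Pool.Agent.Lib.MP_741d1b_nt_all.BDense

/-!
Row B9: many triples of small height.
-/

set_option autoImplicit false

namespace Pool.Agent.MP_741d1b.All

open Finset Classical
open Pool.Agent.MP_741d1b.H87

/-- Triples of distinct elements of small height. -/
noncomputable def TD (k : ℕ) (J : Finset ℤ) : Finset (ℤ × ℤ × ℤ) :=
  (J ×ˢ J ×ˢ J).filter (fun z => z.1 ≠ z.2.1 ∧ z.1 ≠ z.2.2 ∧ z.2.1 ≠ z.2.2 ∧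
    hs z.1 z.2.1 z.2.2 ≤ k)

theorem mem_TD {k : ℕ} {J : Finset ℤ} {x y z : ℤ} : (x, y, z) ∈ TD k J ↔
    (x ∈ J ∧ y ∈ J ∧ z ∈ J) ∧ x ≠ y ∧ x ≠ z ∧ y ≠ z ∧ hs x y z ≤ k := by
  unfold TD
  rw [mem_filter, mem_product, mem_product]

theorem card_TD_le (A : Finset ℤ) (k : ℕ) : ((TD k A).card : ℝ) ≤ tc A k := by
  unfold TD
  rw [card_filter]
  push_cast
  rw [Finset.sum_product]
  unfold tc
  refine sum_le_sum fun x hx => ?_
  rw [Finset.sum_product]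
  have h0 : ∑ z ∈ A, (if x ≠ x ∧ x ≠ z ∧ x ≠ z ∧ hs x x z ≤ k then (1 : ℝ) else 0) = 0 := by
    apply Finset.sum_eq_zero
    intro z _
    rw [if_neg]
    tauto
  rw [← Finset.sum_erase A (f := fun y => ∑ z ∈ A,
    (if x ≠ y ∧ x ≠ z ∧ y ≠ z ∧ hs x y z ≤ k then (1 : ℝ) else 0)) h0]
  refine sum_le_sum fun y _ => ?_
  unfold F
  rw [card_filter]
  push_cast
  refine sum_le_sum fun z _ => ?_
  split_ifs with h1 h2 h2
  · exact le_refl _
  · exfalso
    apply h2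
    exact ⟨h1.2.1.symm, h1.2.2.1.symm, h1.2.2.2⟩
  · norm_num
  · exact le_refl _

/-- The triples in one block. -/
theorem block_triples {n : ℕ} {q : ℝ} (hb : Nb n q) (h k : ℕ) (hk : k ≤ h) (hh : h ≤ n ^ 2)
    (Λ : ℝ) (hΛ : 1 ≤ Λ) (hkΛ : 2000 * Λ ^ 3 ≤ k) (a b : ℤ) (hab : a ≠ b) (s : ℕ) (J : Finset ℤ)
    (hJ : ∀ z ∈ J, hs a b z ≤ h ∧ gd a b z = s) (hJc : (h : ℝ) / Λ ≤ J.card) :
    (h : ℝ) ^ 2 * k / (128 * q * Λ ^ 3) ≤ ((TD k J).card : ℝ) := by
  have hΛ0 : 0 < Λ := by linarith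
  have hk0 : (0 : ℝ) < k := lt_of_lt_of_le (by positivity) hkΛ
  have hh0 : (0 : ℝ) < h := lt_of_lt_of_le hk0 (by exact_mod_cast hk)
  have hJ0 : (0 : ℝ) < J.card := lt_of_lt_of_le (by positivity) hJc
  obtain ⟨z0, hz0⟩ := card_pos.mp (by exact_mod_cast hJ0 : 0 < J.card)
  have hs0 : 0 < s := by
    rw [← (hJ z0 hz0).2]
    exact gd_pos hab z0
  have hsz : (s : ℤ) ≠ 0 := by exact_mod_cast hs0.ne'
  -- coordinates
  have hco : ∀ z ∈ J, ∃ j : ℤ, a - z = j * s ∧ |j| ≤ h := by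
    intro z hz
    obtain ⟨m, j, _, h2, _, h3⟩ := hs_param hab z
    rw [(hJ z hz).2] at h2
    refine ⟨j, h2, ?_⟩
    have h4 := (hJ z hz).1
    rw [h3] at h4
    rw [Int.abs_eq_natAbs]
    have : j.natAbs ≤ h := le_trans (le_max_of_le_right (le_max_left _ _)) h4
    exact_mod_cast this
  choose! j hj using hco
  set I := J.image j with hI
  have hzj : ∀ z ∈ J, z = a - j z * s := by
    intro z hz
    have := (hj z hz).1
    linarith
  have hinj : Set.InjOn j J := by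
    intro z hz z' hz' he
    rw [hzj z hz, hzj z' hz', he]
  have hIc : I.card = J.card := Finset.card_image_of_injOn hinj
  have h1 := dense_triples hb h k hk hh Λ hΛ hkΛ I (by
    intro i hi
    obtain ⟨z, hz, rfl⟩ := mem_image.mp hi
    exact (hj z hz).2) (by rw [hIc]; exact hJc)
  refine h1.trans ?_
  apply Nat.cast_le.mpr
  refine Finset.card_le_card_of_injOn
    (fun w => (a - w.1 * s, a - w.2.1 * s, a - w.2.2 * s)) ?_ ?_
  · rintro ⟨x, y, z⟩ hw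
    have hw' : ((x, y, z) : ℤ × ℤ × ℤ) ∈ (I ×ˢ I ×ˢ I).filter (fun z => z.1 ≠ z.2.1 ∧
      z.1 ≠ z.2.2 ∧ z.2.1 ≠ z.2.2 ∧ hs z.1 z.2.1 z.2.2 ≤ k) := hw
    rw [mem_filter, mem_product, mem_product] at hw'
    obtain ⟨⟨hx, hy, hz⟩, h2, h3, h4, h5⟩ := hw'
    simp only at hx hy hz h2 h3 h4 h5
    have hmem : ∀ i ∈ I, a - i * s ∈ J := by
      intro i hi
      obtain ⟨z, hz, rfl⟩ := mem_image.mp hi
      rw [← hzj z hz]; exact hz
    have hne : ∀ i i' : ℤ, i ≠ i' → a - i * s ≠ a - i' * s := by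
      intro i i' hne he
      apply hne
      have : i * (s : ℤ) = i' * s := by linarith
      exact mul_right_cancel₀ hsz this
    have : (a - x * s, a - y * s, a - z * s) ∈ TD k J := by
      rw [mem_TD]
      refine ⟨⟨hmem x hx, hmem y hy, hmem z hz⟩, hne _ _ h2, hne _ _ h3, hne _ _ h4, ?_⟩
      rw [hs_affine a s x y z hsz]
      exact h5
    exact this
  · rintro ⟨x, y, z⟩ _ ⟨x', y', z'⟩ _ he
    simp only [Prod.mk.injEq] at he
    obtain ⟨e1, e2, e3⟩ := he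
    have hc : ∀ i i' : ℤ, a - i * s = a - i' * s → i = i' := by
      intro i i' he
      have : i * (s : ℤ) = i' * s := by linarith
      exact mul_right_cancel₀ hsz this
    rw [hc _ _ e1, hc _ _ e2, hc _ _ e3]

/-- few pairs have two given points in their block -/
theorem pairs_le (A : Finset ℤ) (h : ℕ) (L1 : ℝ) (hL1 : 0 ≤ L1) (P : Finset (ℤ × ℤ))
    (hP : ∀ p ∈ P, p.1 ∈ A ∧ p.2 ∈ A ∧ p.1 ≠ p.2) (s : ℤ × ℤ → ℕ) (J : ℤ × ℤ → Finset ℤ)
    (hJ : ∀ p ∈ P, ∀ z ∈ J p, z ∈ F A h p.1 p.2 ∧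
      ((F A (2 * h) p.1 z).card : ℝ) ≤ L1 * h ∧ gd p.1 p.2 z = s p) (x y : ℤ) (hxy : x ≠ y) :
    ((P.filter (fun p => x ∈ J p ∧ y ∈ J p)).card : ℝ) ≤
      ((F A (2 * h) x y).card : ℝ) * (L1 * h) := by
  set Q := P.filter (fun p => x ∈ J p ∧ y ∈ J p) with hQ
  have hmaps : ∀ p ∈ Q, p.1 ∈ F A (2 * h) x y := by
    intro p hp
    rw [hQ, mem_filter] at hp
    obtain ⟨hpP, hx, hy⟩ := hp
    obtain ⟨hx1, _, hx3⟩ := hJ p hpP x hx
    obtain ⟨hy1, _, hy3⟩ := hJ p hpP y hy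
    obtain ⟨hpA, _, hpne⟩ := hP p hpP
    rw [mem_F] at hx1 hy1
    obtain ⟨mx, jx, hx4, hx5, _, hx6⟩ := hs_param hpne x
    obtain ⟨my, jy, hy4, hy5, _, hy6⟩ := hs_param hpne y
    rw [hx3] at hx4 hx5
    rw [hy3] at hy4 hy5
    have hjx : jx.natAbs ≤ h := by
      have := hx1.2.2.2
      rw [hx6] at this
      exact le_trans (le_max_of_le_right (le_max_left _ _)) this
    have hjy : jy.natAbs ≤ h := by
      have := hy1.2.2.2
      rw [hy6] at this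
      exact le_trans (le_max_of_le_right (le_max_left _ _)) this
    rw [mem_F]
    refine ⟨hpA, hx1.2.1.symm, hy1.2.1.symm, ?_⟩
    have hsp : 0 < s p := by
      rw [← hx3]; exact gd_pos hpne x
    -- all differences are multiples of s p
    have hdvd : s p ∣ gd x y p.1 := by
      unfold gd
      have e1 : x - y = (jy - jx) * (s p : ℤ) := by linarith
      have e2 : x - p.1 = -jx * (s p : ℤ) := by linarith
      rw [e1, e2, Int.gcd_mul_right, Int.natAbs_natCast]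
      exact Dvd.intro_left _ rfl
    have hle : s p ≤ gd x y p.1 := Nat.le_of_dvd (gd_pos hxy _) hdvd
    unfold hs
    have e1 : (x - y).natAbs = (jy - jx).natAbs * s p := by
      have : x - y = (jy - jx) * (s p : ℤ) := by linarith
      rw [this, Int.natAbs_mul, Int.natAbs_natCast]
    have e2 : (x - p.1).natAbs = jx.natAbs * s p := by
      have : x - p.1 = -jx * (s p : ℤ) := by linarith
      rw [this, Int.natAbs_mul, Int.natAbs_natCast, Int.natAbs_neg]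
    have e3 : (y - p.1).natAbs = jy.natAbs * s p := by
      have : y - p.1 = -jy * (s p : ℤ) := by linarith
      rw [this, Int.natAbs_mul, Int.natAbs_natCast, Int.natAbs_neg]
    rw [e1, e2, e3, Nat.mul_max_mul_right, Nat.mul_max_mul_right]
    have h7 : max (jy - jx).natAbs (max jx.natAbs jy.natAbs) ≤ 2 * h := by
      have : (jy - jx).natAbs ≤ 2 * h := by omega
      omega
    calc max (jy - jx).natAbs (max jx.natAbs jy.natAbs) * s p / gd x y p.1 ≤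
        (2 * h) * gd x y p.1 / gd x y p.1 := Nat.div_le_div_right (Nat.mul_le_mul h7 hle)
      _ = 2 * h := Nat.mul_div_cancel _ (gd_pos hxy _)
  have hsum := card_eq_sum_card_fiberwise (f := fun p : ℤ × ℤ => p.1) (s := Q)
    (t := F A (2 * h) x y) hmaps
  have hsum' : (Q.card : ℝ) = ∑ a ∈ F A (2 * h) x y, ((Q.filter (fun p => p.1 = a)).card : ℝ) := by
    exact_mod_cast hsum
  rw [hsum']
  have hfib : ∀ a ∈ F A (2 * h) x y, ((Q.filter (fun p => p.1 = a)).card : ℝ) ≤ L1 * h := by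
    intro a _
    rcases (Q.filter (fun p => p.1 = a)).eq_empty_or_nonempty with h0 | ⟨p0, hp0⟩
    · rw [h0]
      simp only [card_empty, Nat.cast_zero]
      positivity
    · rw [mem_filter, hQ, mem_filter] at hp0
      obtain ⟨⟨hp1, hp2, _⟩, hp3⟩ := hp0
      have h1 := (hJ p0 hp1 x hp2).2.1
      rw [hp3] at h1
      refine le_trans ?_ h1
      apply Nat.cast_le.mpr
      refine Finset.card_le_card_of_injOn (fun p => p.2) ?_ ?_
      · rintro ⟨a', b⟩ hp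
        have hp' : ((a', b) : ℤ × ℤ) ∈ Q.filter (fun p => p.1 = a) := hp
        rw [mem_filter, hQ, mem_filter] at hp'
        obtain ⟨⟨hq1, hq2, _⟩, hq3⟩ := hp'
        simp only at hq3
        subst hq3
        have h2 := (hJ _ hq1 x hq2).1
        rw [mem_F] at h2
        obtain ⟨_, hbA, hbne⟩ := hP _ hq1
        simp only at h2 hbA hbne
        have : b ∈ F A (2 * h) a' x := by
          rw [mem_F]
          refine ⟨hbA, hbne.symm, h2.2.2.1.symm, ?_⟩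
          rw [hs_comm23]
          exact h2.2.2.2.trans (by omega)
        exact this
      · rintro ⟨a1, b1⟩ h1' ⟨a2, b2⟩ h2' he
        have k1 : ((a1, b1) : ℤ × ℤ) ∈ Q.filter (fun p => p.1 = a) := h1'
        have k2 : ((a2, b2) : ℤ × ℤ) ∈ Q.filter (fun p => p.1 = a) := h2'
        have l1 := (mem_filter.mp k1).2
        have l2 := (mem_filter.mp k2).2
        simp only at l1 l2 he
        rw [l1, l2, he]
  calc ∑ a ∈ F A (2 * h) x y, ((Q.filter (fun p => p.1 = a)).card : ℝ) ≤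
      ∑ a ∈ F A (2 * h) x y, L1 * h := sum_le_sum hfib
    _ = ((F A (2 * h) x y).card : ℝ) * (L1 * h) := by rw [sum_const, nsmul_eq_mul]

/-- many triples of small height -/
theorem tc_down {n : ℕ} {q : ℝ} (hb : Nb n q) (A : Finset ℤ) (hA : A.card ≤ n) (h k : ℕ)
    (hk : k ≤ h) (hh : 2 * h ≤ n ^ 2) (Λ Λ1 L1 : ℝ) (hΛ : 1 ≤ Λ) (hΛ1 : 1 ≤ Λ1) (hL1 : 1 ≤ L1)
    (hkΛ : 2000 * Λ ^ 3 ≤ k) (P : Finset (ℤ × ℤ))
    (hP : ∀ p ∈ P, p.1 ∈ A ∧ p.2 ∈ A ∧ p.1 ≠ p.2) (hPc : (n : ℝ) ^ 2 / Λ1 ≤ P.card)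
    (hJ : ∀ p ∈ P, ∃ s : ℕ, ∃ J : Finset ℤ, (∀ z ∈ J, z ∈ F A h p.1 p.2 ∧
      ((F A (2 * h) p.1 z).card : ℝ) ≤ L1 * h ∧ gd p.1 p.2 z = s) ∧ (h : ℝ) / Λ ≤ J.card) :
    (n : ℝ) ^ 2 * k / (q ^ 7 * L1 ^ 2 * Λ1 ^ 2 * Λ ^ 6) ≤ tc A k := by
  have hq := hb.q_pos
  have hq4 := hb.hq
  have hn := hb.n_pos'
  have hΛ0 : 0 < Λ := by linarith
  have hΛ10 : 0 < Λ1 := by linarith
  have hL10 : 0 < L1 := by linarith
  have hk0 : (0 : ℝ) < k := lt_of_lt_of_le (by positivity) hkΛ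
  have hh0 : (0 : ℝ) < h := lt_of_lt_of_le hk0 (by exact_mod_cast hk)
  choose! s J hJ using hJ
  have hJ1 : ∀ p ∈ P, ∀ z ∈ J p, z ∈ F A h p.1 p.2 ∧
      ((F A (2 * h) p.1 z).card : ℝ) ≤ L1 * h ∧ gd p.1 p.2 z = s p := fun p hp => (hJ p hp).1
  have hJA : ∀ p ∈ P, J p ⊆ A := by
    intro p hp z hz
    exact (mem_F.mp (hJ1 p hp z hz).1).1
  -- the quintuples
  set X : ℝ := ∑ p ∈ P, ((TD k (J p)).card : ℝ) with hX
  have hXlow : (n : ℝ) ^ 2 * h ^ 2 * k / (128 * q * Λ1 * Λ ^ 3) ≤ X := by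
    calc (n : ℝ) ^ 2 * h ^ 2 * k / (128 * q * Λ1 * Λ ^ 3) =
        (n : ℝ) ^ 2 / Λ1 * ((h : ℝ) ^ 2 * k / (128 * q * Λ ^ 3)) := by field_simp
      _ ≤ P.card * ((h : ℝ) ^ 2 * k / (128 * q * Λ ^ 3)) :=
          mul_le_mul_of_nonneg_right hPc (by positivity)
      _ = ∑ p ∈ P, (h : ℝ) ^ 2 * k / (128 * q * Λ ^ 3) := by rw [sum_const, nsmul_eq_mul]
      _ ≤ X := sum_le_sum fun p hp => block_triples hb h k hk (by omega) Λ hΛ hkΛ p.1 p.2
          (hP p hp).2.2 (s p) (J p) (fun z hz => ⟨(mem_F.mp (hJ1 p hp z hz).1).2.2.2,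
            (hJ1 p hp z hz).2.2⟩) (hJ p hp).2
  -- double counting
  set T := TD k A with hT
  set Mw : ℤ × ℤ × ℤ → ℝ := fun w => ((P.filter (fun p => w ∈ TD k (J p))).card : ℝ) with hMw
  have hXe : X = ∑ w ∈ T, Mw w := by
    have e1 : ∀ p ∈ P, ((TD k (J p)).card : ℝ) =
        ∑ w ∈ T, (if w ∈ TD k (J p) then (1 : ℝ) else 0) := by
      intro p hp
      rw [← Finset.sum_filter, sum_const, nsmul_eq_mul, mul_one, Finset.filter_mem_eq_inter,
        inter_eq_right.mpr]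
      rintro ⟨x, y, z⟩ hw
      rw [mem_TD] at hw
      rw [hT, mem_TD]
      exact ⟨⟨hJA p hp hw.1.1, hJA p hp hw.1.2.1, hJA p hp hw.1.2.2⟩, hw.2⟩
    rw [hX, sum_congr rfl e1, sum_comm]
    refine sum_congr rfl fun w _ => ?_
    rw [← Finset.sum_filter, sum_const, nsmul_eq_mul, mul_one]
  have hM1 : ∀ x y z : ℤ, (x, y, z) ∈ T → Mw (x, y, z) ≤
      ((F A (2 * h) x y).card : ℝ) * (L1 * h) := by
    intro x y z hw
    rw [hT, mem_TD] at hw
    refine le_trans ?_ (pairs_le A h L1 hL10.le P hP s J hJ1 x y hw.2.1)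
    simp only [hMw]
    apply Nat.cast_le.mpr
    apply card_le_card
    intro p hp
    rw [mem_filter] at hp ⊢
    rw [mem_TD] at hp
    exact ⟨hp.1, hp.2.1.1, hp.2.1.2.1⟩
  have hM2 : ∀ x y z : ℤ, (x, y, z) ∈ T → Mw (x, y, z) ≤
      ((F A (2 * h) x z).card : ℝ) * (L1 * h) := by
    intro x y z hw
    rw [hT, mem_TD] at hw
    refine le_trans ?_ (pairs_le A h L1 hL10.le P hP s J hJ1 x z hw.2.2.1)
    simp only [hMw]
    apply Nat.cast_le.mpr
    apply card_le_card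
    intro p hp
    rw [mem_filter] at hp ⊢
    rw [mem_TD] at hp
    exact ⟨hp.1, hp.2.1.1, hp.2.1.2.2⟩
  -- unbounded pairs
  obtain ⟨L2, hL2⟩ : ∃ L2 : ℝ, L2 = q ^ 5 * L1 * Λ1 * Λ ^ 3 := ⟨_, rfl⟩
  have hL20 : 0 < L2 := by rw [hL2]; positivity
  set U : ℤ → Finset ℤ := fun x => (A.erase x).filter
    (fun y => L2 * h < ((F A (2 * h) x y).card : ℝ)) with hU
  have hUsub : ∀ x, U x ⊆ A.erase x := fun x => filter_subset _ _
  have hsq : ∀ x ∈ A, ∑ y ∈ U x, ((F A (2 * h) x y).card : ℝ) ^ 2 ≤ (2 * h * q) ^ 2 * n := by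
    intro x hx
    calc ∑ y ∈ U x, ((F A (2 * h) x y).card : ℝ) ^ 2 ≤
        ∑ y ∈ A.erase x, ((F A (2 * h) x y).card : ℝ) ^ 2 :=
          Finset.sum_le_sum_of_subset_of_nonneg (hUsub x) (fun _ _ _ => sq_nonneg _)
      _ ≤ ((2 * h : ℕ) : ℝ) ^ 2 * q ^ 2 * n := hb.row_sq A hA x hx (2 * h) hh
      _ = (2 * h * q) ^ 2 * n := by push_cast; ring
  have hUc : ∀ x ∈ A, ((U x).card : ℝ) ≤ (2 * q / L2) ^ 2 * n := by
    intro x hx
    have h1 : ((U x).card : ℝ) * (L2 * h) ^ 2 ≤ (2 * h * q) ^ 2 * n := by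
      refine le_trans ?_ (hsq x hx)
      rw [← nsmul_eq_mul, ← sum_const]
      refine sum_le_sum fun y hy => ?_
      have := (mem_filter.mp hy).2
      exact pow_le_pow_left₀ (by positivity) this.le 2
    have h2 : (2 * q / L2) ^ 2 * n * (L2 * h) ^ 2 = (2 * h * q) ^ 2 * n := by
      field_simp
    rw [← h2] at h1
    exact le_of_mul_le_mul_right h1 (by positivity)
  set T1 := T.filter (fun w => w.2.1 ∈ U w.1 ∧ w.2.2 ∈ U w.1) with hT1
  have hT1s : ∑ w ∈ T1, Mw w ≤ n * (k * q * ((2 * h * q) * (2 * q / L2) * n)) * (L1 * h) := by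
    have e1 : ∑ w ∈ T1, Mw w ≤ ∑ w ∈ T1, ((F A (2 * h) w.1 w.2.1).card : ℝ) * (L1 * h) := by
      refine sum_le_sum ?_
      rintro ⟨x, y, z⟩ hw
      exact hM1 x y z (mem_filter.mp hw).1
    refine e1.trans ?_
    rw [← sum_mul]
    apply mul_le_mul_of_nonneg_right _ (by positivity)
    -- as an iterated sum
    have e2 : ∑ w ∈ T1, ((F A (2 * h) w.1 w.2.1).card : ℝ) ≤
        ∑ x ∈ A, ∑ y ∈ U x, ∑ z ∈ U x,
          (if hgt (x - y) (x - z) ≤ k then ((F A (2 * h) x y).card : ℝ) * 1 else 0) := by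
      have e3 : ∑ x ∈ A, ∑ y ∈ U x, ∑ z ∈ U x,
          (if hgt (x - y) (x - z) ≤ k then ((F A (2 * h) x y).card : ℝ) * 1 else 0) =
          ∑ w ∈ A.sigma (fun x => U x ×ˢ U x),
          (if hgt (w.1 - w.2.1) (w.1 - w.2.2) ≤ k then
            ((F A (2 * h) w.1 w.2.1).card : ℝ) * 1 else 0) := by
        rw [Finset.sum_sigma]
        refine sum_congr rfl fun x _ => ?_
        rw [Finset.sum_product]
      rw [e3]
      have e4 : ∑ w ∈ T1, ((F A (2 * h) w.1 w.2.1).card : ℝ) =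
          ∑ w ∈ T1.image (fun w : ℤ × ℤ × ℤ => (⟨w.1, w.2⟩ : (_ : ℤ) × (ℤ × ℤ))),
          ((F A (2 * h) w.1 w.2.1).card : ℝ) := by
        rw [Finset.sum_image]
        rintro ⟨x, y⟩ _ ⟨x', y'⟩ _ he
        simpa using he
      rw [e4]
      have e5 : ∀ w ∈ T1.image (fun w : ℤ × ℤ × ℤ => (⟨w.1, w.2⟩ : (_ : ℤ) × (ℤ × ℤ))),
          ((F A (2 * h) w.1 w.2.1).card : ℝ) =
          (if hgt (w.1 - w.2.1) (w.1 - w.2.2) ≤ k then
            ((F A (2 * h) w.1 w.2.1).card : ℝ) * 1 else 0) := by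
        intro w hw
        obtain ⟨⟨x, y, z⟩, hw2, rfl⟩ := mem_image.mp hw
        rw [hT1, mem_filter, hT, mem_TD] at hw2
        obtain ⟨⟨_, hxy, _, _, h5⟩, _⟩ := hw2
        simp only
        rw [if_pos ((hgt_le_hs hxy z).trans h5), mul_one]
      rw [sum_congr rfl e5]
      apply Finset.sum_le_sum_of_subset_of_nonneg
      · intro w hw
        obtain ⟨⟨x, y, z⟩, hw2, rfl⟩ := mem_image.mp hw
        rw [hT1, mem_filter, hT, mem_TD] at hw2
        obtain ⟨⟨⟨hx, _, _⟩, _⟩, h6, h7⟩ := hw2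
        rw [mem_sigma, mem_product]
        exact ⟨hx, h6, h7⟩
      · intro w _ _
        split_ifs <;> positivity
    refine e2.trans ?_
    have e6 : ∀ x ∈ A, ∑ y ∈ U x, ∑ z ∈ U x,
        (if hgt (x - y) (x - z) ≤ k then ((F A (2 * h) x y).card : ℝ) * 1 else 0) ≤
        k * q * ((2 * h * q) * (2 * q / L2) * n) := by
      intro x hx
      have h1 := hb.bilin A hA x (U x) (hUsub x) (fun y => ((F A (2 * h) x y).card : ℝ))
        (fun _ => 1) (fun _ => Nat.cast_nonneg _) (fun _ => zero_le_one) k (by omega)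
      refine h1.trans ?_
      apply mul_le_mul_of_nonneg_left _ (by positivity)
      have h2 : Real.sqrt (∑ y ∈ U x, ((F A (2 * h) x y).card : ℝ) ^ 2) ≤
          (2 * h * q) * Real.sqrt n := by
        rw [Real.sqrt_le_left (by positivity), mul_pow, Real.sq_sqrt hn.le]
        exact hsq x hx
      have h3 : Real.sqrt (∑ _y ∈ U x, (1 : ℝ) ^ 2) ≤ (2 * q / L2) * Real.sqrt n := by
        rw [Real.sqrt_le_left (by positivity), mul_pow, Real.sq_sqrt hn.le]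
        simp only [one_pow, sum_const, nsmul_eq_mul, mul_one]
        exact hUc x hx
      calc Real.sqrt (∑ y ∈ U x, ((F A (2 * h) x y).card : ℝ) ^ 2) *
          Real.sqrt (∑ _y ∈ U x, (1 : ℝ) ^ 2) ≤
          ((2 * h * q) * Real.sqrt n) * ((2 * q / L2) * Real.sqrt n) :=
            mul_le_mul h2 h3 (Real.sqrt_nonneg _) (by positivity)
        _ = (2 * h * q) * (2 * q / L2) * (Real.sqrt n * Real.sqrt n) := by ring
        _ = _ := by rw [Real.mul_self_sqrt hn.le]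
    calc ∑ x ∈ A, ∑ y ∈ U x, ∑ z ∈ U x,
        (if hgt (x - y) (x - z) ≤ k then ((F A (2 * h) x y).card : ℝ) * 1 else 0) ≤
        ∑ x ∈ A, k * q * ((2 * h * q) * (2 * q / L2) * n) := sum_le_sum e6
      _ = A.card * (k * q * ((2 * h * q) * (2 * q / L2) * n)) := by rw [sum_const, nsmul_eq_mul]
      _ ≤ n * (k * q * ((2 * h * q) * (2 * q / L2) * n)) := by
          apply mul_le_mul_of_nonneg_right _ (by positivity)
          exact_mod_cast hA
  have hT2s : ∑ w ∈ T.filter (fun w => ¬ (w.2.1 ∈ U w.1 ∧ w.2.2 ∈ U w.1)), Mw w ≤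
      tc A k * ((L2 * h) * (L1 * h)) := by
    have e1 : ∀ w ∈ T.filter (fun w => ¬ (w.2.1 ∈ U w.1 ∧ w.2.2 ∈ U w.1)), Mw w ≤
        (L2 * h) * (L1 * h) := by
      rintro ⟨x, y, z⟩ hw
      rw [mem_filter] at hw
      obtain ⟨hw1, hw2⟩ := hw
      simp only at hw2
      have hw3 := hw1
      rw [hT, mem_TD] at hw3
      obtain ⟨⟨hx, hy, hz⟩, hxy, hxz, _, _⟩ := hw3
      rcases not_and_or.mp hw2 with h1 | h1
      · have h2 : ((F A (2 * h) x y).card : ℝ) ≤ L2 * h := by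
          by_contra hc
          push Not at hc
          exact h1 (mem_filter.mpr ⟨mem_erase.mpr ⟨hxy.symm, hy⟩, hc⟩)
        exact (hM1 x y z hw1).trans (mul_le_mul_of_nonneg_right h2 (by positivity))
      · have h2 : ((F A (2 * h) x z).card : ℝ) ≤ L2 * h := by
          by_contra hc
          push Not at hc
          exact h1 (mem_filter.mpr ⟨mem_erase.mpr ⟨hxz.symm, hz⟩, hc⟩)
        exact (hM2 x y z hw1).trans (mul_le_mul_of_nonneg_right h2 (by positivity))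
    refine (sum_le_sum e1).trans ?_
    rw [sum_const, nsmul_eq_mul]
    apply mul_le_mul_of_nonneg_right _ (by positivity)
    refine le_trans ?_ (card_TD_le A k)
    exact_mod_cast card_filter_le _ _
  have hsplit : X = ∑ w ∈ T1, Mw w +
      ∑ w ∈ T.filter (fun w => ¬ (w.2.1 ∈ U w.1 ∧ w.2.2 ∈ U w.1)), Mw w := by
    rw [hXe, hT1, Finset.sum_filter_add_sum_filter_not]
  have hhalf : n * (k * q * ((2 * h * q) * (2 * q / L2) * n)) * (L1 * h) ≤
      (n : ℝ) ^ 2 * h ^ 2 * k / (256 * q * Λ1 * Λ ^ 3) := by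
    have e1 : n * (k * q * ((2 * h * q) * (2 * q / L2) * n)) * (L1 * h) =
        (n : ℝ) ^ 2 * h ^ 2 * k / (256 * q * Λ1 * Λ ^ 3) * (1024 / q) := by
      rw [hL2]
      field_simp
      ring
    rw [e1]
    have h1 : 1024 / q ≤ 1 := by
      rw [div_le_one hq]; linarith
    calc (n : ℝ) ^ 2 * h ^ 2 * k / (256 * q * Λ1 * Λ ^ 3) * (1024 / q) ≤
        (n : ℝ) ^ 2 * h ^ 2 * k / (256 * q * Λ1 * Λ ^ 3) * 1 :=
          mul_le_mul_of_nonneg_left h1 (by positivity)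
      _ = _ := mul_one _
  have hdouble : (n : ℝ) ^ 2 * h ^ 2 * k / (128 * q * Λ1 * Λ ^ 3) =
      (n : ℝ) ^ 2 * h ^ 2 * k / (256 * q * Λ1 * Λ ^ 3) +
      (n : ℝ) ^ 2 * h ^ 2 * k / (256 * q * Λ1 * Λ ^ 3) := by
    field_simp
    ring
  have hfin : (n : ℝ) ^ 2 * h ^ 2 * k / (256 * q * Λ1 * Λ ^ 3) ≤
      tc A k * ((L2 * h) * (L1 * h)) := by
    rw [hdouble] at hXlow
    linarith
  have hfin2 : (n : ℝ) ^ 2 * k / (256 * q ^ 6 * L1 ^ 2 * Λ1 ^ 2 * Λ ^ 6) ≤ tc A k := by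
    have e1 : (n : ℝ) ^ 2 * h ^ 2 * k / (256 * q * Λ1 * Λ ^ 3) =
        (n : ℝ) ^ 2 * k / (256 * q ^ 6 * L1 ^ 2 * Λ1 ^ 2 * Λ ^ 6) * ((L2 * h) * (L1 * h)) := by
      rw [hL2]
      field_simp
    rw [e1] at hfin
    exact le_of_mul_le_mul_right hfin (by positivity)
  refine le_trans ?_ hfin2
  apply div_le_div_of_nonneg_left (by positivity) (by positivity)
  have : 256 * q ^ 6 ≤ q ^ 7 := by
    calc 256 * q ^ 6 ≤ q * q ^ 6 := by
          apply mul_le_mul_of_nonneg_right _ (by positivity)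
          linarith
      _ = q ^ 7 := by ring
  calc 256 * q ^ 6 * L1 ^ 2 * Λ1 ^ 2 * Λ ^ 6 = (256 * q ^ 6) * (L1 ^ 2 * Λ1 ^ 2 * Λ ^ 6) := by ring
    _ ≤ q ^ 7 * (L1 ^ 2 * Λ1 ^ 2 * Λ ^ 6) := mul_le_mul_of_nonneg_right this (by positivity)
    _ = _ := by ring

end Pool.Agent.MP_741d1b.All
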