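import Mathlib
import Pool.Agent.Lib.MP_741d1b_nt_all.BDil
import Pool.Agent.Lib.MP_741d1b_nt_h87.T3Sol

/-!
Row B10b: many triples of small height give large energy.
-/

set_option autoImplicit false

namespace Pool.Agent.MP_741d1b.All

open Finset Classical
open Pool.Agent.MP_741d1b.H87
open scoped Pointwise

private theorem hgt_pos_aux {x y : ℤ} (hx : x ≠ 0) : 0 < hgt x y := by
  unfold hgt
  have hg : 0 < Int.gcd x y := Int.gcd_pos_of_ne_zero_left _ hx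
  apply Nat.div_pos _ hg
  refine le_trans ?_ (le_max_left _ _)
  exact Nat.le_of_dvd (Int.natAbs_pos.mpr hx) (by
    have := Int.gcd_dvd_left (a := x) (b := y)
    have h2 := Int.natAbs_dvd_natAbs.mpr this
    rwa [Int.natAbs_natCast] at h2)

private theorem Wsum_nonneg' (A : Finset ℤ) (L : ℕ) : 0 ≤ Wsum A L := by
  unfold Wsum
  refine sum_nonneg fun a _ => sum_nonneg fun b _ => sum_nonneg fun c _ => ?_
  split_ifs <;> positivity

/-- The weighted Cauchy-Schwarz inequality, abstractly in the bound for the dilate energies. -/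
private theorem Wsum_sq_aux (A : Finset ℤ) (n L : ℕ) (hn : A.card ≤ n) (X : ℝ)
    (hXle : ∑ p ∈ Iz L, ∑ q ∈ Iz L, Dil A p q * wt p q ≤ X) :
    Wsum A L ^ 2 ≤ 4 * L * (1 + Real.log L) * (n * X) := by
  set f : ℤ × ℤ → ℝ := fun z => Real.sqrt (wt z.1 z.2) with hf
  set g : ℤ × ℤ → ℝ := fun z => if z.1 ≠ z.2 then Real.sqrt (wt z.1 z.2) * T3n A z.1 z.2 else 0
    with hg
  have hW0 : 0 ≤ Wsum A L := Wsum_nonneg' A L
  have e1 : ∑ s ∈ Iz L, ∑ s' ∈ Iz L, (if s ≠ s' then wt s s' * T3n A s s' else 0) =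
      ∑ z ∈ Iz L ×ˢ Iz L, f z * g z := by
    rw [Finset.sum_product]
    refine sum_congr rfl fun s _ => sum_congr rfl fun s' _ => ?_
    simp only [hf, hg]
    split_ifs
    · rw [← mul_assoc, Real.mul_self_sqrt (wt_nonneg _ _)]
    · ring
  have hcs := Finset.sum_mul_sq_le_sq_mul_sq (Iz L ×ˢ Iz L) f g
  have e2 : ∑ z ∈ Iz L ×ˢ Iz L, f z ^ 2 ≤ 4 * L * (1 + Real.log L) := by
    rw [Finset.sum_product]
    refine le_trans (le_of_eq ?_) (sum_wt_le L)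
    refine sum_congr rfl fun s _ => sum_congr rfl fun s' _ => ?_
    simp only [hf]
    rw [Real.sq_sqrt (wt_nonneg _ _)]
  have e3 : ∑ z ∈ Iz L ×ˢ Iz L, g z ^ 2 ≤ n * ∑ p ∈ Iz L, ∑ q ∈ Iz L, Dil A p q * wt p q := by
    rw [Finset.sum_product, mul_sum]
    calc ∑ s ∈ Iz L, ∑ s' ∈ Iz L, g (s, s') ^ 2
        ≤ ∑ s ∈ Iz L, ∑ s' ∈ Iz L, n * (Dil A s' (-s) * wt s' (-s)) := by
          refine sum_le_sum fun s _ => sum_le_sum fun s' _ => ?_
          have hw : wt s' (-s) = wt s s' := by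
            rw [wt_comm s s']; unfold wt; push_cast; rw [abs_neg]
          simp only [hg]
          split_ifs with h
          · rw [mul_pow, Real.sq_sqrt (wt_nonneg _ _), hw]
            have := T3n_sq A n hn s s' h
            have := mul_le_mul_of_nonneg_left this (wt_nonneg s s')
            linarith
          · rw [hw]
            have a1 := Dil_nonneg A s' (-s)
            have a2 := wt_nonneg s s'
            rw [zero_pow two_ne_zero]
            exact mul_nonneg (Nat.cast_nonneg _) (mul_nonneg a1 a2)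
      _ = ∑ s ∈ Iz L, ∑ s' ∈ Iz L, n * (Dil A s' s * wt s' s) :=
          sum_Iz_neg L (fun s => ∑ s' ∈ Iz L, n * (Dil A s' s * wt s' s))
      _ = ∑ p ∈ Iz L, n * ∑ q ∈ Iz L, Dil A p q * wt p q := by
          rw [sum_comm]
          refine sum_congr rfl fun p _ => ?_
          rw [mul_sum]
  have hle := Wsum_le A L
  rw [e1] at hle
  have hl0 : 0 ≤ 4 * (L : ℝ) * (1 + Real.log L) := by
    refine le_trans ?_ (sum_wt_le L)
    exact sum_nonneg fun p _ => sum_nonneg fun q _ => wt_nonneg _ _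
  have hg0 : 0 ≤ ∑ z ∈ Iz L ×ˢ Iz L, g z ^ 2 := sum_nonneg fun z _ => sq_nonneg _
  calc Wsum A L ^ 2 ≤ (∑ z ∈ Iz L ×ˢ Iz L, f z * g z) ^ 2 := pow_le_pow_left₀ hW0 hle 2
    _ ≤ (∑ z ∈ Iz L ×ˢ Iz L, f z ^ 2) * ∑ z ∈ Iz L ×ˢ Iz L, g z ^ 2 := hcs
    _ ≤ (4 * L * (1 + Real.log L)) * (n * ∑ p ∈ Iz L, ∑ q ∈ Iz L, Dil A p q * wt p q) :=
        mul_le_mul e2 e3 hg0 hl0
    _ ≤ _ := by
        apply mul_le_mul_of_nonneg_left _ hl0
        exact mul_le_mul_of_nonneg_left hXle (Nat.cast_nonneg _)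

private theorem tc_le_Wsum (A : Finset ℤ) (k : ℕ) : tc A k ≤ k * Wsum A k := by
  unfold tc Wsum
  rw [mul_sum]
  refine sum_le_sum fun a _ => ?_
  rw [mul_sum]
  have h1 : ∀ b ∈ A, 0 ≤ (k : ℝ) * ∑ c ∈ A, (if a ≠ b ∧ a ≠ c ∧ b ≠ c ∧ hgt (a - b) (a - c) ≤ k then
      1 / (hgt (a - b) (a - c) : ℝ) else 0) := by
    intro b _
    refine mul_nonneg (Nat.cast_nonneg _) (sum_nonneg fun c _ => ?_)
    split_ifs <;> positivity
  refine le_trans ?_ (Finset.sum_le_sum_of_subset_of_nonneg (erase_subset a A)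
    (fun b hb _ => h1 b hb))
  refine sum_le_sum fun b hb => ?_
  have hab : a ≠ b := (ne_of_mem_erase hb).symm
  have e1 : ((F A k a b).card : ℝ) = ∑ c ∈ A, if c ≠ a ∧ c ≠ b ∧ hs a b c ≤ k then (1 : ℝ) else 0 := by
    unfold F
    rw [← Finset.sum_filter, sum_const, nsmul_eq_mul, mul_one]
  rw [e1, mul_sum]
  refine sum_le_sum fun c _ => ?_
  by_cases h : c ≠ a ∧ c ≠ b ∧ hs a b c ≤ k
  · have hh : hgt (a - b) (a - c) ≤ k := (hgt_le_hs hab c).trans h.2.2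
    rw [if_pos h, if_pos ⟨hab, h.1.symm, h.2.1.symm, hh⟩]
    have hp : 0 < hgt (a - b) (a - c) := hgt_pos_aux (sub_ne_zero.mpr hab)
    have hp' : (0 : ℝ) < hgt (a - b) (a - c) := by exact_mod_cast hp
    have hh' : (hgt (a - b) (a - c) : ℝ) ≤ k := by exact_mod_cast hh
    rw [mul_one_div, le_div_iff₀ hp']
    linarith
  · rw [if_neg h]
    refine mul_nonneg (Nat.cast_nonneg _) ?_
    split_ifs <;> positivity

/- PROOF. H87.Wsum_sq with dil_sum' (L1 = L = k) in place of dil_sum gives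
Wsum A k ^ 2 ≤ 4 k (1 + log k) (n (4 k (1 + log k) n² + 4 q (1 + log k) En A)) and
tc A k ≤ k * Wsum A k (hgt ≤ hs ≤ k, 1 ≤ k / hgt). (1 + log k ≤ q, constants ≤ q.) -/
theorem en_of_tc {n : ℕ} {q : ℝ} (hb : Nb n q) (A : Finset ℤ) (hA : A.card ≤ n) (k : ℕ)
    (hk1 : 1 ≤ k) (hk : k ≤ n) :
    tc A k ^ 2 ≤ q ^ 4 * n * (k : ℝ) ^ 3 * (En A + k * (n : ℝ) ^ 2) := by
  have hX := dil_sum' hb A hA k k le_rfl hk
  have hW := Wsum_sq_aux A n k hA _ hX
  have ht := tc_le_Wsum A k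
  have ht0 := tc_nonneg A k
  have hW0 := Wsum_nonneg' A k
  have hq := hb.hq
  have hq0 : 0 < q := hb.q_pos
  have hE := En_nonneg A
  have hk0 : (1 : ℝ) ≤ k := by exact_mod_cast hk1
  have hkn : (k : ℝ) ≤ n := by exact_mod_cast hk
  have hn0 : (0 : ℝ) < n := hb.n_pos'
  have hlk0 : 0 ≤ Real.log k := Real.log_nonneg hk0
  have hlk : 1 + Real.log k ≤ q := by
    have := Real.log_le_log (by linarith) hkn
    linarith [hb.hlog]
  set l := 1 + Real.log k with hl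
  have hl0 : 0 ≤ l := by linarith
  have h1 : tc A k ^ 2 ≤ (k : ℝ) ^ 2 * Wsum A k ^ 2 := by
    rw [← mul_pow]
    exact pow_le_pow_left₀ ht0 ht 2
  have h2 : 4 * (k : ℝ) * l * (n * (4 * k * l * (n : ℝ) ^ 2 + 4 * q * l * En A)) ≤
      4 * (k : ℝ) * q * (n * (4 * k * q * (n : ℝ) ^ 2 + 4 * q * q * En A)) := by
    gcongr
  have h3 : 4 * (k : ℝ) * q * (n * (4 * k * q * (n : ℝ) ^ 2 + 4 * q * q * En A)) ≤
      q ^ 4 * n * k * (En A + k * (n : ℝ) ^ 2) := by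
    have e1 : 4 * (k : ℝ) * q * (n * (4 * k * q * (n : ℝ) ^ 2 + 4 * q * q * En A)) =
        (16 * q ^ 2) * (n * k * (k * (n : ℝ) ^ 2)) + (16 * q ^ 3) * (n * k * En A) := by ring
    have e2 : q ^ 4 * n * k * (En A + k * (n : ℝ) ^ 2) =
        q ^ 4 * (n * k * (k * (n : ℝ) ^ 2)) + q ^ 4 * (n * k * En A) := by ring
    rw [e1, e2]
    have a1 : 16 * q ^ 2 ≤ q ^ 4 := by
      have : (16 : ℝ) ≤ q ^ 2 := by nlinarith
      calc 16 * q ^ 2 ≤ q ^ 2 * q ^ 2 := by gcongr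
        _ = q ^ 4 := by ring
    have a2 : 16 * q ^ 3 ≤ q ^ 4 := by
      calc 16 * q ^ 3 ≤ q * q ^ 3 := by gcongr; linarith
        _ = q ^ 4 := by ring
    gcongr
  calc tc A k ^ 2 ≤ (k : ℝ) ^ 2 * Wsum A k ^ 2 := h1
    _ ≤ (k : ℝ) ^ 2 * (q ^ 4 * n * k * (En A + k * (n : ℝ) ^ 2)) := by
        apply mul_le_mul_of_nonneg_left _ (by positivity)
        exact hW.trans (h2.trans h3)
    _ = q ^ 4 * n * (k : ℝ) ^ 3 * (En A + k * (n : ℝ) ^ 2) := by ring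

end Pool.Agent.MP_741d1b.All
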