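import Mathlib
import Pool.Agent.Lib.MP_741d1b_nt_all.BNorm
import Pool.Agent.Lib.MP_741d1b_nt_all.BCount

/-!
Row B5: restriction to balanced triples all of whose pairs have bounded degree; quadruples.
-/

set_option autoImplicit false

namespace Pool.Agent.MP_741d1b.All

open Finset Classical
open Pool.Agent.MP_741d1b.H87

/-- Good third points: the triple `a, b, y` has height at most `h`, its sides are at least
`h gcd / τ`, and each of its pairs has at most `L1 h` third points of height at most `2 h`. -/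
noncomputable def F0 (A : Finset ℤ) (h : ℕ) (τ L1 : ℝ) (a b : ℤ) : Finset ℤ :=
  (F A h a b).filter (fun y =>
    ((h : ℝ) * gd a b y ≤ τ * (a - b).natAbs ∧ (h : ℝ) * gd a b y ≤ τ * (a - y).natAbs ∧
      (h : ℝ) * gd a b y ≤ τ * (b - y).natAbs) ∧
    (((F A (2 * h) a b).card : ℝ) ≤ L1 * h ∧ ((F A (2 * h) a y).card : ℝ) ≤ L1 * h ∧
      ((F A (2 * h) b y).card : ℝ) ≤ L1 * h))

/-- Sum over ordered triples of distinct elements of height at most `h` with a property. -/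
private noncomputable def b5ts (A : Finset ℤ) (h : ℕ) (p : ℤ → ℤ → ℤ → Prop) : ℝ :=
  ∑ a ∈ A, ∑ b ∈ A, ∑ y ∈ A,
    if (b ≠ a ∧ y ≠ a ∧ y ≠ b ∧ hs a b y ≤ h ∧ p a b y) then (1 : ℝ) else 0

private theorem b5_cnt (A : Finset ℤ) (h : ℕ) (p : ℤ → ℤ → ℤ → Prop) :
    ∑ a ∈ A, ∑ b ∈ A.erase a, (((F A h a b).filter (p a b)).card : ℝ) = b5ts A h p := by
  unfold b5ts
  refine sum_congr rfl fun a _ => ?_
  rw [← filter_ne', sum_filter]
  refine sum_congr rfl fun b _ => ?_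
  by_cases hba : b ≠ a
  · rw [if_pos hba]
    unfold F
    rw [filter_filter, card_filter]
    push_cast
    refine sum_congr rfl fun y _ => ?_
    refine if_congr ?_ rfl rfl
    tauto
  · rw [if_neg hba]
    symm
    refine sum_eq_zero fun y _ => ?_
    rw [if_neg]
    tauto

private theorem b5_mono (A : Finset ℤ) (h : ℕ) {p p' : ℤ → ℤ → ℤ → Prop}
    (hp : ∀ a b y, p a b y → p' a b y) : b5ts A h p ≤ b5ts A h p' := by
  unfold b5ts
  refine sum_le_sum fun a _ => sum_le_sum fun b _ => sum_le_sum fun y _ => ?_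
  by_cases h1 : b ≠ a ∧ y ≠ a ∧ y ≠ b ∧ hs a b y ≤ h ∧ p a b y
  · rw [if_pos h1, if_pos ⟨h1.1, h1.2.1, h1.2.2.1, h1.2.2.2.1, hp _ _ _ h1.2.2.2.2⟩]
  · rw [if_neg h1]
    split_ifs <;> norm_num

private theorem b5_or (A : Finset ℤ) (h : ℕ) (p p' : ℤ → ℤ → ℤ → Prop) :
    b5ts A h (fun a b y => p a b y ∨ p' a b y) ≤ b5ts A h p + b5ts A h p' := by
  unfold b5ts
  rw [← sum_add_distrib]
  refine sum_le_sum fun a _ => ?_
  rw [← sum_add_distrib]
  refine sum_le_sum fun b _ => ?_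
  rw [← sum_add_distrib]
  refine sum_le_sum fun y _ => ?_
  by_cases h1 : b ≠ a ∧ y ≠ a ∧ y ≠ b ∧ hs a b y ≤ h ∧ p a b y
  · rw [if_pos h1]
    have : (0 : ℝ) ≤ if (b ≠ a ∧ y ≠ a ∧ y ≠ b ∧ hs a b y ≤ h ∧ p' a b y) then (1 : ℝ) else 0 := by
      split_ifs <;> norm_num
    split_ifs <;> linarith
  · by_cases h2 : b ≠ a ∧ y ≠ a ∧ y ≠ b ∧ hs a b y ≤ h ∧ p' a b y
    · rw [if_neg h1, if_pos h2]
      split_ifs <;> norm_num
    · rw [if_neg h1, if_neg h2, if_neg]
      · norm_num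
      · tauto

private theorem b5_swap (A : Finset ℤ) (h : ℕ) (p : ℤ → ℤ → ℤ → Prop) :
    b5ts A h (fun a b y => p a y b) = b5ts A h p := by
  unfold b5ts
  refine sum_congr rfl fun a _ => ?_
  rw [sum_comm]
  refine sum_congr rfl fun b _ => sum_congr rfl fun y _ => ?_
  refine if_congr ?_ rfl rfl
  rw [hs_comm23]
  constructor
  · rintro ⟨h1, h2, h3, h4, h5⟩
    exact ⟨h2, h1, h3.symm, h4, h5⟩
  · rintro ⟨h1, h2, h3, h4, h5⟩
    exact ⟨h2, h1, h3.symm, h4, h5⟩

private theorem b5_swap' (A : Finset ℤ) (h : ℕ) (p : ℤ → ℤ → ℤ → Prop) :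
    b5ts A h (fun a b y => p b a y) = b5ts A h p := by
  unfold b5ts
  rw [sum_comm]
  refine sum_congr rfl fun a _ => sum_congr rfl fun b _ => sum_congr rfl fun y _ => ?_
  refine if_congr ?_ rfl rfl
  rw [hs_comm12]
  constructor
  · rintro ⟨h1, h2, h3, h4, h5⟩
    exact ⟨h1.symm, h3, h2, h4, h5⟩
  · rintro ⟨h1, h2, h3, h4, h5⟩
    exact ⟨h1.symm, h3, h2, h4, h5⟩

/- PROOF. tc A h minus: (i) unbalanced triples: three cases, each at most q n² h / √τ =
n² h / (q l) by Nb.unbal (use hs_comm12, hs_comm23, gd_comm to move the short side to (a, b); the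
sum over ordered triples is symmetric); (ii) triples with an unbounded pair: three cases, each at most
∑ over pairs with card (F A (2h) a b) > L1 h of card (F A (2h) a b) ≤ (∑ card ^ 2) / (L1 h) ≤
n * ((2h)² q² n) / (q³ l h) = 4 n² h / (q l) (Nb.row_sq). Together at most 15 n² h / (q l) ≤
n² h / (2 l). -/
theorem many_good {n : ℕ} {q : ℝ} (hb : Nb n q) (A : Finset ℤ) (hA : A.card ≤ n) (h : ℕ)
    (hh1 : 1 ≤ h) (hh : 2 * h ≤ n ^ 2) (l : ℝ) (hl : 1 ≤ l)
    (hT : (n : ℝ) ^ 2 * h / l ≤ tc A h) :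
    (n : ℝ) ^ 2 * h / (2 * l) ≤
      ∑ a ∈ A, ∑ b ∈ A.erase a, ((F0 A h (q ^ 4 * l ^ 2) (q ^ 3 * l) a b).card : ℝ) := by
  have hq0 : 0 < q := hb.q_pos
  have hl0 : 0 < l := by linarith
  have hn0 : (0 : ℝ) < n := hb.n_pos'
  have hh0 : (0 : ℝ) < h := by exact_mod_cast hh1
  have hhn : h ≤ n ^ 2 := by omega
  have hτ : 0 < q ^ 4 * l ^ 2 := by positivity
  have hL : 0 < q ^ 3 * l * h := by positivity
  have hsq : Real.sqrt (q ^ 4 * l ^ 2) = q ^ 2 * l := by
    rw [show q ^ 4 * l ^ 2 = (q ^ 2 * l) ^ 2 by ring]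
    exact Real.sqrt_sq (by positivity)
  -- the six kinds of bad triples
  set u : ℤ → ℤ → ℤ → Prop := fun a b y =>
    q ^ 4 * l ^ 2 * ((a - b).natAbs : ℝ) ≤ (h : ℝ) * gd a b y with hu
  set v : ℤ → ℤ → ℤ → Prop := fun a b _ =>
    q ^ 3 * l * h < ((F A (2 * h) a b).card : ℝ) with hv
  have hU : b5ts A h u ≤ (n : ℝ) ^ 2 * h / (q * l) := by
    rw [← b5_cnt]
    refine (hb.unbal A hA h hhn (q ^ 4 * l ^ 2) hτ).trans (le_of_eq ?_)
    rw [hsq]
    field_simp
  have hV : b5ts A h v ≤ 4 * ((n : ℝ) ^ 2 * h / (q * l)) := by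
    rw [← b5_cnt]
    have key : ∀ a ∈ A, ∑ b ∈ A.erase a, (((F A h a b).filter (v a b)).card : ℝ) ≤
        ((2 * h : ℕ) : ℝ) ^ 2 * q ^ 2 * n / (q ^ 3 * l * h) := by
      intro a ha
      rw [le_div_iff₀ hL]
      refine le_trans ?_ (hb.row_sq A hA a ha (2 * h) hh)
      rw [sum_mul]
      refine sum_le_sum fun b _ => ?_
      by_cases hvb : q ^ 3 * l * h < ((F A (2 * h) a b).card : ℝ)
      · have h1 : (((F A h a b).filter (v a b)).card : ℝ) ≤ ((F A (2 * h) a b).card : ℝ) := by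
          exact_mod_cast card_le_card ((filter_subset _ _).trans (F_mono A (by omega) a b))
        have h2 : (0 : ℝ) ≤ ((F A (2 * h) a b).card : ℝ) := Nat.cast_nonneg _
        calc (((F A h a b).filter (v a b)).card : ℝ) * (q ^ 3 * l * h)
            ≤ ((F A (2 * h) a b).card : ℝ) * ((F A (2 * h) a b).card : ℝ) :=
              mul_le_mul h1 hvb.le hL.le h2
          _ = ((F A (2 * h) a b).card : ℝ) ^ 2 := by ring
      · have h1 : ((F A h a b).filter (v a b)) = ∅ := by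
          apply filter_eq_empty_iff.mpr
          intro y _ hy
          exact hvb hy
        rw [h1, card_empty, Nat.cast_zero, zero_mul]
        positivity
    have hcard : (A.card : ℝ) ≤ n := by exact_mod_cast hA
    calc ∑ a ∈ A, ∑ b ∈ A.erase a, (((F A h a b).filter (v a b)).card : ℝ)
        ≤ ∑ _a ∈ A, ((2 * h : ℕ) : ℝ) ^ 2 * q ^ 2 * n / (q ^ 3 * l * h) := sum_le_sum key
      _ = A.card * (((2 * h : ℕ) : ℝ) ^ 2 * q ^ 2 * n / (q ^ 3 * l * h)) := by
          rw [sum_const, nsmul_eq_mul]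
      _ ≤ n * (((2 * h : ℕ) : ℝ) ^ 2 * q ^ 2 * n / (q ^ 3 * l * h)) := by
          apply mul_le_mul_of_nonneg_right hcard
          positivity
      _ = 4 * ((n : ℝ) ^ 2 * h / (q * l)) := by
          push_cast
          field_simp
          try ring
  have hu2 : b5ts A h (fun a b y => u a y b) ≤ (n : ℝ) ^ 2 * h / (q * l) :=
    (b5_swap A h u).le.trans hU
  have hv2 : b5ts A h (fun a b y => v a y b) ≤ 4 * ((n : ℝ) ^ 2 * h / (q * l)) :=
    (b5_swap A h v).le.trans hV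
  have hu3 : b5ts A h (fun a b y => u b y a) ≤ (n : ℝ) ^ 2 * h / (q * l) := by
    have h1 := b5_swap' A h (fun a b y => u a y b)
    exact h1.le.trans hu2
  have hv3 : b5ts A h (fun a b y => v b y a) ≤ 4 * ((n : ℝ) ^ 2 * h / (q * l)) := by
    have h1 := b5_swap' A h (fun a b y => v a y b)
    exact h1.le.trans hv2
  have hG : ∑ a ∈ A, ∑ b ∈ A.erase a, ((F0 A h (q ^ 4 * l ^ 2) (q ^ 3 * l) a b).card : ℝ) =
      b5ts A h (fun a b y =>
        (((h : ℝ) * gd a b y ≤ q ^ 4 * l ^ 2 * (a - b).natAbs ∧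
          (h : ℝ) * gd a b y ≤ q ^ 4 * l ^ 2 * (a - y).natAbs ∧
          (h : ℝ) * gd a b y ≤ q ^ 4 * l ^ 2 * (b - y).natAbs) ∧
        (((F A (2 * h) a b).card : ℝ) ≤ q ^ 3 * l * h ∧
          ((F A (2 * h) a y).card : ℝ) ≤ q ^ 3 * l * h ∧
          ((F A (2 * h) b y).card : ℝ) ≤ q ^ 3 * l * h))) := by
    rw [← b5_cnt]
    refine sum_congr rfl fun a _ => sum_congr rfl fun b _ => ?_
    unfold F0
    congr!
  have hTc : tc A h = b5ts A h (fun _ _ _ => True) := by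
    rw [← b5_cnt]
    unfold tc
    refine sum_congr rfl fun a _ => sum_congr rfl fun b _ => ?_
    congr 2
    ext y
    simp
  have hall : tc A h ≤
      ∑ a ∈ A, ∑ b ∈ A.erase a, ((F0 A h (q ^ 4 * l ^ 2) (q ^ 3 * l) a b).card : ℝ) +
        (b5ts A h u + (b5ts A h (fun a b y => u a y b) + (b5ts A h (fun a b y => u b y a) +
        (b5ts A h v + (b5ts A h (fun a b y => v a y b) + b5ts A h (fun a b y => v b y a)))))) := by
    rw [hG, hTc]
    refine le_trans ?_ ((b5_or A h _ _).trans (add_le_add le_rfl ((b5_or A h _ _).trans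
      (add_le_add le_rfl ((b5_or A h _ _).trans (add_le_add le_rfl ((b5_or A h _ _).trans
      (add_le_add le_rfl ((b5_or A h _ _).trans (add_le_add le_rfl (b5_or A h _ _)))))))))))
    refine b5_mono A h fun a b y _ => ?_
    simp only [hu, hv]
    rw [show gd a y b = gd a b y from gd_comm23 a b y,
      show gd b y a = gd a b y by rw [gd_comm23, gd_comm12]]
    by_contra hcon
    push_neg at hcon
    obtain ⟨h0, h1, h2, h3, h4, h5, h6⟩ := hcon
    exact absurd (h0 ⟨h1.le, h2.le, h3.le⟩ h4 h5) (not_lt.mpr h6)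
  have h15 : 15 * ((n : ℝ) ^ 2 * h / (q * l)) ≤ (n : ℝ) ^ 2 * h / (2 * l) := by
    rw [← mul_div_assoc, div_le_div_iff₀ (by positivity) (by positivity)]
    have hq := hb.hq
    have hX : 0 < (n : ℝ) ^ 2 * h * l := by positivity
    nlinarith
  have hhalf : (n : ℝ) ^ 2 * h / l = 2 * ((n : ℝ) ^ 2 * h / (2 * l)) := by
    field_simp
  linarith

end Pool.Agent.MP_741d1b.All
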