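import Mathlib
import Pool.Agent.Lib.MP_741d1b_nt_all.BDefs

/-!
Row B4: choice of a scale.
-/

set_option autoImplicit false

namespace Pool.Agent.MP_741d1b.All

open Finset Classical
open Pool.Agent.MP_741d1b.H87

/-- The losses. -/
noncomputable def lam (q l0 : ℝ) : ℕ → ℝ
  | 0 => l0
  | j + 1 => q ^ 5 * lam q l0 j ^ 2

private theorem B4_one_le_lam {q l0 : ℝ} (hq : 1 ≤ q) (hl0 : 1 ≤ l0) (j : ℕ) :
    1 ≤ lam q l0 j := by
  induction j with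
  | zero => exact hl0
  | succ j ih =>
    rw [lam]
    exact one_le_mul_of_one_le_of_one_le (one_le_pow₀ hq) (one_le_pow₀ ih)

private theorem B4_tc_le {n : ℕ} {A : Finset ℤ} (hA : A.card ≤ n) (h : ℕ) :
    tc A h ≤ (n : ℝ) ^ 3 := by
  have hA' : (A.card : ℝ) ≤ n := by exact_mod_cast hA
  have h1 : ∀ a b, ((F A h a b).card : ℝ) ≤ n := fun a b =>
    le_trans (by exact_mod_cast card_le_card (filter_subset _ _)) hA'
  have h2 : ∀ a ∈ A, ∑ b ∈ A.erase a, ((F A h a b).card : ℝ) ≤ (n : ℝ) * n := by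
    intro a _
    calc ∑ b ∈ A.erase a, ((F A h a b).card : ℝ) ≤ ∑ b ∈ A.erase a, (n : ℝ) :=
          sum_le_sum fun b _ => h1 a b
      _ = ((A.erase a).card : ℝ) * n := by rw [sum_const, nsmul_eq_mul]
      _ ≤ (n : ℝ) * n := by
          apply mul_le_mul_of_nonneg_right _ (Nat.cast_nonneg _)
          exact le_trans (by exact_mod_cast card_erase_le) hA'
  calc tc A h ≤ ∑ a ∈ A, (n : ℝ) * n := sum_le_sum h2
    _ = (A.card : ℝ) * (n * n) := by rw [sum_const, nsmul_eq_mul]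
    _ ≤ (n : ℝ) * (n * n) := mul_le_mul_of_nonneg_right hA' (by positivity)
    _ = (n : ℝ) ^ 3 := by ring

/- PROOF. Let S j: ∃ h, h0 * ρ ^ j ≤ h and n ^ 2 h / lam j ≤ tc A h. S 0 holds; S J is false because
tc A h ≤ n ^ 3 (F A h a b ⊆ A, card A ≤ n) gives h ≤ n * lam J. So there is j < J with S j and
not S (j + 1); take h of S j; a number h' ≥ h * ρ ≥ h0 * ρ ^ (j + 1) contradicting the claim would
give S (j + 1). -/
theorem choose_scale {n : ℕ} {q : ℝ} (hb : Nb n q) (A : Finset ℤ) (hA : A.card ≤ n) (l0 : ℝ)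
    (hl0 : 1 ≤ l0) (h0 ρ J : ℕ) (hρ : 1 ≤ ρ) (hh0 : 1 ≤ h0)
    (hT : (n : ℝ) ^ 2 * h0 / l0 ≤ tc A h0) (hJ : (n : ℝ) * lam q l0 J < h0 * (ρ : ℝ) ^ J) :
    ∃ j < J, ∃ h : ℕ, h0 ≤ h ∧ (h : ℝ) ≤ n * lam q l0 j ∧
      (n : ℝ) ^ 2 * h / lam q l0 j ≤ tc A h ∧
      ∀ h' : ℕ, h * ρ ≤ h' → tc A h' < (n : ℝ) ^ 2 * h' / lam q l0 (j + 1) := by
  have hlam : ∀ j, 1 ≤ lam q l0 j := fun j => B4_one_le_lam hb.q_one hl0 j
  have hn0 : (0 : ℝ) < n := hb.n_pos'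
  have htc : ∀ h, tc A h ≤ (n : ℝ) ^ 3 := fun h => B4_tc_le hA h
  have key : ∀ j h, (n : ℝ) ^ 2 * h / lam q l0 j ≤ tc A h → (h : ℝ) ≤ n * lam q l0 j := by
    intro j h hle
    have hl : 0 < lam q l0 j := lt_of_lt_of_le one_pos (hlam j)
    have h1 : (n : ℝ) ^ 2 * h / lam q l0 j ≤ (n : ℝ) ^ 3 := hle.trans (htc h)
    rw [div_le_iff₀ hl] at h1
    have h2 : (n : ℝ) ^ 2 * h ≤ (n : ℝ) ^ 2 * (n * lam q l0 j) := by
      calc (n : ℝ) ^ 2 * h ≤ (n : ℝ) ^ 3 * lam q l0 j := h1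
        _ = (n : ℝ) ^ 2 * (n * lam q l0 j) := by ring
    exact le_of_mul_le_mul_left h2 (by positivity)
  let S : ℕ → Prop := fun j => ∃ h : ℕ, h0 * ρ ^ j ≤ h ∧ (n : ℝ) ^ 2 * h / lam q l0 j ≤ tc A h
  have hS0 : S 0 := ⟨h0, by simp, hT⟩
  have hSJ : ¬ S J := by
    rintro ⟨h, h1, h2⟩
    have h3 := key J h h2
    have h4 : (h0 : ℝ) * (ρ : ℝ) ^ J ≤ h := by exact_mod_cast h1
    linarith
  have hex : ∃ m, ¬ S m := ⟨J, hSJ⟩
  have hm := Nat.find_spec hex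
  have hmin := fun i (hi : i < Nat.find hex) => Nat.find_min hex hi
  have hmJ : Nat.find hex ≤ J := Nat.find_min' hex hSJ
  obtain ⟨j, hj⟩ : ∃ j, Nat.find hex = j + 1 := by
    refine Nat.exists_eq_succ_of_ne_zero ?_
    intro h0'
    rw [h0'] at hm
    exact hm hS0
  rw [hj] at hm hmJ
  have hSj : S j := by
    by_contra hcon
    exact hmin j (by omega) hcon
  obtain ⟨h, h1, h2⟩ := hSj
  refine ⟨j, by omega, h, ?_, key j h h2, h2, ?_⟩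
  · calc h0 = h0 * 1 := (mul_one _).symm
      _ ≤ h0 * ρ ^ j := Nat.mul_le_mul_left _ (Nat.one_le_pow _ _ hρ)
      _ ≤ h := h1
  · intro h' hh'
    by_contra hcon
    push Not at hcon
    apply hm
    refine ⟨h', ?_, hcon⟩
    calc h0 * ρ ^ (j + 1) = h0 * ρ ^ j * ρ := by ring
      _ ≤ h * ρ := Nat.mul_le_mul_right _ h1
      _ ≤ h' := hh'

/-- closed form -/
theorem lam_le (q l0 : ℝ) (hq : 1 ≤ q) (hl0 : 1 ≤ l0) (j : ℕ) :
    1 ≤ lam q l0 j ∧ lam q l0 j ≤ (q ^ 5 * l0) ^ 2 ^ j := by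
  refine ⟨B4_one_le_lam hq hl0 j, ?_⟩
  have h1 : q ^ 5 * lam q l0 j = (q ^ 5 * l0) ^ 2 ^ j := by
    induction j with
    | zero => simp [lam]
    | succ j ih =>
      rw [lam, pow_succ 2 j, pow_mul, ← ih]
      ring
  rw [← h1]
  have h2 := B4_one_le_lam hq hl0 j
  have h3 : (1 : ℝ) ≤ q ^ 5 := one_le_pow₀ hq
  nlinarith

theorem lam_mono (q l0 : ℝ) (hq : 1 ≤ q) (hl0 : 1 ≤ l0) {i j : ℕ} (hij : i ≤ j) :
    lam q l0 i ≤ lam q l0 j := by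
  have hstep : ∀ i, lam q l0 i ≤ lam q l0 (i + 1) := by
    intro i
    have h2 := B4_one_le_lam hq hl0 i
    have h3 : (1 : ℝ) ≤ q ^ 5 := one_le_pow₀ hq
    rw [lam]
    nlinarith [mul_nonneg (sub_nonneg.mpr h3) (sq_nonneg (lam q l0 i)), sq_nonneg (lam q l0 i - 1)]
  exact monotone_nat_of_le_succ hstep hij

end Pool.Agent.MP_741d1b.All
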