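import Mathlib
import Pool.Agent.Lib.MP_741d1b_nt_all.Nb
import Pool.Agent.Lib.MP_741d1b_nt_h87.T3Core2

/-!
Row C1: weights of pairs; near triples; sparse sets of pairs are rare in the clusters.

The context `Ctx` of the old library is used; its fields `Δ`, `hΔ` (number of divisors of all numbers
up to `n ^ 3 * (8 * (B + 1))`, without any relation of `Δ` to `n`) are not used in any bound here.
-/

set_option autoImplicit false

namespace Pool.Agent.MP_741d1b.All

open Finset Classical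
open Pool.Agent.MP_741d1b.H87

/-- The weight of a pair. -/
noncomputable def wA (c : Ctx) (a b : ℤ) : ℝ :=
  ∑ y ∈ c.A.erase a, if hgt (a - b) (a - y) ≤ c.n then 1 / (hgt (a - b) (a - y) : ℝ) else 0

theorem wA_nonneg (c : Ctx) (a b : ℤ) : 0 ≤ wA c a b := by
  unfold wA
  refine sum_nonneg fun y _ => ?_
  split_ifs
  · positivity
  · exact le_refl _

private theorem cw_not_dvd (c : Ctx) {a b : ℤ} (ha : a ∈ c.A) (hb : b ∈ c.A) (hab : a ≠ b) :
    ¬ (c.M : ℤ) ∣ (a - b) := by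
  intro hd
  have hne : a - b ≠ 0 := sub_ne_zero.mpr hab
  have h6 : (c.M : ℤ) ≤ |a - b| := Int.le_of_dvd (abs_pos.mpr hne) ((dvd_abs _ _).mpr hd)
  have h7 := c.sub_lt ha hb
  have h8 : (1 : ℤ) ≤ c.n := by exact_mod_cast c.n_pos
  have h9 : 0 ≤ |a - b| := abs_nonneg _
  nlinarith

/- PROOF. y = a: Near 0 always holds, card_near_le: 3 M / n (M does not divide a - b: c.sub_lt). y ≠ a:
card_near_pair_le; the sum over hgt > n is at most n * 15 M / n². -/
theorem triple_w (c : Ctx) {a b : ℤ} (ha : a ∈ c.A) (hb : b ∈ c.A) (hab : a ≠ b) :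
    ∑ y ∈ c.A, (((range c.M).filter
      (fun t => Near c.M c.n t (a - b) ∧ Near c.M c.n t (a - y))).card : ℝ) ≤
      (c.M : ℝ) / c.n * (18 + 15 * wA c a b) := by
  have hn := c.n_pos'
  have hM := c.M_pos'
  have hab0 : a - b ≠ 0 := sub_ne_zero.mpr hab
  have hxd : ¬ (c.M : ℤ) ∣ (a - b) := cw_not_dvd c ha hb hab
  have hcard := card_near_le c.hM c.n_pos c.n_le_M hxd
  rw [← Finset.add_sum_erase _ _ ha]
  have h0 : (((range c.M).filter
      (fun t => Near c.M c.n t (a - b) ∧ Near c.M c.n t (a - a))).card : ℝ) ≤ 3 * c.M / c.n := by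
    refine le_trans ?_ hcard
    apply Nat.cast_le.mpr
    apply card_le_card
    intro t ht
    rw [mem_filter] at ht ⊢
    exact ⟨ht.1, ht.2.1⟩
  have h1 : ∀ y ∈ c.A.erase a, (((range c.M).filter
      (fun t => Near c.M c.n t (a - b) ∧ Near c.M c.n t (a - y))).card : ℝ) ≤
      15 * c.M / c.n * (if hgt (a - b) (a - y) ≤ c.n then 1 / (hgt (a - b) (a - y) : ℝ) else 0) +
        15 * c.M / (c.n : ℝ) ^ 2 := by
    intro y hy
    have hya : a - y ≠ 0 := sub_ne_zero.mpr (Ne.symm (mem_erase.mp hy).1)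
    have h2 := card_near_pair_le c.hM c.n_pos hab0 hya (c.sub_lt ha hb)
      (c.sub_lt ha (mem_erase.mp hy).2)
    refine h2.trans ?_
    have h3 : (0 : ℝ) ≤ 15 * c.M / (c.n : ℝ) ^ 2 := by positivity
    split_ifs with h4
    · linarith
    · linarith
  have h2 := sum_le_sum h1
  rw [sum_add_distrib, ← mul_sum, sum_const, nsmul_eq_mul] at h2
  have h3 : ((c.A.erase a).card : ℝ) ≤ c.n := by
    rw [← c.hA]
    exact_mod_cast card_le_card (erase_subset _ _)
  have h4 : ((c.A.erase a).card : ℝ) * (15 * c.M / (c.n : ℝ) ^ 2) ≤ 15 * c.M / c.n := by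
    calc ((c.A.erase a).card : ℝ) * (15 * c.M / (c.n : ℝ) ^ 2)
        ≤ c.n * (15 * c.M / (c.n : ℝ) ^ 2) := mul_le_mul_of_nonneg_right h3 (by positivity)
      _ = 15 * c.M / c.n := by field_simp
  have h5 : (c.M : ℝ) / c.n * (18 + 15 * wA c a b) = 3 * c.M / c.n +
      (15 * c.M / c.n * wA c a b + 15 * c.M / c.n) := by ring
  rw [h5]
  unfold wA
  linarith

/- PROOF. As Ctx.sparse (read T3Ctx.lean), with triple_w in place of triple_sum. -/
theorem sparse_w (c : Ctx) (Q : Finset (ℤ × ℤ))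
    (hQ : ∀ z ∈ Q, z.1 ∈ c.A ∧ z.2 ∈ c.A ∧ z.1 ≠ z.2) :
    (c.K : ℝ) * ∑ t ∈ range c.M, (((c.C t ×ˢ c.C t) ∩ Q).card : ℝ) ≤
      (c.M : ℝ) / c.n * ∑ z ∈ Q, (18 + 15 * wA c z.1 z.2) := by
  have h1 : ∀ t ∈ range c.M, (c.K : ℝ) * (((c.C t ×ˢ c.C t) ∩ Q).card : ℝ) ≤
      ∑ z ∈ Q, ∑ y ∈ c.A,
        if Near c.M c.n t (z.1 - z.2) ∧ Near c.M c.n t (z.1 - y) then (1 : ℝ) else 0 := by
    intro t _
    calc (c.K : ℝ) * (((c.C t ×ˢ c.C t) ∩ Q).card : ℝ) =
        ∑ z ∈ (c.C t ×ˢ c.C t) ∩ Q, ∑ y ∈ c.C t, (1 : ℝ) := by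
          rw [sum_const, sum_const, c.hCK t]; simp [mul_comm]
      _ ≤ ∑ z ∈ (c.C t ×ˢ c.C t) ∩ Q, ∑ y ∈ c.A,
        if Near c.M c.n t (z.1 - z.2) ∧ Near c.M c.n t (z.1 - y) then (1 : ℝ) else 0 := by
          refine sum_le_sum fun z hz => ?_
          rw [mem_inter, mem_product] at hz
          calc ∑ y ∈ c.C t, (1 : ℝ) = ∑ y ∈ c.C t,
              if Near c.M c.n t (z.1 - z.2) ∧ Near c.M c.n t (z.1 - y) then (1 : ℝ) else 0 := by
                refine sum_congr rfl fun y hy => ?_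
                rw [if_pos ⟨c.near hz.1.1 hz.1.2, c.near hz.1.1 hy⟩]
            _ ≤ _ := Finset.sum_le_sum_of_subset_of_nonneg (c.hCA t) (fun y _ _ => by
                split_ifs <;> norm_num)
      _ ≤ _ := Finset.sum_le_sum_of_subset_of_nonneg inter_subset_right (fun z _ _ =>
          sum_nonneg fun y _ => by split_ifs <;> norm_num)
  rw [mul_sum]
  refine (sum_le_sum h1).trans ?_
  rw [sum_comm, mul_sum]
  refine sum_le_sum fun z hz => ?_
  rw [sum_comm]
  have h2 := triple_w c (hQ z hz).1 (hQ z hz).2.1 (hQ z hz).2.2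
  refine le_trans (le_of_eq ?_) h2
  refine sum_congr rfl fun y _ => ?_
  rw [sum_ite_card (fun t => Near c.M c.n t (z.1 - z.2) ∧ Near c.M c.n t (z.1 - y)) 1, mul_one]

private theorem cw_inv_hgt_le {n : ℕ} (hn : 1 ≤ n) {x y : ℤ} (hx : x ≠ 0) (hy : y ≠ 0) :
    (if hgt x y ≤ n then 1 / (hgt x y : ℝ) else 0) ≤ gk (n ^ 2) x y := by
  split_ifs with h
  · have h2 : hgt x y ≤ n ^ 2 := h.trans (Nat.le_self_pow (by norm_num) _)
    unfold gk
    rw [if_pos ⟨hx, hy, h2⟩]
    have hg : 0 < Int.gcd x y := Int.gcd_pos_of_ne_zero_left _ hx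
    have hgd : Int.gcd x y ∣ max x.natAbs y.natAbs := by
      rcases max_choice x.natAbs y.natAbs with h3 | h3
      · rw [h3]; exact Int.natAbs_dvd_natAbs.mpr (Int.gcd_dvd_left ..)
      · rw [h3]; exact Int.natAbs_dvd_natAbs.mpr (Int.gcd_dvd_right ..)
    have hg' : (0 : ℝ) < Int.gcd x y := by exact_mod_cast hg
    have hH : (hgt x y : ℝ) = (max x.natAbs y.natAbs : ℕ) / (Int.gcd x y : ℝ) := by
      unfold hgt
      rw [Nat.cast_div hgd hg'.ne']
    rw [hH, one_div_div]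
    have hxa : |(x : ℝ)| = (x.natAbs : ℝ) := by rw [Nat.cast_natAbs]; push_cast; rfl
    have hya : |(y : ℝ)| = (y.natAbs : ℝ) := by rw [Nat.cast_natAbs]; push_cast; rfl
    have hx0 : (0 : ℝ) < x.natAbs := by exact_mod_cast Int.natAbs_pos.mpr hx
    have hy0 : (0 : ℝ) < y.natAbs := by exact_mod_cast Int.natAbs_pos.mpr hy
    rw [hxa, hya]
    apply div_le_div_of_nonneg_left hg'.le (Real.sqrt_pos.mpr (by positivity))
    rw [Real.sqrt_le_left (by positivity)]
    have h4 : (x.natAbs : ℝ) ≤ (max x.natAbs y.natAbs : ℕ) := by exact_mod_cast le_max_left _ _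
    have h5 : (y.natAbs : ℝ) ≤ (max x.natAbs y.natAbs : ℕ) := by exact_mod_cast le_max_right _ _
    rw [sq]
    exact mul_le_mul h4 h5 hy0.le (hx0.le.trans h4)
  · exact gk_nonneg _ _ _

/-- The norm bound for a set of differences. -/
private theorem cw_norm (c : Ctx) {q : ℝ} (hb : Nb c.n q) {a : ℤ} (X : Finset ℤ)
    (hX : X ⊆ c.A.erase a) :
    ∑ b ∈ X, wA c a b ≤ q * (Real.sqrt X.card * Real.sqrt c.n) := by
  set D : Finset ℤ := (c.A.erase a).image (fun y => a - y) with hD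
  have hinj : Set.InjOn (fun y : ℤ => a - y) ↑(c.A.erase a) := by
    intro x _ y _ h
    simp only at h
    linarith
  have hcard : D.card = (c.A.erase a).card := card_image_of_injOn hinj
  have hle : (c.A.erase a).card ≤ c.n := by
    rw [← c.hA]
    exact card_le_card (erase_subset _ _)
  have hD0 : ∀ x ∈ D, x ≠ 0 := by
    intro x hx
    obtain ⟨y, hy, rfl⟩ := mem_image.mp hx
    exact sub_ne_zero.mpr (Ne.symm (mem_erase.mp hy).1)
  have hn1 : 1 ≤ c.n := c.n_pos
  have h := hb.hnorm D hD0 (by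
    rw [hcard]
    exact hle.trans (Nat.le_self_pow (by norm_num) _))
    (fun x => if a - x ∈ X then 1 else 0) (fun _ => 1)
    (fun x => by split_ifs <;> norm_num) (fun _ => zero_le_one)
  have e1 : ∑ x ∈ D, (fun x => if a - x ∈ X then (1 : ℝ) else 0) x ^ 2 = X.card := by
    rw [hD, sum_image hinj]
    have : ∀ y ∈ c.A.erase a, (fun x => if a - x ∈ X then (1 : ℝ) else 0) (a - y) ^ 2 =
        if y ∈ X then 1 else 0 := by
      intro y _
      simp only [sub_sub_cancel]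
      split_ifs <;> norm_num
    rw [sum_congr rfl this, ← sum_filter, filter_mem_eq_inter, inter_eq_right.mpr hX]
    simp
  have e2 : ∑ x ∈ D, (fun _ => (1 : ℝ)) x ^ 2 = (c.A.erase a).card := by
    simp [hcard]
  rw [e1, e2] at h
  have e3 : ∑ b ∈ X, wA c a b ≤ ∑ x ∈ D, ∑ y ∈ D,
      (fun x => if a - x ∈ X then (1 : ℝ) else 0) x * (fun _ => (1 : ℝ)) y * gk (c.n ^ 2) x y := by
    rw [hD, sum_image hinj]
    have : ∀ b ∈ c.A.erase a, ∑ y ∈ (c.A.erase a).image (fun y => a - y),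
        (fun x => if a - x ∈ X then (1 : ℝ) else 0) (a - b) * (fun _ => (1 : ℝ)) y *
          gk (c.n ^ 2) (a - b) y = if b ∈ X then ∑ y ∈ c.A.erase a, gk (c.n ^ 2) (a - b) (a - y)
            else 0 := by
      intro b _
      rw [sum_image hinj]
      simp only [sub_sub_cancel]
      split_ifs
      · simp
      · simp
    rw [sum_congr rfl this, ← sum_filter, filter_mem_eq_inter, inter_eq_right.mpr hX]
    refine sum_le_sum fun b hb' => ?_
    unfold wA
    refine sum_le_sum fun y hy => ?_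
    exact cw_inv_hgt_le hn1 (sub_ne_zero.mpr (Ne.symm (mem_erase.mp (hX hb')).1))
      (sub_ne_zero.mpr (Ne.symm (mem_erase.mp hy).1))
  refine e3.trans (h.trans ?_)
  apply mul_le_mul_of_nonneg_left _ hb.q_pos.le
  apply mul_le_mul_of_nonneg_left _ (Real.sqrt_nonneg _)
  apply Real.sqrt_le_sqrt
  exact_mod_cast hle

/- PROOF. hnorm for D = (A.erase a).image (a - ·), f = g = 1 (card D ≤ n ≤ n ^ 2; for x, y ≠ 0 with
hgt x y ≤ n ≤ n ^ 2: 1 / hgt x y ≤ gk (n ^ 2) x y as hgt = max |x| |y| / gcd and √(|x| |y|) ≤ max). -/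
theorem sum_w (c : Ctx) {q : ℝ} (hb : Nb c.n q) {a : ℤ} (ha : a ∈ c.A) :
    ∑ b ∈ c.A.erase a, wA c a b ≤ q * c.n := by
  have h := cw_norm c hb (a := a) (c.A.erase a) (Subset.refl _)
  refine h.trans ?_
  apply mul_le_mul_of_nonneg_left _ hb.q_pos.le
  have hle : ((c.A.erase a).card : ℝ) ≤ c.n := by
    rw [← c.hA]
    exact_mod_cast card_le_card (erase_subset _ _)
  calc Real.sqrt (c.A.erase a).card * Real.sqrt c.n ≤ Real.sqrt c.n * Real.sqrt c.n :=
        mul_le_mul_of_nonneg_right (Real.sqrt_le_sqrt hle) (Real.sqrt_nonneg _)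
    _ = c.n := Real.mul_self_sqrt (Nat.cast_nonneg _)

/- PROOF. With X the filtered set: ∑ b ∈ X, wA ≤ q * √(card X) * √n (hnorm with f = indicator of
a - X, g = 1), so W * card X ≤ q √(card X) √n, card X ≤ q² n / W², and the sum is at most
q √(q² n / W²) √n = q² n / W. -/
theorem heavy_w (c : Ctx) {q : ℝ} (hb : Nb c.n q) {a : ℤ} (ha : a ∈ c.A) (W : ℝ) (hW : 0 < W) :
    (((c.A.erase a).filter (fun b => W < wA c a b)).card : ℝ) ≤ q ^ 2 * c.n / W ^ 2 ∧
      ∑ b ∈ (c.A.erase a).filter (fun b => W < wA c a b), wA c a b ≤ q ^ 2 * c.n / W := by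
  set X := (c.A.erase a).filter (fun b => W < wA c a b) with hX
  have h := cw_norm c hb (a := a) X (filter_subset _ _)
  have hq := hb.q_pos
  have hn := c.n_pos'
  have h1 : W * X.card ≤ ∑ b ∈ X, wA c a b := by
    calc W * X.card = ∑ b ∈ X, W := by rw [sum_const, nsmul_eq_mul, mul_comm]
      _ ≤ _ := sum_le_sum fun b hb' => (mem_filter.mp hb').2.le
  have hsX : Real.sqrt X.card * Real.sqrt X.card = X.card := Real.mul_self_sqrt (Nat.cast_nonneg _)
  have hsn : Real.sqrt c.n * Real.sqrt c.n = c.n := Real.mul_self_sqrt (Nat.cast_nonneg _)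
  have h2 : W * Real.sqrt X.card ≤ q * Real.sqrt c.n := by
    rcases eq_or_lt_of_le (Real.sqrt_nonneg (X.card : ℝ)) with h0 | h0
    · rw [← h0, mul_zero]
      exact mul_nonneg hq.le (Real.sqrt_nonneg _)
    · have h3 : W * Real.sqrt X.card * Real.sqrt X.card ≤ q * Real.sqrt c.n * Real.sqrt X.card := by
        calc W * Real.sqrt X.card * Real.sqrt X.card = W * X.card := by rw [mul_assoc, hsX]
          _ ≤ q * (Real.sqrt X.card * Real.sqrt c.n) := h1.trans h
          _ = q * Real.sqrt c.n * Real.sqrt X.card := by ring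
      exact le_of_mul_le_mul_right h3 h0
  have h4 : Real.sqrt X.card ≤ q * Real.sqrt c.n / W := by
    rw [le_div_iff₀ hW]; linarith
  constructor
  · rw [← hsX]
    calc Real.sqrt X.card * Real.sqrt X.card ≤ (q * Real.sqrt c.n / W) * (q * Real.sqrt c.n / W) :=
          mul_le_mul h4 h4 (Real.sqrt_nonneg _) ((Real.sqrt_nonneg _).trans h4)
      _ = q ^ 2 * (Real.sqrt c.n * Real.sqrt c.n) / W ^ 2 := by field_simp
      _ = q ^ 2 * c.n / W ^ 2 := by rw [hsn]
  · refine h.trans ?_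
    calc q * (Real.sqrt X.card * Real.sqrt c.n) ≤ q * ((q * Real.sqrt c.n / W) * Real.sqrt c.n) :=
          mul_le_mul_of_nonneg_left (mul_le_mul_of_nonneg_right h4 (Real.sqrt_nonneg _)) hq.le
      _ = q ^ 2 * (Real.sqrt c.n * Real.sqrt c.n) / W := by field_simp
      _ = q ^ 2 * c.n / W := by rw [hsn]

/- PROOF. sparse_w; pairs of Q with wA ≤ W contribute at most 33 W card Q; the others at most
∑ a ∈ A, (18 q² n / W² + 15 q² n / W) ≤ 33 q² n² / W (heavy_w, W ≥ 1). -/
theorem sparse' (c : Ctx) {q : ℝ} (hb : Nb c.n q) (Q : Finset (ℤ × ℤ))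
    (hQ : ∀ z ∈ Q, z.1 ∈ c.A ∧ z.2 ∈ c.A ∧ z.1 ≠ z.2) (W : ℝ) (hW : 1 ≤ W) :
    (c.K : ℝ) * ∑ t ∈ range c.M, (((c.C t ×ˢ c.C t) ∩ Q).card : ℝ) ≤
      (c.M : ℝ) / c.n * (33 * (W * Q.card + q ^ 2 * (c.n : ℝ) ^ 2 / W)) := by
  refine (sparse_w c Q hQ).trans ?_
  have hn := c.n_pos'
  have hM := c.M_pos'
  have hW0 : 0 < W := by linarith
  apply mul_le_mul_of_nonneg_left _ (by positivity)
  rw [← sum_filter_add_sum_filter_not Q (fun z => W < wA c z.1 z.2)]
  have h1 : ∑ z ∈ Q.filter (fun z => ¬ W < wA c z.1 z.2), (18 + 15 * wA c z.1 z.2) ≤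
      33 * W * Q.card := by
    calc ∑ z ∈ Q.filter (fun z => ¬ W < wA c z.1 z.2), (18 + 15 * wA c z.1 z.2)
        ≤ ∑ z ∈ Q.filter (fun z => ¬ W < wA c z.1 z.2), 33 * W := by
          refine sum_le_sum fun z hz => ?_
          have := not_lt.mp (mem_filter.mp hz).2
          linarith
      _ = ((Q.filter (fun z => ¬ W < wA c z.1 z.2)).card : ℝ) * (33 * W) := by
          rw [sum_const, nsmul_eq_mul]
      _ ≤ (Q.card : ℝ) * (33 * W) := by
          apply mul_le_mul_of_nonneg_right _ (by positivity)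
          exact_mod_cast card_le_card (filter_subset _ _)
      _ = 33 * W * Q.card := by ring
  have h2 : ∑ z ∈ Q.filter (fun z => W < wA c z.1 z.2), (18 + 15 * wA c z.1 z.2) ≤
      33 * (q ^ 2 * (c.n : ℝ) ^ 2 / W) := by
    have hsub : Q.filter (fun z => W < wA c z.1 z.2) ⊆
        (c.A.sigma (fun a => (c.A.erase a).filter (fun b => W < wA c a b))).image
          (fun x : (Σ _ : ℤ, ℤ) => (x.1, x.2)) := by
      intro z hz
      obtain ⟨hzQ, hzW⟩ := mem_filter.mp hz
      obtain ⟨ha, hb', hne⟩ := hQ z hzQ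
      exact mem_image.mpr ⟨⟨z.1, z.2⟩, mem_sigma.mpr ⟨ha, mem_filter.mpr
        ⟨mem_erase.mpr ⟨Ne.symm hne, hb'⟩, hzW⟩⟩, rfl⟩
    have hpos : ∀ z : ℤ × ℤ, 0 ≤ 18 + 15 * wA c z.1 z.2 := fun z => by
      have := wA_nonneg c z.1 z.2
      linarith
    refine (sum_le_sum_of_subset_of_nonneg hsub fun z _ _ => hpos z).trans ?_
    rw [sum_image (by
      rintro ⟨a, b⟩ _ ⟨a', b'⟩ _ h
      simp only [Prod.mk.injEq] at h
      obtain ⟨rfl, rfl⟩ := h
      rfl), sum_sigma]
    have h3 : ∀ a ∈ c.A, ∑ b ∈ (c.A.erase a).filter (fun b => W < wA c a b),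
        (18 + 15 * wA c a b) ≤ 33 * (q ^ 2 * c.n / W) := by
      intro a ha
      obtain ⟨h4, h5⟩ := heavy_w c hb ha W hW0
      rw [sum_add_distrib, sum_const, nsmul_eq_mul, ← mul_sum]
      have h6 : q ^ 2 * (c.n : ℝ) / W ^ 2 ≤ q ^ 2 * c.n / W := by
        apply div_le_div_of_nonneg_left (by positivity) hW0
        nlinarith
      linarith
    refine (sum_le_sum h3).trans ?_
    rw [sum_const, c.hA, nsmul_eq_mul]
    apply le_of_eq
    ring
  calc _ ≤ 33 * (q ^ 2 * (c.n : ℝ) ^ 2 / W) + 33 * W * Q.card := add_le_add h2 h1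
    _ = _ := by ring

/- PROOF. As Ctx.sum_Tr (read T3Ctx.lean): for b ≠ a use triple_w, sum over b ∈ A.erase a by sum_w:
∑ t, card (Tr t) ≤ ∑ a, (M (18 + 15 q) + 4 M) ≤ M n (22 + 15 q) ≤ M n q². -/
theorem sum_Tr' (c : Ctx) {q : ℝ} (hb : Nb c.n q) :
    ∑ t ∈ range c.M, ((c.Tr t).card : ℝ) ≤ c.M * (c.n * q ^ 2) := by
  have hn := c.n_pos'
  have hM := c.M_pos'
  have e : ∀ t ∈ range c.M, ((c.Tr t).card : ℝ) = ∑ a ∈ c.A, ∑ b ∈ c.A, ∑ y ∈ c.A,
      if Near c.M c.n t (a - b) ∧ Near c.M c.n t (a - y) then (1 : ℝ) else 0 := by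
    intro t _
    unfold Ctx.Tr
    rw [card_filter]
    push_cast
    rw [Finset.sum_product]
    refine sum_congr rfl fun a _ => ?_
    rw [Finset.sum_product]
  rw [sum_congr rfl e, sum_comm]
  have h1 : ∀ a ∈ c.A, ∑ t ∈ range c.M, ∑ b ∈ c.A, ∑ y ∈ c.A,
      (if Near c.M c.n t (a - b) ∧ Near c.M c.n t (a - y) then (1 : ℝ) else 0) ≤ c.M * q ^ 2 := by
    intro a ha
    rw [sum_comm, ← Finset.add_sum_erase _ _ ha]
    have hA0 : ∑ t ∈ range c.M, ∑ y ∈ c.A,
        (if Near c.M c.n t (a - a) ∧ Near c.M c.n t (a - y) then (1 : ℝ) else 0) ≤ 4 * c.M := by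
      rw [sum_comm]
      have h3 : ∀ y ∈ c.A, ∑ t ∈ range c.M,
          (if Near c.M c.n t (a - a) ∧ Near c.M c.n t (a - y) then (1 : ℝ) else 0) ≤
          (3 : ℝ) * c.M / c.n + (if y = a then (c.M : ℝ) else 0) := by
        intro y hy
        rw [sum_ite_card (fun t => Near c.M c.n t (a - a) ∧ Near c.M c.n t (a - y)) 1, mul_one]
        by_cases hya : y = a
        · rw [if_pos hya]
          have : (((range c.M).filter
            (fun t => Near c.M c.n t (a - a) ∧ Near c.M c.n t (a - y))).card : ℝ) ≤ c.M := by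
            have := card_filter_le (range c.M)
              (fun t => Near c.M c.n t (a - a) ∧ Near c.M c.n t (a - y))
            rw [card_range] at this
            exact_mod_cast this
          have h4 : 0 ≤ (3 : ℝ) * c.M / c.n := by positivity
          linarith
        · rw [if_neg hya, add_zero]
          have h5 := card_near_le c.hM c.n_pos c.n_le_M (x := a - y)
            (cw_not_dvd c ha hy (Ne.symm hya))
          refine le_trans ?_ h5
          apply Nat.cast_le.mpr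
          apply card_le_card
          intro t ht
          rw [mem_filter] at ht ⊢
          exact ⟨ht.1, ht.2.2⟩
      refine (sum_le_sum h3).trans ?_
      rw [sum_add_distrib, sum_const, c.hA, nsmul_eq_mul,
        Finset.sum_ite_eq' c.A a (fun _ => (c.M : ℝ)), if_pos ha]
      have h11 : (c.n : ℝ) * (3 * c.M / c.n) = 3 * c.M := by field_simp
      linarith
    have hB0 : ∑ b ∈ c.A.erase a, ∑ t ∈ range c.M, ∑ y ∈ c.A,
        (if Near c.M c.n t (a - b) ∧ Near c.M c.n t (a - y) then (1 : ℝ) else 0) ≤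
        c.M * (18 + 15 * q) := by
      have h2 : ∀ b ∈ c.A.erase a, ∑ t ∈ range c.M, ∑ y ∈ c.A,
          (if Near c.M c.n t (a - b) ∧ Near c.M c.n t (a - y) then (1 : ℝ) else 0) ≤
          (c.M : ℝ) / c.n * (18 + 15 * wA c a b) := by
        intro b hb'
        rw [sum_comm]
        have h3 := triple_w c ha (mem_erase.mp hb').2 (Ne.symm (mem_erase.mp hb').1)
        refine le_trans (le_of_eq ?_) h3
        refine sum_congr rfl fun y _ => ?_
        rw [sum_ite_card (fun t => Near c.M c.n t (a - b) ∧ Near c.M c.n t (a - y)) 1, mul_one]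
      refine (sum_le_sum h2).trans ?_
      rw [← mul_sum, sum_add_distrib, sum_const, nsmul_eq_mul, ← mul_sum]
      have h4 := sum_w c hb ha
      have h5 : ((c.A.erase a).card : ℝ) ≤ c.n := by
        rw [← c.hA]
        exact_mod_cast card_le_card (erase_subset _ _)
      calc (c.M : ℝ) / c.n * (((c.A.erase a).card : ℝ) * 18 + 15 * ∑ b ∈ c.A.erase a, wA c a b)
          ≤ (c.M : ℝ) / c.n * (c.n * (18 + 15 * q)) := by
            apply mul_le_mul_of_nonneg_left _ (by positivity)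
            linarith
        _ = c.M * (18 + 15 * q) := by field_simp
    have hq := hb.hq
    have h6 : (4 : ℝ) * c.M + c.M * (18 + 15 * q) ≤ c.M * q ^ 2 := by
      have : 4 + (18 + 15 * q) ≤ q ^ 2 := by nlinarith
      nlinarith
    exact (add_le_add hA0 hB0).trans h6
  refine (sum_le_sum h1).trans ?_
  rw [sum_const, c.hA, nsmul_eq_mul]
  apply le_of_eq
  ring

end Pool.Agent.MP_741d1b.All
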