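import Mathlib
import Pool.Agent.Lib.MP_741d1b_nt_all.CW

/-!
Row C3: copies of `sum_r_cube`, `finish`, `good_pairs` of the old library with the new bounds.
-/

set_option autoImplicit false

namespace Pool.Agent.MP_741d1b.All

open Finset Classical
open Pool.Agent.MP_741d1b.H87
open scoped Pointwise

/- PROOF. Ctx.sum_r_cube (T3Core1.lean) with sum_Tr' in place of sum_Tr. -/
theorem sum_r_cube' (c : Ctx) {q : ℝ} (hb : Nb c.n q) (V : Finset ℤ) :
    ∑ v ∈ V, c.r v ^ 3 * ((c.K : ℝ) / (2 * c.n)) ^ 3 ≤ c.K * (c.n * q ^ 2) := by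
  have hM := c.M_pos'
  have h1 : ∑ v ∈ V, (c.M : ℝ) * (c.r v * ((c.K : ℝ) / (2 * c.n))) ^ 3 ≤
      ∑ v ∈ V, ∑ t ∈ range c.M, ((c.C t ∩ S c.As v).card : ℝ) ^ 3 :=
    sum_le_sum fun v _ => c.third_moment (S c.As v) (c.S_sub v)
  rw [sum_comm] at h1
  have h2 : ∑ t ∈ range c.M, ∑ v ∈ V, ((c.C t ∩ S c.As v).card : ℝ) ^ 3 ≤
      ∑ t ∈ range c.M, (c.K : ℝ) * (c.Tr t).card := sum_le_sum fun t _ => c.shift_le t V
  rw [← mul_sum] at h2
  have h3 := mul_le_mul_of_nonneg_left (sum_Tr' c hb) (Nat.cast_nonneg (α := ℝ) c.K)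
  have h4 : ∑ v ∈ V, (c.M : ℝ) * (c.r v * ((c.K : ℝ) / (2 * c.n))) ^ 3 =
      (c.M : ℝ) * ∑ v ∈ V, c.r v ^ 3 * ((c.K : ℝ) / (2 * c.n)) ^ 3 := by
    rw [mul_sum]
    refine sum_congr rfl fun v _ => ?_
    rw [mul_pow]
  rw [h4] at h1
  have h5 : (c.M : ℝ) * ∑ v ∈ V, c.r v ^ 3 * ((c.K : ℝ) / (2 * c.n)) ^ 3 ≤
      c.M * (c.K * (c.n * q ^ 2)) := by
    calc (c.M : ℝ) * ∑ v ∈ V, c.r v ^ 3 * ((c.K : ℝ) / (2 * c.n)) ^ 3 ≤ _ := h1
      _ ≤ _ := h2
      _ ≤ _ := h3
      _ = _ := by ring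
  exact le_of_mul_le_mul_left h5 hM

/- PROOF. Ctx.finish (T3Core2.lean) with sum_Tr'. -/
theorem finish' (c : Ctx) {q : ℝ} (hb : Nb c.n q) (V : Finset ℤ) (hV : V ⊆ c.As - c.As) (ρ : ℝ)
    (hρ : 0 ≤ ρ) (hr : ∀ v ∈ V, ρ ≤ c.r v) :
    (V.card : ℝ) * (ρ * (c.K / (2 * c.n))) ^ 3 ≤
      c.n * q ^ 2 + 3 / c.n * (V.card : ℝ) ^ 3 * (c.K : ℝ) ^ 3 := by
  have hn := c.n_pos'
  have hM := c.M_pos'
  set bad : Finset ℕ := (range c.M).filter
    (fun t => ∃ w ∈ V ×ˢ V, w.1 ≠ w.2 ∧ Near c.M c.n t (w.1 - w.2)) with hbad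
  have hbadc : (bad.card : ℝ) ≤ (V.card : ℝ) ^ 2 * (3 * c.M / c.n) := by
    have h1 : bad ⊆ ((V ×ˢ V).filter (fun w => w.1 ≠ w.2)).biUnion
        (fun w => (range c.M).filter (fun t => Near c.M c.n t (w.1 - w.2))) := by
      intro t ht
      rw [hbad, mem_filter] at ht
      obtain ⟨ht1, w, hw, hne, hnear⟩ := ht
      rw [mem_biUnion]
      exact ⟨w, mem_filter.mpr ⟨hw, hne⟩, mem_filter.mpr ⟨ht1, hnear⟩⟩
    have h2 : (bad.card : ℝ) ≤ ∑ w ∈ (V ×ˢ V).filter (fun w => w.1 ≠ w.2),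
        (((range c.M).filter (fun t => Near c.M c.n t (w.1 - w.2))).card : ℝ) := by
      have := (card_le_card h1).trans card_biUnion_le
      exact_mod_cast this
    refine h2.trans ?_
    have h3 : ∀ w ∈ (V ×ˢ V).filter (fun w => w.1 ≠ w.2),
        (((range c.M).filter (fun t => Near c.M c.n t (w.1 - w.2))).card : ℝ) ≤
          3 * c.M / c.n := by
      intro w hw
      rw [mem_filter, mem_product] at hw
      apply card_near_le c.hM c.n_pos c.n_le_M
      intro hd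
      have hne : w.1 - w.2 ≠ 0 := sub_ne_zero.mpr hw.2
      have h6 : (c.M : ℤ) ≤ |w.1 - w.2| :=
        Int.le_of_dvd (abs_pos.mpr hne) ((dvd_abs _ _).mpr hd)
      obtain ⟨a, ha, b, hb, hab⟩ := mem_sub.mp (hV hw.1.1)
      obtain ⟨a', ha', b', hb', hab'⟩ := mem_sub.mp (hV hw.1.2)
      have h7 := c.sub_le (c.As_sub ha) (c.As_sub hb)
      have h8 := c.sub_le (c.As_sub ha') (c.As_sub hb')
      rw [hab] at h7
      rw [hab'] at h8
      have h9 : |w.1 - w.2| ≤ 6 * c.B := by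
        calc |w.1 - w.2| ≤ |w.1| + |w.2| := abs_sub _ _
          _ ≤ 6 * c.B := by
              have : (0 : ℤ) ≤ c.B := by positivity
              linarith
      have h10 := c.mul_lt_M (m := 1) (Nat.one_le_pow _ _ c.n_pos) h9
      push_cast at h10
      linarith
    refine (sum_le_sum h3).trans ?_
    rw [sum_const, nsmul_eq_mul]
    apply mul_le_mul_of_nonneg_right _ (by positivity)
    have : ((V ×ˢ V).filter (fun w => w.1 ≠ w.2)).card ≤ V.card * V.card := by
      rw [← card_product]; exact card_filter_le _ _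
    calc (((V ×ˢ V).filter (fun w => w.1 ≠ w.2)).card : ℝ) ≤ ((V.card * V.card : ℕ) : ℝ) := by
          exact_mod_cast this
      _ = _ := by push_cast; ring
  have hlow : (c.M : ℝ) * ((V.card : ℝ) * (ρ * (c.K / (2 * c.n))) ^ 3) ≤
      ∑ t ∈ range c.M, ∑ v ∈ V, ((c.C t ∩ S c.As v).card : ℝ) ^ 3 := by
    rw [sum_comm]
    calc (c.M : ℝ) * ((V.card : ℝ) * (ρ * (c.K / (2 * c.n))) ^ 3) =
        ∑ v ∈ V, (c.M : ℝ) * (ρ * (c.K / (2 * c.n))) ^ 3 := by
          rw [sum_const, nsmul_eq_mul]; ring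
      _ ≤ ∑ v ∈ V, ∑ t ∈ range c.M, ((c.C t ∩ S c.As v).card : ℝ) ^ 3 := by
          refine sum_le_sum fun v hv => ?_
          refine le_trans ?_ (c.third_moment (S c.As v) (c.S_sub v))
          apply mul_le_mul_of_nonneg_left _ hM.le
          apply pow_le_pow_left₀ (by positivity)
          apply mul_le_mul_of_nonneg_right (hr v hv) (by positivity)
  have hup : ∀ t ∈ range c.M, ∑ v ∈ V, ((c.C t ∩ S c.As v).card : ℝ) ^ 3 ≤
      (c.Tr t).card + (if t ∈ bad then (V.card : ℝ) * (c.K : ℝ) ^ 3 else 0) := by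
    intro t ht
    by_cases hbt : t ∈ bad
    · rw [if_pos hbt]
      have h1 : ∑ v ∈ V, ((c.C t ∩ S c.As v).card : ℝ) ^ 3 ≤ ∑ v ∈ V, (c.K : ℝ) ^ 3 := by
        refine sum_le_sum fun v _ => ?_
        apply pow_le_pow_left₀ (Nat.cast_nonneg _)
        rw [← c.hCK t]
        exact_mod_cast card_le_card inter_subset_left
      rw [sum_const, nsmul_eq_mul] at h1
      have : (0 : ℝ) ≤ (c.Tr t).card := Nat.cast_nonneg _
      linarith
    · rw [if_neg hbt, add_zero]
      apply c.shift_le' t V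
      intro v hv v' hv' hne hnear
      apply hbt
      rw [hbad, mem_filter]
      exact ⟨ht, (v, v'), mem_product.mpr ⟨hv, hv'⟩, hne, hnear⟩
  have h1 := hlow.trans (sum_le_sum hup)
  rw [sum_add_distrib] at h1
  have h2 : ∑ t ∈ range c.M, (if t ∈ bad then (V.card : ℝ) * (c.K : ℝ) ^ 3 else 0) ≤
      (V.card : ℝ) ^ 2 * (3 * c.M / c.n) * ((V.card : ℝ) * (c.K : ℝ) ^ 3) := by
    rw [← Finset.sum_filter, sum_const, nsmul_eq_mul]
    apply mul_le_mul_of_nonneg_right _ (by positivity)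
    refine le_trans ?_ hbadc
    apply Nat.cast_le.mpr
    apply card_le_card
    intro t ht
    exact (mem_filter.mp ht).2
  have h3 : (c.M : ℝ) * ((V.card : ℝ) * (ρ * (c.K / (2 * c.n))) ^ 3) ≤
      c.M * (c.n * q ^ 2 + 3 / c.n * (V.card : ℝ) ^ 3 * (c.K : ℝ) ^ 3) := by
    refine h1.trans ((add_le_add (sum_Tr' c hb) h2).trans (le_of_eq ?_))
    field_simp
  exact le_of_mul_le_mul_left h3 hM

/- PROOF. Ctx.good_pairs (T3Core2.lean) with sparse' in place of sparse: the last steps become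
K * (M G / 2) ≤ n * (M / n * 33 (W card P + q² n² / W)). -/
theorem good_pairs' (c : Ctx) {q : ℝ} (hb : Nb c.n q) (D Dp : Finset ℤ) (G κ H W : ℝ)
    (hW : 1 ≤ W) (hG : (c.M : ℝ) * G ≤
      ∑ t ∈ range c.M, ∑ a ∈ c.C t ∩ c.As, ∑ a' ∈ c.C t ∩ c.As,
        ((c.nb D a ∩ c.nb D a').card : ℝ))
    (hκ0 : 0 ≤ κ) (hκ : (c.K : ℝ) ^ 2 * κ ≤ G / 8) (hdiag : (c.K : ℝ) * c.n ≤ G / 8)
    (hH : ∑ t ∈ range c.M, ∑ x ∈ Dp, ((S (c.C t) x).card : ℝ) ≤ c.M * H)
    (hH2 : c.n * H ≤ G / 4) :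
    ∃ P : Finset (ℤ × ℤ), (∀ z ∈ P, z.1 ∈ c.As ∧ z.2 ∈ c.As ∧ z.1 ≠ z.2 ∧
      κ ≤ ((c.nb D z.1 ∩ c.nb D z.2).card : ℝ) ∧ z.1 - z.2 ∉ Dp) ∧
      c.K * G ≤ 66 * (W * P.card + q ^ 2 * (c.n : ℝ) ^ 2 / W) := by
  have hn := c.n_pos'
  have hM := c.M_pos'
  set cd : ℤ × ℤ → ℝ := fun z => ((c.nb D z.1 ∩ c.nb D z.2).card : ℝ) with hcd
  have hcd0 : ∀ z, 0 ≤ cd z := fun z => Nat.cast_nonneg _
  have hcdn : ∀ z, cd z ≤ c.n := by
    intro z
    have : (c.nb D z.1 ∩ c.nb D z.2).card ≤ c.n :=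
      (card_le_card (inter_subset_left.trans (c.nb_sub D z.1))).trans c.As_card
    show ((c.nb D z.1 ∩ c.nb D z.2).card : ℝ) ≤ c.n
    exact_mod_cast this
  set P : Finset (ℤ × ℤ) := (c.As ×ˢ c.As).filter (fun z => z.1 ≠ z.2 ∧ κ ≤ cd z ∧
    z.1 - z.2 ∉ Dp) with hP
  refine ⟨P, ?_, ?_⟩
  · intro z hz
    rw [hP, mem_filter, mem_product] at hz
    exact ⟨hz.1.1, hz.1.2, hz.2.1, hz.2.2.1, hz.2.2.2⟩
  · have hbd : ∀ t ∈ range c.M, ∑ a ∈ c.C t ∩ c.As, ∑ a' ∈ c.C t ∩ c.As,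
        ((c.nb D a ∩ c.nb D a').card : ℝ) ≤
        c.n * (((c.C t ×ˢ c.C t) ∩ P).card : ℝ) + (c.K : ℝ) * c.n + (c.K : ℝ) ^ 2 * κ +
          c.n * ∑ x ∈ Dp, ((S (c.C t) x).card : ℝ) := by
      intro t _
      set W2 := (c.C t ∩ c.As) ×ˢ (c.C t ∩ c.As) with hW2
      have e1 : ∑ a ∈ c.C t ∩ c.As, ∑ a' ∈ c.C t ∩ c.As,
        ((c.nb D a ∩ c.nb D a').card : ℝ) = ∑ z ∈ W2, cd z := by
        rw [hW2, Finset.sum_product]
      rw [e1]
      have h1 : ∀ z ∈ W2, cd z ≤ (if z ∈ P then (c.n : ℝ) else 0) +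
          (if z.1 = z.2 then (c.n : ℝ) else 0) + κ +
          (if z.1 - z.2 ∈ Dp then (c.n : ℝ) else 0) := by
        intro z hz
        rw [hW2, mem_product, mem_inter, mem_inter] at hz
        have h0 := hcdn z
        have h00 := hcd0 z
        by_cases ha : z.1 = z.2
        · rw [if_pos ha]
          have : (0 : ℝ) ≤ (if z ∈ P then (c.n : ℝ) else 0) := by split_ifs <;> positivity
          have : (0 : ℝ) ≤ (if z.1 - z.2 ∈ Dp then (c.n : ℝ) else 0) := by
            split_ifs <;> positivity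
          linarith
        · by_cases hb : z.1 - z.2 ∈ Dp
          · rw [if_pos hb]
            have : (0 : ℝ) ≤ (if z ∈ P then (c.n : ℝ) else 0) := by split_ifs <;> positivity
            have : (0 : ℝ) ≤ (if z.1 = z.2 then (c.n : ℝ) else 0) := by
              split_ifs <;> positivity
            linarith
          · by_cases hc : κ ≤ cd z
            · have : z ∈ P := by
                rw [hP, mem_filter, mem_product]
                exact ⟨⟨hz.1.2, hz.2.2⟩, ha, hc, hb⟩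
              rw [if_pos this, if_neg ha, if_neg hb]
              linarith
            · push Not at hc
              have : (0 : ℝ) ≤ (if z ∈ P then (c.n : ℝ) else 0) := by split_ifs <;> positivity
              have : (0 : ℝ) ≤ (if z.1 - z.2 ∈ Dp then (c.n : ℝ) else 0) := by
                split_ifs <;> positivity
              have : (0 : ℝ) ≤ (if z.1 = z.2 then (c.n : ℝ) else 0) := by
                split_ifs <;> positivity
              linarith
      refine (sum_le_sum h1).trans ?_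
      rw [sum_add_distrib, sum_add_distrib, sum_add_distrib]
      have hW2sub : W2 ⊆ c.C t ×ˢ c.C t := product_subset_product inter_subset_left inter_subset_left
      have k1 : ∑ z ∈ W2, (if z ∈ P then (c.n : ℝ) else 0) ≤
          c.n * (((c.C t ×ˢ c.C t) ∩ P).card : ℝ) := by
        rw [← Finset.sum_filter, Finset.filter_mem_eq_inter, sum_const, nsmul_eq_mul, mul_comm]
        apply mul_le_mul_of_nonneg_left _ hn.le
        exact_mod_cast card_le_card (inter_subset_inter_right hW2sub)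
      have k2 : ∑ z ∈ W2, (if z.1 = z.2 then (c.n : ℝ) else 0) ≤ (c.K : ℝ) * c.n := by
        rw [hW2, Finset.sum_product]
        calc ∑ a ∈ c.C t ∩ c.As, ∑ a' ∈ c.C t ∩ c.As, (if a = a' then (c.n : ℝ) else 0) ≤
            ∑ a ∈ c.C t ∩ c.As, (c.n : ℝ) := by
              refine sum_le_sum fun a ha => ?_
              rw [Finset.sum_ite_eq, if_pos ha]
          _ = ((c.C t ∩ c.As).card : ℝ) * c.n := by rw [sum_const, nsmul_eq_mul]
          _ ≤ (c.K : ℝ) * c.n := by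
              apply mul_le_mul_of_nonneg_right _ hn.le
              rw [← c.hCK t]
              exact_mod_cast card_le_card inter_subset_left
      have k3 : ∑ z ∈ W2, κ ≤ (c.K : ℝ) ^ 2 * κ := by
        rw [sum_const, nsmul_eq_mul]
        apply mul_le_mul_of_nonneg_right _ hκ0
        have : W2.card ≤ c.K * c.K := by
          calc W2.card ≤ (c.C t ×ˢ c.C t).card := card_le_card hW2sub
            _ = c.K * c.K := by rw [card_product, c.hCK t]
        calc (W2.card : ℝ) ≤ ((c.K * c.K : ℕ) : ℝ) := by exact_mod_cast this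
          _ = (c.K : ℝ) ^ 2 := by push_cast; ring
      have k4 : ∑ z ∈ W2, (if z.1 - z.2 ∈ Dp then (c.n : ℝ) else 0) ≤
          c.n * ∑ x ∈ Dp, ((S (c.C t) x).card : ℝ) := by
        rw [← Finset.sum_filter, sum_const, nsmul_eq_mul, mul_comm]
        apply mul_le_mul_of_nonneg_left _ hn.le
        have h5 : (W2.filter (fun z => z.1 - z.2 ∈ Dp)).card =
            ∑ x ∈ Dp, ((W2.filter (fun z => z.1 - z.2 ∈ Dp)).filter
              (fun z => z.1 - z.2 = x)).card := by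
          apply card_eq_sum_card_fiberwise
          intro z hz
          exact (mem_filter.mp hz).2
        rw [h5]
        push_cast
        refine sum_le_sum fun x _ => ?_
        norm_cast
        refine Finset.card_le_card_of_injOn (fun z => z.1) ?_ ?_
        · rintro ⟨a, b⟩ hz
          have hz' : (a, b) ∈ (W2.filter (fun z => z.1 - z.2 ∈ Dp)).filter
              (fun z => z.1 - z.2 = x) := hz
          rw [mem_filter, mem_filter, hW2, mem_product, mem_inter, mem_inter] at hz'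
          obtain ⟨⟨⟨⟨ha, _⟩, hb, _⟩, _⟩, hx⟩ := hz'
          simp only at ha hb hx
          have : a ∈ S (c.C t) x := by
            rw [S, mem_filter]
            refine ⟨ha, ?_⟩
            rw [← hx]; simpa using hb
          exact this
        · rintro ⟨a, b⟩ hz ⟨a', b'⟩ hz2 h
          have hz' : (a, b) ∈ (W2.filter (fun z => z.1 - z.2 ∈ Dp)).filter
              (fun z => z.1 - z.2 = x) := hz
          have hz2' : (a', b') ∈ (W2.filter (fun z => z.1 - z.2 ∈ Dp)).filter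
              (fun z => z.1 - z.2 = x) := hz2
          have h6 := (mem_filter.mp hz').2
          have h7 := (mem_filter.mp hz2').2
          simp only at h h6 h7
          subst h
          have : b = b' := by linarith
          rw [this]
      linarith
    have h2 := hG.trans (sum_le_sum hbd)
    rw [sum_add_distrib, sum_add_distrib, sum_add_distrib, sum_const, sum_const, card_range,
      nsmul_eq_mul, nsmul_eq_mul, ← mul_sum, ← mul_sum] at h2
    have h3 := sparse' c hb P (by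
      intro z hz
      rw [hP, mem_filter, mem_product] at hz
      exact ⟨c.As_sub hz.1.1, c.As_sub hz.1.2, hz.2.1⟩) W hW
    set Sg := ∑ t ∈ range c.M, (((c.C t ×ˢ c.C t) ∩ P).card : ℝ) with hSg
    have h4 : (c.n : ℝ) * ∑ t ∈ range c.M, ∑ x ∈ Dp, ((S (c.C t) x).card : ℝ) ≤
        c.M * (G / 4) := by
      calc (c.n : ℝ) * ∑ t ∈ range c.M, ∑ x ∈ Dp, ((S (c.C t) x).card : ℝ) ≤
          c.n * (c.M * H) := mul_le_mul_of_nonneg_left hH hn.le
        _ = c.M * (c.n * H) := by ring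
        _ ≤ c.M * (G / 4) := mul_le_mul_of_nonneg_left hH2 hM.le
    have h5 : (c.M : ℝ) * (c.K * c.n) ≤ c.M * (G / 8) := mul_le_mul_of_nonneg_left hdiag hM.le
    have h6 : (c.M : ℝ) * ((c.K : ℝ) ^ 2 * κ) ≤ c.M * (G / 8) :=
      mul_le_mul_of_nonneg_left hκ hM.le
    have h7 : (c.M : ℝ) * G / 2 ≤ c.n * Sg := by linarith
    set Z : ℝ := W * P.card + q ^ 2 * (c.n : ℝ) ^ 2 / W with hZ
    have h8 : (c.K : ℝ) * (c.M * G / 2) ≤ c.n * ((c.M : ℝ) / c.n * (33 * Z)) := by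
      calc (c.K : ℝ) * (c.M * G / 2) ≤ c.K * (c.n * Sg) :=
            mul_le_mul_of_nonneg_left h7 (Nat.cast_nonneg _)
        _ = c.n * (c.K * Sg) := by ring
        _ ≤ _ := mul_le_mul_of_nonneg_left h3 hn.le
    have h9 : c.n * ((c.M : ℝ) / c.n * (33 * Z)) = c.M * (33 * Z) := by
      field_simp
    rw [h9] at h8
    have h10 : (c.M : ℝ) * (c.K * G) ≤ c.M * (66 * Z) := by linarith
    exact le_of_mul_le_mul_left h10 hM

end Pool.Agent.MP_741d1b.All
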