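import Mathlib
import Pool.Agent.Lib.MP_741d1b_nt_all.Nb
import Pool.Agent.Lib.MP_741d1b_nt_h87.T3Line

/-!
Row C2a: differences in a cluster, one multiplier.
-/

set_option autoImplicit false

namespace Pool.Agent.MP_741d1b.All

open Finset Classical
open Pool.Agent.MP_741d1b.H87

/-- Nonflat pairs of representations of `x` in a cluster. -/
noncomputable def NF (c : Ctx) (t : ℕ) (x : ℤ) : Finset (ℤ × ℤ) :=
  ((S (c.C t) x) ×ˢ (S (c.C t) x)).filter (fun z => c.dt t z.1 (z.1 - x) z.2 ≠ 0)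

/-- Flat near pairs of elements of `D`. -/
noncomputable def Fl (c : Ctx) (D : Finset ℤ) (t : ℕ) : Finset (ℤ × ℤ) :=
  (D ×ˢ D).filter (fun z => ∃ X Y : ℤ, NI c.M c.n t z.1 X ∧ NI c.M c.n t z.2 Y ∧
    z.1 * Y - z.2 * X = 0)

/-- The second coordinate of the difference `x`. -/
private noncomputable def C2a_kap (c : Ctx) (t : ℕ) (x : ℤ) : ℤ :=
  if h : (S (c.C t) x).Nonempty then c.k t h.choose - c.k t (h.choose - x) else 0

private noncomputable def C2a_phi (c : Ctx) (t : ℕ) (x a : ℤ) : ℤ :=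
  x * c.k t a - C2a_kap c t x * a

/-- One class is large. -/
private def C2a_B (c : Ctx) (t : ℕ) (x : ℤ) : Prop :=
  ∃ v, (S (c.C t) x).card < 2 * ((S (c.C t) x).filter (fun a => C2a_phi c t x a = v)).card

private noncomputable def C2a_v (c : Ctx) (t : ℕ) (x : ℤ) : ℤ :=
  if h : C2a_B c t x then h.choose else 0

/-- The main line. -/
private noncomputable def C2a_ell (c : Ctx) (t : ℕ) (x : ℤ) : Finset ℤ :=
  (c.C t).filter (fun a => C2a_phi c t x a = C2a_v c t x)

/-- The main class. -/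
private noncomputable def C2a_cl (c : Ctx) (t : ℕ) (x : ℤ) : Finset ℤ :=
  (S (c.C t) x).filter (fun a => C2a_phi c t x a = C2a_v c t x)

private theorem C2a_mem_S {A : Finset ℤ} {x a : ℤ} : a ∈ S A x ↔ a ∈ A ∧ a - x ∈ A := by
  unfold S
  rw [mem_filter]

private theorem C2a_ni (c : Ctx) {t : ℕ} {x a : ℤ} (ha : a ∈ S (c.C t) x) :
    NI c.M c.n t x (c.k t a - c.k t (a - x)) := by
  obtain ⟨h1, h2⟩ := C2a_mem_S.mp ha
  have h3 := c.ni h1 h2
  have e : a - (a - x) = x := by ring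
  rwa [e] at h3

private theorem C2a_kap_eq (c : Ctx) {t : ℕ} {x a : ℤ} (ha : a ∈ S (c.C t) x) :
    c.k t a - c.k t (a - x) = C2a_kap c t x := by
  have h : (S (c.C t) x).Nonempty := ⟨a, ha⟩
  unfold C2a_kap
  rw [dif_pos h]
  exact NI.unique c.hM.pos c.hn (C2a_ni c ha) (C2a_ni c h.choose_spec)

private theorem C2a_kap_ni (c : Ctx) {t : ℕ} {x a : ℤ} (ha : a ∈ S (c.C t) x) :
    NI c.M c.n t x (C2a_kap c t x) := by
  rw [← C2a_kap_eq c ha]
  exact C2a_ni c ha

private theorem C2a_dt (c : Ctx) {t : ℕ} {x a : ℤ} (ha : a ∈ S (c.C t) x) (b : ℤ) :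
    c.dt t a (a - x) b = C2a_phi c t x a - C2a_phi c t x b := by
  unfold Ctx.dt C2a_phi
  rw [C2a_kap_eq c ha]
  ring

private theorem C2a_caseA (c : Ctx) (t : ℕ) (x : ℤ) (l : ℝ) (hl : 0 < l)
    (hA : ¬ C2a_B c t x) :
    ((S (c.C t) x).card : ℝ) ≤ l / 2 * (if Near c.M c.n t x then ((S c.A x).card : ℝ) else 0) +
      ((NF c t x).card : ℝ) / ((S c.A x).card : ℝ) / l := by
  rcases Nat.eq_zero_or_pos (S (c.C t) x).card with h0 | hpos
  · rw [h0]
    have h2 : (0 : ℝ) ≤ (if Near c.M c.n t x then ((S c.A x).card : ℝ) else 0) := by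
      split_ifs
      · exact Nat.cast_nonneg _
      · exact le_refl _
    have : 0 ≤ ((NF c t x).card : ℝ) / ((S c.A x).card : ℝ) / l := by positivity
    have h3 : 0 ≤ l / 2 * (if Near c.M c.n t x then ((S c.A x).card : ℝ) else 0) :=
      mul_nonneg (by positivity) h2
    push_cast
    linarith
  · obtain ⟨a, ha⟩ := card_pos.mp hpos
    have hNx : Near c.M c.n t x := (C2a_ni c ha).near
    rw [if_pos hNx]
    have hsub : S (c.C t) x ⊆ S c.A x := by
      intro b hb
      obtain ⟨h1, h2⟩ := C2a_mem_S.mp hb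
      exact C2a_mem_S.mpr ⟨c.hCA t h1, c.hCA t h2⟩
    have hr : 0 < (S c.A x).card := lt_of_lt_of_le hpos (card_le_card hsub)
    have hr' : (0 : ℝ) < (S c.A x).card := by exact_mod_cast hr
    -- pairs in one class
    have hflat : 2 * (((S (c.C t) x) ×ˢ (S (c.C t) x)).filter
        (fun z => ¬ c.dt t z.1 (z.1 - x) z.2 ≠ 0)).card ≤
        (S (c.C t) x).card * (S (c.C t) x).card := by
      have h1 : (((S (c.C t) x) ×ˢ (S (c.C t) x)).filter
          (fun z => ¬ c.dt t z.1 (z.1 - x) z.2 ≠ 0)).card =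
          ∑ a ∈ S (c.C t) x, ((S (c.C t) x).filter
            (fun b => C2a_phi c t x b = C2a_phi c t x a)).card := by
        rw [card_filter, sum_product]
        refine sum_congr rfl fun a ha' => ?_
        rw [card_filter]
        refine sum_congr rfl fun b _ => ?_
        have h2 : (¬ c.dt t a (a - x) b ≠ 0) ↔ C2a_phi c t x b = C2a_phi c t x a := by
          rw [not_not, C2a_dt c ha', sub_eq_zero]
          exact eq_comm
        exact if_congr h2 rfl rfl
      rw [h1, mul_sum]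
      calc ∑ a ∈ S (c.C t) x, 2 * ((S (c.C t) x).filter
            (fun b => C2a_phi c t x b = C2a_phi c t x a)).card
          ≤ ∑ a ∈ S (c.C t) x, (S (c.C t) x).card := by
            refine sum_le_sum fun a _ => ?_
            by_contra hn
            exact hA ⟨C2a_phi c t x a, not_le.mp hn⟩
        _ = (S (c.C t) x).card * (S (c.C t) x).card := by rw [sum_const, smul_eq_mul]
    have htot := card_filter_add_card_filter_not
      (s := (S (c.C t) x) ×ˢ (S (c.C t) x)) (fun z : ℤ × ℤ => c.dt t z.1 (z.1 - x) z.2 ≠ 0)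
    rw [card_product] at htot
    have hNF : (S (c.C t) x).card * (S (c.C t) x).card ≤ 2 * (NF c t x).card := by
      unfold NF
      omega
    have hNF' : ((S (c.C t) x).card : ℝ) ^ 2 ≤ 2 * ((NF c t x).card : ℝ) := by
      have : (((S (c.C t) x).card * (S (c.C t) x).card : ℕ) : ℝ) ≤
          ((2 * (NF c t x).card : ℕ) : ℝ) := by exact_mod_cast hNF
      push_cast at this
      linarith [sq ((S (c.C t) x).card : ℝ)]
    set ρ : ℝ := ((S (c.C t) x).card : ℝ) with hρ
    set r : ℝ := ((S c.A x).card : ℝ) with hrr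
    have h4 : ρ ^ 2 / 2 / r / l ≤ ((NF c t x).card : ℝ) / r / l := by
      gcongr
      linarith
    have h5 : ρ ≤ l / 2 * r + ρ ^ 2 / 2 / r / l := by
      have h6 : l / 2 * r + ρ ^ 2 / 2 / r / l - ρ = (l * r - ρ) ^ 2 / (2 * l * r) := by
        field_simp
        ring
      have h7 : 0 ≤ (l * r - ρ) ^ 2 / (2 * l * r) := by positivity
      linarith
    linarith

private theorem C2a_rho_cl (c : Ctx) {t : ℕ} {x : ℤ} (hB : C2a_B c t x) :
    (S (c.C t) x).card < 2 * (C2a_cl c t x).card := by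
  unfold C2a_cl C2a_v
  rw [dif_pos hB]
  exact hB.choose_spec

private theorem C2a_cl_ell (c : Ctx) (t : ℕ) (x : ℤ) : C2a_cl c t x ⊆ C2a_ell c t x := by
  intro a ha
  obtain ⟨h1, h2⟩ := mem_filter.mp ha
  exact mem_filter.mpr ⟨(C2a_mem_S.mp h1).1, h2⟩

/-- Two points of the main line. -/
private theorem C2a_two (c : Ctx) {t : ℕ} {x : ℤ} (hx : x ≠ 0) (hB : C2a_B c t x) :
    ∃ a ∈ S (c.C t) x, a ∈ C2a_ell c t x ∧ a - x ∈ C2a_ell c t x ∧ a ≠ a - x := by
  have h1 := C2a_rho_cl c hB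
  have h2 : 0 < (C2a_cl c t x).card := by omega
  obtain ⟨a, ha⟩ := card_pos.mp h2
  have ha' := C2a_cl_ell c t x ha
  obtain ⟨hS, hphi⟩ := mem_filter.mp ha
  refine ⟨a, hS, ha', ?_, ?_⟩
  · refine mem_filter.mpr ⟨(C2a_mem_S.mp hS).2, ?_⟩
    rw [← hphi]
    unfold C2a_phi
    have h3 := C2a_kap_eq c hS
    have h4 : c.k t (a - x) = c.k t a - C2a_kap c t x := by linarith
    rw [h4]
    ring
  · intro h
    apply hx
    linarith

private theorem C2a_slope (c : Ctx) {t : ℕ} {x a b : ℤ} (ha : a ∈ C2a_ell c t x)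
    (hb : b ∈ C2a_ell c t x) :
    x * (c.k t a - c.k t b) = C2a_kap c t x * (a - b) := by
  have h1 := (mem_filter.mp ha).2
  have h2 := (mem_filter.mp hb).2
  unfold C2a_phi at h1 h2
  linarith

private theorem C2a_ell_eq (c : Ctx) {t : ℕ} {x a b : ℤ} (hx : x ≠ 0) (hab : a ≠ b)
    (ha : a ∈ C2a_ell c t x) (hb : b ∈ C2a_ell c t x) :
    C2a_ell c t x = (c.C t).filter
      (fun d => (a - b) * (c.k t d - c.k t a) = (c.k t a - c.k t b) * (d - a)) := by
  have hs := C2a_slope c ha hb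
  have hab' : a - b ≠ 0 := sub_ne_zero.mpr hab
  have h1 := (mem_filter.mp ha).2
  ext d
  constructor
  · intro hd
    have hd' := C2a_slope c hd ha
    refine mem_filter.mpr ⟨(mem_filter.mp hd).1, ?_⟩
    have h2 : x * ((a - b) * (c.k t d - c.k t a)) = x * ((c.k t a - c.k t b) * (d - a)) := by
      calc x * ((a - b) * (c.k t d - c.k t a)) = (a - b) * (x * (c.k t d - c.k t a)) := by ring
        _ = (a - b) * (C2a_kap c t x * (d - a)) := by rw [hd']
        _ = (C2a_kap c t x * (a - b)) * (d - a) := by ring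
        _ = (x * (c.k t a - c.k t b)) * (d - a) := by rw [hs]
        _ = _ := by ring
    exact mul_left_cancel₀ hx h2
  · intro hd
    obtain ⟨hdC, hd'⟩ := mem_filter.mp hd
    refine mem_filter.mpr ⟨hdC, ?_⟩
    rw [← h1]
    unfold C2a_phi
    have h2 : (a - b) * (x * (c.k t d - c.k t a)) = (a - b) * (C2a_kap c t x * (d - a)) := by
      calc (a - b) * (x * (c.k t d - c.k t a)) = x * ((a - b) * (c.k t d - c.k t a)) := by ring
        _ = x * ((c.k t a - c.k t b) * (d - a)) := by rw [hd']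
        _ = (x * (c.k t a - c.k t b)) * (d - a) := by ring
        _ = (C2a_kap c t x * (a - b)) * (d - a) := by rw [hs]
        _ = _ := by ring
    have h3 := mul_left_cancel₀ hab' h2
    linarith

private theorem C2a_flat (c : Ctx) {t : ℕ} {x y : ℤ} (hx : x ≠ 0) (hy : y ≠ 0)
    (hBx : C2a_B c t x) (hBy : C2a_B c t y) (h : C2a_ell c t x = C2a_ell c t y) :
    ∃ X Y : ℤ, NI c.M c.n t x X ∧ NI c.M c.n t y Y ∧ x * Y - y * X = 0 := by
  obtain ⟨a, haS, ha, hb, hab⟩ := C2a_two c hx hBx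
  obtain ⟨a', haS', -, -, -⟩ := C2a_two c hy hBy
  refine ⟨C2a_kap c t x, C2a_kap c t y, C2a_kap_ni c haS, C2a_kap_ni c haS', ?_⟩
  have h1 := C2a_slope c ha hb
  rw [h] at ha hb
  have h2 := C2a_slope c ha hb
  have hab' : a - (a - x) ≠ 0 := sub_ne_zero.mpr hab
  have h3 : (x * C2a_kap c t y) * (a - (a - x)) = (y * C2a_kap c t x) * (a - (a - x)) := by
    calc (x * C2a_kap c t y) * (a - (a - x)) = x * (C2a_kap c t y * (a - (a - x))) := by ring
      _ = x * (y * (c.k t a - c.k t (a - x))) := by rw [h2]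
      _ = y * (x * (c.k t a - c.k t (a - x))) := by ring
      _ = y * (C2a_kap c t x * (a - (a - x))) := by rw [h1]
      _ = _ := by ring
  have h4 := mul_right_cancel₀ hab' h3
  linarith

/- PROOF. Fix t, C = C t, k = k t. For x ∈ D with ρ x = card (S C x) > 0: for a ∈ S C x the integer
κ x = k a - k (a - x) does not depend on a (c.ni and NI.unique, n ≥ 3), and NI M n t x (κ x), so
Near M n t x. Put φ x a = x * k a - κ x * a. For a ∈ S C x: dt t a (a - x) b = φ x a - φ x b.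
Case A: every class {a ∈ S C x : φ x a = v} has at most ρ x / 2 elements. Then the pairs with equal φ
are at most ρ² / 2, so card (NF x) ≥ ρ² / 2 and ρ ≤ (l / 2) r + ρ² / (2 l r) ≤ (l / 2) r +
card (NF x) / r / l with r = card (S A x) > 0 (as in H87.rho_le): first two terms.
Case B: there is v = v x whose class has more than ρ x / 2 elements. Let ℓ x = {a ∈ C : φ x a = v x}
(Finset ℤ, the main line) and ρ' x = card {a ∈ S C x : φ x a = v x} > ρ x / 2. If a is in the class so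
is a - x ∈ C (φ x (a - x) = φ x a because k (a - x) = k a - κ x), so card ℓ ≥ 2, ρ' x ≤ card ℓ.
(1) If a ≠ b are both in ℓ x and in ℓ y, then ℓ x = ℓ y (x (k a - k b) = κ x (a - b), the same for y;
both lines are {d ∈ C : (a - b) (k d - k a) = (k a - k b) (d - a)}), hence the sets offDiag (ℓ),
ℓ in the image of x ↦ ℓ x, are pairwise disjoint subsets of C.offDiag and
∑ ℓ, card ℓ (card ℓ - 1) ≤ K². (2) If ℓ x = ℓ y then x κ y = y κ x (take a ≠ b in the line), so
(x, y) ∈ Fl. Group the x of case B by ℓ: D_ℓ. If ∑ x ∈ D_ℓ, ρ' x ≤ L (L - 1) / lam (L = card ℓ): the sum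
over such ℓ is at most K² / lam. Otherwise L (L - 1) / lam < card D_ℓ * L, so L - 1 < lam card D_ℓ,
L ≤ 2 (L - 1) ≤ 2 lam card D_ℓ, ∑ x ∈ D_ℓ, ρ' x ≤ L card D_ℓ ≤ 2 lam (card D_ℓ)², and
∑ ℓ, (card D_ℓ)² ≤ card (Fl). With ρ ≤ 2 ρ': case B gives 2 K² / lam + 4 lam card (Fl). -/
theorem pop_t (c : Ctx) (t : ℕ) (D : Finset ℤ) (hD0 : ∀ x ∈ D, x ≠ 0) (l lam : ℝ) (hl : 0 < l)
    (hlam : 0 < lam) :
    ∑ x ∈ D, ((S (c.C t) x).card : ℝ) ≤ l / 2 * f1 c.A D (Near c.M c.n t) +
      (∑ x ∈ D, ((NF c t x).card : ℝ) / ((S c.A x).card : ℝ)) / l + 2 * (c.K : ℝ) ^ 2 / lam +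
      4 * lam * ((Fl c D t).card : ℝ) := by
  set DB := D.filter (fun x => C2a_B c t x) with hDB
  have hDBm : ∀ x ∈ DB, x ∈ D ∧ x ≠ 0 ∧ C2a_B c t x := by
    intro x hx
    obtain ⟨h1, h2⟩ := mem_filter.mp hx
    exact ⟨h1, hD0 x h1, h2⟩
  -- the lines
  set LL := DB.image (C2a_ell c t) with hLL
  have hLcard : ∀ L ∈ LL, 2 ≤ L.card := by
    intro L hL
    obtain ⟨x, hx, rfl⟩ := mem_image.mp hL
    obtain ⟨-, hx0, hB⟩ := hDBm x hx
    obtain ⟨a, -, ha, hb, hab⟩ := C2a_two c hx0 hB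
    have : 1 < (C2a_ell c t x).card := Finset.one_lt_card.mpr ⟨a, ha, a - x, hb, hab⟩
    omega
  have hLsum : ∑ L ∈ LL, (L.card : ℝ) * ((L.card : ℝ) - 1) ≤ (c.K : ℝ) ^ 2 := by
    have h1 : ∑ L ∈ LL, L.offDiag.card ≤ c.K * c.K := by
      rw [← card_biUnion]
      · have h2 : LL.biUnion (fun L => L.offDiag) ⊆ (c.C t) ×ˢ (c.C t) := by
          intro z hz
          obtain ⟨L, hL, hz'⟩ := mem_biUnion.mp hz
          obtain ⟨x, hx, rfl⟩ := mem_image.mp hL
          obtain ⟨h3, h4, -⟩ := mem_offDiag.mp hz'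
          exact mem_product.mpr ⟨(mem_filter.mp h3).1, (mem_filter.mp h4).1⟩
        refine (card_le_card h2).trans ?_
        rw [card_product, c.hCK t]
      · intro L hL L' hL' hne
        rw [Function.onFun, Finset.disjoint_left]
        intro z hz hz'
        apply hne
        obtain ⟨x, hx, rfl⟩ := mem_image.mp hL
        obtain ⟨y, hy, rfl⟩ := mem_image.mp hL'
        obtain ⟨h3, h4, h5⟩ := mem_offDiag.mp hz
        obtain ⟨h6, h7, -⟩ := mem_offDiag.mp hz'
        rw [C2a_ell_eq c (hDBm x hx).2.1 h5 h3 h4, C2a_ell_eq c (hDBm y hy).2.1 h5 h6 h7]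
    have h2 : ∑ L ∈ LL, (L.card : ℝ) * ((L.card : ℝ) - 1) = ((∑ L ∈ LL, L.offDiag.card : ℕ) : ℝ) := by
      push_cast
      refine sum_congr rfl fun L hL => ?_
      rw [offDiag_card, Nat.cast_sub (Nat.le_mul_self _)]
      push_cast
      ring
    rw [h2]
    calc ((∑ L ∈ LL, L.offDiag.card : ℕ) : ℝ) ≤ ((c.K * c.K : ℕ) : ℝ) := by exact_mod_cast h1
      _ = (c.K : ℝ) ^ 2 := by push_cast; ring
  have hFl : ∑ L ∈ LL, ((DB.filter (fun x => C2a_ell c t x = L)).card : ℝ) ^ 2 ≤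
      ((Fl c D t).card : ℝ) := by
    have h1 : ∑ L ∈ LL, ((DB.filter (fun x => C2a_ell c t x = L)) ×ˢ
        (DB.filter (fun x => C2a_ell c t x = L))).card ≤ (Fl c D t).card := by
      rw [← card_biUnion]
      · apply card_le_card
        intro z hz
        obtain ⟨L, hL, hz'⟩ := mem_biUnion.mp hz
        obtain ⟨h2, h3⟩ := mem_product.mp hz'
        obtain ⟨h4, h5⟩ := mem_filter.mp h2
        obtain ⟨h6, h7⟩ := mem_filter.mp h3
        obtain ⟨h8, h9, h10⟩ := hDBm _ h4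
        obtain ⟨h11, h12, h13⟩ := hDBm _ h6
        exact mem_filter.mpr ⟨mem_product.mpr ⟨h8, h11⟩,
          C2a_flat c h9 h12 h10 h13 (h5.trans h7.symm)⟩
      · intro L hL L' hL' hne
        rw [Function.onFun, Finset.disjoint_left]
        intro z hz hz'
        apply hne
        have h2 := (mem_filter.mp (mem_product.mp hz).1).2
        have h3 := (mem_filter.mp (mem_product.mp hz').1).2
        rw [← h2, ← h3]
    have h2 : ∑ L ∈ LL, ((DB.filter (fun x => C2a_ell c t x = L)).card : ℝ) ^ 2 =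
        ((∑ L ∈ LL, ((DB.filter (fun x => C2a_ell c t x = L)) ×ˢ
        (DB.filter (fun x => C2a_ell c t x = L))).card : ℕ) : ℝ) := by
      push_cast
      refine sum_congr rfl fun L _ => ?_
      rw [card_product]
      push_cast
      ring
    rw [h2]
    exact_mod_cast h1
  -- one line
  have hone : ∀ L ∈ LL, ∑ x ∈ DB.filter (fun x => C2a_ell c t x = L), ((C2a_cl c t x).card : ℝ) ≤
      (L.card : ℝ) * ((L.card : ℝ) - 1) / lam +
        2 * lam * ((DB.filter (fun x => C2a_ell c t x = L)).card : ℝ) ^ 2 := by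
    intro L hL
    set DL := DB.filter (fun x => C2a_ell c t x = L) with hDL
    have hL2 : (2 : ℝ) ≤ (L.card : ℝ) := by exact_mod_cast hLcard L hL
    have h1 : ∑ x ∈ DL, ((C2a_cl c t x).card : ℝ) ≤ (DL.card : ℝ) * L.card := by
      rw [← nsmul_eq_mul, ← sum_const]
      refine sum_le_sum fun x hx => ?_
      have h2 := (mem_filter.mp hx).2
      rw [← h2]
      exact_mod_cast card_le_card (C2a_cl_ell c t x)
    have hDL0 : (0 : ℝ) ≤ DL.card := Nat.cast_nonneg _
    by_cases hcase : ∑ x ∈ DL, ((C2a_cl c t x).card : ℝ) ≤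
        (L.card : ℝ) * ((L.card : ℝ) - 1) / lam
    · have : 0 ≤ 2 * lam * (DL.card : ℝ) ^ 2 := by positivity
      linarith
    · push Not at hcase
      have h2 : (L.card : ℝ) * ((L.card : ℝ) - 1) / lam < (DL.card : ℝ) * L.card :=
        lt_of_lt_of_le hcase h1
      rw [div_lt_iff₀ hlam] at h2
      have h3 : (L.card : ℝ) - 1 < lam * DL.card := by
        by_contra hn
        push Not at hn
        have h4 := mul_le_mul_of_nonneg_left hn (by linarith : (0 : ℝ) ≤ (L.card : ℝ))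
        linarith [mul_comm (L.card : ℝ) (lam * DL.card), mul_comm (DL.card : ℝ) (L.card : ℝ),
          mul_assoc lam (DL.card : ℝ) (L.card : ℝ), mul_comm ((DL.card : ℝ) * L.card) lam]
      have h5 : (L.card : ℝ) ≤ 2 * (lam * DL.card) := by linarith
      have h6 : (DL.card : ℝ) * L.card ≤ DL.card * (2 * (lam * DL.card)) :=
        mul_le_mul_of_nonneg_left h5 hDL0
      have h7 : 0 ≤ (L.card : ℝ) * ((L.card : ℝ) - 1) / lam := by
        apply div_nonneg _ hlam.le
        apply mul_nonneg <;> linarith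
      have h8 : (DL.card : ℝ) * (2 * (lam * DL.card)) = 2 * lam * (DL.card : ℝ) ^ 2 := by ring
      linarith
  -- all lines
  have hB : ∑ x ∈ DB, ((C2a_cl c t x).card : ℝ) ≤
      (c.K : ℝ) ^ 2 / lam + 2 * lam * ((Fl c D t).card : ℝ) := by
    rw [← sum_fiberwise_of_maps_to (s := DB) (t := LL) (g := C2a_ell c t)
      (fun x hx => mem_image_of_mem _ hx)]
    refine (sum_le_sum hone).trans ?_
    rw [sum_add_distrib, ← sum_div, ← mul_sum]
    have h1 : (∑ L ∈ LL, (L.card : ℝ) * ((L.card : ℝ) - 1)) / lam ≤ (c.K : ℝ) ^ 2 / lam :=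
      div_le_div_of_nonneg_right hLsum hlam.le
    have h2 := mul_le_mul_of_nonneg_left hFl (by positivity : (0 : ℝ) ≤ 2 * lam)
    linarith
  -- everything
  have hx : ∀ x ∈ D, ((S (c.C t) x).card : ℝ) ≤
      l / 2 * (if Near c.M c.n t x then ((S c.A x).card : ℝ) else 0) +
      ((NF c t x).card : ℝ) / ((S c.A x).card : ℝ) / l +
      (if C2a_B c t x then 2 * ((C2a_cl c t x).card : ℝ) else 0) := by
    intro x hxD
    by_cases hBx : C2a_B c t x
    · rw [if_pos hBx]
      have h1 : ((S (c.C t) x).card : ℝ) ≤ 2 * ((C2a_cl c t x).card : ℝ) := by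
        exact_mod_cast (C2a_rho_cl c hBx).le
      have h2 : (0 : ℝ) ≤ (if Near c.M c.n t x then ((S c.A x).card : ℝ) else 0) := by
        split_ifs
        · exact Nat.cast_nonneg _
        · exact le_refl _
      have h3 : 0 ≤ l / 2 * (if Near c.M c.n t x then ((S c.A x).card : ℝ) else 0) :=
        mul_nonneg (by positivity) h2
      have h4 : 0 ≤ ((NF c t x).card : ℝ) / ((S c.A x).card : ℝ) / l := by positivity
      linarith
    · rw [if_neg hBx, add_zero]
      exact C2a_caseA c t x l hl hBx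
  refine (sum_le_sum hx).trans ?_
  have e3 : ∑ x ∈ D, (if C2a_B c t x then 2 * ((C2a_cl c t x).card : ℝ) else 0) =
      2 * ∑ x ∈ DB, ((C2a_cl c t x).card : ℝ) := by
    rw [mul_sum, hDB, sum_filter]
  rw [sum_add_distrib, sum_add_distrib, ← mul_sum, ← sum_div, e3]
  unfold f1
  have h1 : 2 * ∑ x ∈ DB, ((C2a_cl c t x).card : ℝ) ≤
      2 * (c.K : ℝ) ^ 2 / lam + 4 * lam * ((Fl c D t).card : ℝ) := by
    have e : 2 * (c.K : ℝ) ^ 2 / lam = 2 * ((c.K : ℝ) ^ 2 / lam) := by ring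
    rw [e]
    linarith
  linarith

end Pool.Agent.MP_741d1b.All
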