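import Mathlib
import Pool.Agent.Lib.MP_741d1b_nt_all.CPop

/-!
Row C2b: differences in the clusters, expectations.
-/

set_option autoImplicit false

namespace Pool.Agent.MP_741d1b.All

open Finset Classical
open Pool.Agent.MP_741d1b.H87
open scoped Pointwise

/-- One difference. -/
private theorem c2b_NF_x (c : Ctx) {x : ℤ} (hx : x ∈ c.A - c.A) (hx0 : x ≠ 0) :
    ∑ t ∈ range c.M, ((NF c t x).card : ℝ) ≤
      ((S c.A x).card : ℝ) ^ 2 * (12 * c.M / (c.n * c.n)) := by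
  have hxM : (c.n : ℤ) * |x| < c.M := by
    obtain ⟨a, ha, b, hb, rfl⟩ := mem_sub.mp hx
    exact c.sub_lt ha hb
  have hsub : ∀ t, S (c.C t) x ⊆ S c.A x := by
    intro t a ha
    rw [S, mem_filter] at ha ⊢
    exact ⟨c.hCA t ha.1, c.hCA t ha.2⟩
  have h1 : ∀ t, NF c t x = ((S c.A x) ×ˢ (S c.A x)).filter (fun z => z ∈ NF c t x) := by
    intro t
    ext z
    rw [mem_filter]
    refine ⟨fun h => ⟨?_, h⟩, fun h => h.2⟩
    have h2 := (mem_filter.mp h).1
    rw [mem_product] at h2 ⊢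
    exact ⟨hsub t h2.1, hsub t h2.2⟩
  have h2 : ∀ t, ((NF c t x).card : ℝ) =
      ∑ z ∈ (S c.A x) ×ˢ (S c.A x), if z ∈ NF c t x then (1 : ℝ) else 0 := by
    intro t
    conv_lhs => rw [h1 t]
    rw [card_filter]
    push_cast
    rfl
  have h3 : ∀ z ∈ (S c.A x) ×ˢ (S c.A x), ∑ t ∈ range c.M,
      (if z ∈ NF c t x then (1 : ℝ) else 0) ≤ 12 * c.M / (c.n * c.n) := by
    intro z hz
    rw [mem_product] at hz
    have hz1 : z.1 ∈ c.A := (mem_filter.mp hz.1).1
    have hz2 : z.2 ∈ c.A := (mem_filter.mp hz.2).1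
    rw [sum_ite_card (fun t => z ∈ NF c t x) 1, mul_one]
    by_cases hab : z.1 = z.2
    · have he : (range c.M).filter (fun t => z ∈ NF c t x) = ∅ := by
        apply filter_false_of_mem
        intro t _ ht
        apply (mem_filter.mp ht).2
        show c.dt t z.1 (z.1 - x) z.2 = 0
        unfold Ctx.dt
        rw [← hab]
        ring
      rw [he]
      simp only [card_empty, Nat.cast_zero]
      positivity
    · refine le_trans ?_ (pair_noncol c.hM c.n_pos c.n_pos hx0 (sub_ne_zero.mpr hab) hxM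
        (c.sub_lt hz1 hz2))
      apply Nat.cast_le.mpr
      apply card_le_card
      intro t ht
      rw [mem_filter] at ht ⊢
      refine ⟨ht.1, ?_⟩
      have h4 := mem_filter.mp ht.2
      have h5 := mem_product.mp h4.1
      have h6 := mem_filter.mp h5.1
      have h7 := mem_filter.mp h5.2
      have e1 : z.1 - (z.1 - x) = x := by ring
      have n1 := c.ni h6.1 h6.2
      rw [e1] at n1
      refine ⟨_, _, n1, c.ni h6.1 h7.1, ?_⟩
      have h8 := h4.2
      unfold Ctx.dt at h8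
      rw [e1] at h8
      exact h8
  calc ∑ t ∈ range c.M, ((NF c t x).card : ℝ)
      = ∑ t ∈ range c.M, ∑ z ∈ (S c.A x) ×ˢ (S c.A x),
          (if z ∈ NF c t x then (1 : ℝ) else 0) := sum_congr rfl fun t _ => h2 t
    _ = ∑ z ∈ (S c.A x) ×ˢ (S c.A x), ∑ t ∈ range c.M,
          (if z ∈ NF c t x then (1 : ℝ) else 0) := sum_comm
    _ ≤ ∑ z ∈ (S c.A x) ×ˢ (S c.A x), (12 * (c.M : ℝ) / (c.n * c.n)) := sum_le_sum h3
    _ = _ := by
        rw [sum_const, nsmul_eq_mul, card_product]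
        push_cast
        ring

/- PROOF. NF c t x ⊆ S A x ×ˢ S A x; for fixed (a, b) in this set with a ≠ b the multipliers t with
(a, b) ∈ NF satisfy: a, a - x, b ∈ C t, so NI M n t x (k a - k (a - x)), NI M n t (a - b) (k a - k b) and
the determinant is dt ≠ 0: pair_noncol gives at most 12 M / n² (a = b is never in NF). So
∑ t ∑ x ∈ D, card NF / r ≤ ∑ x, r² * 12 M / n² / r ≤ 12 M / n² * ∑ x ∈ D, r x ≤ 12 M (sum_card_S_le). -/
theorem exp_NF (c : Ctx) (D : Finset ℤ) (hD : D ⊆ c.A - c.A) (hD0 : ∀ x ∈ D, x ≠ 0) :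
    ∑ t ∈ range c.M, ∑ x ∈ D, ((NF c t x).card : ℝ) / ((S c.A x).card : ℝ) ≤ 12 * c.M := by
  have hn := c.n_pos'
  rw [sum_comm]
  have h1 : ∀ x ∈ D, ∑ t ∈ range c.M, ((NF c t x).card : ℝ) / ((S c.A x).card : ℝ) ≤
      12 * c.M / (c.n * c.n) * ((S c.A x).card : ℝ) := by
    intro x hx
    rw [← sum_div]
    have h2 := c2b_NF_x c (hD hx) (hD0 x hx)
    rcases Nat.eq_zero_or_pos (S c.A x).card with h0 | h0
    · rw [h0]
      simp
    · have h0' : (0 : ℝ) < ((S c.A x).card : ℝ) := by exact_mod_cast h0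
      rw [div_le_iff₀ h0']
      refine h2.trans (le_of_eq ?_)
      ring
  refine (sum_le_sum h1).trans ?_
  rw [← mul_sum]
  have h3 : ∑ x ∈ D, ((S c.A x).card : ℝ) ≤ (c.n : ℝ) ^ 2 := by
    have := sum_card_S_le c.A D
    rw [c.hA] at this
    exact_mod_cast this
  calc 12 * (c.M : ℝ) / (c.n * c.n) * ∑ x ∈ D, ((S c.A x).card : ℝ)
      ≤ 12 * (c.M : ℝ) / (c.n * c.n) * (c.n : ℝ) ^ 2 :=
        mul_le_mul_of_nonneg_left h3 (by positivity)
    _ = 12 * c.M := by field_simp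

/-- The multipliers of a flat near pair. -/
private theorem c2b_near {M n t : ℕ} {x y X Y : ℤ} (hx0 : x ≠ 0)
    (hX : NI M n t x X) (hY : NI M n t y Y) (h : x * Y - y * X = 0) :
    Near M (n * hgt x y) t (Int.gcd x y) := by
  have hg : 0 < Int.gcd x y := Int.gcd_pos_of_ne_zero_left _ hx0
  have hg0 : ((Int.gcd x y : ℕ) : ℤ) ≠ 0 := by exact_mod_cast hg.ne'
  obtain ⟨p, p', hpp, hp, hp'⟩ := Int.exists_gcd_one hg
  set g : ℤ := ((Int.gcd x y : ℕ) : ℤ) with hgd
  have hp0 : p ≠ 0 := by intro h'; apply hx0; rw [hp, h', zero_mul]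
  have e1 : p * Y = p' * X := by
    have e2 : (p * Y) * g = (p' * X) * g := by
      calc (p * Y) * g = (p * g) * Y := by ring
        _ = x * Y := by rw [← hp]
        _ = y * X := by linarith
        _ = (p' * g) * X := by rw [← hp']
        _ = _ := by ring
    exact mul_right_cancel₀ hg0 e2
  have hdvd : p ∣ X :=
    (Int.isCoprime_iff_gcd_eq_one.mpr hpp).dvd_of_dvd_mul_left ⟨Y, e1.symm⟩
  obtain ⟨G, hG⟩ := hdvd
  have hYG : Y = p' * G := by
    apply mul_left_cancel₀ hp0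
    rw [e1, hG]
    ring
  have k1 : |(t : ℤ) * g - G * M| * (n * (p.natAbs : ℤ)) ≤ M := by
    have := hX
    unfold NI at this
    have e : (t : ℤ) * x - X * M = p * ((t : ℤ) * g - G * M) := by
      rw [hG]
      conv_lhs => rw [hp]
      ring
    rw [e, abs_mul] at this
    rw [Int.natCast_natAbs]
    linarith
  have k2 : |(t : ℤ) * g - G * M| * (n * (p'.natAbs : ℤ)) ≤ M := by
    have := hY
    unfold NI at this
    have e : (t : ℤ) * y - Y * M = p' * ((t : ℤ) * g - G * M) := by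
      rw [hYG]
      conv_lhs => rw [hp']
      ring
    rw [e, abs_mul] at this
    rw [Int.natCast_natAbs]
    linarith
  have hh : hgt x y = max p.natAbs p'.natAbs := by
    unfold hgt
    have hx' : x.natAbs = p.natAbs * Int.gcd x y := by
      conv_lhs => rw [hp, Int.natAbs_mul, hgd, Int.natAbs_natCast]
    have hy' : y.natAbs = p'.natAbs * Int.gcd x y := by
      conv_lhs => rw [hp', Int.natAbs_mul, hgd, Int.natAbs_natCast]
    conv_lhs => rw [hx', hy']
    rw [Nat.mul_max_mul_right, Nat.mul_div_cancel _ hg]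
  refine ⟨G, ?_⟩
  rw [hh]
  push_cast
  rcases le_total p.natAbs p'.natAbs with h' | h'
  · have : max |p| |p'| = (p'.natAbs : ℤ) := by
      rw [Int.natCast_natAbs]
      apply max_eq_right
      rw [← Int.natCast_natAbs, ← Int.natCast_natAbs]
      exact_mod_cast h'
    rw [this]
    exact k2
  · have : max |p| |p'| = (p.natAbs : ℤ) := by
      rw [Int.natCast_natAbs]
      apply max_eq_left
      rw [← Int.natCast_natAbs, ← Int.natCast_natAbs]
      exact_mod_cast h'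
    rw [this]
    exact k1

private theorem c2b_hgt_pos {x y : ℤ} (hx0 : x ≠ 0) : 0 < hgt x y := by
  have hgp : 0 < Int.gcd x y := Int.gcd_pos_of_ne_zero_left _ hx0
  unfold hgt
  apply Nat.div_pos _ hgp
  exact (Nat.le_of_dvd (Int.natAbs_pos.mpr hx0) (Int.gcd_dvd_natAbs_left _ _)).trans
    (le_max_left _ _)

/-- `1 / hgt` is at most the kernel plus `1 / L`. -/
private theorem c2b_inv_hgt {x y : ℤ} (hx0 : x ≠ 0) (hy0 : y ≠ 0) {L : ℕ} (hL : 0 < L) :
    1 / (hgt x y : ℝ) ≤ gk L x y + 1 / L := by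
  have hL' : (0 : ℝ) < L := by exact_mod_cast hL
  have hh : (0 : ℝ) < hgt x y := by exact_mod_cast c2b_hgt_pos hx0
  by_cases h : hgt x y ≤ L
  · have hgp : 0 < Int.gcd x y := Int.gcd_pos_of_ne_zero_left _ hx0
    have h1 : 1 / (hgt x y : ℝ) ≤ gk L x y := by
      unfold gk
      rw [if_pos ⟨hx0, hy0, h⟩]
      have hdvd : Int.gcd x y ∣ max x.natAbs y.natAbs := by
        rcases le_total x.natAbs y.natAbs with h | h
        · rw [max_eq_right h]
          exact Int.gcd_dvd_natAbs_right _ _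
        · rw [max_eq_left h]
          exact Int.gcd_dvd_natAbs_left _ _
      have hmul : hgt x y * Int.gcd x y = max x.natAbs y.natAbs := by
        unfold hgt
        exact Nat.div_mul_cancel hdvd
      have hmul' : (hgt x y : ℝ) * Int.gcd x y = max |(x : ℝ)| |(y : ℝ)| := by
        have e1 : |(x : ℝ)| = ((x.natAbs : ℕ) : ℝ) := by rw [Nat.cast_natAbs]; push_cast; rfl
        have e2 : |(y : ℝ)| = ((y.natAbs : ℕ) : ℝ) := by rw [Nat.cast_natAbs]; push_cast; rfl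
        rw [e1, e2, ← Nat.cast_max, ← hmul]
        push_cast
        rfl
      have hx1 : (0 : ℝ) < |(x : ℝ)| := abs_pos.mpr (by exact_mod_cast hx0)
      have hy1 : (0 : ℝ) < |(y : ℝ)| := abs_pos.mpr (by exact_mod_cast hy0)
      have hs : Real.sqrt (|(x : ℝ)| * |(y : ℝ)|) ≤ (hgt x y : ℝ) * Int.gcd x y := by
        rw [hmul']
        apply Real.sqrt_le_iff.mpr
        refine ⟨hx1.le.trans (le_max_left _ _), ?_⟩
        rw [sq]
        exact mul_le_mul (le_max_left _ _) (le_max_right _ _) hy1.le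
          (hx1.le.trans (le_max_left _ _))
      rw [div_le_div_iff₀ hh (Real.sqrt_pos.mpr (mul_pos hx1 hy1)), one_mul]
      linarith
    have h2 : (0 : ℝ) ≤ 1 / L := by positivity
    linarith
  · have h1 : (L : ℝ) ≤ hgt x y := by exact_mod_cast (not_le.mp h).le
    have h2 := gk_nonneg L x y
    have h3 : 1 / (hgt x y : ℝ) ≤ 1 / L := one_div_le_one_div_of_le hL' h1
    linarith

/- PROOF. For x, y ∈ D let g = gcd, x = p g, y = p' g. If NI t x X, NI t y Y, x Y = y X then X = p G,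
Y = p' G and |t g - G M| * (n * max |p| |p'|) ≤ M, so Near M (n * hgt x y) t g; card_near_le
(n * hgt ≤ n * 2 B ≤ M, M does not divide g): at most 3 M / (n hgt x y) multipliers t. Sum over (x, y):
hgt ≤ n²: hnorm with f = g = 1 (1 / hgt ≤ gk): ≤ 3 M / n * q card D; hgt > n²: at most
3 M / n³ * card D ^ 2 ≤ 3 M / n * card D (card D ≤ card (A - A) ≤ n²). -/
theorem exp_Fl (c : Ctx) {q : ℝ} (hb : Nb c.n q) (D : Finset ℤ) (hD : D ⊆ c.A - c.A)
    (hD0 : ∀ x ∈ D, x ≠ 0) :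
    ∑ t ∈ range c.M, ((Fl c D t).card : ℝ) ≤ 6 * q * c.M * D.card / c.n := by
  have hn := c.n_pos'
  have hM := c.M_pos'
  have hDB : ∀ x ∈ D, |x| ≤ 2 * c.B := by
    intro x hx
    obtain ⟨a, ha, b, hb, rfl⟩ := mem_sub.mp (hD hx)
    exact c.sub_le ha hb
  have hDn : D.card ≤ c.n ^ 2 := by
    calc D.card ≤ (c.A - c.A).card := card_le_card hD
      _ ≤ c.A.card * c.A.card := card_sub_le
      _ = c.n ^ 2 := by rw [c.hA, sq]
  have h1 : ∀ x ∈ D, ∀ y ∈ D, (((range c.M).filter (fun t => ∃ X Y : ℤ, NI c.M c.n t x X ∧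
      NI c.M c.n t y Y ∧ x * Y - y * X = 0)).card : ℝ) ≤ 3 * c.M / c.n * (1 / (hgt x y : ℝ)) := by
    intro x hx y hy
    have hx0 := hD0 x hx
    have hh := c2b_hgt_pos (y := y) hx0
    have hhr : (0 : ℝ) < hgt x y := by exact_mod_cast hh
    have hgp : 0 < Int.gcd x y := Int.gcd_pos_of_ne_zero_left _ hx0
    have hgB : |((Int.gcd x y : ℕ) : ℤ)| ≤ 2 * c.B := by
      refine le_trans ?_ (hDB x hx)
      apply Int.le_of_dvd (abs_pos.mpr hx0)
      rw [abs_dvd_abs]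
      exact Int.gcd_dvd_left _ _
    have hhB : hgt x y ≤ 2 * c.B := by
      unfold hgt
      refine (Nat.div_le_self _ _).trans (max_le ?_ ?_)
      · have := hDB x hx
        rw [Int.abs_eq_natAbs] at this
        exact_mod_cast this
      · have := hDB y hy
        rw [Int.abs_eq_natAbs] at this
        exact_mod_cast this
    have hnM : c.n * hgt x y ≤ c.M := by
      have h := c.hBM
      have h3 : c.n ≤ c.n ^ 3 := Nat.le_self_pow (by norm_num) _
      calc c.n * hgt x y ≤ c.n ^ 3 * (8 * (c.B + 1)) := Nat.mul_le_mul h3 (by omega)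
        _ ≤ c.M := h.le
    have h5 := card_near_le c.hM (n := c.n * hgt x y) (Nat.mul_pos c.n_pos hh) hnM
      (x := ((Int.gcd x y : ℕ) : ℤ)) (c.not_dvd_sub (by exact_mod_cast hgp.ne') hgB)
    refine le_trans ?_ (h5.trans (le_of_eq ?_))
    · apply Nat.cast_le.mpr
      apply card_le_card
      intro t ht
      rw [mem_filter] at ht ⊢
      obtain ⟨ht1, X, Y, hX, hY, hXY⟩ := ht
      exact ⟨ht1, c2b_near hx0 hX hY hXY⟩
    · push_cast
      field_simp
  have h2 : ∑ t ∈ range c.M, ((Fl c D t).card : ℝ) ≤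
      ∑ x ∈ D, ∑ y ∈ D, 3 * c.M / c.n * (gk (c.n ^ 2) x y + 1 / ((c.n ^ 2 : ℕ) : ℝ)) := by
    have h3 : ∀ t, ((Fl c D t).card : ℝ) = ∑ x ∈ D, ∑ y ∈ D,
        (if ∃ X Y : ℤ, NI c.M c.n t x X ∧ NI c.M c.n t y Y ∧ x * Y - y * X = 0
          then (1 : ℝ) else 0) := by
      intro t
      unfold Fl
      rw [card_filter, Finset.sum_product]
      push_cast
      rfl
    calc ∑ t ∈ range c.M, ((Fl c D t).card : ℝ) = ∑ t ∈ range c.M, ∑ x ∈ D, ∑ y ∈ D,
        (if ∃ X Y : ℤ, NI c.M c.n t x X ∧ NI c.M c.n t y Y ∧ x * Y - y * X = 0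
          then (1 : ℝ) else 0) := sum_congr rfl fun t _ => h3 t
      _ = ∑ x ∈ D, ∑ y ∈ D, ∑ t ∈ range c.M,
        (if ∃ X Y : ℤ, NI c.M c.n t x X ∧ NI c.M c.n t y Y ∧ x * Y - y * X = 0
          then (1 : ℝ) else 0) := by
          rw [sum_comm]
          exact sum_congr rfl fun x _ => sum_comm
      _ ≤ _ := by
          refine sum_le_sum fun x hx => sum_le_sum fun y hy => ?_
          rw [sum_ite_card (fun t => ∃ X Y : ℤ, NI c.M c.n t x X ∧ NI c.M c.n t y Y ∧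
            x * Y - y * X = 0) 1, mul_one]
          refine (h1 x hx y hy).trans ?_
          apply mul_le_mul_of_nonneg_left _ (by positivity)
          exact c2b_inv_hgt (hD0 x hx) (hD0 y hy) (Nat.pow_pos c.n_pos)
  have h4 := hb.hnorm D hD0 hDn (fun _ => 1) (fun _ => 1) (fun _ => zero_le_one)
    (fun _ => zero_le_one)
  have h5 : ∑ x ∈ D, ∑ y ∈ D, gk (c.n ^ 2) x y ≤ q * D.card := by
    have e1 : ∑ x ∈ D, ((fun _ : ℤ => (1 : ℝ)) x) ^ 2 = (D.card : ℝ) := by simp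
    rw [e1, Real.mul_self_sqrt (Nat.cast_nonneg _)] at h4
    simpa using h4
  have h6 : ∑ x ∈ D, ∑ y ∈ D, (1 / ((c.n ^ 2 : ℕ) : ℝ)) ≤ D.card := by
    rw [sum_const, sum_const, nsmul_eq_mul, nsmul_eq_mul]
    have hn2 : (0 : ℝ) < ((c.n ^ 2 : ℕ) : ℝ) := by exact_mod_cast Nat.pow_pos c.n_pos
    have hDn' : (D.card : ℝ) ≤ ((c.n ^ 2 : ℕ) : ℝ) := by exact_mod_cast hDn
    have h7 : (D.card : ℝ) * (1 / ((c.n ^ 2 : ℕ) : ℝ)) ≤ 1 := by
      rw [mul_one_div, div_le_one hn2]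
      exact hDn'
    calc (D.card : ℝ) * ((D.card : ℝ) * (1 / ((c.n ^ 2 : ℕ) : ℝ))) ≤ (D.card : ℝ) * 1 :=
          mul_le_mul_of_nonneg_left h7 (Nat.cast_nonneg _)
      _ = D.card := mul_one _
  have h8 : ∑ x ∈ D, ∑ y ∈ D, 3 * c.M / c.n * (gk (c.n ^ 2) x y + 1 / ((c.n ^ 2 : ℕ) : ℝ)) =
      3 * c.M / c.n * (∑ x ∈ D, ∑ y ∈ D, gk (c.n ^ 2) x y +
        ∑ x ∈ D, ∑ y ∈ D, (1 / ((c.n ^ 2 : ℕ) : ℝ))) := by
    rw [← sum_add_distrib, mul_sum]
    refine sum_congr rfl fun x _ => ?_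
    rw [← sum_add_distrib, mul_sum]
  rw [h8] at h2
  refine h2.trans ?_
  have hq := hb.q_one
  have hDc : (0 : ℝ) ≤ D.card := Nat.cast_nonneg _
  have h9 : (D.card : ℝ) ≤ q * D.card := by nlinarith
  calc 3 * (c.M : ℝ) / c.n * (∑ x ∈ D, ∑ y ∈ D, gk (c.n ^ 2) x y +
        ∑ x ∈ D, ∑ y ∈ D, (1 / ((c.n ^ 2 : ℕ) : ℝ)))
      ≤ 3 * (c.M : ℝ) / c.n * (q * D.card + q * D.card) := by
        apply mul_le_mul_of_nonneg_left _ (by positivity)
        linarith
    _ = _ := by ring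

/- PROOF. Sum pop_t over t; exp_f1 (∑ t, f1 ≤ 3 n M), exp_NF, exp_Fl. -/
theorem popular_pairs' (c : Ctx) {q : ℝ} (hb : Nb c.n q) (D : Finset ℤ) (hD : D ⊆ c.A - c.A)
    (hD0 : ∀ x ∈ D, x ≠ 0) (l lam : ℝ) (hl : 0 < l) (hlam : 0 < lam) :
    ∑ t ∈ range c.M, ∑ x ∈ D, ((S (c.C t) x).card : ℝ) ≤
      c.M * (2 * c.n * l + 12 / l + 2 * (c.K : ℝ) ^ 2 / lam + 24 * lam * q * D.card / c.n) := by
  have hn := c.n_pos'
  have hM := c.M_pos'
  have hDM : ∀ x ∈ D, (c.n : ℤ) * |x| < c.M := by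
    intro x hx
    obtain ⟨a, ha, b, hb, rfl⟩ := mem_sub.mp (hD hx)
    exact c.sub_lt ha hb
  refine (sum_le_sum fun t _ => pop_t c t D hD0 l lam hl hlam).trans ?_
  rw [sum_add_distrib, sum_add_distrib, sum_add_distrib, ← mul_sum, ← mul_sum, ← sum_div,
    sum_const, card_range, nsmul_eq_mul]
  have e1 := exp_f1 c.A D c.hM c.n_pos c.n_le_M c.hA hD0 hDM
  have e2 := exp_NF c D hD hD0
  have e3 := exp_Fl c hb D hD hD0
  have a1 : l / 2 * ∑ t ∈ range c.M, f1 c.A D (Near c.M c.n t) ≤ l / 2 * (c.M * (3 * c.n)) :=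
    mul_le_mul_of_nonneg_left e1 (by positivity)
  have a2 : (∑ t ∈ range c.M, ∑ x ∈ D, ((NF c t x).card : ℝ) / ((S c.A x).card : ℝ)) / l ≤
      12 * c.M / l := by
    gcongr
  have a3 : 4 * lam * ∑ t ∈ range c.M, ((Fl c D t).card : ℝ) ≤
      4 * lam * (6 * q * c.M * D.card / c.n) :=
    mul_le_mul_of_nonneg_left e3 (by positivity)
  have a4 : l / 2 * (c.M * (3 * c.n)) ≤ c.M * (2 * c.n * l) := by
    have : 0 ≤ l * c.M * c.n := by positivity
    nlinarith
  calc _ ≤ c.M * (2 * c.n * l) + 12 * c.M / l + c.M * (2 * (c.K : ℝ) ^ 2 / lam) +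
        4 * lam * (6 * q * c.M * D.card / c.n) := by linarith
    _ = _ := by ring

end Pool.Agent.MP_741d1b.All
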