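import Mathlib
import Pool.Agent.Lib.MP_741d1b_nt_all.CPairs
import Pool.Agent.Lib.MP_741d1b_nt_all.CPopE
import Pool.Agent.Lib.MP_741d1b_nt_h87.T3Core3

/-!
Row C4: the core theorem. Copy of T3Core3.lean with `Q ≥ q ^ 2` in place of `q`.
-/

set_option autoImplicit false

namespace Pool.Agent.MP_741d1b.All

open Finset Classical
open Pool.Agent.MP_741d1b.H87
open scoped Pointwise

private theorem cc_q {n : ℕ} {q Q : ℝ} (hb : Nb n q) (hQ : q ^ 2 ≤ Q) : 1000 ≤ Q ∧ q ≤ Q := by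
  have h := hb.hq
  constructor <;> nlinarith

/- PROOF. Ctx.stepAB with sum_r_cube'. -/
theorem stepAB' (c : Ctx) {q : ℝ} (hb : Nb c.n q) (N Q P : ℝ) (hNn : N ^ 3 = c.n) (hN : 0 < N)
    (hQ : q ^ 2 ≤ Q) (hP : 1 ≤ P) (hK1 : N / Q ≤ c.K) (hE : N ^ 8 / P ≤ En c.As) :
    ∃ D : Finset ℤ, D ⊆ c.As - c.As ∧ (D.card : ℝ) ≤ N ^ 4 * Q * P ∧
      (c.M : ℝ) * (N ^ 5 / (Q ^ 11 * P ^ 4)) ≤
      ∑ t ∈ range c.M, ∑ a ∈ c.C t ∩ c.As, ∑ a' ∈ c.C t ∩ c.As,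
        ((c.nb D a ∩ c.nb D a').card : ℝ) := by
  have hn := c.n_pos'
  have hM := c.M_pos'
  obtain ⟨hQ1000, hqQ⟩ := cc_q hb hQ
  have hQ0 : 0 < Q := by linarith
  have hP0 : 0 < P := by linarith
  have hK0 : (0 : ℝ) < c.K := lt_of_lt_of_le (by positivity) hK1
  have hS3 : ∀ V : Finset ℤ, ∑ v ∈ V, c.r v ^ 3 ≤ 8 * Q ^ 3 * N ^ 10 := by
    intro V
    have h := sum_r_cube' c hb V
    rw [← sum_mul, ← hNn] at h
    have h1 : (∑ v ∈ V, c.r v ^ 3) * (c.K : ℝ) ^ 3 ≤ 8 * N ^ 12 * q ^ 2 * c.K := by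
      have e : (∑ v ∈ V, c.r v ^ 3) * (c.K : ℝ) ^ 3 =
          8 * N ^ 9 * ((∑ v ∈ V, c.r v ^ 3) * ((c.K : ℝ) / (2 * N ^ 3)) ^ 3) := by
        field_simp
        ring
      rw [e]
      calc 8 * N ^ 9 * ((∑ v ∈ V, c.r v ^ 3) * ((c.K : ℝ) / (2 * N ^ 3)) ^ 3) ≤
          8 * N ^ 9 * (c.K * (N ^ 3 * q ^ 2)) := mul_le_mul_of_nonneg_left h (by positivity)
        _ = _ := by ring
    have h2 : (∑ v ∈ V, c.r v ^ 3) * (c.K : ℝ) ^ 2 ≤ 8 * N ^ 12 * q ^ 2 := by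
      have : (∑ v ∈ V, c.r v ^ 3) * (c.K : ℝ) ^ 2 * c.K ≤ 8 * N ^ 12 * q ^ 2 * c.K := by
        calc (∑ v ∈ V, c.r v ^ 3) * (c.K : ℝ) ^ 2 * c.K =
            (∑ v ∈ V, c.r v ^ 3) * (c.K : ℝ) ^ 3 := by ring
          _ ≤ _ := h1
      exact le_of_mul_le_mul_right this hK0
    have h3 : (∑ v ∈ V, c.r v ^ 3) * (N / Q) ^ 2 ≤ 8 * N ^ 12 * Q := by
      calc (∑ v ∈ V, c.r v ^ 3) * (N / Q) ^ 2 ≤ (∑ v ∈ V, c.r v ^ 3) * (c.K : ℝ) ^ 2 := by
            apply mul_le_mul_of_nonneg_left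
            · exact pow_le_pow_left₀ (by positivity) hK1 2
            · exact sum_nonneg fun v _ => pow_nonneg (c.r_nonneg v) 3
        _ ≤ 8 * N ^ 12 * q ^ 2 := h2
        _ ≤ _ := mul_le_mul_of_nonneg_left hQ (by positivity)
    have h4 : (∑ v ∈ V, c.r v ^ 3) * (N / Q) ^ 2 * (Q ^ 2 / N ^ 2) ≤
        8 * N ^ 12 * Q * (Q ^ 2 / N ^ 2) := mul_le_mul_of_nonneg_right h3 (by positivity)
    have e1 : (∑ v ∈ V, c.r v ^ 3) * (N / Q) ^ 2 * (Q ^ 2 / N ^ 2) = ∑ v ∈ V, c.r v ^ 3 := by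
      field_simp
    have e2 : 8 * N ^ 12 * Q * (Q ^ 2 / N ^ 2) = 8 * Q ^ 3 * N ^ 10 := by
      field_simp
    rw [e1, e2] at h4
    exact h4
  obtain ⟨D, hDs, hDc, hDe⟩ := c.popular (N ^ 8 / P) (8 * Q ^ 3 * N ^ 10) (N ^ 2 / (Q * P))
    (by positivity) hE (by positivity) (by
      rw [← hNn]
      have e : N ^ 2 / (Q * P) * (N ^ 3) ^ 2 = N ^ 8 / P * (1 / Q) := by field_simp
      rw [e]
      have h1 : 1 / Q ≤ 1 / 2 := one_div_le_one_div_of_le (by norm_num) (by linarith)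
      calc N ^ 8 / P * (1 / Q) ≤ N ^ 8 / P * (1 / 2) :=
            mul_le_mul_of_nonneg_left h1 (by positivity)
        _ = N ^ 8 / P / 2 := by ring) hS3
  refine ⟨D, hDs, ?_, ?_⟩
  · rw [← hNn] at hDc
    have e : (D.card : ℝ) * (N ^ 2 / (Q * P)) = (D.card : ℝ) * N ^ 2 / (Q * P) := by ring
    rw [e, div_le_iff₀ (by positivity)] at hDc
    have h1 : (D.card : ℝ) * N ^ 2 ≤ (N ^ 4 * Q * P) * N ^ 2 := by
      calc (D.card : ℝ) * N ^ 2 ≤ (N ^ 3) ^ 2 * (Q * P) := hDc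
        _ = _ := by ring
    exact le_of_mul_le_mul_right h1 (by positivity)
  · refine le_trans ?_ (c.codeg_sum D)
    apply mul_le_mul_of_nonneg_left _ hM.le
    set s := ∑ v ∈ D, c.r v with hs
    have hs1 : N ^ 6 / (Q ^ 4 * P ^ 2) ≤ s := by
      have h1 : (N ^ 8 / P / 2) ^ 2 = N ^ 6 / (32 * Q ^ 3 * P ^ 2) * (8 * Q ^ 3 * N ^ 10) := by
        field_simp
        ring
      rw [h1] at hDe
      have h2 := le_of_mul_le_mul_right hDe (by positivity)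
      refine le_trans ?_ h2
      apply div_le_div_of_nonneg_left (by positivity) (by positivity)
      have : 32 * (Q ^ 3 * P ^ 2) ≤ Q * (Q ^ 3 * P ^ 2) :=
        mul_le_mul_of_nonneg_right (by linarith) (by positivity)
      calc 32 * Q ^ 3 * P ^ 2 = 32 * (Q ^ 3 * P ^ 2) := by ring
        _ ≤ _ := this
        _ = _ := by ring
    rw [← hNn]
    calc N ^ 5 / (Q ^ 11 * P ^ 4) ≤ N ^ 5 / (4 * Q ^ 10 * P ^ 4) := by
          apply div_le_div_of_nonneg_left (by positivity) (by positivity)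
          have : 4 * (Q ^ 10 * P ^ 4) ≤ Q * (Q ^ 10 * P ^ 4) :=
            mul_le_mul_of_nonneg_right (by linarith) (by positivity)
          calc 4 * Q ^ 10 * P ^ 4 = 4 * (Q ^ 10 * P ^ 4) := by ring
            _ ≤ _ := this
            _ = _ := by ring
      _ = (N / Q / (2 * N ^ 3)) ^ 2 * (N ^ 6 / (Q ^ 4 * P ^ 2)) ^ 2 / N ^ 3 := by
          field_simp
          ring
      _ ≤ (c.K / (2 * N ^ 3)) ^ 2 * s ^ 2 / N ^ 3 := by gcongr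

/- PROOF. Ctx.stepC with: Dp = {v ∈ As - As : v ≠ 0, N Q³ α² ≤ r v}, card Dp ≤ N⁵ / (Q³ α²)
(card_D_le); popular_pairs' with l = 1 / (N Q α), lam = Q α; good_pairs' with G = N⁵ / α,
κ = N³ / (Q α), W = Q³ α, H = 2 n l + 12 / l + 2 K² / lam + 24 lam q card Dp / n:
n H ≤ N⁵ / α (2 / Q + 12 / Q + 2 / Q + 24 / Q) ≤ N⁵ / α / 4 (12 N⁴ Q α ≤ 12 N⁵ / (Q α) by hαN).
Then N⁶ / (Q α) ≤ K G ≤ 66 (Q³ α card P + q² N⁶ / (Q³ α)) and 66 q² / Q³ ≤ 66 / Q² ≤ 1 / (2 Q), so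
card P ≥ N⁶ / (132 Q⁴ α²) ≥ N⁶ / (Q⁶ α²). -/
theorem stepC' (c : Ctx) {q : ℝ} (hb : Nb c.n q) (N Q α : ℝ) (hNn : N ^ 3 = c.n) (hN : 0 < N)
    (hQ : q ^ 2 ≤ Q) (hα : 1 ≤ α) (hαN : Q ^ 2 * α ^ 2 ≤ N)
    (hK1 : N / Q ≤ c.K) (hK2 : (c.K : ℝ) ≤ N) (D : Finset ℤ)
    (hG : (c.M : ℝ) * (N ^ 5 / α) ≤
      ∑ t ∈ range c.M, ∑ a ∈ c.C t ∩ c.As, ∑ a' ∈ c.C t ∩ c.As,
        ((c.nb D a ∩ c.nb D a').card : ℝ)) :
    ∃ P : Finset (ℤ × ℤ), (∀ z ∈ P, z.1 ∈ c.As ∧ z.2 ∈ c.As ∧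
      N ^ 3 / (Q * α) ≤ ((c.nb D z.1 ∩ c.nb D z.2).card : ℝ) ∧
      c.r (z.1 - z.2) ≤ N * Q ^ 3 * α ^ 2) ∧ N ^ 6 / (Q ^ 6 * α ^ 2) ≤ P.card := by
  have hn := c.n_pos'
  have hM := c.M_pos'
  obtain ⟨hQ1000, hqQ⟩ := cc_q hb hQ
  have hq0 := hb.q_pos
  have hQ0 : 0 < Q := by linarith
  have hα0 : 0 < α := by linarith
  have hK0 : (0 : ℝ) < c.K := lt_of_lt_of_le (by positivity) hK1
  have hαN1 : 8 * α ≤ N := by
    have h1 : (8 : ℝ) ≤ Q ^ 2 := by nlinarith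
    have h2 : α ≤ α ^ 2 := by nlinarith
    have : 8 * α ≤ Q ^ 2 * α ^ 2 := mul_le_mul h1 h2 hα0.le (by positivity)
    linarith
  set Dp : Finset ℤ := (c.As - c.As).filter (fun v => v ≠ 0 ∧ N * Q ^ 3 * α ^ 2 ≤ c.r v) with hDp
  have hDpc : (Dp.card : ℝ) ≤ N ^ 5 / (Q ^ 3 * α ^ 2) := by
    have h1 := c.card_D_le (N * Q ^ 3 * α ^ 2) Dp (fun v hv => (mem_filter.mp hv).2.2)
    rw [← hNn] at h1
    rw [le_div_iff₀ (by positivity)]
    have h2 : (Dp.card : ℝ) * (Q ^ 3 * α ^ 2) * N ≤ N ^ 5 * N := by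
      calc (Dp.card : ℝ) * (Q ^ 3 * α ^ 2) * N = (Dp.card : ℝ) * (N * Q ^ 3 * α ^ 2) := by ring
        _ ≤ (N ^ 3) ^ 2 := h1
        _ = _ := by ring
    exact le_of_mul_le_mul_right h2 hN
  set l : ℝ := 1 / (N * Q * α) with hl
  have hl0 : 0 < l := by rw [hl]; positivity
  have hlam0 : 0 < Q * α := by positivity
  have hpp := popular_pairs' c hb Dp (by
      intro v hv
      exact sub_subset_sub c.As_sub c.As_sub (mem_filter.mp hv).1) (by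
      intro v hv
      exact (mem_filter.mp hv).2.1) l (Q * α) hl0 hlam0
  obtain ⟨P, hP, hPc⟩ := good_pairs' c hb D Dp (N ^ 5 / α) (N ^ 3 / (Q * α))
    (2 * c.n * l + 12 / l + 2 * (c.K : ℝ) ^ 2 / (Q * α) + 24 * (Q * α) * q * Dp.card / c.n)
    (Q ^ 3 * α) (by
      exact one_le_mul_of_one_le_of_one_le (one_le_pow₀ (by linarith)) hα) hG (by positivity) (by
      calc (c.K : ℝ) ^ 2 * (N ^ 3 / (Q * α)) ≤ N ^ 2 * (N ^ 3 / (Q * α)) := by gcongr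
        _ = N ^ 5 / α * (1 / Q) := by field_simp
        _ ≤ N ^ 5 / α * (1 / 8) := by
            apply mul_le_mul_of_nonneg_left _ (by positivity)
            exact one_div_le_one_div_of_le (by norm_num) (by linarith)
        _ = N ^ 5 / α / 8 := by ring) (by
      rw [← hNn]
      calc (c.K : ℝ) * N ^ 3 ≤ N * N ^ 3 := by gcongr
        _ = N ^ 4 * 1 := by ring
        _ ≤ N ^ 4 * (N / (8 * α)) := by
            apply mul_le_mul_of_nonneg_left _ (by positivity)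
            rw [le_div_iff₀ (by positivity)]
            linarith
        _ = N ^ 5 / α / 8 := by field_simp) hpp (by
      rw [← hNn]
      have e : N ^ 3 * (2 * N ^ 3 * l + 12 / l + 2 * (c.K : ℝ) ^ 2 / (Q * α) +
          24 * (Q * α) * q * Dp.card / N ^ 3) =
          2 * N ^ 6 * l + 12 * N ^ 3 / l + 2 * N ^ 3 * (c.K : ℝ) ^ 2 / (Q * α) +
          24 * (Q * α) * q * Dp.card := by
        field_simp
      rw [e]
      have k1 : 24 * (Q * α) * q * (Dp.card : ℝ) ≤ N ^ 5 / α * (24 / Q) := by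
        calc 24 * (Q * α) * q * (Dp.card : ℝ) ≤
            24 * (Q * α) * Q * (N ^ 5 / (Q ^ 3 * α ^ 2)) := by gcongr
          _ = _ := by field_simp
      have k2 : 2 * N ^ 6 * l = N ^ 5 / α * (2 / Q) := by
        rw [hl]; field_simp
      have k3 : 12 * N ^ 3 / l ≤ N ^ 5 / α * (12 / Q) := by
        rw [hl]
        have e2 : 12 * N ^ 3 / (1 / (N * Q * α)) = 12 * N ^ 4 / (Q * α) * (Q ^ 2 * α ^ 2) := by
          field_simp
        rw [e2]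
        calc 12 * N ^ 4 / (Q * α) * (Q ^ 2 * α ^ 2) ≤ 12 * N ^ 4 / (Q * α) * N :=
              mul_le_mul_of_nonneg_left hαN (by positivity)
          _ = _ := by field_simp
      have k4 : 2 * N ^ 3 * (c.K : ℝ) ^ 2 / (Q * α) ≤ N ^ 5 / α * (2 / Q) := by
        calc 2 * N ^ 3 * (c.K : ℝ) ^ 2 / (Q * α) ≤ 2 * N ^ 3 * N ^ 2 / (Q * α) := by gcongr
          _ = _ := by field_simp
      have k5 : 1 / Q ≤ 1 / 1000 :=
        div_le_div_of_nonneg_left (by norm_num) (by norm_num) hQ1000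
      have hX : 0 < N ^ 5 / α := by positivity
      calc 2 * N ^ 6 * l + 12 * N ^ 3 / l + 2 * N ^ 3 * (c.K : ℝ) ^ 2 / (Q * α) +
          24 * (Q * α) * q * Dp.card ≤
          N ^ 5 / α * (2 / Q) + N ^ 5 / α * (12 / Q) + N ^ 5 / α * (2 / Q) +
            N ^ 5 / α * (24 / Q) := by
            rw [← k2]; linarith
        _ = N ^ 5 / α * (40 * (1 / Q)) := by ring
        _ ≤ N ^ 5 / α * (1 / 4) := by
            apply mul_le_mul_of_nonneg_left _ hX.le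
            linarith
        _ = N ^ 5 / α / 4 := by ring)
  refine ⟨P, ?_, ?_⟩
  · intro z hz
    obtain ⟨h1, h2, h3, h4, h5⟩ := hP z hz
    refine ⟨h1, h2, h4, ?_⟩
    by_contra hc
    push Not at hc
    apply h5
    rw [hDp, mem_filter]
    exact ⟨sub_mem_sub h1 h2, sub_ne_zero.mpr h3, hc.le⟩
  · rw [div_le_iff₀ (by positivity)]
    rw [← hNn] at hPc
    have h1 : N / Q * (N ^ 5 / α) ≤
        66 * (Q ^ 3 * α * P.card + q ^ 2 * (N ^ 3) ^ 2 / (Q ^ 3 * α)) := by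
      calc N / Q * (N ^ 5 / α) ≤ c.K * (N ^ 5 / α) := by gcongr
        _ ≤ _ := hPc
    have h2 : 66 * (q ^ 2 * (N ^ 3) ^ 2 / (Q ^ 3 * α)) ≤ N / Q * (N ^ 5 / α) / 2 := by
      calc 66 * (q ^ 2 * (N ^ 3) ^ 2 / (Q ^ 3 * α)) ≤
          66 * (Q * (N ^ 3) ^ 2 / (Q ^ 3 * α)) := by gcongr
        _ = N / Q * (N ^ 5 / α) * (66 * (1 / Q)) := by field_simp
        _ ≤ N / Q * (N ^ 5 / α) * (1 / 2) := by
            apply mul_le_mul_of_nonneg_left _ (by positivity)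
            have k5 : 1 / Q ≤ 1 / 1000 :=
              div_le_div_of_nonneg_left (by norm_num) (by norm_num) hQ1000
            linarith
        _ = _ := by ring
    have h3 : N / Q * (N ^ 5 / α) ≤ 132 * (Q ^ 3 * α * P.card) := by linarith
    have e : N / Q * (N ^ 5 / α) = N ^ 6 / (Q * α) := by field_simp
    rw [e, div_le_iff₀ (by positivity)] at h3
    calc N ^ 6 ≤ 132 * (Q ^ 3 * α * P.card) * (Q * α) := h3
      _ = P.card * (132 * (Q ^ 4 * α ^ 2)) := by ring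
      _ ≤ P.card * (Q ^ 2 * (Q ^ 4 * α ^ 2)) := by
          apply mul_le_mul_of_nonneg_left _ (Nat.cast_nonneg _)
          exact mul_le_mul_of_nonneg_right (by nlinarith) (by positivity)
      _ = _ := by ring

/- PROOF. Ctx.core with α = Q^11 P^4, β = Q^16 α^6 P², γ = Q⁴ α² β (R = N Q³ α², ρ = N³ / γ,
m = ⌈Q⁵ γ³⌉), hbig2 : Q^7 γ³ β ≤ N, which is Q^413 P^128 ≤ N. -/
theorem core' (c : Ctx) {q : ℝ} (hb : Nb c.n q) (N Q P : ℝ) (hNn : N ^ 3 = c.n) (hN : 0 < N)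
    (hQ : q ^ 2 ≤ Q) (hP : 1 ≤ P) (hbig : Q ^ 413 * P ^ 128 ≤ N) (hK1 : N / Q ≤ c.K)
    (hK2 : (c.K : ℝ) ≤ N) : En c.As < N ^ 8 / P := by
  by_contra hcon
  push Not at hcon
  have hn := c.n_pos'
  have hM := c.M_pos'
  obtain ⟨hQ1000, hqQ⟩ := cc_q hb hQ
  have hq0 := hb.q_pos
  have hQ0 : 0 < Q := by linarith
  have hQ1 : 1 ≤ Q := by linarith
  have hP0 : 0 < P := by linarith
  have hK0 : (0 : ℝ) < c.K := lt_of_lt_of_le (by positivity) hK1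
  obtain ⟨α, hα⟩ : ∃ α : ℝ, α = Q ^ 11 * P ^ 4 := ⟨_, rfl⟩
  obtain ⟨β, hβ⟩ : ∃ β : ℝ, β = Q ^ 16 * α ^ 6 * P ^ 2 := ⟨_, rfl⟩
  obtain ⟨γ, hγ⟩ : ∃ γ : ℝ, γ = Q ^ 4 * α ^ 2 * β := ⟨_, rfl⟩
  have hα1 : 1 ≤ α := by
    rw [hα]
    exact one_le_mul_of_one_le_of_one_le (one_le_pow₀ hQ1) (one_le_pow₀ hP)
  have hα0 : 0 < α := by linarith
  have hβ1 : 1 ≤ β := by
    rw [hβ]
    exact one_le_mul_of_one_le_of_one_le (one_le_mul_of_one_le_of_one_le (one_le_pow₀ hQ1)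
      (one_le_pow₀ hα1)) (one_le_pow₀ hP)
  have hβ0 : 0 < β := by linarith
  have hγ1 : 1 ≤ γ := by
    rw [hγ]
    exact one_le_mul_of_one_le_of_one_le (one_le_mul_of_one_le_of_one_le (one_le_pow₀ hQ1)
      (one_le_pow₀ hα1)) hβ1
  have hγ0 : 0 < γ := by linarith
  have hbig2 : Q ^ 7 * γ ^ 3 * β ≤ N := by
    refine le_trans (le_of_eq ?_) hbig
    rw [hγ, hβ, hα]
    ring
  have hαN : Q ^ 2 * α ^ 2 ≤ N := by
    refine le_trans ?_ hbig2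
    have h1 : α ≤ γ := by
      rw [hγ]
      calc α = 1 * α * 1 := by ring
        _ ≤ Q ^ 4 * α ^ 2 * β := by
            apply mul_le_mul _ hβ1 (by norm_num) (by positivity)
            exact mul_le_mul (one_le_pow₀ hQ1) (by nlinarith) hα0.le (by positivity)
    calc Q ^ 2 * α ^ 2 ≤ Q ^ 7 * γ ^ 3 := by
          apply mul_le_mul (pow_le_pow_right₀ hQ1 (by norm_num)) _ (by positivity) (by positivity)
          calc α ^ 2 ≤ γ ^ 2 := pow_le_pow_left₀ hα0.le h1 2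
            _ ≤ γ ^ 3 := pow_le_pow_right₀ hγ1 (by norm_num)
      _ = Q ^ 7 * γ ^ 3 * 1 := by ring
      _ ≤ _ := mul_le_mul_of_nonneg_left hβ1 (by positivity)
  obtain ⟨D, _, hDc, hG⟩ := stepAB' c hb N Q P hNn hN hQ hP hK1 hcon
  rw [← hα] at hG
  obtain ⟨Ps, hPs, hPsc⟩ := stepC' c hb N Q α hNn hN hQ hα1 hαN hK1 hK2 D hG
  have hcol := c.collisions D Ps (N ^ 3 / (Q * α)) (by positivity)
    (fun z hz => ⟨(hPs z hz).1, (hPs z hz).2.1, (hPs z hz).2.2.1⟩)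
  set X := ∑ v ∈ c.As - c.As, Ctx.qq Ps v * c.r v with hX
  have hX0 : 0 ≤ X := sum_nonneg fun v _ => mul_nonneg (Ctx.qq_nonneg _ _) (c.r_nonneg v)
  have hX1 : N ^ 10 / β ≤ X := by
    have h1 : (N ^ 6 / (Q ^ 6 * α ^ 2) * (N ^ 3 / (Q * α))) ^ 2 ≤ (N ^ 4 * Q * P) ^ 2 * X := by
      calc (N ^ 6 / (Q ^ 6 * α ^ 2) * (N ^ 3 / (Q * α))) ^ 2 ≤
          ((Ps.card : ℝ) * (N ^ 3 / (Q * α))) ^ 2 := by gcongr
        _ ≤ _ := hcol
        _ ≤ _ := by gcongr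
    have h2 : (N ^ 6 / (Q ^ 6 * α ^ 2) * (N ^ 3 / (Q * α))) ^ 2 =
        (N ^ 4 * Q * P) ^ 2 * (N ^ 10 / β) := by
      rw [hβ]
      field_simp
    rw [h2] at h1
    exact le_of_mul_le_mul_left h1 (by positivity)
  have hPsle : (Ps.card : ℝ) ≤ N ^ 6 := by
    have h1 : Ps.card ≤ (c.As ×ˢ c.As).card := by
      apply card_le_card
      intro z hz
      rw [mem_product]
      exact ⟨(hPs z hz).1, (hPs z hz).2.1⟩
    rw [card_product] at h1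
    have h2 : (c.As.card : ℝ) ≤ N ^ 3 := by
      rw [hNn]; exact_mod_cast c.As_card
    calc (Ps.card : ℝ) ≤ ((c.As.card * c.As.card : ℕ) : ℝ) := by exact_mod_cast h1
      _ = (c.As.card : ℝ) * c.As.card := by push_cast; ring
      _ ≤ N ^ 3 * N ^ 3 := by gcongr
      _ = N ^ 6 := by ring
  have hV0 := c.very_popular Ps (N * Q ^ 3 * α ^ 2) (N ^ 3 / γ) (N ^ 10 / β) (by positivity)
    (fun z hz => ⟨(hPs z hz).1, (hPs z hz).2.1, (hPs z hz).2.2.2⟩) hX1 (by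
      calc N ^ 3 / γ * (N * Q ^ 3 * α ^ 2 * Ps.card) ≤
            N ^ 3 / γ * (N * Q ^ 3 * α ^ 2 * N ^ 6) := by
            gcongr
        _ = N ^ 10 / β * (1 / Q) := by rw [hγ]; field_simp
        _ ≤ N ^ 10 / β * (1 / 2) := by
            apply mul_le_mul_of_nonneg_left _ (by positivity)
            exact one_div_le_one_div_of_le (by norm_num) (by linarith)
        _ = N ^ 10 / β / 2 := by ring)
  set V0 := (c.As - c.As).filter (fun v => N ^ 3 / γ ≤ c.r v) with hV0def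
  have hV0c : N / (Q * β) ≤ V0.card := by
    rw [← hNn] at hV0
    have e : (N ^ 3) ^ 3 = N ^ 9 := by ring
    rw [e] at hV0
    have h1 : N / (2 * β) * N ^ 9 ≤ V0.card * N ^ 9 := by
      refine le_trans (le_of_eq ?_) hV0
      field_simp
    have h2 := le_of_mul_le_mul_right h1 (by positivity)
    refine le_trans ?_ h2
    apply div_le_div_of_nonneg_left hN.le (by positivity)
    exact mul_le_mul_of_nonneg_right (by linarith) hβ0.le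
  obtain ⟨m, hm⟩ : ∃ m : ℕ, m = ⌈Q ^ 5 * γ ^ 3⌉₊ := ⟨_, rfl⟩
  have hm1 : Q ^ 5 * γ ^ 3 ≤ m := by rw [hm]; exact Nat.le_ceil _
  have hm2 : (m : ℝ) ≤ Q ^ 6 * γ ^ 3 := by
    have h1 : (m : ℝ) < Q ^ 5 * γ ^ 3 + 1 := by rw [hm]; exact Nat.ceil_lt_add_one (by positivity)
    have h2 : 1 ≤ Q ^ 5 * γ ^ 3 :=
      one_le_mul_of_one_le_of_one_le (one_le_pow₀ hQ1) (one_le_pow₀ hγ1)
    calc (m : ℝ) ≤ 2 * (Q ^ 5 * γ ^ 3) := by linarith
      _ ≤ Q * (Q ^ 5 * γ ^ 3) := mul_le_mul_of_nonneg_right (by linarith) (by positivity)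
      _ = _ := by ring
  have hmV : m ≤ V0.card := by
    have h1 : (m : ℝ) ≤ V0.card := by
      refine hm2.trans (le_trans ?_ hV0c)
      rw [le_div_iff₀ (by positivity)]
      calc Q ^ 6 * γ ^ 3 * (Q * β) = Q ^ 7 * γ ^ 3 * β := by ring
        _ ≤ N := hbig2
    exact_mod_cast h1
  obtain ⟨V, hVs, hVc⟩ := exists_subset_card_eq hmV
  have hfin := finish' c hb V (hVs.trans (filter_subset _ _)) (N ^ 3 / γ) (by positivity)
    (fun v hv => (mem_filter.mp (hVs hv)).2)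
  rw [hVc, ← hNn] at hfin
  have e1 : (m : ℝ) * (N ^ 3 / γ * (c.K / (2 * N ^ 3))) ^ 3 = m * (c.K : ℝ) ^ 3 / (8 * γ ^ 3) := by
    field_simp
    ring
  rw [e1] at hfin
  have hm0 : (0 : ℝ) < m := lt_of_lt_of_le (by positivity) hm1
  have f1 : N ^ 3 * q ^ 2 < m * (c.K : ℝ) ^ 3 / (16 * γ ^ 3) := by
    rw [lt_div_iff₀ (by positivity)]
    calc N ^ 3 * q ^ 2 * (16 * γ ^ 3) ≤ N ^ 3 * Q * (16 * γ ^ 3) := by gcongr
      _ = 16 * (N ^ 3 * Q * γ ^ 3) := by ring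
      _ < Q * (N ^ 3 * Q * γ ^ 3) := by
          apply mul_lt_mul_of_pos_right (by linarith) (by positivity)
      _ = Q ^ 5 * γ ^ 3 * (N / Q) ^ 3 := by field_simp
      _ ≤ m * (c.K : ℝ) ^ 3 := by gcongr
  have f2 : 3 / N ^ 3 * (m : ℝ) ^ 3 * (c.K : ℝ) ^ 3 ≤ m * (c.K : ℝ) ^ 3 / (16 * γ ^ 3) := by
    rw [le_div_iff₀ (by positivity)]
    have e2 : 3 / N ^ 3 * (m : ℝ) ^ 3 * (c.K : ℝ) ^ 3 * (16 * γ ^ 3) =
        m * (c.K : ℝ) ^ 3 * (48 * (m : ℝ) ^ 2 * γ ^ 3 / N ^ 3) := by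
      field_simp
      ring
    rw [e2]
    have h1 : 48 * (m : ℝ) ^ 2 * γ ^ 3 / N ^ 3 ≤ 1 := by
      rw [div_le_one (by positivity)]
      calc 48 * (m : ℝ) ^ 2 * γ ^ 3 ≤ Q * (Q ^ 6 * γ ^ 3) ^ 2 * γ ^ 3 := by
            gcongr
            linarith
        _ = Q ^ 13 * γ ^ 9 := by ring
        _ ≤ Q ^ 21 * γ ^ 9 * β ^ 3 := by
            calc Q ^ 13 * γ ^ 9 = Q ^ 13 * γ ^ 9 * 1 := by ring
              _ ≤ Q ^ 21 * γ ^ 9 * β ^ 3 := by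
                  apply mul_le_mul _ (one_le_pow₀ hβ1) (by norm_num) (by positivity)
                  exact mul_le_mul_of_nonneg_right (pow_le_pow_right₀ hQ1 (by norm_num))
                    (by positivity)
        _ = (Q ^ 7 * γ ^ 3 * β) ^ 3 := by ring
        _ ≤ N ^ 3 := pow_le_pow_left₀ (by positivity) hbig2 3
    calc m * (c.K : ℝ) ^ 3 * (48 * (m : ℝ) ^ 2 * γ ^ 3 / N ^ 3) ≤ m * (c.K : ℝ) ^ 3 * 1 :=
          mul_le_mul_of_nonneg_left h1 (by positivity)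
      _ = _ := by ring
  have e3 : m * (c.K : ℝ) ^ 3 / (8 * γ ^ 3) =
      m * (c.K : ℝ) ^ 3 / (16 * γ ^ 3) + m * (c.K : ℝ) ^ 3 / (16 * γ ^ 3) := by
    field_simp
    norm_num
  linarith

end Pool.Agent.MP_741d1b.All
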