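import Mathlib
import Pool.Agent.Lib.MP_741d1b_nt_all.BDown

/-!
Row D5: many triples of small height, general form.
-/

set_option autoImplicit false

namespace Pool.Agent.MP_741d1b.All

open Finset Classical
open Pool.Agent.MP_741d1b.H87

/-- The triples in one arithmetic progression. -/
theorem block_triples_ap {n : ℕ} {q : ℝ} (hb : Nb n q) (h k : ℕ) (hk : k ≤ h) (hh : h ≤ n ^ 2)
    (Λ : ℝ) (hΛ : 1 ≤ Λ) (hkΛ : 2000 * Λ ^ 3 ≤ k) (a s : ℤ) (hsz : s ≠ 0) (J : Finset ℤ)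
    (hco : ∀ z ∈ J, ∃ j : ℤ, z = a - j * s ∧ |j| ≤ (h : ℤ)) (hJc : (h : ℝ) / Λ ≤ J.card) :
    (h : ℝ) ^ 2 * k / (128 * q * Λ ^ 3) ≤ ((TD k J).card : ℝ) := by
  choose! j hj using hco
  set I := J.image j with hI
  have hzj : ∀ z ∈ J, z = a - j z * s := fun z hz => (hj z hz).1
  have hinj : Set.InjOn j J := by
    intro z hz z' hz' he
    rw [hzj z hz, hzj z' hz', he]
  have hIc : I.card = J.card := Finset.card_image_of_injOn hinj
  have h1 := dense_triples hb h k hk hh Λ hΛ hkΛ I (by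
    intro i hi
    obtain ⟨z, hz, rfl⟩ := mem_image.mp hi
    exact (hj z hz).2) (by rw [hIc]; exact hJc)
  refine h1.trans ?_
  apply Nat.cast_le.mpr
  refine Finset.card_le_card_of_injOn
    (fun w => (a - w.1 * s, a - w.2.1 * s, a - w.2.2 * s)) ?_ ?_
  · rintro ⟨x, y, z⟩ hw
    have hw' : ((x, y, z) : ℤ × ℤ × ℤ) ∈ (I ×ˢ I ×ˢ I).filter (fun z => z.1 ≠ z.2.1 ∧
      z.1 ≠ z.2.2 ∧ z.2.1 ≠ z.2.2 ∧ hs z.1 z.2.1 z.2.2 ≤ k) := hw
    rw [mem_filter, mem_product, mem_product] at hw'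
    obtain ⟨⟨hx, hy, hz⟩, h2, h3, h4, h5⟩ := hw'
    simp only at hx hy hz h2 h3 h4 h5
    have hmem : ∀ i ∈ I, a - i * s ∈ J := by
      intro i hi
      obtain ⟨z, hz, rfl⟩ := mem_image.mp hi
      rw [← hzj z hz]; exact hz
    have hne : ∀ i i' : ℤ, i ≠ i' → a - i * s ≠ a - i' * s := by
      intro i i' hne he
      apply hne
      have : i * s = i' * s := by linarith
      exact mul_right_cancel₀ hsz this
    have : (a - x * s, a - y * s, a - z * s) ∈ TD k J := by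
      rw [mem_TD]
      refine ⟨⟨hmem x hx, hmem y hy, hmem z hz⟩, hne _ _ h2, hne _ _ h3, hne _ _ h4, ?_⟩
      rw [hs_affine a s x y z hsz]
      exact h5
    exact this
  · rintro ⟨x, y, z⟩ _ ⟨x', y', z'⟩ _ he
    simp only [Prod.mk.injEq] at he
    obtain ⟨e1, e2, e3⟩ := he
    have hc : ∀ i i' : ℤ, a - i * s = a - i' * s → i = i' := by
      intro i i' he
      have : i * s = i' * s := by linarith
      exact mul_right_cancel₀ hsz this
    rw [hc _ _ e1, hc _ _ e2, hc _ _ e3]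

/- PROOF. As tc_down (BDown.lean; block_triples, card_TD_le, the trick with U x). X = card C * H² k /
(128 q Λ³) pairs (c, triple of J c of height ≤ k) (dense_triples for {u : a - u s ∈ J c}, hs_affine).
L2 = q⁵ Λ³ μ, U x = {y ∈ A.erase x : card (F A (2H) x y) > L2 H}, card (U x) ≤ 4 q² n / L2².
Triples with y, z ∈ U x: at most Mm * n * (k q (2 H q √n) (2 q √n / L2)) = 4 q³ Mm k H n² / L2 ≤ X / 2,
because card C * H ≥ Mm n² / μ: X / 2 ≥ Mm n² H k / (256 q Λ³ μ) and L2 ≥ 1024 q⁴ Λ³ μ.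
The others: each triple belongs to at most Mm L2 H indices, so tc A k ≥ (X / 2) / (Mm L2 H) ≥
n² k / (256 q⁶ Λ^6 μ²). -/
theorem tc_down_gen {n : ℕ} {q : ℝ} (hb : Nb n q) (A : Finset ℤ) (hA : A.card ≤ n) {ι : Type}
    [DecidableEq ι] (C : Finset ι) (J : ι → Finset ℤ) (H k : ℕ) (hk : k ≤ H)
    (hH : 2 * H ≤ n ^ 2) (Λ μ Mm : ℝ) (hΛ : 1 ≤ Λ) (hμ : 1 ≤ μ) (hM : 0 < Mm)
    (hkΛ : 2000 * Λ ^ 3 ≤ k)
    (hJ : ∀ c ∈ C, (H : ℝ) / Λ ≤ (J c).card ∧ ∃ a s : ℤ, s ≠ 0 ∧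
      ∀ x ∈ J c, x ∈ A ∧ ∃ u : ℤ, x = a - u * s ∧ |u| ≤ (H : ℤ))
    (hmult : ∀ x y : ℤ, x ≠ y → ((C.filter (fun c => x ∈ J c ∧ y ∈ J c)).card : ℝ) ≤
      Mm * (F A (2 * H) x y).card)
    (hC : Mm * (n : ℝ) ^ 2 / μ ≤ (C.card : ℝ) * H) :
    (n : ℝ) ^ 2 * k / (q ^ 7 * Λ ^ 6 * μ ^ 2) ≤ tc A k := by
  have hq := hb.q_pos
  have hq4 := hb.hq
  have hn := hb.n_pos'
  have hΛ0 : 0 < Λ := by linarith
  have hμ0 : 0 < μ := by linarith
  have hk0 : (0 : ℝ) < k := lt_of_lt_of_le (by positivity) hkΛ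
  have hh0 : (0 : ℝ) < H := lt_of_lt_of_le hk0 (by exact_mod_cast hk)
  have hJA : ∀ p ∈ C, J p ⊆ A := by
    intro p hp z hz
    obtain ⟨_, a, s, _, h2⟩ := hJ p hp
    exact (h2 z hz).1
  -- the quintuples
  set X : ℝ := ∑ p ∈ C, ((TD k (J p)).card : ℝ) with hX
  have hXlow : Mm * (n : ℝ) ^ 2 * H * k / (128 * q * μ * Λ ^ 3) ≤ X := by
    calc Mm * (n : ℝ) ^ 2 * H * k / (128 * q * μ * Λ ^ 3) =
        Mm * (n : ℝ) ^ 2 / μ * ((H : ℝ) * k / (128 * q * Λ ^ 3)) := by field_simp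
      _ ≤ (C.card : ℝ) * H * ((H : ℝ) * k / (128 * q * Λ ^ 3)) :=
          mul_le_mul_of_nonneg_right hC (by positivity)
      _ = C.card * ((H : ℝ) ^ 2 * k / (128 * q * Λ ^ 3)) := by ring
      _ = ∑ p ∈ C, (H : ℝ) ^ 2 * k / (128 * q * Λ ^ 3) := by rw [sum_const, nsmul_eq_mul]
      _ ≤ X := sum_le_sum fun p hp => by
          obtain ⟨h1, a, s, hs0, h2⟩ := hJ p hp
          exact block_triples_ap hb H k hk (by omega) Λ hΛ hkΛ a s hs0 (J p)
            (fun z hz => (h2 z hz).2) h1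
  -- double counting
  set T := TD k A with hT
  set Mw : ℤ × ℤ × ℤ → ℝ := fun w => ((C.filter (fun p => w ∈ TD k (J p))).card : ℝ) with hMw
  have hXe : X = ∑ w ∈ T, Mw w := by
    have e1 : ∀ p ∈ C, ((TD k (J p)).card : ℝ) =
        ∑ w ∈ T, (if w ∈ TD k (J p) then (1 : ℝ) else 0) := by
      intro p hp
      rw [← Finset.sum_filter, sum_const, nsmul_eq_mul, mul_one, Finset.filter_mem_eq_inter,
        inter_eq_right.mpr]
      rintro ⟨x, y, z⟩ hw
      rw [mem_TD] at hw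
      rw [hT, mem_TD]
      exact ⟨⟨hJA p hp hw.1.1, hJA p hp hw.1.2.1, hJA p hp hw.1.2.2⟩, hw.2⟩
    rw [hX, sum_congr rfl e1, sum_comm]
    refine sum_congr rfl fun w _ => ?_
    rw [← Finset.sum_filter, sum_const, nsmul_eq_mul, mul_one]
  have hM1 : ∀ x y z : ℤ, (x, y, z) ∈ T → Mw (x, y, z) ≤
      Mm * ((F A (2 * H) x y).card : ℝ) := by
    intro x y z hw
    rw [hT, mem_TD] at hw
    refine le_trans ?_ (hmult x y hw.2.1)
    simp only [hMw]
    apply Nat.cast_le.mpr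
    apply card_le_card
    intro p hp
    rw [mem_filter] at hp ⊢
    rw [mem_TD] at hp
    exact ⟨hp.1, hp.2.1.1, hp.2.1.2.1⟩
  have hM2 : ∀ x y z : ℤ, (x, y, z) ∈ T → Mw (x, y, z) ≤
      Mm * ((F A (2 * H) x z).card : ℝ) := by
    intro x y z hw
    rw [hT, mem_TD] at hw
    refine le_trans ?_ (hmult x z hw.2.2.1)
    simp only [hMw]
    apply Nat.cast_le.mpr
    apply card_le_card
    intro p hp
    rw [mem_filter] at hp ⊢
    rw [mem_TD] at hp
    exact ⟨hp.1, hp.2.1.1, hp.2.1.2.2⟩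
  -- unbounded pairs
  obtain ⟨L2, hL2⟩ : ∃ L2 : ℝ, L2 = q ^ 5 * μ * Λ ^ 3 := ⟨_, rfl⟩
  have hL20 : 0 < L2 := by rw [hL2]; positivity
  set U : ℤ → Finset ℤ := fun x => (A.erase x).filter
    (fun y => L2 * H < ((F A (2 * H) x y).card : ℝ)) with hU
  have hUsub : ∀ x, U x ⊆ A.erase x := fun x => filter_subset _ _
  have hsq : ∀ x ∈ A, ∑ y ∈ U x, ((F A (2 * H) x y).card : ℝ) ^ 2 ≤ (2 * H * q) ^ 2 * n := by
    intro x hx
    calc ∑ y ∈ U x, ((F A (2 * H) x y).card : ℝ) ^ 2 ≤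
        ∑ y ∈ A.erase x, ((F A (2 * H) x y).card : ℝ) ^ 2 :=
          Finset.sum_le_sum_of_subset_of_nonneg (hUsub x) (fun _ _ _ => sq_nonneg _)
      _ ≤ ((2 * H : ℕ) : ℝ) ^ 2 * q ^ 2 * n := hb.row_sq A hA x hx (2 * H) hH
      _ = (2 * H * q) ^ 2 * n := by push_cast; ring
  have hUc : ∀ x ∈ A, ((U x).card : ℝ) ≤ (2 * q / L2) ^ 2 * n := by
    intro x hx
    have h1 : ((U x).card : ℝ) * (L2 * H) ^ 2 ≤ (2 * H * q) ^ 2 * n := by
      refine le_trans ?_ (hsq x hx)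
      rw [← nsmul_eq_mul, ← sum_const]
      refine sum_le_sum fun y hy => ?_
      have := (mem_filter.mp hy).2
      exact pow_le_pow_left₀ (by positivity) this.le 2
    have h2 : (2 * q / L2) ^ 2 * n * (L2 * H) ^ 2 = (2 * H * q) ^ 2 * n := by
      field_simp
    rw [← h2] at h1
    exact le_of_mul_le_mul_right h1 (by positivity)
  set T1 := T.filter (fun w => w.2.1 ∈ U w.1 ∧ w.2.2 ∈ U w.1) with hT1
  have hT1s : ∑ w ∈ T1, Mw w ≤ Mm * (n * (k * q * ((2 * H * q) * (2 * q / L2) * n))) := by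
    have e1 : ∑ w ∈ T1, Mw w ≤ ∑ w ∈ T1, Mm * ((F A (2 * H) w.1 w.2.1).card : ℝ) := by
      refine sum_le_sum ?_
      rintro ⟨x, y, z⟩ hw
      exact hM1 x y z (mem_filter.mp hw).1
    refine e1.trans ?_
    rw [← mul_sum]
    apply mul_le_mul_of_nonneg_left _ hM.le
    -- as an iterated sum
    have e2 : ∑ w ∈ T1, ((F A (2 * H) w.1 w.2.1).card : ℝ) ≤
        ∑ x ∈ A, ∑ y ∈ U x, ∑ z ∈ U x,
          (if hgt (x - y) (x - z) ≤ k then ((F A (2 * H) x y).card : ℝ) * 1 else 0) := by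
      have e3 : ∑ x ∈ A, ∑ y ∈ U x, ∑ z ∈ U x,
          (if hgt (x - y) (x - z) ≤ k then ((F A (2 * H) x y).card : ℝ) * 1 else 0) =
          ∑ w ∈ A.sigma (fun x => U x ×ˢ U x),
          (if hgt (w.1 - w.2.1) (w.1 - w.2.2) ≤ k then
            ((F A (2 * H) w.1 w.2.1).card : ℝ) * 1 else 0) := by
        rw [Finset.sum_sigma]
        refine sum_congr rfl fun x _ => ?_
        rw [Finset.sum_product]
      rw [e3]
      have e4 : ∑ w ∈ T1, ((F A (2 * H) w.1 w.2.1).card : ℝ) =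
          ∑ w ∈ T1.image (fun w : ℤ × ℤ × ℤ => (⟨w.1, w.2⟩ : (_ : ℤ) × (ℤ × ℤ))),
          ((F A (2 * H) w.1 w.2.1).card : ℝ) := by
        rw [Finset.sum_image]
        rintro ⟨x, y⟩ _ ⟨x', y'⟩ _ he
        simpa using he
      rw [e4]
      have e5 : ∀ w ∈ T1.image (fun w : ℤ × ℤ × ℤ => (⟨w.1, w.2⟩ : (_ : ℤ) × (ℤ × ℤ))),
          ((F A (2 * H) w.1 w.2.1).card : ℝ) =
          (if hgt (w.1 - w.2.1) (w.1 - w.2.2) ≤ k then
            ((F A (2 * H) w.1 w.2.1).card : ℝ) * 1 else 0) := by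
        intro w hw
        obtain ⟨⟨x, y, z⟩, hw2, rfl⟩ := mem_image.mp hw
        rw [hT1, mem_filter, hT, mem_TD] at hw2
        obtain ⟨⟨_, hxy, _, _, h5⟩, _⟩ := hw2
        simp only
        rw [if_pos ((hgt_le_hs hxy z).trans h5), mul_one]
      rw [sum_congr rfl e5]
      apply Finset.sum_le_sum_of_subset_of_nonneg
      · intro w hw
        obtain ⟨⟨x, y, z⟩, hw2, rfl⟩ := mem_image.mp hw
        rw [hT1, mem_filter, hT, mem_TD] at hw2
        obtain ⟨⟨⟨hx, _, _⟩, _⟩, h6, h7⟩ := hw2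
        rw [mem_sigma, mem_product]
        exact ⟨hx, h6, h7⟩
      · intro w _ _
        split_ifs <;> positivity
    refine e2.trans ?_
    have e6 : ∀ x ∈ A, ∑ y ∈ U x, ∑ z ∈ U x,
        (if hgt (x - y) (x - z) ≤ k then ((F A (2 * H) x y).card : ℝ) * 1 else 0) ≤
        k * q * ((2 * H * q) * (2 * q / L2) * n) := by
      intro x hx
      have h1 := hb.bilin A hA x (U x) (hUsub x) (fun y => ((F A (2 * H) x y).card : ℝ))
        (fun _ => 1) (fun _ => Nat.cast_nonneg _) (fun _ => zero_le_one) k (by omega)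
      refine h1.trans ?_
      apply mul_le_mul_of_nonneg_left _ (by positivity)
      have h2 : Real.sqrt (∑ y ∈ U x, ((F A (2 * H) x y).card : ℝ) ^ 2) ≤
          (2 * H * q) * Real.sqrt n := by
        rw [Real.sqrt_le_left (by positivity), mul_pow, Real.sq_sqrt hn.le]
        exact hsq x hx
      have h3 : Real.sqrt (∑ _y ∈ U x, (1 : ℝ) ^ 2) ≤ (2 * q / L2) * Real.sqrt n := by
        rw [Real.sqrt_le_left (by positivity), mul_pow, Real.sq_sqrt hn.le]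
        simp only [one_pow, sum_const, nsmul_eq_mul, mul_one]
        exact hUc x hx
      calc Real.sqrt (∑ y ∈ U x, ((F A (2 * H) x y).card : ℝ) ^ 2) *
          Real.sqrt (∑ _y ∈ U x, (1 : ℝ) ^ 2) ≤
          ((2 * H * q) * Real.sqrt n) * ((2 * q / L2) * Real.sqrt n) :=
            mul_le_mul h2 h3 (Real.sqrt_nonneg _) (by positivity)
        _ = (2 * H * q) * (2 * q / L2) * (Real.sqrt n * Real.sqrt n) := by ring
        _ = _ := by rw [Real.mul_self_sqrt hn.le]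
    calc ∑ x ∈ A, ∑ y ∈ U x, ∑ z ∈ U x,
        (if hgt (x - y) (x - z) ≤ k then ((F A (2 * H) x y).card : ℝ) * 1 else 0) ≤
        ∑ x ∈ A, k * q * ((2 * H * q) * (2 * q / L2) * n) := sum_le_sum e6
      _ = A.card * (k * q * ((2 * H * q) * (2 * q / L2) * n)) := by rw [sum_const, nsmul_eq_mul]
      _ ≤ n * (k * q * ((2 * H * q) * (2 * q / L2) * n)) := by
          apply mul_le_mul_of_nonneg_right _ (by positivity)
          exact_mod_cast hA
  have hT2s : ∑ w ∈ T.filter (fun w => ¬ (w.2.1 ∈ U w.1 ∧ w.2.2 ∈ U w.1)), Mw w ≤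
      tc A k * (Mm * (L2 * H)) := by
    have e1 : ∀ w ∈ T.filter (fun w => ¬ (w.2.1 ∈ U w.1 ∧ w.2.2 ∈ U w.1)), Mw w ≤
        Mm * (L2 * H) := by
      rintro ⟨x, y, z⟩ hw
      rw [mem_filter] at hw
      obtain ⟨hw1, hw2⟩ := hw
      simp only at hw2
      have hw3 := hw1
      rw [hT, mem_TD] at hw3
      obtain ⟨⟨hx, hy, hz⟩, hxy, hxz, _, _⟩ := hw3
      rcases not_and_or.mp hw2 with h1 | h1
      · have h2 : ((F A (2 * H) x y).card : ℝ) ≤ L2 * H := by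
          by_contra hc
          push Not at hc
          exact h1 (mem_filter.mpr ⟨mem_erase.mpr ⟨hxy.symm, hy⟩, hc⟩)
        exact (hM1 x y z hw1).trans (mul_le_mul_of_nonneg_left h2 hM.le)
      · have h2 : ((F A (2 * H) x z).card : ℝ) ≤ L2 * H := by
          by_contra hc
          push Not at hc
          exact h1 (mem_filter.mpr ⟨mem_erase.mpr ⟨hxz.symm, hz⟩, hc⟩)
        exact (hM2 x y z hw1).trans (mul_le_mul_of_nonneg_left h2 hM.le)
    refine (sum_le_sum e1).trans ?_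
    rw [sum_const, nsmul_eq_mul]
    apply mul_le_mul_of_nonneg_right _ (by positivity)
    refine le_trans ?_ (card_TD_le A k)
    exact_mod_cast card_filter_le _ _
  have hsplit : X = ∑ w ∈ T1, Mw w +
      ∑ w ∈ T.filter (fun w => ¬ (w.2.1 ∈ U w.1 ∧ w.2.2 ∈ U w.1)), Mw w := by
    rw [hXe, hT1, Finset.sum_filter_add_sum_filter_not]
  have hhalf : Mm * (n * (k * q * ((2 * H * q) * (2 * q / L2) * n))) ≤
      Mm * (n : ℝ) ^ 2 * H * k / (256 * q * μ * Λ ^ 3) := by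
    have e1 : Mm * (n * (k * q * ((2 * H * q) * (2 * q / L2) * n))) =
        Mm * (n : ℝ) ^ 2 * H * k / (256 * q * μ * Λ ^ 3) * (1024 / q) := by
      rw [hL2]
      field_simp
      ring
    rw [e1]
    have h1 : 1024 / q ≤ 1 := by
      rw [div_le_one hq]; linarith
    calc Mm * (n : ℝ) ^ 2 * H * k / (256 * q * μ * Λ ^ 3) * (1024 / q) ≤
        Mm * (n : ℝ) ^ 2 * H * k / (256 * q * μ * Λ ^ 3) * 1 :=
          mul_le_mul_of_nonneg_left h1 (by positivity)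
      _ = _ := mul_one _
  have hdouble : Mm * (n : ℝ) ^ 2 * H * k / (128 * q * μ * Λ ^ 3) =
      Mm * (n : ℝ) ^ 2 * H * k / (256 * q * μ * Λ ^ 3) +
      Mm * (n : ℝ) ^ 2 * H * k / (256 * q * μ * Λ ^ 3) := by
    field_simp
    ring
  have hfin : Mm * (n : ℝ) ^ 2 * H * k / (256 * q * μ * Λ ^ 3) ≤
      tc A k * (Mm * (L2 * H)) := by
    rw [hdouble] at hXlow
    linarith
  have hfin2 : (n : ℝ) ^ 2 * k / (256 * q ^ 6 * μ ^ 2 * Λ ^ 6) ≤ tc A k := by
    have e1 : Mm * (n : ℝ) ^ 2 * H * k / (256 * q * μ * Λ ^ 3) =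
        (n : ℝ) ^ 2 * k / (256 * q ^ 6 * μ ^ 2 * Λ ^ 6) * (Mm * (L2 * H)) := by
      rw [hL2]
      field_simp
    rw [e1] at hfin
    exact le_of_mul_le_mul_right hfin (by positivity)
  refine le_trans ?_ hfin2
  apply div_le_div_of_nonneg_left (by positivity) (by positivity)
  have : 256 * q ^ 6 ≤ q ^ 7 := by
    calc 256 * q ^ 6 ≤ q * q ^ 6 := by
          apply mul_le_mul_of_nonneg_right _ (by positivity)
          linarith
      _ = q ^ 7 := by ring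
  calc 256 * q ^ 6 * μ ^ 2 * Λ ^ 6 = (256 * q ^ 6) * (Λ ^ 6 * μ ^ 2) := by ring
    _ ≤ q ^ 7 * (Λ ^ 6 * μ ^ 2) := mul_le_mul_of_nonneg_right this (by positivity)
    _ = _ := by ring

end Pool.Agent.MP_741d1b.All
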