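import Mathlib
import Pool.Agent.Lib.MP_741d1b_nt_all.BDefs

/-!
Part D (improved version of part B): the common divisor of the first sides of two triples.
-/

set_option autoImplicit false

namespace Pool.Agent.MP_741d1b.All

open Finset Classical
open Pool.Agent.MP_741d1b.H87

/-- The first side of a triple in units of the common divisor. -/
def mm (a b y : ℤ) : ℕ := (a - b).natAbs / gd a b y

/-- The common divisor of the first sides of the triples `a, b, y` and `a, b, z`. -/
def g2 (a b y z : ℤ) : ℕ := Nat.gcd (mm a b y) (mm a b z)

theorem g2_swap (a b y z : ℤ) : g2 b a y z = g2 a b y z := by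
  unfold g2 mm
  have e1 : (b - a).natAbs = (a - b).natAbs := by omega
  rw [e1, gd_comm12 a b y, gd_comm12 a b z]

end Pool.Agent.MP_741d1b.All
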