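import Mathlib
import Pool.Agent.Lib.MP_741d1b_nt_all.DDefs
import Pool.Agent.Lib.MP_741d1b_nt_all.BCount

/-!
Row D3: the points `b` with small heights to `y` and `z` (base point `a`) are in few arithmetic
progressions with first term `a`.
-/

set_option autoImplicit false

namespace Pool.Agent.MP_741d1b.All

open Finset Classical
open Pool.Agent.MP_741d1b.H87

private theorem d3_gcd_nu {x y r : ℤ} {g : ℕ} (hg : 0 < g) (hy : y = r * g) :
    Int.gcd x y = Int.gcd (nu x g) r * Int.gcd x g := by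
  have h1 : nu x g * (Int.gcd x g : ℤ) = x := nu_mul x g
  have h2 : dn x g * Int.gcd x g = g := dn_mul x g
  have hc : Int.gcd (nu x g) (dn x g : ℤ) = 1 := gcd_nu_dn hg
  have hy' : y = (r * dn x g) * (Int.gcd x g : ℤ) := by
    rw [hy]
    conv_lhs => rw [← h2]
    push_cast
    ring
  have h3 : Int.gcd (nu x g * (Int.gcd x g : ℤ)) ((r * dn x g) * (Int.gcd x g : ℤ)) =
      Int.gcd (nu x g) r * Int.gcd x g := by
    rw [Int.gcd_mul_right, Int.natAbs_natCast]
    congr 1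
    exact Int.gcd_mul_left_right_of_gcd_eq_one hc
  rw [h1, ← hy'] at h3
  exact h3

private theorem d3_coprime {u r r' : ℤ} (hrr : Int.gcd r r' = 1) :
    Nat.gcd (Int.gcd u r) (Int.gcd u r') = 1 := by
  have h1 : Nat.gcd (Int.gcd u r) (Int.gcd u r') ∣ Int.gcd r r' := by
    rw [Int.gcd_eq_natAbs]
    apply Nat.dvd_gcd
    · exact (Nat.gcd_dvd_left _ _).trans (Int.gcd_dvd_natAbs_right _ _)
    · exact (Nat.gcd_dvd_right _ _).trans (Int.gcd_dvd_natAbs_right _ _)
  rw [hrr] at h1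
  exact Nat.dvd_one.mp h1

/-- one cell of the sum -/
private theorem d3_sum (h P P' α β L : ℕ) (hP : 0 < P) (hP' : 0 < P') (hα : 0 < α) (hβ : 0 < β) :
    ∑ v ∈ Finset.Icc 1 L, (if v * P ≤ h * α ∧ v * P' ≤ h * β then ((h / max α β : ℕ) : ℝ) else 0) ≤
      (h : ℝ) ^ 2 / (max P P' : ℕ) := by
  have hPR : (0 : ℝ) < P := by exact_mod_cast hP
  have hPR' : (0 : ℝ) < P' := by exact_mod_cast hP'
  have hαR : (0 : ℝ) < α := by exact_mod_cast hα
  have hβR : (0 : ℝ) < β := by exact_mod_cast hβ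
  rw [← Finset.sum_filter, sum_const, nsmul_eq_mul]
  set V := (Finset.Icc 1 L).filter (fun v => v * P ≤ h * α ∧ v * P' ≤ h * β) with hV
  have c1 : (V.card : ℝ) ≤ (h : ℝ) * α / P := by
    have h1 : V ⊆ Finset.Icc 1 (h * α / P) := by
      intro v hv
      rw [hV, mem_filter, Finset.mem_Icc] at hv
      rw [Finset.mem_Icc]
      exact ⟨hv.1.1, (Nat.le_div_iff_mul_le hP).mpr hv.2.1⟩
    have h2 := card_le_card h1
    rw [Nat.card_Icc, Nat.add_sub_cancel] at h2
    have h3 : ((h * α / P : ℕ) : ℝ) ≤ ((h * α : ℕ) : ℝ) / P := Nat.cast_div_le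
    calc (V.card : ℝ) ≤ ((h * α / P : ℕ) : ℝ) := by exact_mod_cast h2
      _ ≤ _ := h3
      _ = _ := by push_cast; ring
  have c2 : (V.card : ℝ) ≤ (h : ℝ) * β / P' := by
    have h1 : V ⊆ Finset.Icc 1 (h * β / P') := by
      intro v hv
      rw [hV, mem_filter, Finset.mem_Icc] at hv
      rw [Finset.mem_Icc]
      exact ⟨hv.1.1, (Nat.le_div_iff_mul_le hP').mpr hv.2.2⟩
    have h2 := card_le_card h1
    rw [Nat.card_Icc, Nat.add_sub_cancel] at h2
    have h3 : ((h * β / P' : ℕ) : ℝ) ≤ ((h * β : ℕ) : ℝ) / P' := Nat.cast_div_le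
    calc (V.card : ℝ) ≤ ((h * β / P' : ℕ) : ℝ) := by exact_mod_cast h2
      _ ≤ _ := h3
      _ = _ := by push_cast; ring
  have hm : (0 : ℝ) < ((max α β : ℕ) : ℝ) := by exact_mod_cast lt_max_of_lt_left hα
  have u0 : ((h / max α β : ℕ) : ℝ) ≤ (h : ℝ) / ((max α β : ℕ) : ℝ) := Nat.cast_div_le
  have u1 : ((h / max α β : ℕ) : ℝ) ≤ (h : ℝ) / α := by
    refine u0.trans (div_le_div_of_nonneg_left (Nat.cast_nonneg _) hαR ?_)
    exact_mod_cast le_max_left α β
  have u2 : ((h / max α β : ℕ) : ℝ) ≤ (h : ℝ) / β := by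
    refine u0.trans (div_le_div_of_nonneg_left (Nat.cast_nonneg _) hβR ?_)
    exact_mod_cast le_max_right α β
  rcases le_total P' P with hle | hle
  · rw [max_eq_left hle]
    calc (V.card : ℝ) * ((h / max α β : ℕ) : ℝ) ≤ ((h : ℝ) * α / P) * ((h : ℝ) / α) :=
          mul_le_mul c1 u1 (Nat.cast_nonneg _) (by positivity)
      _ = (h : ℝ) ^ 2 / P := by field_simp
  · rw [max_eq_right hle]
    calc (V.card : ℝ) * ((h / max α β : ℕ) : ℝ) ≤ ((h : ℝ) * β / P') * ((h : ℝ) / β) :=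
          mul_le_mul c2 u2 (Nat.cast_nonneg _) (by positivity)
      _ = (h : ℝ) ^ 2 / P' := by field_simp

/- PROOF. (see also the proof of b_count in BCount.lean.) g = gcd (a - y) (a - z), a - y = p g,
a - z = p' g, gcd p p' = 1, hgt (a - y) (a - z) = max |p| |p'|. For b: d = gcd (a - b) g, u = (a - b) / d,
v = g / d > 0 (so (a - b) v = g u, gcd u v = 1). α = gcd u p, β = gcd u p' (coprime, α β ∣ u),
u = α β u'. a - y = p g = p v d, a - b = u d, so gd a b y = gcd (u d) (p v d) = α d, mm a b y = |u| / α =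
β |u'|; gd a b z = β d, mm a b z = α |u'|; g2 = gcd (β |u'|) (α |u'|) = |u'|. hs a b y ≤ h: |u| ≤ h α,
v |p| ≤ h α; hs a b z ≤ h: |u| ≤ h β, v |p'| ≤ h β; since α β ≤ |u|: α ≤ h,
β ≤ h. Index i = (α, β, v), I = {i : α ∣ p, β ∣ p', α ≤ h, β ≤ h, 1 ≤ v, v |p| ≤ h α, v |p'| ≤ h β}, U i = h / max α β (floor), s i = d α β = (g / v) α β.
Then a - b = u' s i, |u'| ≤ U i. Sum: for given (α, β) (at most q² pairs) the number of v is at most
min (h α / |p|) (h β / |p'|), times h / max α β is ≤ h² / max |p| |p'|. (If hgt > h ^ 2 then I is empty, as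
|p| ≤ h α ≤ h²; divisors: |p|, |p'| ≤ h² ≤ n ^ 4.) -/
theorem cells {n : ℕ} {q : ℝ} (hb : Nb n q) (h : ℕ) (hh : h ≤ n ^ 2) (a y z : ℤ) (hy : y ≠ a)
    (hz : z ≠ a) : ∃ (I : Finset (ℕ × ℕ × ℕ)) (U : ℕ × ℕ × ℕ → ℕ) (s : ℕ × ℕ × ℕ → ℤ),
    (∀ i ∈ I, U i ≤ h) ∧
    (∑ i ∈ I, (U i : ℝ)) * hgt (a - y) (a - z) ≤ q ^ 2 * (h : ℝ) ^ 2 ∧
    ∀ b : ℤ, b ≠ a → b ≠ y → b ≠ z → hs a b y ≤ h → hs a b z ≤ h →
      ∃ i ∈ I, ∃ u : ℤ, s i ≠ 0 ∧ b = a - u * s i ∧ |u| ≤ U i ∧ u.natAbs = g2 a b y z := by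
  have hY : a - y ≠ 0 := sub_ne_zero.mpr hy.symm
  have hZ : a - z ≠ 0 := sub_ne_zero.mpr hz.symm
  have hg : 0 < Int.gcd (a - y) (a - z) := Int.gcd_pos_of_ne_zero_left _ hY
  obtain ⟨p, p', hpp, hp, hp'⟩ := Int.exists_gcd_one hg
  set g := Int.gcd (a - y) (a - z) with hgd
  have hH : hgt (a - y) (a - z) = max p.natAbs p'.natAbs := hgt_coprime hg hp hp' hpp
  have hp0 : p ≠ 0 := by intro h0; apply hY; rw [hp, h0, zero_mul]
  have hp0' : p' ≠ 0 := by intro h0; apply hZ; rw [hp', h0, zero_mul]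
  have hP : 0 < p.natAbs := Int.natAbs_pos.mpr hp0
  have hP' : 0 < p'.natAbs := Int.natAbs_pos.mpr hp0'
  have hq := hb.q_pos
  refine ⟨(p.natAbs.divisors ×ˢ p'.natAbs.divisors ×ˢ Finset.Icc 1 (h * h)).filter
    (fun i => (i.1 ≤ h ∧ i.2.1 ≤ h) ∧ (i.2.2 * p.natAbs ≤ h * i.1 ∧ i.2.2 * p'.natAbs ≤ h * i.2.1)),
    fun i => h / max i.1 i.2.1, fun i => (((g / i.2.2) * (i.1 * i.2.1) : ℕ) : ℤ),
    fun i _ => Nat.div_le_self _ _, ?_, ?_⟩
  · set I := (p.natAbs.divisors ×ˢ p'.natAbs.divisors ×ˢ Finset.Icc 1 (h * h)).filter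
      (fun i : ℕ × ℕ × ℕ => (i.1 ≤ h ∧ i.2.1 ≤ h) ∧
        (i.2.2 * p.natAbs ≤ h * i.1 ∧ i.2.2 * p'.natAbs ≤ h * i.2.1)) with hI
    rcases I.eq_empty_or_nonempty with h0 | ⟨i0, hi0⟩
    · rw [h0]
      simp only [sum_empty, zero_mul]
      positivity
    · rw [hI, mem_filter, mem_product, mem_product, Finset.mem_Icc] at hi0
      obtain ⟨⟨_, _, hv1, _⟩, ⟨hα, hβ⟩, hvp, hvp'⟩ := hi0
      have hn4 : h * h ≤ n ^ 8 := by
        calc h * h ≤ n ^ 2 * n ^ 2 := Nat.mul_le_mul hh hh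
          _ = n ^ 4 := by ring
          _ ≤ n ^ 8 := Nat.pow_le_pow_right hb.n_pos (by norm_num)
      have b1 : p.natAbs ≤ n ^ 8 := by
        calc p.natAbs = 1 * p.natAbs := (one_mul _).symm
          _ ≤ i0.2.2 * p.natAbs := Nat.mul_le_mul_right _ hv1
          _ ≤ h * i0.1 := hvp
          _ ≤ h * h := Nat.mul_le_mul_left _ hα
          _ ≤ n ^ 8 := hn4
      have b2 : p'.natAbs ≤ n ^ 8 := by
        calc p'.natAbs = 1 * p'.natAbs := (one_mul _).symm
          _ ≤ i0.2.2 * p'.natAbs := Nat.mul_le_mul_right _ hv1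
          _ ≤ h * i0.2.1 := hvp'
          _ ≤ h * h := Nat.mul_le_mul_left _ hβ
          _ ≤ n ^ 8 := hn4
      have c1 : (p.natAbs.divisors.card : ℝ) ≤ q := hb.hdiv _ hP b1
      have c2 : (p'.natAbs.divisors.card : ℝ) ≤ q := hb.hdiv _ hP' b2
      have hHpos : (0 : ℝ) < ((max p.natAbs p'.natAbs : ℕ) : ℝ) := by
        exact_mod_cast lt_max_of_lt_left hP
      have hsum : ∑ i ∈ I, ((h / max i.1 i.2.1 : ℕ) : ℝ) ≤
          ∑ _α ∈ p.natAbs.divisors, ∑ _β ∈ p'.natAbs.divisors,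
            (h : ℝ) ^ 2 / ((max p.natAbs p'.natAbs : ℕ) : ℝ) := by
        rw [hI, Finset.sum_filter, Finset.sum_product]
        refine sum_le_sum fun α hα => ?_
        rw [Finset.sum_product]
        refine sum_le_sum fun β hβ => ?_
        have hα0 : 0 < α := Nat.pos_of_mem_divisors hα
        have hβ0 : 0 < β := Nat.pos_of_mem_divisors hβ
        refine le_trans (sum_le_sum fun v _ => ?_)
          (d3_sum h p.natAbs p'.natAbs α β (h * h) hP hP' hα0 hβ0)
        by_cases hc : v * p.natAbs ≤ h * α ∧ v * p'.natAbs ≤ h * β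
        · rw [if_pos hc]
          split_ifs
          · exact le_refl _
          · positivity
        · rw [if_neg (fun h' => hc h'.2), if_neg hc]
      rw [hH]
      calc (∑ i ∈ I, ((h / max i.1 i.2.1 : ℕ) : ℝ)) * ((max p.natAbs p'.natAbs : ℕ) : ℝ)
          ≤ (∑ _α ∈ p.natAbs.divisors, ∑ _β ∈ p'.natAbs.divisors,
            (h : ℝ) ^ 2 / ((max p.natAbs p'.natAbs : ℕ) : ℝ)) *
              ((max p.natAbs p'.natAbs : ℕ) : ℝ) :=
            mul_le_mul_of_nonneg_right hsum hHpos.le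
        _ = ((p.natAbs.divisors.card : ℝ) * p'.natAbs.divisors.card) * (h : ℝ) ^ 2 := by
            rw [sum_const, sum_const, nsmul_eq_mul, nsmul_eq_mul, mul_assoc, mul_assoc,
              div_mul_cancel₀ _ hHpos.ne', ← mul_assoc]
        _ ≤ (q * q) * (h : ℝ) ^ 2 :=
            mul_le_mul_of_nonneg_right (mul_le_mul c1 c2 (Nat.cast_nonneg _) hq.le)
              (sq_nonneg _)
        _ = q ^ 2 * (h : ℝ) ^ 2 := by ring
  · intro b hba _ _ h1 h2
    have hab : a ≠ b := hba.symm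
    have hx : a - b ≠ 0 := sub_ne_zero.mpr hab
    have k1 : hgt (a - b) (a - y) ≤ h := (hgt_le_hs hab y).trans h1
    have k2 : hgt (a - b) (a - z) ≤ h := (hgt_le_hs hab z).trans h2
    have e1 := hgt_nu (x := a - b) hg hp
    have e2 := hgt_nu (x := a - b) hg hp'
    have e3 := gcd_mul_dvd (u := nu (a - b) g) hpp
    have e4 := d3_coprime (u := nu (a - b) g) hpp
    have e5 : gd a b y = Int.gcd (nu (a - b) g) p * Int.gcd (a - b) g := d3_gcd_nu hg hp
    have e6 : gd a b z = Int.gcd (nu (a - b) g) p' * Int.gcd (a - b) g := d3_gcd_nu hg hp'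
    have e7 := nu_mul (a - b) g
    have e8 := dn_mul (a - b) g
    have hu0 := nu_ne_zero (g := g) hx
    have hv0 : 0 < dn (a - b) g := dn_pos hg
    have hd0 : 0 < Int.gcd (a - b) g := Int.gcd_pos_of_ne_zero_left _ hx
    have hα0 : 0 < Int.gcd (nu (a - b) g) p := Int.gcd_pos_of_ne_zero_left _ hu0
    have hβ0 : 0 < Int.gcd (nu (a - b) g) p' := Int.gcd_pos_of_ne_zero_left _ hu0
    have hα1 : Int.gcd (nu (a - b) g) p ∈ p.natAbs.divisors := by
      rw [Nat.mem_divisors]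
      exact ⟨Int.gcd_dvd_natAbs_right _ _, hP.ne'⟩
    have hβ1 : Int.gcd (nu (a - b) g) p' ∈ p'.natAbs.divisors := by
      rw [Nat.mem_divisors]
      exact ⟨Int.gcd_dvd_natAbs_right _ _, hP'.ne'⟩
    set u0 := nu (a - b) g with hu0d
    set v := dn (a - b) g with hvd
    set d := Int.gcd (a - b) g with hdd
    set α := Int.gcd u0 p with hαd
    set β := Int.gcd u0 p' with hβd
    obtain ⟨w, hw⟩ : ((α * β : ℕ) : ℤ) ∣ u0 := Int.natCast_dvd.mpr e3
    have hw0 : w ≠ 0 := by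
      intro h0
      rw [h0, mul_zero] at hw
      exact hu0 hw
    have hwn : u0.natAbs = α * β * w.natAbs := by
      rw [hw, Int.natAbs_mul, Int.natAbs_natCast]
    have hwpos : 0 < w.natAbs := Int.natAbs_pos.mpr hw0
    have l1 : max u0.natAbs (p.natAbs * v) ≤ h * α := by
      rw [← e1]; exact Nat.mul_le_mul_right _ k1
    have l2 : max u0.natAbs (p'.natAbs * v) ≤ h * β := by
      rw [← e2]; exact Nat.mul_le_mul_right _ k2
    have m1 : u0.natAbs ≤ h * α := (le_max_left _ _).trans l1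
    have m2 : u0.natAbs ≤ h * β := (le_max_left _ _).trans l2
    have m3 : p.natAbs * v ≤ h * α := (le_max_right _ _).trans l1
    have m4 : p'.natAbs * v ≤ h * β := (le_max_right _ _).trans l2
    have w1 : β * w.natAbs ≤ h := by
      rw [hwn] at m1
      have : (β * w.natAbs) * α ≤ h * α := by
        calc (β * w.natAbs) * α = α * β * w.natAbs := by ring
          _ ≤ h * α := m1
      exact Nat.le_of_mul_le_mul_right this hα0
    have w2 : α * w.natAbs ≤ h := by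
      rw [hwn] at m2
      have : (α * w.natAbs) * β ≤ h * β := by
        calc (α * w.natAbs) * β = α * β * w.natAbs := by ring
          _ ≤ h * β := m2
      exact Nat.le_of_mul_le_mul_right this hβ0
    have hαh : α ≤ h := (Nat.le_mul_of_pos_right _ hwpos).trans w2
    have hβh : β ≤ h := (Nat.le_mul_of_pos_right _ hwpos).trans w1
    have hvh : v ≤ h * h := by
      calc v ≤ p.natAbs * v := Nat.le_mul_of_pos_left _ hP
        _ ≤ h * α := m3
        _ ≤ h * h := Nat.mul_le_mul_left _ hαh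
    have hgv : g / v = d := by
      rw [← e8]
      exact Nat.mul_div_cancel_left _ hv0
    refine ⟨(α, β, v), ?_, w, ?_, ?_, ?_, ?_⟩
    · rw [mem_filter, mem_product, mem_product, Finset.mem_Icc]
      refine ⟨⟨hα1, hβ1, hv0, hvh⟩, ⟨hαh, hβh⟩, ?_, ?_⟩
      · show v * p.natAbs ≤ h * α
        rw [mul_comm]; exact m3
      · show v * p'.natAbs ≤ h * β
        rw [mul_comm]; exact m4
    · show (((g / v) * (α * β) : ℕ) : ℤ) ≠ 0
      rw [hgv]
      exact_mod_cast (Nat.mul_pos hd0 (Nat.mul_pos hα0 hβ0)).ne'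
    · show b = a - w * (((g / v) * (α * β) : ℕ) : ℤ)
      rw [hgv]
      have : a - b = w * ((d * (α * β) : ℕ) : ℤ) := by
        rw [← e7, hw]
        push_cast
        ring
      linarith
    · show |w| ≤ ((h / max α β : ℕ) : ℤ)
      have hmax : 0 < max α β := lt_max_of_lt_left hα0
      have : w.natAbs ≤ h / max α β := by
        rw [Nat.le_div_iff_mul_le hmax]
        rcases le_total β α with hle | hle
        · rw [max_eq_left hle, mul_comm]; exact w2
        · rw [max_eq_right hle, mul_comm]; exact w1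
      rw [Int.abs_eq_natAbs]
      exact_mod_cast this
    · have hxn : (a - b).natAbs = u0.natAbs * d := by
        rw [← e7, Int.natAbs_mul, Int.natAbs_natCast]
      have mm1 : mm a b y = β * w.natAbs := by
        unfold mm
        rw [e5, hxn, hwn]
        have : α * β * w.natAbs * d = (β * w.natAbs) * (α * d) := by ring
        rw [this]
        exact Nat.mul_div_cancel _ (Nat.mul_pos hα0 hd0)
      have mm2 : mm a b z = α * w.natAbs := by
        unfold mm
        rw [e6, hxn, hwn]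
        have : α * β * w.natAbs * d = (α * w.natAbs) * (β * d) := by ring
        rw [this]
        exact Nat.mul_div_cancel _ (Nat.mul_pos hβ0 hd0)
      unfold g2
      rw [mm1, mm2, Nat.gcd_mul_right, Nat.gcd_comm, e4, one_mul]

end Pool.Agent.MP_741d1b.All
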