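import Mathlib
import Pool.Agent.Lib.MP_741d1b_nt_all.DCells
import Pool.Agent.Lib.MP_741d1b_nt_all.BNorm
import Pool.Agent.Lib.MP_741d1b_nt_all.BCount

/-!
Row D4: many dense arithmetic progressions of about the same length.
-/

set_option autoImplicit false

namespace Pool.Agent.MP_741d1b.All

open Finset Classical
open Pool.Agent.MP_741d1b.H87

/-- the reciprocal of the height is bounded by the kernel -/
private theorem d4_gk {L : ℕ} {x y : ℤ} (hx : x ≠ 0) (hy : y ≠ 0) (hL : hgt x y ≤ L) :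
    1 / (hgt x y : ℝ) ≤ gk L x y := by
  have h1 : gk L x y = (Int.gcd x y : ℝ) / Real.sqrt (|(x : ℝ)| * |(y : ℝ)|) := by
    unfold gk
    rw [if_pos ⟨hx, hy, hL⟩]
  have h2 := hgt_mul_gcd x y
  have hx' : 0 < |(x : ℝ)| := abs_pos.mpr (Int.cast_ne_zero.mpr hx)
  have hy' : 0 < |(y : ℝ)| := abs_pos.mpr (Int.cast_ne_zero.mpr hy)
  have ex : ((x.natAbs : ℕ) : ℝ) = |(x : ℝ)| := by rw [Nat.cast_natAbs, Int.cast_abs]
  have ey : ((y.natAbs : ℕ) : ℝ) = |(y : ℝ)| := by rw [Nat.cast_natAbs, Int.cast_abs]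
  have hpos : 0 < hgt x y := by
    rcases Nat.eq_zero_or_pos (hgt x y) with h0 | h0
    · exfalso
      rw [h0, zero_mul] at h2
      have : x.natAbs ≤ 0 := h2 ▸ le_max_left _ _
      omega
    · exact h0
  have hposR : (0 : ℝ) < hgt x y := by exact_mod_cast hpos
  have hx1 : |(x : ℝ)| ≤ (hgt x y : ℝ) * Int.gcd x y := by
    rw [← ex]
    exact_mod_cast h2 ▸ le_max_left x.natAbs y.natAbs
  have hy1 : |(y : ℝ)| ≤ (hgt x y : ℝ) * Int.gcd x y := by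
    rw [← ey]
    exact_mod_cast h2 ▸ le_max_right x.natAbs y.natAbs
  have hs : Real.sqrt (|(x : ℝ)| * |(y : ℝ)|) ≤ (hgt x y : ℝ) * Int.gcd x y := by
    apply Real.sqrt_le_iff.mpr
    refine ⟨by positivity, ?_⟩
    rw [sq]
    exact mul_le_mul hx1 hy1 hy'.le (by positivity)
  have hsp : 0 < Real.sqrt (|(x : ℝ)| * |(y : ℝ)|) := Real.sqrt_pos.mpr (mul_pos hx' hy')
  rw [h1, div_le_div_iff₀ hposR hsp, one_mul, mul_comm (Int.gcd x y : ℝ)]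
  exact hs

/-- one row of reciprocal heights -/
private theorem d4_row {n : ℕ} {q : ℝ} (hb : Nb n q) (A : Finset ℤ) (hA : A.card ≤ n) (a : ℤ) :
    ∑ y ∈ A, ∑ z ∈ A, (if y ≠ a ∧ z ≠ a then 1 / (hgt (a - y) (a - z) : ℝ) else 0) ≤
      q * n + 1 := by
  have hn0 : (0 : ℝ) < n := hb.n_pos'
  have e0 : ∑ y ∈ A, ∑ z ∈ A, (if y ≠ a ∧ z ≠ a then 1 / (hgt (a - y) (a - z) : ℝ) else 0) =
      ∑ y ∈ A.erase a, ∑ z ∈ A.erase a, 1 / (hgt (a - y) (a - z) : ℝ) := by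
    rw [← filter_ne', sum_filter]
    refine sum_congr rfl fun y _ => ?_
    by_cases hy : y ≠ a
    · rw [if_pos hy, sum_filter]
      refine sum_congr rfl fun z _ => ?_
      by_cases hz : z ≠ a
      · rw [if_pos ⟨hy, hz⟩, if_pos hz]
      · rw [if_neg hz, if_neg (fun h => hz h.2)]
    · rw [if_neg hy]
      refine sum_eq_zero fun z _ => ?_
      rw [if_neg (fun h => hy h.1)]
  have hinj : ∀ y ∈ A.erase a, ∀ z ∈ A.erase a, a - y = a - z → y = z :=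
    fun y _ z _ h => by omega
  have hne : ∀ x ∈ (A.erase a).image (fun y => a - y), x ≠ 0 := by
    intro x hx
    obtain ⟨y, hy, rfl⟩ := mem_image.mp hx
    have := (mem_erase.mp hy).1
    omega
  have hcard1 : (A.erase a).card ≤ n := (card_le_card (erase_subset _ _)).trans hA
  have hcardR : ((A.erase a).card : ℝ) ≤ n := by exact_mod_cast hcard1
  have hcard : ((A.erase a).image (fun y => a - y)).card ≤ n ^ 2 := by
    have h1 : ((A.erase a).image (fun y => a - y)).card ≤ (A.erase a).card := card_image_le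
    have h3 : n ≤ n ^ 2 := Nat.le_self_pow (by norm_num) n
    omega
  have key := hb.hnorm ((A.erase a).image (fun y => a - y)) hne hcard (fun _ => 1)
    (fun _ => 1) (fun _ => zero_le_one) (fun _ => zero_le_one)
  rw [sum_image hinj, sum_image hinj] at key
  simp only [sum_image hinj, one_pow, sum_const, nsmul_eq_mul, mul_one, one_mul] at key
  rw [Real.mul_self_sqrt (Nat.cast_nonneg _)] at key
  have hle : ∀ y ∈ A.erase a, ∀ z ∈ A.erase a, 1 / (hgt (a - y) (a - z) : ℝ) ≤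
      gk (n ^ 2) (a - y) (a - z) + 1 / (n : ℝ) ^ 2 := by
    intro y hy z hz
    have hy0 : a - y ≠ 0 := by
      have := (mem_erase.mp hy).1
      omega
    have hz0 : a - z ≠ 0 := by
      have := (mem_erase.mp hz).1
      omega
    have hn2 : (0 : ℝ) < (n : ℝ) ^ 2 := by positivity
    by_cases hl : hgt (a - y) (a - z) ≤ n ^ 2
    · have h1 := d4_gk hy0 hz0 hl
      have h2 : 0 ≤ 1 / (n : ℝ) ^ 2 := by positivity
      linarith
    · push Not at hl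
      have h1 : 1 / (hgt (a - y) (a - z) : ℝ) ≤ 1 / (n : ℝ) ^ 2 := by
        apply one_div_le_one_div_of_le hn2
        exact_mod_cast hl.le
      have h2 := gk_nonneg (n ^ 2) (a - y) (a - z)
      linarith
  rw [e0]
  calc ∑ y ∈ A.erase a, ∑ z ∈ A.erase a, 1 / (hgt (a - y) (a - z) : ℝ)
      ≤ ∑ y ∈ A.erase a, ∑ z ∈ A.erase a, (gk (n ^ 2) (a - y) (a - z) + 1 / (n : ℝ) ^ 2) :=
        sum_le_sum fun y hy => sum_le_sum fun z hz => hle y hy z hz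
    _ = ∑ y ∈ A.erase a, ∑ z ∈ A.erase a, gk (n ^ 2) (a - y) (a - z) +
        (A.erase a).card * ((A.erase a).card * (1 / (n : ℝ) ^ 2)) := by
        simp only [sum_add_distrib, sum_const, nsmul_eq_mul]
    _ ≤ q * (A.erase a).card + n * (n * (1 / (n : ℝ) ^ 2)) := by
        refine add_le_add key ?_
        apply mul_le_mul hcardR _ (by positivity) hn0.le
        exact mul_le_mul_of_nonneg_right hcardR (by positivity)
    _ ≤ q * n + 1 := by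
        refine add_le_add (mul_le_mul_of_nonneg_left hcardR hb.q_pos.le) (le_of_eq ?_)
        field_simp

/-- number of dyadic ranges -/
private theorem d4_log {n : ℕ} {q : ℝ} (hb : Nb n q) (h : ℕ) (hh1 : 1 ≤ h)
    (hh : 2 * h ≤ n ^ 2) : ((Nat.log 2 h : ℕ) : ℝ) + 1 ≤ 4 * q := by
  have hn0 : (0 : ℝ) < n := hb.n_pos'
  have h1 : 2 ^ (Nat.log 2 h) ≤ h := Nat.pow_log_le_self 2 (by omega)
  have h2 : (2 : ℝ) ^ (Nat.log 2 h) ≤ (n : ℝ) ^ 2 := by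
    have : 2 ^ (Nat.log 2 h) ≤ n ^ 2 := by omega
    exact_mod_cast this
  have h3 := Real.log_le_log (by positivity) h2
  rw [Real.log_pow, Real.log_pow] at h3
  have h4 : (0.6931471803 : ℝ) < Real.log 2 := Real.log_two_gt_d9
  have h5 := hb.hlog
  have h6 := hb.log_nonneg
  have h7 : (0 : ℝ) ≤ (Nat.log 2 h : ℕ) := Nat.cast_nonneg _
  push_cast at h3
  nlinarith

/- PROOF. Reorder the sum: for (a, y, z), y ≠ z, both ≠ a, let B(a, y, z) = {b ∈ A.erase a : y, z ∈ F a b,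
κ ≤ g2 a b y z}; ∑ card B ≥ n² h² / (8 l²). For each (a, y, z) take I, U, s from cells and for b ∈ B choose
an index i b; the cell J (a, y, z, i) = {b ∈ B : i b = i}; u ≠ 0 (κ > 0), so card J ≤ 2 U i, and
κ ≤ |u| ≤ U i if J is nonempty. ∑ (a, y, z) ∑ i, U i ≤ ∑ q² h² / hgt (a - y) (a - z) ≤ q² h² (n q n + n)
≤ 2 q³ n² h²: for fixed a the part with hgt ≤ n² is at most q n by hb.hnorm (f = g = 1, 1 / hgt ≤ gk), the
part with hgt > n² at most n² / n² = 1. Cells with card J < U / (32 q³ l²) contribute at most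
n² h² / (16 l²). The others: dyadic ranges 2^e ≤ U < 2^(e+1), 2^e ≤ h ≤ n²: at most 4 q ranges, one of
them, U0 = 2^e, has ∑ card J ≥ n² h² / (64 q l²), so card (cells) * 4 U0 ≥ n² h² / (64 q l²). -/
theorem good_cells {n : ℕ} {q : ℝ} (hb : Nb n q) (A : Finset ℤ) (hA : A.card ≤ n) (h : ℕ)
    (hh1 : 1 ≤ h) (hh : 2 * h ≤ n ^ 2) (l κ : ℝ) (hl : 1 ≤ l) (hκ : 1 ≤ κ)
    (F : ℤ → ℤ → Finset ℤ) (hF : ∀ a b, F a b ⊆ Pool.Agent.MP_741d1b.All.F A h a b)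
    (hQ : (n : ℝ) ^ 2 * (h : ℝ) ^ 2 / (8 * l ^ 2) ≤
      ∑ a ∈ A, ∑ b ∈ A.erase a, ∑ y ∈ F a b, (((F a b).filter (fun z => z ≠ y ∧
          κ ≤ (g2 a b y z : ℝ))).card : ℝ)) :
    ∃ (U0 : ℕ) (C : Finset ((ℤ × ℤ × ℤ) × (ℕ × ℕ × ℕ)))
      (J : (ℤ × ℤ × ℤ) × (ℕ × ℕ × ℕ) → Finset ℤ), 1 ≤ U0 ∧ κ ≤ 2 * U0 ∧ U0 ≤ h ∧
      (n : ℝ) ^ 2 * (h : ℝ) ^ 2 / (256 * q * l ^ 2) ≤ (C.card : ℝ) * U0 ∧
      ∀ c ∈ C, c.1.1 ∈ A ∧ (U0 : ℝ) / (32 * q ^ 3 * l ^ 2) ≤ (J c).card ∧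
        (∀ x ∈ J c, x ∈ A ∧ x ≠ c.1.1 ∧ c.1.2.1 ∈ F c.1.1 x ∧ c.1.2.2 ∈ F c.1.1 x) ∧
        (∃ s : ℤ, s ≠ 0 ∧ ∀ x ∈ J c, ∃ u : ℤ, x = c.1.1 - u * s ∧ |u| ≤ 2 * (U0 : ℤ)) ∧
        ∀ c' ∈ C, c.1 = c'.1 → c ≠ c' → Disjoint (J c) (J c') := by
  have hn0 : (0 : ℝ) < n := hb.n_pos'
  have hn1 : (1 : ℝ) ≤ n := by exact_mod_cast hb.n_pos
  have hq0 : 0 < q := hb.q_pos
  have hq1 : 1 ≤ q := hb.q_one
  have hl0 : 0 < l := by linarith
  have hh0 : (0 : ℝ) < h := by exact_mod_cast hh1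
  have hhn : h ≤ n ^ 2 := by omega
  -- the sets `B`
  set B : ℤ × ℤ × ℤ → Finset ℤ := fun t => (A.erase t.1).filter (fun b =>
    t.2.1 ∈ F t.1 b ∧ t.2.2 ∈ F t.1 b ∧ t.2.2 ≠ t.2.1 ∧ κ ≤ (g2 t.1 b t.2.1 t.2.2 : ℝ)) with hB
  have hBmem : ∀ t b, b ∈ B t ↔ ((b ≠ t.1 ∧ b ∈ A) ∧ t.2.1 ∈ F t.1 b ∧ t.2.2 ∈ F t.1 b ∧
      t.2.2 ≠ t.2.1 ∧ κ ≤ (g2 t.1 b t.2.1 t.2.2 : ℝ)) := by
    intro t b
    rw [hB]
    simp only [mem_filter, mem_erase]
  set T : Finset (ℤ × ℤ × ℤ) := A ×ˢ (A ×ˢ A) with hT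
  have hre : ∑ a ∈ A, ∑ b ∈ A.erase a, ∑ y ∈ F a b, (((F a b).filter (fun z => z ≠ y ∧
      κ ≤ (g2 a b y z : ℝ))).card : ℝ) = ∑ t ∈ T, ((B t).card : ℝ) := by
    rw [hT, sum_product]
    refine sum_congr rfl fun a _ => ?_
    have e1 : ∀ b ∈ A.erase a, ∑ y ∈ F a b, (((F a b).filter (fun z => z ≠ y ∧
        κ ≤ (g2 a b y z : ℝ))).card : ℝ) = ∑ y ∈ A, ∑ z ∈ A,
          (if (y ∈ F a b ∧ z ∈ F a b ∧ z ≠ y ∧ κ ≤ (g2 a b y z : ℝ)) then (1 : ℝ) else 0) := by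
      intro b _
      have hsub : F a b ⊆ A := fun y hy => (mem_F.mp (hF a b hy)).1
      refine Eq.trans ?_ (sum_subset hsub (f := fun y => ∑ z ∈ A,
        (if (y ∈ F a b ∧ z ∈ F a b ∧ z ≠ y ∧ κ ≤ (g2 a b y z : ℝ)) then (1 : ℝ) else 0)) ?_)
      · refine sum_congr rfl fun y hy => ?_
        refine Eq.trans ?_ (sum_subset hsub (f := fun z =>
          (if (y ∈ F a b ∧ z ∈ F a b ∧ z ≠ y ∧ κ ≤ (g2 a b y z : ℝ)) then (1 : ℝ) else 0)) ?_)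
        · rw [card_filter]
          push_cast
          refine sum_congr rfl fun z hz => ?_
          refine if_congr ?_ rfl rfl
          tauto
        · intro z _ hz
          exact if_neg fun h' => hz h'.2.1
      · intro y _ hy
        exact sum_eq_zero fun z _ => if_neg fun h' => hy h'.1
    rw [sum_congr rfl e1, sum_comm, sum_product]
    refine sum_congr rfl fun y _ => ?_
    rw [sum_comm]
    refine sum_congr rfl fun z _ => ?_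
    rw [hB, card_filter]
    push_cast
    rfl
  rw [hre] at hQ
  -- the cells
  have hcell : ∀ t : ℤ × ℤ × ℤ, ∃ (I : Finset (ℕ × ℕ × ℕ)) (U : ℕ × ℕ × ℕ → ℕ)
      (s : ℕ × ℕ × ℕ → ℤ), t.2.1 ≠ t.1 → t.2.2 ≠ t.1 → ((∀ i ∈ I, U i ≤ h) ∧
      (∑ i ∈ I, (U i : ℝ)) * hgt (t.1 - t.2.1) (t.1 - t.2.2) ≤ q ^ 2 * (h : ℝ) ^ 2 ∧
      ∀ b : ℤ, b ≠ t.1 → b ≠ t.2.1 → b ≠ t.2.2 → hs t.1 b t.2.1 ≤ h → hs t.1 b t.2.2 ≤ h →
      ∃ i ∈ I, ∃ u : ℤ, s i ≠ 0 ∧ b = t.1 - u * s i ∧ |u| ≤ U i ∧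
        u.natAbs = g2 t.1 b t.2.1 t.2.2) := by
    intro t
    by_cases ht : t.2.1 ≠ t.1 ∧ t.2.2 ≠ t.1
    · obtain ⟨I, U, s, h1, h2, h3⟩ := cells hb h hhn t.1 t.2.1 t.2.2 ht.1 ht.2
      exact ⟨I, U, s, fun _ _ => ⟨h1, h2, h3⟩⟩
    · exact ⟨∅, fun _ => 0, fun _ => 0, fun h1 h2 => absurd ⟨h1, h2⟩ ht⟩
  choose I U s hI using hcell
  have hidx : ∀ (t : ℤ × ℤ × ℤ) (b : ℤ), ∃ i : ℕ × ℕ × ℕ, b ∈ B t → (i ∈ I t ∧
      ∃ u : ℤ, s t i ≠ 0 ∧ b = t.1 - u * s t i ∧ |u| ≤ U t i ∧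
        u.natAbs = g2 t.1 b t.2.1 t.2.2) := by
    intro t b
    by_cases hbt : b ∈ B t
    · obtain ⟨⟨hba, hbA⟩, hy, hz, hzy, _⟩ := (hBmem t b).mp hbt
      obtain ⟨_, hy2, hy3, hy4⟩ := mem_F.mp (hF _ _ hy)
      obtain ⟨_, hz2, hz3, hz4⟩ := mem_F.mp (hF _ _ hz)
      obtain ⟨i, hi, u, h1⟩ := (hI t hy2 hz2).2.2 b hba hy3.symm hz3.symm hy4 hz4
      exact ⟨i, fun _ => ⟨hi, u, h1⟩⟩
    · exact ⟨(0, 0, 0), fun h' => absurd h' hbt⟩
  choose idx hidx using hidx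
  set J : (ℤ × ℤ × ℤ) × (ℕ × ℕ × ℕ) → Finset ℤ := fun c =>
    (B c.1).filter (fun b => idx c.1 b = c.2) with hJ
  have hJmem : ∀ c b, b ∈ J c ↔ b ∈ B c.1 ∧ idx c.1 b = c.2 := by
    intro c b
    rw [hJ]
    simp only [mem_filter]
  set T' : Finset (ℤ × ℤ × ℤ) := T.filter (fun t => t.2.1 ≠ t.1 ∧ t.2.2 ≠ t.1) with hT'
  set K : Finset ((ℤ × ℤ × ℤ) × (ℕ × ℕ × ℕ)) :=
    (T' ×ˢ T'.biUnion I).filter (fun c => c.2 ∈ I c.1) with hK
  have hKmem : ∀ c, c ∈ K ↔ c.1 ∈ T' ∧ c.2 ∈ I c.1 := by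
    intro c
    rw [hK, mem_filter, mem_product, mem_biUnion]
    constructor
    · rintro ⟨⟨h1, _⟩, h2⟩
      exact ⟨h1, h2⟩
    · rintro ⟨h1, h2⟩
      exact ⟨⟨h1, c.1, h1, h2⟩, h2⟩
  have hKsum : ∀ f : (ℤ × ℤ × ℤ) × (ℕ × ℕ × ℕ) → ℝ,
      ∑ c ∈ K, f c = ∑ t ∈ T', ∑ i ∈ I t, f (t, i) :=
    fun f => sum_finset_product K T' I hKmem
  -- the total number of elements of the cells
  have hBT : ∑ t ∈ T, ((B t).card : ℝ) = ∑ t ∈ T', ((B t).card : ℝ) := by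
    symm
    apply sum_subset (filter_subset _ _)
    intro t ht htn
    have : B t = ∅ := by
      rw [eq_empty_iff_forall_notMem]
      intro b hbt
      obtain ⟨_, hy, hz, _, _⟩ := (hBmem t b).mp hbt
      obtain ⟨_, hy2, _, _⟩ := mem_F.mp (hF _ _ hy)
      obtain ⟨_, hz2, _, _⟩ := mem_F.mp (hF _ _ hz)
      exact htn (mem_filter.mpr ⟨ht, hy2, hz2⟩)
    rw [this, card_empty, Nat.cast_zero]
  have hBJ : ∀ t ∈ T', ((B t).card : ℝ) = ∑ i ∈ I t, ((J (t, i)).card : ℝ) := by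
    intro t _
    have hmaps : ∀ b ∈ B t, idx t b ∈ I t := fun b hbt => (hidx t b hbt).1
    have h1 := card_eq_sum_card_fiberwise (f := idx t) (s := B t) (t := I t) hmaps
    rw [h1]
    push_cast
    rfl
  have hKJ : (n : ℝ) ^ 2 * (h : ℝ) ^ 2 / (8 * l ^ 2) ≤ ∑ c ∈ K, ((J c).card : ℝ) := by
    rw [hKsum, ← sum_congr rfl hBJ, ← hBT]
    exact hQ
  -- the total length of the cells
  have hW : ∑ c ∈ K, (U c.1 c.2 : ℝ) ≤ 2 * q ^ 3 * (n : ℝ) ^ 2 * (h : ℝ) ^ 2 := by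
    rw [hKsum]
    have h1 : ∀ t ∈ T', ∑ i ∈ I t, (U t i : ℝ) ≤
        q ^ 2 * (h : ℝ) ^ 2 * (1 / (hgt (t.1 - t.2.1) (t.1 - t.2.2) : ℝ)) := by
      intro t ht
      obtain ⟨_, hy, hz⟩ := mem_filter.mp ht
      have h2 := (hI t hy hz).2.1
      have hy0 : t.1 - t.2.1 ≠ 0 := by omega
      have hpos : 0 < hgt (t.1 - t.2.1) (t.1 - t.2.2) := by
        have h3 := hgt_mul_gcd (t.1 - t.2.1) (t.1 - t.2.2)
        rcases Nat.eq_zero_or_pos (hgt (t.1 - t.2.1) (t.1 - t.2.2)) with h0 | h0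
        · exfalso
          rw [h0, zero_mul] at h3
          have : (t.1 - t.2.1).natAbs ≤ 0 := h3 ▸ le_max_left _ _
          omega
        · exact h0
      have hposR : (0 : ℝ) < hgt (t.1 - t.2.1) (t.1 - t.2.2) := by exact_mod_cast hpos
      rw [mul_one_div, le_div_iff₀ hposR]
      exact h2
    refine (sum_le_sum h1).trans ?_
    rw [← mul_sum, hT', sum_filter, hT, sum_product]
    have h2 : ∀ a ∈ A, ∑ w ∈ A ×ˢ A, (if (w.1 ≠ a ∧ w.2 ≠ a) then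
        1 / (hgt (a - w.1) (a - w.2) : ℝ) else 0) ≤ q * n + 1 := by
      intro a _
      rw [sum_product]
      exact d4_row hb A hA a
    have h3 : ∑ a ∈ A, ∑ w ∈ A ×ˢ A, (if (w.1 ≠ a ∧ w.2 ≠ a) then
        1 / (hgt (a - w.1) (a - w.2) : ℝ) else 0) ≤ n * (q * n + 1) := by
      refine (sum_le_sum h2).trans ?_
      rw [sum_const, nsmul_eq_mul]
      exact mul_le_mul_of_nonneg_right (by exact_mod_cast hA) (by positivity)
    have h4 : (n : ℝ) * (q * n + 1) ≤ 2 * q * (n : ℝ) ^ 2 := by nlinarith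
    calc q ^ 2 * (h : ℝ) ^ 2 * ∑ a ∈ A, ∑ w ∈ A ×ˢ A, (if (w.1 ≠ a ∧ w.2 ≠ a) then
        1 / (hgt (a - w.1) (a - w.2) : ℝ) else 0)
        ≤ q ^ 2 * (h : ℝ) ^ 2 * (2 * q * (n : ℝ) ^ 2) :=
          mul_le_mul_of_nonneg_left (h3.trans h4) (by positivity)
      _ = 2 * q ^ 3 * (n : ℝ) ^ 2 * (h : ℝ) ^ 2 := by ring
  -- the good cells
  set G : Finset ((ℤ × ℤ × ℤ) × (ℕ × ℕ × ℕ)) := K.filter (fun c => (J c).Nonempty ∧
    (U c.1 c.2 : ℝ) / (32 * q ^ 3 * l ^ 2) ≤ (J c).card) with hG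
  have hGJ : (n : ℝ) ^ 2 * (h : ℝ) ^ 2 / (16 * l ^ 2) ≤ ∑ c ∈ G, ((J c).card : ℝ) := by
    have h1 := sum_filter_add_sum_filter_not K (fun c => (J c).Nonempty ∧
      (U c.1 c.2 : ℝ) / (32 * q ^ 3 * l ^ 2) ≤ (J c).card) (fun c => ((J c).card : ℝ))
    rw [← hG] at h1
    have h2 : ∑ c ∈ K.filter (fun c => ¬ ((J c).Nonempty ∧
        (U c.1 c.2 : ℝ) / (32 * q ^ 3 * l ^ 2) ≤ (J c).card)), ((J c).card : ℝ) ≤
        (n : ℝ) ^ 2 * (h : ℝ) ^ 2 / (16 * l ^ 2) := by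
      calc ∑ c ∈ K.filter (fun c => ¬ ((J c).Nonempty ∧
          (U c.1 c.2 : ℝ) / (32 * q ^ 3 * l ^ 2) ≤ (J c).card)), ((J c).card : ℝ)
          ≤ ∑ c ∈ K.filter (fun c => ¬ ((J c).Nonempty ∧
          (U c.1 c.2 : ℝ) / (32 * q ^ 3 * l ^ 2) ≤ (J c).card)),
            (U c.1 c.2 : ℝ) / (32 * q ^ 3 * l ^ 2) := by
            refine sum_le_sum fun c hc => ?_
            obtain ⟨_, h3⟩ := mem_filter.mp hc
            by_cases h4 : (J c).Nonempty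
            · push Not at h3
              exact (h3 h4).le
            · rw [not_nonempty_iff_eq_empty] at h4
              rw [h4, card_empty, Nat.cast_zero]
              positivity
        _ ≤ ∑ c ∈ K, (U c.1 c.2 : ℝ) / (32 * q ^ 3 * l ^ 2) :=
            sum_le_sum_of_subset_of_nonneg (filter_subset _ _) fun c _ _ => by positivity
        _ = (∑ c ∈ K, (U c.1 c.2 : ℝ)) / (32 * q ^ 3 * l ^ 2) := by rw [sum_div]
        _ ≤ (2 * q ^ 3 * (n : ℝ) ^ 2 * (h : ℝ) ^ 2) / (32 * q ^ 3 * l ^ 2) :=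
            div_le_div_of_nonneg_right hW (by positivity)
        _ = (n : ℝ) ^ 2 * (h : ℝ) ^ 2 / (16 * l ^ 2) := by
            field_simp
            ring
    have h3 : (n : ℝ) ^ 2 * (h : ℝ) ^ 2 / (8 * l ^ 2) =
        2 * ((n : ℝ) ^ 2 * (h : ℝ) ^ 2 / (16 * l ^ 2)) := by
      field_simp
      ring
    linarith
  -- properties of the good cells
  have hGU : ∀ c ∈ G, c.1.1 ∈ A ∧ κ ≤ (U c.1 c.2 : ℝ) ∧ U c.1 c.2 ≤ h ∧ s c.1 c.2 ≠ 0 ∧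
      (J c).card ≤ 2 * U c.1 c.2 ∧
      ∀ x ∈ J c, ∃ u : ℤ, x = c.1.1 - u * s c.1 c.2 ∧ |u| ≤ (U c.1 c.2 : ℤ) := by
    intro c hc
    obtain ⟨hcK, ⟨b0, hb0⟩, _⟩ := mem_filter.mp hc
    obtain ⟨hcT, hcI⟩ := (hKmem c).mp hcK
    obtain ⟨hcT1, hcy, hcz⟩ := mem_filter.mp hcT
    have hcA : c.1.1 ∈ A := (mem_product.mp hcT1).1
    have key : ∀ x ∈ J c, ∃ u : ℤ, s c.1 c.2 ≠ 0 ∧ x = c.1.1 - u * s c.1 c.2 ∧
        |u| ≤ (U c.1 c.2 : ℤ) ∧ u.natAbs = g2 c.1.1 x c.1.2.1 c.1.2.2 := by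
      intro x hx
      obtain ⟨hxB, hxi⟩ := (hJmem c x).mp hx
      have h1 := (hidx c.1 x hxB).2
      rw [hxi] at h1
      exact h1
    have hkU : κ ≤ (U c.1 c.2 : ℝ) := by
      obtain ⟨u, _, _, hu, hg⟩ := key b0 hb0
      obtain ⟨_, _, _, _, hk⟩ := (hBmem c.1 b0).mp ((hJmem c b0).mp hb0).1
      refine hk.trans ?_
      rw [← hg]
      have : u.natAbs ≤ U c.1 c.2 := by
        have := Int.abs_eq_natAbs u
        omega
      exact_mod_cast this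
    have hs0 : s c.1 c.2 ≠ 0 := by
      obtain ⟨u, h1, _⟩ := key b0 hb0
      exact h1
    refine ⟨hcA, hkU, (hI c.1 hcy hcz).1 _ hcI, hs0, ?_, fun x hx => ?_⟩
    · rw [← card_Iz]
      have hsub : J c ⊆ (Iz (U c.1 c.2)).image (fun u => c.1.1 - u * s c.1 c.2) := by
        intro x hx
        obtain ⟨u, _, h2, h3, _⟩ := key x hx
        rw [mem_image]
        refine ⟨u, mem_Iz.mpr ⟨?_, h3⟩, h2.symm⟩
        rintro rfl
        obtain ⟨⟨h4, _⟩, _⟩ := (hBmem c.1 x).mp ((hJmem c x).mp hx).1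
        apply h4
        rw [h2]
        ring
      exact (card_le_card hsub).trans card_image_le
    · obtain ⟨u, _, h2, h3, _⟩ := key x hx
      exact ⟨u, h2, h3⟩
  -- the dyadic ranges
  have hmaps : ∀ c ∈ G, Nat.log 2 (U c.1 c.2) ∈ range (Nat.log 2 h + 1) := by
    intro c hc
    rw [mem_range]
    have := Nat.log_mono_right (b := 2) (hGU c hc).2.2.1
    omega
  have hpig := exists_le_sum_fiber_of_maps_to_of_nsmul_le_sum (s := G)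
    (t := range (Nat.log 2 h + 1)) (f := fun c => Nat.log 2 (U c.1 c.2))
    (w := fun c => ((J c).card : ℝ)) (b := (n : ℝ) ^ 2 * (h : ℝ) ^ 2 / (64 * q * l ^ 2))
    hmaps ⟨0, by simp⟩ (by
      rw [card_range, nsmul_eq_mul]
      refine le_trans ?_ hGJ
      have h1 := d4_log hb h hh1 hh
      have h2 : 0 ≤ (n : ℝ) ^ 2 * (h : ℝ) ^ 2 / (64 * q * l ^ 2) := by positivity
      calc ((Nat.log 2 h + 1 : ℕ) : ℝ) * ((n : ℝ) ^ 2 * (h : ℝ) ^ 2 / (64 * q * l ^ 2))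
          ≤ (4 * q) * ((n : ℝ) ^ 2 * (h : ℝ) ^ 2 / (64 * q * l ^ 2)) := by
            apply mul_le_mul_of_nonneg_right _ h2
            push_cast
            exact h1
        _ = (n : ℝ) ^ 2 * (h : ℝ) ^ 2 / (16 * l ^ 2) := by
            field_simp
            ring)
  obtain ⟨e, _, he⟩ := hpig
  set C : Finset ((ℤ × ℤ × ℤ) × (ℕ × ℕ × ℕ)) :=
    G.filter (fun c => Nat.log 2 (U c.1 c.2) = e) with hC
  have hCG : ∀ c ∈ C, c ∈ G ∧ 2 ^ e ≤ U c.1 c.2 ∧ U c.1 c.2 < 2 * 2 ^ e := by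
    intro c hc
    obtain ⟨hcG, hce⟩ := mem_filter.mp hc
    have hU0 : U c.1 c.2 ≠ 0 := by
      have h1 := (hGU c hcG).2.1
      intro h0
      rw [h0, Nat.cast_zero] at h1
      linarith
    refine ⟨hcG, ?_, ?_⟩
    · rw [← hce]
      exact Nat.pow_log_le_self 2 hU0
    · rw [← hce]
      have := Nat.lt_pow_succ_log_self (b := 2) (by norm_num) (U c.1 c.2)
      rw [pow_succ] at this
      omega
  have hpos : 0 < (n : ℝ) ^ 2 * (h : ℝ) ^ 2 / (64 * q * l ^ 2) := by positivity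
  have hCne : C.Nonempty := by
    rw [nonempty_iff_ne_empty]
    intro h0
    rw [h0, sum_empty] at he
    linarith
  obtain ⟨c0, hc0⟩ := hCne
  refine ⟨2 ^ e, C, J, Nat.one_le_two_pow, ?_, ?_, ?_, ?_⟩
  · have h1 := (hGU c0 (hCG c0 hc0).1).2.1
    have h2 : (U c0.1 c0.2 : ℝ) ≤ 2 * ((2 ^ e : ℕ) : ℝ) := by
      exact_mod_cast (hCG c0 hc0).2.2.le
    linarith
  · exact (hCG c0 hc0).2.1.trans (hGU c0 (hCG c0 hc0).1).2.2.1
  · have h1 : ∑ c ∈ C, ((J c).card : ℝ) ≤ C.card * (4 * ((2 ^ e : ℕ) : ℝ)) := by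
      rw [← nsmul_eq_mul, ← sum_const]
      refine sum_le_sum fun c hc => ?_
      obtain ⟨hcG, _, h3⟩ := hCG c hc
      have h2 := (hGU c hcG).2.2.2.2.1
      have h4 : (J c).card ≤ 4 * 2 ^ e := by omega
      exact_mod_cast h4
    have h2 := he.trans h1
    have h3 : (n : ℝ) ^ 2 * (h : ℝ) ^ 2 / (256 * q * l ^ 2) =
        ((n : ℝ) ^ 2 * (h : ℝ) ^ 2 / (64 * q * l ^ 2)) / 4 := by
      field_simp
      ring
    rw [h3]
    linarith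
  · intro c hc
    obtain ⟨hcG, h1, h2⟩ := hCG c hc
    obtain ⟨k1, k2, k3, k4, k5, k6⟩ := hGU c hcG
    refine ⟨k1, ?_, ?_, ⟨s c.1 c.2, k4, ?_⟩, ?_⟩
    · obtain ⟨_, _, h3⟩ := mem_filter.mp hcG
      refine le_trans ?_ h3
      apply div_le_div_of_nonneg_right _ (by positivity)
      exact_mod_cast h1
    · intro x hx
      obtain ⟨⟨h4, h5⟩, h6, h7, _, _⟩ := (hBmem c.1 x).mp ((hJmem c x).mp hx).1
      exact ⟨h5, h4, h6, h7⟩
    · intro x hx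
      obtain ⟨u, h4, h5⟩ := k6 x hx
      refine ⟨u, h4, h5.trans ?_⟩
      exact_mod_cast h2.le
    · intro c' _ h3 h4
      rw [disjoint_left]
      intro x hx hx'
      apply h4
      have e1 := ((hJmem c x).mp hx).2
      have e2 := ((hJmem c' x).mp hx').2
      rw [← h3] at e2
      exact Prod.ext h3 (e1.symm.trans e2)

end Pool.Agent.MP_741d1b.All
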