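import Mathlib
import Pool.Agent.Lib.MP_741d1b_nt_all.BIter

/-!
Row D6: choice of a scale; the height increases from `h` to `h ^ (3/2)`.
-/

set_option autoImplicit false

namespace Pool.Agent.MP_741d1b.All

open Finset Classical
open Pool.Agent.MP_741d1b.H87

private theorem D6_tc_le {n : ℕ} {A : Finset ℤ} (hA : A.card ≤ n) (h : ℕ) :
    tc A h ≤ (n : ℝ) ^ 3 := by
  have hA' : (A.card : ℝ) ≤ n := by exact_mod_cast hA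
  have h1 : ∀ a b, ((F A h a b).card : ℝ) ≤ n := fun a b =>
    le_trans (by exact_mod_cast card_le_card (filter_subset _ _)) hA'
  have h2 : ∀ a ∈ A, ∑ b ∈ A.erase a, ((F A h a b).card : ℝ) ≤ (n : ℝ) * n := by
    intro a _
    calc ∑ b ∈ A.erase a, ((F A h a b).card : ℝ) ≤ ∑ b ∈ A.erase a, (n : ℝ) :=
          sum_le_sum fun b _ => h1 a b
      _ = ((A.erase a).card : ℝ) * n := by rw [sum_const, nsmul_eq_mul]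
      _ ≤ (n : ℝ) * n := by
          apply mul_le_mul_of_nonneg_right _ (Nat.cast_nonneg _)
          exact le_trans (by exact_mod_cast card_erase_le) hA'
  calc tc A h ≤ ∑ a ∈ A, (n : ℝ) * n := sum_le_sum h2
    _ = (A.card : ℝ) * (n * n) := by rw [sum_const, nsmul_eq_mul]
    _ ≤ (n : ℝ) * (n * n) := mul_le_mul_of_nonneg_right hA' (by positivity)
    _ = (n : ℝ) ^ 3 := by ring

private theorem D6_h_le {n : ℕ} (hn0 : (0 : ℝ) < n) {A : Finset ℤ} (hA : A.card ≤ n) (h : ℕ)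
    {l : ℝ} (hl : 1 ≤ l) (hle : (n : ℝ) ^ 2 * h / l ≤ tc A h) : (h : ℝ) ≤ n * l := by
  have hl0 : 0 < l := lt_of_lt_of_le one_pos hl
  have h1 : (n : ℝ) ^ 2 * h / l ≤ (n : ℝ) ^ 3 := hle.trans (D6_tc_le hA h)
  rw [div_le_iff₀ hl0] at h1
  have h2 : (n : ℝ) ^ 2 * h ≤ (n : ℝ) ^ 2 * (n * l) := by
    calc (n : ℝ) ^ 2 * h ≤ (n : ℝ) ^ 3 * l := h1
      _ = (n : ℝ) ^ 2 * (n * l) := by ring
  exact le_of_mul_le_mul_left h2 (by positivity)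

private theorem D6_N_le {N h h' B : ℝ} (hN : 0 < N) (hB : 0 < B) (hh' : 0 ≤ h') (hNh : N ≤ h)
    (hBN : B ≤ N) (hs : h ^ 3 ≤ h' ^ 2 * B) : N ≤ h' := by
  by_contra hcon
  push Not at hcon
  have h1 : h' ^ 2 < N ^ 2 := by gcongr
  have h2 : N ^ 3 ≤ h ^ 3 := by gcongr
  have h3 : h' ^ 2 * B < N ^ 2 * B := by gcongr
  have h4 : N ^ 2 * B ≤ N ^ 2 * N := by gcongr
  nlinarith

/- PROOF. l 0 = l0, l 1 = q⁵ l0², l 2 = q^15 l0⁴, l 3 = q^35 l0^8. Start with h 0 = h0. If the last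
condition fails for (h i, l i), i ≤ 2, there is h (i+1) with h i ^ 3 ≤ h (i+1) ^ 2 * (q^40 l_i^18) and
n² h (i+1) / l (i+1) ≤ tc A (h (i+1)). tc A h ≤ n³ always gives h i ≤ n l i (as in choose_scale);
N ≤ h i: from h (i-1) ≥ ... (or: h (i+1) ≥ h i because h i ≥ q^40 l_i^18). If all three fail:
h 3 ^ 8 ≥ h 2 ^ 12 / (q^160 l_2^72), h 2 ^ 4 ≥ h 1 ^ 6 / (q^80 l_1^36), h 1 ^ 2 ≥ N^3 / (q^40 l0^18):
h 3 ^ 8 ≥ N^27 / (q^2380 l0^666), but h 3 ^ 8 ≤ (N³ l 3)^8 = N^24 q^280 l0^64: N^3 ≤ q^2660 l0^730. -/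
theorem choose_scale2 {n : ℕ} {q : ℝ} (hb : Nb n q) (N : ℝ) (hNn : N ^ 3 = n) (hN0 : 0 < N)
    (A : Finset ℤ) (hA : A.card ≤ n) (l0 : ℝ) (hl0 : 1 ≤ l0) (hbig : q ^ 2660 * l0 ^ 730 < N ^ 3)
    (h0 : ℕ) (hh0 : N ≤ h0) (hT : (n : ℝ) ^ 2 * h0 / l0 ≤ tc A h0) :
    ∃ h : ℕ, ∃ l : ℝ, 1 ≤ l ∧ l ≤ q ^ 15 * l0 ^ 4 ∧ N ≤ h ∧ (h : ℝ) ≤ n * l ∧
      (n : ℝ) ^ 2 * h / l ≤ tc A h ∧
      ∀ h' : ℕ, (h : ℝ) ^ 3 ≤ (h' : ℝ) ^ 2 * (q ^ 40 * l ^ 18) →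
        tc A h' < (n : ℝ) ^ 2 * h' / (q ^ 5 * l ^ 2) := by
  have hq := hb.q_one
  have hq0 : 0 < q := hb.q_pos
  have hn0 : (0 : ℝ) < n := hb.n_pos'
  have hl00 : 0 < l0 := lt_of_lt_of_le one_pos hl0
  -- small powers are at most `N`
  have hsm : ∀ i j : ℕ, 3 * i ≤ 2660 → 3 * j ≤ 730 → q ^ i * l0 ^ j ≤ N := by
    intro i j hi hj
    by_contra hcon
    push Not at hcon
    have h1 : N ^ 3 < (q ^ i * l0 ^ j) ^ 3 := by gcongr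
    have h2 : (q ^ i * l0 ^ j) ^ 3 = q ^ (3 * i) * l0 ^ (3 * j) := by ring
    have h3 : q ^ (3 * i) ≤ q ^ 2660 := pow_le_pow_right₀ hq hi
    have h4 : l0 ^ (3 * j) ≤ l0 ^ 730 := pow_le_pow_right₀ hl0 hj
    have h5 : q ^ (3 * i) * l0 ^ (3 * j) ≤ q ^ 2660 * l0 ^ 730 := by gcongr
    linarith
  by_contra hcon
  push Not at hcon
  have step : ∀ (h : ℕ) (l : ℝ), 1 ≤ l → l ≤ q ^ 15 * l0 ^ 4 → N ≤ h →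
      (n : ℝ) ^ 2 * h / l ≤ tc A h → ∃ h' : ℕ, (h : ℝ) ^ 3 ≤ (h' : ℝ) ^ 2 * (q ^ 40 * l ^ 18) ∧
        (n : ℝ) ^ 2 * h' / (q ^ 5 * l ^ 2) ≤ tc A h' := by
    intro h l h1 h2 h3 h4
    exact hcon h l h1 h2 h3 (D6_h_le hn0 hA h h1 h4) h4
  obtain ⟨h1, hs1, ht1⟩ := step h0 l0 hl0 (by
    have e1 : (1 : ℝ) ≤ q ^ 15 := one_le_pow₀ hq
    have e2 : l0 ≤ l0 ^ 4 := le_self_pow₀ hl0 (by norm_num)
    calc l0 ≤ l0 ^ 4 := e2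
      _ = 1 * l0 ^ 4 := (one_mul _).symm
      _ ≤ q ^ 15 * l0 ^ 4 := by gcongr) hh0 hT
  have hN1 : N ≤ h1 := D6_N_le hN0 (by positivity) (Nat.cast_nonneg _) hh0
    (hsm 40 18 (by norm_num) (by norm_num)) hs1
  have hl1 : (1 : ℝ) ≤ q ^ 5 * l0 ^ 2 :=
    one_le_mul_of_one_le_of_one_le (one_le_pow₀ hq) (one_le_pow₀ hl0)
  obtain ⟨h2, hs2, ht2⟩ := step h1 (q ^ 5 * l0 ^ 2) hl1 (by
    have e1 : q ^ 5 ≤ q ^ 15 := pow_le_pow_right₀ hq (by norm_num)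
    have e2 : l0 ^ 2 ≤ l0 ^ 4 := pow_le_pow_right₀ hl0 (by norm_num)
    gcongr) hN1 ht1
  have hN2 : N ≤ h2 := D6_N_le hN0 (by positivity) (Nat.cast_nonneg _) hN1
    (by
      have e1 := hsm 130 36 (by norm_num) (by norm_num)
      have e2 : q ^ 40 * (q ^ 5 * l0 ^ 2) ^ 18 = q ^ 130 * l0 ^ 36 := by ring
      rw [e2]
      exact e1) hs2
  have e2 : q ^ 5 * (q ^ 5 * l0 ^ 2) ^ 2 = q ^ 15 * l0 ^ 4 := by ring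
  rw [e2] at ht2
  have hl2 : (1 : ℝ) ≤ q ^ 15 * l0 ^ 4 :=
    one_le_mul_of_one_le_of_one_le (one_le_pow₀ hq) (one_le_pow₀ hl0)
  obtain ⟨h3, hs3, ht3⟩ := step h2 (q ^ 15 * l0 ^ 4) hl2 le_rfl hN2 ht2
  have e3 : q ^ 5 * (q ^ 15 * l0 ^ 4) ^ 2 = q ^ 35 * l0 ^ 8 := by ring
  rw [e3] at ht3
  have hl3 : (1 : ℝ) ≤ q ^ 35 * l0 ^ 8 :=
    one_le_mul_of_one_le_of_one_le (one_le_pow₀ hq) (one_le_pow₀ hl0)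
  have hh3 := D6_h_le hn0 hA h3 hl3 ht3
  rw [← hNn] at hh3
  have f0 : N ^ 27 ≤ ((h0 : ℝ) ^ 3) ^ 9 := by
    rw [← pow_mul]
    gcongr
  have f1 : ((h0 : ℝ) ^ 3) ^ 9 ≤ ((h1 : ℝ) ^ 2 * (q ^ 40 * l0 ^ 18)) ^ 9 := by gcongr
  have f2 : ((h1 : ℝ) ^ 3) ^ 6 ≤ ((h2 : ℝ) ^ 2 * (q ^ 40 * (q ^ 5 * l0 ^ 2) ^ 18)) ^ 6 := by gcongr
  have f3 : ((h2 : ℝ) ^ 3) ^ 4 ≤ ((h3 : ℝ) ^ 2 * (q ^ 40 * (q ^ 15 * l0 ^ 4) ^ 18)) ^ 4 := by gcongr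
  have f4 : (h3 : ℝ) ^ 8 ≤ (N ^ 3 * (q ^ 35 * l0 ^ 8)) ^ 8 := by gcongr
  have g1 : N ^ 27 ≤ N ^ 24 * (q ^ 2660 * l0 ^ 730) := by
    calc N ^ 27 ≤ ((h1 : ℝ) ^ 2 * (q ^ 40 * l0 ^ 18)) ^ 9 := f0.trans f1
      _ = ((h1 : ℝ) ^ 3) ^ 6 * (q ^ 360 * l0 ^ 162) := by ring
      _ ≤ ((h2 : ℝ) ^ 2 * (q ^ 40 * (q ^ 5 * l0 ^ 2) ^ 18)) ^ 6 * (q ^ 360 * l0 ^ 162) := by gcongr
      _ = ((h2 : ℝ) ^ 3) ^ 4 * (q ^ 1140 * l0 ^ 378) := by ring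
      _ ≤ ((h3 : ℝ) ^ 2 * (q ^ 40 * (q ^ 15 * l0 ^ 4) ^ 18)) ^ 4 * (q ^ 1140 * l0 ^ 378) := by
          gcongr
      _ = (h3 : ℝ) ^ 8 * (q ^ 2380 * l0 ^ 666) := by ring
      _ ≤ (N ^ 3 * (q ^ 35 * l0 ^ 8)) ^ 8 * (q ^ 2380 * l0 ^ 666) := by gcongr
      _ = N ^ 24 * (q ^ 2660 * l0 ^ 730) := by ring
  have g2 : N ^ 24 * N ^ 3 ≤ N ^ 24 * (q ^ 2660 * l0 ^ 730) := by
    calc N ^ 24 * N ^ 3 = N ^ 27 := by ring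
      _ ≤ _ := g1
  have g3 : N ^ 3 ≤ q ^ 2660 * l0 ^ 730 := le_of_mul_le_mul_left g2 (by positivity)
  linarith

end Pool.Agent.MP_741d1b.All
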