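import Mathlib
import Pool.Agent.Lib.MP_741d1b_nt_all.DDefs

/-!
Row D1: few quadruples have small common divisor and small heights from both base points.
-/

set_option autoImplicit false

namespace Pool.Agent.MP_741d1b.All

open Finset Classical
open Pool.Agent.MP_741d1b.H87

private theorem D1_hgt_scale {c : ℤ} (hc : c ≠ 0) (x y : ℤ) : hgt (c * x) (c * y) = hgt x y := by
  have hc' : 0 < c.natAbs := Int.natAbs_pos.2 hc
  unfold hgt
  rw [Int.natAbs_mul, Int.natAbs_mul, Nat.mul_max_mul_left, Int.gcd_mul_left,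
    Nat.mul_div_mul_left _ _ hc']

private theorem D1_max_eq (x y : ℤ) :
    max x.natAbs y.natAbs = hgt x y * Int.gcd x y := by
  unfold hgt
  rw [Nat.div_mul_cancel]
  rcases max_choice x.natAbs y.natAbs with h | h
  · rw [h]; exact Nat.gcd_dvd_left _ _
  · rw [h]; exact Nat.gcd_dvd_right _ _

private theorem D1_gcd {m j m' j' : ℤ} (h : IsCoprime m j) (h' : IsCoprime m' j') :
    Int.gcd (j * m') (j' * m) ∣ Int.gcd j j' * Int.gcd m m' := by
  have h1 : Nat.Coprime j.natAbs m.natAbs := (Int.isCoprime_iff_gcd_eq_one.1 h.symm)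
  have h2 : Nat.Coprime m'.natAbs j'.natAbs := (Int.isCoprime_iff_gcd_eq_one.1 h')
  have e : Int.gcd (j * m') (j' * m) =
      Nat.gcd (j.natAbs * m'.natAbs) (j'.natAbs * m.natAbs) := by
    unfold Int.gcd
    rw [Int.natAbs_mul, Int.natAbs_mul]
  rw [e]
  refine (Nat.gcd_mul_right_dvd_mul_gcd _ _ _).trans ?_
  rw [Nat.Coprime.gcd_mul_right_cancel j.natAbs h2, Nat.Coprime.gcd_mul_left_cancel m'.natAbs h1]
  have e2 : Int.gcd m m' = Nat.gcd m'.natAbs m.natAbs := by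
    unfold Int.gcd
    rw [Nat.gcd_comm]
  rw [e2]
  exact dvd_rfl

private theorem D1_key {D m j m' j' s s' A B : ℤ} (hD : D ≠ 0) (h1 : D = m * s)
    (h2 : D = m' * s') (hA : A = j * s) (hB : B = j' * s') (hj : j ≠ 0)
    (h : IsCoprime m j) (h' : IsCoprime m' j') :
    j.natAbs * m'.natAbs ≤ hgt A B * (Int.gcd j j' * Int.gcd m m') := by
  have hm : m ≠ 0 := by
    rintro rfl
    exact hD (by rw [h1, zero_mul])
  have hm' : m' ≠ 0 := by
    rintro rfl
    exact hD (by rw [h2, zero_mul])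
  have e1 : hgt A B = hgt (j * m') (j' * m) := by
    rw [← D1_hgt_scale (mul_ne_zero hm hm') A B, ← D1_hgt_scale hD (j * m') (j' * m)]
    congr 1
    · rw [hA]
      calc m * m' * (j * s) = (m * s) * (j * m') := by ring
        _ = D * (j * m') := by rw [← h1]
    · rw [hB]
      calc m * m' * (j' * s') = (m' * s') * (j' * m) := by ring
        _ = D * (j' * m) := by rw [← h2]
  have e2 := D1_max_eq (j * m') (j' * m)
  have e3 : Int.gcd (j * m') (j' * m) ≤ Int.gcd j j' * Int.gcd m m' := by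
    refine Nat.le_of_dvd ?_ (D1_gcd h h')
    exact Nat.mul_pos (Int.gcd_pos_of_ne_zero_left _ hj) (Int.gcd_pos_of_ne_zero_left _ hm)
  calc j.natAbs * m'.natAbs = (j * m').natAbs := by rw [Int.natAbs_mul]
    _ ≤ max (j * m').natAbs (j' * m).natAbs := le_max_left _ _
    _ = hgt (j * m') (j' * m) * Int.gcd (j * m') (j' * m) := e2
    _ ≤ hgt A B * (Int.gcd j j' * Int.gcd m m') := by
      rw [e1]
      exact Nat.mul_le_mul_left _ e3

/-- multiples of `g` -/
private theorem D1_mul_count {g h : ℕ} (hg : 0 < g) (S : Finset ℤ)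
    (hS : ∀ x ∈ S, x ≠ 0 ∧ x.natAbs ≤ h ∧ (g : ℤ) ∣ x) : S.card * g ≤ 2 * h := by
  have h1 : S.card ≤ ((Finset.Icc (-((h / g : ℕ) : ℤ)) ((h / g : ℕ) : ℤ)).erase 0).card := by
    refine Finset.card_le_card_of_injOn (fun x => x / (g : ℤ)) ?_ ?_
    · intro x hx
      obtain ⟨h0, h2, k, rfl⟩ := hS x hx
      have hg' : (g : ℤ) ≠ 0 := by exact_mod_cast hg.ne'
      have e1 : (g : ℤ) * k / g = k := Int.mul_ediv_cancel_left _ hg'
      simp only [Finset.coe_erase, Finset.coe_Icc, Set.mem_diff, Set.mem_Icc,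
        Set.mem_singleton_iff]
      rw [e1]
      rw [Int.natAbs_mul, Int.natAbs_natCast] at h2
      have h3 : k.natAbs ≤ h / g := (Nat.le_div_iff_mul_le hg).2 (by rw [mul_comm]; exact h2)
      refine ⟨by omega, ?_⟩
      rintro rfl
      exact h0 (mul_zero _)
    · intro x hx y hy hxy
      obtain ⟨-, -, k, rfl⟩ := hS x hx
      obtain ⟨-, -, l, rfl⟩ := hS y hy
      have hg' : (g : ℤ) ≠ 0 := by exact_mod_cast hg.ne'
      simp only [Int.mul_ediv_cancel_left _ hg'] at hxy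
      rw [hxy]
  have h2 : ∀ k : ℕ, ((Finset.Icc (-(k : ℤ)) (k : ℤ)).erase 0).card = 2 * k := fun k => by
    rw [Finset.card_erase_of_mem (Finset.mem_Icc.2 ⟨by omega, by omega⟩), Int.card_Icc]
    omega
  rw [h2] at h1
  calc S.card * g ≤ 2 * (h / g) * g := Nat.mul_le_mul_right _ h1
    _ = 2 * (h / g * g) := by ring
    _ ≤ 2 * h := Nat.mul_le_mul_left _ (Nat.div_mul_le_self _ _)

/-- a residue class modulo `N` -/
private theorem D1_class_count {N h : ℕ} (hN : 0 < N) (S : Finset ℤ)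
    (hS : ∀ x ∈ S, x.natAbs ≤ h) (hS' : ∀ x ∈ S, ∀ y ∈ S, (N : ℤ) ∣ x - y) :
    S.card * N ≤ 2 * h + N := by
  rcases S.eq_empty_or_nonempty with rfl | hne
  · simp
  have hmin : ∀ x ∈ S, S.min' hne ≤ x := fun x hx => Finset.min'_le _ _ hx
  have hmem := S.min'_mem hne
  set x0 := S.min' hne with hx0
  have h1 : S.card ≤ (Finset.range (2 * h / N + 1)).card := by
    refine Finset.card_le_card_of_injOn (fun x => (x - x0).toNat / N) ?_ ?_
    · intro x hx
      simp only [Finset.coe_range, Set.mem_Iio]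
      have h2 := hS x hx
      have h3 := hS x0 hmem
      have h4 : (x - x0).toNat ≤ 2 * h := by omega
      exact Nat.lt_succ_of_le (Nat.div_le_div_right h4)
    · intro x hx y hy hxy
      simp only at hxy
      have h2 := hmin x hx
      have h3 := hmin y hy
      have h4 : N ∣ (x - x0).toNat := by
        have := hS' x hx x0 hmem
        rw [← Int.natCast_dvd_natCast, Int.toNat_of_nonneg (by omega)]
        exact this
      have h5 : N ∣ (y - x0).toNat := by
        have := hS' y hy x0 hmem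
        rw [← Int.natCast_dvd_natCast, Int.toNat_of_nonneg (by omega)]
        exact this
      have h6 : (x - x0).toNat = (y - x0).toNat := by
        rw [← Nat.div_mul_cancel h4, ← Nat.div_mul_cancel h5, hxy]
      omega
  rw [Finset.card_range] at h1
  calc S.card * N ≤ (2 * h / N + 1) * N := Nat.mul_le_mul_right _ h1
    _ = 2 * h / N * N + N := by ring
    _ ≤ 2 * h + N := Nat.add_le_add_right (Nat.div_mul_le_self _ _) _

/-- coordinates of a triple -/
private structure D1D (a b w : ℤ) (h : ℕ) (τ : ℝ) (m j : ℤ) : Prop where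
  hm : a - b = m * gd a b w
  hj : a - w = j * gd a b w
  cop : IsCoprime m j
  m0 : m ≠ 0
  j0 : j ≠ 0
  d0 : j - m ≠ 0
  m1 : m.natAbs ≤ h
  j1 : j.natAbs ≤ h
  d1 : (j - m).natAbs ≤ h
  m2 : (h : ℝ) ≤ τ * m.natAbs
  j2 : (h : ℝ) ≤ τ * j.natAbs
  d2 : (h : ℝ) ≤ τ * (j - m).natAbs

private theorem D1_dat {a b w : ℤ} {h : ℕ} {τ : ℝ} (hh : 1 ≤ h) (hab : a ≠ b)
    (h0 : hs a b w ≤ h) (h1 : (h : ℝ) * gd a b w ≤ τ * (a - b).natAbs)
    (h2 : (h : ℝ) * gd a b w ≤ τ * (a - w).natAbs)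
    (h3 : (h : ℝ) * gd a b w ≤ τ * (b - w).natAbs) : ∃ m j : ℤ, D1D a b w h τ m j := by
  obtain ⟨m, j, hm, hj, hc, hmax⟩ := hs_param hab w
  have hg : (0 : ℝ) < gd a b w := by exact_mod_cast gd_pos hab w
  have e1 : ((a - b).natAbs : ℝ) = m.natAbs * gd a b w := by
    rw [hm, Int.natAbs_mul, Int.natAbs_natCast]
    push_cast
    rfl
  have e2 : ((a - w).natAbs : ℝ) = j.natAbs * gd a b w := by
    rw [hj, Int.natAbs_mul, Int.natAbs_natCast]
    push_cast
    rfl
  have hb : b - w = (j - m) * gd a b w := by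
    have : b - w = (a - w) - (a - b) := by ring
    rw [this, sub_mul, ← hj, ← hm]
  have e3 : ((b - w).natAbs : ℝ) = (j - m).natAbs * gd a b w := by
    rw [hb, Int.natAbs_mul, Int.natAbs_natCast]
    push_cast
    rfl
  rw [e1, ← mul_assoc] at h1
  rw [e2, ← mul_assoc] at h2
  rw [e3, ← mul_assoc] at h3
  have m2 := le_of_mul_le_mul_right h1 hg
  have j2 := le_of_mul_le_mul_right h2 hg
  have d2 := le_of_mul_le_mul_right h3 hg
  have hh' : (1 : ℝ) ≤ h := by exact_mod_cast hh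
  have nz : ∀ x : ℤ, (h : ℝ) ≤ τ * x.natAbs → x ≠ 0 := by
    rintro x hx rfl
    simp only [Int.natAbs_zero, Nat.cast_zero, mul_zero] at hx
    linarith
  rw [hmax] at h0
  exact ⟨m, j, hm, hj, hc, nz _ m2, nz _ j2, nz _ d2, by omega, by omega, by omega, m2, j2, d2⟩

private theorem D1_real {h H x y K : ℕ} {τ : ℝ} (hτ : 1 ≤ τ)
    (hx : (h : ℝ) ≤ τ * x) (hy : (h : ℝ) ≤ τ * y) {t : ℕ} (ht : t ≤ H)
    (hk : x * y ≤ t * K) : (h : ℝ) * h ≤ τ ^ 2 * H * K := by
  have hh' : (0 : ℝ) ≤ h := Nat.cast_nonneg _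
  have h1 : (h : ℝ) * h ≤ (τ * x) * (τ * y) := mul_le_mul hx hy hh' (by positivity)
  have h2 : ((x : ℝ) * y) ≤ t * K := by exact_mod_cast hk
  have h3 : (t : ℝ) * K ≤ H * K := by
    have : (t : ℝ) ≤ H := by exact_mod_cast ht
    exact mul_le_mul_of_nonneg_right this (by positivity)
  calc (h : ℝ) * h ≤ (τ * x) * (τ * y) := h1
    _ = τ ^ 2 * (x * y) := by ring
    _ ≤ τ ^ 2 * (H * K) := mul_le_mul_of_nonneg_left (h2.trans h3) (by positivity)
    _ = τ ^ 2 * H * K := by ring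

/- PROOF. Copy BClass.lean (class_gcd) as far as needed. a - b = m s, a - y = j s; a - b = m' s',
a - z = j' s'. gm = gcd m m' = g2 a b y z, gj = gcd j j', gd' = gcd (m - j) (m' - j').
gj gm ≥ (h / τ)² / hgt (a - y) (a - z), gm gd' ≥ (h / τ)² / hgt (b - y) (b - z) (B6_key). Classes of
constant (gj, gm, gd') (divisors of j, m, m - j: at most q³ classes). If a class Z' had card ≥ δ h, then
as in class_gcd gj gd' ≤ 4 h / δ and gm gj gd' ≤ 12 h / δ². For one z in it:
H² ≥ hgt_a hgt_b ≥ (h / τ)^4 / (gj gm² gd') ≥ h³ δ² / (12 τ⁴ gm) > h³ δ² / (12 τ⁴ κ) ≥ H²,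
contradiction. So card Z ≤ q³ δ h. -/
theorem small_gcd {n : ℕ} {q : ℝ} (hb : Nb n q) (h H : ℕ) (hh1 : 1 ≤ h)
    (hh : h ≤ n ^ 2) (τ δ κ : ℝ) (hτ : 1 ≤ τ) (hδ0 : 0 < δ) (hδ1 : δ ≤ 1) (hκ : 0 < κ)
    (hH : (H : ℝ) ^ 2 * (12 * τ ^ 4 * κ) ≤ (h : ℝ) ^ 3 * δ ^ 2) (a b y : ℤ) (hab : a ≠ b)
    (hy : y ≠ a ∧ y ≠ b ∧ hs a b y ≤ h ∧ (h : ℝ) * gd a b y ≤ τ * (a - b).natAbs ∧
      (h : ℝ) * gd a b y ≤ τ * (a - y).natAbs ∧ (h : ℝ) * gd a b y ≤ τ * (b - y).natAbs)
    (Z : Finset ℤ) (hZ : ∀ z ∈ Z, z ≠ a ∧ z ≠ b ∧ hs a b z ≤ h ∧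
      (h : ℝ) * gd a b z ≤ τ * (a - b).natAbs ∧ (h : ℝ) * gd a b z ≤ τ * (a - z).natAbs ∧
      (h : ℝ) * gd a b z ≤ τ * (b - z).natAbs ∧ z ≠ y ∧ (g2 a b y z : ℝ) < κ ∧
      hgt (a - y) (a - z) ≤ H ∧ hgt (b - y) (b - z) ≤ H) :
    (Z.card : ℝ) ≤ q ^ 3 * δ * h := by
  by_contra hcon
  push Not at hcon
  have hZc : q ^ 3 * δ * h ≤ Z.card := hcon.le
  obtain ⟨m, j, hmj⟩ := D1_dat hh1 hab hy.2.2.1 hy.2.2.2.1 hy.2.2.2.2.1 hy.2.2.2.2.2
  have hex : ∀ z : ℤ, ∃ mj : ℤ × ℤ, z ∈ Z → D1D a b z h τ mj.1 mj.2 := fun z => by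
    by_cases hz : z ∈ Z
    · obtain ⟨-, -, h3, h4, h5, h6, -⟩ := hZ z hz
      obtain ⟨m', j', hd⟩ := D1_dat hh1 hab h3 h4 h5 h6
      exact ⟨(m', j'), fun _ => hd⟩
    · exact ⟨(0, 0), fun hz' => absurd hz' hz⟩
  choose f hf using hex
  have hD : a - b ≠ 0 := sub_ne_zero.2 hab
  have hhR : (1 : ℝ) ≤ h := by exact_mod_cast hh1
  have hhR0 : (0 : ℝ) < h := by linarith
  have hq0 := hb.q_pos
  have hqbig := hb.hq
  -- the two inequalities
  have hineq : ∀ z ∈ Z,
      (h : ℝ) * h ≤ τ ^ 2 * H * ((Int.gcd j (f z).2 * Int.gcd m (f z).1 : ℕ) : ℝ) ∧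
      (h : ℝ) * h ≤ τ ^ 2 * H *
        ((Int.gcd (j - m) ((f z).2 - (f z).1) * Int.gcd m (f z).1 : ℕ) : ℝ) := by
    intro z hz
    obtain ⟨-, -, -, -, -, -, -, -, h7, h8⟩ := hZ z hz
    have hd := hf z hz
    constructor
    · exact D1_real hτ hmj.j2 hd.m2 h7 (D1_key hD hmj.hm hd.hm hmj.hj hd.hj hmj.j0
        hmj.cop hd.cop)
    · have e1 : b - y = (j - m) * gd a b y := by
        have : b - y = (a - y) - (a - b) := by ring
        rw [this, sub_mul, ← hmj.hj, ← hmj.hm]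
      have e2 : b - z = ((f z).2 - (f z).1) * gd a b z := by
        have : b - z = (a - z) - (a - b) := by ring
        rw [this, sub_mul, ← hd.hj, ← hd.hm]
      have c1 : IsCoprime m (j - m) := by
        have := hmj.cop.add_mul_left_right (-1)
        have e : j + m * -1 = j - m := by ring
        rwa [e] at this
      have c2 : IsCoprime (f z).1 ((f z).2 - (f z).1) := by
        have := hd.cop.add_mul_left_right (-1)
        have e : (f z).2 + (f z).1 * -1 = (f z).2 - (f z).1 := by ring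
        rwa [e] at this
      exact D1_real hτ hmj.d2 hd.m2 h8 (D1_key hD hmj.hm hd.hm e1 e2 hmj.d0 c1 c2)
  -- the common divisor of the first sides
  have hmm : ∀ w : ℤ, ∀ m' : ℤ, a - b = m' * gd a b w → mm a b w = m'.natAbs := by
    intro w m' hw
    have hg := gd_pos hab w
    unfold mm
    have e : (a - b).natAbs = m'.natAbs * gd a b w := by
      conv_lhs => rw [hw]
      rw [Int.natAbs_mul, Int.natAbs_natCast]
    rw [e, Nat.mul_div_cancel _ hg]
  have hg2 : ∀ z ∈ Z, g2 a b y z = Int.gcd m (f z).1 := by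
    intro z hz
    unfold g2
    rw [hmm y m hmj.hm, hmm z (f z).1 (hf z hz).hm]
    rfl
  -- injectivity
  have hinj : ∀ z ∈ Z, ∀ z' ∈ Z, f z = f z' → z = z' := by
    intro z hz z' hz' hzz
    have h1 := (hf z hz).hm
    have h2 := (hf z' hz').hm
    have h3 := (hf z hz).hj
    have h4 := (hf z' hz').hj
    rw [hzz] at h1 h3
    have h5 : ((gd a b z : ℕ) : ℤ) = gd a b z' :=
      mul_left_cancel₀ (hf z' hz').m0 (h1.symm.trans h2)
    rw [h5, ← h4] at h3
    linarith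
  -- first pigeonhole
  let T := (j.natAbs.divisors ×ˢ m.natAbs.divisors) ×ˢ (j - m).natAbs.divisors
  let F3 : ℤ → (ℕ × ℕ) × ℕ := fun z =>
    ((Int.gcd j (f z).2, Int.gcd m (f z).1), Int.gcd (j - m) ((f z).2 - (f z).1))
  have hn1 : 1 ≤ n := by have := hb.hn; omega
  have hn8 : n ^ 2 ≤ n ^ 8 := Nat.pow_le_pow_right hn1 (by norm_num)
  have hcard : ∀ x : ℤ, x ≠ 0 → x.natAbs ≤ h → ((x.natAbs.divisors.card : ℕ) : ℝ) ≤ q :=
    fun x hx hxh => hb.hdiv _ (Int.natAbs_pos.2 hx) ((hxh.trans hh).trans hn8)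
  have hT : (T.card : ℝ) ≤ q ^ 3 := by
    have h1 := hcard j hmj.j0 hmj.j1
    have h2 := hcard m hmj.m0 hmj.m1
    have h3 := hcard (j - m) hmj.d0 hmj.d1
    have e : (T.card : ℝ) = j.natAbs.divisors.card * m.natAbs.divisors.card *
        (j - m).natAbs.divisors.card := by
      simp only [T, Finset.card_product]
      push_cast
      ring
    rw [e]
    calc ((j.natAbs.divisors.card : ℕ) : ℝ) * m.natAbs.divisors.card *
        (j - m).natAbs.divisors.card ≤ q * q * q := by gcongr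
      _ = q ^ 3 := by ring
  have hTne : T.Nonempty := by
    refine ⟨((1, 1), 1), ?_⟩
    simp only [T, Finset.mem_product, Nat.mem_divisors, one_dvd, true_and]
    exact ⟨⟨Int.natAbs_ne_zero.2 hmj.j0, Int.natAbs_ne_zero.2 hmj.m0⟩,
      Int.natAbs_ne_zero.2 hmj.d0⟩
  have hmaps : ∀ z ∈ Z, F3 z ∈ T := by
    intro z _
    simp only [F3, T, Finset.mem_product, Nat.mem_divisors]
    exact ⟨⟨⟨Nat.gcd_dvd_left _ _, Int.natAbs_ne_zero.2 hmj.j0⟩,
      ⟨Nat.gcd_dvd_left _ _, Int.natAbs_ne_zero.2 hmj.m0⟩⟩,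
      ⟨Nat.gcd_dvd_left _ _, Int.natAbs_ne_zero.2 hmj.d0⟩⟩
  obtain ⟨g3, -, hg3⟩ := Finset.exists_le_card_fiber_of_nsmul_le_card_of_maps_to
    (s := Z) (t := T) (f := F3) (b := (Z.card : ℝ) / q ^ 3) hmaps hTne (by
      rw [nsmul_eq_mul, mul_div_assoc']
      rw [div_le_iff₀ (by positivity), mul_comm]
      exact mul_le_mul_of_nonneg_left hT (Nat.cast_nonneg _))
  obtain ⟨⟨gj, gm⟩, gd'⟩ := g3
  set Z' := Z.filter (fun z => F3 z = ((gj, gm), gd')) with hZ'
  have hZ'sub : Z' ⊆ Z := Finset.filter_subset _ _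
  have hgs : ∀ z ∈ Z', Int.gcd j (f z).2 = gj ∧ Int.gcd m (f z).1 = gm ∧
      Int.gcd (j - m) ((f z).2 - (f z).1) = gd' := by
    intro z hz
    have := (Finset.mem_filter.1 hz).2
    simp only [F3, Prod.mk.injEq] at this
    exact ⟨this.1.1, this.1.2, this.2⟩
  have hq3 : 1 ≤ q ^ 3 := one_le_pow₀ hb.q_one
  have hc1 : δ * h ≤ Z'.card := by
    calc δ * h = (q ^ 3 * δ * h) / q ^ 3 := by field_simp
      _ ≤ Z.card / q ^ 3 := by gcongr
      _ ≤ Z'.card := hg3
  have hZ'ne : Z'.Nonempty := by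
    rw [← Finset.card_pos]
    have : (0 : ℝ) < Z'.card := lt_of_lt_of_le (by positivity) hc1
    exact_mod_cast this
  obtain ⟨z0, hz0⟩ := hZ'ne
  obtain ⟨e1, e2, e3⟩ := hgs z0 hz0
  have hgj : 0 < gj := by rw [← e1]; exact Int.gcd_pos_of_ne_zero_left _ hmj.j0
  have hgm : 0 < gm := by rw [← e2]; exact Int.gcd_pos_of_ne_zero_left _ hmj.m0
  have hgd : 0 < gd' := by rw [← e3]; exact Int.gcd_pos_of_ne_zero_left _ hmj.d0
  obtain ⟨i1, i2⟩ := hineq z0 (hZ'sub hz0)
  rw [e1, e2] at i1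
  rw [e3, e2] at i2
  push_cast at i1 i2
  have dj : ∀ z ∈ Z', (gj : ℤ) ∣ (f z).2 := fun z hz => by
    rw [← (hgs z hz).1]; exact Int.gcd_dvd_right _ _
  have dm : ∀ z ∈ Z', (gm : ℤ) ∣ (f z).1 := fun z hz => by
    rw [← (hgs z hz).2.1]; exact Int.gcd_dvd_right _ _
  have dd : ∀ z ∈ Z', (gd' : ℤ) ∣ (f z).2 - (f z).1 := fun z hz => by
    rw [← (hgs z hz).2.2]; exact Int.gcd_dvd_right _ _
  have hcop : Nat.Coprime gj gd' := by
    have h1 : IsCoprime j (j - m) := by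
      have := hmj.cop.symm.neg_right.add_mul_left_right 1
      have e : -m + j * 1 = j - m := by ring
      rwa [e] at this
    have h2 : (gj : ℤ) ∣ j := by rw [← e1]; exact Int.gcd_dvd_left _ _
    have h3 : (gd' : ℤ) ∣ j - m := by rw [← e3]; exact Int.gcd_dvd_left _ _
    exact Int.isCoprime_iff_gcd_eq_one.1 (h1.of_isCoprime_of_dvd_left h2 |>.of_isCoprime_of_dvd_right h3)
  -- count (i)
  have hcount1 : (Z'.card : ℝ) * gj * gd' ≤ 4 * (h : ℝ) ^ 2 := by
    let A := Z'.image (fun z => (f z).2)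
    let B := Z'.image (fun z => (f z).2 - (f z).1)
    have hA := D1_mul_count (h := h) hgj A (by
      intro x hx
      obtain ⟨z, hz, rfl⟩ := Finset.mem_image.1 hx
      have hd := hf z (hZ'sub hz)
      exact ⟨hd.j0, hd.j1, dj z hz⟩)
    have hB := D1_mul_count (h := h) hgd B (by
      intro x hx
      obtain ⟨z, hz, rfl⟩ := Finset.mem_image.1 hx
      have hd := hf z (hZ'sub hz)
      exact ⟨hd.d0, hd.d1, dd z hz⟩)
    have hAB : Z'.card ≤ A.card * B.card := by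
      rw [← Finset.card_product]
      refine Finset.card_le_card_of_injOn (fun z => ((f z).2, (f z).2 - (f z).1)) ?_ ?_
      · intro z hz
        rw [Finset.mem_coe, Finset.mem_product]
        exact ⟨Finset.mem_image_of_mem _ hz, Finset.mem_image_of_mem _ hz⟩
      · intro z hz z' hz' hzz
        simp only [Prod.mk.injEq] at hzz
        refine hinj z (hZ'sub hz) z' (hZ'sub hz') (Prod.ext ?_ hzz.1)
        linarith [hzz.1, hzz.2]
    have h1 : Z'.card * gj * gd' ≤ (2 * h) * (2 * h) := by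
      calc Z'.card * gj * gd' ≤ (A.card * B.card) * gj * gd' := by gcongr
        _ = (A.card * gj) * (B.card * gd') := by ring
        _ ≤ (2 * h) * (2 * h) := Nat.mul_le_mul hA hB
    have h2 : ((Z'.card * gj * gd' : ℕ) : ℝ) ≤ (((2 * h) * (2 * h) : ℕ) : ℝ) := by
      exact_mod_cast h1
    push_cast at h2
    linarith
  -- the set of values of m'
  let Mv := Z'.image (fun z => (f z).1)
  have hMv := D1_mul_count (h := h) hgm Mv (by
    intro x hx
    obtain ⟨z, hz, rfl⟩ := Finset.mem_image.1 hx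
    have hd := hf z (hZ'sub hz)
    exact ⟨hd.m0, hd.m1, dm z hz⟩)
  have hMvR : (Mv.card : ℝ) * gm ≤ 2 * h := by exact_mod_cast hMv
  have hMvmaps : ∀ z ∈ Z', (f z).1 ∈ Mv := fun z hz => Finset.mem_image_of_mem _ hz
  -- count (ii)
  have hcount2 : (Z'.card : ℝ) * (gj * gd') ≤ (2 * h + gj * gd') * Mv.card := by
    have hN : 0 < gj * gd' := Nat.mul_pos hgj hgd
    have h1 : ∀ x ∈ Mv, (Z'.filter (fun z => (f z).1 = x)).card ≤
        (2 * h + gj * gd') / (gj * gd') := by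
      intro x _
      rw [Nat.le_div_iff_mul_le hN]
      have h2 := D1_class_count hN ((Z'.filter (fun z => (f z).1 = x)).image (fun z => (f z).2))
        (h := h) (by
          intro w hw
          obtain ⟨z, hz, rfl⟩ := Finset.mem_image.1 hw
          exact (hf z (hZ'sub (Finset.mem_filter.1 hz).1)).j1) (by
          intro w hw w' hw'
          obtain ⟨z, hz, rfl⟩ := Finset.mem_image.1 hw
          obtain ⟨z', hz', rfl⟩ := Finset.mem_image.1 hw'
          rw [Finset.mem_filter] at hz hz'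
          have k1 : (gj : ℤ) ∣ (f z).2 - (f z').2 := dvd_sub (dj z hz.1) (dj z' hz'.1)
          have k2 : (gd' : ℤ) ∣ (f z).2 - (f z').2 := by
            have := dvd_sub (dd z hz.1) (dd z' hz'.1)
            have e : (f z).2 - (f z).1 - ((f z').2 - (f z').1) = (f z).2 - (f z').2 := by
              rw [hz.2, hz'.2]; ring
            rwa [e] at this
          push_cast
          exact (Nat.isCoprime_iff_coprime.2 hcop).mul_dvd k1 k2)
      rw [Finset.card_image_of_injOn] at h2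
      · exact h2
      · intro z hz z' hz' hzz
        rw [Finset.mem_coe, Finset.mem_filter] at hz hz'
        exact hinj z (hZ'sub hz.1) z' (hZ'sub hz'.1) (Prod.ext (hz.2.trans hz'.2.symm) hzz)
    have h3 := Finset.card_le_mul_card_image_of_maps_to (s := Z') (t := Mv)
      (f := fun z => (f z).1) hMvmaps _ h1
    have h4 : Z'.card * (gj * gd') ≤ (2 * h + gj * gd') * Mv.card := by
      calc Z'.card * (gj * gd') ≤ ((2 * h + gj * gd') / (gj * gd') * Mv.card) * (gj * gd') := by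
            gcongr
        _ = ((2 * h + gj * gd') / (gj * gd') * (gj * gd')) * Mv.card := by ring
        _ ≤ (2 * h + gj * gd') * Mv.card := by
            gcongr
            exact Nat.div_mul_le_self _ _
    exact_mod_cast h4
  -- numerical conclusions
  have gjR : (0 : ℝ) < gj := by exact_mod_cast hgj
  have gmR : (0 : ℝ) < gm := by exact_mod_cast hgm
  have gdR : (0 : ℝ) < gd' := by exact_mod_cast hgd
  have n1 : δ * (gj * gd') ≤ 4 * h := by
    have k1 : (δ * h) * gj * gd' ≤ Z'.card * gj * gd' := by gcongr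
    have k2 : h * (δ * (gj * gd')) ≤ h * (4 * h) := by nlinarith [hcount1, k1]
    exact le_of_mul_le_mul_left k2 hhR0
  have n2 : δ ^ 2 * (gm * (gj * gd')) ≤ 12 * h := by
    have k1 : (Z'.card : ℝ) * (gj * gd') * gm ≤ (2 * h + gj * gd') * (2 * h) := by
      calc (Z'.card : ℝ) * (gj * gd') * gm ≤ (2 * h + gj * gd') * Mv.card * gm := by gcongr
        _ = (2 * h + gj * gd') * (Mv.card * gm) := by ring
        _ ≤ (2 * h + gj * gd') * (2 * h) := by gcongr
    have k2 : (δ * h) * (gj * gd') * gm ≤ Z'.card * (gj * gd') * gm := by gcongr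
    have k3 : δ * ((2 * h + gj * gd') * (2 * h)) ≤ 12 * h * h := by
      have k4 : δ * (2 * h) ≤ 1 * (2 * h) := mul_le_mul_of_nonneg_right hδ1 (by positivity)
      have k5 : δ * (2 * h + gj * gd') ≤ 6 * h := by
        have : δ * (2 * h + gj * gd') = δ * (2 * h) + δ * (gj * gd') := by ring
        rw [this]; linarith
      calc δ * ((2 * h + gj * gd') * (2 * h)) = (δ * (2 * h + gj * gd')) * (2 * h) := by ring
        _ ≤ (6 * h) * (2 * h) := mul_le_mul_of_nonneg_right k5 (by positivity)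
        _ = 12 * h * h := by ring
    have k6 : h * (δ ^ 2 * (gm * (gj * gd'))) ≤ h * (12 * h) := by
      calc h * (δ ^ 2 * (gm * (gj * gd'))) = δ * ((δ * h) * (gj * gd') * gm) := by ring
        _ ≤ δ * ((2 * h + gj * gd') * (2 * h)) :=
            mul_le_mul_of_nonneg_left (k2.trans k1) hδ0.le
        _ ≤ 12 * h * h := k3
        _ = h * (12 * h) := by ring
    exact le_of_mul_le_mul_left k6 hhR0
  have hgmκ : (gm : ℝ) < κ := by
    have h1 := (hZ z0 (hZ'sub hz0)).2.2.2.2.2.2.2.1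
    rw [hg2 z0 (hZ'sub hz0), e2] at h1
    exact h1
  have hHpos : (0 : ℝ) < H := by
    rcases Nat.eq_zero_or_pos H with h0 | h0
    · exfalso
      rw [h0] at i1
      simp only [Nat.cast_zero, mul_zero, zero_mul] at i1
      have : 0 < (h : ℝ) * h := by positivity
      linarith
    · exact_mod_cast h0
  have k1 : ((h : ℝ) * h) * (h * h) ≤
      (τ ^ 2 * H * (gj * gm)) * (τ ^ 2 * H * (gd' * gm)) :=
    mul_le_mul i1 i2 (by positivity) (by positivity)
  have k2 : (h : ℝ) * (h ^ 3 * δ ^ 2) ≤ h * (12 * τ ^ 4 * H ^ 2 * gm) := by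
    calc (h : ℝ) * (h ^ 3 * δ ^ 2) = δ ^ 2 * (((h : ℝ) * h) * (h * h)) := by ring
      _ ≤ δ ^ 2 * ((τ ^ 2 * H * (gj * gm)) * (τ ^ 2 * H * (gd' * gm))) :=
          mul_le_mul_of_nonneg_left k1 (by positivity)
      _ = (τ ^ 4 * H ^ 2 * gm) * (δ ^ 2 * (gm * (gj * gd'))) := by ring
      _ ≤ (τ ^ 4 * H ^ 2 * gm) * (12 * h) := mul_le_mul_of_nonneg_left n2 (by positivity)
      _ = h * (12 * τ ^ 4 * H ^ 2 * gm) := by ring
  have k3 : (h : ℝ) ^ 3 * δ ^ 2 ≤ 12 * τ ^ 4 * H ^ 2 * gm := le_of_mul_le_mul_left k2 hhR0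
  have k4 : 12 * τ ^ 4 * (H : ℝ) ^ 2 * gm < 12 * τ ^ 4 * H ^ 2 * κ :=
    mul_lt_mul_of_pos_left hgmκ (by positivity)
  have k5 : 12 * τ ^ 4 * (H : ℝ) ^ 2 * κ = (H : ℝ) ^ 2 * (12 * τ ^ 4 * κ) := by ring
  linarith

end Pool.Agent.MP_741d1b.All
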