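import Mathlib
import Pool.Agent.Lib.MP_741d1b_nt_all.BQuads
import Pool.Agent.Lib.MP_741d1b_nt_all.DSmall

/-!
Row D2: many quadruples with large common divisor.
-/

set_option autoImplicit false

namespace Pool.Agent.MP_741d1b.All

open Finset Classical
open Pool.Agent.MP_741d1b.H87

private theorem d2_dyad {m M : ℕ} (hm : m < M) : ∀ I : ℕ, M ≤ 2 ^ I * m →
    ∃ i ∈ range I, 2 ^ i * m < M ∧ M ≤ 2 ^ (i + 1) * m := by
  intro I
  induction I with
  | zero =>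
    intro h
    rw [pow_zero, one_mul] at h
    omega
  | succ I ih =>
    intro h
    by_cases hI : M ≤ 2 ^ I * m
    · obtain ⟨i, hi, h1⟩ := ih hI
      exact ⟨i, mem_range.mpr (by have := mem_range.mp hi; omega), h1⟩
    · exact ⟨I, mem_range.mpr (by omega), by omega, h⟩

private theorem d2_log {n : ℕ} {q : ℝ} (hb : Nb n q) {h : ℕ} (hh1 : 1 ≤ h) (hh : h ≤ n ^ 2) :
    ((2 * (Nat.log 2 h + 1) : ℕ) : ℝ) ≤ 8 * q := by
  have h1 : (2 : ℝ) ^ Nat.log 2 h ≤ (n : ℝ) ^ 2 := by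
    have := (Nat.pow_log_le_self 2 (by omega : h ≠ 0)).trans hh
    exact_mod_cast this
  have h2 := Real.log_le_log (by positivity) h1
  rw [Real.log_pow, Real.log_pow] at h2
  have h3 := Real.log_two_gt_d9
  have h4 := hb.hlog
  have h5 : (0 : ℝ) ≤ Nat.log 2 h := Nat.cast_nonneg _
  have h6 : ((2 : ℕ) : ℝ) = 2 := by norm_num
  rw [h6] at h2
  push_cast
  nlinarith

private theorem d2_num {n : ℕ} {q : ℝ} (hb : Nb n q) (A : Finset ℤ) (h : ℕ)
    (hh : h ≤ n ^ 2) {a y z : ℤ} (hy : y ≠ a) (hz : z ≠ a) :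
    ((A.filter (fun b => b ≠ a ∧ y ∈ F A h a b ∧ z ∈ F A h a b)).card : ℝ) *
      hgt (a - y) (a - z) ≤ 2 * q ^ 2 * (h : ℝ) ^ 2 := by
  have h1 := b_count hb (a - y) (a - z) (sub_ne_zero.mpr hy.symm) (sub_ne_zero.mpr hz.symm) h hh
    ((A.filter (fun b => b ≠ a ∧ y ∈ F A h a b ∧ z ∈ F A h a b)).image (fun b => a - b)) ?_
  · rw [card_image_of_injective _ (fun b c hbc => by
      have hbc' : a - b = a - c := hbc
      omega)] at h1
    exact h1
  · intro x hx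
    rw [mem_image] at hx
    obtain ⟨b, hb1, rfl⟩ := hx
    rw [mem_filter] at hb1
    obtain ⟨_, hba, hyF, hzF⟩ := hb1
    rw [mem_F] at hyF hzF
    exact ⟨sub_ne_zero.mpr hba.symm, (hgt_le_hs hba.symm y).trans hyF.2.2.2,
      (hgt_le_hs hba.symm z).trans hzF.2.2.2⟩

private theorem d2_bad {n : ℕ} {q : ℝ} (hb : Nb n q) (A : Finset ℤ) (h H : ℕ)
    (hρ : 1 ≤ H) (hh1 : 1 ≤ h) (hh : h ≤ n ^ 2) (l : ℝ) (hl : 1 ≤ l)
    (hT' : ∀ h' : ℕ, H ≤ h' → tc A h' < (n : ℝ) ^ 2 * h' / (q ^ 5 * l ^ 2)) :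
    ∑ a ∈ A, ∑ b ∈ A.erase a, ∑ y ∈ F A h a b,
      (((F A h a b).filter (fun z => z ≠ y ∧ H < hgt (a - y) (a - z))).card : ℝ) ≤
      (n : ℝ) ^ 2 * (h : ℝ) ^ 2 / (32 * l ^ 2) := by
  have hq0 : 0 < q := hb.q_pos
  have hl0 : 0 < l := by linarith
  have hn0 : (0 : ℝ) < n := hb.n_pos'
  have hh0 : (0 : ℝ) < h := by exact_mod_cast hh1
  have hρ0 : (0 : ℝ) < H := by exact_mod_cast hρ
  set I := 2 * (Nat.log 2 h + 1) with hI
  have hhI0 : h ≤ 2 ^ (Nat.log 2 h + 1) := (Nat.lt_pow_succ_log_self (by norm_num) h).le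
  have hhI : h * h ≤ 2 ^ I := by
    rw [hI, two_mul, pow_add]
    exact Nat.mul_le_mul hhI0 hhI0
  -- the sum over quadruples, with `b` inside
  have e1 : ∑ a ∈ A, ∑ b ∈ A.erase a, ∑ y ∈ F A h a b,
      (((F A h a b).filter (fun z => z ≠ y ∧ H < hgt (a - y) (a - z))).card : ℝ) =
      ∑ a ∈ A, ∑ y ∈ A, ∑ z ∈ A, if (z ≠ y ∧ H < hgt (a - y) (a - z)) then
        ((A.filter (fun b => b ≠ a ∧ y ∈ F A h a b ∧ z ∈ F A h a b)).card : ℝ) else 0 := by
    refine sum_congr rfl fun a _ => ?_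
    have e2 : ∀ b ∈ A.erase a, ∑ y ∈ F A h a b,
        (((F A h a b).filter (fun z => z ≠ y ∧ H < hgt (a - y) (a - z))).card : ℝ) =
        ∑ y ∈ A, ∑ z ∈ A, if (y ∈ F A h a b ∧ z ∈ F A h a b ∧
          (z ≠ y ∧ H < hgt (a - y) (a - z))) then (1 : ℝ) else 0 := by
      intro b _
      have hFA : A.filter (fun y => y ∈ F A h a b) = F A h a b := by
        ext y
        rw [mem_filter]
        exact ⟨fun hy => hy.2, fun hy => ⟨(mem_F.mp hy).1, hy⟩⟩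
      conv_lhs => rw [← hFA]
      rw [sum_filter]
      refine sum_congr rfl fun y _ => ?_
      by_cases hy : y ∈ F A h a b
      · rw [if_pos hy, filter_filter, card_filter]
        push_cast
        refine sum_congr rfl fun z _ => ?_
        refine if_congr ?_ rfl rfl
        tauto
      · rw [if_neg hy]
        symm
        refine sum_eq_zero fun z _ => ?_
        rw [if_neg]
        tauto
    rw [sum_congr rfl e2, sum_comm]
    refine sum_congr rfl fun y _ => ?_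
    rw [sum_comm]
    refine sum_congr rfl fun z _ => ?_
    rw [← filter_ne', sum_filter]
    by_cases hc : z ≠ y ∧ H < hgt (a - y) (a - z)
    · rw [if_pos hc, card_filter]
      push_cast
      refine sum_congr rfl fun b _ => ?_
      by_cases hba : b ≠ a
      · rw [if_pos hba]
        refine if_congr ?_ rfl rfl
        tauto
      · rw [if_neg hba, if_neg]
        tauto
    · rw [if_neg hc]
      refine sum_eq_zero fun b _ => ?_
      split_ifs with h1 h2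
      · exact absurd h2.2.2 hc
      · rfl
      · rfl
  rw [e1]
  -- dyadic decomposition
  have e3 : ∀ a ∈ A, ∀ y ∈ A, ∀ z ∈ A, (if (z ≠ y ∧ H < hgt (a - y) (a - z)) then
        ((A.filter (fun b => b ≠ a ∧ y ∈ F A h a b ∧ z ∈ F A h a b)).card : ℝ) else 0) ≤
      ∑ i ∈ range I, (if (y ≠ a ∧ z ∈ F A (4 * 2 ^ i * H) a y) then
        2 * q ^ 2 * (h : ℝ) ^ 2 / (2 ^ i * H) else 0) := by
    intro a _ y _ z hzA
    have hnn : (0 : ℝ) ≤ ∑ i ∈ range I, (if (y ≠ a ∧ z ∈ F A (4 * 2 ^ i * H) a y) then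
        2 * q ^ 2 * (h : ℝ) ^ 2 / (2 ^ i * H) else 0) := by
      refine sum_nonneg fun i _ => ?_
      split_ifs
      · positivity
      · exact le_rfl
    split_ifs with hc
    · rcases (A.filter (fun b => b ≠ a ∧ y ∈ F A h a b ∧ z ∈ F A h a b)).eq_empty_or_nonempty
        with h0 | h0
      · rw [h0, card_empty, Nat.cast_zero]
        exact hnn
      · obtain ⟨b, hb1⟩ := h0
        rw [mem_filter] at hb1
        obtain ⟨_, hba, hyF, hzF⟩ := hb1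
        rw [mem_F] at hyF hzF
        have hya : y ≠ a := hyF.2.1
        have hza : z ≠ a := hzF.2.1
        have hM : hgt (a - y) (a - z) ≤ h * h := by
          refine (hgt_mul_le (sub_ne_zero.mpr hba.symm) (sub_ne_zero.mpr hya.symm)
            (sub_ne_zero.mpr hza.symm)).trans ?_
          exact Nat.mul_le_mul ((hgt_le_hs hba.symm y).trans hyF.2.2.2)
            ((hgt_le_hs hba.symm z).trans hzF.2.2.2)
        have hM2 : hgt (a - y) (a - z) ≤ 2 ^ I * H := by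
          exact (hM.trans hhI).trans (Nat.le_mul_of_pos_right _ (by omega))
        obtain ⟨i, hi, hlo, hup⟩ := d2_dyad hc.2 I hM2
        have hmem : z ∈ F A (4 * 2 ^ i * H) a y := by
          rw [mem_F]
          refine ⟨hzA, hza, hc.1, (hs_le_two_hgt hya.symm z).trans ?_⟩
          rw [pow_succ] at hup
          nlinarith
        refine le_trans ?_ (single_le_sum (f := fun i =>
          (if (y ≠ a ∧ z ∈ F A (4 * 2 ^ i * H) a y) then
          2 * q ^ 2 * (h : ℝ) ^ 2 / (2 ^ i * H) else 0)) (fun i _ => ?_) hi)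
        · rw [if_pos ⟨hya, hmem⟩, le_div_iff₀ (by positivity)]
          refine le_trans ?_ (d2_num hb A h hh hya hza)
          apply mul_le_mul_of_nonneg_left _ (Nat.cast_nonneg _)
          have : ((2 ^ i * H : ℕ) : ℝ) ≤ (hgt (a - y) (a - z) : ℝ) := by
            exact_mod_cast hlo.le
          push_cast at this
          exact this
        · split_ifs
          · positivity
          · exact le_rfl
    · exact hnn
  refine (sum_le_sum fun a ha => sum_le_sum fun y hy => sum_le_sum fun z hz =>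
    e3 a ha y hy z hz).trans ?_
  -- exchange the sums
  have e4 : ∑ a ∈ A, ∑ y ∈ A, ∑ z ∈ A, ∑ i ∈ range I,
      (if (y ≠ a ∧ z ∈ F A (4 * 2 ^ i * H) a y) then
        2 * q ^ 2 * (h : ℝ) ^ 2 / (2 ^ i * H) else 0) =
      ∑ i ∈ range I, tc A (4 * 2 ^ i * H) *
        (2 * q ^ 2 * (h : ℝ) ^ 2 / (2 ^ i * H)) := by
    have e5 : ∀ a ∈ A, ∀ y ∈ A, ∑ z ∈ A, ∑ i ∈ range I,
      (if (y ≠ a ∧ z ∈ F A (4 * 2 ^ i * H) a y) then
        2 * q ^ 2 * (h : ℝ) ^ 2 / (2 ^ i * H) else 0) = ∑ i ∈ range I,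
        (if y ≠ a then ((F A (4 * 2 ^ i * H) a y).card : ℝ) *
          (2 * q ^ 2 * (h : ℝ) ^ 2 / (2 ^ i * H)) else 0) := by
      intro a _ y _
      rw [sum_comm]
      refine sum_congr rfl fun i _ => ?_
      by_cases hya : y ≠ a
      · rw [if_pos hya]
        have hFA : A.filter (fun z => z ∈ F A (4 * 2 ^ i * H) a y) =
            F A (4 * 2 ^ i * H) a y := by
          ext z
          rw [mem_filter]
          exact ⟨fun hz => hz.2, fun hz => ⟨(mem_F.mp hz).1, hz⟩⟩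
        have hcc : ((F A (4 * 2 ^ i * H) a y).card : ℝ) *
            (2 * q ^ 2 * (h : ℝ) ^ 2 / (2 ^ i * H)) =
            ∑ z ∈ A, if z ∈ F A (4 * 2 ^ i * H) a y then
              2 * q ^ 2 * (h : ℝ) ^ 2 / (2 ^ i * H) else 0 := by
          rw [← sum_filter, hFA, sum_const, nsmul_eq_mul]
        rw [hcc]
        refine sum_congr rfl fun z _ => ?_
        refine if_congr ?_ rfl rfl
        tauto
      · rw [if_neg hya]
        refine sum_eq_zero fun z _ => ?_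
        rw [if_neg]
        tauto
    rw [sum_congr rfl fun a ha => sum_congr rfl fun y hy => e5 a ha y hy]
    rw [sum_congr rfl fun a _ => sum_comm, sum_comm]
    refine sum_congr rfl fun i _ => ?_
    unfold tc
    rw [sum_mul]
    refine sum_congr rfl fun a _ => ?_
    rw [← filter_ne', sum_filter, sum_mul]
    refine sum_congr rfl fun y _ => ?_
    split_ifs
    · rfl
    · rw [zero_mul]
  rw [e4]
  have e6 : ∀ i ∈ range I, tc A (4 * 2 ^ i * H) *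
        (2 * q ^ 2 * (h : ℝ) ^ 2 / (2 ^ i * H)) ≤
        8 * (n : ℝ) ^ 2 * (h : ℝ) ^ 2 / (q ^ 3 * l ^ 2) := by
    intro i _
    have h1 : H ≤ 4 * 2 ^ i * H := by
      apply Nat.le_mul_of_pos_left
      positivity
    have h2 := (hT' _ h1).le
    have h3 : (0 : ℝ) ≤ 2 * q ^ 2 * (h : ℝ) ^ 2 / (2 ^ i * H) := by positivity
    refine (mul_le_mul_of_nonneg_right h2 h3).trans (le_of_eq ?_)
    push_cast
    field_simp
    ring
  refine (sum_le_sum e6).trans ?_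
  rw [sum_const, card_range, nsmul_eq_mul]
  have hI4 := d2_log hb hh1 hh
  rw [← hI] at hI4
  have h7 : (0 : ℝ) ≤ 8 * (n : ℝ) ^ 2 * (h : ℝ) ^ 2 / (q ^ 3 * l ^ 2) := by positivity
  refine (mul_le_mul_of_nonneg_right hI4 h7).trans ?_
  rw [← mul_div_assoc, div_le_div_iff₀ (by positivity) (by positivity)]
  have hq := hb.hq
  have hX : 0 < (n : ℝ) ^ 2 * (h : ℝ) ^ 2 * q * l ^ 2 := by positivity
  have hq2 : 2048 ≤ q ^ 2 := by nlinarith
  calc 8 * q * (8 * (n : ℝ) ^ 2 * (h : ℝ) ^ 2) * (32 * l ^ 2)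
      = ((n : ℝ) ^ 2 * (h : ℝ) ^ 2 * q * l ^ 2) * 2048 := by ring
    _ ≤ ((n : ℝ) ^ 2 * (h : ℝ) ^ 2 * q * l ^ 2) * q ^ 2 :=
        mul_le_mul_of_nonneg_left hq2 hX.le
    _ = (n : ℝ) ^ 2 * (h : ℝ) ^ 2 * (q ^ 3 * l ^ 2) := by ring

private theorem d2_comm (A : Finset ℤ) (f : ℤ → ℤ → ℝ) :
    ∑ a ∈ A, ∑ b ∈ A.erase a, f a b = ∑ a ∈ A, ∑ b ∈ A.erase a, f b a := by
  have h1 : ∀ g : ℤ → ℤ → ℝ, ∑ a ∈ A, ∑ b ∈ A.erase a, g a b =
      ∑ a ∈ A, ∑ b ∈ A, if b ≠ a then g a b else 0 := by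
    intro g
    refine sum_congr rfl fun a _ => ?_
    rw [← filter_ne', sum_filter]
  rw [h1, h1, sum_comm]
  refine sum_congr rfl fun a _ => sum_congr rfl fun b _ => ?_
  refine if_congr ne_comm rfl rfl

/- PROOF. As many_quads (BQuads.lean): Cauchy-Schwarz: ∑ card (F0) ^ 2 ≥ n² h² / (4 l²) (many_good);
diagonal ≤ n² h² / (32 l²); quadruples with hgt (a - y) (a - z) > H: ≤ n² h² / (32 l²) by hT' (dyadic
ranges of the height, b_count), the same for b; the remaining quadruples with g2 < κ: by small_gcd with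
τ = q⁴ l², δ = 1 / (q⁵ l²) (12 τ⁴ κ / δ² = 12 q^26 l^12 κ ≤ q^27 l^12 κ) at most q³ δ h for each
(a, b, y): total ≤ q³ δ h * tc A h ≤ q³ δ h q n² h ≤ n² h² / (32 l²). Sum: at least
n² h² / (4 l²) - 4 n² h² / (32 l²) = n² h² / (8 l²). -/
theorem many_quads2 {n : ℕ} {q : ℝ} (hb : Nb n q) (A : Finset ℤ) (hA : A.card ≤ n) (h H : ℕ)
    (hH1 : 1 ≤ H) (hh : 2 * h ≤ n ^ 2) (l κ : ℝ) (hl : 1 ≤ l) (hκ : 0 < κ)
    (hbig : 32 * q * l ^ 2 ≤ h) (hH : (H : ℝ) ^ 2 * (q ^ 27 * l ^ 12 * κ) ≤ (h : ℝ) ^ 3)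
    (hT : (n : ℝ) ^ 2 * h / l ≤ tc A h)
    (hT' : ∀ h' : ℕ, H ≤ h' → tc A h' < (n : ℝ) ^ 2 * h' / (q ^ 5 * l ^ 2)) :
    (n : ℝ) ^ 2 * (h : ℝ) ^ 2 / (8 * l ^ 2) ≤
      ∑ a ∈ A, ∑ b ∈ A.erase a, ∑ y ∈ F0 A h (q ^ 4 * l ^ 2) (q ^ 3 * l) a b,
        (((F0 A h (q ^ 4 * l ^ 2) (q ^ 3 * l) a b).filter (fun z => z ≠ y ∧
          κ ≤ (g2 a b y z : ℝ))).card : ℝ) := by
  have hq0 : 0 < q := hb.q_pos
  have hl0 : 0 < l := by linarith
  have hn0 : (0 : ℝ) < n := hb.n_pos'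
  have hh0 : (0 : ℝ) < h := lt_of_lt_of_le (by positivity) hbig
  have hh1 : 1 ≤ h := by
    have : 0 < h := by exact_mod_cast hh0
    omega
  have hhn : h ≤ n ^ 2 := by omega
  set G : ℤ → ℤ → Finset ℤ := fun a b => F0 A h (q ^ 4 * l ^ 2) (q ^ 3 * l) a b with hG
  have hGF : ∀ a b, G a b ⊆ F A h a b := fun a b => filter_subset _ _
  have hbad1 := d2_bad hb A h H hH1 hh1 hhn l hl hT'
  have hbad2 : ∑ a ∈ A, ∑ b ∈ A.erase a, ∑ y ∈ F A h a b,
      (((F A h a b).filter (fun z => z ≠ y ∧ H < hgt (b - y) (b - z))).card : ℝ) ≤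
      (n : ℝ) ^ 2 * (h : ℝ) ^ 2 / (32 * l ^ 2) := by
    rw [d2_comm]
    refine le_trans (le_of_eq ?_) hbad1
    refine sum_congr rfl fun a _ => sum_congr rfl fun b _ => ?_
    rw [F_comm A h a b]
  have hgood := many_good hb A hA h hh1 hh l hl hT
  set δ : ℝ := 1 / (q ^ 5 * l ^ 2) with hδ
  have hδ0 : 0 < δ := by positivity
  have hl2 : 1 ≤ l ^ 2 := one_le_pow₀ hl
  have hq1 : 1 ≤ q := hb.q_one
  have hδ1 : δ ≤ 1 := by
    rw [hδ, div_le_one (by positivity)]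
    exact one_le_mul_of_one_le_of_one_le (one_le_pow₀ hq1) hl2
  have hτ1 : 1 ≤ q ^ 4 * l ^ 2 := one_le_mul_of_one_le_of_one_le (one_le_pow₀ hq1) hl2
  have hHs : (H : ℝ) ^ 2 * (12 * (q ^ 4 * l ^ 2) ^ 4 * κ) ≤ (h : ℝ) ^ 3 * δ ^ 2 := by
    have e1 : (h : ℝ) ^ 3 * δ ^ 2 = (h : ℝ) ^ 3 / (q ^ 10 * l ^ 4) := by
      rw [hδ]
      field_simp
    rw [e1, le_div_iff₀ (by positivity)]
    refine le_trans ?_ hH
    have hq12 : 12 ≤ q := by have := hb.hq; linarith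
    have hX : 0 ≤ (H : ℝ) ^ 2 * (q ^ 26 * l ^ 12 * κ) := by positivity
    calc (H : ℝ) ^ 2 * (12 * (q ^ 4 * l ^ 2) ^ 4 * κ) * (q ^ 10 * l ^ 4)
        = (H : ℝ) ^ 2 * (q ^ 26 * l ^ 12 * κ) * 12 := by ring
      _ ≤ (H : ℝ) ^ 2 * (q ^ 26 * l ^ 12 * κ) * q := mul_le_mul_of_nonneg_left hq12 hX
      _ = (H : ℝ) ^ 2 * (q ^ 27 * l ^ 12 * κ) := by ring
  have hmemG : ∀ {a b y : ℤ}, y ∈ G a b → y ≠ a ∧ y ≠ b ∧ hs a b y ≤ h ∧
      (h : ℝ) * gd a b y ≤ q ^ 4 * l ^ 2 * (a - b).natAbs ∧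
      (h : ℝ) * gd a b y ≤ q ^ 4 * l ^ 2 * (a - y).natAbs ∧
      (h : ℝ) * gd a b y ≤ q ^ 4 * l ^ 2 * (b - y).natAbs := by
    intro a b y hy
    rw [hG] at hy
    simp only at hy
    unfold F0 at hy
    rw [mem_filter, mem_F] at hy
    exact ⟨hy.1.2.1, hy.1.2.2.1, hy.1.2.2.2, hy.2.1.1, hy.2.1.2.1, hy.2.1.2.2⟩
  have hsm : ∀ a b : ℤ, b ≠ a → ∀ y ∈ G a b, (((G a b).filter (fun z => z ≠ y ∧
      (g2 a b y z : ℝ) < κ ∧ hgt (a - y) (a - z) ≤ H ∧ hgt (b - y) (b - z) ≤ H)).card : ℝ) ≤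
      q ^ 3 * δ * h := by
    intro a b hba y hy
    refine small_gcd hb h H hh1 hhn (q ^ 4 * l ^ 2) δ κ hτ1 hδ0 hδ1 hκ hHs a b y hba.symm
      (hmemG hy) _ ?_
    intro z hz
    rw [mem_filter] at hz
    obtain ⟨h1, h2, h3, h4, h5, h6⟩ := hmemG hz.1
    exact ⟨h1, h2, h3, h4, h5, h6, hz.2⟩
  have hpt : ∀ a b : ℤ, b ≠ a → ((G a b).card : ℝ) ^ 2 ≤ ((F A h a b).card : ℝ) +
      ((∑ y ∈ G a b, (((G a b).filter (fun z => z ≠ y ∧ κ ≤ (g2 a b y z : ℝ))).card : ℝ)) +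
      (((∑ y ∈ F A h a b,
        (((F A h a b).filter (fun z => z ≠ y ∧ H < hgt (a - y) (a - z))).card : ℝ)) +
      (∑ y ∈ F A h a b,
        (((F A h a b).filter (fun z => z ≠ y ∧ H < hgt (b - y) (b - z))).card : ℝ))) +
      ((F A h a b).card : ℝ) * (q ^ 3 * δ * h))) := by
    intro a b hba
    have h1 : ((G a b).card : ℝ) ^ 2 = ∑ y ∈ G a b, ((G a b).card : ℝ) := by
      rw [sum_const, nsmul_eq_mul, sq]
    have h2 : ∀ y ∈ G a b, ((G a b).card : ℝ) ≤ 1 + ((((G a b).filter (fun z => z ≠ y ∧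
          κ ≤ (g2 a b y z : ℝ))).card : ℝ) +
        (((((F A h a b).filter (fun z => z ≠ y ∧ H < hgt (a - y) (a - z))).card : ℝ) +
        (((F A h a b).filter (fun z => z ≠ y ∧ H < hgt (b - y) (b - z))).card : ℝ)) +
        q ^ 3 * δ * h)) := by
      intro y hyG
      have hsub : G a b ⊆ {y} ∪ ((G a b).filter (fun z => z ≠ y ∧ κ ≤ (g2 a b y z : ℝ)) ∪
          (((F A h a b).filter (fun z => z ≠ y ∧ H < hgt (a - y) (a - z)) ∪
          (F A h a b).filter (fun z => z ≠ y ∧ H < hgt (b - y) (b - z))) ∪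
          (G a b).filter (fun z => z ≠ y ∧ (g2 a b y z : ℝ) < κ ∧ hgt (a - y) (a - z) ≤ H ∧
            hgt (b - y) (b - z) ≤ H))) := by
        intro z hz
        have hzF := hGF a b hz
        simp only [mem_union, mem_singleton, mem_filter]
        by_cases hzy : z = y
        · exact Or.inl hzy
        · by_cases h5 : κ ≤ (g2 a b y z : ℝ)
          · exact Or.inr (Or.inl ⟨hz, hzy, h5⟩)
          · by_cases h3 : hgt (a - y) (a - z) ≤ H
            · by_cases h4 : hgt (b - y) (b - z) ≤ H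
              · exact Or.inr (Or.inr (Or.inr ⟨hz, hzy, not_le.mp h5, h3, h4⟩))
              · exact Or.inr (Or.inr (Or.inl (Or.inr ⟨hzF, hzy, not_le.mp h4⟩)))
            · exact Or.inr (Or.inr (Or.inl (Or.inl ⟨hzF, hzy, not_le.mp h3⟩)))
      have h5 := (card_le_card hsub).trans ((card_union_le _ _).trans
        (Nat.add_le_add_left ((card_union_le _ _).trans
          (Nat.add_le_add_left ((card_union_le _ _).trans
            (Nat.add_le_add_right (card_union_le _ _) _)) _)) _))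
      rw [card_singleton] at h5
      have h8 := hsm a b hba y hyG
      have h9 : ((G a b).card : ℝ) ≤ 1 + ((((G a b).filter (fun z => z ≠ y ∧
          κ ≤ (g2 a b y z : ℝ))).card : ℝ) +
        (((((F A h a b).filter (fun z => z ≠ y ∧ H < hgt (a - y) (a - z))).card : ℝ) +
        (((F A h a b).filter (fun z => z ≠ y ∧ H < hgt (b - y) (b - z))).card : ℝ)) +
        (((G a b).filter (fun z => z ≠ y ∧
      (g2 a b y z : ℝ) < κ ∧ hgt (a - y) (a - z) ≤ H ∧ hgt (b - y) (b - z) ≤ H)).card : ℝ))) := by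
        exact_mod_cast h5
      linarith
    rw [h1]
    refine (sum_le_sum h2).trans ?_
    rw [sum_add_distrib, sum_add_distrib, sum_add_distrib, sum_add_distrib, sum_const,
      nsmul_eq_mul, mul_one, sum_const, nsmul_eq_mul]
    have h6 : ((G a b).card : ℝ) ≤ ((F A h a b).card : ℝ) := by
      exact_mod_cast card_le_card (hGF a b)
    have h7 : ∀ f : ℤ → ℝ, (∀ y, 0 ≤ f y) → ∑ y ∈ G a b, f y ≤ ∑ y ∈ F A h a b, f y :=
      fun f hf => sum_le_sum_of_subset_of_nonneg (hGF a b) fun y _ _ => hf y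
    refine add_le_add h6 (add_le_add le_rfl (add_le_add (add_le_add
      (h7 _ fun y => Nat.cast_nonneg _) (h7 _ fun y => Nat.cast_nonneg _))
      (mul_le_mul_of_nonneg_right h6 (by positivity))))
  have hsum : ∑ a ∈ A, ∑ b ∈ A.erase a, ((G a b).card : ℝ) ^ 2 ≤ tc A h +
      ((∑ a ∈ A, ∑ b ∈ A.erase a, ∑ y ∈ G a b, (((G a b).filter (fun z => z ≠ y ∧
          κ ≤ (g2 a b y z : ℝ))).card : ℝ)) +
      (((n : ℝ) ^ 2 * (h : ℝ) ^ 2 / (32 * l ^ 2) + (n : ℝ) ^ 2 * (h : ℝ) ^ 2 / (32 * l ^ 2)) +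
        tc A h * (q ^ 3 * δ * h))) := by
    refine (sum_le_sum fun a _ => sum_le_sum fun b hb' =>
      hpt a b (mem_erase.mp hb').1).trans ?_
    have e9 : tc A h * (q ^ 3 * δ * h) = ∑ a ∈ A, ∑ b ∈ A.erase a,
        ((F A h a b).card : ℝ) * (q ^ 3 * δ * h) := by
      unfold tc
      rw [sum_mul]
      refine sum_congr rfl fun a _ => ?_
      rw [sum_mul]
    rw [e9]
    simp only [sum_add_distrib]
    exact add_le_add le_rfl (add_le_add le_rfl (add_le_add (add_le_add hbad1 hbad2) le_rfl))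
  have hcs : (∑ a ∈ A, ∑ b ∈ A.erase a, ((G a b).card : ℝ)) ^ 2 ≤
      (n : ℝ) ^ 2 * ∑ a ∈ A, ∑ b ∈ A.erase a, ((G a b).card : ℝ) ^ 2 := by
    have hAn : (A.card : ℝ) ≤ n := by exact_mod_cast hA
    have h1 : ∀ a ∈ A, (∑ b ∈ A.erase a, ((G a b).card : ℝ)) ^ 2 ≤
        n * ∑ b ∈ A.erase a, ((G a b).card : ℝ) ^ 2 := by
      intro a _
      refine (sq_sum_le_card_mul_sum_sq).trans ?_
      apply mul_le_mul_of_nonneg_right _ (sum_nonneg fun b _ => sq_nonneg _)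
      exact_mod_cast (card_erase_le).trans hA
    calc (∑ a ∈ A, ∑ b ∈ A.erase a, ((G a b).card : ℝ)) ^ 2
        ≤ A.card * ∑ a ∈ A, (∑ b ∈ A.erase a, ((G a b).card : ℝ)) ^ 2 :=
          sq_sum_le_card_mul_sum_sq
      _ ≤ n * ∑ a ∈ A, (n * ∑ b ∈ A.erase a, ((G a b).card : ℝ) ^ 2) := by
          apply mul_le_mul hAn (sum_le_sum h1) (sum_nonneg fun a _ => sq_nonneg _) hn0.le
      _ = (n : ℝ) ^ 2 * ∑ a ∈ A, ∑ b ∈ A.erase a, ((G a b).card : ℝ) ^ 2 := by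
          rw [← mul_sum]
          ring
  have hlow : (n : ℝ) ^ 2 * (h : ℝ) ^ 2 / (4 * l ^ 2) ≤
      ∑ a ∈ A, ∑ b ∈ A.erase a, ((G a b).card : ℝ) ^ 2 := by
    have h1 : ((n : ℝ) ^ 2 * h / (2 * l)) ^ 2 ≤
        (∑ a ∈ A, ∑ b ∈ A.erase a, ((G a b).card : ℝ)) ^ 2 :=
      pow_le_pow_left₀ (by positivity) hgood 2
    have h2 := h1.trans hcs
    have h3 : ((n : ℝ) ^ 2 * h / (2 * l)) ^ 2 =
        (n : ℝ) ^ 2 * ((n : ℝ) ^ 2 * (h : ℝ) ^ 2 / (4 * l ^ 2)) := by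
      field_simp
      ring
    rw [h3] at h2
    exact le_of_mul_le_mul_left h2 (by positivity)
  have hdiag : tc A h ≤ (n : ℝ) ^ 2 * (h : ℝ) ^ 2 / (32 * l ^ 2) := by
    refine (hb.tc_le A hA h hhn).trans ?_
    rw [le_div_iff₀ (by positivity)]
    calc q * (n : ℝ) ^ 2 * h * (32 * l ^ 2) = (n : ℝ) ^ 2 * h * (32 * q * l ^ 2) := by ring
      _ ≤ (n : ℝ) ^ 2 * h * h := mul_le_mul_of_nonneg_left hbig (by positivity)
      _ = (n : ℝ) ^ 2 * (h : ℝ) ^ 2 := by ring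
  have hX : (0 : ℝ) ≤ (n : ℝ) ^ 2 * (h : ℝ) ^ 2 / (32 * l ^ 2) := by positivity
  have hsmall : tc A h * (q ^ 3 * δ * h) ≤ (n : ℝ) ^ 2 * (h : ℝ) ^ 2 / (32 * l ^ 2) := by
    have h1 := hb.tc_le A hA h hhn
    have h2 : (0 : ℝ) ≤ q ^ 3 * δ * h := by positivity
    refine (mul_le_mul_of_nonneg_right h1 h2).trans ?_
    have e1 : q * (n : ℝ) ^ 2 * h * (q ^ 3 * δ * h) = (n : ℝ) ^ 2 * (h : ℝ) ^ 2 / (q * l ^ 2) := by
      rw [hδ]
      field_simp
    rw [e1]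
    apply div_le_div_of_nonneg_left (by positivity) (by positivity)
    have hq32 : 32 ≤ q := by have := hb.hq; linarith
    exact mul_le_mul_of_nonneg_right hq32 (by positivity)
  have e4 : (n : ℝ) ^ 2 * (h : ℝ) ^ 2 / (4 * l ^ 2) =
      8 * ((n : ℝ) ^ 2 * (h : ℝ) ^ 2 / (32 * l ^ 2)) := by
    field_simp
    ring
  have e16 : (n : ℝ) ^ 2 * (h : ℝ) ^ 2 / (8 * l ^ 2) =
      4 * ((n : ℝ) ^ 2 * (h : ℝ) ^ 2 / (32 * l ^ 2)) := by
    field_simp
    ring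
  rw [e4] at hlow
  rw [e16]
  linarith

end Pool.Agent.MP_741d1b.All
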