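import Mathlib
import Pool.Agent.Lib.MP_741d1b_nt_all.DIter
import Pool.Agent.Lib.MP_741d1b_nt_all.DQuads
import Pool.Agent.Lib.MP_741d1b_nt_all.DGood
import Pool.Agent.Lib.MP_741d1b_nt_all.DDown
import Pool.Agent.Lib.MP_741d1b_nt_all.BEnergy

/-!
Row D7: many triples of one height force large energy.
-/

set_option autoImplicit false

namespace Pool.Agent.MP_741d1b.All

open Finset Classical
open Pool.Agent.MP_741d1b.H87


/-- The last step of case (B), as an inequality between real numbers. -/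
private theorem DAll_final (n q N l l0 k E : ℝ) (hq : 4 ≤ q) (hN0 : 0 < N) (hn : n = N ^ 3)
    (hl1 : 1 ≤ l) (hl01 : 1 ≤ l0) (hll : l ≤ q ^ 15 * l0 ^ 4) (hNbig : q ^ 886 * l0 ^ 243 ≤ N)
    (hk1 : 0 < k) (hk : k ≤ q ^ 13 * l ^ 6)
    (h : (n ^ 2 * k / (q ^ 47 * l ^ 20)) ^ 2 ≤ q ^ 4 * n * k ^ 3 * (E + k * n ^ 2)) :
    N ^ 8 ≤ E := by
  have hq1 : 1 ≤ q := by linarith
  have hq0 : 0 < q := by linarith
  have hl0 : 0 < l := by linarith
  have hl00 : 0 < l0 := by linarith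
  have hn0 : 0 < n := by rw [hn]; positivity
  set D := q ^ 47 * l ^ 20 with hD
  have hD0 : 0 < D := by positivity
  have h1 : n ^ 3 ≤ q ^ 4 * D ^ 2 * k * (E + k * n ^ 2) := by
    have e1 : (n ^ 2 * k / D) ^ 2 * D ^ 2 = n ^ 3 * (n * k ^ 2) := by
      field_simp
    have e2 : q ^ 4 * n * k ^ 3 * (E + k * n ^ 2) * D ^ 2 =
        (q ^ 4 * D ^ 2 * k * (E + k * n ^ 2)) * (n * k ^ 2) := by ring
    have h2 : n ^ 3 * (n * k ^ 2) ≤ (q ^ 4 * D ^ 2 * k * (E + k * n ^ 2)) * (n * k ^ 2) := by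
      rw [← e1, ← e2]
      exact mul_le_mul_of_nonneg_right h (by positivity)
    exact le_of_mul_le_mul_right h2 (by positivity)
  have hD2 : q ^ 4 * D ^ 2 * k ≤ q ^ 801 * l0 ^ 184 := by
    have a1 : q ^ 4 * D ^ 2 * k ≤ q ^ 4 * D ^ 2 * (q ^ 13 * l ^ 6) := by gcongr
    have a2 : q ^ 4 * D ^ 2 * (q ^ 13 * l ^ 6) = q ^ 111 * l ^ 46 := by rw [hD]; ring
    have a3 : q ^ 111 * l ^ 46 ≤ q ^ 111 * (q ^ 15 * l0 ^ 4) ^ 46 := by gcongr
    have a4 : q ^ 111 * (q ^ 15 * l0 ^ 4) ^ 46 = q ^ 801 * l0 ^ 184 := by ring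
    linarith
  have hkN : k ≤ N := by
    have a1 : q ^ 13 * l ^ 6 ≤ q ^ 13 * (q ^ 15 * l0 ^ 4) ^ 6 := by gcongr
    have a2 : q ^ 13 * (q ^ 15 * l0 ^ 4) ^ 6 = q ^ 103 * l0 ^ 24 := by ring
    have a3 : q ^ 103 * l0 ^ 24 ≤ q ^ 886 * l0 ^ 243 := by
      exact mul_le_mul (pow_le_pow_right₀ hq1 (by norm_num)) (pow_le_pow_right₀ hl01 (by norm_num))
        (by positivity) (by positivity)
    linarith
  have hN2 : 2 * (q ^ 801 * l0 ^ 184) ≤ N := by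
    have a3 : q ^ 802 * l0 ^ 184 ≤ q ^ 886 * l0 ^ 243 := by
      exact mul_le_mul (pow_le_pow_right₀ hq1 (by norm_num)) (pow_le_pow_right₀ hl01 (by norm_num))
        (by positivity) (by positivity)
    have a4 : 2 * (q ^ 801 * l0 ^ 184) ≤ q ^ 802 * l0 ^ 184 := by
      have : q ^ 802 * l0 ^ 184 = q * (q ^ 801 * l0 ^ 184) := by ring
      rw [this]
      apply mul_le_mul_of_nonneg_right (by linarith) (by positivity)
    linarith
  have hN1 : 1 ≤ N := by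
    have a1 : 1 ≤ q ^ 886 * l0 ^ 243 :=
      one_le_mul_of_one_le_of_one_le (one_le_pow₀ hq1) (one_le_pow₀ hl01)
    linarith
  have hpos : 0 < E + k * n ^ 2 := by
    by_contra hcon
    have : q ^ 4 * D ^ 2 * k * (E + k * n ^ 2) ≤ 0 :=
      mul_nonpos_of_nonneg_of_nonpos (by positivity) (not_lt.mp hcon)
    have : 0 < n ^ 3 := by positivity
    linarith
  have h3 : 2 * n ^ 3 ≤ N * (E + k * n ^ 2) := by
    have a1 : n ^ 3 ≤ q ^ 801 * l0 ^ 184 * (E + k * n ^ 2) :=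
      h1.trans (mul_le_mul_of_nonneg_right hD2 hpos.le)
    have a2 : 2 * (q ^ 801 * l0 ^ 184) * (E + k * n ^ 2) ≤ N * (E + k * n ^ 2) :=
      mul_le_mul_of_nonneg_right hN2 hpos.le
    linarith
  have h4 : k * n ^ 2 ≤ N ^ 7 := by
    calc k * n ^ 2 ≤ N * n ^ 2 := by gcongr
      _ = N ^ 7 := by rw [hn]; ring
  have h5 : 2 * N ^ 8 ≤ E + N ^ 7 := by
    have a1 : N * (2 * N ^ 8) ≤ N * (E + N ^ 7) := by
      calc N * (2 * N ^ 8) = 2 * n ^ 3 := by rw [hn]; ring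
        _ ≤ N * (E + k * n ^ 2) := h3
        _ ≤ N * (E + N ^ 7) := by gcongr
    exact le_of_mul_le_mul_left a1 hN0
  have h6 : N ^ 7 ≤ N ^ 8 := pow_le_pow_right₀ hN1 (by norm_num)
  linarith

/-- At most `L1 h` good third points. -/
private theorem DAll_card_F0 (A : Finset ℤ) (h : ℕ) (τ L1 : ℝ) (hL : 0 ≤ L1) (a b : ℤ) :
    ((F0 A h τ L1 a b).card : ℝ) ≤ L1 * h := by
  rcases (F0 A h τ L1 a b).eq_empty_or_nonempty with h0 | ⟨y, hy⟩
  · rw [h0, card_empty, Nat.cast_zero]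
    positivity
  · rw [F0, mem_filter] at hy
    refine le_trans ?_ hy.2.2.1
    have h1 : F0 A h τ L1 a b ⊆ F A (2 * h) a b :=
      (filter_subset _ _).trans (F_mono A (by omega) a b)
    exact_mod_cast card_le_card h1

/-- The height of a triple `a - u s, a - u' s, a`. -/
private theorem DAll_hs (a s u u' : ℤ) (hs0 : s ≠ 0) (M : ℕ) (h1 : |u| ≤ M) (h2 : |u'| ≤ M) :
    hs (a - u * s) (a - u' * s) a ≤ 2 * M := by
  have e : hs (a - u * s) (a - u' * s) a = hs (a - u * s) (a - u' * s) (a - 0 * s) := by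
    rw [zero_mul, sub_zero]
  rw [e, hs_affine a s u u' 0 hs0]
  unfold hs
  refine (Nat.div_le_self _ _).trans ?_
  rw [abs_le] at h1 h2
  omega

/-- Each pair of points is contained in few cells. -/
private theorem DAll_mult (A : Finset ℤ) (h : ℕ) (τ L1 : ℝ) (hL : 0 ≤ L1) (U0 : ℕ)
    (C : Finset ((ℤ × ℤ × ℤ) × (ℕ × ℕ × ℕ)))
    (J : (ℤ × ℤ × ℤ) × (ℕ × ℕ × ℕ) → Finset ℤ)
    (hC : ∀ c ∈ C, c.1.1 ∈ A ∧
        (∀ x ∈ J c, x ∈ A ∧ x ≠ c.1.1 ∧ c.1.2.1 ∈ F0 A h τ L1 c.1.1 x ∧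
          c.1.2.2 ∈ F0 A h τ L1 c.1.1 x) ∧
        (∃ s : ℤ, s ≠ 0 ∧ ∀ x ∈ J c, ∃ u : ℤ, x = c.1.1 - u * s ∧ |u| ≤ 2 * (U0 : ℤ)) ∧
        ∀ c' ∈ C, c.1 = c'.1 → c ≠ c' → Disjoint (J c) (J c')) (x y : ℤ) :
    ((C.filter (fun c => x ∈ J c ∧ y ∈ J c)).card : ℝ) ≤
      (L1 * h) ^ 2 * (F A (2 * (2 * U0)) x y).card := by
  set D := C.filter (fun c => x ∈ J c ∧ y ∈ J c) with hD
  set T : Finset (Σ _ : ℤ, ℤ × ℤ) := (F A (2 * (2 * U0)) x y).sigma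
    (fun a => F0 A h τ L1 a x ×ˢ F0 A h τ L1 a x) with hT
  have hcard : D.card ≤ T.card := by
    refine card_le_card_of_injOn (fun c => ⟨c.1.1, c.1.2.1, c.1.2.2⟩) ?_ ?_
    · intro c hc
      have hc' : c ∈ D := hc
      rw [hD, mem_filter] at hc'
      obtain ⟨hcC, hx, hy⟩ := hc'
      obtain ⟨ha, hJ, ⟨s, hs0, hs⟩, _⟩ := hC c hcC
      obtain ⟨hxA, hxa, hx1, hx2⟩ := hJ x hx
      obtain ⟨hyA, hya, _, _⟩ := hJ y hy
      obtain ⟨u, hu, hu'⟩ := hs x hx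
      obtain ⟨v, hv, hv'⟩ := hs y hy
      have : (⟨c.1.1, c.1.2.1, c.1.2.2⟩ : Σ _ : ℤ, ℤ × ℤ) ∈ T := by
        rw [hT, mem_sigma, mem_product]
        refine ⟨?_, hx1, hx2⟩
        show c.1.1 ∈ F A (2 * (2 * U0)) x y
        rw [mem_F]
        refine ⟨ha, hxa.symm, hya.symm, ?_⟩
        rw [hu, hv]
        refine DAll_hs c.1.1 s u v hs0 (2 * U0) ?_ ?_
        · push_cast
          exact hu'
        · push_cast
          exact hv'
      exact this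
    · intro c hc c' hc' hcc
      have hc1 : c ∈ D := hc
      have hc1' : c' ∈ D := hc'
      rw [hD, mem_filter] at hc1 hc1'
      simp only [Sigma.mk.injEq, heq_eq_eq, Prod.mk.injEq] at hcc
      have e : c.1 = c'.1 := by
        refine Prod.ext hcc.1 (Prod.ext hcc.2.1 hcc.2.2)
      by_contra hne
      obtain ⟨_, _, _, hdis⟩ := hC c hc1.1
      have := hdis c' hc1'.1 e hne
      exact disjoint_left.mp this hc1.2.1 hc1'.2.1
  have hTc : (T.card : ℝ) ≤ (L1 * h) ^ 2 * (F A (2 * (2 * U0)) x y).card := by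
    rw [hT, card_sigma]
    push_cast
    calc ∑ a ∈ F A (2 * (2 * U0)) x y, ((F0 A h τ L1 a x ×ˢ F0 A h τ L1 a x).card : ℝ)
        ≤ ∑ _a ∈ F A (2 * (2 * U0)) x y, (L1 * h) ^ 2 := by
          refine sum_le_sum fun a _ => ?_
          rw [card_product]
          push_cast
          rw [sq]
          have h1 := DAll_card_F0 A h τ L1 hL a x
          gcongr
      _ = (L1 * h) ^ 2 * (F A (2 * (2 * U0)) x y).card := by
          rw [sum_const, nsmul_eq_mul]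
          ring
  calc (D.card : ℝ) ≤ T.card := by exact_mod_cast hcard
    _ ≤ _ := hTc

/-- Case (A). -/
private theorem DAll_caseA {n : ℕ} {q : ℝ} (hb : Nb n q) (N : ℝ) (hNn : N ^ 3 = n) (hN0 : 0 < N)
    (A : Finset ℤ) (hA : A.card ≤ n) (l0 : ℝ) (hl1 : 1 ≤ l0) (hN1 : 1 ≤ N)
    (hNb : 2 * (q ^ 4 * l0 ^ 2) ≤ N) (h0 : ℕ) (hh1 : 1 ≤ h0) (hcase : (h0 : ℝ) ≤ N)
    (hh : (n : ℝ) ^ 2 * h0 / l0 ≤ tc A h0) : N ^ 8 / (q ^ 5 * l0 ^ 2) ≤ En A := by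
  have hq4 := hb.hq
  have hq1 := hb.q_one
  have hq0 := hb.q_pos
  have hn0 := hb.n_pos'
  have hl00 : 0 < l0 := by linarith
  have hNn1 : N ≤ n := by
    rw [← hNn]
    exact le_self_pow₀ hN1 (by norm_num)
  have hk1 : (1 : ℝ) ≤ h0 := by exact_mod_cast hh1
  have hkn : h0 ≤ n := by
    have : (h0 : ℝ) ≤ n := hcase.trans hNn1
    exact_mod_cast this
  have h1 := en_of_tc hb A hA h0 hh1 hkn
  have h2 : ((n : ℝ) ^ 2 * h0 / l0) ^ 2 ≤ q ^ 4 * n * (h0 : ℝ) ^ 3 * (En A + h0 * (n : ℝ) ^ 2) :=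
    le_trans (by gcongr) h1
  have h3 : (n : ℝ) ^ 3 ≤ q ^ 4 * l0 ^ 2 * h0 * (En A + h0 * (n : ℝ) ^ 2) := by
    have e1 : ((n : ℝ) ^ 2 * h0 / l0) ^ 2 * l0 ^ 2 = (n : ℝ) ^ 3 * (n * (h0 : ℝ) ^ 2) := by
      field_simp
    have e2 : q ^ 4 * n * (h0 : ℝ) ^ 3 * (En A + h0 * (n : ℝ) ^ 2) * l0 ^ 2 =
        (q ^ 4 * l0 ^ 2 * h0 * (En A + h0 * (n : ℝ) ^ 2)) * (n * (h0 : ℝ) ^ 2) := by ring
    have h4 : (n : ℝ) ^ 3 * (n * (h0 : ℝ) ^ 2) ≤
        (q ^ 4 * l0 ^ 2 * h0 * (En A + h0 * (n : ℝ) ^ 2)) * (n * (h0 : ℝ) ^ 2) := by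
      rw [← e1, ← e2]
      exact mul_le_mul_of_nonneg_right h2 (by positivity)
    exact le_of_mul_le_mul_right h4 (by positivity)
  have hE0 := En_nonneg A
  have h5 : (n : ℝ) ^ 3 ≤ q ^ 4 * l0 ^ 2 * N * (En A + N * (n : ℝ) ^ 2) := by
    refine h3.trans ?_
    gcongr
  rw [← hNn] at h5
  have h6 : N ^ 8 ≤ q ^ 4 * l0 ^ 2 * (En A + N ^ 7) := by
    have a1 : N ^ 8 * N ≤ (q ^ 4 * l0 ^ 2 * (En A + N ^ 7)) * N := by
      calc N ^ 8 * N = (N ^ 3) ^ 3 := by ring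
        _ ≤ q ^ 4 * l0 ^ 2 * N * (En A + N * (N ^ 3) ^ 2) := h5
        _ = _ := by ring
    exact le_of_mul_le_mul_right a1 hN0
  have h7 : 2 * (q ^ 4 * l0 ^ 2) * N ^ 7 ≤ N ^ 8 := by
    calc 2 * (q ^ 4 * l0 ^ 2) * N ^ 7 ≤ N * N ^ 7 :=
          mul_le_mul_of_nonneg_right hNb (by positivity)
      _ = N ^ 8 := by ring
  rw [div_le_iff₀ (by positivity)]
  have h8 : N ^ 8 ≤ 2 * (q ^ 4 * l0 ^ 2) * En A := by nlinarith
  calc N ^ 8 ≤ 2 * (q ^ 4 * l0 ^ 2) * En A := h8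
    _ ≤ q * (q ^ 4 * l0 ^ 2) * En A := by
        apply mul_le_mul_of_nonneg_right _ hE0
        apply mul_le_mul_of_nonneg_right (by linarith) (by positivity)
    _ = En A * (q ^ 5 * l0 ^ 2) := by ring

/- PROOF. (A) h0 ≤ N: en_of_tc with k = h0 (≤ n): n⁴ h0² / l0² ≤ q⁴ n h0³ (En + h0 n²), so
N^9 / (q⁴ l0² N) ≤ En + N^7 and N^7 ≤ half (hbig): En ≥ N^8 / (2 q⁴ l0²) ≥ N^8 / (q^5 l0²).
(B) N < h0: choose_scale2: h, l. Λ = q⁴ l², k = ⌈2000 Λ³⌉₊ ≤ q^13 l^6 / 4, κ = k,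
H = ⌈√(h³ / (q^40 l^18))⌉₊ (the root is ≥ 1), H² ≤ 4 h³ / (q^40 l^18), so H² q^27 l^12 κ ≤ h³.
many_quads2 (2 h ≤ n², 32 q l² ≤ N ≤ h), good_cells with F = F0 A h (q⁴ l²) (q³ l) (4 h ≤ n²):
U0, C, J. tc_down_gen with H := 2 U0 (k = κ ≤ 2 U0), Λ = q⁴ l² ≥ 64 q³ l², Mm = (q³ l h)²,
μ = q^8 l⁴ (card C * 2 U0 ≥ n² h² / (128 q l²) ≥ Mm n² / μ). hmult: for x ≠ y' the indices c with
x, y' ∈ J c: c.1.1 ∈ F A (4 U0) x y' (x = a - u s, y' = a - u' s: hs x y' a ≤ 4 U0), and for given a the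
y, z are in F0 a x (card ≤ card (F A (2h) a x) ≤ q³ l h), and then c is determined (disjointness).
tc A k ≥ n² k / (q^7 Λ^6 μ²) = n² k / (q^47 l^20). en_of_tc: n³ / (q^98 l^40 k) ≤ En + k n², so
n³ / (q^111 l^46) ≤ En + q^13 l^6 n²; l ≤ q^15 l0⁴ and hbig (N^3 > q^2660 l0^730, so
N > q^886 l0^243): N ≥ 2 q^111 l^46 (l^46 ≤ q^690 l0^184), En ≥ N^8. -/
theorem energy_of_tc2 {n : ℕ} {q : ℝ} (hb : Nb n q) (N : ℝ) (hNn : N ^ 3 = n) (hN0 : 0 < N)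
    (A : Finset ℤ) (hA : A.card ≤ n) (l0 : ℝ) (hl0 : q ≤ l0)
    (hbig : q ^ 2660 * l0 ^ 730 < N ^ 3) (h0 : ℕ) (hh1 : 1 ≤ h0)
    (hh : (n : ℝ) ^ 2 * h0 / l0 ≤ tc A h0) : N ^ 8 / (q ^ 5 * l0 ^ 2) ≤ En A := by
  have hq4 := hb.hq
  have hq1 := hb.q_one
  have hq0 := hb.q_pos
  have hn0 := hb.n_pos'
  have hl1 : 1 ≤ l0 := hq1.trans hl0
  have hl00 : 0 < l0 := by linarith
  have hNbig : q ^ 886 * l0 ^ 243 ≤ N := by
    have a1 : (q ^ 886 * l0 ^ 243) ^ 3 ≤ N ^ 3 := by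
      calc (q ^ 886 * l0 ^ 243) ^ 3 = q ^ 2658 * l0 ^ 729 := by ring
        _ ≤ q ^ 2660 * l0 ^ 730 := by
            exact mul_le_mul (pow_le_pow_right₀ hq1 (by norm_num))
              (pow_le_pow_right₀ hl1 (by norm_num)) (by positivity) (by positivity)
        _ ≤ N ^ 3 := hbig.le
    exact le_of_pow_le_pow_left₀ (by norm_num) hN0.le a1
  have hmono : ∀ i j : ℕ, i ≤ 886 → j ≤ 243 → q ^ i * l0 ^ j ≤ N := by
    intro i j hi hj
    refine le_trans ?_ hNbig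
    exact mul_le_mul (pow_le_pow_right₀ hq1 hi) (pow_le_pow_right₀ hl1 hj)
      (by positivity) (by positivity)
  have hN1 : 1 ≤ N := by
    have := hmono 0 0 (by norm_num) (by norm_num)
    simpa using this
  have hNn1 : N ≤ n := by
    rw [← hNn]
    exact le_self_pow₀ hN1 (by norm_num)
  rcases le_or_gt (h0 : ℝ) N with hcase | hcase
  · -- case (A)
    refine DAll_caseA hb N hNn hN0 A hA l0 hl1 hN1 ?_ h0 hh1 hcase hh
    have a1 := hmono 5 2 (by norm_num) (by norm_num)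
    have a2 : q ^ 5 * l0 ^ 2 = q * (q ^ 4 * l0 ^ 2) := by ring
    have a3 : 2 * (q ^ 4 * l0 ^ 2) ≤ q * (q ^ 4 * l0 ^ 2) :=
      mul_le_mul_of_nonneg_right (by linarith) (by positivity)
    linarith
  · -- case (B)
    obtain ⟨h, l, hl1', hlq, hhN, hhn, hTh, hTh'⟩ :=
      choose_scale2 hb N hNn hN0 A hA l0 hl1 hbig h0 hcase.le hh
    have hl0' : 0 < l := by linarith
    have hh0' : 0 < (h : ℝ) := by linarith
    have hh1' : 1 ≤ h := by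
      have : 0 < h := by exact_mod_cast hh0'
      omega
    have hlmono : ∀ i j : ℕ, i + 15 * j ≤ 886 → 4 * j ≤ 243 → q ^ i * l ^ j ≤ N := by
      intro i j hi hj
      calc q ^ i * l ^ j ≤ q ^ i * (q ^ 15 * l0 ^ 4) ^ j := by gcongr
        _ = q ^ (i + 15 * j) * l0 ^ (4 * j) := by
            rw [mul_pow, ← pow_mul, ← pow_mul, ← mul_assoc, ← pow_add]
        _ ≤ N := hmono _ _ hi hj
    have hh4 : 4 * h ≤ n ^ 2 := by
      have a1 : 4 * (h : ℝ) ≤ (n : ℝ) ^ 2 := by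
        calc 4 * (h : ℝ) ≤ 4 * (n * l) := by gcongr
          _ = n * (4 * l) := by ring
          _ ≤ n * n := by
              have b0 := hlmono 1 1 (by norm_num) (by norm_num)
              rw [pow_one, pow_one] at b0
              have b1 : 4 * l ≤ q * l := mul_le_mul_of_nonneg_right (by linarith) hl0'.le
              have b2 : 4 * l ≤ n := by linarith
              gcongr
          _ = (n : ℝ) ^ 2 := by ring
      exact_mod_cast a1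
    have hh2 : 2 * h ≤ n ^ 2 := by omega
    have hbig' : 32 * q * l ^ 2 ≤ h := by
      calc 32 * q * l ^ 2 ≤ q * q * l ^ 2 := by
            have : (32 : ℝ) ≤ q := by linarith
            gcongr
        _ = q ^ 2 * l ^ 2 := by ring
        _ ≤ N := hlmono 2 2 (by norm_num) (by norm_num)
        _ ≤ h := hhN
    set Λ : ℝ := q ^ 4 * l ^ 2 with hΛ
    have hΛ1 : 1 ≤ Λ := by
      rw [hΛ]
      exact one_le_mul_of_one_le_of_one_le (one_le_pow₀ hq1) (one_le_pow₀ hl1')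
    have hΛ0 : 0 < Λ := by linarith
    set k : ℕ := ⌈2000 * Λ ^ 3⌉₊ with hk
    have hk2000 : 2000 * Λ ^ 3 ≤ k := Nat.le_ceil _
    have hΛ3 : 1 ≤ Λ ^ 3 := one_le_pow₀ hΛ1
    have hkup4 : 4 * (k : ℝ) ≤ q ^ 13 * l ^ 6 := by
      have b1 := Nat.ceil_lt_add_one (show 0 ≤ 2000 * Λ ^ 3 by positivity)
      calc 4 * (k : ℝ) ≤ 4 * (2000 * Λ ^ 3 + 1) := by linarith
        _ ≤ q * Λ ^ 3 := by nlinarith
        _ = q ^ 13 * l ^ 6 := by rw [hΛ]; ring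
    have hk0 : (0 : ℝ) < k := by
      have : (0 : ℝ) < 2000 * Λ ^ 3 := by positivity
      linarith
    have hkup : (k : ℝ) ≤ q ^ 13 * l ^ 6 := by linarith
    have hk1 : 1 ≤ k := by
      have : 0 < k := by exact_mod_cast hk0
      omega
    have hk1' : (1 : ℝ) ≤ k := by exact_mod_cast hk1
    have hkN : (k : ℝ) ≤ N := hkup.trans (hlmono 13 6 (by norm_num) (by norm_num))
    have hkn : k ≤ n := by
      have : (k : ℝ) ≤ n := hkN.trans hNn1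
      exact_mod_cast this
    -- the height bound H
    set X : ℝ := Real.sqrt ((h : ℝ) ^ 3 / (q ^ 40 * l ^ 18)) with hX
    have hXsq : X ^ 2 = (h : ℝ) ^ 3 / (q ^ 40 * l ^ 18) := by
      rw [hX, Real.sq_sqrt]
      positivity
    have hXge : 1 ≤ X := by
      rw [hX, Real.one_le_sqrt, one_le_div (by positivity)]
      calc q ^ 40 * l ^ 18 ≤ N := hlmono 40 18 (by norm_num) (by norm_num)
        _ ≤ h := hhN
        _ ≤ (h : ℝ) ^ 3 := le_self_pow₀ (by linarith) (by norm_num)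
    set H : ℕ := ⌈X⌉₊ with hH
    have hHX : X ≤ H := Nat.le_ceil _
    have hH1' : (1 : ℝ) ≤ H := hXge.trans hHX
    have hH1 : 1 ≤ H := by exact_mod_cast hH1'
    have hHup : (H : ℝ) ≤ 2 * X := by
      have b1 := Nat.ceil_lt_add_one (show 0 ≤ X by linarith)
      rw [← hH] at b1
      linarith
    have hHH : (H : ℝ) ^ 2 * (q ^ 27 * l ^ 12 * k) ≤ (h : ℝ) ^ 3 := by
      have b1 : (H : ℝ) ^ 2 ≤ 4 * ((h : ℝ) ^ 3 / (q ^ 40 * l ^ 18)) := by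
        rw [← hXsq]
        calc (H : ℝ) ^ 2 ≤ (2 * X) ^ 2 := by gcongr
          _ = 4 * X ^ 2 := by ring
      calc (H : ℝ) ^ 2 * (q ^ 27 * l ^ 12 * k)
          ≤ 4 * ((h : ℝ) ^ 3 / (q ^ 40 * l ^ 18)) * (q ^ 27 * l ^ 12 * k) := by gcongr
        _ = ((h : ℝ) ^ 3 / (q ^ 40 * l ^ 18)) * (q ^ 27 * l ^ 12 * (4 * k)) := by ring
        _ ≤ ((h : ℝ) ^ 3 / (q ^ 40 * l ^ 18)) * (q ^ 27 * l ^ 12 * (q ^ 13 * l ^ 6)) := by
            gcongr
        _ = (h : ℝ) ^ 3 := by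
            field_simp
    have hHT : ∀ h' : ℕ, H ≤ h' → tc A h' < (n : ℝ) ^ 2 * h' / (q ^ 5 * l ^ 2) := by
      intro h' hh'
      apply hTh'
      have b1 : X ≤ h' := hHX.trans (by exact_mod_cast hh')
      have b2 : X ^ 2 ≤ (h' : ℝ) ^ 2 := by
        have : 0 ≤ X := by linarith
        gcongr
      rw [hXsq, div_le_iff₀ (by positivity)] at b2
      exact b2
    have hquads := many_quads2 hb A hA h H hH1 hh2 l k hl1' hk0 hbig' hHH hTh hHT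
    obtain ⟨U0, C, J, hU1, hkU, hUh, hCc, hCJ⟩ := good_cells hb A hA h hh1' hh2 l k hl1' hk1'
      (F0 A h (q ^ 4 * l ^ 2) (q ^ 3 * l)) (fun a b => filter_subset _ _) hquads
    have hU0 : (0 : ℝ) ≤ U0 := Nat.cast_nonneg _
    have hkU' : k ≤ 2 * U0 := by exact_mod_cast hkU
    have hL0 : 0 ≤ q ^ 3 * l := by positivity
    have hdown := tc_down_gen hb A hA C J (2 * U0) k hkU' (by omega) Λ (q ^ 8 * l ^ 4)
      ((q ^ 3 * l * h) ^ 2) hΛ1
      (one_le_mul_of_one_le_of_one_le (one_le_pow₀ hq1) (one_le_pow₀ hl1'))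
      (by positivity) hk2000 (by
        intro c hc
        obtain ⟨_, hcard, hJ, ⟨s, hs0, hs⟩, _⟩ := hCJ c hc
        refine ⟨?_, c.1.1, s, hs0, fun x hx => ⟨(hJ x hx).1, ?_⟩⟩
        · refine le_trans ?_ hcard
          push_cast
          rw [hΛ, div_le_div_iff₀ (by positivity) (by positivity)]
          have b1 : 64 * (q ^ 3 * l ^ 2) ≤ q * (q ^ 3 * l ^ 2) :=
            mul_le_mul_of_nonneg_right (by linarith) (by positivity)
          calc 2 * (U0 : ℝ) * (32 * q ^ 3 * l ^ 2) = U0 * (64 * (q ^ 3 * l ^ 2)) := by ring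
            _ ≤ U0 * (q * (q ^ 3 * l ^ 2)) := by gcongr
            _ = U0 * (q ^ 4 * l ^ 2) := by ring
        · obtain ⟨u, hu, hu'⟩ := hs x hx
          refine ⟨u, hu, ?_⟩
          push_cast
          exact hu') (by
        intro x y _
        refine DAll_mult A h (q ^ 4 * l ^ 2) (q ^ 3 * l) hL0 U0 C J (fun c hc => ?_) x y
        obtain ⟨h1, _, h3, h4, h5⟩ := hCJ c hc
        exact ⟨h1, h3, h4, h5⟩) (by
        push_cast
        have b1 : (q ^ 3 * l * (h : ℝ)) ^ 2 * (n : ℝ) ^ 2 / (q ^ 8 * l ^ 4) =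
            ((n : ℝ) ^ 2 * (h : ℝ) ^ 2 / (256 * q * l ^ 2)) * (256 / q) := by
          field_simp
        have b2 : 256 / q ≤ 2 := by
          rw [div_le_iff₀ hq0]
          linarith
        rw [b1]
        have b3 : 0 ≤ (n : ℝ) ^ 2 * (h : ℝ) ^ 2 / (256 * q * l ^ 2) := by positivity
        calc ((n : ℝ) ^ 2 * (h : ℝ) ^ 2 / (256 * q * l ^ 2)) * (256 / q)
            ≤ ((n : ℝ) ^ 2 * (h : ℝ) ^ 2 / (256 * q * l ^ 2)) * 2 := by gcongr
          _ ≤ ((C.card : ℝ) * U0) * 2 := by gcongr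
          _ = (C.card : ℝ) * (2 * U0) := by ring)
    have hen := en_of_tc hb A hA k hk1 hkn
    have hfin : ((n : ℝ) ^ 2 * k / (q ^ 47 * l ^ 20)) ^ 2 ≤
        q ^ 4 * n * (k : ℝ) ^ 3 * (En A + k * (n : ℝ) ^ 2) := by
      refine le_trans ?_ hen
      have e1 : q ^ 7 * Λ ^ 6 * (q ^ 8 * l ^ 4) ^ 2 = q ^ 47 * l ^ 20 := by rw [hΛ]; ring
      rw [e1] at hdown
      gcongr
    have hE := DAll_final n q N l l0 k (En A) (by linarith) hN0 hNn.symm hl1' hl1 hlq hNbig hk0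
      hkup hfin
    refine le_trans ?_ hE
    apply div_le_self (by positivity)
    exact one_le_mul_of_one_le_of_one_le (one_le_pow₀ hq1) (one_le_pow₀ hl1)

end Pool.Agent.MP_741d1b.All
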