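import Mathlib
import Pool.Agent.Lib.MP_456481_pr.Divisor
import Pool.Agent.Lib.MP_741d1b_nt_all.Nb
import Pool.Agent.Lib.MP_741d1b_nt_h87.T3Final

/-!
The number `q = ⌊n ^ η⌋` bounds the losses.
-/

set_option autoImplicit false

namespace Pool.Agent.MP_741d1b.All

open Finset Classical
open Pool.Agent.MP_741d1b.H87

/- PROOF. q0 = ⌊n^η⌋₊ ≥ n^η / 2. Nb n q0: hq, hlog:
ev_rpow; hdiv: divisor_bound (Lib/MP_456481_pr/Divisor.lean) with ε = η / 100, u ≤ n^8; hnorm: gcd_norm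
with ε = η / 2 (C n^(η/2) ≤ q0). -/
theorem nb_exists (η : ℝ) (hη : 0 < η) (hη1 : η ≤ 1) : ∃ N0 : ℕ, ∀ n : ℕ, N0 ≤ n →
    Nb n ((⌊(n : ℝ) ^ η⌋₊ : ℕ) : ℝ) := by
  obtain ⟨Cd, hCd1, hCd⟩ := Pool.Agent.Lib.MP_456481_pr.divisor_bound (η / 100) (by positivity)
  obtain ⟨Cg, hCg1, hCg⟩ := gcd_norm (η / 2) (by positivity)
  obtain ⟨N1, hN1⟩ := ev_rpow (η / 2) (by positivity) (2 * (1 + 2 / η + Cd + Cg))
  obtain ⟨N2, hN2⟩ := ev_rpow η hη 20000
  refine ⟨N1 + N2 + 24, ?_⟩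
  intro n hn
  have e1 := hN1 n (by omega)
  have e2 := hN2 n (by omega)
  have hn24 : 24 ≤ n := by omega
  have hn24' : (24 : ℝ) ≤ n := by exact_mod_cast hn24
  have hn1 : (1 : ℝ) ≤ n := by linarith
  have hn0 : (0 : ℝ) < n := by linarith
  obtain ⟨z, hz⟩ : ∃ z : ℝ, z = (n : ℝ) ^ (η / 2) := ⟨_, rfl⟩
  have hzz : z * z = (n : ℝ) ^ η := by
    rw [hz, ← Real.rpow_add hn0]; congr 1; ring
  rw [← hz] at e1
  have hη2 : 0 < 2 / η := by positivity
  have hz1 : 1 ≤ z := by rw [hz]; exact Real.one_le_rpow hn1 (by positivity)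
  have hfl : (n : ℝ) ^ η / 2 ≤ ((⌊(n : ℝ) ^ η⌋₊ : ℕ) : ℝ) := by
    have h1 := Nat.lt_floor_add_one ((n : ℝ) ^ η)
    linarith
  have hW : (1 + 2 / η + Cd + Cg) * z ≤ ((⌊(n : ℝ) ^ η⌋₊ : ℕ) : ℝ) := by
    refine le_trans ?_ hfl
    rw [← hzz]
    have h1 := mul_le_mul_of_nonneg_right e1 (by linarith : (0 : ℝ) ≤ z)
    linarith
  refine ⟨hn24, ?_, ?_, ?_, ?_⟩
  · linarith
  · have h2 : Real.log n ≤ (n : ℝ) ^ (η / 2) / (η / 2) :=
      Real.log_le_rpow_div hn0.le (by positivity)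
    rw [← hz] at h2
    have h3 : z / (η / 2) = 2 / η * z := by field_simp
    rw [h3] at h2
    refine le_trans ?_ hW
    have h4 : 0 ≤ (Cd + Cg) * z := by
      apply mul_nonneg <;> linarith
    have h5 : (1 + 2 / η + Cd + Cg) * z = z + 2 / η * z + (Cd + Cg) * z := by ring
    rw [h5]
    linarith
  · intro u hu0 hu
    refine (hCd u hu0.ne').trans (le_trans ?_ hW)
    have h1 : (u : ℝ) ^ (η / 100) ≤ z := by
      have h2 : (u : ℝ) ≤ (n : ℝ) ^ (8 : ℝ) := by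
        have h3 : (u : ℝ) ≤ ((n ^ 8 : ℕ) : ℝ) := by exact_mod_cast hu
        push_cast at h3
        refine h3.trans (le_of_eq ?_)
        norm_cast
      calc (u : ℝ) ^ (η / 100) ≤ ((n : ℝ) ^ (8 : ℝ)) ^ (η / 100) :=
            Real.rpow_le_rpow (Nat.cast_nonneg _) h2 (by positivity)
        _ = (n : ℝ) ^ (8 * (η / 100)) := by rw [← Real.rpow_mul hn0.le]
        _ ≤ z := by
            rw [hz]
            apply Real.rpow_le_rpow_of_exponent_le hn1
            linarith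
    have h2 : Cd * (u : ℝ) ^ (η / 100) ≤ Cd * z := mul_le_mul_of_nonneg_left h1 (by linarith)
    refine h2.trans (mul_le_mul_of_nonneg_right ?_ (by linarith))
    linarith
  · intro D hD hDc f g hf hg
    refine (hCg n (by omega) D hD hDc f g hf hg).trans ?_
    apply mul_le_mul_of_nonneg_right _ (by positivity)
    rw [← hz]
    refine le_trans ?_ hW
    apply mul_le_mul_of_nonneg_right _ (by linarith)
    linarith

end Pool.Agent.MP_741d1b.All
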