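import Mathlib
import Pool.Agent.Lib.MP_741d1b_nt_all.BDefs
import Pool.Agent.Lib.MP_741d1b_nt_h87.T3Line2

/-!
Row L1: rich lines for a positive proportion of the multipliers give many triples of one height.
-/

set_option autoImplicit false

namespace Pool.Agent.MP_741d1b.All

open Finset Classical
open Pool.Agent.MP_741d1b.H87

/-- Row L1: triples of distinct elements. -/
noncomputable def l1T (A : Finset ℤ) : Finset (ℤ × ℤ × ℤ) :=
  (A ×ˢ A ×ˢ A).filter (fun z => z.1 ≠ z.2.1 ∧ z.1 ≠ z.2.2 ∧ z.2.1 ≠ z.2.2)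

theorem l1_mem {A : Finset ℤ} {z : ℤ × ℤ × ℤ} : z ∈ l1T A ↔
    (z.1 ∈ A ∧ z.2.1 ∈ A ∧ z.2.2 ∈ A) ∧ z.1 ≠ z.2.1 ∧ z.1 ≠ z.2.2 ∧ z.2.1 ≠ z.2.2 := by
  unfold l1T
  rw [mem_filter, mem_product, mem_product]

theorem l1_tc (A : Finset ℤ) (h : ℕ) :
    tc A h = (((l1T A).filter (fun z => hs z.1 z.2.1 z.2.2 ≤ h)).card : ℝ) := by
  unfold tc l1T
  rw [filter_filter, card_filter]
  push_cast
  rw [Finset.sum_product]
  refine sum_congr rfl fun a _ => ?_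
  rw [Finset.sum_product]
  refine Eq.trans ?_ (Finset.sum_erase (s := A) (a := a) ?_)
  · refine sum_congr rfl fun b hb => ?_
    have hab : a ≠ b := (ne_of_mem_erase hb).symm
    unfold F
    rw [card_filter]
    push_cast
    refine sum_congr rfl fun d _ => ?_
    congr 1
    refine propext ⟨?_, ?_⟩
    · rintro ⟨h1, h2, h3⟩
      exact ⟨⟨hab, h1.symm, h2.symm⟩, h3⟩
    · rintro ⟨⟨_, h1, h2⟩, h3⟩
      exact ⟨h1.symm, h2.symm, h3⟩
  · refine sum_eq_zero fun d _ => ?_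
    rw [if_neg]
    rintro ⟨⟨h1, _⟩, _⟩
    exact h1 rfl

theorem l1_hs_pos {a b : ℤ} (hab : a ≠ b) (y : ℤ) : 0 < hs a b y := by
  unfold hs
  apply Nat.div_pos _ (gd_pos hab y)
  exact (Nat.le_of_dvd (Int.natAbs_pos.mpr (sub_ne_zero.mpr hab))
    (Int.gcd_dvd_natAbs_left _ _)).trans (le_max_left _ _)

theorem l1_point (n : ℕ) (hn : 2 ≤ n) {x : ℕ} (hx : 0 < x) :
    (1 : ℝ) / x ≤ ∑ i ∈ range (Nat.log 2 (n ^ 2) - 1),
      (if x ≤ 2 ^ (i + 1) then (1 : ℝ) else 0) / 2 ^ i + 4 / (n : ℝ) ^ 2 := by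
  have hx' : (0 : ℝ) < x := by exact_mod_cast hx
  have hn' : (0 : ℝ) < n := by exact_mod_cast (by omega : 0 < n)
  have hnn : ∀ i ∈ range (Nat.log 2 (n ^ 2) - 1),
      (0 : ℝ) ≤ (if x ≤ 2 ^ (i + 1) then (1 : ℝ) else 0) / 2 ^ i := by
    intro i _
    split_ifs <;> positivity
  by_cases hxm : x < 2 ^ (Nat.log 2 (n ^ 2) - 1)
  · have h1 : 2 ^ Nat.log 2 x ≤ x := Nat.pow_log_le_self 2 hx.ne'
    have h2 : x < 2 ^ (Nat.log 2 x + 1) := Nat.lt_pow_succ_log_self (by norm_num) x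
    have h3 : Nat.log 2 x < Nat.log 2 (n ^ 2) - 1 :=
      (Nat.pow_lt_pow_iff_right (by norm_num)).1 (h1.trans_lt hxm)
    have h4 : (if x ≤ 2 ^ (Nat.log 2 x + 1) then (1 : ℝ) else 0) / 2 ^ Nat.log 2 x ≤
        ∑ i ∈ range (Nat.log 2 (n ^ 2) - 1),
          (if x ≤ 2 ^ (i + 1) then (1 : ℝ) else 0) / 2 ^ i :=
      Finset.single_le_sum hnn (mem_range.2 h3)
    rw [if_pos h2.le] at h4
    have h5 : (1 : ℝ) / x ≤ 1 / 2 ^ Nat.log 2 x := by
      apply one_div_le_one_div_of_le (by positivity)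
      exact_mod_cast h1
    have h6 : (0 : ℝ) ≤ 4 / (n : ℝ) ^ 2 := by positivity
    linarith
  · have h0 : 2 ≤ Nat.log 2 (n ^ 2) := by
      apply Nat.le_log_of_pow_le (by norm_num)
      exact Nat.pow_le_pow_left hn 2
    have h1 : n ^ 2 < 2 ^ (Nat.log 2 (n ^ 2) + 1) := Nat.lt_pow_succ_log_self (by norm_num) _
    have h2 : 2 ^ (Nat.log 2 (n ^ 2) + 1) = 4 * 2 ^ (Nat.log 2 (n ^ 2) - 1) := by
      have e : Nat.log 2 (n ^ 2) + 1 = (Nat.log 2 (n ^ 2) - 1) + 2 := by omega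
      rw [e, pow_add]
      ring
    have h3 : n ^ 2 ≤ 4 * x := by
      rw [h2] at h1
      have := not_lt.1 hxm
      omega
    have h4 : (1 : ℝ) / x ≤ 4 / (n : ℝ) ^ 2 := by
      rw [div_le_div_iff₀ hx' (by positivity), one_mul]
      exact_mod_cast h3
    have h5 := sum_nonneg hnn
    linarith

/-- Row L1: the sum of the reciprocals of the heights. -/
theorem l1_sum (A : Finset ℤ) (n : ℕ) (hn : 2 ≤ n) (hA : A.card ≤ n) :
    ∑ z ∈ l1T A, (1 : ℝ) / (hs z.1 z.2.1 z.2.2 : ℝ) ≤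
      ∑ i ∈ range (Nat.log 2 (n ^ 2) - 1), tc A (2 ^ (i + 1)) / 2 ^ i + 4 * n := by
  have hn' : (0 : ℝ) < n := by exact_mod_cast (by omega : 0 < n)
  have h1 : ∑ z ∈ l1T A, (1 : ℝ) / (hs z.1 z.2.1 z.2.2 : ℝ) ≤ ∑ z ∈ l1T A,
      (∑ i ∈ range (Nat.log 2 (n ^ 2) - 1),
        (if hs z.1 z.2.1 z.2.2 ≤ 2 ^ (i + 1) then (1 : ℝ) else 0) / 2 ^ i + 4 / (n : ℝ) ^ 2) :=
    sum_le_sum fun z hz => l1_point n hn (l1_hs_pos (l1_mem.1 hz).2.1 _)
  refine h1.trans ?_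
  rw [sum_add_distrib, sum_comm]
  have h2 : ∀ i, ∑ z ∈ l1T A, (if hs z.1 z.2.1 z.2.2 ≤ 2 ^ (i + 1) then (1 : ℝ) else 0) / 2 ^ i =
      tc A (2 ^ (i + 1)) / 2 ^ i := by
    intro i
    rw [← sum_div, l1_tc, card_filter]
    push_cast
    rfl
  rw [sum_congr rfl fun i _ => h2 i]
  have h3 : ((l1T A).card : ℝ) ≤ (n : ℝ) ^ 3 := by
    have h4 : (l1T A).card ≤ A.card * (A.card * A.card) := by
      unfold l1T
      refine (card_filter_le _ _).trans ?_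
      rw [card_product, card_product]
    have h5 : A.card * (A.card * A.card) ≤ n * (n * n) :=
      Nat.mul_le_mul hA (Nat.mul_le_mul hA hA)
    have h6 : (l1T A).card ≤ n ^ 3 := by
      calc (l1T A).card ≤ n * (n * n) := h4.trans h5
        _ = n ^ 3 := by ring
    exact_mod_cast h6
  rw [sum_const, nsmul_eq_mul]
  have h7 : ((l1T A).card : ℝ) * (4 / (n : ℝ) ^ 2) ≤ 4 * n := by
    calc ((l1T A).card : ℝ) * (4 / (n : ℝ) ^ 2) ≤ (n : ℝ) ^ 3 * (4 / (n : ℝ) ^ 2) := by gcongr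
      _ = 4 * (n : ℝ) := by field_simp
  linarith

/-- Row L1: triples on a line are near with the right precision. -/
theorem l1_near (c : Ctx) {t : ℕ} {L : Finset ℤ} (hL : c.Lin t L) {a b d : ℤ} (ha : a ∈ L)
    (hb : b ∈ L) (hd : d ∈ L) (hab : a ≠ b) :
    Near c.M (c.n * hgt (a - b) (a - d)) t (Int.gcd (a - b) (a - d)) := by
  obtain ⟨hLs, g, G, hg, s, hs⟩ := hL
  obtain ⟨e1, _⟩ := hs a ha b hb
  obtain ⟨e2, _⟩ := hs a ha d hd
  set x := s a - s b with hx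
  set y := s a - s d with hy
  have hx0 : x ≠ 0 := by
    intro h; rw [h, zero_mul] at e1; exact hab (sub_eq_zero.mp e1)
  have hh : hgt (a - b) (a - d) = hgt x y := by
    rw [e1, e2, hgt_mul_right hg]
  have hdvd : Int.gcd x y ∣ max x.natAbs y.natAbs := by
    rcases le_total x.natAbs y.natAbs with h | h
    · rw [max_eq_right h]
      exact Int.gcd_dvd_natAbs_right _ _
    · rw [max_eq_left h]
      exact Int.gcd_dvd_natAbs_left _ _
  have hmul : hgt x y * Int.gcd x y = max x.natAbs y.natAbs := by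
    unfold hgt
    exact Nat.div_mul_cancel hdvd
  have hni : |(t : ℤ) * g - G * c.M| * (c.n * (max x.natAbs y.natAbs : ℕ)) ≤ c.M := by
    rcases le_total x.natAbs y.natAbs with h | h
    · rw [max_eq_right h]
      exact c.line_ni hLs hs ha hd
    · rw [max_eq_left h]
      exact c.line_ni hLs hs ha hb
  have hgcd : Int.gcd (a - b) (a - d) = Int.gcd x y * g.natAbs := by
    rw [e1, e2, Int.gcd_mul_right]
  have hbase : Near c.M (c.n * hgt x y) t ((Int.gcd x y : ℤ) * g) := by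
    refine ⟨(Int.gcd x y : ℤ) * G, ?_⟩
    have e3 : (t : ℤ) * ((Int.gcd x y : ℤ) * g) - (Int.gcd x y : ℤ) * G * c.M =
        (Int.gcd x y : ℤ) * ((t : ℤ) * g - G * c.M) := by ring
    rw [e3, abs_mul, Nat.abs_cast]
    calc (Int.gcd x y : ℤ) * |(t : ℤ) * g - G * c.M| * ((c.n * hgt x y : ℕ) : ℤ) =
        |(t : ℤ) * g - G * c.M| * (c.n * ((hgt x y * Int.gcd x y : ℕ) : ℤ)) := by
          push_cast; ring
      _ = |(t : ℤ) * g - G * c.M| * (c.n * ((max x.natAbs y.natAbs : ℕ) : ℤ)) := by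
          rw [hmul]
      _ ≤ c.M := hni
  rw [hh, hgcd]
  push_cast
  rcases abs_choice g with h | h
  · rw [h]; exact hbase
  · rw [h, mul_neg]; exact hbase.neg

/-- Row L1: the multipliers of one triple. -/
theorem l1_few (c : Ctx) {a b d : ℤ} (ha : a ∈ c.As) (hb : b ∈ c.As) (hd : d ∈ c.As)
    (hab : a ≠ b) :
    (((range c.M).filter (fun t => Near c.M (c.n * hgt (a - b) (a - d)) t
      (Int.gcd (a - b) (a - d)))).card : ℝ) ≤
      3 * c.M / c.n * (1 / (hgt (a - b) (a - d) : ℝ)) := by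
  have hx0 : a - b ≠ 0 := sub_ne_zero.mpr hab
  have hgp : 0 < Int.gcd (a - b) (a - d) := Int.gcd_pos_of_ne_zero_left _ hx0
  have hhp : 0 < hgt (a - b) (a - d) := by
    unfold hgt
    apply Nat.div_pos _ hgp
    exact (Nat.le_of_dvd (Int.natAbs_pos.mpr hx0) (Int.gcd_dvd_natAbs_left _ _)).trans
      (le_max_left _ _)
  have hgB : |((Int.gcd (a - b) (a - d) : ℕ) : ℤ)| ≤ 2 * c.B := by
    refine le_trans ?_ (c.sub_le (c.As_sub ha) (c.As_sub hb))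
    apply Int.le_of_dvd (abs_pos.mpr hx0)
    rw [abs_dvd_abs]
    exact Int.gcd_dvd_left _ _
  have hle : hgt (a - b) (a - d) ≤ 2 * c.B := by
    unfold hgt
    refine (Nat.div_le_self _ _).trans ?_
    have h1 := c.sub_le (c.As_sub ha) (c.As_sub hb)
    have h2 := c.sub_le (c.As_sub ha) (c.As_sub hd)
    rw [Int.abs_eq_natAbs] at h1 h2
    exact max_le (by exact_mod_cast h1) (by exact_mod_cast h2)
  have hnM : c.n * hgt (a - b) (a - d) ≤ c.M := by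
    have h := c.hBM
    calc c.n * hgt (a - b) (a - d) ≤ c.n ^ 3 * (8 * (c.B + 1)) := by
          apply Nat.mul_le_mul (Nat.le_self_pow (by norm_num) _)
          omega
      _ ≤ c.M := h.le
  have hn := c.n_pos'
  have h5 := card_near_le c.hM (n := c.n * hgt (a - b) (a - d)) (Nat.mul_pos c.n_pos hhp)
    hnM (x := ((Int.gcd (a - b) (a - d) : ℕ) : ℤ))
    (c.not_dvd_sub (by exact_mod_cast hgp.ne') hgB)
  refine h5.trans (le_of_eq ?_)
  push_cast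
  have : (0 : ℝ) < hgt (a - b) (a - d) := by exact_mod_cast hhp
  field_simp

/-- Row L1: double counting. -/
theorem l1_count (c : Ctx) (Θ : Finset ℕ) (hΘ : Θ ⊆ range c.M) (L : ℕ → Finset ℤ)
    (hL : ∀ t ∈ Θ, c.Lin t (L t)) :
    ∑ t ∈ Θ, (((L t ×ˢ L t ×ˢ L t).filter
      (fun z => z.1 ≠ z.2.1 ∧ z.1 ≠ z.2.2 ∧ z.2.1 ≠ z.2.2)).card : ℝ) ≤
      6 * c.M / c.n * ∑ z ∈ l1T c.As, (1 : ℝ) / (hs z.1 z.2.1 z.2.2 : ℝ) := by
  have hn := c.n_pos'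
  have hM := c.M_pos'
  let r : ℕ → ℤ × ℤ × ℤ → Prop := fun t z => Near c.M (c.n * hgt (z.1 - z.2.1) (z.1 - z.2.2)) t
    (Int.gcd (z.1 - z.2.1) (z.1 - z.2.2))
  have hdc := sum_card_bipartiteAbove_eq_sum_card_bipartiteBelow (s := Θ) (t := l1T c.As) r
  calc ∑ t ∈ Θ, (((L t ×ˢ L t ×ˢ L t).filter
      (fun z => z.1 ≠ z.2.1 ∧ z.1 ≠ z.2.2 ∧ z.2.1 ≠ z.2.2)).card : ℝ)
      ≤ ∑ t ∈ Θ, (((l1T c.As).bipartiteAbove r t).card : ℝ) := by
        refine sum_le_sum fun t ht => ?_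
        have h1 : (L t ×ˢ L t ×ˢ L t).filter
            (fun z => z.1 ≠ z.2.1 ∧ z.1 ≠ z.2.2 ∧ z.2.1 ≠ z.2.2) ⊆
            (l1T c.As).bipartiteAbove r t := by
          intro z hz
          obtain ⟨h2, h3⟩ := mem_filter.1 hz
          obtain ⟨h4, h5⟩ := mem_product.1 h2
          obtain ⟨h5, h6⟩ := mem_product.1 h5
          have hLA : ∀ x ∈ L t, x ∈ c.As := fun x hx => (mem_inter.mp ((hL t ht).1 hx)).2
          exact (mem_bipartiteAbove r).2 ⟨l1_mem.2 ⟨⟨hLA _ h4, hLA _ h5, hLA _ h6⟩, h3⟩,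
            l1_near c (hL t ht) h4 h5 h6 h3.1⟩
        exact_mod_cast card_le_card h1
    _ = ∑ z ∈ l1T c.As, ((Θ.bipartiteBelow r z).card : ℝ) := by exact_mod_cast hdc
    _ ≤ ∑ z ∈ l1T c.As, 6 * c.M / c.n * ((1 : ℝ) / (hs z.1 z.2.1 z.2.2 : ℝ)) := by
        refine sum_le_sum fun z hz => ?_
        obtain ⟨⟨h1, h2, h3⟩, h4⟩ := l1_mem.1 hz
        have h5 := l1_few c h1 h2 h3 h4.1
        have h6 : ((Θ.bipartiteBelow r z).card : ℝ) ≤ (((range c.M).filter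
            (fun t => Near c.M (c.n * hgt (z.1 - z.2.1) (z.1 - z.2.2)) t
              (Int.gcd (z.1 - z.2.1) (z.1 - z.2.2)))).card : ℝ) := by
          have h7 : Θ.bipartiteBelow r z ⊆ (range c.M).filter
            (fun t => Near c.M (c.n * hgt (z.1 - z.2.1) (z.1 - z.2.2)) t
              (Int.gcd (z.1 - z.2.1) (z.1 - z.2.2))) := by
            intro t ht
            obtain ⟨h8, h9⟩ := (mem_bipartiteBelow r).1 ht
            exact mem_filter.2 ⟨hΘ h8, h9⟩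
          exact_mod_cast card_le_card h7
        refine (h6.trans h5).trans ?_
        have h8 : (hs z.1 z.2.1 z.2.2 : ℝ) ≤ 2 * hgt (z.1 - z.2.1) (z.1 - z.2.2) := by
          exact_mod_cast hs_le_two_hgt h4.1 z.2.2
        have h9 : (0 : ℝ) < hs z.1 z.2.1 z.2.2 := by exact_mod_cast l1_hs_pos h4.1 z.2.2
        have h10 : (0 : ℝ) < hgt (z.1 - z.2.1) (z.1 - z.2.2) := by linarith
        have h11 : (1 : ℝ) / (hgt (z.1 - z.2.1) (z.1 - z.2.2) : ℝ) ≤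
            2 * ((1 : ℝ) / (hs z.1 z.2.1 z.2.2 : ℝ)) := by
          rw [mul_one_div, div_le_div_iff₀ h10 h9]
          linarith
        calc 3 * (c.M : ℝ) / c.n * (1 / (hgt (z.1 - z.2.1) (z.1 - z.2.2) : ℝ))
            ≤ 3 * (c.M : ℝ) / c.n * (2 * ((1 : ℝ) / (hs z.1 z.2.1 z.2.2 : ℝ))) :=
              mul_le_mul_of_nonneg_left h11 (by positivity)
          _ = _ := by ring
    _ = _ := by rw [mul_sum]

/- PROOF. (i) As Ctx.short_lines, without a bound of the height: for a triple (a, b, d) of distinct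
elements of L t: Near M (n * hgt (a - b) (a - d)) t (gcd (a - b) (a - d)) (param. of Lin), and this holds
for at most 3 M / (n hgt) multipliers (card_near_le; n * hgt ≤ n * 2 B ≤ M because hgt ≤ 2 B). So
∑ t ∈ Θ, #triples ≤ 3 M / n * ∑ (a, b, d) distinct in As, 1 / hgt ≤ 6 M / n * ∑ 1 / hs (hs ≤ 2 hgt).
(ii) card_triples_ge: #triples ≥ (N / Q1)³ / 4, so ∑ 1 / hs ≥ n N³ / (384 Q1³) = n² / (384 Q1³).
(iii) triples with hs > n² / 4 contribute at most 4 n ≤ n² / (768 Q1³). Dyadic ranges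
2^i ≤ hs < 2^(i+1), 2^i ≤ n² / 4: at most 1 + log2 (n²) ≤ 4 q of them, and the sum of 1 / hs over one of
them is at most tc As (2^(i+1)) / 2^i. So for one i tc As (2^(i+1)) ≥ 2^i n² / (3072 q Q1³) =
2^(i+1) n² / (6144 q Q1³) ≥ n² h / (q² Q1³). -/
theorem rich_start (c : Ctx) {q : ℝ} (hb : Nb c.n q) (N Q1 : ℝ) (hNn : N ^ 3 = c.n) (hN : 0 < N)
    (hQ : 1 ≤ Q1) (hbig : q * Q1 ^ 3 ≤ N) (Θ : Finset ℕ) (hΘ : Θ ⊆ range c.M)
    (hΘc : (c.M : ℝ) / 16 ≤ Θ.card) (L : ℕ → Finset ℤ) (hL : ∀ t ∈ Θ, c.Lin t (L t))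
    (hLc : ∀ t ∈ Θ, N / Q1 ≤ (L t).card) :
    ∃ h : ℕ, 1 ≤ h ∧ 2 * h ≤ c.n ^ 2 ∧ (c.n : ℝ) ^ 2 * h / (q ^ 2 * Q1 ^ 3) ≤ tc c.As h := by
  have hq0 : 0 < q := hb.q_pos
  have hq1 : 1 ≤ q := hb.q_one
  have hq4 := hb.hq
  have hlogq := hb.hlog
  have hQ0 : 0 < Q1 := by linarith
  have hQ3 : 1 ≤ Q1 ^ 3 := one_le_pow₀ hQ
  have hn := c.n_pos'
  have hM := c.M_pos'
  have hn2 : 2 ≤ c.n := by have := c.hn; omega
  have hNQ : 10000 * Q1 ^ 3 ≤ N := (mul_le_mul_of_nonneg_right hq4 (by positivity)).trans hbig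
  have hN1 : 1 ≤ N := by linarith
  have hnN : N ≤ c.n := by
    rw [← hNn]
    exact le_self_pow₀ hN1 (by norm_num)
  have hl4 : ∀ t ∈ Θ, 4 ≤ (L t).card := by
    intro t ht
    have h1 : (4 : ℝ) ≤ (L t).card := by
      refine le_trans ?_ (hLc t ht)
      rw [le_div_iff₀ hQ0]
      have h2 : Q1 ≤ Q1 ^ 3 := le_self_pow₀ hQ (by norm_num)
      linarith
    exact_mod_cast h1
  set W := ∑ z ∈ l1T c.As, (1 : ℝ) / (hs z.1 z.2.1 z.2.2 : ℝ) with hW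
  have h1 := l1_count c Θ hΘ L hL
  rw [← hW] at h1
  have h2 : (Θ.card : ℝ) * ((N / Q1) ^ 3 / 4) ≤
      ∑ t ∈ Θ, (((L t ×ˢ L t ×ˢ L t).filter
    (fun z => z.1 ≠ z.2.1 ∧ z.1 ≠ z.2.2 ∧ z.2.1 ≠ z.2.2)).card : ℝ) := by
    rw [← nsmul_eq_mul, ← sum_const]
    refine sum_le_sum fun t ht => ?_
    refine le_trans ?_ (card_triples_ge (L t) (hl4 t ht))
    have := pow_le_pow_left₀ (by positivity) (hLc t ht) 3
    linarith
  have h3 : (c.M : ℝ) / 16 * ((N / Q1) ^ 3 / 4) ≤ 6 * c.M / c.n * W :=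
    (mul_le_mul_of_nonneg_right hΘc (by positivity)).trans (h2.trans h1)
  have e1 : (c.M : ℝ) / 16 * ((N / Q1) ^ 3 / 4) = c.M * ((N / Q1) ^ 3 / 64) := by ring
  have e2 : 6 * (c.M : ℝ) / c.n * W = c.M * (6 * W / c.n) := by field_simp
  rw [e1, e2] at h3
  have h4 := le_of_mul_le_mul_left h3 hM
  rw [le_div_iff₀ hn, div_pow, hNn] at h4
  have h5 : (c.n : ℝ) ^ 2 / (384 * Q1 ^ 3) ≤ W := by
    have e3 : (c.n : ℝ) / Q1 ^ 3 / 64 * c.n = 6 * ((c.n : ℝ) ^ 2 / (384 * Q1 ^ 3)) := by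
      field_simp
      norm_num
    rw [e3] at h4
    linarith
  by_contra hcon
  push Not at hcon
  have h6 := l1_sum c.As c.n hn2 c.As_card
  rw [← hW] at h6
  have h7 : ∀ i ∈ range (Nat.log 2 (c.n ^ 2) - 1),
      tc c.As (2 ^ (i + 1)) / 2 ^ i ≤ 2 * ((c.n : ℝ) ^ 2 / (q ^ 2 * Q1 ^ 3)) := by
    intro i hi
    have hi' := mem_range.1 hi
    have h8 : 2 * 2 ^ (i + 1) ≤ c.n ^ 2 := by
      have h9 : 2 ^ (i + 2) ≤ 2 ^ Nat.log 2 (c.n ^ 2) :=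
        Nat.pow_le_pow_right (by norm_num) (by omega)
      have h10 : 2 ^ Nat.log 2 (c.n ^ 2) ≤ c.n ^ 2 :=
        Nat.pow_log_le_self 2 (pow_ne_zero _ c.n_pos.ne')
      calc 2 * 2 ^ (i + 1) = 2 ^ (i + 2) := by ring
        _ ≤ _ := h9.trans h10
    have h9 := hcon (2 ^ (i + 1)) (Nat.one_le_two_pow) h8
    rw [div_le_iff₀ (by positivity)]
    refine h9.le.trans (le_of_eq ?_)
    push_cast
    ring
  have h8 : ((Nat.log 2 (c.n ^ 2) - 1 : ℕ) : ℝ) ≤ 3 * q := by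
    have h9 : ((Nat.log 2 (c.n ^ 2) : ℕ) : ℝ) ≤ Real.logb 2 ((c.n ^ 2 : ℕ) : ℝ) :=
      Real.natLog_le_logb _ _
    have h10 : Real.logb 2 ((c.n ^ 2 : ℕ) : ℝ) = 2 * Real.log c.n / Real.log 2 := by
      push_cast
      rw [Real.logb, Real.log_pow]
      norm_num
    have h11 : (0.6931471803 : ℝ) < Real.log 2 := Real.log_two_gt_d9
    have h12 : 2 * Real.log c.n / Real.log 2 ≤ 3 * q := by
      rw [div_le_iff₀ (by linarith)]
      nlinarith [hlogq, hq1]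
    have h13 : ((Nat.log 2 (c.n ^ 2) - 1 : ℕ) : ℝ) ≤ ((Nat.log 2 (c.n ^ 2) : ℕ) : ℝ) := by
      exact_mod_cast Nat.sub_le _ _
    rw [h10] at h9
    linarith
  have h9 : ∑ i ∈ range (Nat.log 2 (c.n ^ 2) - 1), tc c.As (2 ^ (i + 1)) / 2 ^ i ≤
      3 * q * (2 * ((c.n : ℝ) ^ 2 / (q ^ 2 * Q1 ^ 3))) := by
    refine (sum_le_sum h7).trans ?_
    rw [sum_const, card_range, nsmul_eq_mul]
    exact mul_le_mul_of_nonneg_right h8 (by positivity)
  have e4 : 3 * q * (2 * ((c.n : ℝ) ^ 2 / (q ^ 2 * Q1 ^ 3))) = 6 / q * ((c.n : ℝ) ^ 2 / Q1 ^ 3) := by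
    field_simp
    norm_num
  have h10 : (6 : ℝ) / q ≤ 6 / 10000 := by gcongr
  set Z := (c.n : ℝ) ^ 2 / Q1 ^ 3 with hZ
  have hZ0 : 0 < Z := by positivity
  have h11 : 4 * (c.n : ℝ) ≤ Z / 2500 := by
    rw [hZ, le_div_iff₀ (by norm_num), le_div_iff₀ (by positivity)]
    have h12 : 10000 * Q1 ^ 3 ≤ c.n := hNQ.trans hnN
    calc 4 * (c.n : ℝ) * 2500 * Q1 ^ 3 = (c.n : ℝ) * (10000 * Q1 ^ 3) := by ring
      _ ≤ (c.n : ℝ) * (c.n : ℝ) := mul_le_mul_of_nonneg_left h12 hn.le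
      _ = (c.n : ℝ) ^ 2 := by ring
  have e5 : (c.n : ℝ) ^ 2 / (384 * Q1 ^ 3) = Z / 384 := by
    rw [hZ]
    field_simp
  rw [e5] at h5
  rw [e4] at h9
  have h13 : 6 / q * Z ≤ 6 / 10000 * Z := mul_le_mul_of_nonneg_right h10 hZ0.le
  linarith

end Pool.Agent.MP_741d1b.All
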