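import Mathlib
import Pool.Agent.Lib.MP_741d1b_nt_all.Nb
import Pool.Agent.Lib.MP_741d1b_nt_h87.T3Slice

/-!
Row P1: the common divisor of the four determinants of a quadruple; typical quadruples.
-/

set_option autoImplicit false

namespace Pool.Agent.MP_741d1b.All

open Finset Classical
open Pool.Agent.MP_741d1b.H87

/-- The greatest common divisor of the four determinants. -/
def g4 (c : Ctx) (t : ℕ) (x y z w : ℤ) : ℕ :=
  Int.gcd (Int.gcd (c.dt t x y z) (c.dt t y z w)) (Int.gcd (c.dt t z w x) (c.dt t w x y))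

/-- The coefficient of `w` in the primitive relation of `x, y, z, w` is between `L1` and `L0`. -/
def TypR (c : Ctx) (L0 L1 t : ℕ) (x y z w : ℤ) : Prop :=
  c.dt t x y z ≠ 0 ∧ (L1 : ℤ) * g4 c t x y z w < |c.dt t x y z| ∧
    |c.dt t x y z| ≤ L0 * g4 c t x y z w

/-- Typical quadruples. -/
def Typ (c : Ctx) (L0 L1 t : ℕ) (x y z w : ℤ) : Prop :=
  TypR c L0 L1 t x y z w ∧ TypR c L0 L1 t y z w x ∧ TypR c L0 L1 t z w x y ∧
    TypR c L0 L1 t w x y z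

/-- four determinants -/
theorem dt_four (c : Ctx) (t : ℕ) (x y z w : ℤ) :
    c.dt t x y z - c.dt t y z w + c.dt t z w x - c.dt t w x y = 0 := by
  unfold Ctx.dt
  ring

theorem dt_rot (c : Ctx) (t : ℕ) (x y z : ℤ) : c.dt t y z x = c.dt t x y z := by
  unfold Ctx.dt
  ring

theorem dt_swap (c : Ctx) (t : ℕ) (x y z : ℤ) : c.dt t x z y = -c.dt t x y z := by
  unfold Ctx.dt
  ring

/-- The greatest common divisor divides the four determinants. -/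
theorem g4_dvd (c : Ctx) (t : ℕ) (x y z w : ℤ) :
    (g4 c t x y z w : ℤ) ∣ c.dt t x y z ∧ (g4 c t x y z w : ℤ) ∣ c.dt t y z w ∧
      (g4 c t x y z w : ℤ) ∣ c.dt t z w x ∧ (g4 c t x y z w : ℤ) ∣ c.dt t w x y := by
  unfold g4
  refine ⟨?_, ?_, ?_, ?_⟩
  · exact (Int.gcd_dvd_left _ _).trans (Int.gcd_dvd_left _ _)
  · exact (Int.gcd_dvd_left _ _).trans (Int.gcd_dvd_right _ _)
  · exact (Int.gcd_dvd_right _ _).trans (Int.gcd_dvd_left _ _)
  · exact (Int.gcd_dvd_right _ _).trans (Int.gcd_dvd_right _ _)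

theorem dvd_g4 (c : Ctx) (t : ℕ) (x y z w h : ℤ) (h1 : h ∣ c.dt t x y z) (h2 : h ∣ c.dt t y z w)
    (h3 : h ∣ c.dt t z w x) (h4 : h ∣ c.dt t w x y) : h ∣ (g4 c t x y z w : ℤ) := by
  unfold g4
  exact Int.dvd_coe_gcd (Int.dvd_coe_gcd h1 h2) (Int.dvd_coe_gcd h3 h4)

theorem g4_rot (c : Ctx) (t : ℕ) (x y z w : ℤ) : g4 c t y z w x = g4 c t x y z w := by
  apply Nat.dvd_antisymm
  · obtain ⟨h1, h2, h3, h4⟩ := g4_dvd c t y z w x
    exact_mod_cast dvd_g4 c t x y z w _ h4 h1 h2 h3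
  · obtain ⟨h1, h2, h3, h4⟩ := g4_dvd c t x y z w
    exact_mod_cast dvd_g4 c t y z w x _ h2 h3 h4 h1

theorem Typ.rot {c : Ctx} {L0 L1 t : ℕ} {x y z w : ℤ} (h : Typ c L0 L1 t x y z w) :
    Typ c L0 L1 t y z w x := ⟨h.2.1, h.2.2.1, h.2.2.2, h.1⟩

theorem g4_pos (c : Ctx) (t : ℕ) (x y z w : ℤ) (h : c.dt t x y z ≠ 0) : 0 < g4 c t x y z w := by
  rw [Nat.pos_iff_ne_zero]
  intro h0
  have h1 := (g4_dvd c t x y z w).1
  rw [h0] at h1
  exact h (zero_dvd_iff.mp (by exact_mod_cast h1))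

end Pool.Agent.MP_741d1b.All
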