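import Mathlib
import Pool.Agent.Lib.MP_741d1b_nt_all.Nb

/-!
Row P2: the lattice lemma (integers only).
-/

set_option autoImplicit false

namespace Pool.Agent.MP_741d1b.All

/-- The class conditions: `(α, β, γ)` against the reference vector `(a, b, g)`, `m` is the sum. -/
structure Cls (ga gb gc a b g α β γ m : ℤ) : Prop where
  c1 : gc ∣ α * g - a * γ
  c2 : gc ∣ β * g - b * γ
  c3 : gc ∣ g * m
  b1 : gb ∣ α * b - a * β
  b2 : gb ∣ γ * b - g * β
  b3 : gb ∣ b * m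
  a1 : ga ∣ β * a - b * α
  a2 : ga ∣ γ * a - g * α
  a3 : ga ∣ a * m

/-- The divisibilities of the reduced vector. -/
private structure Rd (ga gb gc a b g x y z : ℤ) : Prop where
  ax : ga ∣ x
  ay : ga ∣ a * y
  az : ga ∣ a * z
  bb : gb ∣ y
  bx : gb ∣ b * x
  bz : gb ∣ b * z
  cc : gc ∣ z
  cx : gc ∣ g * x
  cy : gc ∣ g * y

private theorem lat_aux (ga gb gc a b g u v w : ℤ) (h : u * a + v * b + w * g = 1)
    {α β γ m : ℤ} (hc : Cls ga gb gc a b g α β γ m) :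
    Rd ga gb gc a b g (α - (u * α + v * β + w * γ) * a) (β - (u * α + v * β + w * γ) * b)
      (γ - (u * α + v * β + w * γ) * g) := by
  have cc : gc ∣ (γ - (u * α + v * β + w * γ) * g) := by
    have e : (γ - (u * α + v * β + w * γ) * g) =
        -u * (α * g - a * γ) + -v * (β * g - b * γ) := by
      linear_combination -γ * h
    rw [e]
    exact dvd_add (Dvd.dvd.mul_left hc.c1 _) (Dvd.dvd.mul_left hc.c2 _)
  have bb : gb ∣ (β - (u * α + v * β + w * γ) * b) := by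
    have e : (β - (u * α + v * β + w * γ) * b) =
        -u * (α * b - a * β) + -w * (γ * b - g * β) := by
      linear_combination -β * h
    rw [e]
    exact dvd_add (Dvd.dvd.mul_left hc.b1 _) (Dvd.dvd.mul_left hc.b2 _)
  have ax : ga ∣ (α - (u * α + v * β + w * γ) * a) := by
    have e : (α - (u * α + v * β + w * γ) * a) =
        -v * (β * a - b * α) + -w * (γ * a - g * α) := by
      linear_combination -α * h
    rw [e]
    exact dvd_add (Dvd.dvd.mul_left hc.a1 _) (Dvd.dvd.mul_left hc.a2 _)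
  refine ⟨ax, ?_, ?_, bb, ?_, ?_, cc, ?_, ?_⟩
  · have e : a * (β - (u * α + v * β + w * γ) * b) =
        (β * a - b * α) + b * (α - (u * α + v * β + w * γ) * a) := by ring
    rw [e]
    exact dvd_add hc.a1 (Dvd.dvd.mul_left ax _)
  · have e : a * (γ - (u * α + v * β + w * γ) * g) =
        (γ * a - g * α) + g * (α - (u * α + v * β + w * γ) * a) := by ring
    rw [e]
    exact dvd_add hc.a2 (Dvd.dvd.mul_left ax _)
  · have e : b * (α - (u * α + v * β + w * γ) * a) =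
        (α * b - a * β) + a * (β - (u * α + v * β + w * γ) * b) := by ring
    rw [e]
    exact dvd_add hc.b1 (Dvd.dvd.mul_left bb _)
  · have e : b * (γ - (u * α + v * β + w * γ) * g) =
        (γ * b - g * β) + g * (β - (u * α + v * β + w * γ) * b) := by ring
    rw [e]
    exact dvd_add hc.b2 (Dvd.dvd.mul_left bb _)
  · have e : g * (α - (u * α + v * β + w * γ) * a) =
        (α * g - a * γ) + a * (γ - (u * α + v * β + w * γ) * g) := by ring
    rw [e]
    exact dvd_add hc.c1 (Dvd.dvd.mul_left cc _)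
  · have e : g * (β - (u * α + v * β + w * γ) * b) =
        (β * g - b * γ) + b * (γ - (u * α + v * β + w * γ) * g) := by ring
    rw [e]
    exact dvd_add hc.c2 (Dvd.dvd.mul_left cc _)

/-- The triple product with the reference vector. -/
private def kap (a b g x y z x' y' z' : ℤ) : ℤ :=
  a * (y * z' - z * y') + b * (z * x' - x * z') + g * (x * y' - y * x')

private theorem kap_dvd (ga gb gc a b g x y z x' y' z' : ℤ) (h : Rd ga gb gc a b g x y z)
    (h' : Rd ga gb gc a b g x' y' z') :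
    gb * gc ∣ kap a b g x y z x' y' z' ∧ ga * gc ∣ kap a b g x y z x' y' z' ∧
      ga * gb ∣ kap a b g x y z x' y' z' := by
  refine ⟨?_, ?_, ?_⟩
  · have e : kap a b g x y z x' y' z' = a * (y * z') - a * (y' * z) + (b * x') * z - (b * x) * z' +
        y' * (g * x) - y * (g * x') := by
      unfold kap
      ring
    rw [e]
    refine dvd_sub (dvd_add (dvd_sub (dvd_add (dvd_sub ?_ ?_) ?_) ?_) ?_) ?_
    · exact Dvd.dvd.mul_left (mul_dvd_mul h.bb h'.cc) _
    · exact Dvd.dvd.mul_left (mul_dvd_mul h'.bb h.cc) _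
    · exact mul_dvd_mul h'.bx h.cc
    · exact mul_dvd_mul h.bx h'.cc
    · exact mul_dvd_mul h'.bb h.cx
    · exact mul_dvd_mul h.bb h'.cx
  · have e : kap a b g x y z x' y' z' = (a * y) * z' - (a * y') * z + b * (x' * z) - b * (x * z') +
        x * (g * y') - x' * (g * y) := by
      unfold kap
      ring
    rw [e]
    refine dvd_sub (dvd_add (dvd_sub (dvd_add (dvd_sub ?_ ?_) ?_) ?_) ?_) ?_
    · exact mul_dvd_mul h.ay h'.cc
    · exact mul_dvd_mul h'.ay h.cc
    · exact Dvd.dvd.mul_left (mul_dvd_mul h'.ax h.cc) _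
    · exact Dvd.dvd.mul_left (mul_dvd_mul h.ax h'.cc) _
    · exact mul_dvd_mul h.ax h'.cy
    · exact mul_dvd_mul h'.ax h.cy
  · have e : kap a b g x y z x' y' z' = (a * z') * y - (a * z) * y' + x' * (b * z) - x * (b * z') +
        g * (x * y') - g * (x' * y) := by
      unfold kap
      ring
    rw [e]
    refine dvd_sub (dvd_add (dvd_sub (dvd_add (dvd_sub ?_ ?_) ?_) ?_) ?_) ?_
    · exact mul_dvd_mul h'.az h.bb
    · exact mul_dvd_mul h.az h'.bb
    · exact mul_dvd_mul h'.ax h.bz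
    · exact mul_dvd_mul h.ax h'.bz
    · exact Dvd.dvd.mul_left (mul_dvd_mul h.ax h'.bb) _
    · exact Dvd.dvd.mul_left (mul_dvd_mul h'.ax h.bb) _

private theorem kap_m (ga gb gc a b g u v w : ℤ) (h : u * a + v * b + w * g = 1)
    {x y z x' y' z' α β γ m : ℤ} (h1 : Rd ga gb gc a b g x y z)
    (h2 : Rd ga gb gc a b g x' y' z') (h4 : Cls ga gb gc a b g α β γ m) :
    ga * gb * gc ∣ kap a b g x y z x' y' z' * m := by
  obtain ⟨k1, k2, k3⟩ := kap_dvd ga gb gc a b g x y z x' y' z' h1 h2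
  have e : kap a b g x y z x' y' z' * m = u * ((a * m) * kap a b g x y z x' y' z') +
      v * ((b * m) * kap a b g x y z x' y' z') + w * ((g * m) * kap a b g x y z x' y' z') := by
    linear_combination -(kap a b g x y z x' y' z' * m) * h
  rw [e]
  refine dvd_add (dvd_add (Dvd.dvd.mul_left ?_ _) (Dvd.dvd.mul_left ?_ _)) (Dvd.dvd.mul_left ?_ _)
  · rw [mul_assoc]; exact mul_dvd_mul h4.a3 k1
  · have e : ga * gb * gc = gb * (ga * gc) := by ring
    rw [e]; exact mul_dvd_mul h4.b3 k2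
  · have e : ga * gb * gc = gc * (ga * gb) := by ring
    rw [e]; exact mul_dvd_mul h4.c3 k3

private theorem cop_det (u v w a b g : ℤ) (h : u * a + v * b + w * g = 1)
    (x1 y1 z1 x2 y2 z2 x3 y3 z3 : ℤ) (h1 : u * x1 + v * y1 + w * z1 = 0)
    (h2 : u * x2 + v * y2 + w * z2 = 0) (h3 : u * x3 + v * y3 + w * z3 = 0) :
    x1 * (y2 * z3 - z2 * y3) - y1 * (x2 * z3 - z2 * x3) + z1 * (x2 * y3 - y2 * x3) = 0 := by
  have ea : u * (x1 * (y2 * z3 - z2 * y3) - y1 * (x2 * z3 - z2 * x3) +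
      z1 * (x2 * y3 - y2 * x3)) = 0 := by
    linear_combination (y2 * z3 - z2 * y3) * h1 - (y1 * z3 - z1 * y3) * h2 +
      (y1 * z2 - z1 * y2) * h3
  have eb : v * (x1 * (y2 * z3 - z2 * y3) - y1 * (x2 * z3 - z2 * x3) +
      z1 * (x2 * y3 - y2 * x3)) = 0 := by
    linear_combination (z2 * x3 - x2 * z3) * h1 - (z1 * x3 - x1 * z3) * h2 +
      (z1 * x2 - x1 * z2) * h3
  have ec : w * (x1 * (y2 * z3 - z2 * y3) - y1 * (x2 * z3 - z2 * x3) +
      z1 * (x2 * y3 - y2 * x3)) = 0 := by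
    linear_combination (x2 * y3 - y2 * x3) * h1 - (x1 * y3 - y1 * x3) * h2 +
      (x1 * y2 - y1 * x2) * h3
  linear_combination a * ea + b * eb + g * ec -
    (x1 * (y2 * z3 - z2 * y3) - y1 * (x2 * z3 - z2 * x3) + z1 * (x2 * y3 - y2 * x3)) * h

private theorem det_split (a b g s1 α1 β1 γ1 s2 α2 β2 γ2 s3 α3 β3 γ3 : ℤ)
    (h0 : (α1 - s1 * a) * ((β2 - s2 * b) * (γ3 - s3 * g) - (γ2 - s2 * g) * (β3 - s3 * b)) -
      (β1 - s1 * b) * ((α2 - s2 * a) * (γ3 - s3 * g) - (γ2 - s2 * g) * (α3 - s3 * a)) +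
      (γ1 - s1 * g) * ((α2 - s2 * a) * (β3 - s3 * b) - (β2 - s2 * b) * (α3 - s3 * a)) = 0) :
    (α1 * (β2 * γ3 - γ2 * β3) - β1 * (α2 * γ3 - γ2 * α3) + γ1 * (α2 * β3 - β2 * α3)) =
      s1 * kap a b g (α2 - s2 * a) (β2 - s2 * b) (γ2 - s2 * g)
          (α3 - s3 * a) (β3 - s3 * b) (γ3 - s3 * g) -
        s2 * kap a b g (α1 - s1 * a) (β1 - s1 * b) (γ1 - s1 * g)
          (α3 - s3 * a) (β3 - s3 * b) (γ3 - s3 * g) +
        s3 * kap a b g (α1 - s1 * a) (β1 - s1 * b) (γ1 - s1 * g)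
          (α2 - s2 * a) (β2 - s2 * b) (γ2 - s2 * g) := by
  unfold kap
  linear_combination h0

/- PROOF. Let u a + v b + w g = 1, s i = u α i + v β i + w γ i, x = α - s a, y = β - s b, z = γ - s g.
Then gc ∣ z (z = u (a γ - α g) + v (b γ - β g)), gc ∣ g x (g x ≡ a γ - s a g = a z), gc ∣ g y; in the
same way ga ∣ x, a y, a z and gb ∣ y, b x, b z. For two indices put
κ = a (y z' - z y') + b (z x' - x z') + g (x y' - y x'). Termwise gb gc ∣ κ, ga gc ∣ κ, ga gb ∣ κ
(e.g. b z x' : gb gc ∣ (b x') z, ga gc ∣ z x', ga gb ∣ (b z) x'). m4 = u (a m4) + v (b m4) + w (g m4)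
with ga ∣ a m4 etc., so ga gb gc ∣ κ m4 for each of the three pairs. Finally
det = s1 κ23 - s2 κ13 + s3 κ12 (because u x + v y + w z = 0 the vectors (x, y, z) are coplanar). -/
theorem lattice (ga gb gc a b g u v w : ℤ) (h : u * a + v * b + w * g = 1)
    (α1 β1 γ1 m1 α2 β2 γ2 m2 α3 β3 γ3 m3 α4 β4 γ4 m4 : ℤ)
    (h1 : Cls ga gb gc a b g α1 β1 γ1 m1) (h2 : Cls ga gb gc a b g α2 β2 γ2 m2)
    (h3 : Cls ga gb gc a b g α3 β3 γ3 m3) (h4 : Cls ga gb gc a b g α4 β4 γ4 m4) :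
    ga * gb * gc ∣ (α1 * (β2 * γ3 - γ2 * β3) - β1 * (α2 * γ3 - γ2 * α3) +
      γ1 * (α2 * β3 - β2 * α3)) * m4 := by
  have e1 := lat_aux ga gb gc a b g u v w h h1
  have e2 := lat_aux ga gb gc a b g u v w h h2
  have e3 := lat_aux ga gb gc a b g u v w h h3
  have k12 := kap_m ga gb gc a b g u v w h e1 e2 h4
  have k13 := kap_m ga gb gc a b g u v w h e1 e3 h4
  have k23 := kap_m ga gb gc a b g u v w h e2 e3 h4
  have hd : (α1 * (β2 * γ3 - γ2 * β3) - β1 * (α2 * γ3 - γ2 * α3) +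
      γ1 * (α2 * β3 - β2 * α3)) =
      (u * α1 + v * β1 + w * γ1) * kap a b g (α2 - (u * α2 + v * β2 + w * γ2) * a)
          (β2 - (u * α2 + v * β2 + w * γ2) * b) (γ2 - (u * α2 + v * β2 + w * γ2) * g)
          (α3 - (u * α3 + v * β3 + w * γ3) * a)
          (β3 - (u * α3 + v * β3 + w * γ3) * b) (γ3 - (u * α3 + v * β3 + w * γ3) * g) -
        (u * α2 + v * β2 + w * γ2) * kap a b g (α1 - (u * α1 + v * β1 + w * γ1) * a)
          (β1 - (u * α1 + v * β1 + w * γ1) * b) (γ1 - (u * α1 + v * β1 + w * γ1) * g)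
          (α3 - (u * α3 + v * β3 + w * γ3) * a)
          (β3 - (u * α3 + v * β3 + w * γ3) * b) (γ3 - (u * α3 + v * β3 + w * γ3) * g) +
        (u * α3 + v * β3 + w * γ3) * kap a b g (α1 - (u * α1 + v * β1 + w * γ1) * a)
          (β1 - (u * α1 + v * β1 + w * γ1) * b) (γ1 - (u * α1 + v * β1 + w * γ1) * g)
          (α2 - (u * α2 + v * β2 + w * γ2) * a)
          (β2 - (u * α2 + v * β2 + w * γ2) * b) (γ2 - (u * α2 + v * β2 + w * γ2) * g) := by
    have hx : ∀ α β γ : ℤ, u * (α - (u * α + v * β + w * γ) * a) +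
        v * (β - (u * α + v * β + w * γ) * b) + w * (γ - (u * α + v * β + w * γ) * g) = 0 := by
      intro α β γ
      linear_combination -(u * α + v * β + w * γ) * h
    have h0 := cop_det u v w a b g h _ _ _ _ _ _ _ _ _ (hx α1 β1 γ1) (hx α2 β2 γ2) (hx α3 β3 γ3)
    exact det_split a b g _ _ _ _ _ _ _ _ _ _ _ _ h0
  rw [hd, add_mul, sub_mul]
  refine dvd_add (dvd_sub ?_ ?_) ?_
  · exact (Dvd.dvd.mul_left k23 _).trans (dvd_of_eq (mul_assoc _ _ _).symm)
  · exact (Dvd.dvd.mul_left k13 _).trans (dvd_of_eq (mul_assoc _ _ _).symm)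
  · exact (Dvd.dvd.mul_left k12 _).trans (dvd_of_eq (mul_assoc _ _ _).symm)

/- PROOF. g m = m (u α' ...): with u' α + v' β + w' γ = 1 (the vector (α, β, γ) is primitive):
mod gc: α g ≡ a γ, β g ≡ b γ, so g me = me g (u' α + v' β + w' γ) ≡ me γ (u' a + v' b + w' g) and
gc ∣ γ me. -/
theorem dvd_ref (gc a b g me α β γ u' v' w' : ℤ) (h : u' * α + v' * β + w' * γ = 1)
    (h1 : gc ∣ α * g - a * γ) (h2 : gc ∣ β * g - b * γ) (h3 : gc ∣ γ * me) : gc ∣ g * me := by
  have e : g * me = u' * me * (α * g - a * γ) + v' * me * (β * g - b * γ) +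
      (u' * a + v' * b + w' * g) * (γ * me) := by
    linear_combination -(g * me) * h
  rw [e]
  exact dvd_add (dvd_add (Dvd.dvd.mul_left h1 _) (Dvd.dvd.mul_left h2 _)) (Dvd.dvd.mul_left h3 _)

end Pool.Agent.MP_741d1b.All
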