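import Mathlib
import Pool.Agent.Lib.MP_741d1b_nt_all.PDefs
import Pool.Agent.Lib.MP_741d1b_nt_all.PLat

/-!
Row P3: barycentric coordinates with respect to a triple `a, b, p` of noncollinear points.
-/

set_option autoImplicit false

namespace Pool.Agent.MP_741d1b.All

open Finset Classical
open Pool.Agent.MP_741d1b.H87

/-- `(α, β, γ)` are primitive barycentric coordinates of `d`. -/
structure Bar (c : Ctx) (t : ℕ) (a b p d α β γ m : ℤ) : Prop where
  sum : α + β + γ = m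
  x : m * d = α * a + β * b + γ * p
  k : m * c.k t d = α * c.k t a + β * c.k t b + γ * c.k t p
  prim : ∃ u v w : ℤ, u * α + v * β + w * γ = 1
  ne : m ≠ 0

/- PROOF. G = g4 c t a b p d > 0 divides dt b p d, dt a p d, dt a b d, dt a b p:
α = dt b p d / G, β = - dt a p d / G (= dt p a d / G...), γ = dt a b d / G, m = dt a b p / G; the
identities are ring identities times G; primitive because G is the gcd of the three (the fourth is
their sum). Use gcd3 (H87) or Bezout. -/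
theorem bar_exists (c : Ctx) (t : ℕ) {a b p : ℤ} (hT : c.dt t a b p ≠ 0) (d : ℤ) :
    ∃ α β γ m : ℤ, Bar c t a b p d α β γ m ∧ c.dt t b p d = g4 c t a b p d * α ∧
      c.dt t a p d = -(g4 c t a b p d * β) ∧ c.dt t a b d = g4 c t a b p d * γ ∧
      c.dt t a b p = g4 c t a b p d * m := by
  have hG : (0 : ℤ) < (g4 c t a b p d : ℤ) := by exact_mod_cast g4_pos c t a b p d hT
  obtain ⟨⟨m, hm⟩, ⟨α, hα⟩, ⟨β', hβ'⟩, ⟨γ, hγ⟩⟩ := g4_dvd c t a b p d
  have e1 : c.dt t p d a = c.dt t a p d := dt_rot c t a p d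
  have e2 : c.dt t d a b = c.dt t a b d := (dt_rot c t b d a).trans (dt_rot c t a b d)
  rw [e1] at hβ'
  rw [e2] at hγ
  have hsum : α + -β' + γ = m := by
    apply mul_left_cancel₀ hG.ne'
    have h1 : c.dt t b p d - c.dt t a p d + c.dt t a b d = c.dt t a b p := by
      unfold Ctx.dt
      ring
    rw [hα, hβ', hγ, hm] at h1
    linear_combination h1
  refine ⟨α, -β', γ, m, ⟨hsum, ?_, ?_, ?_, ?_⟩, hα, by rw [hβ']; ring, hγ, hm⟩
  · apply mul_left_cancel₀ hG.ne'
    have h1 : c.dt t a b p * d = c.dt t b p d * a - c.dt t a p d * b + c.dt t a b d * p := by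
      unfold Ctx.dt
      ring
    rw [hα, hβ', hγ, hm] at h1
    linear_combination h1
  · apply mul_left_cancel₀ hG.ne'
    have h1 : c.dt t a b p * c.k t d =
        c.dt t b p d * c.k t a - c.dt t a p d * c.k t b + c.dt t a b d * c.k t p := by
      unfold Ctx.dt
      ring
    rw [hα, hβ', hγ, hm] at h1
    linear_combination h1
  · have h1 := Int.gcd_eq_gcd_ab (c.dt t a b p) (c.dt t b p d)
    have h2 := Int.gcd_eq_gcd_ab (c.dt t p d a) (c.dt t d a b)
    have h3 := Int.gcd_eq_gcd_ab (Int.gcd (c.dt t a b p) (c.dt t b p d))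
      (Int.gcd (c.dt t p d a) (c.dt t d a b))
    have h4 : (g4 c t a b p d : ℤ) = Int.gcd (Int.gcd (c.dt t a b p) (c.dt t b p d))
      (Int.gcd (c.dt t p d a) (c.dt t d a b)) := rfl
    rw [← h4, h1, h2] at h3
    generalize Int.gcdA (c.dt t a b p) (c.dt t b p d) = q1 at h3
    generalize Int.gcdB (c.dt t a b p) (c.dt t b p d) = q2 at h3
    generalize Int.gcdA (c.dt t p d a) (c.dt t d a b) = q3 at h3
    generalize Int.gcdB (c.dt t p d a) (c.dt t d a b) = q4 at h3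
    generalize Int.gcdA (c.dt t a b p * q1 + c.dt t b p d * q2)
      (c.dt t p d a * q3 + c.dt t d a b * q4) = q5 at h3
    generalize Int.gcdB (c.dt t a b p * q1 + c.dt t b p d * q2)
      (c.dt t p d a * q3 + c.dt t d a b * q4) = q6 at h3
    rw [e1, e2] at h3
    generalize (g4 c t a b p d : ℤ) = G at *
    refine ⟨q1 * q5 + q2 * q5, q1 * q5 - q3 * q6, q1 * q5 + q4 * q6, ?_⟩
    apply mul_left_cancel₀ hG.ne'
    rw [hα, hβ', hγ, hm] at h3
    linear_combination -h3 + G * q1 * q5 * hsum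
  · rintro rfl
    rw [mul_zero] at hm
    exact hT hm

/- PROOF. Ring identity: dt d1 d2 d3 is the determinant of the matrix with rows (1, d_i, k d_i);
m_i (1, d_i, k d_i) = α_i (1, a, k a) + β_i (1, b, k b) + γ_i (1, p, k p). -/
theorem dt_bar (c : Ctx) (t : ℕ) {a b p d1 d2 d3 α1 β1 γ1 m1 α2 β2 γ2 m2 α3 β3 γ3 m3 : ℤ}
    (h1 : Bar c t a b p d1 α1 β1 γ1 m1) (h2 : Bar c t a b p d2 α2 β2 γ2 m2)
    (h3 : Bar c t a b p d3 α3 β3 γ3 m3) :
    m1 * m2 * m3 * c.dt t d1 d2 d3 = c.dt t a b p * (α1 * (β2 * γ3 - γ2 * β3) -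
      β1 * (α2 * γ3 - γ2 * α3) + γ1 * (α2 * β3 - β2 * α3)) := by
  have h : m1 * m2 * m3 * c.dt t d1 d2 d3 =
      m1 * ((m2 * d2) * (m3 * c.k t d3) - (m2 * c.k t d2) * (m3 * d3)) -
      m2 * ((m1 * d1) * (m3 * c.k t d3) - (m1 * c.k t d1) * (m3 * d3)) +
      m3 * ((m1 * d1) * (m2 * c.k t d2) - (m1 * c.k t d1) * (m2 * d2)) := by
    unfold Ctx.dt
    ring
  rw [h, h1.x, h1.k, h2.x, h2.k, h3.x, h3.k, ← h1.sum, ← h2.sum, ← h3.sum]
  unfold Ctx.dt
  ring

private theorem P3_dvd (h : ℕ) (x y z w : ℤ) :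
    h ∣ Int.gcd (Int.gcd x y) (Int.gcd z w) ↔
      (h : ℤ) ∣ x ∧ (h : ℤ) ∣ y ∧ (h : ℤ) ∣ z ∧ (h : ℤ) ∣ w := by
  rw [← Int.natCast_dvd_natCast, Int.dvd_coe_gcd_iff, Int.dvd_coe_gcd_iff, Int.dvd_coe_gcd_iff]
  tauto

private theorem P3_scale (k x y z w : ℤ) :
    k.natAbs * Int.gcd (Int.gcd x y) (Int.gcd z w) =
      Int.gcd (Int.gcd (k * x) (k * y)) (Int.gcd (k * z) (k * w)) := by
  rw [Int.gcd_mul_left, Int.gcd_mul_left, Int.gcd_natCast_natCast, Int.gcd_natCast_natCast,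
    Nat.gcd_mul_left]

/-- Two ways of writing the four numbers. -/
private theorem P3_eq (T M x1 x2 x3 x4 A1 A2 A3 A4 : ℤ) (h1 : M * A1 = T * x1 ∨ M * A1 = -(T * x1))
    (h2 : M * A2 = T * x4) (h3 : M * A3 = T * x3) (h4 : M * A4 = T * x2 ∨ M * A4 = -(T * x2)) :
    T.natAbs * Int.gcd (Int.gcd x1 x2) (Int.gcd x3 x4) =
      M.natAbs * Int.gcd (Int.gcd A1 A2) (Int.gcd A3 A4) := by
  rw [P3_scale, P3_scale, h2, h3]
  have e1 : ∀ h : ℕ, (h : ℤ) ∣ M * A1 ↔ (h : ℤ) ∣ T * x1 := by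
    intro h
    rcases h1 with h1 | h1
    · rw [h1]
    · rw [h1, dvd_neg]
  have e4 : ∀ h : ℕ, (h : ℤ) ∣ M * A4 ↔ (h : ℤ) ∣ T * x2 := by
    intro h
    rcases h4 with h4 | h4
    · rw [h4]
    · rw [h4, dvd_neg]
  apply Nat.dvd_antisymm
  · obtain ⟨f1, f2, f3, f4⟩ := (P3_dvd _ _ _ _ _).1
      (dvd_refl (Int.gcd (Int.gcd (T * x1) (T * x2)) (Int.gcd (T * x3) (T * x4))))
    exact (P3_dvd _ _ _ _ _).2 ⟨(e1 _).2 f1, f4, f3, (e4 _).2 f2⟩
  · obtain ⟨f1, f2, f3, f4⟩ := (P3_dvd _ _ _ _ _).1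
      (dvd_refl (Int.gcd (Int.gcd (M * A1) (T * x4)) (Int.gcd (T * x3) (M * A4))))
    exact (P3_dvd _ _ _ _ _).2 ⟨(e1 _).1 f1, (e4 _).1 f4, f3, f2⟩

private theorem P3_barA (c : Ctx) (t : ℕ) (a b p : ℤ) : Bar c t a b p a 1 0 0 1 :=
  ⟨by ring, by ring, by ring, ⟨1, 0, 0, by ring⟩, one_ne_zero⟩

private theorem P3_barB (c : Ctx) (t : ℕ) (a b p : ℤ) : Bar c t a b p b 0 1 0 1 :=
  ⟨by ring, by ring, by ring, ⟨0, 1, 0, by ring⟩, one_ne_zero⟩

private theorem P3_barP (c : Ctx) (t : ℕ) (a b p : ℤ) : Bar c t a b p p 0 0 1 1 :=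
  ⟨by ring, by ring, by ring, ⟨0, 0, 1, by ring⟩, one_ne_zero⟩

/-- The common divisor of the relation of two of the points `a, b, p` with `d` and `e`. -/
def gx (X m Xe me P Q : ℤ) : ℕ := Int.gcd (Int.gcd (X * me) (Xe * m)) (Int.gcd P Q)

/- PROOF. dt_bar for (a, d, e), (b, d, e), (a, b, d), (a, b, e) (with Bar for a, b: (1,0,0,1), ...):
m me dt a d e = T (β γe - γ βe), m me dt b d e = T (γ αe - α γe), m dt a b d = T γ,
me dt a b e = T γe. Multiply the last two by me, m: all four determinants of (a, b, d, e) times m me are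
T times the four numbers in gx; both sides are the gcd of the four (Int.gcd_mul_left). -/
theorem gc_eq (c : Ctx) (t : ℕ) {a b p d e α β γ m αe βe γe me : ℤ}
    (h : Bar c t a b p d α β γ m) (he : Bar c t a b p e αe βe γe me) :
    (c.dt t a b p).natAbs * gx γ m γe me (β * γe - γ * βe) (γ * αe - α * γe) =
      (m * me).natAbs * g4 c t a b d e := by
  have k1 := dt_bar c t (P3_barA c t a b p) (P3_barB c t a b p) h
  have k2 := dt_bar c t (P3_barB c t a b p) h he
  have k3 := dt_bar c t (P3_barA c t a b p) h he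
  have k4 := dt_bar c t (P3_barA c t a b p) (P3_barB c t a b p) he
  have e1 : c.dt t d e a = c.dt t a d e := dt_rot c t a d e
  have e2 : c.dt t e a b = c.dt t a b e := (dt_rot c t b e a).trans (dt_rot c t a b e)
  unfold gx g4
  refine P3_eq _ _ _ _ _ _ _ _ _ _ (Or.inl ?_) ?_ ?_ (Or.inl ?_)
  · linear_combination me * k1
  · linear_combination k2
  · rw [e1]
    linear_combination k3
  · rw [e2]
    linear_combination m * k4

/- PROOF. As gc_eq for (a, p, d, e): m me dt p d e = T (α βe - β αe), m dt a p d = - T β. -/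
theorem gb_eq (c : Ctx) (t : ℕ) {a b p d e α β γ m αe βe γe me : ℤ}
    (h : Bar c t a b p d α β γ m) (he : Bar c t a b p e αe βe γe me) :
    (c.dt t a b p).natAbs * gx β m βe me (β * γe - γ * βe) (α * βe - β * αe) =
      (m * me).natAbs * g4 c t a p d e := by
  have k1 := dt_bar c t (P3_barA c t a b p) (P3_barP c t a b p) h
  have k2 := dt_bar c t (P3_barP c t a b p) h he
  have k3 := dt_bar c t (P3_barA c t a b p) h he
  have k4 := dt_bar c t (P3_barA c t a b p) (P3_barP c t a b p) he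
  have e1 : c.dt t d e a = c.dt t a d e := dt_rot c t a d e
  have e2 : c.dt t e a p = c.dt t a p e := (dt_rot c t p e a).trans (dt_rot c t a p e)
  unfold gx g4
  refine P3_eq _ _ _ _ _ _ _ _ _ _ (Or.inr ?_) ?_ ?_ (Or.inr ?_)
  · linear_combination me * k1
  · linear_combination k2
  · rw [e1]
    linear_combination k3
  · rw [e2]
    linear_combination m * k4

/- PROOF. As gc_eq for (b, p, d, e). -/
theorem ga_eq (c : Ctx) (t : ℕ) {a b p d e α β γ m αe βe γe me : ℤ}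
    (h : Bar c t a b p d α β γ m) (he : Bar c t a b p e αe βe γe me) :
    (c.dt t a b p).natAbs * gx α m αe me (γ * αe - α * γe) (α * βe - β * αe) =
      (m * me).natAbs * g4 c t b p d e := by
  have k1 := dt_bar c t (P3_barB c t a b p) (P3_barP c t a b p) h
  have k2 := dt_bar c t (P3_barP c t a b p) h he
  have k3 := dt_bar c t (P3_barB c t a b p) h he
  have k4 := dt_bar c t (P3_barB c t a b p) (P3_barP c t a b p) he
  have e1 : c.dt t d e b = c.dt t b d e := dt_rot c t b d e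
  have e2 : c.dt t e b p = c.dt t b p e := (dt_rot c t p e b).trans (dt_rot c t b p e)
  unfold gx g4
  refine P3_eq _ _ _ _ _ _ _ _ _ _ (Or.inl ?_) ?_ ?_ (Or.inl ?_)
  · linear_combination me * k1
  · linear_combination k2
  · rw [e1]
    linear_combination k3
  · rw [e2]
    linear_combination m * k4

end Pool.Agent.MP_741d1b.All
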