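import Mathlib
import Pool.Agent.Lib.MP_741d1b_nt_all.PBar

/-!
Row P4: a lower bound for the common divisor of the four determinants of a quadruple in a class.
-/

set_option autoImplicit false

namespace Pool.Agent.MP_741d1b.All

open Finset Classical
open Pool.Agent.MP_741d1b.H87

/- PROOF. lattice and dt_bar for each of the four triples of (d1, d2, d3, d4):
(m1 m2 m3 m4) dt d1 d2 d3 = T det(v1, v2, v3) m4 is divisible by T ga gb gc; the same for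
dt d2 d3 d4 (times m1), dt d3 d4 d1, dt d4 d1 d2. So T ga gb gc divides (m1 m2 m3 m4) g4 (Bezout:
g4 is an integral combination of the four; or Int.dvd_coe_gcd with Int.gcd_mul_left). -/
theorem gcd_class (c : Ctx) (t : ℕ) {a b p : ℤ} (ga gb gc αe βe γe : ℤ)
    (he : ∃ u v w : ℤ, u * αe + v * βe + w * γe = 1)
    {d1 d2 d3 d4 α1 β1 γ1 m1 α2 β2 γ2 m2 α3 β3 γ3 m3 α4 β4 γ4 m4 : ℤ}
    (h1 : Bar c t a b p d1 α1 β1 γ1 m1) (h2 : Bar c t a b p d2 α2 β2 γ2 m2)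
    (h3 : Bar c t a b p d3 α3 β3 γ3 m3) (h4 : Bar c t a b p d4 α4 β4 γ4 m4)
    (k1 : Cls ga gb gc αe βe γe α1 β1 γ1 m1) (k2 : Cls ga gb gc αe βe γe α2 β2 γ2 m2)
    (k3 : Cls ga gb gc αe βe γe α3 β3 γ3 m3) (k4 : Cls ga gb gc αe βe γe α4 β4 γ4 m4) :
    c.dt t a b p * (ga * gb * gc) ∣ (m1 * m2 * m3 * m4) * g4 c t d1 d2 d3 d4 := by
  obtain ⟨u, v, w, h⟩ := he
  have key : ∀ {x1 x2 x3 x4 αa βa γa ma αb βb γb mb αc βc γc mc αd βd γd md : ℤ},
      Bar c t a b p x1 αa βa γa ma → Bar c t a b p x2 αb βb γb mb →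
      Bar c t a b p x3 αc βc γc mc → Bar c t a b p x4 αd βd γd md →
      Cls ga gb gc αe βe γe αa βa γa ma → Cls ga gb gc αe βe γe αb βb γb mb →
      Cls ga gb gc αe βe γe αc βc γc mc → Cls ga gb gc αe βe γe αd βd γd md →
      c.dt t a b p * (ga * gb * gc) ∣ (ma * mb * mc * md) * c.dt t x1 x2 x3 := by
    intro x1 x2 x3 x4 αa βa γa ma αb βb γb mb αc βc γc mc αd βd γd md b1 b2 b3 b4 q1 q2 q3 q4
    have e1 := dt_bar c t b1 b2 b3
    have e2 := lattice ga gb gc αe βe γe u v w h _ _ _ _ _ _ _ _ _ _ _ _ _ _ _ _ q1 q2 q3 q4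
    obtain ⟨z, hz⟩ := e2
    refine ⟨z, ?_⟩
    calc (ma * mb * mc * md) * c.dt t x1 x2 x3 = (ma * mb * mc * c.dt t x1 x2 x3) * md := by ring
      _ = c.dt t a b p * ((αa * (βb * γc - γb * βc) - βa * (αb * γc - γb * αc) +
          γa * (αb * βc - βb * αc)) * md) := by rw [e1]; ring
      _ = _ := by rw [hz]; ring
  have f1 := key h1 h2 h3 h4 k1 k2 k3 k4
  have f2 := key h2 h3 h4 h1 k2 k3 k4 k1
  have f3 := key h3 h4 h1 h2 k3 k4 k1 k2
  have f4 := key h4 h1 h2 h3 k4 k1 k2 k3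
  set K := m1 * m2 * m3 * m4 with hK
  rw [show m2 * m3 * m4 * m1 = K by rw [hK]; ring] at f2
  rw [show m3 * m4 * m1 * m2 = K by rw [hK]; ring] at f3
  rw [show m4 * m1 * m2 * m3 = K by rw [hK]; ring] at f4
  have hg : ∀ N x y : ℤ, N ∣ K * x → N ∣ K * y → N ∣ K * (Int.gcd x y : ℤ) := by
    intro N x y hx hy
    rw [Int.gcd_eq_gcd_ab]
    have e : K * (x * Int.gcdA x y + y * Int.gcdB x y) =
        K * x * Int.gcdA x y + K * y * Int.gcdB x y := by ring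
    rw [e]
    exact dvd_add (Dvd.dvd.mul_right hx _) (Dvd.dvd.mul_right hy _)
  unfold g4
  exact hg _ _ _ (hg _ _ _ f1 f2) (hg _ _ _ f3 f4)

end Pool.Agent.MP_741d1b.All
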