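import Mathlib
import Pool.Agent.Lib.MP_741d1b_nt_all.PGcd

/-!
Row P5: reference points and a large class.
-/

set_option autoImplicit false

namespace Pool.Agent.MP_741d1b.All

open Finset Classical
open Pool.Agent.MP_741d1b.H87

/-- The good fifth points. -/
def Fifth (c : Ctx) (L0 L1 t : ℕ) (ρ : ℝ) (a b p e d : ℤ) : Prop :=
  Typ c L0 L1 t a b p e ∧ Typ c L0 L1 t a b p d ∧ Typ c L0 L1 t a b d e ∧ Typ c L0 L1 t a p d e ∧
    Typ c L0 L1 t b p d e ∧ ((|a - d| : ℤ) : ℝ) ≤ ρ * ((|c.dt t a d b| : ℤ) : ℝ)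

private lemma exists_ref_count (S : Finset ℤ) (i4 : ℤ → ℤ → ℤ → ℤ → ℕ) (i3 : ℤ → ℤ → ℤ → ℕ)
    (h4 : 20 * ∑ x ∈ S, ∑ y ∈ S, ∑ z ∈ S, ∑ w ∈ S, i4 x y z w ≤ S.card ^ 4)
    (h3 : 20 * ∑ x ∈ S, ∑ y ∈ S, ∑ z ∈ S, i3 x y z ≤ S.card ^ 3) :
    20 * ∑ a ∈ S, ∑ b ∈ S, ∑ p ∈ S, ∑ e ∈ S, ∑ d ∈ S,
      (i4 a b p e + i4 a b p d + i4 a b d e + i4 a p d e + i4 b p d e + i3 a d b)
      ≤ 6 * S.card ^ 5 := by
  have e1 : ∑ a ∈ S, ∑ b ∈ S, ∑ p ∈ S, ∑ e ∈ S, ∑ d ∈ S, i4 a b p e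
      = S.card * ∑ x ∈ S, ∑ y ∈ S, ∑ z ∈ S, ∑ w ∈ S, i4 x y z w := by
    simp only [Finset.sum_const, smul_eq_mul, Finset.mul_sum]
  have e2 : ∑ a ∈ S, ∑ b ∈ S, ∑ p ∈ S, ∑ e ∈ S, ∑ d ∈ S, i4 a b p d
      = S.card * ∑ x ∈ S, ∑ y ∈ S, ∑ z ∈ S, ∑ w ∈ S, i4 x y z w := by
    simp only [Finset.sum_const, smul_eq_mul, Finset.mul_sum]
  have e3 : ∑ a ∈ S, ∑ b ∈ S, ∑ p ∈ S, ∑ e ∈ S, ∑ d ∈ S, i4 a b d e
      = S.card * ∑ x ∈ S, ∑ y ∈ S, ∑ z ∈ S, ∑ w ∈ S, i4 x y z w := by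
    simp only [Finset.sum_const, smul_eq_mul, Finset.mul_sum]
    refine Finset.sum_congr rfl fun a _ => Finset.sum_congr rfl fun b _ => ?_
    rw [Finset.sum_comm]
  have e4 : ∑ a ∈ S, ∑ b ∈ S, ∑ p ∈ S, ∑ e ∈ S, ∑ d ∈ S, i4 a p d e
      = S.card * ∑ x ∈ S, ∑ y ∈ S, ∑ z ∈ S, ∑ w ∈ S, i4 x y z w := by
    simp only [Finset.sum_const, smul_eq_mul, Finset.mul_sum]
    refine Finset.sum_congr rfl fun a _ => Finset.sum_congr rfl fun b _ => ?_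
    rw [Finset.sum_comm]
  have e5 : ∑ a ∈ S, ∑ b ∈ S, ∑ p ∈ S, ∑ e ∈ S, ∑ d ∈ S, i4 b p d e
      = S.card * ∑ x ∈ S, ∑ y ∈ S, ∑ z ∈ S, ∑ w ∈ S, i4 x y z w := by
    simp only [Finset.sum_const, smul_eq_mul, Finset.mul_sum]
    refine Finset.sum_congr rfl fun a _ => Finset.sum_congr rfl fun b _ => ?_
    rw [Finset.sum_comm]
  have e6 : ∑ a ∈ S, ∑ b ∈ S, ∑ p ∈ S, ∑ e ∈ S, ∑ d ∈ S, i3 a d b
      = S.card ^ 2 * ∑ x ∈ S, ∑ y ∈ S, ∑ z ∈ S, i3 x y z := by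
    simp only [Finset.sum_const, smul_eq_mul, Finset.mul_sum]
    refine Finset.sum_congr rfl fun a _ => ?_
    rw [Finset.sum_comm]
    refine Finset.sum_congr rfl fun b _ => Finset.sum_congr rfl fun d _ => ?_
    ring
  have hsum : ∑ a ∈ S, ∑ b ∈ S, ∑ p ∈ S, ∑ e ∈ S, ∑ d ∈ S,
      (i4 a b p e + i4 a b p d + i4 a b d e + i4 a p d e + i4 b p d e + i3 a d b)
      = 5 * (S.card * ∑ x ∈ S, ∑ y ∈ S, ∑ z ∈ S, ∑ w ∈ S, i4 x y z w)
        + S.card ^ 2 * ∑ x ∈ S, ∑ y ∈ S, ∑ z ∈ S, i3 x y z := by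
    simp only [Finset.sum_add_distrib]
    rw [e1, e2, e3, e4, e5, e6]
    ring
  rw [hsum]
  have k1 := Nat.mul_le_mul_left (5 * S.card) h4
  have k2 := Nat.mul_le_mul_left (S.card ^ 2) h3
  have e7 : 5 * S.card * S.card ^ 4 = 5 * S.card ^ 5 := by ring
  have e8 : S.card ^ 2 * S.card ^ 3 = S.card ^ 5 := by ring
  rw [e7] at k1
  rw [e8] at k2
  calc 20 * (5 * (S.card * ∑ x ∈ S, ∑ y ∈ S, ∑ z ∈ S, ∑ w ∈ S, i4 x y z w)
        + S.card ^ 2 * ∑ x ∈ S, ∑ y ∈ S, ∑ z ∈ S, i3 x y z)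
      = 5 * S.card * (20 * ∑ x ∈ S, ∑ y ∈ S, ∑ z ∈ S, ∑ w ∈ S, i4 x y z w)
        + S.card ^ 2 * (20 * ∑ x ∈ S, ∑ y ∈ S, ∑ z ∈ S, i3 x y z) := by ring
    _ ≤ 5 * S.card ^ 5 + S.card ^ 5 := Nat.add_le_add k1 k2
    _ = 6 * S.card ^ 5 := by ring

/- PROOF. In S⁵ each of the six conditions fails for at most card S ^ 5 / 20 5-tuples (the others
coordinates are free); if every (a, b, p, e) had fewer than card S / 2 good d, more than half of the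
5-tuples would be bad, but at most 6/20 are. -/
theorem exists_ref (c : Ctx) (L0 L1 t : ℕ) (ρ : ℝ) (S1 : Finset ℤ) (hpos : 0 < S1.card)
    (h4 : 20 * (((S1 ×ˢ S1) ×ˢ (S1 ×ˢ S1)).filter
      (fun z => ¬ Typ c L0 L1 t z.1.1 z.1.2 z.2.1 z.2.2)).card ≤ S1.card ^ 4)
    (h3 : 20 * ((S1 ×ˢ S1 ×ˢ S1).filter
      (fun z => ¬ ((|z.1 - z.2.1| : ℤ) : ℝ) ≤ ρ * ((|c.dt t z.1 z.2.1 z.2.2| : ℤ) : ℝ))).card ≤
        S1.card ^ 3) :
    ∃ a ∈ S1, ∃ b ∈ S1, ∃ p ∈ S1, ∃ e ∈ S1,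
      S1.card ≤ 2 * (S1.filter (fun d => Fifth c L0 L1 t ρ a b p e d)).card := by
  by_contra hcon
  push Not at hcon
  set i4 : ℤ → ℤ → ℤ → ℤ → ℕ := fun x y z w => if ¬ Typ c L0 L1 t x y z w then 1 else 0 with hi4
  set i3 : ℤ → ℤ → ℤ → ℕ := fun x y z =>
    if ¬ ((|x - y| : ℤ) : ℝ) ≤ ρ * ((|c.dt t x y z| : ℤ) : ℝ) then 1 else 0 with hi3
  have h4' : 20 * ∑ x ∈ S1, ∑ y ∈ S1, ∑ z ∈ S1, ∑ w ∈ S1, i4 x y z w ≤ S1.card ^ 4 := by
    rw [Finset.card_filter, Finset.sum_product, Finset.sum_product] at h4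
    simp only [Finset.sum_product] at h4
    exact h4
  have h3' : 20 * ∑ x ∈ S1, ∑ y ∈ S1, ∑ z ∈ S1, i3 x y z ≤ S1.card ^ 3 := by
    rw [Finset.card_filter, Finset.sum_product] at h3
    simp only [Finset.sum_product] at h3
    exact h3
  have hc := exists_ref_count S1 i4 i3 h4' h3'
  have hpt : ∀ a b p e d : ℤ, (if ¬ Fifth c L0 L1 t ρ a b p e d then 1 else 0 : ℕ) ≤
      i4 a b p e + i4 a b p d + i4 a b d e + i4 a p d e + i4 b p d e + i3 a d b := by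
    intro a b p e d
    by_cases hF : Fifth c L0 L1 t ρ a b p e d
    · rw [if_neg (not_not.mpr hF)]
      exact Nat.zero_le _
    · rw [if_pos hF]
      by_contra hlt
      apply hF
      have z1 : i4 a b p e = 0 := by omega
      have z2 : i4 a b p d = 0 := by omega
      have z3 : i4 a b d e = 0 := by omega
      have z4 : i4 a p d e = 0 := by omega
      have z5 : i4 b p d e = 0 := by omega
      have z6 : i3 a d b = 0 := by omega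
      have key : ∀ x y z w, i4 x y z w = 0 → Typ c L0 L1 t x y z w := by
        intro x y z w h
        by_contra h'
        rw [hi4] at h
        simp only [if_pos h'] at h
        omega
      refine ⟨key _ _ _ _ z1, key _ _ _ _ z2, key _ _ _ _ z3, key _ _ _ _ z4, key _ _ _ _ z5, ?_⟩
      by_contra h'
      rw [hi3] at z6
      simp only [if_pos h'] at z6
      omega
  have hlow : ∀ a ∈ S1, ∀ b ∈ S1, ∀ p ∈ S1, ∀ e ∈ S1,
      S1.card + 1 ≤ 2 * ∑ d ∈ S1,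
        (i4 a b p e + i4 a b p d + i4 a b d e + i4 a p d e + i4 b p d e + i3 a d b) := by
    intro a ha b hb p hp e he
    have h1 := hcon a ha b hb p hp e he
    have h2 := Finset.card_filter_add_card_filter_not (s := S1)
      (fun d => Fifth c L0 L1 t ρ a b p e d)
    have h5 : (S1.filter (fun d => ¬ Fifth c L0 L1 t ρ a b p e d)).card ≤ ∑ d ∈ S1,
        (i4 a b p e + i4 a b p d + i4 a b d e + i4 a p d e + i4 b p d e + i3 a d b) := by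
      rw [Finset.card_filter]
      exact Finset.sum_le_sum fun d _ => hpt a b p e d
    omega
  have hbig : S1.card ^ 4 * (S1.card + 1) ≤ 2 * ∑ a ∈ S1, ∑ b ∈ S1, ∑ p ∈ S1, ∑ e ∈ S1,
      ∑ d ∈ S1,
        (i4 a b p e + i4 a b p d + i4 a b d e + i4 a p d e + i4 b p d e + i3 a d b) := by
    have hconst : ∑ a ∈ S1, ∑ b ∈ S1, ∑ p ∈ S1, ∑ e ∈ S1, (S1.card + 1)
        = S1.card ^ 4 * (S1.card + 1) := by
      simp only [Finset.sum_const, smul_eq_mul]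
      ring
    rw [← hconst]
    simp only [Finset.mul_sum]
    refine Finset.sum_le_sum fun a ha => Finset.sum_le_sum fun b hb =>
      Finset.sum_le_sum fun p hp => Finset.sum_le_sum fun e he => ?_
    have := hlow a ha b hb p hp e he
    rwa [Finset.mul_sum] at this
  have h6 : S1.card ^ 4 * (S1.card + 1) = S1.card ^ 5 + S1.card ^ 4 := by ring
  have h7 : 0 < S1.card ^ 4 := by positivity
  rw [h6] at hbig
  omega

end Pool.Agent.MP_741d1b.All
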