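import Mathlib
import Pool.Agent.Lib.MP_741d1b_nt_all.PFind

/-!
Row P6: a large class with a lower bound for all common divisors.
-/

set_option autoImplicit false

namespace Pool.Agent.MP_741d1b.All

open Finset Classical
open Pool.Agent.MP_741d1b.H87

private theorem pc_gx_dvd (X m Xe me P Q : ℤ) : (gx X m Xe me P Q : ℤ) ∣ X * me ∧
    (gx X m Xe me P Q : ℤ) ∣ Xe * m ∧ (gx X m Xe me P Q : ℤ) ∣ P ∧
    (gx X m Xe me P Q : ℤ) ∣ Q := by
  unfold gx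
  exact ⟨(Int.gcd_dvd_left _ _).trans (Int.gcd_dvd_left _ _),
    (Int.gcd_dvd_left _ _).trans (Int.gcd_dvd_right _ _),
    (Int.gcd_dvd_right _ _).trans (Int.gcd_dvd_left _ _),
    (Int.gcd_dvd_right _ _).trans (Int.gcd_dvd_right _ _)⟩

private theorem pc_cancel {L0 L1 G : ℕ} (hG : 0 < G) {X ξ : ℤ} (hX : |X| = G * |ξ|)
    (h1 : (L1 : ℤ) * G < |X|) (h2 : |X| ≤ L0 * G) : (L1 : ℤ) < |ξ| ∧ |ξ| ≤ L0 := by
  have hG' : (0 : ℤ) < G := by exact_mod_cast hG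
  rw [hX] at h1 h2
  rw [mul_comm (G : ℤ)] at h1 h2
  exact ⟨lt_of_mul_lt_mul_right h1 hG'.le, le_of_mul_le_mul_right h2 hG'⟩

/-- The coordinates of a typical point. -/
private theorem pc_coord (c : Ctx) {L0 L1 t : ℕ} {a b p d α β γ m : ℤ}
    (h : Typ c L0 L1 t a b p d) (h1 : c.dt t b p d = g4 c t a b p d * α)
    (h2 : c.dt t a p d = -(g4 c t a b p d * β)) (h3 : c.dt t a b d = g4 c t a b p d * γ)
    (h4 : c.dt t a b p = g4 c t a b p d * m) :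
    ((L1 : ℤ) < |α| ∧ |α| ≤ L0) ∧ ((L1 : ℤ) < |β| ∧ |β| ≤ L0) ∧
      ((L1 : ℤ) < |γ| ∧ |γ| ≤ L0) ∧ ((L1 : ℤ) < |m| ∧ |m| ≤ L0) := by
  obtain ⟨k1, k2, k3, k4⟩ := h
  have hG := g4_pos c t a b p d k1.1
  have e2 : g4 c t b p d a = g4 c t a b p d := g4_rot c t a b p d
  have e3 : g4 c t p d a b = g4 c t a b p d := (g4_rot c t b p d a).trans e2
  have e4 : g4 c t d a b p = g4 c t a b p d := (g4_rot c t p d a b).trans e3
  have f3 : c.dt t p d a = c.dt t a p d := dt_rot c t a p d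
  have f4 : c.dt t d a b = c.dt t a b d := (dt_rot c t d a b).symm
  have hGa : |((g4 c t a b p d : ℕ) : ℤ)| = g4 c t a b p d := Nat.abs_cast _
  refine ⟨?_, ?_, ?_, ?_⟩
  · refine pc_cancel hG (X := c.dt t b p d) ?_ ?_ ?_
    · rw [h1, abs_mul, hGa]
    · have := k2.2.1
      rwa [e2] at this
    · have := k2.2.2
      rwa [e2] at this
  · refine pc_cancel hG (X := c.dt t a p d) ?_ ?_ ?_
    · rw [h2, abs_neg, abs_mul, hGa]
    · have := k3.2.1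
      rwa [e3, f3] at this
    · have := k3.2.2
      rwa [e3, f3] at this
  · refine pc_cancel hG (X := c.dt t a b d) ?_ ?_ ?_
    · rw [h3, abs_mul, hGa]
    · have := k4.2.1
      rwa [e4, f4] at this
    · have := k4.2.2
      rwa [e4, f4] at this
  · refine pc_cancel hG (X := c.dt t a b p) ?_ k1.2.1 k1.2.2
    rw [h4, abs_mul, hGa]

/-- The lower bound for the common divisors. -/
private theorem pc_low {L0 L1 g' gcn : ℕ} {X T ξ m me : ℤ} (hT : T ≠ 0)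
    (hX : |X| * |m| = |T| * |ξ|) (hg : |X| ≤ L0 * g')
    (heq : T.natAbs * gcn = (m * me).natAbs * g') (h1 : (L1 : ℤ) < |ξ|) (h2 : (L1 : ℤ) < |me|) :
    (L1 : ℤ) ^ 2 ≤ L0 * gcn := by
  have hT0 : 0 < |T| := abs_pos.mpr hT
  have heq' : |T| * gcn = |m| * |me| * g' := by
    have : ((T.natAbs * gcn : ℕ) : ℤ) = (((m * me).natAbs * g' : ℕ) : ℤ) := by rw [heq]
    push_cast at this
    rwa [abs_mul] at this
  have h3 : |T| * (|ξ| * |me|) ≤ |T| * (L0 * gcn) := by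
    calc |T| * (|ξ| * |me|) = |X| * |m| * |me| := by rw [hX]; ring
      _ = |X| * (|m| * |me|) := by ring
      _ ≤ L0 * g' * (|m| * |me|) := mul_le_mul_of_nonneg_right hg (by positivity)
      _ = L0 * (|m| * |me| * g') := by ring
      _ = |T| * (L0 * gcn) := by rw [← heq']; ring
  have h4 := le_of_mul_le_mul_left h3 hT0
  refine le_trans ?_ h4
  have h5 : (0 : ℤ) ≤ L1 := by positivity
  nlinarith

/-- A divisor of the product of two numbers of size at most `L0`. -/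
private theorem pc_div (n L0 : ℕ) {q : ℝ} (hb : Nb n q) (hL0 : L0 ≤ n ^ 4) {x y : ℤ}
    (hx : |x| ≤ L0) (hy : |y| ≤ L0) (hx0 : x ≠ 0) (hy0 : y ≠ 0) :
    ((x * y).natAbs.divisors.card : ℝ) ≤ q := by
  refine hb.hdiv _ (Int.natAbs_pos.mpr (mul_ne_zero hx0 hy0)) ?_
  rw [Int.natAbs_mul]
  have h1 : x.natAbs ≤ L0 := by
    rw [Int.abs_eq_natAbs] at hx
    exact_mod_cast hx
  have h2 : y.natAbs ≤ L0 := by
    rw [Int.abs_eq_natAbs] at hy
    exact_mod_cast hy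
  calc x.natAbs * y.natAbs ≤ n ^ 4 * n ^ 4 := Nat.mul_le_mul (h1.trans hL0) (h2.trans hL0)
    _ = n ^ 8 := by ring

/- PROOF. exists_ref: a, b, p, e; good d = those with Fifth. T = dt a b p ≠ 0 (Typ a b p d). By
bar_exists choose coordinates (αe, βe, γe, me) of e and (α, β, γ, m) of every good d (choose a
function). Typ a b p d: |dt b p d| = G |α| etc., G = g4 a b p d > 0, so L1 < |α|, |β|, |γ|, |m| ≤ L0;
the same for e. Put gc = gx γ m γe me (β γe - γ βe) (γ αe - α γe), gb, ga as in gb_eq, ga_eq.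
(1) Typ a b d e gives |dt a b d| ≤ L0 * g4 a b d e; with |dt a b d| |m| = |T| |γ| and gc_eq:
|T| |γ me| = |dt a b d| |m me| ≤ L0 * g4 a b d e * |m me| = L0 |T| gc, so L1² ≤ L0 * gc; the same for
gb (Typ a p d e, dt a p d) and ga (Typ b p d e, dt b p d).
(2) gc ∣ γe me (dvd_ref), so gc is a divisor of |γe me| ≤ L0² ≤ n ^ 8: at most q values; in the same way
gb ∣ βe me, ga ∣ αe me. Pigeonhole: C' ⊆ good, card good ≤ q³ card C', on which (ga, gb, gc) is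
constant. The class conditions Cls ga gb gc αe βe γe α β γ m hold for d ∈ C' (all are divisibilities
by the gcd gx; signs).
(3) Γ = |T| L1^6 / L0^7: gcd_class: |T| ga gb gc ≤ |m1 m2 m3 m4| g4 ≤ L0⁴ g4 (g4 > 0 since
dt d1 d2 d3 ≠ 0), and ga gb gc ≥ (L1² / L0)³.
(4) |a - d| ≤ ρ |dt a d b| = ρ |T| |γ| / |m| ≤ ρ |T| L0 / L1, |x - y| ≤ 2 ρ |T| L0 / L1 =
2 ρ (L0^8 / L1^7) Γ. -/
theorem find_class (c : Ctx) {q : ℝ} (hb : Nb c.n q) (L0 L1 t : ℕ) (ρ : ℝ) (hρ : 0 ≤ ρ)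
    (hL1 : 1 ≤ L1) (hL01 : L1 ≤ L0) (hL0 : L0 ≤ c.n ^ 4) (S1 : Finset ℤ) (hpos : 0 < S1.card)
    (h4 : 20 * (((S1 ×ˢ S1) ×ˢ (S1 ×ˢ S1)).filter
      (fun z => ¬ Typ c L0 L1 t z.1.1 z.1.2 z.2.1 z.2.2)).card ≤ S1.card ^ 4)
    (h3 : 20 * ((S1 ×ˢ S1 ×ˢ S1).filter
      (fun z => ¬ ((|z.1 - z.2.1| : ℤ) : ℝ) ≤ ρ * ((|c.dt t z.1 z.2.1 z.2.2| : ℤ) : ℝ))).card ≤
        S1.card ^ 3) :
    ∃ C' ⊆ S1, ∃ Γ : ℝ, 0 < Γ ∧ (S1.card : ℝ) ≤ 2 * q ^ 3 * C'.card ∧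
      (∀ x ∈ C', ∀ y ∈ C', |((x - y : ℤ) : ℝ)| ≤ 2 * ρ * ((L0 : ℝ) ^ 8 / (L1 : ℝ) ^ 7) * Γ) ∧
      ∀ x ∈ C', ∀ y ∈ C', ∀ z ∈ C', ∀ w ∈ C', c.dt t x y z ≠ 0 → Γ ≤ (g4 c t x y z w : ℝ) := by
  obtain ⟨a, ha, b, hbS, p, hp, e, he, hgood⟩ := exists_ref c L0 L1 t ρ S1 hpos h4 h3
  set good := S1.filter (fun d => Fifth c L0 L1 t ρ a b p e d) with hgd
  have hgpos : 0 < good.card := by omega
  have hq0 := hb.q_pos
  obtain ⟨d0, hd0⟩ := card_pos.mp hgpos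
  have hF : ∀ d ∈ good, Fifth c L0 L1 t ρ a b p e d := fun d hd => (mem_filter.mp hd).2
  have hTe : Typ c L0 L1 t a b p e := (hF d0 hd0).1
  have hT : c.dt t a b p ≠ 0 := hTe.1.1
  set T := c.dt t a b p with hTdef
  choose α β γ m hBar hα hβ hγ hm using fun d => bar_exists c t hT d
  obtain ⟨⟨eα1, eα2⟩, ⟨eβ1, eβ2⟩, ⟨eγ1, eγ2⟩, ⟨em1, em2⟩⟩ :=
    pc_coord c hTe (hα e) (hβ e) (hγ e) (hm e)
  have hco : ∀ d ∈ good, ((L1 : ℤ) < |α d| ∧ |α d| ≤ L0) ∧ ((L1 : ℤ) < |β d| ∧ |β d| ≤ L0) ∧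
      ((L1 : ℤ) < |γ d| ∧ |γ d| ≤ L0) ∧ ((L1 : ℤ) < |m d| ∧ |m d| ≤ L0) := fun d hd =>
    pc_coord c (hF d hd).2.1 (hα d) (hβ d) (hγ d) (hm d)
  have hne : ∀ {x : ℤ}, (L1 : ℤ) < |x| → x ≠ 0 := by
    intro x hx h0
    rw [h0, abs_zero] at hx
    omega
  -- the common divisors
  set gC : ℤ → ℕ := fun d => gx (γ d) (m d) (γ e) (m e) (β d * γ e - γ d * β e)
    (γ d * α e - α d * γ e) with hgC
  set gB : ℤ → ℕ := fun d => gx (β d) (m d) (β e) (m e) (β d * γ e - γ d * β e)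
    (α d * β e - β d * α e) with hgB
  set gA : ℤ → ℕ := fun d => gx (α d) (m d) (α e) (m e) (γ d * α e - α d * γ e)
    (α d * β e - β d * α e) with hgA
  have hCd : ∀ d, (gC d : ℤ) ∣ γ d * m e ∧ (gC d : ℤ) ∣ γ e * m d ∧
      (gC d : ℤ) ∣ β d * γ e - γ d * β e ∧ (gC d : ℤ) ∣ γ d * α e - α d * γ e :=
    fun d => pc_gx_dvd _ _ _ _ _ _
  have hBd : ∀ d, (gB d : ℤ) ∣ β d * m e ∧ (gB d : ℤ) ∣ β e * m d ∧
      (gB d : ℤ) ∣ β d * γ e - γ d * β e ∧ (gB d : ℤ) ∣ α d * β e - β d * α e :=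
    fun d => pc_gx_dvd _ _ _ _ _ _
  have hAd : ∀ d, (gA d : ℤ) ∣ α d * m e ∧ (gA d : ℤ) ∣ α e * m d ∧
      (gA d : ℤ) ∣ γ d * α e - α d * γ e ∧ (gA d : ℤ) ∣ α d * β e - β d * α e :=
    fun d => pc_gx_dvd _ _ _ _ _ _
  -- absolute values of the determinants
  have hmT : ∀ d, |T| = |((g4 c t a b p d : ℕ) : ℤ)| * |m d| := by
    intro d
    rw [← abs_mul, ← hm d]
  have hX1 : ∀ d, |c.dt t b p d| * |m d| = |T| * |α d| := by
    intro d
    rw [hmT d, hα d, abs_mul]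
    ring
  have hX2 : ∀ d, |c.dt t a p d| * |m d| = |T| * |β d| := by
    intro d
    rw [hmT d, hβ d, abs_neg, abs_mul]
    ring
  have hX3 : ∀ d, |c.dt t a b d| * |m d| = |T| * |γ d| := by
    intro d
    rw [hmT d, hγ d, abs_mul]
    ring
  have hlowC : ∀ d ∈ good, (L1 : ℤ) ^ 2 ≤ L0 * gC d := by
    intro d hd
    exact pc_low hT (hX3 d) (hF d hd).2.2.1.1.2.2 (gc_eq c t (hBar d) (hBar e))
      (hco d hd).2.2.1.1 em1
  have hlowB : ∀ d ∈ good, (L1 : ℤ) ^ 2 ≤ L0 * gB d := by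
    intro d hd
    exact pc_low hT (hX2 d) (hF d hd).2.2.2.1.1.2.2 (gb_eq c t (hBar d) (hBar e))
      (hco d hd).2.1.1 em1
  have hlowA : ∀ d ∈ good, (L1 : ℤ) ^ 2 ≤ L0 * gA d := by
    intro d hd
    exact pc_low hT (hX1 d) (hF d hd).2.2.2.2.1.1.2.2 (ga_eq c t (hBar d) (hBar e))
      (hco d hd).1.1 em1
  -- few values
  set Dv : Finset (ℕ × ℕ × ℕ) := (α e * m e).natAbs.divisors ×ˢ
    ((β e * m e).natAbs.divisors ×ˢ (γ e * m e).natAbs.divisors) with hDv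
  have hDvc : (Dv.card : ℝ) ≤ q ^ 3 := by
    have k1 := pc_div c.n L0 hb hL0 eα2 em2 (hne eα1) (hne em1)
    have k2 := pc_div c.n L0 hb hL0 eβ2 em2 (hne eβ1) (hne em1)
    have k3 := pc_div c.n L0 hb hL0 eγ2 em2 (hne eγ1) (hne em1)
    rw [hDv, card_product, card_product]
    push_cast
    calc ((α e * m e).natAbs.divisors.card : ℝ) * (((β e * m e).natAbs.divisors.card : ℝ) *
        ((γ e * m e).natAbs.divisors.card : ℝ)) ≤ q * (q * q) := by gcongr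
      _ = q ^ 3 := by ring
  have hmaps : ∀ d ∈ good, (gA d, gB d, gC d) ∈ Dv := by
    intro d hd
    obtain ⟨u, v, w, huvw⟩ := (hBar d).prim
    obtain ⟨c1, c2, c3, c4⟩ := hCd d
    obtain ⟨b1, b2, b3, b4⟩ := hBd d
    obtain ⟨a1, a2, a3, a4⟩ := hAd d
    have dC : (gC d : ℤ) ∣ γ e * m e := by
      refine dvd_ref (gC d) (α e) (β e) (γ e) (m e) (α d) (β d) (γ d) u v w huvw ?_ ?_ c1
      · have e1 : α d * γ e - α e * γ d = -(γ d * α e - α d * γ e) := by ring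
        rw [e1]
        exact (dvd_neg).mpr c4
      · have e1 : β d * γ e - β e * γ d = β d * γ e - γ d * β e := by ring
        rw [e1]
        exact c3
    have dB : (gB d : ℤ) ∣ β e * m e := by
      refine dvd_ref (gB d) (α e) (γ e) (β e) (m e) (α d) (γ d) (β d) u w v ?_ ?_ ?_ b1
      · rw [← huvw]; ring
      · have e1 : α d * β e - α e * β d = α d * β e - β d * α e := by ring
        rw [e1]
        exact b4
      · have e1 : γ d * β e - γ e * β d = -(β d * γ e - γ d * β e) := by ring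
        rw [e1]
        exact (dvd_neg).mpr b3
    have dA : (gA d : ℤ) ∣ α e * m e := by
      refine dvd_ref (gA d) (γ e) (β e) (α e) (m e) (γ d) (β d) (α d) w v u ?_ ?_ ?_ a1
      · rw [← huvw]; ring
      · have e1 : γ d * α e - γ e * α d = γ d * α e - α d * γ e := by ring
        rw [e1]
        exact a3
      · have e1 : β d * α e - β e * α d = -(α d * β e - β d * α e) := by ring
        rw [e1]
        exact (dvd_neg).mpr a4
    rw [hDv, mem_product, mem_product, Nat.mem_divisors, Nat.mem_divisors, Nat.mem_divisors]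
    refine ⟨⟨Int.natCast_dvd.mp dA, ?_⟩, ⟨Int.natCast_dvd.mp dB, ?_⟩, ⟨Int.natCast_dvd.mp dC, ?_⟩⟩
    · exact Int.natAbs_ne_zero.mpr (mul_ne_zero (hne eα1) (hne em1))
    · exact Int.natAbs_ne_zero.mpr (mul_ne_zero (hne eβ1) (hne em1))
    · exact Int.natAbs_ne_zero.mpr (mul_ne_zero (hne eγ1) (hne em1))
  have hDvne : Dv.Nonempty := ⟨_, hmaps d0 hd0⟩
  have hDvpos : (0 : ℝ) < Dv.card := by exact_mod_cast hDvne.card_pos
  obtain ⟨y, hy, hyc⟩ := Finset.exists_le_card_fiber_of_nsmul_le_card_of_maps_to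
    (M := ℝ) (b := (good.card : ℝ) / Dv.card) hmaps hDvne (by
      rw [nsmul_eq_mul, mul_div_cancel₀ _ hDvpos.ne'])
  set C' := good.filter (fun d => (gA d, gB d, gC d) = y) with hC'
  obtain ⟨ya, yb, yc⟩ := y
  have hC'g : ∀ d ∈ C', d ∈ good := fun d hd => (mem_filter.mp hd).1
  have hC'y : ∀ d ∈ C', gA d = ya ∧ gB d = yb ∧ gC d = yc := by
    intro d hd
    have := (mem_filter.mp hd).2
    simpa using this
  have hL1' : (1 : ℝ) ≤ L1 := by exact_mod_cast hL1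
  have hL1p : (0 : ℝ) < L1 := by linarith
  have hL0p : (0 : ℝ) < L0 := lt_of_lt_of_le hL1p (by exact_mod_cast hL01)
  have hT0 : 0 < |T| := abs_pos.mpr hT
  have hTr : (0 : ℝ) < ((|T| : ℤ) : ℝ) := by exact_mod_cast hT0
  refine ⟨C', ?_, ((|T| : ℤ) : ℝ) * (L1 : ℝ) ^ 6 / (L0 : ℝ) ^ 7, by positivity, ?_, ?_, ?_⟩
  · exact fun d hd => (mem_filter.mp (hC'g d hd)).1
  · have k1 : (good.card : ℝ) ≤ q ^ 3 * C'.card := by
      rw [div_le_iff₀ hDvpos] at hyc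
      calc (good.card : ℝ) ≤ C'.card * Dv.card := hyc
        _ ≤ C'.card * q ^ 3 := mul_le_mul_of_nonneg_left hDvc (Nat.cast_nonneg _)
        _ = _ := by ring
    have k2 : (S1.card : ℝ) ≤ 2 * good.card := by exact_mod_cast hgood
    calc (S1.card : ℝ) ≤ 2 * good.card := k2
      _ ≤ 2 * (q ^ 3 * C'.card) := by linarith
      _ = _ := by ring
  · -- the diameter
    have hdia : ∀ x ∈ C', |((a - x : ℤ) : ℝ)| ≤ ρ * (((|T| : ℤ) : ℝ) * (L0 / L1)) := by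
      intro x hx
      have hxg := hC'g x hx
      have k1 := (hF x hxg).2.2.2.2.2
      have k2 : |c.dt t a x b| = |c.dt t a b x| := by
        rw [dt_swap c t a b x, abs_neg]
      have k3 : ((|c.dt t a b x| : ℤ) : ℝ) ≤ ((|T| : ℤ) : ℝ) * (L0 / L1) := by
        have k4 := hX3 x
        have k5 : ((|c.dt t a b x| : ℤ) : ℝ) * ((|m x| : ℤ) : ℝ) =
            ((|T| : ℤ) : ℝ) * ((|γ x| : ℤ) : ℝ) := by exact_mod_cast k4
        have k6 : (L1 : ℝ) ≤ ((|m x| : ℤ) : ℝ) := by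
          have := (hco x hxg).2.2.2.1
          exact_mod_cast this.le
        have k7 : ((|γ x| : ℤ) : ℝ) ≤ L0 := by
          have := (hco x hxg).2.2.1.2
          exact_mod_cast this
        have k8 : (0 : ℝ) ≤ ((|c.dt t a b x| : ℤ) : ℝ) := by
          have : 0 ≤ |c.dt t a b x| := abs_nonneg _
          exact_mod_cast this
        rw [← mul_div_assoc, le_div_iff₀ hL1p]
        calc ((|c.dt t a b x| : ℤ) : ℝ) * L1 ≤
            ((|c.dt t a b x| : ℤ) : ℝ) * ((|m x| : ℤ) : ℝ) := mul_le_mul_of_nonneg_left k6 k8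
          _ = ((|T| : ℤ) : ℝ) * ((|γ x| : ℤ) : ℝ) := k5
          _ ≤ _ := mul_le_mul_of_nonneg_left k7 hTr.le
      rw [k2] at k1
      have k9 : |((a - x : ℤ) : ℝ)| = ((|a - x| : ℤ) : ℝ) := by push_cast; rfl
      rw [k9]
      exact k1.trans (mul_le_mul_of_nonneg_left k3 hρ)
    intro x hx z hz
    have e1 : ((x - z : ℤ) : ℝ) = ((a - z : ℤ) : ℝ) - ((a - x : ℤ) : ℝ) := by push_cast; ring
    rw [e1]
    calc |((a - z : ℤ) : ℝ) - ((a - x : ℤ) : ℝ)| ≤ |((a - z : ℤ) : ℝ)| + |((a - x : ℤ) : ℝ)| :=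
          abs_sub _ _
      _ ≤ ρ * (((|T| : ℤ) : ℝ) * (L0 / L1)) + ρ * (((|T| : ℤ) : ℝ) * (L0 / L1)) :=
          add_le_add (hdia z hz) (hdia x hx)
      _ = 2 * ρ * ((L0 : ℝ) ^ 8 / (L1 : ℝ) ^ 7) *
          (((|T| : ℤ) : ℝ) * (L1 : ℝ) ^ 6 / (L0 : ℝ) ^ 7) := by
          field_simp
          ring
  · intro x hx y hy' z hz w hw hdt
    have hcls : ∀ d ∈ C', Cls ya yb yc (α e) (β e) (γ e) (α d) (β d) (γ d) (m d) := by
      intro d hd
      obtain ⟨r1, r2, r3⟩ := hC'y d hd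
      obtain ⟨c1, c2, c3, c4⟩ := hCd d
      obtain ⟨b1, b2, b3, b4⟩ := hBd d
      obtain ⟨a1, a2, a3, a4⟩ := hAd d
      rw [r1] at a1 a2 a3 a4
      rw [r2] at b1 b2 b3 b4
      rw [r3] at c1 c2 c3 c4
      refine ⟨?_, ?_, c2, ?_, ?_, b2, ?_, ?_, a2⟩
      · have e1 : α d * γ e - α e * γ d = -(γ d * α e - α d * γ e) := by ring
        rw [e1]
        exact (dvd_neg).mpr c4
      · have e1 : β d * γ e - β e * γ d = β d * γ e - γ d * β e := by ring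
        rw [e1]
        exact c3
      · have e1 : α d * β e - α e * β d = α d * β e - β d * α e := by ring
        rw [e1]
        exact b4
      · have e1 : γ d * β e - γ e * β d = -(β d * γ e - γ d * β e) := by ring
        rw [e1]
        exact (dvd_neg).mpr b3
      · have e1 : β d * α e - β e * α d = -(α d * β e - β d * α e) := by ring
        rw [e1]
        exact (dvd_neg).mpr a4
      · have e1 : γ d * α e - γ e * α d = γ d * α e - α d * γ e := by ring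
        rw [e1]
        exact a3
    have hdv := gcd_class c t (ya : ℤ) yb yc (α e) (β e) (γ e) (hBar e).prim (hBar x) (hBar y)
      (hBar z) (hBar w) (hcls x hx) (hcls y hy') (hcls z hz) (hcls w hw)
    have hg4 := g4_pos c t x y z w hdt
    have hg4' : (0 : ℤ) < g4 c t x y z w := by exact_mod_cast hg4
    have hrne : (m x * m y * m z * m w) * (g4 c t x y z w : ℤ) ≠ 0 :=
      mul_ne_zero (mul_ne_zero (mul_ne_zero (mul_ne_zero (hBar x).ne (hBar y).ne) (hBar z).ne)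
        (hBar w).ne) hg4'.ne'
    have h5 := Int.le_of_dvd (abs_pos.mpr hrne) ((abs_dvd_abs _ _).mpr hdv)
    have h6 : |T| * ((ya : ℤ) * yb * yc) ≤ (|m x| * |m y| * |m z| * |m w|) *
        (g4 c t x y z w : ℤ) := by
      have e1 : |c.dt t a b p * ((ya : ℤ) * yb * yc)| = |T| * ((ya : ℤ) * yb * yc) := by
        rw [abs_mul, ← hTdef]
        congr 1
        exact abs_of_nonneg (by positivity)
      have e2 : |(m x * m y * m z * m w) * (g4 c t x y z w : ℤ)| =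
          (|m x| * |m y| * |m z| * |m w|) * (g4 c t x y z w : ℤ) := by
        rw [abs_mul, abs_mul, abs_mul, abs_mul, abs_of_pos hg4']
      rw [e1, e2] at h5
      exact h5
    have h7 : |m x| * |m y| * |m z| * |m w| ≤ (L0 : ℤ) ^ 4 := by
      have k1 := (hco x (hC'g x hx)).2.2.2.2
      have k2 := (hco y (hC'g y hy')).2.2.2.2
      have k3 := (hco z (hC'g z hz)).2.2.2.2
      have k4 := (hco w (hC'g w hw)).2.2.2.2
      calc |m x| * |m y| * |m z| * |m w| ≤ (L0 : ℤ) * L0 * L0 * L0 := by gcongr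
        _ = _ := by ring
    have h8 : |T| * ((ya : ℤ) * yb * yc) ≤ (L0 : ℤ) ^ 4 * (g4 c t x y z w : ℤ) :=
      h6.trans (mul_le_mul_of_nonneg_right h7 hg4'.le)
    have h9 : ((|T| : ℤ) : ℝ) * ((ya : ℝ) * yb * yc) ≤ (L0 : ℝ) ^ 4 * (g4 c t x y z w : ℝ) := by
      exact_mod_cast h8
    obtain ⟨r1, r2, r3⟩ := hC'y x hx
    have la : (L1 : ℝ) ^ 2 ≤ L0 * ya := by
      have := hlowA x (hC'g x hx)
      rw [r1] at this
      exact_mod_cast this
    have lb : (L1 : ℝ) ^ 2 ≤ L0 * yb := by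
      have := hlowB x (hC'g x hx)
      rw [r2] at this
      exact_mod_cast this
    have lc : (L1 : ℝ) ^ 2 ≤ L0 * yc := by
      have := hlowC x (hC'g x hx)
      rw [r3] at this
      exact_mod_cast this
    have h10 : (L1 : ℝ) ^ 6 ≤ (L0 : ℝ) ^ 3 * ((ya : ℝ) * yb * yc) := by
      calc (L1 : ℝ) ^ 6 = (L1 : ℝ) ^ 2 * (L1 : ℝ) ^ 2 * (L1 : ℝ) ^ 2 := by ring
        _ ≤ ((L0 : ℝ) * ya) * ((L0 : ℝ) * yb) * ((L0 : ℝ) * yc) := by gcongr
        _ = _ := by ring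
    rw [div_le_iff₀ (by positivity)]
    calc ((|T| : ℤ) : ℝ) * (L1 : ℝ) ^ 6 ≤
        ((|T| : ℤ) : ℝ) * ((L0 : ℝ) ^ 3 * ((ya : ℝ) * yb * yc)) :=
          mul_le_mul_of_nonneg_left h10 hTr.le
      _ = (L0 : ℝ) ^ 3 * (((|T| : ℤ) : ℝ) * ((ya : ℝ) * yb * yc)) := by ring
      _ ≤ (L0 : ℝ) ^ 3 * ((L0 : ℝ) ^ 4 * (g4 c t x y z w : ℝ)) :=
          mul_le_mul_of_nonneg_left h9 (by positivity)
      _ = _ := by ring

end Pool.Agent.MP_741d1b.All
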