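import Mathlib
import Pool.Agent.Lib.MP_741d1b_nt_all.PDefs

/-!
Row P7: slices.
-/

set_option autoImplicit false

namespace Pool.Agent.MP_741d1b.All

open Finset Classical
open Pool.Agent.MP_741d1b.H87

/- PROOF. Ctx.slice (T3Slice.lean) with the real lower bound Γ for g4 of the quadruple in place of the
common divisor G: in hdet use |dt x y z| = H |w| where H = g4 of the quadruple (gcd3 gives H with
H ∣ all, and every common divisor of the first three divides H; so g4 ≤ H, in fact Γ ≤ g4 ≤ H). -/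
theorem slice' (c : Ctx) (t : ℕ) (C' : Finset ℤ) (hC' : C' ⊆ c.C t ∩ c.As) (R Γ : ℝ)
    (hR : ∀ x ∈ C', ∀ y ∈ C', |((x - y : ℤ) : ℝ)| ≤ R) (g L : ℕ) (hΓ : 0 < Γ) (hg : 0 < g)
    (hdiv : ∀ x ∈ C', ∀ y ∈ C', ∀ z ∈ C', ∀ w ∈ C', c.dt t x y z ≠ 0 →
      Γ ≤ (g4 c t x y z w : ℝ)) (l : ℝ) (hl : 0 ≤ l)
    (hcol : ∀ a ∈ C', ∀ b ∈ C', a ≠ b → ((C'.filter (fun z => c.dt t a b z = 0)).card : ℝ) ≤ l)
    (hlC : 16 * (l + 1) * ((g + 1 : ℕ) : ℝ) ≤ C'.card)
    (hL : 2 * R ≤ L * ((c.n : ℝ) * g * Γ)) :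
    3 * (C'.card : ℝ) ^ 4 ≤ 4 * ((g + 1 : ℕ) : ℝ) ^ 3 * ((c.W (c.n * g) L t).card : ℝ) := by
  have hn := c.n_pos'
  have hM := c.M_pos'
  have hg' : (0 : ℝ) < g := by exact_mod_cast hg
  set τ : ℤ → ℝ := fun d => ((t : ℝ) * d - (c.k t d : ℝ) * c.M - c.X t) * (c.n * g) / c.M with hτ
  set σ : ℤ → ℕ := fun d => ⌊τ d⌋₊ with hσ
  have hτ0 : ∀ d ∈ C', 0 ≤ τ d := by
    intro d hd
    have h1 := c.hlo t d (mem_inter.mp (hC' hd)).1
    simp only [hτ]
    apply div_nonneg _ hM.le
    exact mul_nonneg (by linarith) (by positivity)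
  have hτg : ∀ d ∈ C', τ d ≤ g := by
    intro d hd
    have h1 := c.hhi t d (mem_inter.mp (hC' hd)).1
    simp only [hτ]
    rw [div_le_iff₀ hM]
    calc ((t : ℝ) * d - (c.k t d : ℝ) * c.M - c.X t) * (c.n * g) ≤
        ((c.M : ℝ) / c.n) * (c.n * g) := mul_le_mul_of_nonneg_right (by linarith) (by positivity)
      _ = g * c.M := by field_simp
  have hσr : ∀ d ∈ C', σ d ∈ range (g + 1) := by
    intro d hd
    rw [mem_range]
    have h1 : ((⌊τ d⌋₊ : ℕ) : ℝ) ≤ g := (Nat.floor_le (hτ0 d hd)).trans (hτg d hd)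
    have h2 : ⌊τ d⌋₊ ≤ g := by exact_mod_cast h1
    simp only [hσ]
    omega
  have hni : ∀ x ∈ C', ∀ y ∈ C', σ x = σ y → NI c.M (c.n * g) t (x - y) (c.k t x - c.k t y) := by
    intro x hx y hy hxy
    have h1 : |τ x - τ y| < 1 := by
      have a1 := Nat.floor_le (hτ0 x hx)
      have a2 := Nat.floor_le (hτ0 y hy)
      have a3 := Nat.lt_floor_add_one (τ x)
      have a4 := Nat.lt_floor_add_one (τ y)
      simp only [hσ] at hxy
      rw [hxy] at a1 a3
      rw [abs_lt]
      constructor <;> linarith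
    have h2 : τ x - τ y = (((t : ℤ) * (x - y) - (c.k t x - c.k t y) * c.M : ℤ) : ℝ) *
        (c.n * g) / c.M := by
      simp only [hτ]
      push_cast
      ring
    rw [h2, abs_div, abs_mul, abs_of_pos hM, abs_of_pos (by positivity : (0 : ℝ) < c.n * g),
      div_lt_one hM] at h1
    unfold NI
    have h3 : ((|(t : ℤ) * (x - y) - (c.k t x - c.k t y) * c.M| * ((c.n * g : ℕ) : ℤ) : ℤ) : ℝ) ≤
        ((c.M : ℤ) : ℝ) := by
      push_cast
      push_cast at h1
      exact h1.le
    exact_mod_cast h3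
  -- determinants
  have hdet : ∀ x ∈ C', ∀ y ∈ C', ∀ z ∈ C', σ x = σ y → σ x = σ z → ∀ (H : ℕ), Γ ≤ (H : ℝ) →
      ∀ w : ℤ, |c.dt t x y z| = H * |w| → |w| ≤ L := by
    intro x hx y hy z hz hxy hxz H hGH w hw
    have h1 := c.dt_bound (hni x hx y hy hxy) (hni x hx z hz hxz)
    have h2 : (|c.dt t x y z| : ℝ) * ((c.n : ℝ) * g) ≤ 2 * R := by
      have h3 : ((|c.dt t x y z| * ((c.n * g : ℕ) : ℤ) : ℤ) : ℝ) ≤ ((|x - y| + |x - z| : ℤ) : ℝ) := by
        exact_mod_cast h1
      push_cast at h3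
      have h4 := hR x hx y hy
      have h5 := hR x hx z hz
      push_cast at h4 h5
      linarith
    have h6 : (|c.dt t x y z| : ℝ) = H * |(w : ℝ)| := by exact_mod_cast hw
    rw [h6] at h2
    have h7 : Γ * |(w : ℝ)| * ((c.n : ℝ) * g) ≤ L * ((c.n : ℝ) * g * Γ) := by
      refine le_trans ?_ hL
      refine le_trans ?_ h2
      gcongr
    have h8 : |(w : ℝ)| * ((c.n : ℝ) * g * Γ) ≤ L * ((c.n : ℝ) * g * Γ) := by
      calc |(w : ℝ)| * ((c.n : ℝ) * g * Γ) = Γ * |(w : ℝ)| * ((c.n : ℝ) * g) := by ring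
        _ ≤ _ := h7
    have h9 := le_of_mul_le_mul_right h8 (by positivity)
    exact_mod_cast h9
  -- quadruples of a slice
  have hsub : ∀ s ∈ range (g + 1), c.GP t (C'.filter (fun d => σ d = s)) ⊆
      (c.W (c.n * g) L t).filter (fun z => σ z.1.1 = s) := by
    rintro s _ ⟨⟨a, b⟩, ⟨e, d⟩⟩ hz
    rw [Ctx.GP, mem_filter, mem_product, mem_product, mem_product] at hz
    obtain ⟨⟨⟨ha, hb⟩, he, hd⟩, q1, q2, q3, q4⟩ := hz
    simp only at ha hb he hd q1 q2 q3 q4
    rw [mem_filter] at ha hb he hd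
    obtain ⟨ha, sa⟩ := ha
    obtain ⟨hb, sb⟩ := hb
    obtain ⟨he, se⟩ := he
    obtain ⟨hd, sd⟩ := hd
    rw [mem_filter]
    refine ⟨?_, sa⟩
    rw [Ctx.W, mem_filter, mem_product, mem_product, mem_product]
    have As_of : ∀ {x : ℤ}, x ∈ C' → x ∈ c.As := fun hx => (mem_inter.mp (hC' hx)).2
    refine ⟨⟨⟨As_of ha, As_of hb⟩, As_of he, As_of hd⟩, ⟨?_, q1, q2, q3, q4⟩, ?_⟩
    · intro x hx y hy
      simp only [mem_insert, mem_singleton] at hx hy
      have hx' : x ∈ C' ∧ σ x = s := by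
        rcases hx with rfl | rfl | rfl | rfl
        · exact ⟨ha, sa⟩
        · exact ⟨hb, sb⟩
        · exact ⟨he, se⟩
        · exact ⟨hd, sd⟩
      have hy' : y ∈ C' ∧ σ y = s := by
        rcases hy with rfl | rfl | rfl | rfl
        · exact ⟨ha, sa⟩
        · exact ⟨hb, sb⟩
        · exact ⟨he, se⟩
        · exact ⟨hd, sd⟩
      exact hni x hx'.1 y hy'.1 (hx'.2.trans hy'.2.symm)
    · obtain ⟨H, p, q, r, hH, hp, hq, hr, ⟨u, v, w, huvw⟩, hHdiv⟩ :=
        gcd3 (c.dt t b e d) (-(c.dt t a e d)) (c.dt t a b d) q4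
      have hGH : Γ ≤ (H : ℝ) := by
        refine (hdiv a ha b hb e he d hd q1).trans ?_
        obtain ⟨_, g2, g3, g4'⟩ := g4_dvd c t a b e d
        have e3 : c.dt t e d a = c.dt t a e d := dt_rot c t a e d
        have e4 : c.dt t d a b = c.dt t a b d := by rw [← dt_rot c t d a b]
        rw [e3] at g3
        rw [e4] at g4'
        have h1 : (g4 c t a b e d : ℤ) ∣ (H : ℤ) := hHdiv _ g2 ((dvd_neg).mpr g3) g4'
        have h2 : g4 c t a b e d ∣ H := by exact_mod_cast h1
        exact_mod_cast Nat.le_of_dvd hH h2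
      have hs4 : -(c.dt t a b e) = H * (-p - q - r) := by
        have : c.dt t b e d - c.dt t a e d + c.dt t a b d - c.dt t a b e = 0 := by
          unfold Ctx.dt; ring
        have e2 : (H : ℤ) * (-p - q - r) = -(H * p) - H * q - H * r := by ring
        rw [e2, ← hp, ← hq, ← hr]
        linarith
      have hH0 : (H : ℤ) ≠ 0 := by exact_mod_cast hH.ne'
      have nz : ∀ D w : ℤ, D ≠ 0 → D = H * w → w ≠ 0 := by
        intro D w hD h hw
        apply hD
        rw [h, hw, mul_zero]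
      have ab : ∀ D w : ℤ, D = H * w → |D| = H * |w| := by
        intro D w h
        rw [h, abs_mul, Nat.abs_cast]
      refine ⟨((p, q), (r, -p - q - r)), ?_, ?_, ?_, u, v, w, huvw⟩
      · rw [mem_product, mem_product, mem_product, mem_Iz, mem_Iz, mem_Iz, mem_Iz]
        refine ⟨⟨⟨nz _ _ q4 hp, ?_⟩, nz _ _ (neg_ne_zero.mpr q3) hq, ?_⟩,
          ⟨nz _ _ q2 hr, ?_⟩, nz _ _ (neg_ne_zero.mpr q1) hs4, ?_⟩
        · exact hdet b hb e he d hd (sb.trans se.symm) (sb.trans sd.symm) H hGH p (ab _ _ hp)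
        · have := ab _ _ hq
          rw [abs_neg] at this
          exact hdet a ha e he d hd (sa.trans se.symm) (sa.trans sd.symm) H hGH q this
        · exact hdet a ha b hb d hd (sa.trans sb.symm) (sa.trans sd.symm) H hGH r (ab _ _ hr)
        · have := ab _ _ hs4
          rw [abs_neg] at this
          exact hdet a ha b hb e he (sa.trans sb.symm) (sa.trans se.symm) H hGH _ this
      · unfold Ctx.Rel
        simp only
        have h1 : (H : ℤ) * (p * a + q * b + r * e + (-p - q - r) * d) = 0 := by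
          calc (H : ℤ) * (p * a + q * b + r * e + (-p - q - r) * d) =
              (H * p) * a + (H * q) * b + (H * r) * e + (H * (-p - q - r)) * d := by ring
            _ = c.dt t b e d * a + (-(c.dt t a e d)) * b + c.dt t a b d * e +
                (-(c.dt t a b e)) * d := by rw [← hp, ← hq, ← hr, ← hs4]
            _ = 0 := by unfold Ctx.dt; ring
        rcases mul_eq_zero.mp h1 with h2 | h2
        · exact absurd h2 hH0
        · exact h2
      · simp only
        ring
  -- sum over slices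
  have hsum : ∑ s ∈ range (g + 1), ((C'.filter (fun d => σ d = s)).card : ℝ) = C'.card := by
    have := card_eq_sum_card_fiberwise (f := σ) (s := C') (t := range (g + 1)) hσr
    exact_mod_cast this.symm
  have hconv := conv_slices (range (g + 1)) (fun s => ((C'.filter (fun d => σ d = s)).card : ℝ))
    (fun _ => Nat.cast_nonneg _) (g + 1) (by rw [card_range]) (by omega) (4 * (l + 1)) C'.card hsum
    (by linarith)
  refine hconv.trans ?_
  apply mul_le_mul_of_nonneg_left _ (by positivity)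
  calc ∑ s ∈ range (g + 1), (((C'.filter (fun d => σ d = s)).card : ℝ) ^ 4 -
        4 * (l + 1) * ((C'.filter (fun d => σ d = s)).card : ℝ) ^ 3) ≤
      ∑ s ∈ range (g + 1), ((c.GP t (C'.filter (fun d => σ d = s))).card : ℝ) := by
        refine sum_le_sum fun s _ => ?_
        apply c.card_GP t _ l hl
        intro a ha b hb hab
        refine le_trans ?_ (hcol a (mem_filter.mp ha).1 b (mem_filter.mp hb).1 hab)
        exact_mod_cast card_le_card (filter_subset_filter _ (filter_subset _ _))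
    _ ≤ ∑ s ∈ range (g + 1), (((c.W (c.n * g) L t).filter (fun z => σ z.1.1 = s)).card : ℝ) :=
        sum_le_sum fun s hs => by exact_mod_cast card_le_card (hsub s hs)
    _ ≤ ((c.W (c.n * g) L t).card : ℝ) := by
        have h1 : ∑ s ∈ range (g + 1), ((c.W (c.n * g) L t).filter (fun z => σ z.1.1 = s)).card =
            ((range (g + 1)).biUnion
              (fun s => (c.W (c.n * g) L t).filter (fun z => σ z.1.1 = s))).card := by
          symm
          apply card_biUnion
          intro s _ s' _ hne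
          rw [Function.onFun, Finset.disjoint_left]
          intro z hz hz'
          exact hne ((mem_filter.mp hz).2.symm.trans (mem_filter.mp hz').2)
        have h2 : ((range (g + 1)).biUnion
              (fun s => (c.W (c.n * g) L t).filter (fun z => σ z.1.1 = s))).card ≤
              (c.W (c.n * g) L t).card := by
          apply card_le_card
          intro z hz
          obtain ⟨s, _, hz'⟩ := mem_biUnion.mp hz
          exact (mem_filter.mp hz').1
        rw [← h1] at h2
        exact_mod_cast h2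

end Pool.Agent.MP_741d1b.All
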