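import Mathlib
import Pool.Agent.Lib.MP_741d1b_nt_all.PDefs
import Pool.Agent.Lib.MP_741d1b_nt_h87.T3Exp

/-!
Row P8: expected numbers of quadruples with a large relation and of triples with small determinant.
-/

set_option autoImplicit false

namespace Pool.Agent.MP_741d1b.All

open Finset Classical
open Pool.Agent.MP_741d1b.H87

/-- Quadruples with a large coefficient (of the last point) in the primitive relation. -/
noncomputable def BQ4 (c : Ctx) (L0 t : ℕ) : Finset ((ℤ × ℤ) × (ℤ × ℤ)) :=
  ((c.C t ×ˢ c.C t) ×ˢ (c.C t ×ˢ c.C t)).filter (fun z =>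
    c.dt t z.1.1 z.1.2 z.2.1 ≠ 0 ∧
    (L0 : ℤ) * g4 c t z.1.1 z.1.2 z.2.1 z.2.2 < |c.dt t z.1.1 z.1.2 z.2.1|)

/- PROOF. Ctx.sum_BQ (T3Exp.lean) with g4 in place of gcd (dt a b e) (dt a b d): with the primitive
relation (p, q, r) of a - d, a - b, a - e valid for the lifts too, the vector
(p, q, r, -p-q-r) is proportional to the four determinants, so |dt a b e| = |p| g4 (both are
p * integer...: (dt a b e : determinants) = λ (p, q, r), λ rational, primitive, so |λ| = g4); hence
|p| > L0 for t in the set. -/
theorem sum_BQ4 (c : Ctx) (L0 : ℕ) (hL0 : 0 < L0) (hn24 : 24 ≤ c.n) :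
    ∑ t ∈ range c.M, ((BQ4 c L0 t).card : ℝ) ≤ c.M * (12 * (c.n : ℝ) ^ 2 / L0 + 221184 * c.n) := by
  have hL0' : (0 : ℝ) < L0 := by exact_mod_cast hL0
  have hn := c.n_pos'
  have hM := c.M_pos'
  have h := avg_le (M := c.M) (BQ4 c L0) ((c.A ×ˢ c.A) ×ˢ (c.A ×ˢ c.A)) (by
    intro t
    refine (filter_subset _ _).trans ?_
    exact product_subset_product (product_subset_product (c.hCA t) (c.hCA t))
      (product_subset_product (c.hCA t) (c.hCA t)))
    (fun _ => 12 * c.M / (c.n ^ 2 * (L0 : ℝ)) + 221184 * c.M / c.n ^ 3) (by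
    rintro ⟨⟨a, b⟩, ⟨e, d⟩⟩ hz
    rw [mem_product, mem_product, mem_product] at hz
    obtain ⟨⟨ha, hb⟩, he, hd⟩ := hz
    simp only at ha hb he hd
    have hpos1 : (0 : ℝ) ≤ 12 * c.M / (c.n ^ 2 * (L0 : ℝ)) := by positivity
    have hpos2 : (0 : ℝ) ≤ 221184 * c.M / c.n ^ 3 := by positivity
    by_cases hs : a ≠ b ∧ a ≠ e
    · obtain ⟨hab, hae⟩ := hs
      have hy0 : a - b ≠ 0 := sub_ne_zero.mpr hab
      have hz0 : a - e ≠ 0 := sub_ne_zero.mpr hae
      by_cases hno : ∀ p q r : ℤ, 24 * |p| ≤ c.n → 24 * |q| ≤ c.n → 24 * |r| ≤ c.n →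
          p * (a - d) + q * (a - b) + r * (a - e) = 0 → p = 0 ∧ q = 0 ∧ r = 0
      · have h1 := triple_count (M := c.M) (m := c.n) c.hM hn24 hno (by
          have h2 := c.sub_le ha hd
          have h3 := c.sub_le ha hb
          have h4 := c.sub_le ha he
          have h5 : |(|a - d| + |a - b| + |a - e|)| ≤ 6 * (c.B : ℤ) := by
            rw [abs_of_nonneg (by positivity)]
            linarith
          have h6 := c.mul_lt_M (m := c.n) (Nat.le_self_pow (by norm_num) _) h5
          rwa [abs_of_nonneg (by positivity)] at h6)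
        refine le_trans ?_ (h1.trans (by linarith))
        apply Nat.cast_le.mpr
        apply card_le_card
        intro t ht
        rw [mem_filter] at ht ⊢
        have ht2 := ht.2
        rw [BQ4, mem_filter, mem_product, mem_product, mem_product] at ht2
        obtain ⟨⟨⟨ha', hb'⟩, he', hd'⟩, _⟩ := ht2
        exact ⟨ht.1, c.near ha' hd', c.near ha' hb', c.near ha' he'⟩
      · push Not at hno
        obtain ⟨p0, q0, r0, hp0, hq0, hr0, hrel0, hne0⟩ := hno
        obtain ⟨p, q, r, hp, hq, hr, hrel, hprim⟩ := Ctx.prim_rel hp0 hq0 hr0 hrel0 (by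
          rintro ⟨h1, h2, h3⟩
          exact hne0 h1 h2 h3)
        have hsum : |p| + |q| + |r| < c.n := by
          have : (0 : ℤ) < c.n := by exact_mod_cast c.n_pos
          have h1 := abs_nonneg p
          have h2 := abs_nonneg q
          have h3 := abs_nonneg r
          linarith
        -- for t in the set, the relation holds and |p| > L0
        have hkey : ∀ t, (((a, b), (e, d)) : (ℤ × ℤ) × (ℤ × ℤ)) ∈ BQ4 c L0 t →
            p ≠ 0 ∧ (L0 : ℝ) < |(p : ℝ)| := by
          intro t ht2
          rw [BQ4, mem_filter, mem_product, mem_product, mem_product] at ht2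
          obtain ⟨⟨⟨ha', hb'⟩, he', hd'⟩, hD0, hD1⟩ := ht2
          simp only at ha' hb' he' hd' hD0 hD1
          have hrelk := rel_of_near c.hM.pos hrel hsum (c.ni ha' hd') (c.ni ha' hb') (c.ni ha' he')
          have e1 : p * c.dt t a b d = -r * c.dt t a b e := by
            unfold Ctx.dt
            linear_combination (a - b) * hrelk - (c.k t a - c.k t b) * hrel
          have e2 : p * c.dt t a e d = q * c.dt t a b e := by
            unfold Ctx.dt
            linear_combination (a - e) * hrelk - (c.k t a - c.k t e) * hrel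
          have hpne : p ≠ 0 := by
            intro hp0
            rw [hp0, zero_mul] at e1
            have hr0 : r = 0 := by
              rcases mul_eq_zero.mp e1.symm with h1 | h1
              · linarith
              · exact absurd h1 hD0
            rw [hp0, hr0] at hrel
            have hq0 : q = 0 := by
              have : q * (a - b) = 0 := by linarith
              rcases mul_eq_zero.mp this with h1 | h1
              · exact h1
              · exact absurd h1 hy0
            obtain ⟨u, v, w, huvw⟩ := hprim
            rw [hp0, hq0, hr0] at huvw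
            simp at huvw
          refine ⟨hpne, ?_⟩
          obtain ⟨u, v, w, huvw⟩ := hprim
          have hl0 : ∃ lam : ℤ, c.dt t a b e = p * lam ∧ c.dt t a b d = -r * lam ∧
              c.dt t a e d = q * lam := by
            refine ⟨u * c.dt t a b e + v * c.dt t a e d - w * c.dt t a b d, ?_⟩
            have h1 : c.dt t a b e =
                p * (u * c.dt t a b e + v * c.dt t a e d - w * c.dt t a b d) := by
              linear_combination (-(v)) * e2 + w * e1 - c.dt t a b e * huvw
            refine ⟨h1, ?_, ?_⟩
            · apply mul_left_cancel₀ hpne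
              rw [e1]
              linear_combination (-r) * h1
            · apply mul_left_cancel₀ hpne
              rw [e2]
              linear_combination q * h1
          obtain ⟨lam, hl1, hl2, hl3⟩ := hl0
          have hdvd : lam ∣ (g4 c t a b e d : ℤ) := by
            have f3 : c.dt t e d a = c.dt t a e d := dt_rot c t a e d
            have f4 : c.dt t d a b = c.dt t a b d := (dt_rot c t d a b).symm
            have f2 := dt_four c t a b e d
            rw [f3, f4, hl1, hl2, hl3] at f2
            apply dvd_g4
            · exact ⟨p, by rw [hl1]; ring⟩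
            · exact ⟨p + q + r, by linarith⟩
            · rw [f3]
              exact ⟨q, by rw [hl3]; ring⟩
            · rw [f4]
              exact ⟨-r, by rw [hl2]; ring⟩
          have hgp : 0 < g4 c t a b e d := g4_pos c t a b e d hD0
          have h3 : |lam| ≤ (g4 c t a b e d : ℤ) := by
            have := Int.le_of_dvd (by exact_mod_cast hgp) ((abs_dvd _ _).mpr hdvd)
            exact this
          have h4 : (L0 : ℤ) * g4 c t a b e d < |p| * g4 c t a b e d := by
            refine lt_of_lt_of_le hD1 ?_
            rw [hl1, abs_mul]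
            exact mul_le_mul_of_nonneg_left h3 (abs_nonneg _)
          have h5 := lt_of_mul_lt_mul_right h4 (by positivity)
          exact_mod_cast h5
        by_cases hpΛ : p ≠ 0 ∧ (L0 : ℝ) < |(p : ℝ)|
        · have h1 := quad_count (M := c.M) (m := c.n) c.hM c.n_pos hrel hprim hpΛ.1 hsum hy0 hz0
            (c.sub_lt ha hb) (c.sub_lt ha he)
          refine le_trans ?_ (h1.trans ?_)
          · apply Nat.cast_le.mpr
            apply card_le_card
            intro t ht
            rw [mem_filter] at ht ⊢
            have ht2 := ht.2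
            rw [BQ4, mem_filter, mem_product, mem_product, mem_product] at ht2
            obtain ⟨⟨⟨ha', hb'⟩, he', hd'⟩, hD0, _⟩ := ht2
            exact ⟨ht.1, _, _, _, c.ni ha' hd', c.ni ha' hb', c.ni ha' he', hD0⟩
          · have : 12 * (c.M : ℝ) / ((c.n : ℝ) ^ 2 * |(p : ℝ)|) ≤ 12 * c.M / (c.n ^ 2 * (L0 : ℝ)) := by
              apply div_le_div_of_nonneg_left (by positivity) (by positivity)
              exact mul_le_mul_of_nonneg_left hpΛ.2.le (by positivity)
            linarith
        · have : (range c.M).filter
              (fun t => (((a, b), (e, d)) : (ℤ × ℤ) × (ℤ × ℤ)) ∈ BQ4 c L0 t) = ∅ := by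
            apply filter_false_of_mem
            intro t _ ht2
            exact hpΛ (hkey t ht2)
          rw [this]
          simp only [card_empty, Nat.cast_zero]
          positivity
    · have : (range c.M).filter
          (fun t => (((a, b), (e, d)) : (ℤ × ℤ) × (ℤ × ℤ)) ∈ BQ4 c L0 t) = ∅ := by
        apply filter_false_of_mem
        intro t _ ht2
        rw [BQ4, mem_filter] at ht2
        obtain ⟨_, h2, _⟩ := ht2
        apply hs
        constructor
        · intro hab
          apply h2
          simp only
          rw [hab]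
          unfold Ctx.dt
          ring
        · intro had
          apply h2
          simp only
          rw [had]
          unfold Ctx.dt
          ring
      rw [this]
      simp only [card_empty, Nat.cast_zero]
      positivity)
  rw [sum_const, nsmul_eq_mul, c.card_A4] at h
  refine h.trans (le_of_eq ?_)
  field_simp

/-- Noncollinear triples with small determinant. -/
noncomputable def BD2 (c : Ctx) (ρ : ℝ) (t : ℕ) : Finset (ℤ × ℤ × ℤ) :=
  (c.C t ×ˢ c.C t ×ˢ c.C t).filter (fun z => c.dt t z.1 z.2.1 z.2.2 ≠ 0 ∧
    ρ * ((|c.dt t z.1 z.2.1 z.2.2| : ℤ) : ℝ) < ((|z.1 - z.2.1| : ℤ) : ℝ))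

/- PROOF. avg_le, for fixed (a, b, d) with a ≠ b det_count with T = |a - b| / ρ:
6 T M / (n |a - b|) = 6 M / (n ρ); n³ triples. -/
theorem sum_BD2 (c : Ctx) (ρ : ℝ) (hρ : 0 < ρ) :
    ∑ t ∈ range c.M, ((BD2 c ρ t).card : ℝ) ≤ 6 * c.M * (c.n : ℝ) ^ 2 / ρ := by
  have hn := c.n_pos'
  have hM := c.M_pos'
  have h := avg_le (M := c.M) (BD2 c ρ) (c.A ×ˢ c.A ×ˢ c.A) (by
    intro t
    refine (filter_subset _ _).trans ?_
    exact product_subset_product (c.hCA t) (product_subset_product (c.hCA t) (c.hCA t)))
    (fun _ => 6 * c.M / (c.n * ρ)) (by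
    rintro ⟨a, b, d⟩ hz
    rw [mem_product, mem_product] at hz
    obtain ⟨ha, hb, hd⟩ := hz
    simp only at ha hb hd
    by_cases hs : a ≠ b
    · have hs0 : (0 : ℝ) < |((a - b : ℤ) : ℝ)| := by
        rw [abs_pos]
        exact_mod_cast sub_ne_zero.mpr hs
      have h1 := det_count (M := c.M) (m1 := c.n) (m2 := c.n) c.hM c.n_pos (s := a - b)
        (y := a - d) (sub_ne_zero.mpr hs) (c.sub_lt ha hb) (|((a - b : ℤ) : ℝ)| / ρ)
        (by positivity)
      refine le_trans ?_ (h1.trans (le_of_eq ?_))
      · apply Nat.cast_le.mpr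
        apply card_le_card
        intro t ht
        rw [mem_filter] at ht ⊢
        refine ⟨ht.1, ?_⟩
        have ht2 := ht.2
        rw [BD2, mem_filter, mem_product, mem_product] at ht2
        obtain ⟨⟨ha', hb', hd'⟩, h2, h3⟩ := ht2
        refine ⟨c.k t a - c.k t b, c.k t a - c.k t d, c.ni ha' hb', c.ni ha' hd', h2, ?_⟩
        rw [le_div_iff₀ hρ]
        have h4 : ρ * |((c.dt t a b d : ℤ) : ℝ)| < |((a - b : ℤ) : ℝ)| := by
          have := h3
          push_cast at this ⊢
          exact this
        have h5 : ρ * |((c.dt t a b d : ℤ) : ℝ)| = |((c.dt t a b d : ℤ) : ℝ)| * ρ := by ring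
        rw [h5] at h4
        unfold Ctx.dt at h4
        exact h4.le
      · field_simp
    · push Not at hs
      have : (range c.M).filter (fun t => ((a, b, d) : ℤ × ℤ × ℤ) ∈ BD2 c ρ t) = ∅ := by
        apply filter_false_of_mem
        intro t _ ht2
        rw [BD2, mem_filter] at ht2
        obtain ⟨_, h2, _⟩ := ht2
        apply h2
        simp only
        rw [hs]
        unfold Ctx.dt
        ring
      rw [this]
      simp only [card_empty, Nat.cast_zero]
      positivity)
  rw [sum_const, nsmul_eq_mul, c.card_A3] at h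
  refine h.trans (le_of_eq ?_)
  field_simp

end Pool.Agent.MP_741d1b.All
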