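import Mathlib
import Pool.Agent.Lib.MP_741d1b_nt_all.BDil
import Pool.Agent.Lib.MP_741d1b_nt_h87.T3Exp2

/-!
Row P9: weighted numbers of solutions with one small coefficient.
-/

set_option autoImplicit false

namespace Pool.Agent.MP_741d1b.All

open Finset Classical
open Pool.Agent.MP_741d1b.H87

/- PROOF. H87.sol_sum (T3Sol.lean) with dil_sum' : the part with Dil A p q: (r, s) has at most 2 L
choices, 2 L * (1/2) * (4 L1 (1 + log L) n² + 4 q (1 + log L) En); the part with Dil A r s: (p, q) has at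
most 2 L1 choices (q is determined by p), 2 L1 * (1/2) * (4 L (1 + log L) n² + 4 q (1 + log L) En)
(dil_sum' with L1 := L). 1 + log L ≤ q. -/
theorem sol_sum' {n : ℕ} {q : ℝ} (hb : Nb n q) (A : Finset ℤ) (hA : A.card ≤ n) (L1 L : ℕ)
    (hL1 : L1 ≤ L) (hL : L ≤ n) :
    ∑ p ∈ Iz L1, ∑ q' ∈ Iz L, ∑ r ∈ Iz L, ∑ s ∈ Iz L,
      (if p + q' + r + s = 0 then Nq A p q' r s * wt4 p q' r s else 0) ≤
      8 * L * q * (L1 * (n : ℝ) ^ 2 + q * En A) := by
  have hX1 := dil_sum' hb A hA L1 L hL1 hL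
  have hX2 := dil_sum' hb A hA L L (le_refl _) hL
  have hq0 := hb.q_pos
  have hE0 : 0 ≤ En A := by
    have := Dil_nonneg A 1 1
    unfold En
    positivity
  set X1 := ∑ p ∈ Iz L1, ∑ s ∈ Iz L, Dil A p s * wt p s with hX1d
  set X2 := ∑ p ∈ Iz L, ∑ s ∈ Iz L, Dil A p s * wt p s with hX2d
  have one : ∀ (K K' : ℕ) (c : ℤ) (F : ℝ), 0 ≤ F →
      ∑ r ∈ Iz K, ∑ s ∈ Iz K', (if c + r + s = 0 then F else 0) ≤ 2 * K * F := by
    intro K K' c F hF
    calc ∑ r ∈ Iz K, ∑ s ∈ Iz K', (if c + r + s = 0 then F else 0) ≤ ∑ r ∈ Iz K, F := by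
          refine sum_le_sum fun r _ => ?_
          have : ∀ s ∈ Iz K', (if c + r + s = 0 then F else 0) =
              if s = -(c + r) then F else 0 := by
            intro s _
            by_cases h : s = -(c + r)
            · rw [if_pos h, if_pos (by rw [h]; ring)]
            · rw [if_neg h, if_neg (fun h' => h (by linarith))]
          rw [sum_congr rfl this, Finset.sum_ite_eq' (Iz K') (-(c + r)) (fun _ => F)]
          split_ifs
          · exact le_refl _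
          · exact hF
      _ = 2 * K * F := by rw [sum_const, card_Iz, nsmul_eq_mul]; push_cast; rfl
  have h1 : ∀ p ∈ Iz L1, ∀ q' ∈ Iz L, ∀ r ∈ Iz L, ∀ s ∈ Iz L,
      (if p + q' + r + s = 0 then Nq A p q' r s * wt4 p q' r s else 0) ≤
      (if p + q' + r + s = 0 then (1 / 2) * (Dil A p q' * wt p q') else 0) +
      (if p + q' + r + s = 0 then (1 / 2) * (Dil A r s * wt r s) else 0) := by
    intro p hp q' hq r hr s hs
    split_ifs
    · have a1 := Nq_le A p q' r s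
      have a2 := wt4_nonneg p q' r s
      have a3 := wt4_le_left p q' r s (mem_Iz.mp hp).1
      have a4 := wt4_le_right p q' r s (mem_Iz.mp hr).1
      have a5 := Dil_nonneg A p q'
      have a6 := Dil_nonneg A r s
      calc Nq A p q' r s * wt4 p q' r s ≤
          ((1 / 2) * Dil A p q' + (1 / 2) * Dil A r s) * wt4 p q' r s :=
            mul_le_mul_of_nonneg_right a1 a2
        _ = (1 / 2) * (Dil A p q' * wt4 p q' r s) + (1 / 2) * (Dil A r s * wt4 p q' r s) := by ring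
        _ ≤ _ := by
            have b1 := mul_le_mul_of_nonneg_left a3 a5
            have b2 := mul_le_mul_of_nonneg_left a4 a6
            linarith
    · simp
  have h2 := sum_le_sum fun p hp => sum_le_sum fun q' hq => sum_le_sum fun r hr =>
    sum_le_sum fun s hs => h1 p hp q' hq r hr s hs
  refine h2.trans ?_
  simp only [sum_add_distrib]
  have e1 : ∑ p ∈ Iz L1, ∑ q' ∈ Iz L, ∑ r ∈ Iz L, ∑ s ∈ Iz L,
      (if p + q' + r + s = 0 then (1 / 2) * (Dil A p q' * wt p q') else 0) ≤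
      2 * L * (1 / 2 * X1) := by
    calc ∑ p ∈ Iz L1, ∑ q' ∈ Iz L, ∑ r ∈ Iz L, ∑ s ∈ Iz L,
      (if p + q' + r + s = 0 then (1 / 2) * (Dil A p q' * wt p q') else 0)
        ≤ ∑ p ∈ Iz L1, ∑ q' ∈ Iz L, 2 * L * ((1 / 2) * (Dil A p q' * wt p q')) :=
          sum_le_sum fun p _ => sum_le_sum fun q' _ => one L L (p + q') _
            (mul_nonneg (by norm_num) (mul_nonneg (Dil_nonneg _ _ _) (wt_nonneg _ _)))
      _ = 2 * L * (1 / 2 * X1) := by
          rw [hX1d]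
          simp only [← mul_sum]
  have e2 : ∑ p ∈ Iz L1, ∑ q' ∈ Iz L, ∑ r ∈ Iz L, ∑ s ∈ Iz L,
      (if p + q' + r + s = 0 then (1 / 2) * (Dil A r s * wt r s) else 0) ≤
      2 * L1 * (1 / 2 * X2) := by
    have h3 : ∑ p ∈ Iz L1, ∑ q' ∈ Iz L, ∑ r ∈ Iz L, ∑ s ∈ Iz L,
      (if p + q' + r + s = 0 then (1 / 2) * (Dil A r s * wt r s) else 0) =
      ∑ r ∈ Iz L, ∑ s ∈ Iz L, ∑ p ∈ Iz L1, ∑ q' ∈ Iz L,
      (if (r + s) + p + q' = 0 then (1 / 2) * (Dil A r s * wt r s) else 0) := by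
      rw [show (∑ p ∈ Iz L1, ∑ q' ∈ Iz L, ∑ r ∈ Iz L, ∑ s ∈ Iz L,
        (if p + q' + r + s = 0 then (1 / 2) * (Dil A r s * wt r s) else 0)) =
        ∑ p ∈ Iz L1, ∑ r ∈ Iz L, ∑ q' ∈ Iz L, ∑ s ∈ Iz L,
        (if p + q' + r + s = 0 then (1 / 2) * (Dil A r s * wt r s) else 0) from
          sum_congr rfl fun p _ => sum_comm]
      rw [sum_comm]
      refine sum_congr rfl fun r _ => ?_
      rw [show (∑ p ∈ Iz L1, ∑ q' ∈ Iz L, ∑ s ∈ Iz L,
        (if p + q' + r + s = 0 then (1 / 2) * (Dil A r s * wt r s) else 0)) =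
        ∑ p ∈ Iz L1, ∑ s ∈ Iz L, ∑ q' ∈ Iz L,
        (if p + q' + r + s = 0 then (1 / 2) * (Dil A r s * wt r s) else 0) from
          sum_congr rfl fun p _ => sum_comm]
      rw [sum_comm]
      refine sum_congr rfl fun s _ => sum_congr rfl fun p _ => sum_congr rfl fun q' _ => ?_
      have : (p + q' + r + s = 0) ↔ ((r + s) + p + q' = 0) := by
        constructor <;> intro h <;> linarith
      simp only [this]
    rw [h3]
    calc ∑ r ∈ Iz L, ∑ s ∈ Iz L, ∑ p ∈ Iz L1, ∑ q' ∈ Iz L,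
      (if (r + s) + p + q' = 0 then (1 / 2) * (Dil A r s * wt r s) else 0)
        ≤ ∑ r ∈ Iz L, ∑ s ∈ Iz L, 2 * L1 * ((1 / 2) * (Dil A r s * wt r s)) :=
          sum_le_sum fun r _ => sum_le_sum fun s _ => one L1 L (r + s) _
            (mul_nonneg (by norm_num) (mul_nonneg (Dil_nonneg _ _ _) (wt_nonneg _ _)))
      _ = 2 * L1 * (1 / 2 * X2) := by
          rw [hX2d]
          simp only [← mul_sum]
  have hL1' : (L1 : ℝ) ≤ L := by exact_mod_cast hL1
  have hl : 1 + Real.log L ≤ q := by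
    refine le_trans ?_ hb.hlog
    rcases Nat.eq_zero_or_pos L with h0 | h0
    · rw [h0]
      simp only [Nat.cast_zero, Real.log_zero]
      have := hb.log_nonneg
      linarith
    · have h3 : (0 : ℝ) < L := by exact_mod_cast h0
      have h4 : (L : ℝ) ≤ n := by exact_mod_cast hL
      have := Real.log_le_log h3 h4
      linarith
  have hlp : 0 ≤ 1 + Real.log L := by
    have := Real.log_natCast_nonneg L
    linarith
  have f1 : 2 * (L : ℝ) * (1 / 2 * X1) ≤ 2 * L * (1 / 2 * (4 * L1 * (1 + Real.log L) * (n : ℝ) ^ 2 +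
      4 * q * (1 + Real.log L) * En A)) := by gcongr
  have f2 : 2 * (L1 : ℝ) * (1 / 2 * X2) ≤ 2 * L1 * (1 / 2 * (4 * L * (1 + Real.log L) * (n : ℝ) ^ 2 +
      4 * q * (1 + Real.log L) * En A)) := by gcongr
  have f3 : 2 * (L : ℝ) * (1 / 2 * (4 * L1 * (1 + Real.log L) * (n : ℝ) ^ 2 +
      4 * q * (1 + Real.log L) * En A)) + 2 * L1 * (1 / 2 * (4 * L * (1 + Real.log L) * (n : ℝ) ^ 2 +
      4 * q * (1 + Real.log L) * En A)) =
      (1 + Real.log L) * (8 * L * (L1 * (n : ℝ) ^ 2) + 4 * q * L * En A + 4 * q * L1 * En A) := by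
    ring
  have f4 : (1 + Real.log L) * (8 * L * (L1 * (n : ℝ) ^ 2) + 4 * q * L * En A + 4 * q * L1 * En A) ≤
      q * (8 * L * (L1 * (n : ℝ) ^ 2) + 4 * q * L * En A + 4 * q * L * En A) := by
    gcongr
  have f5 : q * (8 * L * (L1 * (n : ℝ) ^ 2) + 4 * q * L * En A + 4 * q * L * En A) =
      8 * L * q * (L1 * (n : ℝ) ^ 2 + q * En A) := by ring
  linarith

/-- Quadruples with a relation with one small coefficient. -/
noncomputable def Wu (c : Ctx) (m L1 L t : ℕ) : Finset ((ℤ × ℤ) × (ℤ × ℤ)) :=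
  ((c.As ×ˢ c.As) ×ˢ (c.As ×ˢ c.As)).filter (fun z => c.Quad m t z ∧
    ∃ w ∈ (Iz L1 ×ˢ Iz L) ×ˢ (Iz L ×ˢ Iz L), Ctx.Rel z w ∧ w.1.1 + w.1.2 + w.2.1 + w.2.2 = 0 ∧
      ∃ u v x : ℤ, u * w.1.1 + v * w.1.2 + x * w.2.1 = 1)

/- PROOF. Ctx.sum_W (T3Exp2.lean) with Iz L1 for the first coefficient (quad_role applies since
Iz L1 ⊆ Iz L). -/
theorem sum_Wu (c : Ctx) {m L1 L : ℕ} (hm0 : 0 < m) (hm : m ≤ c.n ^ 3) (hL1 : L1 ≤ L)
    (hL : 3 * L < m) :
    ∑ t ∈ range c.M, ((Wu c m L1 L t).card : ℝ) ≤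
      12 * c.M / (m : ℝ) ^ 2 * ∑ p ∈ Iz L1, ∑ q ∈ Iz L, ∑ r ∈ Iz L, ∑ s ∈ Iz L,
      (if p + q + r + s = 0 then Nq c.As p q r s * wt4 p q r s else 0) := by
  have hM := c.M_pos'
  have hm' : (0 : ℝ) < m := by exact_mod_cast hm0
  set IL := (Iz L1 ×ˢ Iz L) ×ˢ (Iz L ×ˢ Iz L) with hIL
  have hsubI : IL ⊆ (Iz L ×ˢ Iz L) ×ˢ (Iz L ×ˢ Iz L) := by
    rw [hIL]
    apply product_subset_product _ (subset_refl _)
    apply product_subset_product _ (subset_refl _)
    intro x hx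
    rw [mem_Iz] at hx ⊢
    refine ⟨hx.1, hx.2.trans ?_⟩
    exact_mod_cast hL1
  have h := avg_le (M := c.M) (Wu c m L1 L) ((c.As ×ˢ c.As) ×ˢ (c.As ×ˢ c.As)) (fun t => filter_subset _ _)
    (fun z => ∑ w ∈ IL, if w.1.1 + w.1.2 + w.2.1 + w.2.2 = 0 then
      (if w.1.1 * z.1.1 + w.1.2 * z.1.2 + w.2.1 * z.2.1 + w.2.2 * z.2.2 = 0 then
      12 * c.M / (m : ℝ) ^ 2 * wt4 w.1.1 w.1.2 w.2.1 w.2.2 else 0) else 0) (by
    intro z hz
    have hnn : ∀ w : (ℤ × ℤ) × (ℤ × ℤ), 0 ≤ (if w.1.1 + w.1.2 + w.2.1 + w.2.2 = 0 then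
      (if w.1.1 * z.1.1 + w.1.2 * z.1.2 + w.2.1 * z.2.1 + w.2.2 * z.2.2 = 0 then
      12 * c.M / (m : ℝ) ^ 2 * wt4 w.1.1 w.1.2 w.2.1 w.2.2 else 0) else 0) := by
      intro w
      split_ifs
      · exact mul_nonneg (by positivity) (wt4_nonneg _ _ _ _)
      · exact le_refl _
      · exact le_refl _
    by_cases hex : ∃ w ∈ IL, Ctx.Rel z w ∧ w.1.1 + w.1.2 + w.2.1 + w.2.2 = 0 ∧
      ∃ u v x : ℤ, u * w.1.1 + v * w.1.2 + x * w.2.1 = 1
    · obtain ⟨w, hw, hrel, hsum, hprim⟩ := hex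
      have h1 := c.quad_role hm0 hm hL hz (hsubI hw) hrel hsum hprim
      refine le_trans ?_ (h1.trans ?_)
      · apply Nat.cast_le.mpr
        apply card_le_card
        intro t ht
        rw [mem_filter] at ht ⊢
        rw [Wu, mem_filter] at ht
        exact ⟨ht.1, ht.2.2.1⟩
      · have h2 := Finset.single_le_sum (f := fun w : (ℤ × ℤ) × (ℤ × ℤ) =>
          (if w.1.1 + w.1.2 + w.2.1 + w.2.2 = 0 then
          (if w.1.1 * z.1.1 + w.1.2 * z.1.2 + w.2.1 * z.2.1 + w.2.2 * z.2.2 = 0 then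
          12 * c.M / (m : ℝ) ^ 2 * wt4 w.1.1 w.1.2 w.2.1 w.2.2 else 0) else 0))
          (fun w _ => hnn w) hw
        refine le_trans (le_of_eq ?_) h2
        unfold Ctx.Rel at hrel
        rw [if_pos hsum, if_pos hrel]
    · have : (range c.M).filter (fun t => z ∈ Wu c m L1 L t) = ∅ := by
        apply filter_false_of_mem
        intro t _ ht
        rw [Wu, mem_filter] at ht
        exact hex ht.2.2
      rw [this]
      simp only [card_empty, Nat.cast_zero]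
      exact sum_nonneg fun w _ => hnn w)
  refine h.trans (le_of_eq ?_)
  rw [sum_comm, hIL, Finset.sum_product, Finset.sum_product, mul_sum]
  refine sum_congr rfl fun p _ => ?_
  rw [mul_sum]
  refine sum_congr rfl fun q _ => ?_
  rw [Finset.sum_product, mul_sum]
  refine sum_congr rfl fun r _ => ?_
  rw [mul_sum]
  refine sum_congr rfl fun s _ => ?_
  simp only
  by_cases hs : p + q + r + s = 0
  · simp only [if_pos hs]
    rw [← Finset.sum_filter, sum_const, nsmul_eq_mul]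
    unfold Nq
    ring
  · simp only [if_neg hs]
    simp

end Pool.Agent.MP_741d1b.All
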