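import Mathlib
import Pool.Agent.Lib.MP_741d1b_nt_all.PExp
import Pool.Agent.Lib.MP_741d1b_nt_all.PSol

/-!
Row P10: most quadruples of a cluster are typical.
-/

set_option autoImplicit false

namespace Pool.Agent.MP_741d1b.All

open Finset Classical
open Pool.Agent.MP_741d1b.H87

private theorem PTyp_abs_le {H : ℕ} (hH : 0 < H) {D w : ℤ} {L : ℕ} (h : D = H * w)
    (hle : |D| ≤ L * (H : ℤ)) : |w| ≤ L := by
  have hH' : (0 : ℤ) < H := by exact_mod_cast hH
  rw [h, abs_mul, Nat.abs_cast, mul_comm (L : ℤ)] at hle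
  exact le_of_mul_le_mul_left hle hH'

/-- Membership in `Wu`. -/
private theorem PTyp_mem_Wu (c : Ctx) (L0 L1 t : ℕ) {x y z w : ℤ} (hx : x ∈ c.C t ∩ c.As)
    (hy : y ∈ c.C t ∩ c.As) (hz : z ∈ c.C t ∩ c.As) (hw : w ∈ c.C t ∩ c.As)
    (n1 : c.dt t x y z ≠ 0) (n2 : c.dt t y z w ≠ 0) (n3 : c.dt t z w x ≠ 0)
    (n4 : c.dt t w x y ≠ 0) (b1 : |c.dt t x y z| ≤ L1 * (g4 c t x y z w : ℤ))
    (b2 : |c.dt t y z w| ≤ L0 * (g4 c t x y z w : ℤ))
    (b3 : |c.dt t z w x| ≤ L0 * (g4 c t x y z w : ℤ))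
    (b4 : |c.dt t w x y| ≤ L0 * (g4 c t x y z w : ℤ)) :
    (((w, x), (y, z)) : (ℤ × ℤ) × (ℤ × ℤ)) ∈ Wu c c.n L1 L0 t := by
  have e2 : c.dt t w y z = c.dt t y z w := dt_rot c t w y z |>.symm
  have e3 : c.dt t w x z = c.dt t z w x := dt_rot c t z w x
  obtain ⟨H, p, q, r, hH, hp, hq, hr, ⟨u, v, s, huvs⟩, hHdiv⟩ :=
    gcd3 (c.dt t x y z) (-(c.dt t w y z)) (c.dt t w x z) n1
  have hH0 : (H : ℤ) ≠ 0 := by exact_mod_cast hH.ne'
  have hs4 : -(c.dt t w x y) = H * (-p - q - r) := by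
    have : c.dt t x y z - c.dt t w y z + c.dt t w x z - c.dt t w x y = 0 := by
      unfold Ctx.dt; ring
    have e2 : (H : ℤ) * (-p - q - r) = -(H * p) - H * q - H * r := by ring
    rw [e2, ← hp, ← hq, ← hr]
    linarith
  obtain ⟨d1, d2, d3, d4⟩ := g4_dvd c t x y z w
  have hgH : g4 c t x y z w = H := by
    apply Nat.dvd_antisymm
    · have h1 : ((g4 c t x y z w : ℕ) : ℤ) ∣ (H : ℤ) :=
        hHdiv _ d1 ((dvd_neg).mpr (by rw [e2]; exact d2)) (by rw [e3]; exact d3)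
      exact_mod_cast h1
    · have h1 : (H : ℤ) ∣ ((g4 c t x y z w : ℕ) : ℤ) := by
        apply dvd_g4
        · exact ⟨p, hp⟩
        · rw [← e2]
          exact (dvd_neg).mp ⟨q, hq⟩
        · rw [← e3]
          exact ⟨r, hr⟩
        · exact (dvd_neg).mp ⟨_, hs4⟩
      exact_mod_cast h1
  rw [hgH] at b1 b2 b3 b4
  have nz : ∀ D w : ℤ, D ≠ 0 → D = H * w → w ≠ 0 := by
    intro D w hD h hw
    apply hD
    rw [h, hw, mul_zero]
  have As_of : ∀ {x : ℤ}, x ∈ c.C t ∩ c.As → x ∈ c.As := fun hx => (mem_inter.mp hx).2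
  have C_of : ∀ {x : ℤ}, x ∈ c.C t ∩ c.As → x ∈ c.C t := fun hx => (mem_inter.mp hx).1
  rw [Wu, mem_filter, mem_product, mem_product, mem_product]
  refine ⟨⟨⟨As_of hw, As_of hx⟩, As_of hy, As_of hz⟩, ⟨?_, n4, ?_, ?_, n1⟩, ?_⟩
  · intro x' hx' y' hy'
    simp only [mem_insert, mem_singleton] at hx' hy'
    have hx'' : x' ∈ c.C t := by
      rcases hx' with rfl | rfl | rfl | rfl
      · exact C_of hw
      · exact C_of hx
      · exact C_of hy
      · exact C_of hz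
    have hy'' : y' ∈ c.C t := by
      rcases hy' with rfl | rfl | rfl | rfl
      · exact C_of hw
      · exact C_of hx
      · exact C_of hy
      · exact C_of hz
    exact c.ni hx'' hy''
  · simp only
    rw [e3]
    exact n3
  · simp only
    rw [e2]
    exact n2
  · have m2 : -(c.dt t w y z) ≠ 0 := by rw [e2]; exact neg_ne_zero.mpr n2
    have m3 : c.dt t w x z ≠ 0 := by rw [e3]; exact n3
    have m4 : -(c.dt t w x y) ≠ 0 := neg_ne_zero.mpr n4
    refine ⟨((p, q), (r, -p - q - r)), ?_, ?_, ?_, u, v, s, huvs⟩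
    · rw [mem_product, mem_product, mem_product, mem_Iz, mem_Iz, mem_Iz, mem_Iz]
      refine ⟨⟨⟨nz _ _ n1 hp, PTyp_abs_le hH hp b1⟩, nz _ _ m2 hq, PTyp_abs_le hH hq ?_⟩,
        ⟨nz _ _ m3 hr, PTyp_abs_le hH hr ?_⟩, nz _ _ m4 hs4, PTyp_abs_le hH hs4 ?_⟩
      · rw [abs_neg, e2]; exact b2
      · rw [e3]; exact b3
      · rw [abs_neg]; exact b4
    · unfold Ctx.Rel
      simp only
      have h1 : (H : ℤ) * (p * w + q * x + r * y + (-p - q - r) * z) = 0 := by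
        calc (H : ℤ) * (p * w + q * x + r * y + (-p - q - r) * z) =
            (H * p) * w + (H * q) * x + (H * r) * y + (H * (-p - q - r)) * z := by ring
          _ = c.dt t x y z * w + (-(c.dt t w y z)) * x + c.dt t w x z * y +
              (-(c.dt t w x y)) * z := by rw [← hp, ← hq, ← hr, ← hs4]
          _ = 0 := by unfold Ctx.dt; ring
      rcases mul_eq_zero.mp h1 with h2 | h2
      · exact absurd h2 hH0
      · exact h2
    · simp only
      ring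

/- PROOF. A quadruple z ∈ S1⁴ which is not typical is (a) not in GP t S1: card_GP; or (b) for one of
the four rotations of z (bijections of S1⁴) it is in BQ4 (|dt| > L0 g4; S1 ⊆ C t); or (c) in GP, all four
|dt| ≤ L0 g4 (g4 is rotation invariant: g4_rot) and for one rotation |dt x y z| ≤ L1 g4: then with
h = g4 x y z w and the coefficients: dt y z w = h D1, -dt z w x = h D2 (signs from dt_four), ...,
relation D1 x + D2 y + D3 z + D4 w = 0 and D1 + D2 + D3 + D4 = 0, gcd (D1, D2, D3) = 1, |D4| ≤ L1, the others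
≤ L0, all ≠ 0; the rotated quadruple (w, x, y, z) with coefficients (D4, D1, D2, D3) is in
Wu c n L1 L0 t (elements of S1 are in As; Quad n: c.ni; the four determinants are ≠ 0). -/
theorem card_not_typ (c : Ctx) (L0 L1 t : ℕ) (S1 : Finset ℤ) (hS1 : S1 ⊆ c.C t ∩ c.As)
    (l : ℝ) (hl : 0 ≤ l)
    (hcol : ∀ a ∈ S1, ∀ b ∈ S1, a ≠ b → ((S1.filter (fun z => c.dt t a b z = 0)).card : ℝ) ≤ l) :
    ((((S1 ×ˢ S1) ×ˢ (S1 ×ˢ S1)).filter
      (fun z => ¬ Typ c L0 L1 t z.1.1 z.1.2 z.2.1 z.2.2)).card : ℝ) ≤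
      4 * (l + 1) * (S1.card : ℝ) ^ 3 + 4 * ((BQ4 c L0 t).card : ℝ) +
        4 * ((Wu c c.n L1 L0 t).card : ℝ) := by
  set P := (S1 ×ˢ S1) ×ˢ (S1 ×ˢ S1) with hP
  set NT := P.filter (fun z => ¬ Typ c L0 L1 t z.1.1 z.1.2 z.2.1 z.2.2) with hNT
  have hPc : (P.card : ℝ) = (S1.card : ℝ) ^ 4 := by
    rw [hP, card_product, card_product]; push_cast; ring
  have hGPP : c.GP t S1 ⊆ P := filter_subset _ _
  have hcomp : ((P \ c.GP t S1).card : ℝ) ≤ 4 * (l + 1) * (S1.card : ℝ) ^ 3 := by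
    have h1 := c.card_GP t S1 l hl hcol
    have h2 : ((P \ c.GP t S1).card : ℝ) = P.card - (c.GP t S1).card := by
      rw [card_sdiff_of_subset hGPP, Nat.cast_sub (card_le_card hGPP)]
    rw [h2, hPc]
    linarith
  -- rotations
  set r0 : (ℤ × ℤ) × (ℤ × ℤ) → (ℤ × ℤ) × (ℤ × ℤ) := fun z => z with hr0
  set r1 : (ℤ × ℤ) × (ℤ × ℤ) → (ℤ × ℤ) × (ℤ × ℤ) :=
    fun z => ((z.1.2, z.2.1), (z.2.2, z.1.1)) with hr1
  set r2 : (ℤ × ℤ) × (ℤ × ℤ) → (ℤ × ℤ) × (ℤ × ℤ) :=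
    fun z => ((z.2.1, z.2.2), (z.1.1, z.1.2)) with hr2
  set r3 : (ℤ × ℤ) × (ℤ × ℤ) → (ℤ × ℤ) × (ℤ × ℤ) :=
    fun z => ((z.2.2, z.1.1), (z.1.2, z.2.1)) with hr3
  have i0 : Function.Injective r0 := fun a b h => h
  have i1 : Function.Injective r1 := by
    rintro ⟨⟨a, b⟩, ⟨e, d⟩⟩ ⟨⟨a', b'⟩, ⟨e', d'⟩⟩ h
    simp only [hr1, Prod.mk.injEq] at h
    obtain ⟨⟨h1, h2⟩, h3, h4⟩ := h
    subst h1 h2 h3 h4
    rfl
  have i2 : Function.Injective r2 := by
    rintro ⟨⟨a, b⟩, ⟨e, d⟩⟩ ⟨⟨a', b'⟩, ⟨e', d'⟩⟩ h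
    simp only [hr2, Prod.mk.injEq] at h
    obtain ⟨⟨h1, h2⟩, h3, h4⟩ := h
    subst h1 h2 h3 h4
    rfl
  have i3 : Function.Injective r3 := by
    rintro ⟨⟨a, b⟩, ⟨e, d⟩⟩ ⟨⟨a', b'⟩, ⟨e', d'⟩⟩ h
    simp only [hr3, Prod.mk.injEq] at h
    obtain ⟨⟨h1, h2⟩, h3, h4⟩ := h
    subst h1 h2 h3 h4
    rfl
  have cardle : ∀ (r : (ℤ × ℤ) × (ℤ × ℤ) → (ℤ × ℤ) × (ℤ × ℤ)), Function.Injective r →
      ∀ X : Finset ((ℤ × ℤ) × (ℤ × ℤ)), (P.filter (fun z => r z ∈ X)).card ≤ X.card := by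
    intro r hr X
    refine Finset.card_le_card_of_injOn r ?_ (hr.injOn)
    intro z hz
    have hz' : z ∈ P.filter (fun z => r z ∈ X) := hz
    exact (mem_filter.mp hz').2
  have hcov : NT ⊆ (P \ c.GP t S1) ∪
      (((P.filter (fun z => r0 z ∈ BQ4 c L0 t)) ∪ (P.filter (fun z => r1 z ∈ BQ4 c L0 t))) ∪
        ((P.filter (fun z => r2 z ∈ BQ4 c L0 t)) ∪ (P.filter (fun z => r3 z ∈ BQ4 c L0 t)))) ∪
      (((P.filter (fun z => r0 z ∈ Wu c c.n L1 L0 t)) ∪
          (P.filter (fun z => r1 z ∈ Wu c c.n L1 L0 t))) ∪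
        ((P.filter (fun z => r2 z ∈ Wu c c.n L1 L0 t)) ∪
          (P.filter (fun z => r3 z ∈ Wu c c.n L1 L0 t)))) := by
    rintro ⟨⟨x, y⟩, ⟨z, w⟩⟩ hz
    rw [hNT, mem_filter] at hz
    obtain ⟨hzP, hnt⟩ := hz
    simp only at hnt
    have hzP' := hzP
    rw [hP, mem_product, mem_product, mem_product] at hzP'
    obtain ⟨⟨hx, hy⟩, hz, hw⟩ := hzP'
    simp only at hx hy hz hw
    have hx1 := hS1 hx
    have hy1 := hS1 hy
    have hz1 := hS1 hz
    have hw1 := hS1 hw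
    by_cases hGP : (((x, y), (z, w)) : (ℤ × ℤ) × (ℤ × ℤ)) ∈ c.GP t S1
    swap
    · exact mem_union_left _ (mem_union_left _ (mem_sdiff.mpr ⟨hzP, hGP⟩))
    rw [Ctx.GP, mem_filter] at hGP
    obtain ⟨_, q1, q2, q3, q4⟩ := hGP
    simp only at q1 q2 q3 q4
    -- dt x y z, dt x y w, dt x z w, dt y z w
    have n1 : c.dt t x y z ≠ 0 := q1
    have n2 : c.dt t y z w ≠ 0 := q4
    have n3 : c.dt t z w x ≠ 0 := by rw [dt_rot c t x z w]; exact q3
    have n4 : c.dt t w x y ≠ 0 := by rw [← dt_rot c t w x y]; exact q2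
    have G1 : g4 c t y z w x = g4 c t x y z w := g4_rot c t x y z w
    have G2 : g4 c t z w x y = g4 c t x y z w := (g4_rot c t y z w x).trans G1
    have G3 : g4 c t w x y z = g4 c t x y z w := (g4_rot c t z w x y).trans G2
    by_cases a1 : |c.dt t x y z| ≤ L0 * (g4 c t x y z w : ℤ)
    swap
    · apply mem_union_left; apply mem_union_right; apply mem_union_left; apply mem_union_left
      rw [mem_filter]
      refine ⟨hzP, ?_⟩
      simp only [hr0]
      rw [BQ4, mem_filter, mem_product, mem_product, mem_product]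
      exact ⟨⟨⟨(mem_inter.mp hx1).1, (mem_inter.mp hy1).1⟩, (mem_inter.mp hz1).1,
        (mem_inter.mp hw1).1⟩, n1, not_le.mp a1⟩
    by_cases a2 : |c.dt t y z w| ≤ L0 * (g4 c t x y z w : ℤ)
    swap
    · apply mem_union_left; apply mem_union_right; apply mem_union_left; apply mem_union_right
      rw [mem_filter]
      refine ⟨hzP, ?_⟩
      simp only [hr1]
      rw [BQ4, mem_filter, mem_product, mem_product, mem_product]
      refine ⟨⟨⟨(mem_inter.mp hy1).1, (mem_inter.mp hz1).1⟩, (mem_inter.mp hw1).1,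
        (mem_inter.mp hx1).1⟩, n2, ?_⟩
      simp only
      rw [G1]
      exact not_le.mp a2
    by_cases a3 : |c.dt t z w x| ≤ L0 * (g4 c t x y z w : ℤ)
    swap
    · apply mem_union_left; apply mem_union_right; apply mem_union_right; apply mem_union_left
      rw [mem_filter]
      refine ⟨hzP, ?_⟩
      simp only [hr2]
      rw [BQ4, mem_filter, mem_product, mem_product, mem_product]
      refine ⟨⟨⟨(mem_inter.mp hz1).1, (mem_inter.mp hw1).1⟩, (mem_inter.mp hx1).1,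
        (mem_inter.mp hy1).1⟩, n3, ?_⟩
      simp only
      rw [G2]
      exact not_le.mp a3
    by_cases a4 : |c.dt t w x y| ≤ L0 * (g4 c t x y z w : ℤ)
    swap
    · apply mem_union_left; apply mem_union_right; apply mem_union_right; apply mem_union_right
      rw [mem_filter]
      refine ⟨hzP, ?_⟩
      simp only [hr3]
      rw [BQ4, mem_filter, mem_product, mem_product, mem_product]
      refine ⟨⟨⟨(mem_inter.mp hw1).1, (mem_inter.mp hx1).1⟩, (mem_inter.mp hy1).1,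
        (mem_inter.mp hz1).1⟩, n4, ?_⟩
      simp only
      rw [G3]
      exact not_le.mp a4
    by_cases c1 : |c.dt t x y z| ≤ L1 * (g4 c t x y z w : ℤ)
    · -- (w, x, y, z) = r3
      apply mem_union_right; apply mem_union_right; apply mem_union_right
      rw [mem_filter]
      refine ⟨hzP, ?_⟩
      simp only [hr3]
      exact PTyp_mem_Wu c L0 L1 t hx1 hy1 hz1 hw1 n1 n2 n3 n4 c1 a2 a3 a4
    by_cases c2 : |c.dt t y z w| ≤ L1 * (g4 c t x y z w : ℤ)
    · -- (x, y, z, w) = r0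
      apply mem_union_right; apply mem_union_left; apply mem_union_left
      rw [mem_filter]
      refine ⟨hzP, ?_⟩
      simp only [hr0]
      exact PTyp_mem_Wu c L0 L1 t hy1 hz1 hw1 hx1 n2 n3 n4 n1 (by rw [G1]; exact c2)
        (by rw [G1]; exact a3) (by rw [G1]; exact a4) (by rw [G1]; exact a1)
    by_cases c3 : |c.dt t z w x| ≤ L1 * (g4 c t x y z w : ℤ)
    · -- (y, z, w, x) = r1
      apply mem_union_right; apply mem_union_left; apply mem_union_right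
      rw [mem_filter]
      refine ⟨hzP, ?_⟩
      simp only [hr1]
      exact PTyp_mem_Wu c L0 L1 t hz1 hw1 hx1 hy1 n3 n4 n1 n2 (by rw [G2]; exact c3)
        (by rw [G2]; exact a4) (by rw [G2]; exact a1) (by rw [G2]; exact a2)
    by_cases c4 : |c.dt t w x y| ≤ L1 * (g4 c t x y z w : ℤ)
    · -- (z, w, x, y) = r2
      apply mem_union_right; apply mem_union_right; apply mem_union_left
      rw [mem_filter]
      refine ⟨hzP, ?_⟩
      simp only [hr2]
      exact PTyp_mem_Wu c L0 L1 t hw1 hx1 hy1 hz1 n4 n1 n2 n3 (by rw [G3]; exact c4)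
        (by rw [G3]; exact a1) (by rw [G3]; exact a2) (by rw [G3]; exact a3)
    exfalso
    apply hnt
    refine ⟨⟨n1, not_le.mp c1, a1⟩, ⟨n2, ?_, ?_⟩, ⟨n3, ?_, ?_⟩, ⟨n4, ?_, ?_⟩⟩
    · rw [G1]; exact not_le.mp c2
    · rw [G1]; exact a2
    · rw [G2]; exact not_le.mp c3
    · rw [G2]; exact a3
    · rw [G3]; exact not_le.mp c4
    · rw [G3]; exact a4
  have hb0 := cardle r0 i0 (BQ4 c L0 t)
  have hb1 := cardle r1 i1 (BQ4 c L0 t)
  have hb2 := cardle r2 i2 (BQ4 c L0 t)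
  have hb3 := cardle r3 i3 (BQ4 c L0 t)
  have hw0 := cardle r0 i0 (Wu c c.n L1 L0 t)
  have hw1 := cardle r1 i1 (Wu c c.n L1 L0 t)
  have hw2 := cardle r2 i2 (Wu c c.n L1 L0 t)
  have hw3 := cardle r3 i3 (Wu c c.n L1 L0 t)
  have hall := card_le_card hcov
  have u1 : NT.card ≤ (P \ c.GP t S1).card + 4 * (BQ4 c L0 t).card +
      4 * (Wu c c.n L1 L0 t).card := by
    refine hall.trans ?_
    refine (card_union_le _ _).trans ?_
    refine (Nat.add_le_add_right (card_union_le _ _) _).trans ?_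
    have v1 := (card_union_le ((P.filter (fun z => r0 z ∈ BQ4 c L0 t)) ∪
      (P.filter (fun z => r1 z ∈ BQ4 c L0 t))) ((P.filter (fun z => r2 z ∈ BQ4 c L0 t)) ∪
      (P.filter (fun z => r3 z ∈ BQ4 c L0 t))))
    have v2 := card_union_le (P.filter (fun z => r0 z ∈ BQ4 c L0 t))
      (P.filter (fun z => r1 z ∈ BQ4 c L0 t))
    have v3 := card_union_le (P.filter (fun z => r2 z ∈ BQ4 c L0 t))
      (P.filter (fun z => r3 z ∈ BQ4 c L0 t))
    have w1 := (card_union_le ((P.filter (fun z => r0 z ∈ Wu c c.n L1 L0 t)) ∪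
      (P.filter (fun z => r1 z ∈ Wu c c.n L1 L0 t))) ((P.filter (fun z => r2 z ∈ Wu c c.n L1 L0 t)) ∪
      (P.filter (fun z => r3 z ∈ Wu c c.n L1 L0 t))))
    have w2 := card_union_le (P.filter (fun z => r0 z ∈ Wu c c.n L1 L0 t))
      (P.filter (fun z => r1 z ∈ Wu c c.n L1 L0 t))
    have w3 := card_union_le (P.filter (fun z => r2 z ∈ Wu c c.n L1 L0 t))
      (P.filter (fun z => r3 z ∈ Wu c c.n L1 L0 t))
    omega
  have u2 : (NT.card : ℝ) ≤ (P \ c.GP t S1).card + 4 * (BQ4 c L0 t).card +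
      4 * (Wu c c.n L1 L0 t).card := by exact_mod_cast u1
  linarith

end Pool.Agent.MP_741d1b.All
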