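import Mathlib
import Pool.Agent.Lib.MP_741d1b_nt_all.PClass
import Pool.Agent.Lib.MP_741d1b_nt_all.PSlice
import Pool.Agent.Lib.MP_741d1b_nt_all.PTyp

/-!
Row P11: one multiplier without rich lines.
-/

set_option autoImplicit false

namespace Pool.Agent.MP_741d1b.All

open Finset Classical
open Pool.Agent.MP_741d1b.H87

/- PROOF. q = q0, S = C t ∩ As, card S ≥ N / (4 q) ≥ N / q², l = N / q^610 ≥ 1.
find_class with S1 = S, ρ = n q^9: h4 from card_not_typ (80 (l + 1) ≤ card S / 4, 320 BQ4 ≤ (N / q²)^4,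
320 Wu ≤ (N / q²)^4); h3: the bad triples are collinear (col_triples: card S² (l + 1), 40 (l + 1) ≤ card S)
or in BD2. card C' ≥ card S / (2 q³) ≥ N / q^5. slice' with g = q0 ^ 600, R = 2 ρ (L0^8 / L1^7) Γ:
L0^8 / L1^7 ≤ L0 (2 q^35)^7 ≤ 256 N² q^255 (128 ≤ ...), 2 R ≤ 1024 n N² q^264 Γ ≤ n N² q^265 Γ ≤
L n q^600 Γ. 16 (l + 1) (g + 1) ≤ 64 N / q^10 ≤ card C'. Then 3 (N / q^5)^4 ≤ 4 (2 q^600)^3 card W. -/
theorem per_t' (c : Ctx) (q0 : ℕ) (hb : Nb c.n (q0 : ℝ)) (N : ℝ) (hNn : N ^ 3 = c.n) (hN : 0 < N)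
    (hbig : (q0 : ℝ) ^ 700 ≤ N) (hK1 : N / q0 ≤ c.K) (t : ℕ)
    (hS : (c.K : ℝ) / 4 ≤ ((c.C t ∩ c.As).card : ℝ))
    (hcol : ∀ a ∈ c.C t ∩ c.As, ∀ b ∈ c.C t ∩ c.As, a ≠ b →
      (((c.C t ∩ c.As).filter (fun z => c.dt t a b z = 0)).card : ℝ) ≤ N / (q0 : ℝ) ^ 610)
    (L0 L1 : ℕ) (hL0a : N ^ 2 * (q0 : ℝ) ^ 10 ≤ L0) (hL0b : (L0 : ℝ) ≤ 2 * N ^ 2 * (q0 : ℝ) ^ 10)
    (hL1 : (L0 : ℝ) ≤ 2 * (q0 : ℝ) ^ 35 * L1) (hL10 : L1 ≤ L0)
    (hB : 40 * ((BD2 c (c.n * (q0 : ℝ) ^ 9) t).card : ℝ) ≤ (N / (q0 : ℝ) ^ 2) ^ 3)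
    (hQ : 320 * ((BQ4 c L0 t).card : ℝ) ≤ (N / (q0 : ℝ) ^ 2) ^ 4)
    (hW : 320 * ((Wu c c.n L1 L0 t).card : ℝ) ≤ (N / (q0 : ℝ) ^ 2) ^ 4)
    (L : ℕ) (hL : N ^ 2 / (q0 : ℝ) ^ 335 ≤ L) :
    N ^ 4 / (16 * (q0 : ℝ) ^ 1820) ≤ ((c.W (c.n * q0 ^ 600) L t).card : ℝ) := by
  set q : ℝ := (q0 : ℝ) with hqdef
  have hq' : (10000 : ℝ) ≤ q := hb.hq
  have hq0 : 0 < q := by linarith
  have hq1 : 1 ≤ q := by linarith
  have hn := c.n_pos'
  have hN1 : 1 ≤ N := le_trans (one_le_pow₀ hq1) hbig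
  have hNk : ∀ k ≤ 700, q ^ k ≤ N := fun k hk => (pow_le_pow_right₀ hq1 hk).trans hbig
  set S := c.C t ∩ c.As with hSdef
  have hScard : N / (4 * q) ≤ (S.card : ℝ) := by
    refine le_trans ?_ hS
    calc N / (4 * q) = N / q / 4 := by field_simp
      _ ≤ c.K / 4 := by linarith
  have hS2 : N / q ^ 2 ≤ (S.card : ℝ) := by
    refine le_trans ?_ hScard
    apply div_le_div_of_nonneg_left hN.le (by positivity)
    nlinarith
  have hSpos' : (0 : ℝ) < S.card := lt_of_lt_of_le (by positivity) hS2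
  have hSpos : 0 < S.card := by exact_mod_cast hSpos'
  set l : ℝ := N / q ^ 610 with hl
  have hl1 : 1 ≤ l := by
    rw [hl, le_div_iff₀ (by positivity), one_mul]
    exact hNk 610 (by norm_num)
  have hl0 : 0 ≤ l := by linarith
  have hlS : 320 * (l + 1) ≤ (S.card : ℝ) := by
    refine le_trans ?_ hS2
    calc 320 * (l + 1) ≤ 640 * l := by linarith
      _ ≤ q * l := by gcongr; linarith
      _ = N / q ^ 609 := by rw [hl]; field_simp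
      _ ≤ N / q ^ 2 := by
          apply div_le_div_of_nonneg_left hN.le (by positivity)
          exact pow_le_pow_right₀ hq1 (by norm_num)
  -- L1
  have hL0pos : (0 : ℝ) < L0 := lt_of_lt_of_le (by positivity) hL0a
  have hL1pos' : (0 : ℝ) < L1 := by
    by_contra hcon
    have h1 : (L1 : ℝ) = 0 := le_antisymm (not_lt.mp hcon) (Nat.cast_nonneg _)
    rw [h1, mul_zero] at hL1
    linarith
  have hL1pos : 1 ≤ L1 := by
    have : 0 < L1 := by exact_mod_cast hL1pos'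
    omega
  have hL0n : L0 ≤ c.n ^ 4 := by
    have h1 : (L0 : ℝ) ≤ (c.n : ℝ) ^ 4 := by
      calc (L0 : ℝ) ≤ 2 * N ^ 2 * q ^ 10 := hL0b
        _ ≤ q * N ^ 2 * q ^ 10 := by gcongr; linarith
        _ = N ^ 2 * q ^ 11 := by ring
        _ ≤ N ^ 2 * N := by gcongr; exact hNk 11 (by norm_num)
        _ = N ^ 3 := by ring
        _ ≤ N ^ 12 := pow_le_pow_right₀ hN1 (by norm_num)
        _ = (c.n : ℝ) ^ 4 := by rw [← hNn]; ring
    exact_mod_cast h1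
  -- h4
  have hlstr : ∀ a ∈ S, ∀ b ∈ S, a ≠ b →
      ((S.filter (fun z => c.dt t a b z = 0)).card : ℝ) ≤ l := hcol
  have hS4 : (N / q ^ 2) ^ 4 ≤ (S.card : ℝ) ^ 4 := by gcongr
  have hS3 : (N / q ^ 2) ^ 3 ≤ (S.card : ℝ) ^ 3 := by gcongr
  have h4 : 20 * (((S ×ˢ S) ×ˢ (S ×ˢ S)).filter
      (fun z => ¬ Typ c L0 L1 t z.1.1 z.1.2 z.2.1 z.2.2)).card ≤ S.card ^ 4 := by
    have h5 := card_not_typ c L0 L1 t S (subset_refl _) l hl0 hlstr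
    have h6 : 320 * ((l + 1) * (S.card : ℝ) ^ 3) ≤ (S.card : ℝ) ^ 4 := by
      calc 320 * ((l + 1) * (S.card : ℝ) ^ 3) = (320 * (l + 1)) * (S.card : ℝ) ^ 3 := by ring
        _ ≤ S.card * (S.card : ℝ) ^ 3 := mul_le_mul_of_nonneg_right hlS (by positivity)
        _ = (S.card : ℝ) ^ 4 := by ring
    have h7 : 20 * ((((S ×ˢ S) ×ˢ (S ×ˢ S)).filter
      (fun z => ¬ Typ c L0 L1 t z.1.1 z.1.2 z.2.1 z.2.2)).card : ℝ) ≤ (S.card : ℝ) ^ 4 := by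
      have h8 : 0 ≤ (S.card : ℝ) ^ 4 := by positivity
      linarith
    exact_mod_cast h7
  -- h3
  set ρ : ℝ := c.n * q ^ 9 with hρ
  have hρ0 : 0 ≤ ρ := by positivity
  have h3 : 20 * ((S ×ˢ S ×ˢ S).filter
      (fun z => ¬ ((|z.1 - z.2.1| : ℤ) : ℝ) ≤ ρ * ((|c.dt t z.1 z.2.1 z.2.2| : ℤ) : ℝ))).card ≤
        S.card ^ 3 := by
    set X := (S ×ˢ S ×ˢ S).filter
      (fun z => ¬ ((|z.1 - z.2.1| : ℤ) : ℝ) ≤ ρ * ((|c.dt t z.1 z.2.1 z.2.2| : ℤ) : ℝ)) with hX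
    have hcov : X ⊆ (S ×ˢ S ×ˢ S).filter (fun z => c.dt t z.1 z.2.1 z.2.2 = 0) ∪ BD2 c ρ t := by
      intro z hz
      rw [hX, mem_filter] at hz
      by_cases h0 : c.dt t z.1 z.2.1 z.2.2 = 0
      · exact mem_union_left _ (mem_filter.mpr ⟨hz.1, h0⟩)
      · apply mem_union_right
        rw [BD2, mem_filter]
        have hz1 := hz.1
        rw [mem_product, mem_product] at hz1 ⊢
        refine ⟨⟨(mem_inter.mp hz1.1).1, (mem_inter.mp hz1.2.1).1, (mem_inter.mp hz1.2.2).1⟩, h0,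
          not_le.mp hz.2⟩
    have h5 := c.col_triples t S l hl0 hlstr
    have h6 : (X.card : ℝ) ≤ (S.card : ℝ) ^ 2 * (l + 1) + ((BD2 c ρ t).card : ℝ) := by
      have h7 : (X.card : ℝ) ≤ (((S ×ˢ S ×ˢ S).filter
          (fun z => c.dt t z.1 z.2.1 z.2.2 = 0)).card : ℝ) + ((BD2 c ρ t).card : ℝ) := by
        exact_mod_cast (card_le_card hcov).trans (card_union_le _ _)
      linarith
    have h8 : 320 * ((S.card : ℝ) ^ 2 * (l + 1)) ≤ (S.card : ℝ) ^ 3 := by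
      calc 320 * ((S.card : ℝ) ^ 2 * (l + 1)) = (S.card : ℝ) ^ 2 * (320 * (l + 1)) := by ring
        _ ≤ (S.card : ℝ) ^ 2 * S.card := mul_le_mul_of_nonneg_left hlS (by positivity)
        _ = (S.card : ℝ) ^ 3 := by ring
    have h9 : 20 * (X.card : ℝ) ≤ (S.card : ℝ) ^ 3 := by
      have : 0 ≤ (S.card : ℝ) ^ 3 := by positivity
      linarith
    exact_mod_cast h9
  obtain ⟨C', hC'S, Γ, hΓ, hC'c, hdiff, hdet⟩ :=
    find_class c hb L0 L1 t ρ hρ0 hL1pos hL10 hL0n S hSpos h4 h3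
  have hC5 : N / q ^ 5 ≤ (C'.card : ℝ) := by
    have h1 : N / (4 * q) ≤ 2 * q ^ 3 * C'.card := hScard.trans hC'c
    have h2 : N ≤ 8 * q ^ 4 * C'.card := by
      rw [div_le_iff₀ (by positivity)] at h1
      calc N ≤ 2 * q ^ 3 * C'.card * (4 * q) := h1
        _ = 8 * q ^ 4 * C'.card := by ring
    rw [div_le_iff₀ (by positivity)]
    calc N ≤ 8 * q ^ 4 * C'.card := h2
      _ ≤ q * q ^ 4 * C'.card := by gcongr; linarith
      _ = C'.card * q ^ 5 := by ring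
  have hg1 : ((q0 ^ 600 + 1 : ℕ) : ℝ) ≤ 2 * q ^ 600 := by
    push_cast
    have : (1 : ℝ) ≤ q ^ 600 := one_le_pow₀ hq1
    rw [← hqdef]
    linarith
  have hq0n : 0 < q0 := by
    have : (0 : ℝ) < (q0 : ℝ) := hq0
    exact_mod_cast this
  have hsl := slice' c t C' hC'S (2 * ρ * ((L0 : ℝ) ^ 8 / (L1 : ℝ) ^ 7) * Γ) Γ hdiff (q0 ^ 600) L hΓ
    (by positivity) hdet l hl0 (by
      intro a ha b hb' hab
      refine le_trans ?_ (hcol a (hC'S ha) b (hC'S hb') hab)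
      exact_mod_cast card_le_card (filter_subset_filter _ hC'S)) (by
      have h1 : 16 * (l + 1) * ((q0 ^ 600 + 1 : ℕ) : ℝ) ≤ 16 * (2 * l) * (2 * q ^ 600) := by
        gcongr
        linarith
      refine h1.trans ?_
      refine le_trans ?_ hC5
      have e1 : 16 * (2 * l) * (2 * q ^ 600) = 64 * (N / q ^ 10) := by
        rw [hl]
        field_simp
        ring
      rw [e1]
      have h2 : 64 * (N / q ^ 10) ≤ q * (N / q ^ 10) := by gcongr; linarith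
      refine h2.trans ?_
      have e2 : q * (N / q ^ 10) = N / q ^ 9 := by field_simp
      rw [e2]
      apply div_le_div_of_nonneg_left hN.le (by positivity)
      exact pow_le_pow_right₀ hq1 (by norm_num)) (by
      have hrat : (L0 : ℝ) ^ 8 / (L1 : ℝ) ^ 7 ≤ 256 * N ^ 2 * q ^ 255 := by
        rw [div_le_iff₀ (by positivity)]
        calc (L0 : ℝ) ^ 8 = L0 * (L0 : ℝ) ^ 7 := by ring
          _ ≤ (2 * N ^ 2 * q ^ 10) * (2 * q ^ 35 * L1) ^ 7 := by gcongr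
          _ = 256 * N ^ 2 * q ^ 255 * (L1 : ℝ) ^ 7 := by ring
      have h1 : 2 * (2 * ρ * ((L0 : ℝ) ^ 8 / (L1 : ℝ) ^ 7) * Γ) ≤
          2 * (2 * ρ * (256 * N ^ 2 * q ^ 255) * Γ) := by gcongr
      refine h1.trans ?_
      have e1 : 2 * (2 * ρ * (256 * N ^ 2 * q ^ 255) * Γ) =
          1024 * (c.n * N ^ 2 * q ^ 264 * Γ) := by rw [hρ]; ring
      rw [e1]
      have h2 : 1024 * (c.n * N ^ 2 * q ^ 264 * Γ) ≤ q * (c.n * N ^ 2 * q ^ 264 * Γ) := by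
        gcongr
        linarith
      refine h2.trans ?_
      have h3 : N ^ 2 / q ^ 335 * ((c.n : ℝ) * ((q0 ^ 600 : ℕ) : ℝ) * Γ) ≤
          L * ((c.n : ℝ) * ((q0 ^ 600 : ℕ) : ℝ) * Γ) := by gcongr
      refine le_trans (le_of_eq ?_) h3
      push_cast
      rw [← hqdef]
      field_simp)
  have h1 : 3 * (N / q ^ 5) ^ 4 ≤ 4 * (2 * q ^ 600) ^ 3 * ((c.W (c.n * q0 ^ 600) L t).card : ℝ) := by
    calc 3 * (N / q ^ 5) ^ 4 ≤ 3 * (C'.card : ℝ) ^ 4 := by gcongr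
      _ ≤ 4 * ((q0 ^ 600 + 1 : ℕ) : ℝ) ^ 3 * ((c.W (c.n * q0 ^ 600) L t).card : ℝ) := hsl
      _ ≤ _ := by gcongr
  set Wc : ℝ := ((c.W (c.n * q0 ^ 600) L t).card : ℝ) with hWc
  have hW0 : 0 ≤ Wc := Nat.cast_nonneg _
  rw [div_le_iff₀ (by positivity)]
  have e1 : (N / q ^ 5) ^ 4 = N ^ 4 / q ^ 20 := by rw [div_pow]; ring
  rw [e1] at h1
  have h2 : 3 * N ^ 4 ≤ 32 * q ^ 1820 * Wc := by
    have h3 : 3 * (N ^ 4 / q ^ 20) * q ^ 20 ≤ 4 * (2 * q ^ 600) ^ 3 * Wc * q ^ 20 := by gcongr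
    have e2 : 3 * (N ^ 4 / q ^ 20) * q ^ 20 = 3 * N ^ 4 := by field_simp
    have e3 : 4 * (2 * q ^ 600) ^ 3 * Wc * q ^ 20 = 32 * q ^ 1820 * Wc := by ring
    rw [e2, e3] at h3
    exact h3
  have h5 : 0 ≤ N ^ 4 := by positivity
  nlinarith

end Pool.Agent.MP_741d1b.All
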