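import Mathlib
import Pool.Agent.Lib.MP_741d1b_nt_all.PPer
import Pool.Agent.Lib.MP_741d1b_nt_h87.T3Case2b

/-!
Row P12: clusters without rich lines force large energy.
-/

set_option autoImplicit false

namespace Pool.Agent.MP_741d1b.All

open Finset Classical
open Pool.Agent.MP_741d1b.H87

/- PROOF. As Ctx.slice_case (T3Case2b.lean). q = q0. L0 = ⌈N² q^10⌉₊ ≤ 2 N² q^10 ≤ n / 4,
L1 = ⌊L0 / q^35⌋₊ ≥ L0 / (2 q^35). Markov (H87.markov, 3 times M / 48):
(1) f = 40 card BD2 (ρ = n q^9): sum ≤ M * 240 N³ / q^9, thr = (N / q²)³, 48 * 240 ≤ q³;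
(2) f = 320 card BQ4: sum ≤ M * 320 (12 N⁴ / q^10 + 221184 N³), thr = (N / q²)^4;
(3) f = 320 card Wu (m = n, 3 L0 < n): sum ≤ 320 * 12 M / n² * 8 L0 q (L1 n² + q En)
≤ M * 30720 (L0 L1 q + L0 q² En / n²) ≤ M * 30720 (4 N⁴ / q^14 + 2 N⁴ / q^3980) (hE), thr = (N / q²)^4.
At least M / 16 good t in Θ, per_t' with L = ⌈N² / q^335⌉₊ ≤ 2 N² / q^335 ≤ N² / q^334.
M / 16 * N⁴ / (16 q^1820) ≤ sum W ≤ 12 M / (n q^600)² * 8 L q (L n² + q En) (sum_W, sol_sum' with L1 = L):
96 L² q / q^1200 ≤ 96 N⁴ / q^1867 is at most half, so En ≥ N^8 / (49152 q^288) ≥ N^8 / q^300. -/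
theorem slice_case' (c : Ctx) (q0 : ℕ) (hb : Nb c.n (q0 : ℝ)) (N : ℝ) (hNn : N ^ 3 = c.n)
    (hN : 0 < N) (hbig : (q0 : ℝ) ^ 2000 ≤ N) (hK1 : N / q0 ≤ c.K)
    (hE : En c.As < N ^ 8 / (q0 : ℝ) ^ 4000)
    (Θ : Finset ℕ) (hΘ : Θ ⊆ range c.M) (hΘc : (c.M : ℝ) / 8 ≤ Θ.card)
    (hS : ∀ t ∈ Θ, (c.K : ℝ) / 4 ≤ ((c.C t ∩ c.As).card : ℝ))
    (hcol : ∀ t ∈ Θ, ∀ a ∈ c.C t ∩ c.As, ∀ b ∈ c.C t ∩ c.As, a ≠ b →
      (((c.C t ∩ c.As).filter (fun z => c.dt t a b z = 0)).card : ℝ) ≤ N / (q0 : ℝ) ^ 610) :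
    N ^ 8 / (q0 : ℝ) ^ 300 ≤ En c.As := by
  obtain ⟨q, hqdef⟩ : ∃ q : ℝ, q = (q0 : ℝ) := ⟨_, rfl⟩
  rw [← hqdef] at hb hbig hK1 hE hcol ⊢
  have hq' : (10000 : ℝ) ≤ q := hb.hq
  have hq0 : 0 < q := by linarith
  have hq1 : 1 ≤ q := by linarith
  have hq0n : 10000 ≤ q0 := by
    rw [hqdef] at hq'
    exact_mod_cast hq'
  have hq2 : (100000000 : ℝ) ≤ q ^ 2 := by nlinarith
  have hn := c.n_pos'
  have hM := c.M_pos'
  have hN1 : 1 ≤ N := le_trans (one_le_pow₀ hq1) hbig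
  have hNk : ∀ k ≤ 2000, q ^ k ≤ N := fun k hk => (pow_le_pow_right₀ hq1 hk).trans hbig
  have hNN : N ≤ N ^ 2 := by
    calc N = N ^ 1 := by ring
      _ ≤ N ^ 2 := pow_le_pow_right₀ hN1 (by norm_num)
  have hNN3 : N ^ 2 ≤ N ^ 3 := pow_le_pow_right₀ hN1 (by norm_num)
  have hn24 : 24 ≤ c.n := hb.hn
  -- the parameters
  obtain ⟨L0, hL0def⟩ : ∃ L0 : ℕ, L0 = ⌈N ^ 2 * q ^ 10⌉₊ := ⟨_, rfl⟩
  have hL0a : N ^ 2 * q ^ 10 ≤ L0 := by rw [hL0def]; exact Nat.le_ceil _
  have hone : 1 ≤ N ^ 2 * q ^ 10 := by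
    calc (1 : ℝ) = 1 * 1 := by ring
      _ ≤ N ^ 2 * q ^ 10 := mul_le_mul (one_le_pow₀ hN1) (one_le_pow₀ hq1) (by norm_num)
          (by positivity)
  have hL0b : (L0 : ℝ) ≤ 2 * N ^ 2 * q ^ 10 := by
    have h1 := Nat.ceil_lt_add_one (a := N ^ 2 * q ^ 10) (by positivity)
    rw [← hL0def] at h1
    linarith
  have hL0pos : (0 : ℝ) < L0 := lt_of_lt_of_le (by positivity) hL0a
  have hL0n : 0 < L0 := by exact_mod_cast hL0pos
  obtain ⟨L1, hL1def⟩ : ∃ L1 : ℕ, L1 = ⌊(L0 : ℝ) / q ^ 35⌋₊ := ⟨_, rfl⟩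
  have hL1a : (L1 : ℝ) ≤ L0 / q ^ 35 := by rw [hL1def]; exact Nat.floor_le (by positivity)
  have hL1b : (L0 : ℝ) ≤ 2 * q ^ 35 * L1 := by
    have h1 := Nat.lt_floor_add_one ((L0 : ℝ) / q ^ 35)
    rw [← hL1def] at h1
    have h2 : 2 ≤ (L0 : ℝ) / q ^ 35 := by
      rw [le_div_iff₀ (by positivity)]
      calc 2 * q ^ 35 ≤ q * q ^ 35 := mul_le_mul_of_nonneg_right (by linarith) (by positivity)
        _ = q ^ 36 := by ring
        _ ≤ N := hNk 36 (by norm_num)
        _ ≤ N ^ 2 * 1 := by linarith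
        _ ≤ N ^ 2 * q ^ 10 := mul_le_mul_of_nonneg_left (one_le_pow₀ hq1) (by positivity)
        _ ≤ L0 := hL0a
    have h3 : (L0 : ℝ) / q ^ 35 ≤ 2 * L1 := by linarith
    rw [div_le_iff₀ (by positivity)] at h3
    linarith
  have hL10 : L1 ≤ L0 := by
    have h1 : (L1 : ℝ) ≤ L0 := by
      refine hL1a.trans ?_
      rw [div_le_iff₀ (by positivity)]
      calc (L0 : ℝ) = L0 * 1 := by ring
        _ ≤ L0 * q ^ 35 := mul_le_mul_of_nonneg_left (one_le_pow₀ hq1) hL0pos.le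
    exact_mod_cast h1
  have hL0n3 : 3 * L0 < c.n := by
    have h1 : ((3 * L0 : ℕ) : ℝ) < (c.n : ℝ) := by
      push_cast
      rw [← hNn]
      calc 3 * (L0 : ℝ) ≤ 3 * (2 * N ^ 2 * q ^ 10) := by linarith
        _ = (6 * q ^ 10) * N ^ 2 := by ring
        _ < (q * q ^ 10) * N ^ 2 := by
            apply mul_lt_mul_of_pos_right _ (by positivity)
            apply mul_lt_mul_of_pos_right _ (by positivity)
            linarith
        _ = q ^ 11 * N ^ 2 := by ring
        _ ≤ N * N ^ 2 := mul_le_mul_of_nonneg_right (hNk 11 (by norm_num)) (by positivity)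
        _ = N ^ 3 := by ring
    exact_mod_cast h1
  have hL1c : (L1 : ℝ) ≤ 2 * N ^ 2 / q ^ 25 := by
    refine hL1a.trans ?_
    calc (L0 : ℝ) / q ^ 35 ≤ 2 * N ^ 2 * q ^ 10 / q ^ 35 :=
          div_le_div_of_nonneg_right hL0b (by positivity)
      _ = 2 * N ^ 2 / q ^ 25 := by field_simp
  set E := En c.As with hEdef
  have hE0 : 0 ≤ E := En_nonneg _
  -- the bad multipliers
  set β1 : ℕ → ℝ := fun t => 40 * ((BD2 c (c.n * q ^ 9) t).card : ℝ) with hβ1
  set β2 : ℕ → ℝ := fun t => 320 * ((BQ4 c L0 t).card : ℝ) with hβ2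
  set β3 : ℕ → ℝ := fun t => 320 * ((Wu c c.n L1 L0 t).card : ℝ) with hβ3
  have hb1 : (((range c.M).filter (fun t => (N / q ^ 2) ^ 3 < β1 t)).card : ℝ) ≤ c.M / 48 := by
    apply markov β1 _ (240 * c.n / q ^ 9) ((N / q ^ 2) ^ 3) (by positivity)
    · simp only [hβ1]
      rw [← mul_sum]
      have h1 := sum_BD2 c (c.n * q ^ 9) (by positivity)
      calc 40 * ∑ t ∈ range c.M, ((BD2 c (c.n * q ^ 9) t).card : ℝ) ≤
          40 * (6 * c.M * (c.n : ℝ) ^ 2 / (c.n * q ^ 9)) :=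
            mul_le_mul_of_nonneg_left h1 (by norm_num)
        _ = _ := by field_simp; norm_num
    · rw [← hNn]
      calc 48 * (240 * N ^ 3 / q ^ 9) = (N / q ^ 2) ^ 3 * (11520 / q ^ 3) := by
            field_simp; norm_num
        _ ≤ (N / q ^ 2) ^ 3 * 1 := by
            apply mul_le_mul_of_nonneg_left _ (by positivity)
            rw [div_le_one (by positivity)]
            calc (11520 : ℝ) ≤ q ^ 2 := by linarith
              _ ≤ q ^ 3 := pow_le_pow_right₀ hq1 (by norm_num)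
        _ = _ := mul_one _
    · intro t
      simp only [hβ1]
      positivity
  have hb2 : (((range c.M).filter (fun t => (N / q ^ 2) ^ 4 < β2 t)).card : ℝ) ≤ c.M / 48 := by
    apply markov β2 _ (320 * (12 * N ^ 4 / q ^ 10 + 221184 * N ^ 3)) ((N / q ^ 2) ^ 4)
      (by positivity)
    · simp only [hβ2]
      rw [← mul_sum]
      have h1 := sum_BQ4 c L0 hL0n hn24
      have h2 : 12 * (c.n : ℝ) ^ 2 / L0 ≤ 12 * N ^ 4 / q ^ 10 := by
        rw [← hNn, div_le_div_iff₀ hL0pos (by positivity)]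
        calc 12 * (N ^ 3) ^ 2 * q ^ 10 = 12 * N ^ 4 * (N ^ 2 * q ^ 10) := by ring
          _ ≤ 12 * N ^ 4 * L0 := mul_le_mul_of_nonneg_left hL0a (by positivity)
      have h3 : (c.M : ℝ) * (12 * (c.n : ℝ) ^ 2 / L0 + 221184 * c.n) ≤
          c.M * (12 * N ^ 4 / q ^ 10 + 221184 * N ^ 3) := by
        apply mul_le_mul_of_nonneg_left _ hM.le
        rw [hNn]
        linarith
      calc 320 * ∑ t ∈ range c.M, ((BQ4 c L0 t).card : ℝ) ≤
          320 * (c.M * (12 * N ^ 4 / q ^ 10 + 221184 * N ^ 3)) :=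
            mul_le_mul_of_nonneg_left (h1.trans h3) (by norm_num)
        _ = _ := by ring
    · have e1 : 12 * N ^ 4 / q ^ 10 = (N / q ^ 2) ^ 4 * (12 / q ^ 2) := by
        field_simp
      have e2 : 221184 * N ^ 3 = (N / q ^ 2) ^ 4 * (221184 * q ^ 8 / N) := by
        field_simp
      have k1 : 12 / q ^ 2 ≤ 12 / 100000000 :=
        div_le_div_of_nonneg_left (by norm_num) (by norm_num) hq2
      have k2 : 221184 * q ^ 8 / N ≤ 1 / 100000000 := by
        rw [div_le_div_iff₀ hN (by norm_num)]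
        have hq4 : (100000000 : ℝ) * 100000000 ≤ q ^ 4 := by
          calc (100000000 : ℝ) * 100000000 ≤ q ^ 2 * q ^ 2 := by gcongr
            _ = q ^ 4 := by ring
        calc 221184 * q ^ 8 * 100000000 = (221184 * 100000000) * q ^ 8 := by ring
          _ ≤ q ^ 4 * q ^ 8 := mul_le_mul_of_nonneg_right (by linarith) (by positivity)
          _ = q ^ 12 := by ring
          _ ≤ N := hNk 12 (by norm_num)
          _ = 1 * N := by ring
      rw [e1, e2]
      have hp : 0 ≤ (N / q ^ 2) ^ 4 := by positivity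
      calc 48 * (320 * ((N / q ^ 2) ^ 4 * (12 / q ^ 2) + (N / q ^ 2) ^ 4 * (221184 * q ^ 8 / N))) =
          (N / q ^ 2) ^ 4 * (15360 * (12 / q ^ 2 + 221184 * q ^ 8 / N)) := by ring
        _ ≤ (N / q ^ 2) ^ 4 * 1 := by
            apply mul_le_mul_of_nonneg_left _ hp
            linarith
        _ = _ := mul_one _
    · intro t
      simp only [hβ2]
      positivity
  have hb3 : (((range c.M).filter (fun t => (N / q ^ 2) ^ 4 < β3 t)).card : ℝ) ≤ c.M / 48 := by
    apply markov β3 _ (30720 * (4 * N ^ 4 / q ^ 14 + 2 * N ^ 4 / q ^ 3988)) ((N / q ^ 2) ^ 4)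
      (by positivity)
    · simp only [hβ3]
      rw [← mul_sum]
      have h1 := sum_Wu c (m := c.n) c.n_pos (Nat.le_self_pow (by norm_num) _) hL10 hL0n3
      have h2 := sol_sum' hb c.As c.As_card L1 L0 hL10 (by omega)
      have h3 : 12 * (c.M : ℝ) / (c.n : ℝ) ^ 2 * (8 * L0 * q * (L1 * (c.n : ℝ) ^ 2 + q * En c.As)) ≤
          c.M * (96 * (4 * N ^ 4 / q ^ 14 + 2 * N ^ 4 / q ^ 3988)) := by
        have e1 : 12 * (c.M : ℝ) / (c.n : ℝ) ^ 2 *
            (8 * L0 * q * (L1 * (c.n : ℝ) ^ 2 + q * En c.As)) =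
            c.M * (96 * (L0 * L1 * q + L0 * q ^ 2 * (E / (c.n : ℝ) ^ 2))) := by
          rw [← hEdef]
          field_simp
          ring
        rw [e1]
        apply mul_le_mul_of_nonneg_left _ hM.le
        apply mul_le_mul_of_nonneg_left _ (by norm_num)
        apply add_le_add
        · calc (L0 : ℝ) * L1 * q ≤ (2 * N ^ 2 * q ^ 10) * (2 * N ^ 2 / q ^ 25) * q := by
                gcongr
            _ = 4 * N ^ 4 / q ^ 14 := by field_simp; norm_num
        · have h4 : E / (c.n : ℝ) ^ 2 ≤ N ^ 2 / q ^ 4000 := by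
            rw [← hNn, div_le_div_iff₀ (by positivity) (by positivity)]
            have h5 := hE.le
            rw [le_div_iff₀ (by positivity)] at h5
            calc E * q ^ 4000 ≤ N ^ 8 := h5
              _ = N ^ 2 * (N ^ 3) ^ 2 := by ring
          calc (L0 : ℝ) * q ^ 2 * (E / (c.n : ℝ) ^ 2) ≤
              (2 * N ^ 2 * q ^ 10) * q ^ 2 * (N ^ 2 / q ^ 4000) := by
                apply mul_le_mul _ h4 (by positivity) (by positivity)
                exact mul_le_mul_of_nonneg_right hL0b (by positivity)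
            _ = 2 * N ^ 4 / q ^ 3988 := by
                rw [mul_div_assoc', div_eq_div_iff (by positivity) (by positivity)]
                ring
      calc 320 * ∑ t ∈ range c.M, ((Wu c c.n L1 L0 t).card : ℝ) ≤
          320 * (c.M * (96 * (4 * N ^ 4 / q ^ 14 + 2 * N ^ 4 / q ^ 3988))) := by
            apply mul_le_mul_of_nonneg_left _ (by norm_num)
            refine h1.trans (le_trans ?_ h3)
            exact mul_le_mul_of_nonneg_left h2 (by positivity)
        _ = _ := by ring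
    · have e1 : 4 * N ^ 4 / q ^ 14 = (N / q ^ 2) ^ 4 * (4 / q ^ 6) := by
        field_simp
      have e2 : 2 * N ^ 4 / q ^ 3988 = (N / q ^ 2) ^ 4 * (2 / q ^ 3980) := by
        rw [div_pow, ← pow_mul, div_mul_div_comm, ← pow_add]
        norm_num
        ring
      have k1 : 4 / q ^ 6 ≤ 4 / 100000000 := by
        apply div_le_div_of_nonneg_left (by norm_num) (by norm_num)
        exact hq2.trans (pow_le_pow_right₀ hq1 (by norm_num))
      have k2 : 2 / q ^ 3980 ≤ 2 / 100000000 := by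
        apply div_le_div_of_nonneg_left (by norm_num) (by norm_num)
        exact hq2.trans (pow_le_pow_right₀ hq1 (by norm_num))
      rw [e1, e2]
      have hp : 0 ≤ (N / q ^ 2) ^ 4 := by positivity
      calc 48 * (30720 * ((N / q ^ 2) ^ 4 * (4 / q ^ 6) + (N / q ^ 2) ^ 4 * (2 / q ^ 3980))) =
          (N / q ^ 2) ^ 4 * (1474560 * (4 / q ^ 6 + 2 / q ^ 3980)) := by ring
        _ ≤ (N / q ^ 2) ^ 4 * 1 := by
            apply mul_le_mul_of_nonneg_left _ hp
            linarith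
        _ = _ := mul_one _
    · intro t
      simp only [hβ3]
      positivity
  -- good multipliers
  set X1 := (range c.M).filter (fun t => (N / q ^ 2) ^ 3 < β1 t) with hX1
  set X2 := (range c.M).filter (fun t => (N / q ^ 2) ^ 4 < β2 t) with hX2
  set X3 := (range c.M).filter (fun t => (N / q ^ 2) ^ 4 < β3 t) with hX3
  set Θg := Θ \ (X1 ∪ (X2 ∪ X3)) with hΘg
  have hΘgc : (c.M : ℝ) / 16 ≤ Θg.card := by
    have h1 : Θ ⊆ Θg ∪ (X1 ∪ (X2 ∪ X3)) := by
      intro t ht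
      by_cases h : t ∈ X1 ∪ (X2 ∪ X3)
      · exact mem_union_right _ h
      · exact mem_union_left _ (mem_sdiff.mpr ⟨ht, h⟩)
    have h2 := card_le_card h1
    have h3 := card_union_le Θg (X1 ∪ (X2 ∪ X3))
    have h4 := card_union_le X1 (X2 ∪ X3)
    have h5 := card_union_le X2 X3
    have h6 : Θ.card ≤ Θg.card + X1.card + X2.card + X3.card := by omega
    have h7 : (Θ.card : ℝ) ≤ Θg.card + X1.card + X2.card + X3.card := by exact_mod_cast h6
    linarith
  -- the height bound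
  obtain ⟨L, hLdef⟩ : ∃ L : ℕ, L = ⌈N ^ 2 / q ^ 335⌉₊ := ⟨_, rfl⟩
  have hL2 : N ^ 2 / q ^ 335 ≤ L := by rw [hLdef]; exact Nat.le_ceil _
  have hLbig : 1 ≤ N ^ 2 / q ^ 335 := by
    rw [le_div_iff₀ (by positivity)]
    calc 1 * q ^ 335 = q ^ 335 := one_mul _
      _ ≤ N := hNk 335 (by norm_num)
      _ ≤ N ^ 2 := hNN
  have hLs : (L : ℝ) ≤ N ^ 2 / q ^ 334 := by
    have h1 := Nat.ceil_lt_add_one (a := N ^ 2 / q ^ 335) (by positivity)
    rw [← hLdef] at h1
    have e : N ^ 2 / q ^ 334 = N ^ 2 / q ^ 335 * q := by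
      field_simp
    rw [e]
    calc (L : ℝ) ≤ N ^ 2 / q ^ 335 * 2 := by linarith
      _ ≤ N ^ 2 / q ^ 335 * q := mul_le_mul_of_nonneg_left (by linarith) (by positivity)
  have hLpos : (0 : ℝ) < L := lt_of_lt_of_le (by positivity) hL2
  have hLN : (L : ℝ) ≤ N ^ 2 := by
    refine hLs.trans ?_
    rw [div_le_iff₀ (by positivity)]
    calc N ^ 2 = N ^ 2 * 1 := by ring
      _ ≤ N ^ 2 * q ^ 334 := mul_le_mul_of_nonneg_left (one_le_pow₀ hq1) (by positivity)
  have hLn : L ≤ c.n := by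
    have : (L : ℝ) ≤ c.n := by
      rw [← hNn]
      exact hLN.trans hNN3
    exact_mod_cast this
  -- counts
  have hlow : (c.M : ℝ) / 16 * (N ^ 4 / (16 * q ^ 1820)) ≤
      ∑ t ∈ range c.M, ((c.W (c.n * q0 ^ 600) L t).card : ℝ) := by
    calc (c.M : ℝ) / 16 * (N ^ 4 / (16 * q ^ 1820)) ≤ Θg.card * (N ^ 4 / (16 * q ^ 1820)) :=
          mul_le_mul_of_nonneg_right hΘgc (by positivity)
      _ = ∑ t ∈ Θg, N ^ 4 / (16 * q ^ 1820) := by rw [sum_const, nsmul_eq_mul]
      _ ≤ ∑ t ∈ Θg, ((c.W (c.n * q0 ^ 600) L t).card : ℝ) := by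
          refine sum_le_sum fun t ht => ?_
          rw [hΘg, mem_sdiff, mem_union, mem_union] at ht
          obtain ⟨ht1, ht2⟩ := ht
          push Not at ht2
          obtain ⟨ht2, ht3, ht4⟩ := ht2
          have htr := hΘ ht1
          have k1 : β1 t ≤ (N / q ^ 2) ^ 3 := by
            by_contra h
            push Not at h
            exact ht2 (mem_filter.mpr ⟨htr, h⟩)
          have k2 : β2 t ≤ (N / q ^ 2) ^ 4 := by
            by_contra h
            push Not at h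
            exact ht3 (mem_filter.mpr ⟨htr, h⟩)
          have k3 : β3 t ≤ (N / q ^ 2) ^ 4 := by
            by_contra h
            push Not at h
            exact ht4 (mem_filter.mpr ⟨htr, h⟩)
          have := per_t' c q0 (by rw [← hqdef]; exact hb) N hNn hN
            (by rw [← hqdef]; exact hNk 700 (by norm_num)) (by rw [← hqdef]; exact hK1)
            t (hS t ht1) (by rw [← hqdef]; exact hcol t ht1) L0 L1
            (by rw [← hqdef]; exact hL0a) (by rw [← hqdef]; exact hL0b)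
            (by rw [← hqdef]; exact hL1b) hL10
            (by rw [← hqdef]; exact k1) (by rw [← hqdef]; exact k2) (by rw [← hqdef]; exact k3)
            L (by rw [← hqdef]; exact hL2)
          rw [← hqdef] at this
          exact this
      _ ≤ _ := Finset.sum_le_sum_of_subset_of_nonneg (sdiff_subset.trans hΘ)
          (fun t _ _ => Nat.cast_nonneg _)
  have hg2 : q0 ^ 600 ≤ c.n ^ 2 := by
    have h1 : ((q0 ^ 600 : ℕ) : ℝ) ≤ ((c.n ^ 2 : ℕ) : ℝ) := by
      rw [Nat.cast_pow, Nat.cast_pow, ← hqdef, ← hNn]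
      calc q ^ 600 ≤ N := hNk 600 (by norm_num)
        _ = N ^ 1 := by ring
        _ ≤ N ^ 6 := pow_le_pow_right₀ hN1 (by norm_num)
        _ = (N ^ 3) ^ 2 := by ring
    exact_mod_cast h1
  have hup := c.sum_W (m := c.n * q0 ^ 600) (L := L)
    (Nat.mul_pos c.n_pos (pow_pos (by omega) 600)) (by
      calc c.n * q0 ^ 600 ≤ c.n * c.n ^ 2 := Nat.mul_le_mul_left _ hg2
        _ = c.n ^ 3 := by ring) (by
      calc 3 * L ≤ 3 * c.n := Nat.mul_le_mul_left _ hLn
        _ = c.n * 3 := by ring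
        _ < c.n * q0 ^ 600 := by
            apply Nat.mul_lt_mul_of_pos_left _ c.n_pos
            calc 3 < q0 ^ 1 := by rw [pow_one]; omega
              _ ≤ q0 ^ 600 := Nat.pow_le_pow_right (by omega) (by norm_num))
  have hsol := sol_sum' hb c.As c.As_card L L le_rfl hLn
  have hall : (c.M : ℝ) / 16 * (N ^ 4 / (16 * q ^ 1820)) ≤ 12 * c.M / ((c.n : ℝ) * q ^ 600) ^ 2 *
      (8 * L * q * (L * (c.n : ℝ) ^ 2 + q * E)) := by
    refine hlow.trans (hup.trans ?_)
    have e : (((c.n * q0 ^ 600 : ℕ) : ℝ)) = (c.n : ℝ) * q ^ 600 := by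
      rw [Nat.cast_mul, Nat.cast_pow, ← hqdef]
    rw [e]
    exact mul_le_mul_of_nonneg_left hsol (by positivity)
  have hall2 : N ^ 4 / (256 * q ^ 1820) ≤
      96 * (N ^ 4 / q ^ 1867) + 96 * (E / (N ^ 4 * q ^ 1532)) := by
    have h1 : (c.M : ℝ) * (N ^ 4 / (256 * q ^ 1820)) ≤
        c.M * (96 * (N ^ 4 / q ^ 1867) + 96 * (E / (N ^ 4 * q ^ 1532))) := by
      calc (c.M : ℝ) * (N ^ 4 / (256 * q ^ 1820)) =
            (c.M : ℝ) / 16 * (N ^ 4 / (16 * q ^ 1820)) := by
            rw [div_mul_div_comm, mul_div_assoc']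
            congr 1
            ring
        _ ≤ _ := hall
        _ = c.M * (96 * (L * L * q / q ^ 1200) + 96 * (L * (q ^ 2 * E) /
            ((c.n : ℝ) ^ 2 * q ^ 1200))) := by
            rw [mul_pow, ← pow_mul]
            field_simp
            ring
        _ ≤ c.M * (96 * (N ^ 2 / q ^ 334 * (N ^ 2 / q ^ 334) * q / q ^ 1200) +
            96 * (N ^ 2 / q ^ 334 * (q ^ 2 * E) / ((c.n : ℝ) ^ 2 * q ^ 1200))) := by
            gcongr
        _ = _ := by
            rw [← hNn]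
            congr 1
            congr 1
            · congr 1
              rw [div_mul_div_comm, div_mul_eq_mul_div, div_div, div_eq_div_iff (by positivity)
                (by positivity)]
              ring
            · congr 1
              rw [div_mul_eq_mul_div, div_div, div_eq_div_iff (by positivity)
                (by positivity)]
              ring
    exact le_of_mul_le_mul_left h1 hM
  have h3 : 96 * (N ^ 4 / q ^ 1867) ≤ N ^ 4 / (512 * q ^ 1820) := by
    have e1 : 96 * (N ^ 4 / q ^ 1867) = N ^ 4 / (512 * q ^ 1820) * (49152 / q ^ 47) := by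
      rw [mul_div_assoc', div_mul_div_comm, div_eq_div_iff (by positivity) (by positivity)]
      ring
    rw [e1]
    calc N ^ 4 / (512 * q ^ 1820) * (49152 / q ^ 47) ≤ N ^ 4 / (512 * q ^ 1820) * 1 := by
          apply mul_le_mul_of_nonneg_left _ (by positivity)
          rw [div_le_one (by positivity)]
          calc (49152 : ℝ) ≤ q ^ 2 := by linarith
            _ ≤ q ^ 47 := pow_le_pow_right₀ hq1 (by norm_num)
      _ = _ := mul_one _
  have e2 : N ^ 4 / (256 * q ^ 1820) = N ^ 4 / (512 * q ^ 1820) + N ^ 4 / (512 * q ^ 1820) := by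
    rw [← add_div, div_eq_div_iff (by positivity) (by positivity)]
    ring
  have h4 : N ^ 4 / (512 * q ^ 1820) ≤ 96 * (E / (N ^ 4 * q ^ 1532)) := by linarith
  have h5 : N ^ 8 ≤ 49152 * q ^ 288 * E := by
    rw [mul_div_assoc', div_le_div_iff₀ (by positivity) (by positivity)] at h4
    have h6 : (q ^ 1532) * N ^ 8 ≤ (q ^ 1532) * (49152 * q ^ 288 * E) := by
      calc (q ^ 1532) * N ^ 8 = N ^ 4 * (N ^ 4 * q ^ 1532) := by ring
        _ ≤ 96 * E * (512 * q ^ 1820) := h4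
        _ = (q ^ 1532) * (49152 * q ^ 288 * E) := by ring
    exact le_of_mul_le_mul_left h6 (by positivity)
  rw [div_le_iff₀ (by positivity)]
  calc N ^ 8 ≤ 49152 * q ^ 288 * E := h5
    _ ≤ q ^ 2 * q ^ 288 * E := by
        apply mul_le_mul_of_nonneg_right _ hE0
        exact mul_le_mul_of_nonneg_right (by linarith) (by positivity)
    _ = E * q ^ 290 := by ring
    _ ≤ E * q ^ 300 := mul_le_mul_of_nonneg_left (pow_le_pow_right₀ hq1 (by norm_num)) hE0

end Pool.Agent.MP_741d1b.All
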