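import Mathlib
import Pool.Agent.Lib.MP_741d1b_nt_all.CCore
import Pool.Agent.Lib.MP_741d1b_nt_all.PCase
import Pool.Agent.Lib.MP_741d1b_nt_all.LRich
import Pool.Agent.Lib.MP_741d1b_nt_all.DAll
import Pool.Agent.Lib.MP_741d1b_nt_h87.T3None

/-!
Row F3: no context with all clusters of size close to the cube root, better constants.
-/

set_option autoImplicit false

namespace Pool.Agent.MP_741d1b.All

open Finset Classical
open Pool.Agent.MP_741d1b.H87

/- PROOF. As no_clusters' (FNone.lean) with energy_of_tc2: core' with Q = q0², P = q0^4000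
(Q^413 P^128 = q0^512826 ≤ N); rich_start with Q1 = q0^610 and l0 = q0² Q1³ = q0^1832:
q0^2660 l0^730 = q0^1340020 < N^3. -/
theorem no_clusters2 (c : Ctx) (q0 : ℕ) (hb : Nb c.n (q0 : ℝ)) (N : ℝ) (hNn : N ^ 3 = c.n)
    (hN : 0 < N) (hbig : (q0 : ℝ) ^ 513000 ≤ N)
    (hK1 : N / q0 ≤ c.K) (hK2 : (c.K : ℝ) ≤ N) : False := by
  have hq' : (10000 : ℝ) ≤ q0 := hb.hq
  have hq0 : (0 : ℝ) < q0 := by linarith
  have hq1 : (1 : ℝ) ≤ q0 := by linarith
  have hK0 : (0 : ℝ) < c.K := lt_of_lt_of_le (by positivity) hK1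
  have hK : 0 < c.K := by exact_mod_cast hK0
  have hbig2 : ∀ k : ℕ, k ≤ 513000 → (q0 : ℝ) ^ k ≤ N := fun k hk =>
    (pow_le_pow_right₀ hq1 hk).trans hbig
  have hM := c.M_pos'
  have hcore : En c.As < N ^ 8 / (q0 : ℝ) ^ 4000 := by
    refine core' c hb N ((q0 : ℝ) ^ 2) ((q0 : ℝ) ^ 4000) hNn hN (le_refl _) (one_le_pow₀ hq1) ?_
      ?_ hK2
    · rw [← pow_mul, ← pow_mul, ← pow_add]
      exact hbig2 _ (by norm_num)
    · refine le_trans ?_ hK1
      apply div_le_div_of_nonneg_left hN.le hq0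
      calc (q0 : ℝ) = (q0 : ℝ) ^ 1 := (pow_one _).symm
        _ ≤ (q0 : ℝ) ^ 2 := pow_le_pow_right₀ hq1 (by norm_num)
  set Θ1 := (range c.M).filter (fun t => (c.K : ℝ) / 4 ≤ ((c.C t ∩ c.As).card : ℝ)) with hΘ1
  have hΘ1c := c.typical_clusters hK
  rw [← hΘ1] at hΘ1c
  set rich : ℕ → Prop := fun t => ∃ a ∈ c.C t ∩ c.As, ∃ b ∈ c.C t ∩ c.As, a ≠ b ∧
    N / (q0 : ℝ) ^ 610 < (((c.C t ∩ c.As).filter (fun z => c.dt t a b z = 0)).card : ℝ) with hrich
  have hsplit : (Θ1.card : ℝ) = ((Θ1.filter rich).card : ℝ) +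
      ((Θ1.filter (fun t => ¬ rich t)).card : ℝ) := by
    exact_mod_cast (card_filter_add_card_filter_not rich).symm
  have hAs : c.As.card ≤ c.n := by
    rw [← c.hA]
    exact card_filter_le _ _
  rcases le_or_gt ((c.M : ℝ) / 16) ((Θ1.filter rich).card : ℝ) with hcase | hcase
  · -- rich lines
    have hex : ∀ t : ℕ, ∃ L : Finset ℤ, t ∈ Θ1.filter rich →
        c.Lin t L ∧ N / (q0 : ℝ) ^ 610 ≤ L.card := by
      intro t
      by_cases ht : t ∈ Θ1.filter rich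
      · obtain ⟨a, _, b, _, hab, hL⟩ := (mem_filter.mp ht).2
        exact ⟨_, fun _ => ⟨c.line_param t a b hab, hL.le⟩⟩
      · exact ⟨∅, fun h => absurd h ht⟩
    choose L hL using hex
    obtain ⟨h, h1, h2, h3⟩ := rich_start c hb N ((q0 : ℝ) ^ 610) hNn hN (one_le_pow₀ hq1) (by
      rw [← pow_mul, ← pow_succ']
      exact hbig2 _ (by norm_num)) (Θ1.filter rich)
      ((filter_subset _ _).trans (filter_subset _ _)) hcase L (fun t ht => (hL t ht).1)
      (fun t ht => (hL t ht).2)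
    have e1 : (q0 : ℝ) ^ 2 * ((q0 : ℝ) ^ 610) ^ 3 = (q0 : ℝ) ^ 1832 := by
      rw [← pow_mul, ← pow_add]
    rw [e1] at h3
    have h4 := energy_of_tc2 hb N hNn hN c.As hAs ((q0 : ℝ) ^ 1832) (by
      calc (q0 : ℝ) = (q0 : ℝ) ^ 1 := (pow_one _).symm
        _ ≤ (q0 : ℝ) ^ 1832 := pow_le_pow_right₀ hq1 (by norm_num)) (by
      rw [← pow_mul, ← pow_add]
      have g1 : ((q0 : ℝ) ^ 513000) ^ 3 ≤ N ^ 3 := pow_le_pow_left₀ (pow_nonneg hq0.le _) hbig 3
      rw [← pow_mul] at g1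
      refine lt_of_lt_of_le ?_ g1
      exact pow_lt_pow_right₀ (by linarith) (by norm_num)) h h1 h3
    rw [← pow_mul, ← pow_add] at h4
    have h5 : N ^ 8 / (q0 : ℝ) ^ 4000 ≤ N ^ 8 / (q0 : ℝ) ^ (5 + 1832 * 2) := by
      apply div_le_div_of_nonneg_left (by positivity) (by positivity)
      exact pow_le_pow_right₀ hq1 (by norm_num)
    exact absurd (lt_of_le_of_lt (h5.trans h4) hcore) (lt_irrefl _)
  · have hcase2 : (c.M : ℝ) / 8 ≤ ((Θ1.filter (fun t => ¬ rich t)).card : ℝ) := by linarith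
    have h1 := slice_case' c q0 hb N hNn hN (hbig2 _ (by norm_num)) hK1 hcore
      (Θ1.filter (fun t => ¬ rich t))
      ((filter_subset _ _).trans (filter_subset _ _)) hcase2
      (fun t ht => (mem_filter.mp (mem_filter.mp ht).1).2) (by
        intro t ht a ha b hb' hab
        by_contra h
        push Not at h
        exact (mem_filter.mp ht).2 ⟨a, ha, b, hb', hab, h⟩)
    have h3 : N ^ 8 / (q0 : ℝ) ^ 4000 ≤ N ^ 8 / (q0 : ℝ) ^ 300 := by
      apply div_le_div_of_nonneg_left (by positivity) (by positivity)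
      exact pow_le_pow_right₀ hq1 (by norm_num)
    exact absurd (lt_of_le_of_lt (h3.trans h1) hcore) (lt_irrefl _)

end Pool.Agent.MP_741d1b.All
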