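import Mathlib
import Pool.Agent.Lib.MP_741d1b_nt_all.FNone2
import Pool.Agent.Lib.MP_741d1b_nt_all.FNb
import Pool.Agent.Lib.MP_741d1b_nt_h87.T3Final

/-!
Row F4: the exponent can be improved by `1/1600000` for all finite sets of integers.
-/

set_option autoImplicit false

namespace Pool.Agent.MP_741d1b.All

open Finset Classical
open Pool.Agent.MP_741d1b.H87

/- PROOF. As polynomially_bounded (T3Final.lean) with B = ∑ a ∈ A, a.natAbs,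
Δ = n ^ 3 * (8 * (B + 1)), η = 1 / 1539000 (q0^513000 ≤ n^(1/3) = N). -/
theorem all_sets2 :
    ∃ N0 : ℕ, ∀ n : ℕ, N0 ≤ n → ∀ A : Finset ℤ, A.card = n →
      ∃ θ : ℝ, ∀ x : ℝ,
        (({a : ℤ | a ∈ A ∧ ∃ k : ℤ, x ≤ θ * (a : ℝ) - (k : ℝ) ∧
            θ * (a : ℝ) - (k : ℝ) ≤ x + 1 / (n : ℝ)}.ncard : ℕ) : ℝ) ≤
          (n : ℝ) ^ ((1 : ℝ) / 3 - 1 / 1600000) := by
  obtain ⟨η, hη⟩ : ∃ η : ℝ, η = 1 / 1539000 := ⟨_, rfl⟩
  have hη0 : 0 < η := by rw [hη]; norm_num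
  have hη1 : η ≤ 1 := by rw [hη]; norm_num
  have hη2 : 0 < η - 1 / 1600000 := by rw [hη]; norm_num
  obtain ⟨N0, hN0'⟩ := nb_exists η hη0 hη1
  obtain ⟨N1, hN1⟩ := ev_rpow (η - 1 / 1600000) hη2 2
  obtain ⟨N2, hN2⟩ := ev_rpow (1 / 1600000) (by norm_num) 2
  refine ⟨N0 + N1 + N2 + 24, ?_⟩
  intro n hn A hA
  have hNb := hN0' n (by omega)
  have e1 := hN1 n (by omega)
  have e2 := hN2 n (by omega)
  have hn24 : 24 ≤ n := by omega
  have hn24' : (24 : ℝ) ≤ n := by exact_mod_cast hn24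
  have hn1 : (1 : ℝ) ≤ n := by linarith
  have hn0 : (0 : ℝ) < n := by linarith
  by_contra hcon
  push Not at hcon
  -- parameters
  obtain ⟨N, hN⟩ : ∃ N : ℝ, N = (n : ℝ) ^ ((1 : ℝ) / 3) := ⟨_, rfl⟩
  have hN0 : 0 < N := by rw [hN]; positivity
  have hNn : N ^ 3 = n := by
    rw [hN, ← Real.rpow_natCast, ← Real.rpow_mul hn0.le]
    norm_num
  obtain ⟨q0, hq0⟩ : ∃ q0 : ℕ, q0 = ⌊(n : ℝ) ^ η⌋₊ := ⟨_, rfl⟩
  rw [← hq0] at hNb
  have hq0le : (q0 : ℝ) ≤ (n : ℝ) ^ η := by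
    rw [hq0]; exact Nat.floor_le (by positivity)
  have hq0ge : (n : ℝ) ^ ((1 : ℝ) / 1600000) ≤ q0 := by
    have h1 := Nat.lt_floor_add_one ((n : ℝ) ^ η)
    rw [← hq0] at h1
    have h2 : (n : ℝ) ^ η = (n : ℝ) ^ ((1 : ℝ) / 1600000) * (n : ℝ) ^ (η - 1 / 1600000) := by
      rw [← Real.rpow_add hn0]; congr 1; ring
    have h3 : 1 ≤ (n : ℝ) ^ ((1 : ℝ) / 1600000) := Real.one_le_rpow hn1 (by positivity)
    have h4 : (n : ℝ) ^ ((1 : ℝ) / 1600000) * 2 ≤ (n : ℝ) ^ η := by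
      rw [h2]
      exact mul_le_mul_of_nonneg_left e1 (by linarith)
    linarith
  have hq0pos : (0 : ℝ) < q0 := hNb.q_pos
  have hbig : (q0 : ℝ) ^ 513000 ≤ N := by
    calc (q0 : ℝ) ^ 513000 ≤ ((n : ℝ) ^ η) ^ 513000 :=
          pow_le_pow_left₀ hq0pos.le hq0le _
      _ = N := by
          rw [hN, ← Real.rpow_natCast, ← Real.rpow_mul hn0.le]
          congr 1
          rw [hη]
          push_cast
          norm_num
  obtain ⟨y, hy⟩ : ∃ y : ℝ, y = (n : ℝ) ^ ((1 : ℝ) / 3 - 1 / 1600000) := ⟨_, rfl⟩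
  rw [← hy] at hcon
  have hy1 : 1 ≤ y := by rw [hy]; exact Real.one_le_rpow hn1 (by norm_num)
  obtain ⟨K, hK⟩ : ∃ K : ℕ, K = ⌊y⌋₊ + 1 := ⟨_, rfl⟩
  have hKge : y ≤ K := by
    rw [hK]; push_cast
    exact (Nat.lt_floor_add_one y).le
  have hKle : (K : ℝ) ≤ y + 1 := by
    rw [hK]; push_cast
    have := Nat.floor_le (show 0 ≤ y by linarith)
    linarith
  have hNy : N = y * (n : ℝ) ^ ((1 : ℝ) / 1600000) := by
    rw [hN, hy, ← Real.rpow_add hn0]; congr 1; ring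
  have hK2 : (K : ℝ) ≤ N := by
    refine hKle.trans ?_
    have h2 : y * 2 ≤ N := by
      rw [hNy]; exact mul_le_mul_of_nonneg_left e2 (by linarith)
    linarith
  have hK1 : N / q0 ≤ K := by
    refine le_trans ?_ hKge
    rw [div_le_iff₀ hq0pos, hNy]
    exact mul_le_mul_of_nonneg_left hq0ge (by linarith)
  -- the bound for the elements
  obtain ⟨B, hB⟩ : ∃ B : ℕ, B = ∑ a ∈ A, a.natAbs := ⟨_, rfl⟩
  have hAB : ∀ a ∈ A, |a| ≤ B := by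
    intro a ha
    have h1 : a.natAbs ≤ B := by
      rw [hB]
      exact single_le_sum (f := fun a : ℤ => a.natAbs) (fun _ _ => Nat.zero_le _) ha
    rw [Int.abs_eq_natAbs]
    exact_mod_cast h1
  -- the divisor bound
  obtain ⟨Δ, hΔ⟩ : ∃ Δ : ℝ, Δ = ((n ^ 3 * (8 * (B + 1)) : ℕ) : ℝ) := ⟨_, rfl⟩
  have hΔ1 : 1 ≤ Δ := by
    rw [hΔ]
    have h1 : 1 ≤ n ^ 3 * (8 * (B + 1)) := by
      have : 0 < n ^ 3 := pow_pos (by omega) 3
      exact Nat.succ_le_of_lt (Nat.mul_pos this (by omega))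
    exact_mod_cast h1
  have hΔdiv : ∀ u : ℕ, 0 < u → u ≤ n ^ 3 * (8 * (B + 1)) → (u.divisors.card : ℝ) ≤ Δ := by
    intro u hu0 hu
    rw [hΔ]
    exact_mod_cast (Nat.card_divisors_le_self u).trans hu
  -- the prime
  obtain ⟨M, hMlt, hMp⟩ := Nat.exists_infinite_primes (n ^ 3 * (8 * (B + 1)) + 1)
  have hM0 : (0 : ℝ) < M := by exact_mod_cast hMp.pos
  -- clusters
  have hcl : ∀ t : ℕ, ∃ (Ct : Finset ℤ) (kt : ℤ → ℤ) (Xt : ℝ), Ct ⊆ A ∧ Ct.card = K ∧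
      (∀ a ∈ Ct, Xt ≤ (t : ℝ) * a - (kt a : ℝ) * M) ∧
      (∀ a ∈ Ct, (t : ℝ) * a - (kt a : ℝ) * M ≤ Xt + (M : ℝ) / n) := by
    intro t
    obtain ⟨x, hx⟩ := hcon ((t : ℝ) / M)
    set P : ℤ → Prop := fun a => ∃ k : ℤ, x ≤ (t : ℝ) / M * (a : ℝ) - (k : ℝ) ∧
            (t : ℝ) / M * (a : ℝ) - (k : ℝ) ≤ x + 1 / (n : ℝ) with hP
    have hset : {a : ℤ | a ∈ A ∧ P a} = ((A.filter P : Finset ℤ) : Set ℤ) := by
      ext a
      simp
    rw [hset, Set.ncard_coe_finset] at hx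
    have hKc : K ≤ (A.filter P).card := by
      rw [hK]
      have : ⌊y⌋₊ < (A.filter P).card := (Nat.floor_lt (by linarith)).mpr hx
      omega
    obtain ⟨Ct, hCt, hCtK⟩ := exists_subset_card_eq hKc
    have hkt : ∀ a : ℤ, ∃ k : ℤ, a ∈ Ct → x ≤ (t : ℝ) / M * (a : ℝ) - (k : ℝ) ∧
            (t : ℝ) / M * (a : ℝ) - (k : ℝ) ≤ x + 1 / (n : ℝ) := by
      intro a
      by_cases ha : a ∈ Ct
      · obtain ⟨k, hk⟩ := (mem_filter.mp (hCt ha)).2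
        exact ⟨k, fun _ => hk⟩
      · exact ⟨0, fun h => absurd h ha⟩
    choose kt hkt using hkt
    refine ⟨Ct, kt, x * M, hCt.trans (filter_subset _ _), hCtK, ?_, ?_⟩
    · intro a ha
      have h1 := (hkt a ha).1
      have h2 := mul_le_mul_of_nonneg_right h1 hM0.le
      refine h2.trans (le_of_eq ?_)
      field_simp
    · intro a ha
      have h1 := (hkt a ha).2
      have h2 := mul_le_mul_of_nonneg_right h1 hM0.le
      have e : ((t : ℝ) / M * (a : ℝ) - (kt a : ℝ)) * M = (t : ℝ) * a - (kt a : ℝ) * M := by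
        field_simp
      rw [e] at h2
      refine h2.trans (le_of_eq ?_)
      ring
  choose Ct kt Xt hCt using hcl
  obtain ⟨c, hcn, hcK⟩ : ∃ c : Ctx, c.n = n ∧ c.K = K := by
    refine ⟨
      { n := n, M := M, A := A, K := K, B := B, C := Ct, k := kt, X := Xt, Δ := Δ,
        hM := hMp, hn := by omega, hA := hA, hCA := fun t => (hCt t).1,
        hCK := fun t => (hCt t).2.1, hlo := fun t => (hCt t).2.2.1,
        hhi := fun t => (hCt t).2.2.2, hB := hAB, hBM := hMlt, hΔ1 := hΔ1, hΔ := hΔdiv },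
      rfl, rfl⟩
  rw [← hcn] at hNb hNn
  rw [← hcK] at hK1 hK2
  exact no_clusters2 c q0 hNb N hNn hN0 hbig hK1 hK2

end Pool.Agent.MP_741d1b.All
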